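import Mathlib

set_option autoImplicit false
open Classical Finset

namespace Pool.Agent.H31.HyperRamsey

/-- finite hypergraph Ramsey theorem -/
theorem ramsey (C : Type) [Fintype C] [Nonempty C] (N : ℕ) : ∀ M : ℕ, ∃ R : ℕ,
    ∀ (α : Type) [LinearOrder α] (S : Finset α) (χ : Finset α → C), R ≤ S.card →
      ∃ T ⊆ S, T.card = M ∧ ∃ col, ∀ P ⊆ T, P.card = N → χ P = col := by
  induction N with
  | zero =>
    intro M
    refine ⟨M, fun α _ S χ h => ?_⟩
    obtain ⟨T, hT, hc⟩ := Finset.exists_subset_card_eq h
    refine ⟨T, hT, hc, χ ∅, fun P _ hP => ?_⟩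
    rw [Finset.card_eq_zero.mp hP]
  | succ N ih =>
    have step : ∀ m : ℕ, ∃ R : ℕ,
        ∀ (α : Type) [LinearOrder α] (S : Finset α) (χ : Finset α → C), R ≤ S.card →
          ∃ T ⊆ S, T.card = m ∧ ∃ κ : α → C, ∀ a ∈ T, ∀ Q ⊆ T, Q.card = N →
            (∀ q ∈ Q, a < q) → χ (insert a Q) = κ a := by
      intro m
      induction m with
      | zero =>
        refine ⟨0, fun α _ S χ _ => ⟨∅, by simp, rfl, fun _ => Classical.arbitrary C, ?_⟩⟩
        intro a ha; simp at ha
      | succ m ihm =>
        obtain ⟨R1, h1⟩ := ihm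
        obtain ⟨R2, h2⟩ := ih R1
        refine ⟨R2 + 1, fun α _ S χ h => ?_⟩
        have hne : S.Nonempty := Finset.card_pos.mp (by omega)
        set a := S.min' hne with ha
        have haS : a ∈ S := Finset.min'_mem _ _
        obtain ⟨T1, hT1, hc1, col, hcol⟩ := h2 α (S.erase a) (fun Q => χ (insert a Q))
          (by rw [Finset.card_erase_of_mem haS]; omega)
        obtain ⟨T2, hT2, hc2, κ, hκ⟩ := h1 α T1 χ hc1.ge
        have haT : a ∉ T2 := fun hh => by simpa using hT1 (hT2 hh)
        refine ⟨insert a T2, ?_, by rw [Finset.card_insert_of_notMem haT, hc2],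
          Function.update κ a col, ?_⟩
        · intro x hx
          rcases Finset.mem_insert.mp hx with rfl | hx
          · exact haS
          · exact Finset.mem_of_mem_erase (hT1 (hT2 hx))
        · intro b hb Q hQ hQc hlt
          have hbS : b ∈ S := by
            rcases Finset.mem_insert.mp hb with rfl | hb
            · exact haS
            · exact Finset.mem_of_mem_erase (hT1 (hT2 hb))
          have hQ2 : Q ⊆ T2 := by
            intro q hq
            rcases Finset.mem_insert.mp (hQ hq) with h3 | h3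
            · exfalso
              have h4 := hlt q hq
              rw [h3] at h4
              exact absurd (S.min'_le b hbS) (not_le.mpr h4)
            · exact h3
          rcases Finset.mem_insert.mp hb with rfl | hb2
          · rw [Function.update_self]
            exact hcol Q (hQ2.trans hT2) hQc
          · have : b ≠ a := fun hh => haT (hh ▸ hb2)
            rw [Function.update_of_ne this]
            exact hκ b hb2 Q hQ2 hQc hlt
    intro M
    obtain ⟨R, hR⟩ := step (Fintype.card C * M)
    refine ⟨R, fun α _ S χ h => ?_⟩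
    obtain ⟨T, hT, hc, κ, hκ⟩ := hR α S χ h
    obtain ⟨col, _, hcol⟩ := Finset.exists_le_card_fiber_of_mul_le_card_of_maps_to
      (s := T) (t := (univ : Finset C)) (f := κ) (n := M) (fun _ _ => mem_univ _)
      univ_nonempty (by simp [hc])
    obtain ⟨T', hT', hc'⟩ := Finset.exists_subset_card_eq hcol
    refine ⟨T', (hT'.trans (filter_subset _ _)).trans hT, hc', col, fun P hP hPc => ?_⟩
    have hne : P.Nonempty := Finset.card_pos.mp (by omega)
    have hm := Finset.min'_mem P hne
    have h1 := hT' (hP hm)
    rw [Finset.mem_filter] at h1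
    rw [← Finset.insert_erase hm, hκ _ h1.1 (P.erase _)
      (((erase_subset _ _).trans hP).trans (hT'.trans (filter_subset _ _)))
      (by rw [Finset.card_erase_of_mem hm]; omega), h1.2]
    intro q hq
    exact lt_of_le_of_ne (P.min'_le q (mem_of_mem_erase hq)) (Finset.ne_of_mem_erase hq).symm

/-- order indiscernibles: `N`-tuples are coloured, and all increasing `N`-tuples
of an increasing sequence of length `M` get one colour -/
theorem indisc (C : Type) [Fintype C] [Nonempty C] (N M : ℕ) : ∃ R : ℕ,
    ∀ (α : Type) [LinearOrder α] [Nonempty α] (S : Finset α) (χ : (Fin N → α) → C), R ≤ S.card →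
      ∃ t : ℕ → α, StrictMonoOn t (Set.Iio M) ∧ (∀ i < M, t i ∈ S) ∧
        ∀ φ ψ : ℕ → ℕ, StrictMono φ → StrictMono ψ → (∀ i < N, φ i < M) → (∀ i < N, ψ i < M) →
          χ (fun i => t (φ i)) = χ (fun i => t (ψ i)) := by
  obtain ⟨R, hR⟩ := ramsey C N M
  refine ⟨R, fun α _ _ S χ h => ?_⟩
  obtain ⟨T, hT, hc, col, hcol⟩ := hR α S
    (fun P => if h : P.card = N then χ (P.orderEmbOfFin h) else Classical.arbitrary C) h
  let t : ℕ → α := fun i => if h : i < M then T.orderEmbOfFin hc ⟨i, h⟩ else Classical.arbitrary α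
  have ht : StrictMonoOn t (Set.Iio M) := by
    intro i hi j hj hij
    simp only [Set.mem_Iio] at hi hj
    simp only [t, dif_pos hi, dif_pos hj]
    exact (T.orderEmbOfFin hc).strictMono hij
  have htT : ∀ i < M, t i ∈ T := by
    intro i hi
    simp only [t, dif_pos hi]
    exact Finset.orderEmbOfFin_mem _ _ _
  have key : ∀ φ : ℕ → ℕ, StrictMono φ → (∀ i < N, φ i < M) → χ (fun i => t (φ i)) = col := by
    intro φ hφ hb
    have hsm : StrictMono (fun i : Fin N => t (φ i)) := fun i j hij =>
      ht (hb _ i.2) (hb _ j.2) (hφ hij)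
    have hcard : (univ.image (fun i : Fin N => t (φ i))).card = N := by
      rw [Finset.card_image_of_injective _ hsm.injective]; simp
    have h1 := hcol (univ.image (fun i : Fin N => t (φ i))) (by
      intro x hx
      obtain ⟨i, _, rfl⟩ := Finset.mem_image.mp hx
      exact htT _ (hb _ i.2)) hcard
    simp only [dif_pos hcard] at h1
    rw [← h1]
    congr 1
    exact Finset.orderEmbOfFin_unique hcard (fun x => mem_image_of_mem _ (mem_univ _)) hsm
  exact ⟨t, ht, fun i hi => hT (htT i hi), fun φ ψ h1 h2 h3 h4 => by rw [key φ h1 h3, key ψ h2 h4]⟩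

theorem ext_enum (Q : Finset ℕ) (W : ℕ) (h : Q ⊆ range W) :
    ∃ θ : ℕ → ℕ, StrictMono θ ∧ (range Q.card).image θ = Q ∧ ∀ x, θ x ≤ W + x := by
  let θ : ℕ → ℕ := fun x => if h : x < Q.card then Q.orderEmbOfFin rfl ⟨x, h⟩ else W + x
  have hlt : ∀ x (hx : x < Q.card), θ x < W := by
    intro x hx
    simp only [θ, dif_pos hx]
    exact mem_range.mp (h (Finset.orderEmbOfFin_mem _ _ _))
  refine ⟨θ, ?_, ?_, ?_⟩
  · intro x y hxy
    by_cases hy : y < Q.card
    · have hx : x < Q.card := hxy.trans hy
      simp only [θ, dif_pos hx, dif_pos hy]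
      exact (Q.orderEmbOfFin rfl).strictMono hxy
    · by_cases hx : x < Q.card
      · have := hlt x hx
        have h2 : θ y = W + y := by simp only [θ, dif_neg hy]
        omega
      · simp only [θ, dif_neg hx, dif_neg hy]; omega
  · ext y
    simp only [mem_image, mem_range]
    constructor
    · rintro ⟨x, hx, rfl⟩
      simp only [θ, dif_pos hx]
      exact Finset.orderEmbOfFin_mem _ _ _
    · intro hy
      have : y ∈ Set.range (Q.orderEmbOfFin rfl) := by
        rw [Finset.range_orderEmbOfFin]; exact hy
      obtain ⟨⟨x, hx⟩, rfl⟩ := this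
      exact ⟨x, hx, by simp only [θ, dif_pos hx]⟩
  · intro x
    by_cases hx : x < Q.card
    · have := hlt x hx; omega
    · simp only [θ, dif_neg hx]; omega

end Pool.Agent.H31.HyperRamsey
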