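import Mathlib

namespace Pool.Agent.H31.AFc

open Finset

variable {α : Type*} [DecidableEq α] (R : α → α → Prop)

/-- generalized complete sets: `M` the candidates, `U` the arguments that are never accepted -/
def GC (M U S : Finset α) : Prop :=
  S ⊆ M ∧ (∀ a ∈ S, ∀ b ∈ S, ¬ R a b) ∧
    ∀ a ∈ M, (a ∈ S ↔ ∀ b ∈ M ∪ U, R b a → ∃ c ∈ S, R c b)

open Classical in
noncomputable def cs (M U : Finset α) : Finset (Finset α) := M.powerset.filter (GC R M U)

theorem mem_cs {M U S : Finset α} : S ∈ cs R M U ↔ GC R M U S := by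
  unfold cs
  simp only [mem_filter, mem_powerset]
  exact ⟨fun h => h.2, fun h => ⟨h.1, h⟩⟩

open Classical in
noncomputable def nb (x : α) (T : Finset α) : Finset α := T.filter (fun y => ¬ (R x y ∨ R y x))

omit [DecidableEq α] in
theorem mem_nb {x y : α} {T : Finset α} : y ∈ nb R x T ↔ y ∈ T ∧ ¬ (R x y ∨ R y x) := by
  unfold nb; simp only [mem_filter]

theorem card_out (M U : Finset α) (x : α) (hx : x ∈ M) :
    ((cs R M U).filter (fun S => x ∉ S)).card ≤ (cs R (M.erase x) (insert x U)).card := by
  apply card_le_card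
  intro S hS
  rw [mem_filter, mem_cs] at hS
  obtain ⟨⟨h1, h2, h3⟩, hxS⟩ := hS
  rw [mem_cs]
  have hu : M.erase x ∪ insert x U = M ∪ U := by
    ext y
    simp only [mem_union, mem_erase, mem_insert]
    constructor
    · rintro (h | rfl | h)
      · exact Or.inl h.2
      · exact Or.inl hx
      · exact Or.inr h
    · rintro (h | h)
      · by_cases hy : y = x
        · exact Or.inr (Or.inl hy)
        · exact Or.inl ⟨hy, h⟩
      · exact Or.inr (Or.inr h)
  refine ⟨fun a ha => mem_erase.mpr ⟨fun h => hxS (h ▸ ha), h1 ha⟩, h2, fun a ha => ?_⟩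
  rw [hu]
  exact h3 a (mem_erase.mp ha).2

theorem card_in (M U : Finset α) (x : α) (hx : x ∈ M) :
    ((cs R M U).filter (fun S => ¬ x ∉ S)).card ≤
      (cs R (nb R x (M.erase x)) (nb R x (U.erase x))).card := by
  apply card_le_card_of_injOn (fun S => S.erase x)
  · intro S hS
    rw [mem_coe, mem_filter, mem_cs] at hS
    obtain ⟨⟨h1, h2, h3⟩, hxS⟩ := hS
    rw [not_not] at hxS
    rw [mem_coe, mem_cs]
    refine ⟨?_, ?_, ?_⟩
    · intro a ha
      rw [mem_erase] at ha
      rw [mem_nb, mem_erase]
      exact ⟨⟨ha.1, h1 ha.2⟩, fun h => h.elim (h2 x hxS a ha.2) (h2 a ha.2 x hxS)⟩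
    · intro a ha b hb
      exact h2 a (mem_erase.mp ha).2 b (mem_erase.mp hb).2
    · intro a ha
      rw [mem_nb, mem_erase] at ha
      obtain ⟨⟨hax, haM⟩, hn⟩ := ha
      constructor
      · intro haS b hb hba
        have hb' : b ∈ M ∪ U ∧ ¬ (R x b ∨ R b x) := by
          rw [mem_union, mem_nb, mem_nb, mem_erase, mem_erase] at hb
          rw [mem_union]
          rcases hb with h | h
          · exact ⟨Or.inl h.1.2, h.2⟩
          · exact ⟨Or.inr h.1.2, h.2⟩
        obtain ⟨c, hc, hcb⟩ := (h3 a haM).mp (mem_erase.mp haS).2 b hb'.1 hba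
        exact ⟨c, mem_erase.mpr ⟨fun h => hb'.2 (Or.inl (h ▸ hcb)), hc⟩, hcb⟩
      · intro h
        refine mem_erase.mpr ⟨hax, (h3 a haM).mpr fun b hb hba => ?_⟩
        by_cases hbx : b = x
        · exact absurd (Or.inl (hbx ▸ hba)) hn
        by_cases hr : R x b ∨ R b x
        · rcases hr with hr | hr
          · exact ⟨x, hxS, hr⟩
          · exact (h3 x hx).mp hxS b hb hr
        · have : b ∈ nb R x (M.erase x) ∪ nb R x (U.erase x) := by
            rw [mem_union, mem_nb, mem_nb, mem_erase, mem_erase]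
            rcases mem_union.mp hb with hb | hb
            · exact Or.inl ⟨⟨hbx, hb⟩, hr⟩
            · exact Or.inr ⟨⟨hbx, hb⟩, hr⟩
          obtain ⟨c, hc, hcb⟩ := h b this hba
          exact ⟨c, (mem_erase.mp hc).2, hcb⟩
  · intro S hS T hT h
    rw [mem_coe, mem_filter, not_not] at hS hT
    have h' : S.erase x = T.erase x := h
    rw [← insert_erase hS.2, h', insert_erase hT.2]

theorem card_base (M U : Finset α) (h : ∀ a ∈ M, ∀ b ∈ M, ¬ R a b) :
    (cs R M U).card ≤ 2 ^ U.card := by
  classical
  rw [← card_powerset]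
  apply card_le_card_of_injOn (fun S => U.filter (fun u => ∃ c ∈ S, R c u))
  · intro S _
    rw [mem_coe, mem_powerset]
    exact filter_subset _ _
  · have key : ∀ S T : Finset α, GC R M U S → GC R M U T →
        U.filter (fun u => ∃ c ∈ S, R c u) = U.filter (fun u => ∃ c ∈ T, R c u) → S ⊆ T := by
      intro S T hS hT e a ha
      have haM := hS.1 ha
      refine (hT.2.2 a haM).mpr fun b hb hba => ?_
      have hbU : b ∈ U := by
        rcases mem_union.mp hb with hb | hb
        · exact absurd hba (h b hb a haM)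
        · exact hb
      have : b ∈ U.filter (fun u => ∃ c ∈ S, R c u) :=
        mem_filter.mpr ⟨hbU, (hS.2.2 a haM).mp ha b hb hba⟩
      rw [e] at this
      exact (mem_filter.mp this).2
    intro S hS T hT e
    rw [mem_coe, mem_cs] at hS hT
    exact Subset.antisymm (key S T hS hT e) (key T S hT hS e.symm)

def g : ℕ → ℚ
  | 0 => 1
  | 1 => 3 / 2
  | (n + 2) => 3 * g n

theorem g_pos : ∀ n, 0 < g n
  | 0 => by norm_num [g]
  | 1 => by norm_num [g]
  | (n + 2) => by have := g_pos n; simp only [g]; linarith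

theorem g_step : ∀ n, 3 / 2 * g n ≤ g (n + 1)
  | 0 => by norm_num [g]
  | 1 => by norm_num [g]
  | (n + 2) => by have := g_step n; simp only [g]; linarith

theorem g_even (k : ℕ) : g (2 * k) = 3 ^ k := by
  induction k with
  | zero => simp [g]
  | succ k ih => rw [show 2 * (k + 1) = 2 * k + 2 by ring]; simp only [g]; rw [ih]; ring

theorem g_odd (k : ℕ) : g (2 * k + 1) = 3 / 2 * 3 ^ k := by
  induction k with
  | zero => simp [g]
  | succ k ih => rw [show 2 * (k + 1) + 1 = (2 * k + 1) + 2 by ring]; simp only [g]; rw [ih]; ring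

def w (m s : ℕ) : ℚ := g (m + s) * (2 / 3) ^ s

theorem w_mono {m s m' s' : ℕ} (h1 : m ≤ m') (h2 : s ≤ s') : w m s ≤ w m' s' := by
  have a : ∀ s, Monotone (fun m => w m s) := fun s => monotone_nat_of_le_succ fun m => by
    simp only [w]
    have := g_step (m + s)
    have h0 := g_pos (m + s)
    rw [show m + 1 + s = m + s + 1 by ring]
    exact mul_le_mul_of_nonneg_right (by linarith) (by positivity)
  have b : ∀ m, Monotone (fun s => w m s) := fun m => monotone_nat_of_le_succ fun s => by
    simp only [w]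
    have := g_step (m + s)
    have hp : (0 : ℚ) < (2 / 3) ^ s := by positivity
    rw [← add_assoc, pow_succ]
    nlinarith
  exact (a s h1).trans (b m' h2)

theorem split (M U : Finset α) (x : α) (hx : x ∈ M) :
    (cs R M U).card ≤ (cs R (M.erase x) (insert x U)).card +
      (cs R (nb R x (M.erase x)) (nb R x (U.erase x))).card := by
  rw [← card_filter_add_card_filter_not (s := cs R M U) (fun S => x ∉ S)]
  exact add_le_add (card_out R M U x hx) (card_in R M U x hx)

theorem nb_card (x : α) (T D : Finset α) (hD : D ⊆ T) (h : ∀ y ∈ D, R x y ∨ R y x) :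
    (nb R x T).card + D.card ≤ T.card := by
  rw [← card_union_of_disjoint]
  · apply card_le_card
    intro y hy
    rcases mem_union.mp hy with hy | hy
    · exact ((mem_nb R).mp hy).1
    · exact hD hy
  · rw [disjoint_left]
    intro y hy hy2
    exact ((mem_nb R).mp hy).2 (h y hy2)

theorem nb_erase_le (x : α) (U : Finset α) : (nb R x (U.erase x)).card ≤ U.card := by
  have := nb_card R x (U.erase x) ∅ (empty_subset _) (by simp)
  have := card_erase_le (s := U) (a := x)
  omega

theorem main (m : ℕ) : ∀ M U : Finset α, M.card = m → (∀ a ∈ M, ¬ R a a) →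
    ((cs R M U).card : ℚ) ≤ w m U.card := by
  induction m using Nat.strong_induction_on with
  | _ m ih =>
  intro M U hm hs
  by_cases h : ∀ a ∈ M, ∀ b ∈ M, ¬ R a b
  · have h1 := card_base R M U h
    have h2 : (cs R M U).card ≤ 2 ^ m := by
      rw [← hm, ← card_powerset]
      exact card_le_card fun S hS => mem_powerset.mpr ((mem_cs R).mp hS).1
    have h3 : (cs R M U).card ≤ 2 ^ (min m U.card) := by
      rcases le_total m U.card with h | h
      · rwa [min_eq_left h]
      · rwa [min_eq_right h]
    have h4 : w (min m U.card) (min m U.card) = 2 ^ (min m U.card) := by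
      simp only [w]
      rw [← two_mul, g_even, ← mul_pow]; norm_num
    have h5 := w_mono (min_le_left m U.card) (min_le_right m U.card)
    have h6 : ((cs R M U).card : ℚ) ≤ 2 ^ (min m U.card) := by exact_mod_cast h3
    linarith
  · push Not at h
    obtain ⟨x, hx, y, hy, hxy⟩ := h
    have hne : y ≠ x := fun e => hs x hx (e ▸ hxy)
    have c1 := card_erase_of_mem hx
    have c2 := nb_card R x (M.erase x) {y} (by simp [hne, hy]) (by simp [hxy])
    rw [card_singleton] at c2
    obtain ⟨k, rfl⟩ : ∃ k, m = k + 2 := ⟨m - 2, by omega⟩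
    have i1 := ih (k + 1) (by omega) (M.erase x) (insert x U) (by omega)
      (fun a ha => hs a (mem_erase.mp ha).2)
    have i2 := ih _ (by omega) (nb R x (M.erase x)) (nb R x (U.erase x)) rfl
      (fun a ha => hs a (mem_erase.mp ((mem_nb R).mp ha).1).2)
    have j1 := w_mono (le_refl (k + 1)) (card_insert_le x U)
    have j2 := w_mono (show (nb R x (M.erase x)).card ≤ k by omega) (nb_erase_le R x U)
    have sp : ((cs R M U).card : ℚ) ≤ (cs R (M.erase x) (insert x U)).card +
      (cs R (nb R x (M.erase x)) (nb R x (U.erase x))).card := by exact_mod_cast split R M U x hx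
    have e : w (k + 2) U.card = w (k + 1) (U.card + 1) + w k U.card := by
      simp only [w]
      rw [show k + 1 + (U.card + 1) = k + U.card + 2 by ring,
        show k + 2 + U.card = k + U.card + 2 by ring]
      simp only [g]; ring
    linarith

/-- the odd case without self-attackers -/
theorem odd_case (M : Finset α) (k : ℕ) (hm : M.card = 2 * k + 1) (hs : ∀ a ∈ M, ¬ R a a) :
    ((cs R M ∅).card : ℚ) ≤ 3 ^ k ∨ (1 ≤ k ∧ ((cs R M ∅).card : ℚ) ≤ 4 * 3 ^ (k - 1)) := by
  classical
  by_cases h0 : ∃ x ∈ M, ∀ y ∈ M, ¬ (R x y ∨ R y x)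
  · left
    obtain ⟨x, hx, hn⟩ := h0
    have h1 : (cs R M ∅).filter (fun S => ¬ x ∉ S) = cs R M ∅ := by
      apply filter_true_of_mem
      intro S hS
      rw [mem_cs] at hS
      rw [not_not]
      refine (hS.2.2 x hx).mpr fun b hb hbx => ?_
      rw [union_empty] at hb
      exact absurd (Or.inr hbx) (hn b hb)
    have h2 := card_in R M ∅ x hx
    rw [h1] at h2
    have i2 := main R _ (nb R x (M.erase x)) (nb R x ((∅ : Finset α).erase x)) rfl
      (fun a ha => hs a (mem_erase.mp ((mem_nb R).mp ha).1).2)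
    have c1 := card_erase_of_mem hx
    have c2 := nb_card R x (M.erase x) ∅ (empty_subset _) (by simp)
    have j2 := w_mono (show (nb R x (M.erase x)).card ≤ 2 * k by omega) (nb_erase_le R x ∅)
    have e : w (2 * k) (∅ : Finset α).card = 3 ^ k := by simp [w, g_even]
    have h3 : ((cs R M ∅).card : ℚ) ≤
      (cs R (nb R x (M.erase x)) (nb R x ((∅ : Finset α).erase x))).card := by exact_mod_cast h2
    linarith
  by_cases h2 : ∃ x ∈ M, ∃ y ∈ M, ∃ z ∈ M, y ≠ z ∧ (R x y ∨ R y x) ∧ (R x z ∨ R z x)
  · right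
    obtain ⟨x, hx, y, hy, z, hz, hyz, h1, h2⟩ := h2
    have hyx : y ≠ x := by
      rintro rfl
      exact hs y hy (h1.elim id id)
    have hzx : z ≠ x := by
      rintro rfl
      exact hs z hz (h2.elim id id)
    have c1 := card_erase_of_mem hx
    have c2 := nb_card R x (M.erase x) {y, z} (by
      intro a ha
      rcases mem_insert.mp ha with rfl | ha
      · exact mem_erase.mpr ⟨hyx, hy⟩
      · rw [mem_singleton.mp ha]; exact mem_erase.mpr ⟨hzx, hz⟩) (by
      intro a ha
      rcases mem_insert.mp ha with rfl | ha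
      · exact h1
      · rw [mem_singleton.mp ha]; exact h2)
    rw [card_pair hyz] at c2
    obtain ⟨j, rfl⟩ : ∃ j, k = j + 1 := ⟨k - 1, by omega⟩
    refine ⟨by omega, ?_⟩
    have i1 := main R _ (M.erase x) (insert x ∅) rfl (fun a ha => hs a (mem_erase.mp ha).2)
    have i2 := main R _ (nb R x (M.erase x)) (nb R x ((∅ : Finset α).erase x)) rfl
      (fun a ha => hs a (mem_erase.mp ((mem_nb R).mp ha).1).2)
    have j1 := w_mono (show (M.erase x).card ≤ 2 * (j + 1) by omega)
      (card_insert_le x (∅ : Finset α))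
    have j2 := w_mono (show (nb R x (M.erase x)).card ≤ 2 * j by omega) (nb_erase_le R x ∅)
    have e1 : w (2 * (j + 1)) ((∅ : Finset α).card + 1) = 3 * 3 ^ j := by
      simp only [w, card_empty, zero_add, g_odd]; ring
    have e2 : w (2 * j) (∅ : Finset α).card = 3 ^ j := by simp [w, g_even]
    have sp : ((cs R M ∅).card : ℚ) ≤ (cs R (M.erase x) (insert x ∅)).card +
      (cs R (nb R x (M.erase x)) (nb R x ((∅ : Finset α).erase x))).card := by
      exact_mod_cast split R M ∅ x hx
    rw [Nat.add_sub_cancel]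
    linarith
  · exfalso
    push Not at h0
    choose f hf1 hf2 using h0
    have huniq : ∀ x ∈ M, ∀ y ∈ M, ∀ z ∈ M, (R x y ∨ R y x) → (R x z ∨ R z x) → y = z := by
      intro x hx y hy z hz h1 h3
      by_contra hne
      exact h2 ⟨x, hx, y, hy, z, hz, hne, h1, h3⟩
    have hsum : ∑ _x ∈ M, (1 : ZMod 2) = 0 := by
      apply Finset.sum_involution f
      · intro a _; rfl
      · intro a ha _ e
        have := hf2 a ha
        rw [e] at this
        exact hs a ha (this.elim id id)
      · intro a ha
        exact huniq (f a ha) (hf1 a ha) _ (hf1 _ _) a ha (hf2 _ _) (hf2 a ha).symm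
      · exact hf1
    rw [sum_const, hm] at hsum
    simp only [nsmul_eq_mul, mul_one] at hsum
    rw [ZMod.natCast_eq_zero_iff] at hsum
    omega

end Pool.Agent.H31.AFc
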