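import Mathlib

set_option autoImplicit false

namespace Pool.Agent.H31.AccDefs

/-- The Hamilton cycle `σ 0, σ 1, ..., σ (n-1)` (indices cyclic) is `(2,2)`-acceptable for `F`. -/
def Acc {n : ℕ} (F : Finset (Finset (Fin n))) (σ : Equiv.Perm (Fin n)) : Prop :=
  ∀ i j, Disjoint ({σ i, σ (finRotate n i)} : Finset (Fin n)) {σ j, σ (finRotate n j)} →
    ({σ i, σ (finRotate n i)} ∪ {σ j, σ (finRotate n j)} : Finset (Fin n)) ∉ F

/-- `F` is a family of 4-sets for which no Hamilton cycle is acceptable. -/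
def Blocks {n : ℕ} (F : Finset (Finset (Fin n))) : Prop := (∀ X ∈ F, X.card = 4) ∧ ∀ σ, ¬Acc F σ

end Pool.Agent.H31.AccDefs
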