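import Pool.Agent.H65.Thom5

namespace Pool.Agent.H31.Boom

open Equiv Pool.Agent.H65.Thom
open scoped commutatorElement

abbrev F : Subgroup (Perm C) := V ⊓ M

theorem subF {g : Perm C} (h : g ∈ F) (s : List Bool) : sub s g ∈ F := ⟨sub_mem h.1 s, sub_M h.2 s⟩

theorem aF : a ∈ F := ⟨a_mem, a_M⟩

theorem pre (w : C) (k : ℕ) : ∃ (u : List Bool) (v : C), u.length = k ∧ w = cat u v := by
  induction k generalizing w with
  | zero => exact ⟨[], w, rfl, rfl⟩
  | succ k ih =>
    obtain ⟨u, v, h1, h2⟩ := ih (tail w)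
    exact ⟨w 0 :: u, v, by simp [h1], by rw [cat_cons, ← h2, cons_tail]⟩

theorem cat_lt_len (s : List Bool) (v w : C) {k : ℕ} (h : k < s.length) : cat s v k = cat s w k := by
  induction s generalizing k with
  | nil => simp at h
  | cons c s ih =>
    cases k with
    | zero => rfl
    | succ k => exact ih (by simpa using h)

theorem move {f : Perm C} (hf : f ∈ V) (h1 : f ≠ 1) :
    ∃ s t, (∀ w, f (cat s w) = cat t w) ∧ ∀ v w, cat s v ≠ cat t w := by
  obtain ⟨x, hx⟩ : ∃ x, f x ≠ x := by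
    by_contra h; push Not at h; exact h1 (Equiv.ext h)
  obtain ⟨k, hk⟩ := Function.ne_iff.1 hx
  obtain ⟨s, t, w0, rfl, h2⟩ := hf x
  obtain ⟨u, v0, l, rfl⟩ := pre w0 (k + 1)
  refine ⟨s ++ u, t ++ u, fun w => by rw [cat_append, cat_append, h2], fun v w e => hk ?_⟩
  rw [h2, ← cat_append, ← cat_append, cat_lt_len _ v0 w (by simp; omega), ← e,
    cat_lt_len _ v0 v (by simp; omega)]

abbrev p : List Bool := [false, true]

theorem an_ph (n : ℕ) (w : C) : (a ^ n) (cat p w) = ph n w := by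
  rw [← zpow_natCast]; rfl

theorem out0 {i : ℤ} (hi : i ≠ 0) (u : Perm C) (w : C) : sub p u (ph i w) = ph i w :=
  sub_out u fun _ e => hi (ph_inj (j := 0) e).1

theorem ab_pow (b : Perm C) (n : ℕ) (w : C) : ((a * sub p b) ^ (n + 1)) (cat p w) = ph (n + 1 : ℕ) (b w) := by
  induction n with
  | zero => rw [zero_add, pow_one, Perm.mul_apply, sub_cat, ← an_ph, pow_one]
  | succ n ih =>
    rw [pow_succ', Perm.mul_apply, ih, Perm.mul_apply, out0 (by omega), a_ph]; rfl

theorem conj_act {c v : Perm C} {s : List Bool} (h : ∀ w, c (cat s w) = cat s (v w)) (u : Perm C) :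
    c * sub s u * c⁻¹ = sub s (v * u * v⁻¹) := by
  have := conj_sub (g := (sub s v)⁻¹ * c) (s := s) (t := s) (fun w => by
    rw [Perm.mul_apply, h, ← sub_cat]; simp) u
  rw [map_mul, map_mul, map_inv]
  conv_rhs => rw [← this]
  group

theorem step2 {Δ : Subgroup (Perm C)} (hF : Δ ≤ F) (h1 : Δ ≠ ⊥)
    (HA : ∀ γ ∈ F, ∀ f ∈ Δ, ∃ n, (γ ^ (n + 1))⁻¹ * f * γ ^ (n + 1) ∈ Δ) :
    ∃ r, ∀ h ∈ ⁅F, F⁆, sub (r ++ p) h ∈ Δ := by
  obtain ⟨⟨f, hf⟩, f1⟩ := Subgroup.ne_bot_iff_exists_ne_one.1 h1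
  replace f1 : f ≠ 1 := fun e => f1 (Subtype.ext e)
  obtain ⟨s, t, m1, m2⟩ := move (hF hf).1 f1
  have A : ∀ b ∈ F, ∃ c ∈ Δ, ∀ w, c (cat (s ++ p) w) = cat (s ++ p) (b w) := by
    intro b hb
    obtain ⟨n, hn⟩ := HA (sub s a * sub t (a * sub p b⁻¹))
      (F.mul_mem (subF aF s) (subF (F.mul_mem aF (subF (F.inv_mem hb) p)) t)) f hf
    refine ⟨_, Δ.mul_mem (Δ.inv_mem hf) hn, fun w => ?_⟩
    have e1 : ∀ k v, ((sub s a * sub t (a * sub p b⁻¹)) ^ k) (cat s v) = cat s ((a ^ k) v) := fun k => by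
      induction k with
      | zero => exact fun _ => rfl
      | succ k ih =>
        intro v
        rw [pow_succ, Perm.mul_apply, Perm.mul_apply, sub_out _ (m2 v), sub_cat, ih, pow_succ]; rfl
    have e2 : ∀ k v, ((sub s a * sub t (a * sub p b⁻¹)) ^ k) (cat t v) =
        cat t (((a * sub p b⁻¹) ^ k) v) := fun k => by
      induction k with
      | zero => exact fun _ => rfl
      | succ k ih =>
        intro v
        rw [pow_succ, Perm.mul_apply, Perm.mul_apply, sub_cat, sub_out _ fun w e => m2 w _ e.symm, ih,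
          pow_succ]; rfl
    simp only [Perm.mul_apply, cat_append]
    rw [e1, m1, Perm.inv_eq_iff_eq, Perm.inv_eq_iff_eq, m1, e2, ab_pow, an_ph]
    simp
  have N : ∀ v, sub (s ++ p) v ∈ Δ → ∀ b ∈ F, sub (s ++ p) (b * v * b⁻¹) ∈ Δ := fun v hv b hb => by
    obtain ⟨c, hc, e⟩ := A b hb
    rw [← conj_act e]; exact Δ.mul_mem (Δ.mul_mem hc hv) (Δ.inv_mem hc)
  refine ⟨s ++ p, fun h hh => ?_⟩
  refine (Subgroup.commutator_le (H₃ := Δ.comap (sub (s ++ p ++ p)))).2 (fun b0 h0 b1 h1 => ?_) hh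
  obtain ⟨c, hc, e⟩ := A (sub p b0) (subF h0 p)
  obtain ⟨n, hn⟩ := HA (sub (s ++ p) a) (subF aF _) c hc
  have hv : sub (s ++ p) (sub p b0 * (a ^ (n + 1))⁻¹ * (sub p b0)⁻¹ * a ^ (n + 1)) ∈ Δ := by
    have := Δ.mul_mem hc (Δ.inv_mem hn)
    rw [map_mul, ← conj_act e, map_inv, map_pow]
    convert this using 1; group
  have ev : ∀ w, (sub p b0 * (a ^ (n + 1))⁻¹ * (sub p b0)⁻¹ * a ^ (n + 1)) (cat p w) = cat p (b0 w) := fun w => by
    simp only [Perm.mul_apply]
    rw [an_ph, ← map_inv, out0 (by omega), ← an_ph]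
    simp [-cat_cons, sub_cat]
  have := Δ.mul_mem hv (N _ (by rw [map_inv]; exact Δ.inv_mem hv) _ (subF h1 p))
  rw [← map_mul] at this
  rw [Subgroup.mem_comap, sub_append, commutatorElement_def, map_mul (sub p), ← conj_act ev, map_inv (sub p)]
  convert this using 2; group

def Mid (N : ℕ) (x : C) : Prop := ∀ c, ∃ i < N, x i = c

theorem Mid.mono {N N' : ℕ} {x : C} (h : Mid N x) (l : N ≤ N') : Mid N' x :=
  fun c => let ⟨i, a, b⟩ := h c; ⟨i, a.trans_le l, b⟩

theorem dec (c : Bool) (N : ℕ) (x : C) : (∃ w, x = cat (List.replicate N (!c)) w) ∨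
    ∃ j < N, ∃ w, x = cat (List.replicate j (!c)) (cons c w) := by
  induction N with
  | zero => exact Or.inl ⟨x, rfl⟩
  | succ N ih =>
    rcases ih with ⟨w, rfl⟩ | ⟨j, a, b⟩
    · by_cases h : w 0 = c
      · exact Or.inr ⟨N, by omega, tail w, by rw [← h, cons_tail]⟩
      · refine Or.inl ⟨tail w, ?_⟩
        rw [List.replicate_succ', cat_append, cat_cons, cat_nil, ← Bool.eq_not_of_ne h, cons_tail]
    · exact Or.inr ⟨j, by omega, b⟩

theorem rep_val (c : Bool) (N : ℕ) (w : C) {i : ℕ} (h : i < N) : cat (List.replicate N c) w i = c := by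
  rw [cat_lt_len _ w (K c) (by simpa using h), cat_rep_K]; rfl

theorem push1 (c : Bool) (N : ℕ) : ∃ k ∈ F, ∀ x, Mid N x → k x = cons c x := by
  obtain ⟨e, he, e1, e2⟩ : ∃ e ∈ F, (∀ w, e (cons c w) = cons c (cons c w)) ∧
      ∀ w, e (cons (!c) (cons c w)) = cons c (cons (!c) w) := by
    cases c
    · exact ⟨a⁻¹, F.inv_mem aF, fun _ => rfl, fun _ => rfl⟩
    · exact ⟨a, aF, fun _ => rfl, fun _ => rfl⟩
  have : ∃ k ∈ F, (∀ j < N, ∀ w, k (cat (List.replicate j (!c)) (cons c w)) =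
      cons c (cat (List.replicate j (!c)) (cons c w))) ∧
      ∀ w, k (cat (List.replicate N (!c)) (cons c w)) = cons c (cat (List.replicate N (!c)) w) := by
    induction N with
    | zero => exact ⟨1, F.one_mem, by simp, fun _ => rfl⟩
    | succ N ih =>
      obtain ⟨k, hk, k1, k2⟩ := ih
      refine ⟨k * sub (List.replicate N (!c)) e, F.mul_mem hk (subF he _), fun j hj w => ?_, fun w => ?_⟩
      · rcases (Nat.lt_succ_iff.1 hj).eq_or_lt with rfl | hj
        · rw [Perm.mul_apply, sub_cat, e1, k2]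
        · rw [Perm.mul_apply, sub_out, k1 j hj]
          intro v h
          have := congrFun h j
          rw [rep_val _ _ _ hj] at this
          have h2 := cat_add (List.replicate j (!c)) (cons c w) 0
          simp only [List.length_replicate, zero_add, cons_zero] at h2
          rw [h2] at this; simp at this
      · rw [List.replicate_succ', cat_append, cat_append, Perm.mul_apply, sub_cat, cat_cons, cat_nil, e2, k2]
        rfl
  obtain ⟨k, hk, k1, -⟩ := this
  refine ⟨k, hk, fun x hx => ?_⟩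
  rcases dec c N x with ⟨w, rfl⟩ | ⟨j, a, w, rfl⟩
  · obtain ⟨i, a, b⟩ := hx c
    rw [rep_val _ _ _ a] at b; simp at b
  · exact k1 j a w

theorem push (r : List Bool) : ∀ N, ∃ k ∈ F, ∀ x, Mid N x → k x = cat r x := by
  induction r with
  | nil => exact fun _ => ⟨1, F.one_mem, fun _ _ => rfl⟩
  | cons c r ih =>
    intro N
    obtain ⟨k, hk, e⟩ := ih N
    obtain ⟨k', hk', e'⟩ := push1 c (N + r.length)
    refine ⟨k' * k, F.mul_mem hk' hk, fun x hx => ?_⟩
    rw [Perm.mul_apply, e x hx, e', cat_cons]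
    intro d
    obtain ⟨i, a, b⟩ := hx d
    exact ⟨i + r.length, by omega, (cat_add r x i).trans b⟩

def Sup (N : ℕ) (h : Perm C) : Prop := ∀ x, ¬ Mid N x → h x = x

theorem conj_push {k h : Perm C} {r : List Bool} {N : ℕ} (e : ∀ x, Mid N x → k x = cat r x)
    (hs : Sup N h) : k * h * k⁻¹ = sub r h := by
  ext1 x
  obtain ⟨y, rfl⟩ := k.surjective x
  simp only [Perm.mul_apply, Perm.coe_inv, symm_apply_apply]
  by_cases m : Mid N y
  · have : Mid N (h y) := by
      by_contra c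
      exact c ((h.injective (hs _ c)).symm ▸ m)
    rw [e _ this, e _ m, sub_cat]
  · rw [hs y m]
    by_cases c : ∃ w, k y = cat r w
    · obtain ⟨w, c⟩ := c
      rw [c, sub_cat, hs w fun m' => m (k.injective (c.trans (e w m').symm) ▸ m')]
    · push Not at c
      rw [sub_out _ c]

theorem comm_sup {h : Perm C} (hh : h ∈ ⁅F, F⁆) : ∃ N, Sup N h := by
  let Z : Subgroup (Perm C) :=
    { carrier := {h | ∃ N, Sup N h}
      one_mem' := ⟨0, fun _ _ => rfl⟩
      mul_mem' := fun ⟨N, h⟩ ⟨N', h'⟩ => ⟨N + N', fun x m => by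
        rw [Perm.mul_apply, h' x fun m' => m (m'.mono (by omega)), h x fun m' => m (m'.mono (by omega))]⟩
      inv_mem' := fun ⟨N, h⟩ => ⟨N, fun x m => by rw [Perm.inv_eq_iff_eq, h x m]⟩ }
  refine (Subgroup.commutator_le (H₃ := Z)).2 (fun u hu v hv => ?_) hh
  have fix : ∀ u ∈ F, ∀ c, u (K c) = K c := fun u hu c => by
    obtain ⟨y, hy⟩ := u.surjective (K c)
    cases c
    · exact le_antisymm (α := Lex C) (((M_le hu.2).2 (K_le y)).trans_eq (congrArg o hy)) (K_le _)
    · exact le_antisymm (α := Lex C) (le_K _) ((congrArg o hy).symm.trans_le ((M_le hu.2).2 (le_K y)))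
  have : ∀ c, ∃ N, ∀ w, ⁅u, v⁆ (cat (List.replicate N c) w) = cat (List.replicate N c) w := fun c => by
    obtain ⟨-, m, n, e⟩ := germ_K hu.1 (fix u hu c)
    obtain ⟨-, m', n', e'⟩ := germ_K hv.1 (fix v hv c)
    have sw : ∀ i j w, cat (List.replicate i c) (cat (List.replicate j c) w) =
        cat (List.replicate j c) (cat (List.replicate i c) w) := fun i j w => by
      rw [← cat_append, ← cat_append, ← List.replicate_add, ← List.replicate_add, add_comm]
    refine ⟨n + n', fun w => ?_⟩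
    have a : cat (List.replicate (n + n') c) w =
        v (u (cat (List.replicate m c) (cat (List.replicate m' c) w))) := by
      rw [e, sw, e', List.replicate_add, cat_append, sw]
    conv_lhs => rw [a]
    simp only [commutatorElement_def, Perm.mul_apply, Perm.coe_inv, symm_apply_apply]
    rw [sw, e', sw, e, List.replicate_add, cat_append]
  choose N hN using this
  refine ⟨N false + N true, fun x m => ?_⟩
  simp only [Mid, not_forall, not_exists, not_and] at m
  obtain ⟨c, m⟩ := m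
  rcases dec c (N (!c)) x with ⟨w, rfl⟩ | ⟨j, a, w, rfl⟩
  · exact hN _ w
  · refine absurd ?_ (m j (by cases c <;> simp at a <;> omega))
    simpa using cat_add (List.replicate j (!c)) (cons c w) 0

theorem main {Δ : Subgroup (Perm C)} (hF : Δ ≤ F) (h1 : Δ ≠ ⊥)
    (HA : ∀ γ ∈ F, ∀ f ∈ Δ, ∃ n, (γ ^ (n + 1))⁻¹ * f * γ ^ (n + 1) ∈ Δ)
    (HB : ∀ γ ∈ F, ∀ f ∈ F, f ∉ Δ → ∃ n, (γ ^ (n + 1))⁻¹ * f * γ ^ (n + 1) ∉ Δ) : ⁅F, F⁆ ≤ Δ := by
  obtain ⟨r, hr⟩ := step2 hF h1 HA
  intro h hh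
  by_contra hn
  obtain ⟨N, hN⟩ := comm_sup hh
  obtain ⟨k, hk, e⟩ := push (r ++ p) (N + (r.length + 2))
  have le : ⁅F, F⁆ ≤ F := Subgroup.commutator_le.2 fun u hu v hv =>
    F.mul_mem (F.mul_mem (F.mul_mem hu hv) (F.inv_mem hu)) (F.inv_mem hv)
  have cj : ∀ g ∈ ⁅F, F⁆, k * g * k⁻¹ ∈ ⁅F, F⁆ := fun g hg => by
    refine (Subgroup.commutator_le (H₃ := (⁅F, F⁆).comap (MulAut.conj k).toMonoidHom)).2
      (fun u hu v hv => ?_) hg
    rw [Subgroup.mem_comap, map_commutatorElement]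
    exact Subgroup.commutator_mem_commutator (F.mul_mem (F.mul_mem hk hu) (F.inv_mem hk))
      (F.mul_mem (F.mul_mem hk hv) (F.inv_mem hk))
  have : ∀ n, k ^ n * h * (k ^ n)⁻¹ ∈ ⁅F, F⁆ ∧ Sup (N + (r.length + 2)) (k ^ n * h * (k ^ n)⁻¹) := fun n => by
    induction n with
    | zero => exact ⟨by simpa using hh, fun x m => by simpa using hN x fun m' => m (m'.mono (by omega))⟩
    | succ n ih =>
      rw [show k ^ (n + 1) * h * (k ^ (n + 1))⁻¹ = k * (k ^ n * h * (k ^ n)⁻¹) * k⁻¹ by group]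
      refine ⟨cj _ ih.1, ?_⟩
      rw [conj_push e ih.2]
      refine fun x m => sub_out _ fun w c => m fun d => ?_
      rw [c, cat_append]
      cases d
      · exact ⟨0 + r.length, by omega, cat_add r _ 0⟩
      · exact ⟨1 + r.length, by omega, cat_add r _ 1⟩
  obtain ⟨n, c⟩ := HB k⁻¹ (F.inv_mem hk) h (le hh) hn
  have h2 := hr _ (this n).1
  rw [← conj_push e (this n).2] at h2
  exact c (by convert h2 using 1; group)

end Pool.Agent.H31.Boom
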