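import Mathlib

namespace Pool.Agent.H31.Cog

open Finset

/-- `Co G B`: the subgraph of `G` induced on `B` is empty or is obtained from single vertices by
repeated disjoint unions and joins. -/
inductive Co {V : Type} [DecidableEq V] (G : SimpleGraph V) : Finset V → Prop
  | empty : Co G ∅
  | single (v : V) : Co G {v}
  | union (A B : Finset V) : Disjoint A B → Co G A → Co G B →
      (∀ a ∈ A, ∀ b ∈ B, ¬ G.Adj a b) → Co G (A ∪ B)
  | join (A B : Finset V) : Disjoint A B → Co G A → Co G B →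
      (∀ a ∈ A, ∀ b ∈ B, G.Adj a b) → Co G (A ∪ B)

variable {X : Type} (c : ℕ → X → ℕ) (S : ℕ → Prop)

def R (x y : X) : Prop := ∃ l, S l ∧ c l x = c l y ∧ c (l + 1) x ≠ c (l + 1) y

variable {c S}

theorem R.symm {x y : X} (h : R c S x y) : R c S y x :=
  let ⟨l, a, b, d⟩ := h; ⟨l, a, b.symm, d.symm⟩

theorem down (hc : ∀ l x, c (l + 1) x / 2 = c l x) {x y : X} {l k : ℕ} (h : l ≤ k)
    (e : c k x = c k y) : c l x = c l y := by
  induction h with
  | refl => exact e
  | step _ ih => exact ih (by rw [← hc, ← hc _ y, e])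

theorem R_iff (hc : ∀ l x, c (l + 1) x / 2 = c l x) {x y : X} {l : ℕ} (e : c l x = c l y)
    (n : c (l + 1) x ≠ c (l + 1) y) : R c S x y ↔ S l := by
  refine ⟨fun ⟨k, a, b, d⟩ => ?_, fun h => ⟨l, h, e, n⟩⟩
  rcases lt_trichotomy k l with h | h | h
  · exact absurd (down hc h e) d
  · exact h ▸ a
  · exact absurd (down hc h b) n

theorem co_of (hc : ∀ l x, c (l + 1) x / 2 = c l x) (h0 : ∀ x y, c 0 x = c 0 y) {V : Type}
    [DecidableEq V] (G : SimpleGraph V) (x : V → X)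
    (hG : ∀ i j, i ≠ j → (G.Adj i j ↔ R c S (x i) (x j))) (B : Finset V) : Co G B := by
  classical
  induction B using Finset.strongInduction with
  | H B ih =>
  by_cases h : ∃ l, ∃ a ∈ B, ∃ b ∈ B, c l (x a) ≠ c l (x b)
  · have hs := Nat.find_spec h
    have hm := fun k => Nat.find_min h (m := k)
    generalize Nat.find h = l at hs hm
    obtain ⟨a, ha, b, hb, hab⟩ := hs
    obtain ⟨l, rfl⟩ : ∃ k, l = k + 1 := by
      cases l with
      | zero => exact absurd (h0 _ _) hab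
      | succ k => exact ⟨k, rfl⟩
    have hm := hm l (by omega)
    push Not at hm
    have key : ∀ u ∈ B.filter (fun u => c (l + 1) (x u) = c (l + 1) (x a)),
        ∀ v ∈ B.filter (fun u => ¬ c (l + 1) (x u) = c (l + 1) (x a)), G.Adj u v ↔ S l := by
      intro u hu v hv
      rw [mem_filter] at hu hv
      have n : c (l + 1) (x u) ≠ c (l + 1) (x v) := fun e => hv.2 (e ▸ hu.2)
      rw [hG u v (fun e => n (e ▸ rfl)), R_iff hc (hm u hu.1 v hv.1) n]
    have c1 := ih _ (filter_ssubset.2 ⟨b, hb, fun e => hab e.symm⟩ :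
      B.filter (fun u => c (l + 1) (x u) = c (l + 1) (x a)) ⊂ B)
    have c2 := ih _ (filter_ssubset.2 ⟨a, ha, fun e => e rfl⟩ :
      B.filter (fun u => ¬ c (l + 1) (x u) = c (l + 1) (x a)) ⊂ B)
    rw [← filter_union_filter_not_eq (fun u => c (l + 1) (x u) = c (l + 1) (x a)) B]
    by_cases hS : S l
    · exact .join _ _ (disjoint_filter_filter_not _ _ _) c1 c2 fun u hu v hv =>
        (key u hu v hv).2 hS
    · exact .union _ _ (disjoint_filter_filter_not _ _ _) c1 c2 fun u hu v hv e =>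
        hS ((key u hu v hv).1 e)
  · push Not at h
    rcases B.eq_empty_or_nonempty with rfl | ⟨a, ha⟩
    · exact .empty
    rw [← insert_erase ha, insert_eq]
    refine .union _ _ (by simp) (.single a) (ih _ (erase_ssubset ha)) fun u hu v hv e => ?_
    rw [mem_singleton.1 hu] at e
    obtain ⟨l, -, -, d⟩ := (hG _ _ e.ne).1 e
    exact d (h _ _ ha _ (mem_of_mem_erase hv))

def Cst (c : ℕ → X → ℕ) (j : ℕ) (A : Finset X) : Prop := ∀ x ∈ A, ∀ y ∈ A, c j x = c j y

noncomputable def cnt (c : ℕ → X → ℕ) (L : ℕ) (A : Finset X) : ℝ := (A.image (c L)).card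

theorem split (hc : ∀ l x, c (l + 1) x / 2 = c l x) {j : ℕ} {A : Finset X} (h : Cst c j A) :
    ∃ A0 ⊆ A, ∃ A1 ⊆ A, Cst c (j + 1) A0 ∧ Cst c (j + 1) A1 ∧
      (∀ x ∈ A0, ∀ y ∈ A1, c (j + 1) x ≠ c (j + 1) y) ∧
      ∀ L, cnt c L A ≤ cnt c L A0 + cnt c L A1 := by
  classical
  refine ⟨A.filter (fun x => c (j + 1) x % 2 = 0), filter_subset _ _,
    A.filter (fun x => ¬ c (j + 1) x % 2 = 0), filter_subset _ _, ?_, ?_, ?_, fun L => ?_⟩
  iterate 3
    intro x hx y hy
    rw [mem_filter] at hx hy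
    have := h x hx.1 y hy.1
    have := hc j x
    have := hc j y
    omega
  unfold cnt
  conv_lhs => rw [← filter_union_filter_not_eq (fun x => c (j + 1) x % 2 = 0) A, image_union]
  exact_mod_cast card_union_le _ _

theorem pig (hc : ∀ l x, c (l + 1) x / 2 = c l x) {j : ℕ} {A : Finset X} (h : Cst c j A)
    (L k : ℕ) : ∃ A' ⊆ A, Cst c (j + k) A' ∧ cnt c L A ≤ 2 ^ k * cnt c L A' := by
  induction k with
  | zero => exact ⟨A, Subset.rfl, h, by simp⟩
  | succ k ih =>
    obtain ⟨A', s, h', le⟩ := ih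
    obtain ⟨A0, s0, A1, s1, c0, c1, -, l⟩ := split hc h'
    have p : (0 : ℝ) < 2 ^ k := by positivity
    rcases le_total (cnt c L A0) (cnt c L A1) with t | t
    · exact ⟨A1, s1.trans s, c1, by rw [pow_succ]; nlinarith [l L]⟩
    · exact ⟨A0, s0.trans s, c0, by rw [pow_succ]; nlinarith [l L]⟩

theorem cnt_le (hc : ∀ l x, c (l + 1) x / 2 = c l x) {j : ℕ} {A : Finset X} (h : Cst c j A)
    (k : ℕ) : cnt c (j + k) A ≤ 2 ^ k := by
  obtain ⟨A', -, h', le⟩ := pig hc h (j + k) k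
  have : cnt c (j + k) A' ≤ 1 := by
    unfold cnt
    exact_mod_cast card_le_one.2 fun a ha b hb => by
      obtain ⟨x, hx, rfl⟩ := mem_image.1 ha
      obtain ⟨y, hy, rfl⟩ := mem_image.1 hb
      exact h' x hx y hy
  have p : (0 : ℝ) < 2 ^ k := by positivity
  nlinarith

/-- `A` contains a copy of `G[B]`. -/
def Emb {V : Type} (G : SimpleGraph V) (B : Finset V) (c : ℕ → X → ℕ) (S : ℕ → Prop)
    (A : Finset X) : Prop :=
  ∃ g : V → Option X, (∀ i ∈ B, ∃ x ∈ A, g i = some x) ∧ ∀ i ∈ B, ∀ j ∈ B, i ≠ j →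
    ∀ x y, g i = some x → g j = some y → x ≠ y ∧ (G.Adj i j ↔ R c S x y)

def Good {V : Type} (G : SimpleGraph V) (B : Finset V) (S : ℕ → Prop) (d : ℝ) : Prop :=
  ∀ j, ∃ L0, ∀ L, L0 ≤ L → ∀ (X : Type) (c : ℕ → X → ℕ), (∀ l x, c (l + 1) x / 2 = c l x) →
    ∀ A : Finset X, Cst c j A → d * 2 ^ L ≤ 2 ^ j * cnt c L A → Emb G B c S A

theorem step {V : Type} [DecidableEq V] {G : SimpleGraph V} {B1 B2 : Finset V} (hd : Disjoint B1 B2)
    {ε : ℝ} (hε : 0 < ε) (g1 : Good G B1 S (ε / 2)) (g2 : Good G B2 S (ε / 2)) (b : Prop)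
    (hb : ∀ u ∈ B1, ∀ v ∈ B2, G.Adj u v ↔ b) (hS : ∀ j, ∃ l, j ≤ l ∧ (S l ↔ b)) :
    Good G (B1 ∪ B2) S ε := by
  have main : ∀ r : ℕ, Good G (B1 ∪ B2) S (max ε (2 - r * (ε / 2))) := by
    intro r
    induction r with
    | zero =>
      intro j
      refine ⟨j, fun L hL X c hc A hA le => ?_⟩
      obtain ⟨k, rfl⟩ := Nat.exists_eq_add_of_le hL
      have := cnt_le hc hA k
      have p : (0 : ℝ) < 2 ^ k := by positivity
      have q : (0 : ℝ) < 2 ^ j := by positivity
      have m := le_max_right ε (2 - ((0 : ℕ) : ℝ) * (ε / 2))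
      rw [pow_add] at le
      simp only [Nat.cast_zero, zero_mul, sub_zero] at m le
      nlinarith [mul_pos p q, mul_le_mul_of_nonneg_right m (mul_pos q p).le]
    | succ r ih =>
      intro j
      obtain ⟨l, hl, hlS⟩ := hS j
      obtain ⟨k, rfl⟩ := Nat.exists_eq_add_of_le hl
      obtain ⟨L0, h0⟩ := ih (j + k + 1)
      obtain ⟨L1, h1⟩ := g1 (j + k + 1)
      obtain ⟨L2, h2⟩ := g2 (j + k + 1)
      refine ⟨L0 + L1 + L2, fun L hL X c hc A hA le => ?_⟩
      obtain ⟨A', s, hA', le'⟩ := pig hc hA L k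
      obtain ⟨A0, s0, A1, s1, c0, c1, ne, l⟩ := split hc hA'
      have l := l L
      have q : (0 : ℝ) < 2 ^ j := by positivity
      have p : (0 : ℝ) < 2 ^ k := by positivity
      have pL : (0 : ℝ) < 2 ^ L := by positivity
      have tot : 2 * (max ε (2 - ((r + 1 : ℕ) : ℝ) * (ε / 2)) * 2 ^ L) ≤
          2 ^ (j + k + 1) * cnt c L A0 + 2 ^ (j + k + 1) * cnt c L A1 := by
        rw [pow_succ, pow_add]
        nlinarith [mul_le_mul_of_nonneg_left le' q.le,
          mul_le_mul_of_nonneg_left l (mul_pos q p).le]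
      have m1 := mul_le_mul_of_nonneg_right
        (le_max_left ε (2 - ((r + 1 : ℕ) : ℝ) * (ε / 2))) pL.le
      have m2 := mul_le_mul_of_nonneg_right
        (le_max_right ε (2 - ((r + 1 : ℕ) : ℝ) * (ε / 2))) pL.le
      have mono : ∀ A2 ⊆ A', Emb G (B1 ∪ B2) c S A2 → Emb G (B1 ∪ B2) c S A :=
        fun A2 s2 ⟨g, a, e⟩ => ⟨g, fun i hi => let ⟨x, hx, t⟩ := a i hi; ⟨x, s (s2 hx), t⟩, e⟩
      have big : ∀ u v : ℝ, 2 * (max ε (2 - ((r + 1 : ℕ) : ℝ) * (ε / 2)) * 2 ^ L) ≤ u + v →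
          v < ε / 2 * 2 ^ L → max ε (2 - (r : ℝ) * (ε / 2)) * 2 ^ L ≤ u := by
        intro u v a e
        have := mul_pos hε pL
        push_cast at m2 m1 a
        rcases max_cases ε (2 - (r : ℝ) * (ε / 2)) with ⟨t, -⟩ | ⟨t, -⟩ <;> rw [t] <;> nlinarith
      rcases lt_or_ge (2 ^ (j + k + 1) * cnt c L A1) (ε / 2 * 2 ^ L) with t1 | t1
      · exact mono A0 s0 (h0 L (by omega) X c hc A0 c0 (big _ _ tot t1))
      rcases lt_or_ge (2 ^ (j + k + 1) * cnt c L A0) (ε / 2 * 2 ^ L) with t0 | t0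
      · exact mono A1 s1 (h0 L (by omega) X c hc A1 c1 (big _ _ (by linarith) t0))
      obtain ⟨f0, a0, e0⟩ := h1 L (by omega) X c hc A0 c0 t0
      obtain ⟨f1, a1, e1⟩ := h2 L (by omega) X c hc A1 c1 t1
      have cross : ∀ u ∈ B1, ∀ v ∈ B2, ∀ x y, f0 u = some x → f1 v = some y →
          x ≠ y ∧ (G.Adj u v ↔ R c S x y) := by
        intro u hu v hv x y hx hy
        obtain ⟨x', hx', t⟩ := a0 u hu
        obtain ⟨y', hy', t'⟩ := a1 v hv
        obtain rfl : x' = x := by simpa [hx] using t.symm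
        obtain rfl : y' = y := by simpa [hy] using t'.symm
        have n := ne _ hx' _ hy'
        exact ⟨fun e => n (e ▸ rfl), by
          rw [hb u hu v hv, R_iff hc (hA' _ (s0 hx') _ (s1 hy')) n, hlS]⟩
      refine ⟨fun i => if i ∈ B1 then f0 i else f1 i, fun i hi => ?_, fun u hu v hv n x y => ?_⟩
      · by_cases h : i ∈ B1
        · obtain ⟨x, hx, t⟩ := a0 i h
          exact ⟨x, s (s0 hx), by simp [h, t]⟩
        · obtain ⟨x, hx, t⟩ := a1 i ((mem_union.1 hi).resolve_left h)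
          exact ⟨x, s (s1 hx), by simp [h, t]⟩
      by_cases h : u ∈ B1 <;> by_cases h' : v ∈ B1 <;> simp only [h, h', if_true, if_false]
      · exact e0 u h v h' n x y
      · exact cross u h v ((mem_union.1 hv).resolve_left h') x y
      · intro hx hy
        have := cross v h' u ((mem_union.1 hu).resolve_left h) y x hy hx
        exact ⟨this.1.symm, G.adj_comm _ _ |>.trans (this.2.trans ⟨R.symm, R.symm⟩)⟩
      · exact e1 u ((mem_union.1 hu).resolve_left h) v ((mem_union.1 hv).resolve_left h') n x y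
  obtain ⟨r, hr⟩ := exists_nat_ge (2 / (ε / 2))
  have := main r
  rwa [max_eq_left] at this
  rw [div_le_iff₀ (by positivity)] at hr
  linarith

theorem good {V : Type} [DecidableEq V] {G : SimpleGraph V} {B : Finset V} (h : Co G B)
    (h1 : ∀ j, ∃ l, j ≤ l ∧ S l) (h2 : ∀ j, ∃ l, j ≤ l ∧ ¬ S l) :
    ∀ ε : ℝ, 0 < ε → Good G B S ε := by
  induction h with
  | empty => exact fun ε _ j => ⟨0, fun L _ X c _ A _ _ => ⟨fun _ => none, by simp, by simp⟩⟩
  | single v =>
    refine fun ε hε j => ⟨0, fun L _ X c _ A _ le => ?_⟩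
    rcases A.eq_empty_or_nonempty with rfl | ⟨x, hx⟩
    · simp only [cnt, image_empty, card_empty, Nat.cast_zero, mul_zero] at le
      exact absurd le (not_le.2 (by positivity))
    · exact ⟨fun _ => some x, fun _ _ => ⟨x, hx, rfl⟩, by simp⟩
  | union A B d _ _ n i1 i2 =>
    exact fun ε hε => step d hε (i1 _ (by positivity)) (i2 _ (by positivity)) False
      (by simpa using n) (by simpa using h2)
  | join A B d _ _ n i1 i2 =>
    exact fun ε hε => step d hε (i1 _ (by positivity)) (i2 _ (by positivity)) True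
      (by simpa using n) (by simpa using h1)

end Pool.Agent.H31.Cog
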