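import Pool.Agent.H31.Cog1

namespace Pool.Agent.H31.Cog

open Finset MeasureTheory unitInterval

/-- A graphon on `[0,1]`. -/
structure Graphon where
  W : I → I → ℝ
  symm : ∀ x y, W x y = W y x
  meas : Measurable (Function.uncurry W)
  mem : ∀ x y, W x y ∈ Set.Icc (0 : ℝ) 1

open Classical in
/-- The product of `W` over the edges of `H` and of `1 - W` over its non-edges. -/
noncomputable def wt (W : Graphon) {n : ℕ} (H : SimpleGraph (Fin n)) (x : Fin n → I) : ℝ :=
  ∏ p ∈ univ.filter (fun p : Fin n × Fin n => p.1 < p.2),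
    if H.Adj p.1 p.2 then W.W (x p.1) (x p.2) else 1 - W.W (x p.1) (x p.2)

/-- A limit is recorded by its (labelled) induced densities of finite graphs. -/
abbrev Lim : Type := (n : ℕ) → SimpleGraph (Fin n) → ℝ

/-- The induced densities of `W` on the probability space `([0,1], f dλ / ∫ f)`. -/
noncomputable def dens (W : Graphon) (f : I → ℝ) : Lim := fun n H =>
  (∫ x : Fin n → I, (∏ i, f (x i)) * wt W H x) / (∫ t, f t) ^ n

def IsLimit (φ : Lim) : Prop := ∃ W : Graphon, φ = dens W fun _ => 1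

/-- `ψ` is a sub-object of `φ`. -/
def Sub (ψ φ : Lim) : Prop :=
  ∃ (W : Graphon) (f : I → ℝ), Measurable f ∧ (∀ t, f t ∈ Set.Icc (0 : ℝ) 1) ∧ 0 < ∫ t, f t ∧
    φ = dens W (fun _ => 1) ∧ ψ = dens W f

def Q (φ : Lim) : Set (Σ n, SimpleGraph (Fin n)) := {H | 0 < φ H.1 H.2}

def P (φ : Lim) : Set (Σ n, SimpleGraph (Fin n)) := ⋂ ψ ∈ {ψ | Sub ψ φ}, Q ψ

/-- The cographs together with `K_0`. -/
def Cographs : Set (Σ n, SimpleGraph (Fin n)) := {H | Co H.2 univ}

def Phi : Set Lim := {φ | IsLimit φ ∧ P φ = Cographs ∧ Q φ = Cographs}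

variable {W : Graphon} {n : ℕ}

theorem wt_mem (H : SimpleGraph (Fin n)) (x : Fin n → I) : 0 ≤ wt W H x ∧ wt W H x ≤ 1 := by
  classical
  have h : ∀ p : Fin n × Fin n,
      0 ≤ (if H.Adj p.1 p.2 then W.W (x p.1) (x p.2) else 1 - W.W (x p.1) (x p.2)) ∧
      (if H.Adj p.1 p.2 then W.W (x p.1) (x p.2) else 1 - W.W (x p.1) (x p.2)) ≤ 1 := fun p => by
    have := W.mem (x p.1) (x p.2)
    split_ifs <;> constructor <;> linarith [this.1, this.2]
  exact ⟨prod_nonneg fun p _ => (h p).1, prod_le_one (fun p _ => (h p).1) fun p _ => (h p).2⟩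

theorem wt_meas (H : SimpleGraph (Fin n)) : Measurable (wt W H) := by
  classical
  refine Finset.measurable_prod _ fun p _ => ?_
  have : Measurable fun x : Fin n → I => W.W (x p.1) (x p.2) :=
    W.meas.comp (f := fun x : Fin n → I => (x p.1, x p.2)) (by fun_prop)
  split_ifs
  · exact this
  · exact measurable_const.sub this

open Classical in
theorem wt_ne {H : SimpleGraph (Fin n)} {x : Fin n → I} : wt W H x ≠ 0 ↔ ∀ i j, i ≠ j →
    (if H.Adj i j then W.W (x i) (x j) else 1 - W.W (x i) (x j)) ≠ 0 := by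
  unfold wt
  rw [prod_ne_zero_iff]
  refine ⟨fun h i j n => ?_, fun h p hp => h _ _ (mem_filter.1 hp).2.ne⟩
  rcases lt_or_gt_of_ne n with t | t
  · exact h (i, j) (by simpa using t)
  · have := h (j, i) (by simpa using t)
    simpa only [H.adj_comm j i, W.symm (x j) (x i)] using this

theorem intb {α : Type} [MeasureSpace α] [IsFiniteMeasure (volume : Measure α)] {g : α → ℝ}
    (hm : Measurable g) (h : ∀ x, 0 ≤ g x ∧ g x ≤ 1) : Integrable g :=
  .of_bound hm.aestronglyMeasurable 1 (.of_forall fun x => by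
    rw [Real.norm_of_nonneg (h x).1]; exact (h x).2)

theorem dens_one (H : SimpleGraph (Fin n)) : dens W (fun _ => 1) n H = ∫ x, wt W H x := by
  simp [dens]

theorem fw_mem {f : I → ℝ} (hf : ∀ t, f t ∈ Set.Icc (0 : ℝ) 1) (H : SimpleGraph (Fin n))
    (x : Fin n → I) : 0 ≤ (∏ i, f (x i)) * wt W H x ∧ (∏ i, f (x i)) * wt W H x ≤ wt W H x :=
  ⟨mul_nonneg (prod_nonneg fun _ _ => (hf _).1) (wt_mem H x).1,
    mul_le_of_le_one_left (wt_mem H x).1 (prod_le_one (fun _ _ => (hf _).1) fun _ _ => (hf _).2)⟩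

theorem fw_int {f : I → ℝ} (hm : Measurable f) (hf : ∀ t, f t ∈ Set.Icc (0 : ℝ) 1)
    (H : SimpleGraph (Fin n)) : Integrable fun x : Fin n → I => (∏ i, f (x i)) * wt W H x :=
  intb ((Finset.measurable_prod _ fun i _ => hm.comp (measurable_pi_apply i)).mul (wt_meas H))
    fun x => ⟨(fw_mem hf H x).1, (fw_mem hf H x).2.trans (wt_mem H x).2⟩

theorem sub_le {ψ φ : Lim} (h : Sub ψ φ) : ∃ a : ℝ, 0 < a ∧ ∀ n H, ψ n H * a ^ n ≤ φ n H := by
  obtain ⟨W, f, hm, hf, ha, rfl, rfl⟩ := h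
  refine ⟨_, ha, fun n H => ?_⟩
  rw [dens_one, dens, div_mul_cancel₀ _ (pow_pos ha n).ne']
  exact integral_mono (fw_int hm hf H) (intb (wt_meas H) (wt_mem H)) fun x => (fw_mem hf H x).2

theorem sum_pw {α : Type} [DecidableEq α] (s : Finset α) (a b : α → ℝ) :
    ∑ t ∈ s.powerset, ∏ p ∈ s, (if p ∈ t then a p else b p) = ∏ p ∈ s, (a p + b p) := by
  rw [prod_add]
  refine sum_congr rfl fun t ht => ?_
  rw [prod_ite, filter_mem_eq_inter, inter_eq_right.2 (mem_powerset.1 ht), sdiff_eq_filter]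

def K (E : Finset (Fin n × Fin n)) : SimpleGraph (Fin n) :=
  SimpleGraph.fromRel fun i j => (i, j) ∈ E

theorem sum_wt (x : Fin n → I) :
    ∑ E ∈ (univ.filter fun p : Fin n × Fin n => p.1 < p.2).powerset, wt W (K E) x = 1 := by
  classical
  have := sum_pw (univ.filter fun p : Fin n × Fin n => p.1 < p.2)
    (fun p => W.W (x p.1) (x p.2)) fun p => 1 - W.W (x p.1) (x p.2)
  simp only [add_sub_cancel, prod_const_one] at this
  rw [← this]
  refine sum_congr rfl fun E hE => prod_congr rfl fun p hp => ?_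
  have lt := (mem_filter.1 hp).2
  have : (K E).Adj p.1 p.2 ↔ p ∈ E := by
    simp only [K, SimpleGraph.fromRel_adj, ne_eq, lt.ne, not_false_eq_true, true_and]
    exact ⟨fun h => h.resolve_right fun c => lt.asymm (mem_filter.1 (mem_powerset.1 hE c)).2,
      Or.inl⟩
  simp only [this]

theorem mp_comp {N : ℕ} {e : Fin n → Fin N} (he : Function.Injective e) :
    MeasurePreserving (fun (x : Fin N → I) (i : Fin n) => x (e i)) := by
  refine ⟨by fun_prop, ?_⟩
  have h := (ProbabilityTheory.iIndepFun_pi (μ := fun _ : Fin N => (volume : Measure I))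
    (X := fun _ => id) fun _ => aemeasurable_id).precomp he
  have h2 := (ProbabilityTheory.iIndepFun_iff_map_fun_eq_pi_map
    (fun i => (measurable_pi_apply (e i)).aemeasurable)).1 h
  refine h2.trans ?_
  rw [volume_pi]
  congr 1
  funext i
  exact (measurePreserving_eval (fun _ : Fin N => (volume : Measure I)) (e i)).map_eq

/-- dyadic cells -/
noncomputable def c (L : ℕ) (x : I) : ℕ := ⌊(2 : ℝ) ^ L * (x / 2)⌋₊

theorem hc (l : ℕ) (x : I) : c (l + 1) x / 2 = c l x := by
  unfold c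
  rw [← Nat.floor_div_natCast]
  congr 1
  push_cast
  ring

theorem c_lt (L : ℕ) (x : I) : c L x < 2 ^ L := by
  have := x.2.1
  have := x.2.2
  have p : (0 : ℝ) < 2 ^ L := by positivity
  rw [c, Nat.floor_lt (by positivity)]
  push_cast
  nlinarith

theorem c_zero (x y : I) : c 0 x = c 0 y := by
  have := c_lt 0 x
  have := c_lt 0 y
  omega

theorem c_meas (L : ℕ) : Measurable (c L) := by
  unfold c
  exact Nat.measurable_floor.comp (by fun_prop)

theorem c_eq {L k : ℕ} {x : I} :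
    c L x = k ↔ (x : ℝ) ∈ Set.Ico (2 * k / 2 ^ L : ℝ) (2 * (k + 1) / 2 ^ L) := by
  have := x.2.1
  have p : (0 : ℝ) < 2 ^ L := by positivity
  rw [c, Nat.floor_eq_iff (by positivity), Set.mem_Ico, div_le_iff₀ p, lt_div_iff₀ p]
  constructor <;> rintro ⟨a, b⟩ <;> constructor <;> linarith

noncomputable def ind (L : ℕ) (T : Finset ℕ) (x : I) : ℝ := if c L x ∈ T then 1 else 0

theorem ind_mem (L T x) : 0 ≤ ind L T x ∧ ind L T x ≤ 1 := by
  unfold ind; split_ifs <;> simp

theorem ind_meas (L T) : Measurable (ind L T) :=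
  (measurable_from_top (f := fun k : ℕ => if k ∈ T then (1 : ℝ) else 0)).comp (c_meas L)

theorem ind_one (L k : ℕ) : ∫ x, ind L {k} x = (volume (Subtype.val '' {x : I | c L x = k})).toReal := by
  rw [← unitInterval.volume_apply, ← Measure.real, ← integral_indicator_one
    (s := {x : I | c L x = k}) (c_meas L (measurableSet_singleton k))]
  congr 1
  funext x
  simp [ind, Set.indicator]

theorem vol_Ico (L k : ℕ) :
    (volume (Set.Ico (2 * k / 2 ^ L : ℝ) (2 * (k + 1) / 2 ^ L))).toReal = 2 / 2 ^ L := by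
  have e : (2 * (k + 1) / 2 ^ L - 2 * k / 2 ^ L : ℝ) = 2 / 2 ^ L := by ring
  rw [Real.volume_Ico, e, ENNReal.toReal_ofReal (by positivity)]

theorem ind_le (L : ℕ) (T : Finset ℕ) : ∫ x, ind L T x ≤ T.card * (2 / 2 ^ L) := by
  have e : ind L T = fun x => ∑ k ∈ T, ind L {k} x := by
    funext x; simp [ind]
  rw [e, integral_finsetSum _ fun k _ => intb (ind_meas _ _) (ind_mem _ _), ← nsmul_eq_mul]
  refine sum_le_card_nsmul _ _ _ fun k _ => ?_
  rw [ind_one, ← vol_Ico L k]
  refine ENNReal.toReal_mono (by simp) (measure_mono ?_)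
  rintro _ ⟨x, hx, rfl⟩
  exact c_eq.1 hx

theorem ind_ge {L k : ℕ} (h : 2 * k + 2 ≤ 2 ^ L) : 2 / 2 ^ L ≤ ∫ x, ind L {k} x := by
  rw [ind_one, ← vol_Ico L k, ← unitInterval.volume_apply]
  refine ENNReal.toReal_mono (measure_ne_top _ _) ?_
  rw [unitInterval.volume_apply]
  refine measure_mono fun x hx => ?_
  have p : (0 : ℝ) < 2 ^ L := by positivity
  have h' : (2 * (k + 1) : ℝ) ≤ 2 ^ L := by exact_mod_cast h
  refine ⟨⟨x, le_trans (by positivity) hx.1, hx.2.le.trans ((div_le_one p).2 h')⟩, c_eq.2 hx, rfl⟩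

open Classical in
/-- the recursive blow-up graphon -/
noncomputable def WG (S : ℕ → Prop) : Graphon where
  W x y := if R c S x y then 1 else 0
  symm x y := by simp only [show R c S x y ↔ R c S y x from ⟨R.symm, R.symm⟩]
  meas := by
    refine Measurable.ite ?_ measurable_const measurable_const
    have m := c_meas
    have : ∀ l, MeasurableSet {p : I × I | c l p.1 = c l p.2} := fun l =>
      measurableSet_eq_fun ((m l).comp measurable_fst) ((m l).comp measurable_snd)
    have e : {p : I × I | R c S p.1 p.2} = ⋃ l, {p | S l} ∩ ({p : I × I | c l p.1 = c l p.2} ∩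
      {p : I × I | c (l + 1) p.1 = c (l + 1) p.2}ᶜ) := by
      ext p; simp [R]
    exact e ▸ .iUnion fun l => (MeasurableSet.const _).inter ((this l).inter (this _).compl)
  mem x y := by split_ifs <;> simp

theorem wg_ne {S : ℕ → Prop} {H : SimpleGraph (Fin n)} {x : Fin n → I} :
    wt (WG S) H x ≠ 0 ↔ ∀ i j, i ≠ j → (H.Adj i j ↔ R c S (x i) (x j)) := by
  rw [wt_ne]
  refine forall₃_congr fun i j _ => ?_
  by_cases h : H.Adj i j <;> by_cases h' : R c S (x i) (x j) <;> simp [WG, h, h']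

theorem wg_one {S : ℕ → Prop} {H : SimpleGraph (Fin n)} {x : Fin n → I}
    (h : ∀ i j, i ≠ j → (H.Adj i j ↔ R c S (x i) (x j))) : wt (WG S) H x = 1 := by
  refine prod_eq_one fun p hp => ?_
  have := h _ _ (mem_filter.1 hp).2.ne
  by_cases h' : R c S (x p.1) (x p.2) <;> simp [WG, this, h']

theorem Q_sub (S : ℕ → Prop) : Q (dens (WG S) fun _ => 1) ⊆ Cographs := by
  rintro ⟨n, H⟩ h
  have h : 0 < ∫ x, wt (WG S) H x := dens_one H ▸ h
  obtain ⟨x, hx⟩ : ∃ x, wt (WG S) H x ≠ 0 := by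
    by_contra t
    push Not at t
    simp [t] at h
  exact co_of hc c_zero H x (wg_ne.1 hx) _

end Pool.Agent.H31.Cog
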