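import Pool.Agent.H31.Cog2

namespace Pool.Agent.H31.Cog

open Finset MeasureTheory unitInterval

variable {n : ℕ}

def Has {N : ℕ} (H : SimpleGraph (Fin n)) (G : SimpleGraph (Fin N)) (A : Finset (Fin N)) : Prop :=
  ∃ e : Fin n → Fin N, Function.Injective e ∧ (∀ i, e i ∈ A) ∧
    ∀ i j, i ≠ j → (H.Adj i j ↔ G.Adj (e i) (e j))

def Bad {N : ℕ} (H : SimpleGraph (Fin n)) (D : ℕ) (G : SimpleGraph (Fin N)) : Prop :=
  ∃ A : Finset (Fin N), N ≤ D * A.card ∧ ¬ Has H G A

theorem prod_int {N : ℕ} {g : Fin N → I → ℝ} (hm : ∀ i, Measurable (g i))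
    (h : ∀ i x, 0 ≤ g i x ∧ g i x ≤ 1) : Integrable fun x : Fin N → I => ∏ i, g i (x i) :=
  intb (Finset.measurable_prod _ fun i _ => (hm i).comp (measurable_pi_apply i)) fun x =>
    ⟨prod_nonneg fun _ _ => (h _ _).1, prod_le_one (fun _ _ => (h _ _).1) fun _ _ => (h _ _).2⟩

open Classical in
theorem bad_le {S : ℕ → Prop} {H : SimpleGraph (Fin n)} (D : ℕ)
    (hG : Good H univ S ((1 / 4) ^ D / 2)) : ∃ C : ℝ, ∀ N : ℕ,
    ∑ E ∈ (univ.filter fun p : Fin N × Fin N => p.1 < p.2).powerset with Bad H D (K E),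
      ∫ x, wt (WG S) (K E) x ≤ C * (1 / 2) ^ N := by
  obtain ⟨L, hL⟩ := hG 0
  refine ⟨2 ^ 2 ^ L, fun N => ?_⟩
  rw [← integral_finsetSum _ fun E _ => intb (wt_meas _) (wt_mem _)]
  set J := (univ.filter fun A : Finset (Fin N) => N ≤ D * A.card) ×ˢ
    ((range (2 ^ L)).powerset.filter fun T => (T.card : ℝ) < (1 / 4) ^ D / 2 * 2 ^ L) with hJ
  set g : Finset (Fin N) × Finset ℕ → Fin N → I → ℝ :=
    fun q i x => if i ∈ q.1 then ind L q.2 x else 1 with hg
  have gm : ∀ q i, Measurable (g q i) := fun q i => by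
    by_cases h : i ∈ q.1 <;> simp only [hg, h, if_true, if_false]
    · exact ind_meas _ _
    · exact measurable_const
  have gb : ∀ q i x, 0 ≤ g q i x ∧ g q i x ≤ 1 := fun q i x => by
    by_cases h : i ∈ q.1 <;> simp only [hg, h, if_true, if_false]
    · exact ind_mem _ _ _
    · simp
  have pt : ∀ x : Fin N → I,
      ∑ E ∈ (univ.filter fun p : Fin N × Fin N => p.1 < p.2).powerset with Bad H D (K E),
        wt (WG S) (K E) x ≤ ∑ q ∈ J, ∏ i, g q i (x i) := by
    intro x
    have nn : ∀ q ∈ J, 0 ≤ ∏ i, g q i (x i) := fun q _ => prod_nonneg fun _ _ => (gb _ _ _).1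
    by_cases h : ∃ E, Bad H D (K E) ∧ wt (WG S) (K E) x ≠ 0
    · obtain ⟨E, ⟨A, hA, nH⟩, hE⟩ := h
      have hE := wg_ne.1 hE
      have hT : (A, A.image fun i => c L (x i)) ∈ J := by
        simp only [hJ, mem_product, mem_filter, mem_univ, true_and, mem_powerset]
        refine ⟨hA, fun k hk => ?_, ?_⟩
        · obtain ⟨i, -, rfl⟩ := mem_image.1 hk
          exact mem_range.2 (c_lt _ _)
        by_contra t
        obtain ⟨e, a, b⟩ := hL L le_rfl (Fin N) (fun l i => c l (x i)) (fun l i => hc l _) A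
          (fun _ _ _ _ => c_zero _ _) (by simpa [cnt] using t)
        choose! e' h1 h2 using a
        have b' := fun i j n => b i (mem_univ _) j (mem_univ _) n _ _ (h2 i (mem_univ _))
          (h2 j (mem_univ _))
        refine nH ⟨fun i => e' i (mem_univ _), fun i j t => by_contra fun n => (b' i j n).1 t,
          fun i => h1 i _, fun i j n => ?_⟩
        rw [hE _ _ (b' i j n).1]
        exact (b' i j n).2
      refine le_trans ?_ (single_le_sum nn hT)
      rw [prod_eq_one fun i _ => ?_, ← sum_wt (W := WG S) x]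
      · exact sum_le_sum_of_subset_of_nonneg (filter_subset _ _) fun _ _ _ => (wt_mem _ _).1
      · by_cases h : i ∈ A <;> simp only [hg, h, if_true, if_false]
        exact if_pos (mem_image_of_mem (fun i => c L (x i)) h)
    · push Not at h
      rw [sum_eq_zero fun E hE => h E (mem_filter.1 hE).2]
      exact sum_nonneg nn
  refine (integral_mono (integrable_finsetSum _ fun E _ => intb (wt_meas _) (wt_mem _))
    (integrable_finsetSum _ fun q _ => prod_int (gm q) (gb q)) pt).trans ?_
  rw [integral_finsetSum _ fun q _ => prod_int (gm q) (gb q)]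
  have each : ∀ q ∈ J, ∫ x : Fin N → I, ∏ i, g q i (x i) ≤ (1 / 4) ^ N := by
    intro q hq
    simp only [hJ, mem_product, mem_filter, mem_univ, true_and, mem_powerset] at hq
    rw [integral_fintype_prod_volume_eq_prod]
    calc ∏ i, ∫ x, g q i x ≤ ∏ i, if i ∈ q.1 then ((1 / 4 : ℝ) ^ D) else 1 := by
          refine prod_le_prod (fun i _ => integral_nonneg fun x => (gb _ _ _).1) fun i _ => ?_
          by_cases h : i ∈ q.1 <;> simp only [hg, h, if_true, if_false]
          · refine (ind_le _ _).trans ?_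
            have p : (0 : ℝ) < 2 ^ L := by positivity
            rw [← mul_div_assoc, div_le_iff₀ p]
            linarith [hq.2.2]
          · simp
      _ = (1 / 4) ^ (D * q.1.card) := by simp [prod_ite, pow_mul]
      _ ≤ _ := pow_le_pow_of_le_one (by norm_num) (by norm_num) hq.1
  refine (sum_le_card_nsmul _ _ _ each).trans ?_
  have : J.card ≤ 2 ^ N * 2 ^ 2 ^ L := by
    rw [hJ, card_product]
    exact Nat.mul_le_mul ((card_filter_le _ _).trans (by simp)) ((card_filter_le _ _).trans (by simp))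
  have : (J.card : ℝ) ≤ 2 ^ N * 2 ^ 2 ^ L := by exact_mod_cast this
  rw [nsmul_eq_mul]
  calc (J.card : ℝ) * (1 / 4) ^ N ≤ 2 ^ N * 2 ^ 2 ^ L * (1 / 4) ^ N := by gcongr
    _ = 2 ^ 2 ^ L * (2 * (1 / 4)) ^ N := by rw [mul_pow]; ring
    _ = _ := by norm_num

theorem pos {S : ℕ → Prop} (h1 : ∀ j, ∃ l, j ≤ l ∧ S l) (h2 : ∀ j, ∃ l, j ≤ l ∧ ¬ S l)
    {ψ : Lim} (hψ : Sub ψ (dens (WG S) fun _ => 1)) {H : SimpleGraph (Fin n)}
    (hH : Co H univ) : 0 < ψ n H := by
  classical
  obtain ⟨W, f, hm, hf, ha, hW, rfl⟩ := hψ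
  refine div_pos ?_ (pow_pos ha n)
  by_contra t
  have z := (integral_eq_zero_iff_of_nonneg (fun x => (fw_mem hf H x).1) (fw_int hm hf H)).1
    (le_antisymm (not_lt.1 t) (integral_nonneg fun x => (fw_mem (W := W) hf H x).1))
  have fi : Integrable f := intb hm hf
  set a := ∫ t, f t with hadef
  have a1 : a ≤ 1 := by
    have := integral_mono fi (integrable_const (1 : ℝ)) fun x => (hf x).2
    simpa using this
  obtain ⟨D, hD⟩ := pow_unbounded_of_one_lt 2 (show (1 : ℝ) < 1 + a / 4 by linarith)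
  obtain ⟨C, hC⟩ := bad_le D (good hH h1 h2 _ (by positivity))
  have key : ∀ N : ℕ, 1 ≤ (1 - a / 4) ^ N + C * (1 / 2) ^ N := by
    intro N
    have ae : ∀ᵐ x : Fin N → I, ∀ e : Fin n → Fin N, Function.Injective e →
        (∏ i, f (x (e i))) * wt W H (fun i => x (e i)) = 0 := by
      refine ae_all_iff.2 fun e => ?_
      by_cases he : Function.Injective e
      · filter_upwards [(mp_comp he).quasiMeasurePreserving.ae z] with x hx _ using hx
      · exact .of_forall fun _ h => absurd h he
    have gm : ∀ _ : Fin N, Measurable fun x => f x / 2 + (1 - f x) := fun _ => by fun_prop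
    have gb : ∀ (_ : Fin N) x, 0 ≤ f x / 2 + (1 - f x) ∧ f x / 2 + (1 - f x) ≤ 1 := fun _ x => by
      constructor <;> linarith [(hf x).1, (hf x).2]
    have pt : ∀ᵐ x : Fin N → I, (1 : ℝ) ≤ (1 + a / 4) ^ N * ∏ i, (f (x i) / 2 + (1 - f (x i))) +
        ∑ E ∈ (univ.filter fun p : Fin N × Fin N => p.1 < p.2).powerset with Bad H D (K E),
          wt W (K E) x := by
      filter_upwards [ae] with x hx
      set p : Finset (Fin N) → ℝ := fun A => ∏ i, if i ∈ A then f (x i) else 1 - f (x i) with hp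
      have p0 : ∀ A, 0 ≤ p A := fun A => prod_nonneg fun i _ => by
        split_ifs <;> linarith [(hf (x i)).1, (hf (x i)).2]
      have s1 : ∑ A ∈ univ.powerset, p A = 1 := by rw [sum_pw]; simp
      have s2 : ∑ A ∈ univ.powerset, (1 / 2) ^ A.card * p A =
          ∏ i, (f (x i) / 2 + (1 - f (x i))) := by
        rw [← sum_pw]
        refine sum_congr rfl fun A _ => ?_
        rw [show (1 / 2 : ℝ) ^ A.card = ∏ i, if i ∈ A then (1 / 2 : ℝ) else 1 by simp [prod_ite],
          ← prod_mul_distrib]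
        exact prod_congr rfl fun i _ => by split_ifs <;> ring
      have term : ∀ E A, wt W (K E) x * p A ≤ wt W (K E) x * ((1 + a / 4) ^ N *
          ((1 / 2) ^ A.card * p A)) + (if Bad H D (K E) then wt W (K E) x else 0) * p A := by
        intro E A
        have w := (wt_mem (W := W) (K E) x).1
        have n1 : 0 ≤ wt W (K E) x * ((1 + a / 4) ^ N * ((1 / 2) ^ A.card * p A)) := by
          have := p0 A; positivity
        have n2 : 0 ≤ (if Bad H D (K E) then wt W (K E) x else 0) * p A :=
          mul_nonneg (by split_ifs <;> simp [w]) (p0 A)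
        by_cases hA : N ≤ D * A.card
        · by_cases hh : Has H (K E) A
          · refine le_trans (le_of_eq ?_) (add_nonneg n1 n2)
            obtain ⟨e, he, m, b⟩ := hh
            by_contra u
            obtain ⟨u1, u2⟩ := mul_ne_zero_iff.1 u
            refine mul_ne_zero (prod_ne_zero_iff.2 fun i _ => ?_) (wt_ne.2 fun i j ne => ?_)
              (hx e he)
            · simpa [m i] using prod_ne_zero_iff.1 u2 (e i) (mem_univ _)
            · simpa only [b i j ne] using wt_ne.1 u1 _ _ (he.ne ne)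
          · rw [if_pos ⟨A, hA, hh⟩]; linarith
        · have : 1 ≤ (1 + a / 4) ^ N * (1 / 2) ^ A.card := by
            rw [one_div, inv_pow, ← div_eq_mul_inv, le_div_iff₀ (by positivity), one_mul]
            calc (2 : ℝ) ^ A.card ≤ ((1 + a / 4) ^ D) ^ A.card := by gcongr
              _ ≤ _ := by
                rw [← pow_mul]; exact pow_le_pow_right₀ (by linarith) (by omega)
          nlinarith [mul_nonneg w (p0 A)]
      have := sum_le_sum (s := (univ.filter fun p : Fin N × Fin N => p.1 < p.2).powerset)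
        fun E _ => sum_le_sum (s := univ.powerset) fun A _ => term E A
      simp only [sum_add_distrib, ← mul_sum, s1, s2, mul_one, ← sum_mul, sum_wt, one_mul] at this
      rwa [sum_filter]
    have i1 := (prod_int gm gb).const_mul ((1 + a / 4) ^ N)
    have i2 := integrable_finsetSum
      (((univ.filter fun p : Fin N × Fin N => p.1 < p.2).powerset).filter
        fun E => Bad H D (K E)) fun E _ => intb (wt_meas (W := W) (K E)) (wt_mem _)
    have := integral_mono_ae (integrable_const (1 : ℝ)) (i1.add i2) pt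
    simp only [Pi.add_apply] at this
    rw [integral_add i1 i2, integral_const_mul,
      integral_fintype_prod_volume_eq_pow (fun x => f x / 2 + (1 - f x)),
      integral_finsetSum _ fun E _ => intb (wt_meas (W := W) (K E)) (wt_mem _),
      integral_add (g := fun x => 1 - f x) (fi.div_const 2) ((integrable_const 1).sub fi),
      integral_div,
      integral_sub (integrable_const 1) fi] at this
    simp only [integral_const, probReal_univ, smul_eq_mul, mul_one, Fintype.card_fin,
      ← hadef] at this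
    refine this.trans (add_le_add ?_ ?_)
    · rw [← mul_pow]
      exact pow_le_pow_left₀ (mul_nonneg (by linarith) (by linarith)) (by nlinarith) _
    · refine le_trans (le_of_eq (sum_congr rfl fun E _ => ?_)) (hC N)
      rw [← dens_one, ← dens_one, hW]
  have l1 := tendsto_pow_atTop_nhds_zero_of_lt_one (show 0 ≤ 1 - a / 4 by linarith) (by linarith)
  have l2 := (tendsto_pow_atTop_nhds_zero_of_lt_one (show (0 : ℝ) ≤ 1 / 2 by norm_num)
    (by norm_num)).const_mul C
  have := ge_of_tendsto' (l1.add l2) key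
  norm_num at this

theorem mem_Phi {S : ℕ → Prop} (h1 : ∀ j, ∃ l, j ≤ l ∧ S l) (h2 : ∀ j, ∃ l, j ≤ l ∧ ¬ S l) :
    dens (WG S) (fun _ => 1) ∈ Phi := by
  have self : Sub (dens (WG S) fun _ => 1) (dens (WG S) fun _ => 1) :=
    ⟨WG S, fun _ => 1, measurable_const, by simp, by simp, rfl, rfl⟩
  have a : Cographs ⊆ P (dens (WG S) fun _ => 1) := fun H hH =>
    Set.mem_iInter₂.2 fun ψ hψ => pos h1 h2 hψ hH
  have b : P (dens (WG S) fun _ => 1) ⊆ Q (dens (WG S) fun _ => 1) := fun H hH =>
    Set.mem_iInter₂.1 hH _ self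
  exact ⟨⟨_, rfl⟩, (b.trans (Q_sub S)).antisymm a, (Q_sub S).antisymm (a.trans b)⟩

end Pool.Agent.H31.Cog
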