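import Pool.Agent.H31.Cog3

namespace Pool.Agent.H31.Cog

open Finset MeasureTheory unitInterval

theorem upper {s : ℕ → ℕ} (hs : StrictMono s) (m n : ℕ) :
    dens (WG fun l => l ∈ Set.range s) (fun _ => 1) n ⊤ ≤
      (2 ^ s m) ^ 2 ^ m * ((2 ^ m) * (2 / 2 ^ s m)) ^ n := by
  classical
  rw [dens_one]
  set g : ((Fin m → Fin 2) → Fin (2 ^ s m)) × (Fin n → Fin m → Fin 2) → Fin n → I → ℝ :=
    fun q i => ind (s m) {(q.1 (q.2 i) : ℕ)} with hg
  have gi := fun q => prod_int (g := g q) (fun _ => ind_meas _ _) fun _ => ind_mem _ _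
  have pt : ∀ x : Fin n → I, wt (WG fun l => l ∈ Set.range s) ⊤ x ≤ ∑ q, ∏ i, g q i (x i) := by
    intro x
    have nn : ∀ q ∈ univ, 0 ≤ ∏ i, g q i (x i) := fun q _ =>
      prod_nonneg fun _ _ => (ind_mem _ _ _).1
    by_cases h : wt (WG fun l => l ∈ Set.range s) ⊤ x = 0
    · rw [h]; exact sum_nonneg nn
    have h := wg_ne.1 h
    set sg : Fin n → Fin m → Fin 2 := fun i k => ⟨c (s k + 1) (x i) % 2, by omega⟩ with hsg
    have inj : ∀ i j, sg i = sg j → c (s m) (x i) = c (s m) (x j) := by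
      intro i j e
      by_cases n : i = j
      · rw [n]
      obtain ⟨_, ⟨k, rfl⟩, a, b⟩ := (h i j n).1 n
      by_cases t : k < m
      · have := congrArg Fin.val (congrFun e ⟨k, t⟩)
        have h1 := hc (s k) (x i)
        have h2 := hc (s k) (x j)
        simp only [hsg] at this
        omega
      · exact down hc (hs.monotone (not_lt.1 t)) a
    refine (wt_mem _ _).2.trans (le_trans (le_of_eq (prod_eq_one fun i _ => ?_).symm)
      (single_le_sum nn (mem_univ (fun τ => if t : ∃ i, sg i = τ then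
        ⟨c (s m) (x t.choose), c_lt _ _⟩ else ⟨0, by positivity⟩, sg))))
    have t : ∃ j, sg j = sg i := ⟨i, rfl⟩
    simp only [hg, ind, dif_pos t, mem_singleton]
    exact if_pos (inj _ _ t.choose_spec.symm)
  refine (integral_mono (intb (wt_meas _) (wt_mem _))
    (integrable_finsetSum _ fun q _ => gi q) pt).trans ?_
  rw [integral_finsetSum _ fun q _ => gi q]
  refine (sum_le_card_nsmul _ _ ((2 / 2 ^ s m) ^ n) fun q _ => ?_).trans (le_of_eq ?_)
  · rw [integral_fintype_prod_volume_eq_prod]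
    refine (prod_le_prod (g := fun _ => (2 / 2 ^ s m : ℝ))
      (fun i _ => integral_nonneg fun x => (ind_mem _ _ _).1) fun i _ => ?_).trans (by simp [div_pow])
    simpa using ind_le (s m) {(q.1 (q.2 i) : ℕ)}
  · simp [mul_pow, mul_assoc]

def PP (S : ℕ → Prop) (m L : ℕ) : Prop :=
  ∃ T : Finset ℕ, T.card = 2 ^ m ∧ (∀ k ∈ T, 2 * k + 2 ≤ 2 ^ L) ∧
    ∀ x y, c L x ∈ T → c L y ∈ T → c L x ≠ c L y → R c S x y

theorem PP.lift {S : ℕ → Prop} {m L L' : ℕ} (h : PP S m L) (l : L ≤ L') : PP S m L' := by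
  induction l with
  | refl => exact h
  | @step L' _ ih =>
    obtain ⟨T, a, b, d⟩ := ih
    refine ⟨T.image (2 * ·), by rw [card_image_of_injective _ (mul_right_injective₀ two_ne_zero), a],
      fun k hk => ?_, fun x y hx hy n => ?_⟩
    · obtain ⟨k, h, rfl⟩ := mem_image.1 hk
      have := b k h
      rw [pow_succ]; omega
    · obtain ⟨k, h, e⟩ := mem_image.1 hx
      obtain ⟨k', h', e'⟩ := mem_image.1 hy
      have h1 := hc L' x
      have h2 := hc L' y
      simp only [Nat.succ_eq_add_one] at e e' n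
      exact d x y (by rwa [show c L' x = k by omega]) (by rwa [show c L' y = k' by omega])
        (by omega)

theorem PP.dbl {S : ℕ → Prop} {m L : ℕ} (h : PP S m L) (hS : S L) : PP S (m + 1) (L + 1) := by
  obtain ⟨T, a, b, d⟩ := h
  have mem : ∀ k, k ∈ T.image (2 * ·) ∪ T.image (2 * · + 1) → k / 2 ∈ T := fun k hk => by
    rcases mem_union.1 hk with h | h <;> obtain ⟨j, h, rfl⟩ := mem_image.1 h
    · rwa [show 2 * j / 2 = j by omega]
    · rwa [show (2 * j + 1) / 2 = j by omega]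
  refine ⟨T.image (2 * ·) ∪ T.image (2 * · + 1), ?_, fun k hk => ?_, fun x y hx hy n => ?_⟩
  · rw [card_union_of_disjoint, card_image_of_injective _ (mul_right_injective₀ two_ne_zero),
      card_image_of_injective _ (fun u v (e : 2 * u + 1 = 2 * v + 1) => by omega), a, pow_succ, mul_two]
    refine disjoint_left.2 fun k h h' => ?_
    obtain ⟨j, -, rfl⟩ := mem_image.1 h
    obtain ⟨j', -, e⟩ := mem_image.1 h'
    omega
  · have := b _ (mem k hk)
    rw [pow_succ]; omega
  · by_cases e : c L x = c L y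
    · exact ⟨L, hS, e, n⟩
    · exact d x y (hc L x ▸ mem _ hx) (hc L y ▸ mem _ hy) e

theorem pp {s : ℕ → ℕ} (hs : StrictMono s) (h0 : 1 ≤ s 0) (m : ℕ) :
    PP (fun l => l ∈ Set.range s) (m + 1) (s m + 1) := by
  induction m with
  | zero =>
    refine (PP.lift (L := 1) ⟨{0}, rfl, by simp, fun x y a b n => ?_⟩ h0).dbl ⟨0, rfl⟩
    exact absurd ((mem_singleton.1 a).trans (mem_singleton.1 b).symm) n
  | succ m ih => exact (ih.lift (hs (Nat.lt_succ_self m))).dbl ⟨_, rfl⟩

theorem lower {s : ℕ → ℕ} (hs : StrictMono s) (h0 : 1 ≤ s 0) (m : ℕ) :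
    (1 / 2 ^ s m : ℝ) ^ 2 ^ (m + 1) ≤
      dens (WG fun l => l ∈ Set.range s) (fun _ => 1) (2 ^ (m + 1)) ⊤ := by
  obtain ⟨T, a, b, d⟩ := pp hs h0 m
  rw [dens_one]
  set k := T.orderEmbOfFin a
  have km : ∀ i, k i ∈ T := fun i => T.orderEmbOfFin_mem a i
  calc _ = ∏ _i : Fin (2 ^ (m + 1)), (2 / 2 ^ (s m + 1) : ℝ) := by
        rw [prod_const, card_univ, Fintype.card_fin]; congr 1; rw [pow_succ]; field_simp
    _ ≤ ∏ i, ∫ x, ind (s m + 1) {k i} x :=
        prod_le_prod (fun _ _ => by positivity) fun i _ => ind_ge (b _ (km i))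
    _ ≤ _ := by
      rw [← integral_fintype_prod_volume_eq_prod]
      refine integral_mono (prod_int (fun _ => ind_meas _ _) fun _ => ind_mem _ _)
        (intb (wt_meas _) (wt_mem _)) fun x => ?_
      by_cases h : ∏ i, ind (s m + 1) {k i} (x i) = 0
      · exact h.le.trans (wt_mem _ _).1
      have e : ∀ i, c (s m + 1) (x i) = k i := fun i => by
        simpa [ind] using prod_ne_zero_iff.1 h i (mem_univ _)
      rw [wg_one fun i j n => ⟨fun _ => d _ _ (e i ▸ km i) (e j ▸ km j)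
        (by rw [e, e]; exact k.injective.ne n), fun _ => n⟩]
      exact prod_le_one (fun _ _ => (ind_mem _ _ _).1) fun _ _ => (ind_mem _ _ _).2

def sq (i m : ℕ) : ℕ := 4 ^ (2 * m + if m.unpair.1 = i then 1 else 0)

theorem sq_mono (i : ℕ) : StrictMono (sq i) := strictMono_nat_of_lt_succ fun m =>
  Nat.pow_lt_pow_right (by norm_num) (by split_ifs <;> omega)

theorem not_sub {i j : ℕ} (h : i ≠ j) :
    ¬ Sub (dens (WG fun l => l ∈ Set.range (sq i)) fun _ => 1)
      (dens (WG fun l => l ∈ Set.range (sq j)) fun _ => 1) := by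
  intro hs
  obtain ⟨a, ha, le⟩ := sub_le hs
  obtain ⟨M, hM⟩ := pow_unbounded_of_one_lt (1 / a ^ 2) (one_lt_two (α := ℝ))
  have hm : M ≤ j.pair M := Nat.right_le_pair _ _
  have e1 : sq i (j.pair M) = 16 ^ j.pair M := by simp [sq, h.symm, pow_mul]
  have e2 : sq j (j.pair M) = 16 ^ j.pair M * 4 := by simp [sq, pow_succ, pow_mul]
  have l1 := lower (sq_mono i) (Nat.one_le_pow _ _ (by norm_num)) (j.pair M)
  have l2 := upper (sq_mono j) (j.pair M) (2 ^ (j.pair M + 1))
  have l := ((mul_le_mul_of_nonneg_right l1 (pow_pos ha _).le).trans (le _ _)).trans l2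
  rw [e1, e2] at l
  generalize j.pair M = m at hm l
  have hu : 3 * m + 2 ≤ 2 * 16 ^ m := by
    clear hm l
    induction m with
    | zero => simp
    | succ m ih => rw [pow_succ]; omega
  generalize 16 ^ m = u at hu l
  rw [← mul_pow, pow_succ' 2 m, pow_mul, pow_mul _ 2, ← mul_pow] at l
  have l := (pow_le_pow_iff_left₀ (by positivity) (by positivity) (by positivity)).1 l
  have t : (2 : ℝ) ^ M * (2 ^ m * 2) ^ 2 ≤ (2 ^ u) ^ 2 := by
    rw [← pow_succ, ← pow_mul, ← pow_mul, ← pow_add]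
    exact pow_le_pow_right₀ one_le_two (by omega)
  rw [pow_mul] at l
  rw [div_lt_iff₀ (by positivity)] at hM
  have pu : (0 : ℝ) < 2 ^ u := by positivity
  have pm : (0 : ℝ) < 2 ^ m * 2 := by positivity
  generalize (2 : ℝ) ^ u = U at l t pu
  have l' : a ^ 2 * U ^ 2 ≤ (2 ^ m * 2) ^ 2 := by
    field_simp at l
    nlinarith
  nlinarith [mul_pos pm pm, mul_le_mul_of_nonneg_left t (sq_nonneg a)]

end Pool.Agent.H31.Cog
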