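import Mathlib

set_option autoImplicit false
open Classical Finset

namespace Pool.Agent.H31.Count

theorem fib_eq {α β Λ : Type} [Fintype α] [Fintype β] [Fintype Λ] (γ : α → β)
    (hγ : Function.Injective γ) (y y' : α → Λ) :
    (univ.filter (fun x : β → Λ => x ∘ γ = y)).card =
      (univ.filter (fun x : β → Λ => x ∘ γ = y')).card := by
  have key : ∀ (z z' : α → Λ) (x : β → Λ), x ∘ γ = z →
      Function.extend γ z (Function.extend γ z' x) = x := by
    intro z z' x hx
    funext b
    by_cases h : ∃ a, γ a = b
    · obtain ⟨a, rfl⟩ := h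
      rw [hγ.extend_apply, ← hx]; rfl
    · rw [Function.extend_apply' _ _ _ h, Function.extend_apply' _ _ _ h]
  refine Finset.card_nbij' (fun x => Function.extend γ y' x) (fun x => Function.extend γ y x)
    ?_ ?_ ?_ ?_
  · intro x _
    simp only [coe_filter, mem_univ, true_and, Set.mem_ofPred_eq]
    exact Function.extend_comp hγ _ _
  · intro x _
    simp only [coe_filter, mem_univ, true_and, Set.mem_ofPred_eq]
    exact Function.extend_comp hγ _ _
  · intro x hx
    simp only [coe_filter, mem_univ, true_and, Set.mem_ofPred_eq] at hx
    exact key _ _ _ hx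
  · intro x hx
    simp only [coe_filter, mem_univ, true_and, Set.mem_ofPred_eq] at hx
    exact key _ _ _ hx

/-- the restriction of a uniform function to an injective family of places is uniform -/
theorem card_restrict {α β Λ : Type} [Fintype α] [Fintype β] [Fintype Λ] (γ : α → β)
    (hγ : Function.Injective γ) (P : (α → Λ) → Prop) :
    (univ.filter (fun x : β → Λ => P (x ∘ γ))).card * Fintype.card Λ ^ Fintype.card α =
      (univ.filter P).card * Fintype.card Λ ^ Fintype.card β := by
  rcases isEmpty_or_nonempty (α → Λ) with hE | ⟨⟨y0⟩⟩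
  · have h1 : (univ.filter P) = ∅ := by simp [Finset.univ_eq_empty]
    have h2 : (univ.filter (fun x : β → Λ => P (x ∘ γ))) = ∅ := by
      ext x; exact (hE.false (x ∘ γ)).elim
    simp [h1, h2]
  set c := (univ.filter (fun x : β → Λ => x ∘ γ = y0)).card with hc
  have gen : ∀ Q : (α → Λ) → Prop,
      (univ.filter (fun x : β → Λ => Q (x ∘ γ))).card = (univ.filter Q).card * c := by
    intro Q
    rw [Finset.card_eq_sum_card_fiberwise (f := fun x : β → Λ => x ∘ γ) (t := univ.filter Q)]
    · rw [← smul_eq_mul, ← Finset.sum_const]
      refine Finset.sum_congr rfl fun y hy => ?_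
      rw [hc, ← fib_eq γ hγ y y0]
      congr 1
      ext x
      simp only [mem_filter, mem_univ, true_and, and_iff_right_iff_imp]
      rintro rfl
      simpa using hy
    · intro x hx
      simpa using hx
  have h1 := gen (fun _ => True)
  simp only [filter_true, card_univ, Fintype.card_fun] at h1
  rw [gen P, h1]; ring

end Pool.Agent.H31.Count
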