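import Mathlib

set_option autoImplicit false
open Finset

namespace Pool.Agent.H31.Cups

theorem hall {d k : ℕ} (hk : 0 < k) (L : Fin d → ℕ → ℕ) (hm : ∀ i, Monotone (L i))
    (h0 : ∀ i, L i 0 = 0) (hs : ∀ t, ∑ i, L i (t + 1) ≤ ∑ i, L i t + k) :
    ∃ f : Fin d × ℕ → ℕ, (∀ p : Fin d × ℕ, 1 ≤ p.2 → (∃ t, (p.2 + 1) * k ≤ L p.1 t) →
      p.2 * k ≤ L p.1 (f p) ∧ L p.1 (f p) < (p.2 + 1) * k ∧
      ∀ q : Fin d × ℕ, 1 ≤ q.2 → (∃ t, (q.2 + 1) * k ≤ L q.1 t) → f p = f q → p = q) := by
  classical
  let J := {p : Fin d × ℕ // 1 ≤ p.2 ∧ ∃ t, (p.2 + 1) * k ≤ L p.1 t}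
  let W : J → Finset ℕ := fun p => (range p.2.2.choose).filter fun t =>
    p.1.2 * k ≤ L p.1.1 t ∧ L p.1.1 t < (p.1.2 + 1) * k
  have hW : ∀ p t, t ∈ W p ↔ p.1.2 * k ≤ L p.1.1 t ∧ L p.1.1 t < (p.1.2 + 1) * k := by
    intro p t
    simp only [W, mem_filter, mem_range, and_iff_right_iff_imp]
    intro h
    by_contra hc
    have := hm p.1.1 (not_lt.mp hc)
    have := p.2.2.choose_spec
    omega
  have hs2 : ∀ a t, ∑ i, L i (a + t) ≤ ∑ i, L i a + t * k := by
    intro a t
    induction t with
    | zero => simp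
    | succ t ih => have := hs (a + t); rw [← add_assoc, add_mul]; omega
  have h1 : ∀ i t, L i (t + 1) ≤ L i t + k := by
    intro i t
    have e1 := add_sum_erase univ (fun i => L i (t + 1)) (mem_univ i)
    have e2 := add_sum_erase univ (fun i => L i t) (mem_univ i)
    have e3 : ∑ j ∈ univ.erase i, L j t ≤ ∑ j ∈ univ.erase i, L j (t + 1) :=
      sum_le_sum fun j _ => hm j (Nat.le_succ t)
    have := hs t
    omega
  have hne : ∀ p : J, ∃ t, t ∈ W p := by
    intro p
    have hex : ∃ t, p.1.2 * k ≤ L p.1.1 t := by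
      obtain ⟨t, ht⟩ := p.2.2
      exact ⟨t, le_trans (by rw [add_mul]; omega) ht⟩
    refine ⟨Nat.find hex, (hW _ _).mpr ⟨Nat.find_spec hex, ?_⟩⟩
    rcases h : Nat.find hex with _ | u
    · rw [h0]; positivity
    · have := Nat.find_min hex (show u < Nat.find hex by omega)
      have := h1 p.1.1 u
      rw [add_mul]; omega
  have cnt : ∀ (a b : ℕ) (s : Finset J), s.Nonempty →
      (∀ p ∈ s, L p.1.1 a < p.1.2 * k ∧ (p.1.2 + 1) * k ≤ L p.1.1 (a + b)) → s.card < b := by
    intro a b s hsn h
    have e1 : s.card = ∑ i, (s.filter fun p => p.1.1 = i).card :=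
      card_eq_sum_card_fiberwise fun _ _ => mem_univ _
    have e2 : ∀ i, (s.filter fun p => p.1.1 = i).card ≤ L i (a + b) / k - (L i a / k + 1) := by
      intro i
      rw [← Nat.card_Ico]
      refine card_le_card_of_injOn (fun p => p.1.2) (fun p hp => ?_) fun p hp q hq e => ?_
      · obtain ⟨h2, rfl⟩ := mem_filter.mp hp
        simp only [coe_Ico, Set.mem_Ico]
        exact ⟨(Nat.div_lt_iff_lt_mul hk).mpr (h p h2).1, (Nat.le_div_iff_mul_le hk).mpr (h p h2).2⟩
      · exact Subtype.ext (Prod.ext ((mem_filter.mp hp).2.trans (mem_filter.mp hq).2.symm) e)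
    have e3 : ∀ i, (s.filter fun p => p.1.1 = i).card ≠ 0 →
        (s.filter fun p => p.1.1 = i).card * k + L i a < L i (a + b) := by
      intro i hi
      have h2 := e2 i
      have h3 := Nat.div_mul_le_self (L i (a + b)) k
      have h4 := Nat.lt_div_mul_add (a := L i a) hk
      have h5 : ((s.filter fun p => p.1.1 = i).card + L i a / k + 1) * k ≤ L i (a + b) / k * k :=
        Nat.mul_le_mul_right _ (by omega)
      rw [add_mul, add_mul] at h5
      omega
    have e4 : ∑ i, ((s.filter fun p => p.1.1 = i).card * k + L i a) < ∑ i, L i (a + b) := by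
      obtain ⟨p, hp⟩ := hsn
      refine sum_lt_sum (fun i _ => ?_) ⟨p.1.1, mem_univ _, e3 _ (card_ne_zero.mpr
        ⟨p, mem_filter.mpr ⟨hp, rfl⟩⟩)⟩
      by_cases h2 : (s.filter fun p => p.1.1 = i).card = 0
      · rw [h2]; simpa using hm i (Nat.le_add_right a b)
      · exact (e3 i h2).le
    rw [sum_add_distrib, ← sum_mul, ← e1] at e4
    have := hs2 a b
    exact lt_of_mul_lt_mul_right (show s.card * k < b * k by omega) (Nat.zero_le _)
  have H : ∀ s : Finset J, s.card ≤ (s.biUnion W).card := by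
    intro s
    induction s using Finset.strongInduction with
    | H s ih =>
    rcases s.eq_empty_or_nonempty with rfl | ⟨p0, hp0⟩
    · simp
    have hU : (s.biUnion W).Nonempty := by
      obtain ⟨t, ht⟩ := hne p0
      exact ⟨t, mem_biUnion.mpr ⟨p0, hp0, ht⟩⟩
    set a := (s.biUnion W).min' hU with ha
    obtain ⟨p1, hp1, ha1⟩ := mem_biUnion.mp (min'_mem _ hU)
    have ha0 : a ≠ 0 := by
      intro e
      have h2 := ((hW _ _).mp ha1).1
      rw [← ha, e, h0] at h2
      have := Nat.mul_pos p1.2.1 hk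
      omega
    have hex : ∃ b, a + b ∉ s.biUnion W :=
      ⟨(s.biUnion W).max' hU + 1, fun e => by have := le_max' _ _ e; omega⟩
    set b := Nat.find hex with hb
    have hb1 : a + b ∉ s.biUnion W := Nat.find_spec hex
    let s1 := s.filter fun p => (p.1.2 + 1) * k ≤ L p.1.1 (a + b)
    have hp11 : p1 ∈ s1 := by
      refine mem_filter.mpr ⟨hp1, ?_⟩
      by_contra hc
      exact hb1 (mem_biUnion.mpr ⟨p1, hp1, (hW _ _).mpr ⟨((hW _ _).mp ha1).1.trans
        (hm _ (Nat.le_add_right _ _)), by omega⟩⟩)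
    have c1 : s1.card < b + 1 := by
      refine cnt (a - 1) (b + 1) s1 ⟨p1, hp11⟩ fun p hp => ⟨?_, ?_⟩
      · by_contra hc
        obtain ⟨t, ht⟩ := hne p
        have h2 : a ≤ t := min'_le _ _ (mem_biUnion.mpr ⟨p, (mem_filter.mp hp).1, ht⟩)
        have h3 : a ≤ a - 1 := min'_le _ _ (mem_biUnion.mpr ⟨p, (mem_filter.mp hp).1,
          (hW _ _).mpr ⟨by omega, lt_of_le_of_lt (hm _ (by omega)) ((hW _ _).mp ht).2⟩⟩)
        omega
      · rw [show a - 1 + (b + 1) = a + b by omega]; exact (mem_filter.mp hp).2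
    have c2 := ih (s \ s1) (sdiff_ssubset (filter_subset _ _) ⟨p1, hp11⟩)
    have c3 : Ico a (a + b) ∪ (s \ s1).biUnion W ⊆ s.biUnion W := by
      refine union_subset (fun t ht => ?_) (biUnion_subset_biUnion_of_subset_left _ sdiff_subset)
      rw [mem_Ico] at ht
      have := Nat.find_min hex (show t - a < Nat.find hex by omega)
      rwa [not_not, show a + (t - a) = t by omega] at this
    have c4 : Disjoint (Ico a (a + b)) ((s \ s1).biUnion W) := by
      rw [disjoint_left]
      intro t ht ht'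
      obtain ⟨p, hp, h2⟩ := mem_biUnion.mp ht'
      rw [mem_sdiff, mem_filter] at hp
      rw [mem_Ico] at ht
      refine hb1 (mem_biUnion.mpr ⟨p, hp.1, (hW _ _).mpr ⟨((hW _ _).mp h2).1.trans
        (hm _ ht.2.le), ?_⟩⟩)
      by_contra hc
      exact hp.2 ⟨hp.1, by omega⟩
    have c5 := card_le_card c3
    rw [card_union_of_disjoint c4, Nat.card_Ico] at c5
    have c6 : (s \ s1).card + s1.card = s.card := card_sdiff_add_card_eq_card (filter_subset _ s)
    omega
  obtain ⟨g, g1, g2⟩ := (all_card_le_biUnion_card_iff_exists_injective W).mp H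
  refine ⟨fun p => if h : 1 ≤ p.2 ∧ ∃ t, (p.2 + 1) * k ≤ L p.1 t then g ⟨p, h⟩ else 0,
    fun p a b => ?_⟩
  simp only [dif_pos (And.intro a b)]
  refine ⟨((hW ⟨p, a, b⟩ _).mp (g2 _)).1, ((hW ⟨p, a, b⟩ _).mp (g2 _)).2, fun q c e h => ?_⟩
  rw [dif_pos (And.intro c e)] at h
  exact congrArg Subtype.val (g1 h)

theorem evade {d n k : ℕ} (hn : 3 * k ≤ n) (hn0 : 0 < n) (c : ℕ → Fin k → Fin d → Fin n)
    (hc : ∀ t j, hammingDist (c t j) (c (t + 1) j) ≤ 1) :
    ∃ r : ℕ → Fin d → Fin n, (∀ t, hammingDist (r t) (r (t + 1)) ≤ 1) ∧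
      ∀ t j i, c t j i ≠ r t i ∧ c (t + 1) j i ≠ r t i := by
  classical
  rcases Nat.eq_zero_or_pos k with rfl | hk
  · exact ⟨fun _ _ => ⟨0, hn0⟩, by simp, fun _ j => j.elim0⟩
  let L : Fin d → ℕ → ℕ := fun i t => ∑ s ∈ range t,
    (univ.filter fun j => c s j i ≠ c (s + 1) j i).card
  have hL : ∀ i t, L i (t + 1) = L i t + (univ.filter fun j => c t j i ≠ c (t + 1) j i).card :=
    fun i t => sum_range_succ _ _
  have hm : ∀ i, Monotone (L i) := fun i => monotone_nat_of_le_succ fun t => by rw [hL]; omega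
  obtain ⟨f, hf⟩ := hall hk L hm (fun i => rfl) (fun t => by
    simp only [hL, sum_add_distrib, add_le_add_iff_left, card_filter]
    rw [sum_comm]
    refine le_trans (sum_le_sum (g := fun _ => 1) fun j _ => ?_) (by simp)
    have := hc t j
    rwa [hammingDist, card_filter] at this)
  have hv : ∀ i e, ∃ v : Fin n, ∀ s, e ≤ s → L i s + 1 ≤ L i e + 2 * k → ∀ j, c s j i ≠ v := by
    intro i e
    by_contra h
    push Not at h
    choose σ h1 h2 h3 using h
    have grow : ∀ u, ((range (u + 1)).biUnion fun s => univ.image fun j => c (e + s) j i).card +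
        L i e ≤ k + L i (e + u) := by
      intro u
      induction u with
      | zero => simpa using card_image_le.trans (by simp)
      | succ u ih =>
        have : ((range (u + 1 + 1)).biUnion fun s => univ.image fun j => c (e + s) j i) ⊆
            ((range (u + 1)).biUnion fun s => univ.image fun j => c (e + s) j i) ∪
            (univ.filter fun j => c (e + u) j i ≠ c (e + u + 1) j i).image
              fun j => c (e + u + 1) j i := by
          intro v hv
          simp only [mem_biUnion, mem_range, mem_image, mem_univ, true_and, mem_union,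
            mem_filter] at hv ⊢
          obtain ⟨s, hs, j, rfl⟩ := hv
          by_cases h4 : s < u + 1
          · exact Or.inl ⟨s, h4, j, rfl⟩
          · obtain rfl : s = u + 1 := by omega
            by_cases h5 : c (e + u) j i = c (e + u + 1) j i
            · exact Or.inl ⟨u, by omega, j, h5⟩
            · exact Or.inr ⟨j, h5, rfl⟩
        have h4 := (card_le_card this).trans ((card_union_le _ _).trans
          (Nat.add_le_add_left card_image_le _))
        rw [← add_assoc, hL]; omega
    obtain ⟨v, _, hv⟩ := exists_max_image univ σ ⟨⟨0, hn0⟩, mem_univ _⟩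
    have h4 := grow (σ v - e)
    have h5 : (univ : Finset (Fin n)) ⊆ (range (σ v - e + 1)).biUnion
        fun s => univ.image fun j => c (e + s) j i := by
      intro w _
      obtain ⟨j, hj⟩ := h3 w
      have := hv w (mem_univ _)
      have := h1 w
      exact mem_biUnion.mpr ⟨σ w - e, mem_range.mpr (by omega), mem_image.mpr ⟨j, mem_univ _, by
        rw [show e + (σ w - e) = σ w by omega, hj]⟩⟩
    have h6 := card_le_card h5
    have := h1 v
    have := h2 v
    rw [show e + (σ v - e) = σ v by omega] at h4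
    simp only [card_univ, Fintype.card_fin] at h6
    omega
  choose v hv using hv
  let E : Fin d → ℕ → Prop := fun i s => ∃ m, 1 ≤ m ∧ (∃ t, (m + 1) * k ≤ L i t) ∧ f (i, m) = s
  refine ⟨fun t i => v i (Nat.findGreatest (E i) t), fun t => ?_, fun t j i => ?_⟩
  · refine card_le_one.mpr fun a ha b hb => ?_
    have key : ∀ a, v a (Nat.findGreatest (E a) t) ≠ v a (Nat.findGreatest (E a) (t + 1)) →
        E a (t + 1) := fun a h => by
      by_contra hc'; exact h (by rw [Nat.findGreatest_of_not hc'])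
    obtain ⟨m, a1, a2, a3⟩ := key a (mem_filter.mp ha).2
    obtain ⟨m', b1, b2, b3⟩ := key b (mem_filter.mp hb).2
    exact congrArg Prod.fst ((hf (a, m) a1 a2).2.2 (b, m') b1 b2 (a3.trans b3.symm))
  · have h1 := Nat.findGreatest_le (P := E i) t
    have h2 : L i (t + 1) + 1 ≤ L i (Nat.findGreatest (E i) t) + 2 * k := by
      have h3 := Nat.div_mul_le_self (L i (t + 1)) k
      have h4 := Nat.lt_div_mul_add (a := L i (t + 1)) hk
      rcases h : L i (t + 1) / k with _ | _ | m
      · rw [h] at h4; omega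
      · rw [h] at h4; omega
      · rw [h] at h3 h4
        obtain ⟨g1, g2, _⟩ := hf (i, m + 1) (by simp) ⟨t + 1, h3⟩
        simp only at g1 g2
        have g3 : f (i, m + 1) ≤ t := by
          by_contra hc'
          have := hm i (show t + 1 ≤ f (i, m + 1) by omega)
          omega
        have := hm i (Nat.le_findGreatest (P := E i) g3 ⟨m + 1, by simp, ⟨t + 1, h3⟩, rfl⟩)
        rw [add_mul (m + 1)] at h4
        omega
    have := hm i (Nat.le_succ t)
    exact ⟨hv i _ t h1 (by simp only [Nat.succ_eq_add_one] at this; omega) j,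
      hv i _ (t + 1) (by omega) h2 j⟩

end Pool.Agent.H31.Cups
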