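import Mathlib

namespace Pool.Agent.H31.DH

open SimpleGraph

variable {V : Type}

/-- Distance-hereditary graphs. -/
def IsDH (G : SimpleGraph V) : Prop :=
  ∀ S : Set V, (G.induce S).Connected → ∀ u v : S, (G.induce S).edist u v = G.edist u v

def Ind (G : SimpleGraph V) (f : ℕ → V) (n : ℕ) : Prop :=
  ∀ i ≤ n, ∀ j ≤ n, (f i = f j → i = j) ∧ (G.Adj (f i) (f j) ↔ i + 1 = j ∨ j + 1 = i)

def IP (G : SimpleGraph V) : Prop := ∀ f n, Ind G f n → (n : ℕ∞) ≤ G.edist (f 0) (f n)

variable {G : SimpleGraph V}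

theorem dist_adj {r u v : V} (h : G.Adj u v) : G.dist r v ≤ G.dist r u + 1 ∨ ¬ G.Reachable r u := by
  by_cases hr : G.Reachable r u
  · exact .inl ((hr.dist_triangle_left v).trans (by rw [dist_eq_one_iff_adj.2 h]))
  · exact .inr hr

theorem pred {r v : V} {k : ℕ} (h : G.dist r v = k + 1) :
    ∃ u, G.Adj v u ∧ G.dist r u = k ∧ G.Reachable r u := by
  rw [dist_comm] at h
  obtain ⟨p, hp⟩ := exists_walk_of_dist_ne_zero (G := G) (u := v) (v := r) (by omega)
  cases p with
  | nil => simp at h
  | @cons _ u _ a q =>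
    have h1 := dist_le q.reverse
    have h2 := (dist_adj (r := r) a.symm).resolve_right (not_not.2 ⟨q.reverse⟩)
    rw [dist_comm (u := r) (v := v)] at h2
    simp only [Walk.length_cons, Walk.length_reverse] at hp h1
    exact ⟨u, a, by omega, ⟨q.reverse⟩⟩

def PP (G : SimpleGraph V) (r u : V) (n : ℕ) (S : V → Prop) : Prop :=
  ∃ f, Ind G f n ∧ f 0 = u ∧ f n = r ∧ ∀ i, 1 ≤ i → i ≤ n → S (f i)

theorem PP.cons {r u z : V} {n : ℕ} {S T : V → Prop} (h : PP G r u n S) (a : G.Adj z u)
    (hs : ∀ s, S s → ¬ G.Adj z s ∧ z ≠ s ∧ T s) (hu : T u) : PP G r z (n + 1) T := by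
  obtain ⟨f, hi, h0, hn, hS⟩ := h
  have key : ∀ j ≤ n, z ≠ f j ∧ (G.Adj z (f j) ↔ j = 0) := fun j hj => by
    rcases Nat.eq_zero_or_pos j with rfl | t
    · rw [h0]; exact ⟨a.ne, by simpa using a⟩
    · exact ⟨(hs _ (hS j t hj)).2.1, by simpa [t.ne'] using (hs _ (hS j t hj)).1⟩
  refine ⟨fun i => Nat.casesOn i z f, fun i hi' j hj => ?_, rfl, hn, fun i h1 h2 => ?_⟩
  · rcases i with _ | i <;> rcases j with _ | j
    · simp
    · have := key j (by omega)
      exact ⟨fun e => absurd e this.1, this.2.trans (by omega)⟩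
    · have := key i (by omega)
      exact ⟨fun e => absurd e.symm this.1, (G.adj_comm _ _).trans (this.2.trans (by omega))⟩
    · have := hi i (by omega) j (by omega)
      exact ⟨fun e => by rw [this.1 e], this.2.trans (by omega)⟩
  · obtain ⟨i, rfl⟩ : ∃ k, i = k + 1 := ⟨i - 1, by omega⟩
    rcases Nat.eq_zero_or_pos i with rfl | t
    · exact (h0 ▸ hu : T (f 0))
    · exact (hs _ (hS i t (by omega))).2.2

theorem PP.zero (r : V) (S : V → Prop) : PP G r r 0 S :=
  ⟨fun _ => r, fun i hi j hj => by simp; omega, rfl, rfl, fun i h1 h2 => by omega⟩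

theorem geod {r : V} (k : ℕ) : ∀ v, G.Reachable r v → G.dist r v = k →
    PP G r v k fun s => G.dist r s < k ∧ G.Reachable r s := by
  induction k with
  | zero => intro v hr h; rw [hr.dist_eq_zero_iff.1 h]; exact .zero _ _
  | succ k ih =>
    intro v hr h
    obtain ⟨u, a, hu, ru⟩ := pred h
    refine (ih u ru hu).cons a (fun s hs => ⟨fun b => ?_, fun e => ?_, by omega, hs.2⟩)
      ⟨by omega, ru⟩
    · have := (dist_adj (r := r) b.symm).resolve_right (not_not.2 hs.2)
      omega
    · subst e; omega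

theorem edist_induce (S : Set V) (u v : S) : G.edist u v ≤ (G.induce S).edist u v := by
  by_cases h : (G.induce S).Reachable u v
  · obtain ⟨p, hp⟩ := h.exists_walk_length_eq_edist
    have := edist_le (p.map (Embedding.induce S).toHom)
    rwa [Walk.length_map, hp] at this
  · simp [edist_eq_top_of_not_reachable h]

theorem dh_of_ip (h : IP G) : IsDH G := fun S hS u v => by
  refine le_antisymm ?_ (edist_induce S u v)
  obtain ⟨f, hi, h0, hn, -⟩ := geod (G := G.induce S) _ u (hS v u) rfl
  have := h (fun i => f i) _ fun i hi' j hj =>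
    ⟨fun e => (hi i hi' j hj).1 (Subtype.ext e), (hi i hi' j hj).2⟩
  simp only [h0, hn] at this
  rwa [(hS v u).coe_dist_eq_edist, edist_comm] at this

theorem ip_of_dh (h : IsDH G) : IP G := fun f n hi => by
  set S : Set V := f '' {i | i ≤ n}
  have c : ∀ i (hi' : i ≤ n), (G.induce S).Reachable ⟨f 0, 0, by simp, rfl⟩ ⟨f i, i, hi', rfl⟩ := by
    intro i hi'
    induction i with
    | zero => rfl
    | succ i ih =>
      exact (ih (by omega)).trans (Adj.reachable ((hi i (by omega) _ hi').2.2 (.inl rfl)))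
  have hS : (G.induce S).Connected := (connected_iff_exists_forall_reachable _).2
    ⟨_, by rintro ⟨_, i, hi', rfl⟩; exact c i hi'⟩
  rw [← h S hS ⟨f 0, 0, by simp, rfl⟩ ⟨f n, n, by simp, rfl⟩]
  have key : ∀ (a b : S) (p : (G.induce S).Walk a b), ∀ i ≤ n, a.1 = f i → b.1 = f n →
      n ≤ i + p.length := by
    intro a b p
    induction p with
    | nil => intro i hi' e e'; have := (hi i hi' n le_rfl).1 (e.symm.trans e'); omega
    | @cons a c _ ad q ih =>
      intro i hi' e e'
      obtain ⟨j, hj, ej⟩ := c.2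
      have := ih j hj ej.symm e'
      have ad : G.Adj a.1 c.1 := ad
      rw [e, ← ej, (hi i hi' j hj).2] at ad
      simp only [Walk.length_cons]; omega
  obtain ⟨p, hp⟩ := (c n le_rfl).exists_walk_length_eq_edist
  rw [← hp]
  exact_mod_cast (by simpa using key _ _ p 0 (by simp) rfl rfl : n ≤ p.length)

theorem IP.induce (h : IP G) (S : Set V) : IP (G.induce S) := fun f n hi =>
  (h (fun i => f i) n fun i hi' j hj =>
    ⟨fun e => (hi i hi' j hj).1 (Subtype.ext e), (hi i hi' j hj).2⟩).trans (edist_induce S _ _)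

def Lazy (G : SimpleGraph V) (g : ℕ → V) (m : ℕ) : Prop :=
  ∀ j < m, g j = g (j + 1) ∨ G.Adj (g j) (g (j + 1))

/-- `x` is a twin of `w`, or `w` is the only possible neighbour of `x`, inside `W`. -/
def Pr (G : SimpleGraph V) (W : Finset V) (x w : V) : Prop :=
  (∀ y ∈ W, y ≠ x → y ≠ w → (G.Adj x y ↔ G.Adj w y)) ∨ ∀ y ∈ W, G.Adj x y → y = w

theorem ip_of_prune (h : ∀ W : Finset V, 2 ≤ W.card → ∃ x ∈ W, ∃ w ∈ W, x ≠ w ∧ Pr G W x w) :
    IP G := by
  classical
  have main : ∀ (W : Finset V) (n m : ℕ) (f g : ℕ → V), (∀ i ≤ n, f i ∈ W) → (∀ j ≤ m, g j ∈ W) →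
      f 0 = g 0 → f n = g m → Ind G f n → Lazy G g m → n ≤ m := by
    intro W
    induction W using Finset.strongInduction with
    | H W ih =>
    intro n m f g hf hg e0 en hi hl
    rcases Nat.eq_zero_or_pos n with rfl | n0
    · omega
    have ne : f 0 ≠ f n := fun e => by have := (hi 0 (by omega) n le_rfl).1 e; omega
    have m0 : 0 < m := Nat.pos_of_ne_zero fun e => ne (by rw [e0, en, e])
    obtain ⟨x, hx, w, hw, xw, pr⟩ := h W (Finset.one_lt_card.2 ⟨_, hf 0 (by omega), _, hf n le_rfl, ne⟩)
    set ρ : V → V := fun y => if y = x then w else y with hρ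
    have ρm : ∀ y ∈ W, ρ y ∈ W.erase x := fun y hy => by
      by_cases t : y = x <;> simp [hρ, t, hw, hy, xw.symm]
    have ρl : Lazy G (fun j => ρ (g j)) m := fun j hj => by
      have one : ∀ y ∈ W, G.Adj x y → w = y ∨ G.Adj w y := fun y hy a => by
        by_cases t : y = w
        · exact .inl t.symm
        · exact pr.elim (fun p => .inr ((p y hy a.ne' t).1 a)) fun p => absurd (p y hy a) t
      rcases hl j hj with e | a
      · exact .inl (by simp only [e])
      by_cases t : g j = x
      · rw [t] at a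
        simpa [hρ, t, a.ne'] using one _ (hg _ hj) a
      by_cases t' : g (j + 1) = x
      · rw [t'] at a
        simpa [hρ, t, t'] using (one _ (hg _ hj.le) a.symm).imp Eq.symm Adj.symm
      · simp [hρ, t, t', a]
    have ih := ih _ (Finset.erase_ssubset hx)
    by_cases hxf : ∃ i ≤ n, f i = x
    swap
    · push Not at hxf
      exact ih n m f _ (fun i hi' => Finset.mem_erase.2 ⟨hxf i hi', hf i hi'⟩)
        (fun j hj => ρm _ (hg j hj)) (by simp [hρ, ← e0, hxf]) (by simp [hρ, ← en, hxf]) hi ρl
    obtain ⟨i, hin, ei⟩ := hxf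
    have nx : ∀ j ≤ n, j ≠ i → f j ≠ x := fun j hj t e => t ((hi j hj i hin).1 (e.trans ei.symm))
    rcases pr with p | p
    · by_cases hwf : ∃ k ≤ n, f k = w
      · obtain ⟨k, hk, ek⟩ := hwf
        have ik : i ≠ k := fun e => xw (by rw [← ei, ← ek, e])
        have q : ∀ j ≤ n, j ≠ i → j ≠ k → ((i + 1 = j ∨ j + 1 = i) ↔ (k + 1 = j ∨ j + 1 = k)) :=
          fun j hj t t' => by
            rw [← (hi i hin j hj).2, ← (hi k hk j hj).2, ei, ek]
            exact p _ (hf j hj) (nx j hj t) fun e => t' ((hi j hj k hk).1 (e.trans ek.symm))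
        have n2 : n ≤ 2 := by
          by_contra t
          have q1 := q (i + 1)
          have q2 := q (i - 1)
          have q3 := q (k + 1)
          have q4 := q (k - 1)
          omega
        by_contra t
        obtain rfl : n = 2 := by omega
        obtain rfl : m = 1 := by omega
        rcases hl 0 (by omega) with e | a
        · exact ne (by rw [e0, en, e])
        · rw [← e0, ← en, (hi 0 (by omega) 2 le_rfl).2] at a; omega
      push Not at hwf
      refine ih n m (fun j => ρ (f j)) _ (fun j hj => ρm _ (hf j hj)) (fun j hj => ρm _ (hg j hj))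
        (by simp only [e0]) (by simp only [en]) (fun a ha b hb => ?_) ρl
      have q : ∀ j ≤ n, j ≠ i → (G.Adj w (f j) ↔ G.Adj (f i) (f j)) := fun j hj t => by
        rw [ei, p _ (hf j hj) (nx j hj t) (hwf j hj)]
      by_cases t : a = i <;> by_cases t' : b = i
      · simp [t, t']
      · simp only [hρ, t, ei, if_true, if_neg (nx b hb t'), q b hb t']
        exact ⟨fun e => absurd e.symm (hwf b hb), ei ▸ (hi i hin b hb).2⟩
      · simp only [hρ, t', ei, if_true, if_neg (nx a ha t), G.adj_comm (f a), q a ha t]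
        exact ⟨fun e => absurd e (hwf a ha), ei ▸ (hi i hin a ha).2.trans or_comm⟩
      · simpa only [hρ, if_neg (nx a ha t), if_neg (nx b hb t')] using hi a ha b hb
    · have q : ∀ j ≤ n, i + 1 = j ∨ j + 1 = i → f j = w := fun j hj t =>
        p _ (hf j hj) (ei ▸ (hi i hin j hj).2.2 t)
      have one : ∀ y ∈ W, x = y ∨ G.Adj x y → ρ y = w := fun y hy t => by
        rcases t with rfl | a
        · simp [hρ]
        · simp [hρ, p y hy a]
      obtain ⟨n, rfl⟩ : ∃ k, n = k + 1 := ⟨n - 1, by omega⟩
      obtain ⟨m, rfl⟩ : ∃ k, m = k + 1 := ⟨m - 1, by omega⟩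
      rcases Nat.eq_zero_or_pos i with rfl | i0
      · refine Nat.succ_le_succ (ih n m (fun j => f (j + 1)) (fun j => ρ (g (j + 1)))
          (fun j hj => Finset.mem_erase.2 ⟨nx _ (by omega) (by omega), hf _ (by omega)⟩)
          (fun j hj => ρm _ (hg _ (by omega))) ?_ ?_ (fun a ha b hb => ?_) fun j hj => ρl _ (by omega))
        · rw [q 1 (by omega) (.inl rfl), one _ (hg 1 (by omega)) (by rw [← ei, e0]; exact hl 0 m0)]
        · simp [hρ, ← en, nx]
        · have := hi (a + 1) (by omega) (b + 1) (by omega)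
          exact ⟨fun e => by have := this.1 e; omega, this.2.trans (by omega)⟩
      · obtain rfl : i = n + 1 := by
          by_contra t
          have := (hi (i + 1) (by omega) (i - 1) (by omega)).1
            ((q _ (by omega) (.inl rfl)).trans (q _ (by omega) (.inr (by omega))).symm)
          omega
        refine Nat.succ_le_succ (ih n m f (fun j => ρ (g j))
          (fun j hj => Finset.mem_erase.2 ⟨nx _ (by omega) (by omega), hf _ (by omega)⟩)
          (fun j hj => ρm _ (hg _ (by omega))) ?_ ?_ (fun a ha b hb => hi a (by omega) b (by omega))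
          fun j hj => ρl _ (by omega))
        · simp [hρ, ← e0, nx]
        · rw [q n (by omega) (.inr rfl), one _ (hg m (by omega)) (by
            rw [← ei, en]; exact (hl m (by omega)).imp Eq.symm Adj.symm)]
  intro f n hi
  by_cases hr : G.Reachable (f 0) (f n)
  · obtain ⟨p, hp⟩ := hr.exists_walk_length_eq_edist
    rw [← hp]
    exact_mod_cast main ((Finset.range (n + 1)).image f ∪ (Finset.range (p.length + 1)).image p.getVert)
      n p.length f p.getVert
      (fun i h => Finset.mem_union_left _ (Finset.mem_image_of_mem _ (by simp; omega)))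
      (fun i h => Finset.mem_union_right _ (Finset.mem_image_of_mem _ (by simp; omega)))
      (by simp) (by simp) hi fun j hj => .inr (p.adj_getVert_succ hj)
  · simp [edist_eq_top_of_not_reachable hr]

end Pool.Agent.H31.DH
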