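import Pool.Agent.H31.DH1

namespace Pool.Agent.H31.DH

open SimpleGraph Finset

variable {V : Type} {G : SimpleGraph V}

theorem PP.le (h : IP G) {r u : V} {n : ℕ} {S : V → Prop} (p : PP G r u n S) :
    (n : ℕ∞) ≤ G.edist u r := by
  obtain ⟨f, hi, rfl, rfl, -⟩ := p
  exact h f n hi

theorem two {a b z : V} (h1 : G.Adj a z) (h2 : G.Adj b z) : G.edist a b ≤ 2 :=
  edist_le (Walk.cons h1 (Walk.cons h2.symm Walk.nil))

theorem ip3 (h : IP G) {a b c d z : V} (ab : G.Adj a b) (bc : G.Adj b c) (cd : G.Adj c d)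
    (ac : ¬ G.Adj a c) (bd : ¬ G.Adj b d) (ad : ¬ G.Adj a d) (h1 : G.Adj a z) (h2 : G.Adj d z) :
    False := by
  have p := (((PP.zero (G := G) d fun _ => False).cons (T := fun s => s = d) cd (by simp) rfl).cons
    (T := fun s => s = d ∨ s = c) bc (by
      rintro s rfl; exact ⟨bd, fun e => ad (e ▸ ab), .inl rfl⟩) (.inr rfl)).cons
    (T := fun _ => True) ab (by
      rintro s (rfl | rfl)
      · exact ⟨ad, fun e => ac (e ▸ cd.symm), trivial⟩
      · exact ⟨ac, fun e => ad (e ▸ cd), trivial⟩) trivial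
  exact absurd ((p.le h).trans (two h1 h2)) (by decide)

theorem ip4 (h : IP G) {a b c d e z : V} (ab : G.Adj a b) (bc : G.Adj b c) (cd : G.Adj c d)
    (de : G.Adj d e) (ac : ¬ G.Adj a c) (bd : ¬ G.Adj b d) (ad : ¬ G.Adj a d)
    (ce : ¬ G.Adj c e) (be : ¬ G.Adj b e) (ae : ¬ G.Adj a e) (h1 : G.Adj a z) (h2 : G.Adj e z) :
    False := by
  have p := ((((PP.zero (G := G) e fun _ => False).cons (T := fun s => s = e) de (by simp)
    rfl).cons (T := fun s => s = e ∨ s = d) cd (by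
      rintro s rfl; exact ⟨ce, fun t => be (t ▸ bc), .inl rfl⟩) (.inr rfl)).cons
    (T := fun s => (s = e ∨ s = d) ∨ s = c) bc (by
      rintro s (rfl | rfl)
      · exact ⟨be, fun t => ae (t ▸ ab), .inl (.inl rfl)⟩
      · exact ⟨bd, fun t => ad (t ▸ ab), .inl (.inr rfl)⟩) (.inr rfl)).cons
    (T := fun _ => True) ab (by
      rintro s ((rfl | rfl) | rfl)
      · exact ⟨ae, fun t => ad (t ▸ de.symm), trivial⟩
      · exact ⟨ad, fun t => ae (t ▸ de), trivial⟩
      · exact ⟨ac, fun t => ad (t ▸ cd), trivial⟩) trivial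
  exact absurd ((p.le h).trans (two h1 h2)) (by decide)

theorem split [DecidableEq V] (h : IP G) (z : V) (A : Finset V) : (∀ a ∈ A, G.Adj a z) →
    2 ≤ A.card → ∃ B ⊆ A, B.Nonempty ∧ (A \ B).Nonempty ∧ ∃ b : Prop,
      ∀ u ∈ B, ∀ v ∈ A \ B, (G.Adj u v ↔ b) := by
  classical
  induction A using Finset.induction with
  | empty => simp
  | insert v A hv ih =>
  intro hz hc
  rw [card_insert_of_notMem hv] at hc
  by_cases h1 : A.card = 1
  · obtain ⟨a, rfl⟩ := card_eq_one.1 h1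
    have n : a ≠ v := fun e => hv (by simp [e])
    refine ⟨{v}, by simp, by simp, ⟨a, by simp [n]⟩, G.Adj v a, fun u hu w hw => ?_⟩
    obtain rfl : u = v := by simpa using hu
    obtain rfl : w = a := by
      simp only [mem_sdiff, mem_insert, mem_singleton] at hw; tauto
    rfl
  obtain ⟨B, sB, nB, nC, b, hb⟩ := ih (fun a ha => hz a (mem_insert_of_mem ha)) (by omega)
  have vB : v ∉ B := fun t => hv (sB t)
  by_cases c1 : ∀ u ∈ B, G.Adj u v ↔ b
  · refine ⟨B, sB.trans (subset_insert _ _), nB, ⟨v, by simp [vB]⟩, b, fun u hu w hw => ?_⟩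
    rw [mem_sdiff, mem_insert] at hw
    exact hw.1.elim (fun e => e ▸ c1 u hu) fun t => hb u hu w (mem_sdiff.2 ⟨t, hw.2⟩)
  by_cases c2 : ∀ u ∈ A \ B, G.Adj u v ↔ b
  · refine ⟨A \ B, sdiff_subset.trans (subset_insert _ _), nC, ⟨v, by simp [hv]⟩, b,
      fun u hu w hw => ?_⟩
    rw [mem_sdiff, mem_insert] at hw
    refine hw.1.elim (fun e => e ▸ c2 u hu) fun t => ?_
    rw [G.adj_comm]
    exact hb w (by_contra fun n => hw.2 (mem_sdiff.2 ⟨t, n⟩)) u hu
  by_cases c3 : ∀ u ∈ A, G.Adj v u ↔ ¬ b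
  · obtain ⟨a, ha⟩ := nB
    refine ⟨{v}, by simp, by simp, ⟨a, by simp [sB ha, show a ≠ v from fun e => vB (e ▸ ha)]⟩,
      ¬ b, fun u hu w hw => ?_⟩
    obtain rfl : u = v := by simpa using hu
    exact c3 w (by simp only [mem_sdiff, mem_insert, mem_singleton] at hw; tauto)
  simp only [not_forall] at c1 c2 c3
  obtain ⟨y0, hy0, e0⟩ := c3
  refine ⟨A.filter fun u => G.Adj u v ↔ b, (filter_subset _ _).trans (subset_insert _ _),
    ⟨y0, mem_filter.2 ⟨hy0, by rw [G.adj_comm]; clear * - e0; tauto⟩⟩, ⟨v, by simp [hv]⟩, b,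
    fun y hy w hw => ?_⟩
  rw [mem_filter] at hy
  rw [mem_sdiff, mem_insert, mem_filter] at hw
  rcases hw.1 with rfl | hwA
  · exact hy.2
  have wv : ¬ (G.Adj w v ↔ b) := fun t => hw.2 ⟨hwA, t⟩
  by_contra yw
  obtain ⟨s, hs, sv, ys, ws⟩ : ∃ s ∈ A, ¬ (G.Adj s v ↔ b) ∧ (G.Adj y s ↔ b) ∧ (G.Adj w s ↔ b) := by
    by_cases yB : y ∈ B
    · obtain ⟨s, hs, t⟩ := c2
      have wB : w ∈ B := by_contra fun n => yw (hb y yB w (mem_sdiff.2 ⟨hwA, n⟩))
      exact ⟨s, (mem_sdiff.1 hs).1, t, hb y yB s hs, hb w wB s hs⟩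
    · obtain ⟨s, hs, t⟩ := c1
      have wB : w ∉ B := fun n => yw (G.adj_comm _ _ |>.trans (hb w n y (mem_sdiff.2 ⟨hy.1, yB⟩)))
      exact ⟨s, sB hs, t, G.adj_comm _ _ |>.trans (hb s hs y (mem_sdiff.2 ⟨hy.1, yB⟩)),
        G.adj_comm _ _ |>.trans (hb s hs w (mem_sdiff.2 ⟨hwA, wB⟩))⟩
  have yv := hy.2
  have z1 := fun a ha => hz a (mem_insert_of_mem ha)
  by_cases hb' : b <;> simp only [hb', iff_true, iff_false, not_not] at yw sv ys ws yv wv
  · exact ip3 h yv.symm ys ws.symm (fun t => sv t.symm) yw (fun t => wv t.symm)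
      (hz v (mem_insert_self _ _)) (z1 w hwA)
  · exact ip3 h yw wv sv.symm yv ws ys (z1 y hy.1) (z1 s hs)

theorem twins [DecidableEq V] (h : IP G) (z : V) (A : Finset V) : (∀ a ∈ A, G.Adj a z) →
    2 ≤ A.card → (∀ u ∈ A, ∀ v ∈ A, ∀ y ∉ A, (G.Adj u y ↔ G.Adj v y)) →
    ∃ x ∈ A, ∃ w ∈ A, x ≠ w ∧ ∀ y, y ≠ x → y ≠ w → (G.Adj x y ↔ G.Adj w y) := by
  induction A using Finset.strongInduction with
  | H A ih =>
  intro hz hc hm
  by_cases h2 : A.card = 2
  · obtain ⟨x, w, n, rfl⟩ := card_eq_two.1 h2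
    exact ⟨x, by simp, w, by simp, n, fun y a b => hm x (by simp) w (by simp) y (by simp [a, b])⟩
  obtain ⟨B, sB, nB, nC, b, hb⟩ := split h z A hz hc
  have := card_sdiff_add_card_eq_card sB
  by_cases t : 2 ≤ B.card
  · obtain ⟨x, hx, w, hw, r⟩ := ih B (Finset.ssubset_iff_subset_ne.2 ⟨sB, fun e => by simp [e] at nC⟩)
      (fun a ha => hz a (sB ha)) t fun u hu v hv y hy => by
        by_cases s : y ∈ A
        · rw [hb u hu y (mem_sdiff.2 ⟨s, hy⟩), hb v hv y (mem_sdiff.2 ⟨s, hy⟩)]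
        · exact hm u (sB hu) v (sB hv) y s
    exact ⟨x, sB hx, w, sB hw, r⟩
  · obtain ⟨x, hx, w, hw, r⟩ := ih (A \ B) (sdiff_ssubset sB nB)
      (fun a ha => hz a (mem_sdiff.1 ha).1) (by omega) fun u hu v hv y hy => by
        by_cases s : y ∈ A
        · have : y ∈ B := by_contra fun n => hy (mem_sdiff.2 ⟨s, n⟩)
          rw [G.adj_comm u, G.adj_comm v, hb y this u hu, hb y this v hv]
        · exact hm u (mem_sdiff.1 hu).1 v (mem_sdiff.1 hv).1 y s
    exact ⟨x, (mem_sdiff.1 hx).1, w, (mem_sdiff.1 hw).1, r⟩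

theorem prune [Fintype V] (h : IP G) (r : V) (hr : ∀ v, G.Reachable r v)
    (hc : 3 ≤ Fintype.card V) : ∃ x w, x ≠ r ∧ w ≠ r ∧ x ≠ w ∧
      ((∀ y, y ≠ x → y ≠ w → (G.Adj x y ↔ G.Adj w y)) ∨ ∀ y, G.Adj x y → y = w) := by
  classical
  have lip : ∀ u v, G.Adj u v → G.dist r v ≤ G.dist r u + 1 := fun u v a =>
    (dist_adj a).resolve_right (not_not.2 (hr u))
  have d0 : ∀ v, G.dist r v = 0 → v = r := fun v e => ((hr v).dist_eq_zero_iff.1 e).symm
  have dr : G.dist r r = 0 := by simp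
  have fin : ∀ u n S, PP G r u n S → n ≤ G.dist r u := fun u n S p => by
    have := p.le h
    rw [edist_comm, ← (hr u).coe_dist_eq_edist] at this
    exact_mod_cast this
  have pre : ∀ u y, G.Adj u y → G.dist r u = G.dist r y + 1 →
      PP G r u (G.dist r u) fun s => G.dist r s < G.dist r y ∨ s = y := fun u y a e => by
    rw [e]
    refine (geod _ y (hr y) rfl).cons a (fun s hs => ⟨fun b => ?_, fun t => ?_, .inl hs.1⟩)
      (.inr rfl)
    · have := lip _ _ b.symm; omega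
    · subst t; omega
  have F1 : ∀ u u' y, G.Adj u' u → G.dist r u' = G.dist r u → G.Adj u y →
      G.dist r u = G.dist r y + 1 → G.Adj u' y := fun u u' y a e b e' => by
    by_contra n
    have := fin _ _ _ ((pre u y b e').cons (T := fun _ => True) a (by
      rintro s (hs | rfl)
      · exact ⟨fun c => by have := lip _ _ c.symm; omega, fun t => by subst t; omega, trivial⟩
      · exact ⟨n, fun t => by subst t; omega, trivial⟩) trivial)
    omega
  have F2 : ∀ x u u' y, G.Adj x u → G.Adj x u' → G.dist r x = G.dist r u + 1 →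
      G.dist r u' = G.dist r u → G.Adj u y → G.dist r u = G.dist r y + 1 → G.Adj u' y := by
    intro x u u' y a a' e1 e2 b e3
    by_contra n
    by_cases c : G.Adj u' u
    · exact n (F1 u u' y c e2 b e3)
    have := fin _ _ _ (((pre u y b e3).cons
      (T := fun s => (G.dist r s < G.dist r y ∨ s = y) ∨ s = u) a (by
      rintro s (hs | rfl)
      · exact ⟨fun c => by have := lip _ _ c.symm; omega, fun t => by subst t; omega, .inl (.inl hs)⟩
      · exact ⟨fun c => by have := lip _ _ c.symm; omega, fun t => by subst t; omega,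
          .inl (.inr rfl)⟩) (.inr rfl)).cons (T := fun _ => True) a'.symm (by
      rintro s ((hs | rfl) | rfl)
      · exact ⟨fun c => by have := lip _ _ c.symm; omega, fun t => by subst t; omega, trivial⟩
      · exact ⟨n, fun t => by subst t; omega, trivial⟩
      · exact ⟨c, fun t => n (t ▸ b), trivial⟩) trivial)
    omega
  obtain ⟨x0, -, hx0⟩ := exists_max_image univ (G.dist r) ⟨r, mem_univ _⟩
  replace hx0 := fun v => hx0 v (mem_univ v)
  obtain ⟨k, hk⟩ : ∃ k, G.dist r x0 = k + 1 := by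
    obtain ⟨v, hv⟩ := Fintype.exists_ne_of_one_lt_card (by omega) r
    have := hx0 v
    have := mt (d0 v) hv
    exact ⟨G.dist r x0 - 1, by omega⟩
  rw [hk] at hx0
  set D : V → Finset V := fun x => univ.filter fun y => G.Adj x y ∧ G.dist r y = k with hD
  have mD : ∀ x y, y ∈ D x ↔ G.Adj x y ∧ G.dist r y = k := fun x y => by simp [hD]
  have Dn : ∀ x, G.dist r x = k + 1 → ∃ y, y ∈ D x := fun x e =>
    let ⟨u, a, b, _⟩ := pred e; ⟨u, (mD _ _).2 ⟨a, b⟩⟩
  have Da : ∀ x x', G.dist r x = k + 1 → G.dist r x' = k + 1 → G.Adj x x' → D x = D x' := by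
    intro x x' e e' a
    ext y
    rw [mD, mD]
    exact ⟨fun t => ⟨F1 x x' y a.symm (by omega) t.1 (by omega), t.2⟩,
      fun t => ⟨F1 x' x y a (by omega) t.1 (by omega), t.2⟩⟩
  by_cases c1 : ∃ x x', x ≠ x' ∧ G.dist r x = k + 1 ∧ G.dist r x' = k + 1 ∧ D x' = D x
  · obtain ⟨x, x', n, e, e', eD⟩ := c1
    obtain ⟨z, hz⟩ := Dn x e
    have one : ∀ u v y, G.dist r u = k + 1 ∧ D u = D x → G.dist r v = k + 1 ∧ D v = D x →
        ¬ (G.dist r y = k + 1 ∧ D y = D x) → G.Adj u y → G.Adj v y := by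
      intro u v y hu hv hy a
      have := lip _ _ a.symm
      have := hx0 y
      by_cases t : G.dist r y = k + 1
      · exact absurd ⟨t, (Da u y hu.1 t a).symm.trans hu.2⟩ hy
      · exact ((mD v y).1 (by rw [hv.2, ← hu.2, mD]; exact ⟨a, by omega⟩)).1
    obtain ⟨a, ha, b, hb, ab, t⟩ := twins h z
      (univ.filter fun u => G.dist r u = k + 1 ∧ D u = D x)
      (fun a ha => ((mD a z).1 (by rw [(mem_filter.1 ha).2.2]; exact hz)).1)
      (one_lt_card.2 ⟨x, by simp [e], x', by simp [e', eD], n⟩) fun u hu v hv y hy => by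
        simp only [mem_filter, mem_univ, true_and] at hu hv hy
        exact ⟨one u v y hu hv hy, one v u y hv hu hy⟩
    have := (mem_filter.1 ha).2.1
    have := (mem_filter.1 hb).2.1
    exact ⟨a, b, fun t => by subst t; omega, fun t => by subst t; omega, ab, .inl t⟩
  push Not at c1
  have nE : ∀ x x', G.dist r x = k + 1 → G.dist r x' = k + 1 → ¬ G.Adj x x' :=
    fun x x' e e' a => c1 x x' a.ne e e' (Da x x' e e' a).symm
  obtain ⟨k, rfl⟩ : ∃ j, k = j + 1 := by
    rcases k with _ | k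
    swap
    · exact ⟨k, rfl⟩
    exfalso
    obtain ⟨a, ha, b, hb, ab⟩ := one_lt_card.1 (show 1 < (univ.erase r).card by
      rw [card_erase_of_mem (mem_univ _), card_univ]; omega)
    have t : ∀ a ∈ univ.erase r, G.dist r a = 0 + 1 ∧ D a = {r} := fun a ha => by
      have := hx0 a
      have := mt (d0 a) (ne_of_mem_erase ha)
      have e : G.dist r a = 0 + 1 := by omega
      obtain ⟨y, hy⟩ := Dn a e
      refine ⟨e, eq_singleton_iff_unique_mem.2 ⟨d0 y ((mD _ _).1 hy).2 ▸ hy, fun y hy =>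
        d0 y ((mD _ _).1 hy).2⟩⟩
    exact c1 a b ab (t a ha).1 (t b hb).1 ((t b hb).2.trans (t a ha).2.symm)
  obtain ⟨x, hx, mn⟩ := exists_min_image (univ.filter fun x => G.dist r x = k + 1 + 1)
    (fun x => (D x).card) ⟨x0, by simp [hk]⟩
  simp only [mem_filter, mem_univ, true_and] at hx mn
  by_cases c2 : (D x).card ≤ 1
  · obtain ⟨w, hw⟩ := Dn x hx
    have := ((mD _ _).1 hw).2
    refine ⟨x, w, fun t => by subst t; omega, fun t => by subst t; omega,
      fun t => by subst t; omega, .inr fun y a => card_le_one.1 c2 y ((mD _ _).2 ⟨a, ?_⟩) w hw⟩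
    have := lip _ _ a.symm
    have := hx0 y
    have : G.dist r y ≠ k + 1 + 1 := fun t => nE x y hx t a
    omega
  have one : ∀ u ∈ D x, ∀ v ∈ D x, ∀ y ∉ D x, G.Adj u y → G.Adj v y := by
    intro u hu v hv y hy a
    rw [mD] at hu hv hy
    by_contra n
    have := lip _ _ a.symm
    have := hx0 y
    obtain ⟨t, ut, dt, -⟩ := pred hu.2
    have vt := F2 x u v t hu.1 hv.1 (by omega) (by omega) ut (by omega)
    have far : ∀ s, G.dist r s = k + 1 + 1 → ¬ G.Adj t s := fun s e c => by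
      have := lip _ _ c; omega
    by_cases e1 : G.dist r y = k
    · exact n (F2 x u v y hu.1 hv.1 (by omega) (by omega) a (by omega))
    by_cases e2 : G.dist r y = k + 1
    · exact ip3 h (F1 u y t a.symm (by omega) ut (by omega)) vt.symm hv.1.symm
        (fun c => n c.symm) (far x hx) (fun c => hy ⟨c.symm, e2⟩) a.symm hu.1
    have e3 : G.dist r y = k + 1 + 1 := by omega
    have yx : y ≠ x := fun e => n (e ▸ hv.1.symm)
    obtain ⟨s, hs, sx⟩ : ∃ s ∈ D y, s ∉ D x := by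
      by_contra t
      push Not at t
      exact c1 x y yx.symm hx e3 (eq_of_subset_of_card_le t (mn y e3))
    rw [mD] at hs sx
    have xs : ¬ G.Adj x s := fun c => sx ⟨c, hs.2⟩
    have st := F2 y u s t a.symm hs.1 (by omega) (by omega) ut (by omega)
    by_cases c : G.Adj v s
    · exact ip3 h hv.1 c hs.1.symm xs n (nE x y hx e3) hu.1 a.symm
    · exact ip4 h hv.1 vt st.symm hs.1.symm (fun c => far x hx c.symm) c xs (far y e3) n
        (nE x y hx e3) hu.1 a.symm
  obtain ⟨a, ha, b, hb, ab, t⟩ := twins h x (D x) (fun a ha => ((mD _ _).1 ha).1.symm) (by omega)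
    fun u hu v hv y hy => ⟨one u hu v hv y hy, one v hv u hu y hy⟩
  have := ((mD _ _).1 ha).2
  have := ((mD _ _).1 hb).2
  exact ⟨a, b, fun t => by subst t; omega, fun t => by subst t; omega, ab, .inl t⟩

end Pool.Agent.H31.DH
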