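import Pool.Agent.H31.DH2

namespace Pool.Agent.H31.DH

open Order

/-- every colour is dense -/
def Dn {α C : Type} [LinearOrder α] (s : α → C) : Prop :=
  ∀ lo hi : Finset α, (∀ x ∈ lo, ∀ y ∈ hi, x < y) → ∀ c, ∃ m, s m = c ∧
    (∀ x ∈ lo, x < m) ∧ ∀ y ∈ hi, m < y

theorem dn_of {α C : Type} [LinearOrder α] [DenselyOrdered α] [NoMinOrder α] [NoMaxOrder α]
    [Nonempty α] {s : α → C} (h : ∀ a b, a < b → ∀ c, ∃ m, s m = c ∧ a < m ∧ m < b) : Dn s := by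
  intro lo hi t c
  obtain ⟨a, a1, a2⟩ := exists_between_finsets lo hi t
  obtain ⟨b, b1, b2⟩ := exists_between_finsets {a} hi (by simpa using a2)
  obtain ⟨m, e, m1, m2⟩ := h a b (b1 a (by simp)) c
  exact ⟨m, e, fun x hx => (a1 x hx).trans m1, fun y hy => m2.trans (b2 y hy)⟩

theorem across {α β C : Type} [LinearOrder α] [LinearOrder β] {s : α → C} {t : β → C} (h : Dn t)
    (f : Finset (α × β)) (hf : ∀ p ∈ f, t p.2 = s p.1 ∧ ∀ q ∈ f, cmp p.1 q.1 = cmp p.2 q.2)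
    (a : α) : ∃ b, t b = s a ∧ ∀ p ∈ f, cmp p.1 a = cmp p.2 b := by
  classical
  by_cases e : ∃ b, (a, b) ∈ f
  · obtain ⟨b, hb⟩ := e
    exact ⟨b, (hf _ hb).1, fun p hp => (hf p hp).2 _ hb⟩
  obtain ⟨b, hb, h1, h2⟩ := h ((f.filter fun p => p.1 < a).image Prod.snd)
    ((f.filter fun p => a < p.1).image Prod.snd) (fun x hx y hy => by
      obtain ⟨p, hp, rfl⟩ := Finset.mem_image.1 hx
      obtain ⟨q, hq, rfl⟩ := Finset.mem_image.1 hy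
      rw [Finset.mem_filter] at hp hq
      rw [← lt_iff_lt_of_cmp_eq_cmp ((hf _ hp.1).2 _ hq.1)]
      exact hp.2.trans hq.2) (s a)
  refine ⟨b, hb, fun p hp => ?_⟩
  rcases lt_or_gt_of_ne (show p.1 ≠ a from fun t => e ⟨p.2, t ▸ hp⟩) with l | l
  · rw [cmp_eq_lt_iff _ _ |>.2 l, cmp_eq_lt_iff _ _ |>.2
      (h1 _ (Finset.mem_image_of_mem _ (Finset.mem_filter.2 ⟨hp, l⟩)))]
  · rw [cmp_eq_gt_iff _ _ |>.2 l, cmp_eq_gt_iff _ _ |>.2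
      (h2 _ (Finset.mem_image_of_mem _ (Finset.mem_filter.2 ⟨hp, l⟩)))]

theorem ciso {α β C : Type} [LinearOrder α] [LinearOrder β] [Countable α] [Countable β]
    {s : α → C} {t : β → C} (hs : Dn s) (ht : Dn t) : ∃ e : α ≃o β, ∀ a, t (e a) = s a := by
  classical
  cases nonempty_encodable (α ⊕ β)
  let P := {f : Finset (α × β) // ∀ p ∈ f, t p.2 = s p.1 ∧ ∀ q ∈ f, cmp p.1 q.1 = cmp p.2 q.2}
  have ins : ∀ (f : P) (a : α) (b : β), t b = s a → (∀ p ∈ f.1, cmp p.1 a = cmp p.2 b) →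
      ∃ g : P, (a, b) ∈ g.1 ∧ f ≤ g := fun f a b e h => by
    refine ⟨⟨insert (a, b) f.1, fun p hp => ⟨?_, fun q hq => ?_⟩⟩, Finset.mem_insert_self _ _,
      Finset.subset_insert _ _⟩
    · rcases Finset.mem_insert.1 hp with rfl | h
      · exact e
      · exact (f.2 p h).1
    rcases Finset.mem_insert.1 hp with rfl | pf <;> rcases Finset.mem_insert.1 hq with rfl | qf
    · simp only [cmp_self_eq_eq]
    · rw [cmp_eq_cmp_symm]; exact h _ qf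
    · exact h _ pf
    · exact (f.2 _ pf).2 _ qf
  let D : α ⊕ β → Cofinal P := fun z => z.elim
    (fun a => ⟨{f | ∃ b, (a, b) ∈ f.1}, fun f => by
      obtain ⟨b, e, h⟩ := across ht f.1 f.2 a
      obtain ⟨g, h1, h2⟩ := ins f a b e h
      exact ⟨g, ⟨b, h1⟩, h2⟩⟩)
    (fun b => ⟨{f | ∃ a, (a, b) ∈ f.1}, fun f => by
      obtain ⟨a, e, h⟩ := across hs (f.1.image Prod.swap) (fun p' hp' => by
        obtain ⟨p, hp, rfl⟩ := Finset.mem_image.1 hp'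
        refine ⟨(f.2 p hp).1.symm, fun q' hq' => ?_⟩
        obtain ⟨q, hq, rfl⟩ := Finset.mem_image.1 hq'
        exact ((f.2 p hp).2 q hq).symm) b
      obtain ⟨g, h1, h2⟩ := ins f a b e.symm fun p hp =>
        (h _ (Finset.mem_image_of_mem _ hp)).symm
      exact ⟨g, ⟨a, h1⟩, h2⟩⟩)
  let I : Ideal P := idealOfCofinals ⟨∅, by simp⟩ D
  have hF : ∀ a, ∃ b, ∃ f ∈ I, (a, b) ∈ f.1 := fun a =>
    let ⟨f, ⟨b, hb⟩, hf⟩ := cofinal_meets_idealOfCofinals ⟨∅, by simp⟩ D (.inl a); ⟨b, f, hf, hb⟩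
  have hG : ∀ b, ∃ a, ∃ f ∈ I, (a, b) ∈ f.1 := fun b =>
    let ⟨f, ⟨a, ha⟩, hf⟩ := cofinal_meets_idealOfCofinals ⟨∅, by simp⟩ D (.inr b); ⟨a, f, hf, ha⟩
  choose F f hf ha using hF
  choose G g hg hb using hG
  refine ⟨OrderIso.ofCmpEqCmp F G fun a b => ?_, fun a => ((f a).2 _ (ha a)).1⟩
  obtain ⟨m, -, fm, gm⟩ := I.directed _ (hf a) _ (hg b)
  exact (m.2 _ (fm (ha a))).2 _ (gm (hb b))

/-- colours: `0` clique node, `1` star centred upwards, `2` star centred downwards -/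
def τ (q : ℚ) : ZMod 3 := q.num

theorem τ_neg (q : ℚ) : τ (-q) = -τ q := by simp [τ]

theorem τ_dense (a b : ℚ) (h : a < b) (c : ZMod 3) : ∃ m, τ m = c ∧ a < m ∧ m < b := by
  obtain ⟨k, hk⟩ := pow_unbounded_of_one_lt (7 / (b - a)) (one_lt_two (α := ℚ))
  rw [div_lt_iff₀ (by linarith)] at hk
  have p : (0 : ℚ) < 2 ^ k := by positivity
  obtain ⟨n, h1, h2, h3, h4⟩ : ∃ n : ℤ, ⌊a * 2 ^ k⌋ + 1 ≤ n ∧ n ≤ ⌊a * 2 ^ k⌋ + 6 ∧ n % 2 = 1 ∧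
      n % 3 = c.val := by
    have := c.val_lt
    exact ⟨⌊a * 2 ^ k⌋ + 1 + (4 * (c.val : ℤ) + 3 - ⌊a * 2 ^ k⌋ - 1) % 6, by omega, by omega,
      by omega, by omega⟩
  have h1' : ((⌊a * 2 ^ k⌋ : ℤ) : ℚ) + 1 ≤ n := by exact_mod_cast h1
  have h2' : (n : ℚ) ≤ (⌊a * 2 ^ k⌋ : ℤ) + 6 := by exact_mod_cast h2
  refine ⟨n / ((2 ^ k : ℤ) : ℚ), ?_, ?_, ?_⟩
  · rw [τ, Rat.num_div_eq_of_coprime (by positivity), ← ZMod.intCast_mod n 3]
    · rw [show ((3 : ℕ) : ℤ) = 3 from rfl, h4]; simp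
    · rw [Int.natAbs_pow]
      exact Nat.Coprime.pow_right _ ((Nat.coprime_two_right).2 (by rw [Int.natAbs_odd, Int.odd_iff, h3]))
  · push_cast
    rw [lt_div_iff₀ p]
    linarith [Int.lt_floor_add_one (a * 2 ^ k)]
  · push_cast
    rw [div_lt_iff₀ p]
    linarith [Int.floor_le (a * 2 ^ k)]

theorem τ_dn : Dn τ := dn_of τ_dense

theorem exists_ι (a : ℚ) : ∃ e : ℚ ≃o Set.Ioi a, ∀ c, τ (e c) = τ c :=
  ciso (t := fun x : Set.Ioi a => τ x) τ_dn (dn_of fun x y h c =>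
    let ⟨m, e, h1, h2⟩ := τ_dense x y h c; ⟨⟨m, lt_trans x.2 h1⟩, e, h1, h2⟩)

theorem exists_emb {α : Type} [LinearOrder α] [Countable α] [Nonempty α] (t : α → ZMod 3) :
    ∃ a : α → ℚ, StrictMono a ∧ ∀ v, τ (a v) = t v := by
  haveI : Countable (α ×ₗ ℚ) := inferInstanceAs (Countable (α × ℚ))
  obtain ⟨e, he⟩ := ciso (α := α ×ₗ ℚ) (s := fun p => t (ofLex p).1 + τ (ofLex p).2) (dn_of (by
    intro x y h c
    obtain ⟨q, h1, h2⟩ : ∃ q, (ofLex x).2 < q ∧ toLex ((ofLex x).1, q) ≤ y := by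
      rcases Prod.Lex.lt_iff.1 h with l | ⟨l, l'⟩
      · exact ⟨(ofLex x).2 + 1, by simp, Prod.Lex.le_iff.2 (.inl l)⟩
      · exact ⟨(ofLex y).2, l', Prod.Lex.le_iff.2 (.inr ⟨l, le_rfl⟩)⟩
    obtain ⟨m, e, m1, m2⟩ := τ_dense _ _ h1 (c - t (ofLex x).1)
    exact ⟨toLex ((ofLex x).1, m), by simp [e], Prod.Lex.lt_iff.2 (.inr ⟨rfl, m1⟩),
      lt_of_lt_of_le (b := toLex ((ofLex x).1, q)) (Prod.Lex.lt_iff.2 (.inr ⟨rfl, m2⟩)) h2⟩)) τ_dn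
  exact ⟨fun v => e (toLex (v, 0)), fun u v h => e.strictMono (Prod.Lex.lt_iff.2 (.inl h)),
    fun v => by rw [he]; simp [τ]⟩

end Pool.Agent.H31.DH
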