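import Pool.Agent.H31.DH3

namespace Pool.Agent.H31.DH

open Finset

def np (x : List ℚ) : Prop := ∀ a ∈ x, τ a ≠ 2

@[simp] theorem np_nil : np [] := by simp [np]

@[simp] theorem np_cons {a : ℚ} {x : List ℚ} : np (a :: x) ↔ τ a ≠ 2 ∧ np x := by simp [np]

def adjL : List ℚ → List ℚ → Prop
  | [], [] => False
  | [], b :: y => τ b ≠ 1 ∧ np y
  | a :: x, [] => τ a ≠ 1 ∧ np x
  | a :: x, b :: y => (a = b ∧ adjL x y) ∨ (a < b ∧ τ a ≠ 1 ∧ np x ∧ np (b :: y)) ∨
      (b < a ∧ τ b ≠ 1 ∧ np y ∧ np (a :: x))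

theorem adjL_symm : ∀ x y, adjL x y → adjL y x
  | [], [], h => h
  | [], _ :: _, h => h
  | _ :: _, [], h => h
  | _ :: x, _ :: y, h => h.elim (fun t => .inl ⟨t.1.symm, adjL_symm x y t.2⟩)
      fun t => .inr t.symm

theorem adjL_comm (x y) : adjL x y ↔ adjL y x := ⟨adjL_symm _ _, adjL_symm _ _⟩

@[simp] theorem adjL_irrefl : ∀ x, ¬ adjL x x
  | [] => id
  | _ :: x => by simp [adjL, adjL_irrefl x]

def adjO : Option (List ℚ) → Option (List ℚ) → Prop
  | none, none => False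
  | none, some y => np y
  | some x, none => np x
  | some x, some y => adjL x y

def U0 : SimpleGraph (Option (List ℚ)) where
  Adj := adjO
  symm := ⟨by
    rintro (_ | x) (_ | y) h
    exacts [h, h, h, adjL_symm _ _ h]⟩
  loopless := ⟨by
    rintro (_ | x) h
    exacts [h, adjL_irrefl _ h]⟩

def U : SimpleGraph (ℕ × Option (List ℚ)) where
  Adj p q := p.1 = q.1 ∧ U0.Adj p.2 q.2
  symm := ⟨fun _ _ h => ⟨h.1.symm, h.2.symm⟩⟩
  loopless := ⟨fun _ h => h.2.ne rfl⟩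

def hd : List ℚ → WithTop ℚ
  | [] => ⊤
  | a :: _ => a

theorem adj_lt {x y : List ℚ} (h : hd y < hd x) :
    adjL x y ↔ (∃ b z, y = b :: z ∧ τ b ≠ 1 ∧ np z) ∧ np x := by
  rcases y with _ | ⟨b, y⟩
  · simp [hd] at h
  rcases x with _ | ⟨a, x⟩
  · simp [adjL]
  · have h : b < a := by simpa [hd] using h
    simp [adjL, h, h.ne', h.le, and_assoc]

theorem pairL (n : ℕ) : ∀ X : Finset (List ℚ), (∀ x ∈ X, x.length ≤ n) → 2 ≤ X.card →
    ∃ x ∈ X, ∃ w ∈ X, x ≠ w ∧ ∃ α β D : Prop, (np x ↔ D ∧ α) ∧ (np w ↔ D ∧ β) ∧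
      ∀ y ∈ X, y ≠ x → y ≠ w → ∃ E : Prop, (adjL x y ↔ E ∧ α) ∧ (adjL w y ↔ E ∧ β) := by
  induction n with
  | zero =>
    intro X h c
    obtain ⟨a, ha, b, hb, n⟩ := one_lt_card.1 c
    exact absurd ((List.length_eq_zero_iff.1 (by have := h a ha; omega)).trans
      (List.length_eq_zero_iff.1 (by have := h b hb; omega)).symm) n
  | succ n ih =>
  intro X h c
  by_cases t : ∃ a, 2 ≤ (X.preimage (List.cons a) List.cons_injective.injOn).card
  · obtain ⟨a, t⟩ := t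
    obtain ⟨x, hx, w, hw, n, α, β, D, h1, h2, h3⟩ := ih _ (fun x hx => by
      simpa using h _ (mem_preimage.1 hx)) t
    refine ⟨a :: x, mem_preimage.1 hx, a :: w, mem_preimage.1 hw, by simpa using n, α, β,
      τ a ≠ 2 ∧ D, by simp [h1, and_assoc], by simp [h2, and_assoc], fun y hy n1 n2 => ?_⟩
    rcases y with _ | ⟨b, y⟩
    · exact ⟨τ a ≠ 1 ∧ D, by simp [adjL, h1, and_assoc], by simp [adjL, h2, and_assoc]⟩
    rcases lt_trichotomy a b with l | rfl | l
    · refine ⟨τ a ≠ 1 ∧ np (b :: y) ∧ D, ?_, ?_⟩ <;>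
        simp only [adjL, h1, h2, l, l.ne, l.not_gt, false_and, true_and, false_or, or_false] <;>
        constructor <;> intro u <;> simp_all
    · obtain ⟨E, e1, e2⟩ := h3 y (mem_preimage.2 hy) (by simpa using n1) (by simpa using n2)
      exact ⟨E, by simp [adjL, e1], by simp [adjL, e2]⟩
    · exact ⟨τ b ≠ 1 ∧ np y ∧ τ a ≠ 2 ∧ D, by simp [adjL, h1, l, l.ne', l.le, and_assoc],
        by simp [adjL, h2, l, l.ne', l.le, and_assoc]⟩
  have inj : ∀ x ∈ X, ∀ y ∈ X, hd x = hd y → x = y := by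
    rintro (_ | ⟨a, x⟩) hx (_ | ⟨b, y⟩) hy e <;> simp [hd] at e ⊢
    subst e
    exact ⟨rfl, by_contra fun n => t ⟨a, one_lt_card.2
      ⟨x, mem_preimage.2 hx, y, mem_preimage.2 hy, n⟩⟩⟩
  obtain ⟨w, hw, mw⟩ := exists_max_image X hd (card_pos.1 (by omega))
  obtain ⟨x, hx, mx⟩ := exists_max_image (X.erase w) hd
    (card_pos.1 (by rw [card_erase_of_mem hw]; omega))
  rw [mem_erase] at hx
  refine ⟨x, hx.2, w, hw, hx.1, np x, np w, True, by simp, by simp, fun y hy n1 n2 => ⟨_,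
    adj_lt ((mx y (mem_erase.2 ⟨n2, hy⟩)).lt_of_ne fun e => n1 (inj _ hy _ hx.2 e)),
    adj_lt ((mw y hy).lt_of_ne fun e => n2 (inj _ hy _ hw e))⟩⟩

theorem pr0 (W : Finset (Option (List ℚ))) (c : 2 ≤ W.card) :
    ∃ x ∈ W, ∃ w ∈ W, x ≠ w ∧ Pr U0 W x w := by
  classical
  by_cases t : 2 ≤ W.eraseNone.card
  · obtain ⟨x, hx, w, hw, n, α, β, D, h1, h2, h3⟩ := pairL (W.eraseNone.sup List.length) _
      (fun x hx => le_sup (f := List.length) hx) t
    have key : ∀ y ∈ W, y ≠ some x → y ≠ some w →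
        ∃ E : Prop, (U0.Adj (some x) y ↔ E ∧ α) ∧ (U0.Adj (some w) y ↔ E ∧ β) := by
      rintro (_ | y) hy n1 n2
      · exact ⟨D, h1, h2⟩
      · exact h3 y (mem_eraseNone.2 hy) (by simpa using n1) (by simpa using n2)
    rw [mem_eraseNone] at hx hw
    by_cases a : α <;> by_cases b : β
    · refine ⟨_, hx, _, hw, by simpa using n, .inl fun y hy n1 n2 => ?_⟩
      obtain ⟨E, e1, e2⟩ := key y hy n1 n2
      simp [e1, e2, a, b]
    · refine ⟨_, hw, _, hx, by simpa using n.symm, .inr fun y hy j => by_contra fun n1 => ?_⟩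
      obtain ⟨E, -, e2⟩ := key y hy n1 j.ne'
      exact b (e2.1 j).2
    · refine ⟨_, hx, _, hw, by simpa using n, .inr fun y hy j => by_contra fun n1 => ?_⟩
      obtain ⟨E, e2, -⟩ := key y hy j.ne' n1
      exact a (e2.1 j).2
    · refine ⟨_, hx, _, hw, by simpa using n, .inl fun y hy n1 n2 => ?_⟩
      obtain ⟨E, e1, e2⟩ := key y hy n1 n2
      simp [e1, e2, a, b]
  obtain ⟨x, hx, w, hw, n⟩ := one_lt_card.1 c
  refine ⟨x, hx, w, hw, n, .inl fun y hy n1 n2 => (t (one_lt_card.2 ?_)).elim⟩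
  rcases x with _ | x <;> rcases w with _ | w <;> rcases y with _ | y <;>
    simp only [ne_eq, not_true_eq_false] at n n1 n2
  · exact ⟨y, by simpa, w, by simpa, by simpa using n2⟩
  · exact ⟨y, by simpa, x, by simpa, by simpa using n1⟩
  · exact ⟨x, by simpa, w, by simpa, by simpa using n⟩
  · exact ⟨x, by simpa, w, by simpa, by simpa using n⟩

theorem U_dh : IsDH U := dh_of_ip (ip_of_prune fun W c => by
  classical
  by_cases t : ∃ i, 2 ≤ (W.preimage (Prod.mk i) (Prod.mk_right_injective i).injOn).card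
  · obtain ⟨i, t⟩ := t
    obtain ⟨x, hx, w, hw, n, p⟩ := pr0 _ t
    refine ⟨_, mem_preimage.1 hx, _, mem_preimage.1 hw, by simpa using n,
      p.imp (fun p y hy n1 n2 => ?_) fun p y hy j => ?_⟩
    · obtain ⟨k, y⟩ := y
      refine and_congr_right ?_
      rintro (rfl : i = k)
      exact p y (mem_preimage.2 hy) (by simpa using n1) (by simpa using n2)
    · obtain ⟨k, y⟩ := y
      obtain rfl : i = k := j.1
      rw [p y (mem_preimage.2 hy) j.2]
  obtain ⟨x, hx, w, hw, n⟩ := one_lt_card.1 c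
  refine ⟨x, hx, w, hw, n, .inr fun y hy j => (t ⟨x.1, one_lt_card.2
    ⟨x.2, mem_preimage.2 hx, y.2, mem_preimage.2 (by rw [j.1]; exact hy), j.2.ne⟩⟩).elim⟩)

def sg : Option (List ℚ) → Option (List ℚ)
  | none => some []
  | some [] => none
  | some (a :: z) => some (-a :: z)

theorem neg1 (c : ZMod 3) : -c = 1 ↔ c = 2 := by revert c; decide

theorem neg2 (c : ZMod 3) : -c = 2 ↔ c = 1 := by revert c; decide

def sgI : U0 ≃g U0 where
  toEquiv := Function.Involutive.toPerm sg (by rintro (_ | _ | ⟨a, z⟩) <;> simp [sg])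
  map_rel_iff' := by
    intro x y
    change adjO (sg x) (sg y) ↔ adjO x y
    rcases x with (_ | _ | ⟨a, x⟩) <;> rcases y with (_ | _ | ⟨b, y⟩) <;>
      simp [sg, adjO, adjL, τ_neg, neg1, neg2]
    rcases lt_trichotomy a b with l | rfl | l
    · simp only [l, l.ne, l.not_gt, false_and, true_and, false_or, or_false]; tauto
    · simp
    · simp only [l, l.ne', l.not_gt, false_and, true_and, false_or, or_false]; tauto

noncomputable def sw (a : ℚ) (ι : ℚ → ℚ) : Option (List ℚ) → Option (List ℚ)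
  | none => none
  | some [] => some [a]
  | some (b :: z) => if b < a then some (b :: z) else if b = a then
      some (z.casesOn [] fun c z => ι c :: z) else some (a :: Function.invFun ι b :: z)

theorem swI (a : ℚ) (ha : τ a ≠ 2) : ∃ e : U0 ≃g U0, ∀ z, ∃ y : List ℚ, y.length = z.length ∧
    e (some (a :: z)) = some y := by
  obtain ⟨e, he⟩ := exists_ι a
  obtain ⟨ι, h1, h2, h3, h4⟩ : ∃ ι : ℚ → ℚ, StrictMono ι ∧ (∀ c, a < ι c) ∧
      (∀ b, a < b → ∃ c, b = ι c) ∧ ∀ c, τ (ι c) = τ c :=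
    ⟨fun c => e c, fun _ _ h => e.strictMono h, fun c => (e c).2,
      fun b hb => ⟨e.symm ⟨b, hb⟩, by simp⟩, he⟩
  have cs : ∀ o : Option (List ℚ), o = none ∨ o = some [] ∨ o = some [a] ∨
      (∃ b z, b < a ∧ o = some (b :: z)) ∨ (∃ c z, o = some (ι c :: z)) ∨
      ∃ c z, o = some (a :: c :: z) := by
    rintro (_ | _ | ⟨b, z⟩)
    · simp
    · simp
    rcases lt_trichotomy b a with l | rfl | l
    · exact .inr (.inr (.inr (.inl ⟨b, z, l, rfl⟩)))
    · cases z <;> simp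
    · obtain ⟨c, rfl⟩ := h3 b l
      exact .inr (.inr (.inr (.inr (.inl ⟨c, z, rfl⟩))))
  have s1 : sw a ι none = none := rfl
  have s2 : sw a ι (some []) = some [a] := rfl
  have s3 : sw a ι (some [a]) = some [] := by simp [sw]
  have s4 : ∀ b z, b < a → sw a ι (some (b :: z)) = some (b :: z) := fun b z l => by simp [sw, l]
  have s5 : ∀ c z, sw a ι (some (ι c :: z)) = some (a :: c :: z) := fun c z => by
    simp [sw, (h2 c).not_gt, (h2 c).ne', Function.leftInverse_invFun h1.injective c]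
  have s6 : ∀ c z, sw a ι (some (a :: c :: z)) = some (ι c :: z) := fun c z => by simp [sw]
  have f1 := fun c => (h2 c).ne
  have f2 := fun c => (h2 c).ne'
  have f3 := fun c => (h2 c).not_gt
  have g1 := fun b (l : b < a) c => l.trans (h2 c)
  refine ⟨⟨Function.Involutive.toPerm (sw a ι) fun o => ?_, fun {x y} => ?_⟩, fun z => ?_⟩
  · rcases cs o with rfl | rfl | rfl | ⟨b, z, l, rfl⟩ | ⟨c, z, rfl⟩ | ⟨c, z, rfl⟩ <;>
      simp only [*]
  · change adjO (sw a ι x) (sw a ι y) ↔ adjO x y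
    rcases cs x with rfl | rfl | rfl | ⟨b, z, l, rfl⟩ | ⟨c, z, rfl⟩ | ⟨c, z, rfl⟩ <;>
      rcases cs y with rfl | rfl | rfl | ⟨b', z', l', rfl⟩ | ⟨c', z', rfl⟩ | ⟨c', z', rfl⟩ <;>
      clear cs he h3 e <;> (try rw [s4 _ _ l]) <;> (try rw [s4 _ _ l']) <;>
      (try simp only [s1, s2, s3, s5, s6]) <;> clear s1 s2 s3 s4 s5 s6 <;>
      simp [adjO, adjL, ha, h4, h2, f1, f2, f3, h1.lt_iff_lt, h1.injective.eq_iff] <;>
      grind
  · cases z with
    | nil => exact ⟨[], rfl, s3⟩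
    | cons c z => exact ⟨ι c :: z, rfl, s6 c z⟩

theorem U0_trans (x : Option (List ℚ)) : ∃ e : U0 ≃g U0, e x = none := by
  rcases x with _ | x
  · exact ⟨.refl, rfl⟩
  induction h : x.length generalizing x with
  | zero => rw [List.length_eq_zero_iff.1 h]; exact ⟨sgI, rfl⟩
  | succ n ih =>
    obtain ⟨a, z, rfl⟩ := List.exists_cons_of_length_eq_add_one h
    have key : ∀ a, τ a ≠ 2 → ∃ e : U0 ≃g U0, e (some (a :: z)) = none := fun a ha => by
      obtain ⟨e, he⟩ := swI a ha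
      obtain ⟨y, l, he⟩ := he z
      obtain ⟨e', he'⟩ := ih y (by simpa [l] using h)
      exact ⟨e.trans e', by simp [he, he']⟩
    by_cases ha : τ a = 2
    · obtain ⟨e, he⟩ := key (-a) (by rw [τ_neg, ha]; decide)
      exact ⟨sgI.trans e, he⟩
    · exact key a ha

theorem U_trans (x y : ℕ × Option (List ℚ)) : ∃ e : U ≃g U, e x = y := by
  obtain ⟨e, he⟩ := U0_trans x.2
  obtain ⟨e', he'⟩ := U0_trans y.2
  refine ⟨⟨(Equiv.swap x.1 y.1).prodCongr (e.trans e'.symm).toEquiv, fun {p q} =>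
    and_congr (Equiv.swap x.1 y.1).apply_eq_iff_eq (e.trans e'.symm).map_rel_iff⟩, ?_⟩
  refine Prod.ext (Equiv.swap_apply_left _ _) ?_
  change e'.symm (e x.2) = y.2
  rw [he, ← he']
  simp

end Pool.Agent.H31.DH
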