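import Pool.Agent.H31.DH4

namespace Pool.Agent.H31.DH

open Finset Filter

theorem np_app {L : List ℚ} {a : ℚ} : np (L ++ [a]) ↔ np L ∧ τ a ≠ 2 := by
  simp only [np, List.mem_append, List.mem_singleton, or_imp, forall_and, forall_eq]

theorem app (a : ℚ) : ∀ L M : List ℚ, (∀ b ∈ M, b < a) → M ≠ L →
    (adjL (L ++ [a]) M ↔ adjL L M ∧ τ a ≠ 2)
  | [], [], _, h => absurd rfl h
  | [], b :: y, h, _ => by
    have := h b (by simp)
    simp [adjL, this, this.ne', this.le, and_assoc]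
  | c :: L, [], _, _ => by simp [adjL, np_app, and_assoc]
  | c :: L, b :: y, h, n => by
    by_cases e : c = b
    · subst e
      simpa [adjL] using app a L y (fun b hb => h b (by simp [hb])) (by simpa using n)
    · simp only [List.cons_append, adjL, e, false_and, false_or, np_cons, np_app]; tauto

theorem app_self (a : ℚ) : ∀ L : List ℚ, adjL (L ++ [a]) L ↔ τ a ≠ 1
  | [] => by simp [adjL]
  | c :: L => by simpa [adjL] using app_self a L

variable {V : Type} {G : SimpleGraph V}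

open Classical in
noncomputable def Φ (r : V) (ω : V → List V) (a : V → ℚ) (v : V) : Option (List ℚ) :=
  if v = r then none else some ((ω v).map a)

theorem finite_rep (h : IP G) (r : V) (ρ : V → ℕ) (W : Finset V) : r ∈ W → Set.InjOn ρ W →
    (∀ v ∈ W, v ≠ r → ∃ u ∈ W, G.Adj v u ∧ ρ u < ρ v) →
    ∃ (ω : V → List V) (a : V → ℚ), Set.InjOn a W ∧
      (∀ v ∈ W, (ω v).length ≤ ρ v ∧ ∀ u ∈ ω v, u ∈ W ∧ ρ u ≤ ρ v) ∧ ∀ u ∈ W, ∀ v ∈ W,
      (Φ r ω a u = Φ r ω a v → u = v) ∧ (G.Adj u v ↔ U0.Adj (Φ r ω a u) (Φ r ω a v)) := by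
  classical
  induction W using Finset.strongInduction with
  | H W ih =>
  intro hr hρ hp
  by_cases c : W.card ≤ 2
  · have un : ∀ u ∈ W, ∀ v ∈ W, u ≠ r → v ≠ r → u = v := fun u hu v hv a b =>
      card_le_one.1 (show (W.erase r).card ≤ 1 by rw [card_erase_of_mem hr]; omega) u
        (mem_erase.2 ⟨a, hu⟩) v (mem_erase.2 ⟨b, hv⟩)
    have ad : ∀ v ∈ W, v ≠ r → G.Adj v r := fun v hv n => by
      obtain ⟨u, hu, a, -⟩ := hp v hv n
      by_cases e : u = r
      · exact e ▸ a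
      · exact absurd (un v hv u hu n e) a.ne
    refine ⟨fun _ => [], fun v => ρ v, fun u hu v hv e => hρ hu hv (Nat.cast_injective (R := ℚ) e), by simp,
      fun u hu v hv => ?_⟩
    by_cases a : u = r <;> by_cases b : v = r
    · simp [a, b]
    · simp [a, b, Φ, U0, adjO, (ad v hv b).symm]
    · simp [a, b, Φ, U0, adjO, ad u hu a]
    · simp [un u hu v hv a b]
  have rch : ∀ n, ∀ v : (W : Set V), ρ v = n → (G.induce (W : Set V)).Reachable ⟨r, hr⟩ v := by
    intro n
    induction n using Nat.strong_induction_on with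
    | _ n ih =>
    intro v e
    by_cases t : v.1 = r
    · rw [show v = ⟨r, hr⟩ from Subtype.ext t]
    · obtain ⟨u, hu, a, l⟩ := hp v v.2 t
      exact (ih _ (e ▸ l) ⟨u, hu⟩ rfl).trans (SimpleGraph.Adj.reachable (G := G.induce _) a.symm)
  obtain ⟨x, hx, w, hw, xr, wr, l, k, k1, k2⟩ : ∃ x ∈ W, ∃ w ∈ W, x ≠ r ∧ w ≠ r ∧ ρ w < ρ x ∧
      ∃ k : ZMod 3, (∀ y ∈ W, y ≠ x → y ≠ w → (G.Adj x y ↔ G.Adj w y ∧ k ≠ 2)) ∧
        (G.Adj x w ↔ k ≠ 1) := by
    obtain ⟨x, w, xr, wr, xw, p⟩ := prune (h.induce W) ⟨r, hr⟩ (fun v => rch _ v rfl)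
      (by simp; omega)
    have xr : x.1 ≠ r := fun e => xr (Subtype.ext e)
    have wr : w.1 ≠ r := fun e => wr (Subtype.ext e)
    rcases p with p | p
    · have p : ∀ y ∈ W, y ≠ x.1 → y ≠ w.1 → (G.Adj x y ↔ G.Adj w y) := fun y hy a b =>
        p ⟨y, hy⟩ (fun e => a (congrArg Subtype.val e)) fun e => b (congrArg Subtype.val e)
      have k2 : (if G.Adj x w then 0 else 1 : ZMod 3) ≠ 2 := by split_ifs <;> decide
      have k1 : G.Adj x w ↔ (if G.Adj x w then 0 else 1 : ZMod 3) ≠ 1 := by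
        split_ifs with t <;> simp [t]
      rcases lt_or_gt_of_ne (fun e => xw (Subtype.ext (hρ x.2 w.2 e))) with t | t
      · exact ⟨w, w.2, x, x.2, wr, xr, t, _, fun y hy a b => by simp only [p y hy b a, k2, ne_eq,
          not_false_eq_true, and_true], (G.adj_comm _ _).trans k1⟩
      · exact ⟨x, x.2, w, w.2, xr, wr, t, _, fun y hy a b => by simp only [p y hy a b, k2, ne_eq,
          not_false_eq_true, and_true], k1⟩
    · obtain ⟨u, hu, a, l⟩ := hp x x.2 xr
      obtain rfl : u = w.1 := congrArg Subtype.val (p ⟨u, hu⟩ a)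
      exact ⟨x, x.2, w, w.2, xr, wr, l, 2, fun y hy _ b => by
        simpa using fun j => b (congrArg Subtype.val (p ⟨y, hy⟩ j)), by simpa [a] using by decide⟩
  have wx : w ≠ x := fun e => by simp [e] at l
  have hw' : w ∈ W.erase x := mem_erase.2 ⟨wx, hw⟩
  obtain ⟨ω, a, ia, hω, hΦ⟩ := ih _ (erase_ssubset hx) (mem_erase.2 ⟨xr.symm, hr⟩)
    (hρ.mono (by simp)) fun v hv n => by
      rw [mem_erase] at hv
      obtain ⟨u, hu, j, t⟩ := hp v hv.2 n
      by_cases e : u = x
      · subst e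
        exact ⟨w, hw', ((k1 v hv.2 hv.1 (fun e => by subst e; omega)).1 j.symm).1.symm, by omega⟩
      · exact ⟨u, mem_erase.2 ⟨e, hu⟩, j, t⟩
  obtain ⟨q, hq, big, -⟩ := τ_dn ((W.erase x).image a) ∅ (by simp) k
  replace big : ∀ u ∈ W.erase x, a u < q := fun u hu => big _ (mem_image_of_mem _ hu)
  have mp : ∀ v ∈ W.erase x, (ω v).map (Function.update a x q) = (ω v).map a := fun v hv =>
    List.map_congr_left fun u hu => Function.update_of_ne (mem_erase.1 ((hω v hv).2 u hu).1).1 _ _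
  have e1 : ∀ v ∈ W.erase x, Φ r (Function.update ω x (ω w ++ [x])) (Function.update a x q) v =
      Φ r ω a v := fun v hv => by
    simp only [Φ, Function.update_of_ne (mem_erase.1 hv).1, mp v hv]
  have e2 : Φ r (Function.update ω x (ω w ++ [x])) (Function.update a x q) x =
      some ((ω w).map a ++ [q]) := by simp [Φ, xr, mp w hw']
  have key : ∀ v ∈ W.erase x, some ((ω w).map a ++ [q]) ≠ Φ r ω a v ∧
      (G.Adj x v ↔ U0.Adj (some ((ω w).map a ++ [q])) (Φ r ω a v)) := by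
    intro v hv
    have lt : ∀ b ∈ (ω v).map a, b < q := fun b hb => by
      obtain ⟨u, hu, rfl⟩ := List.mem_map.1 hb
      exact big u ((hω v hv).2 u hu).1
    have j := hΦ w hw' v hv
    by_cases t : v = w
    · subst t
      simp [Φ, wr, U0, adjO, app_self, hq, k2]
    rw [k1 v (mem_erase.1 hv).2 (mem_erase.1 hv).1 t, j.2]
    by_cases t' : v = r
    · simp [Φ, wr, t', U0, adjO, np_app, hq]
    simp only [Φ, wr, t', if_false, U0, adjO, Option.some.injEq, ne_eq] at j ⊢
    refine ⟨fun e => (lt q (by simp [← e])).false, ?_⟩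
    rw [app q _ _ lt fun e => t (j.1 e.symm).symm, hq]
  have cs : ∀ v ∈ W, v = x ∨ v ∈ W.erase x := fun v hv => by simp [hv, em]
  refine ⟨Function.update ω x (ω w ++ [x]), Function.update a x q, fun u hu v hv e => ?_,
    fun v hv => ?_, fun u hu v hv => ?_⟩
  · rcases cs u hu with rfl | hu <;> rcases cs v hv with rfl | hv
    · rfl
    · simp only [Function.update_self, Function.update_of_ne (mem_erase.1 hv).1] at e
      exact absurd e (big v hv).ne'
    · simp only [Function.update_self, Function.update_of_ne (mem_erase.1 hu).1] at e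
      exact absurd e (big u hu).ne
    · simp only [Function.update_of_ne (mem_erase.1 hu).1,
        Function.update_of_ne (mem_erase.1 hv).1] at e
      exact ia hu hv e
  · rcases cs v hv with rfl | hv'
    · have := hω w hw'
      simp only [Function.update_self, List.length_append, List.length_singleton, List.mem_append,
        List.mem_singleton]
      refine ⟨by omega, ?_⟩
      rintro u (hu | rfl)
      · exact ⟨mem_of_mem_erase (this.2 u hu).1, (this.2 u hu).2.trans l.le⟩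
      · exact ⟨hv, le_rfl⟩
    · rw [Function.update_of_ne (mem_erase.1 hv').1]
      exact ⟨(hω v hv').1, fun u hu => ⟨mem_of_mem_erase ((hω v hv').2 u hu).1,
        ((hω v hv').2 u hu).2⟩⟩
  · rcases cs u hu with rfl | hu <;> rcases cs v hv with rfl | hv
    · simp
    · rw [e2, e1 v hv]; exact ⟨fun e => absurd e (key v hv).1, (key v hv).2⟩
    · rw [e2, e1 u hu, G.adj_comm, U0.adj_comm]
      exact ⟨fun e => absurd e.symm (key u hu).1, (key u hu).2⟩
    · rw [e1 u hu, e1 v hv]; exact hΦ u hu v hv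

theorem cong {a A : V → ℚ} {S : V → Prop} (h1 : ∀ p q, S p → S q → (a p < a q ↔ A p < A q))
    (h2 : ∀ p, S p → τ (a p) = τ (A p)) :
    (∀ x : List V, (∀ p ∈ x, S p) → (np (x.map a) ↔ np (x.map A))) ∧
    ∀ x y : List V, (∀ p ∈ x, S p) → (∀ p ∈ y, S p) →
      (x.map a = y.map a ↔ x.map A = y.map A) ∧ (adjL (x.map a) (y.map a) ↔
        adjL (x.map A) (y.map A)) := by
  have n : ∀ x : List V, (∀ p ∈ x, S p) → (np (x.map a) ↔ np (x.map A)) := fun x hx => by
    simp only [np, List.forall_mem_map]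
    exact forall₂_congr fun p hp => by rw [h2 p (hx p hp)]
  refine ⟨n, fun x => ?_⟩
  induction x with
  | nil =>
    rintro (_ | ⟨q, y⟩) - hy
    · simp
    · rw [List.forall_mem_cons] at hy
      simp [adjL, h2 q hy.1, n y hy.2]
  | cons p x ih =>
    rintro (_ | ⟨q, y⟩) hx hy <;> rw [List.forall_mem_cons] at hx
    · simp [adjL, h2 p hx.1, n x hx.2]
    rw [List.forall_mem_cons] at hy
    have e : a p = a q ↔ A p = A q := by
      simp only [le_antisymm_iff, ← not_lt, h1 p q hx.1 hy.1, h1 q p hy.1 hx.1]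
    simp only [List.map_cons, List.cons.injEq, adjL, np_cons, e, h1 p q hx.1 hy.1,
      h1 q p hy.1 hx.1, h2 p hx.1, h2 q hy.1, n x hx.2, n y hy.2, (ih y hx.2 hy.2).1,
      (ih y hx.2 hy.2).2, and_self]

theorem ulim {β : Type} (F : Ultrafilter ℕ) {g : ℕ → β} {s : Set β} (hs : s.Finite)
    (h : ∀ᶠ N in F, g N ∈ s) : ∃ b, ∀ᶠ N in F, g N = b := by
  obtain ⟨b, -, e⟩ := (F.map g).eq_pure_of_finite_mem hs h
  exact ⟨b, show {b} ∈ F.map g by simp [e]⟩

theorem lists_finite {s : Set V} (hs : s.Finite) (n : ℕ) :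
    {l : List V | l.length ≤ n ∧ ∀ u ∈ l, u ∈ s}.Finite := by
  have := hs.to_subtype
  refine ((List.finite_length_le s n).image (List.map Subtype.val)).subset fun l hl => ?_
  exact ⟨l.attachWith _ hl.2, by simpa using hl.1, by simp⟩

theorem comp_rep [Countable V] (h : IP G) (r : V) : ∃ φ : V → Option (List ℚ),
    ∀ u v, G.Reachable r u → G.Reachable r v →
      (φ u = φ v → u = v) ∧ (G.Adj u v ↔ U0.Adj (φ u) (φ v)) := by
  classical
  obtain ⟨ρ, hρ, hp⟩ : ∃ ρ : V → ℕ, Set.InjOn ρ {v | G.Reachable r v} ∧ ∀ v, G.Reachable r v →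
      v ≠ r → ∃ u, G.Reachable r u ∧ G.Adj v u ∧ ρ u < ρ v := by
    obtain ⟨enc, he⟩ := exists_injective_nat V
    have : ∀ v, ∃ u, ∀ k, G.dist r v = k + 1 → G.Adj v u ∧ G.dist r u = k ∧ G.Reachable r u := by
      intro v
      rcases e : G.dist r v with _ | k
      · exact ⟨v, by simp⟩
      · obtain ⟨u, hu⟩ := pred e
        exact ⟨u, fun j t => by rwa [show j = k by omega]⟩
    choose p hp using this
    let f : ℕ → V → ℕ := fun k => k.rec (fun _ => 0) fun _ g v => (g (p v)).pair (enc v) + 1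
    refine ⟨fun v => f (G.dist r v) v, fun u hu v hv e => ?_, fun v hv n => ?_⟩
    · rcases e1 : G.dist r u with _ | k <;> rcases e2 : G.dist r v with _ | j <;>
        simp only [e1, e2, f] at e
      · exact (hu.dist_eq_zero_iff.1 e1).symm.trans (hv.dist_eq_zero_iff.1 e2)
      · exact absurd e.symm (Nat.succ_ne_zero _)
      · exact absurd e (Nat.succ_ne_zero _)
      · exact he (Nat.pair_eq_pair.1 (Nat.succ.inj e)).2
    · rcases e : G.dist r v with _ | k
      · exact absurd (hv.dist_eq_zero_iff.1 e).symm n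
      · obtain ⟨a, b, c⟩ := hp v k e
        exact ⟨p v, c, a, by
          simp only [b, e]; exact Nat.lt_succ_of_le (Nat.left_le_pair _ _)⟩
  have fin : ∀ N, {v | G.Reachable r v ∧ ρ v ≤ N}.Finite := fun N =>
    .of_injOn (t := Set.Iic N) (fun v hv => hv.2) (hρ.mono fun v hv => hv.1) (Set.finite_Iic N)
  have rep := fun N => finite_rep h r ρ (fin (ρ r + N)).toFinset (by simp)
    (hρ.mono fun v hv => by simp at hv; exact hv.1) fun v hv n => by
      simp only [Set.Finite.mem_toFinset, Set.mem_ofPred_eq] at hv ⊢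
      obtain ⟨u, a, b, c⟩ := hp v hv.1 n
      exact ⟨u, ⟨a, by omega⟩, b, c⟩
  choose ω a ia hω hΦ using rep
  set F := hyperfilter ℕ
  have ev : ∀ v, G.Reachable r v → ∀ᶠ N in F, v ∈ (fin (ρ r + N)).toFinset := fun v hv =>
    Nat.hyperfilter_le_atTop ((eventually_ge_atTop (ρ v)).mono fun N hN => by
      simp only [Set.Finite.mem_toFinset, Set.mem_ofPred_eq]; exact ⟨hv, by omega⟩)
  have l1 : ∀ v, ∃ l, G.Reachable r v → ∀ᶠ N in F, ω N v = l := fun v => by
    by_cases hv : G.Reachable r v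
    · obtain ⟨l, hl⟩ := ulim F (g := fun N => ω N v) (lists_finite (fin (ρ v)) (ρ v))
        ((ev v hv).mono fun N hN => ⟨(hω N v hN).1, fun u hu =>
          ⟨((fin _).mem_toFinset.1 ((hω N v hN).2 u hu).1).1, ((hω N v hN).2 u hu).2⟩⟩)
      exact ⟨l, fun _ => hl⟩
    · exact ⟨[], fun t => absurd t hv⟩
  choose Ω hΩ using l1
  have l2 := fun v => ulim F (g := fun N => τ (a N v)) Set.finite_univ (by simp)
  choose t ht using l2
  let _ : LinearOrder {v // G.Reachable r v} := LinearOrder.lift'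
    (fun v => ((fun N => a N v : ℕ → ℚ) : Germ (F : Filter ℕ) ℚ)) fun u v e => by
      obtain ⟨N, h1, h2, h3⟩ := ((Germ.coe_eq.1 e).and ((ev u u.2).and (ev v v.2))).exists
      exact Subtype.ext (ia N h2 h3 h1)
  have : Nonempty {v // G.Reachable r v} := ⟨⟨r, .refl _⟩⟩
  obtain ⟨A, hA, hA'⟩ := exists_emb fun v : {v // G.Reachable r v} => t v
  set B : V → ℚ := fun v => if hv : G.Reachable r v then A ⟨v, hv⟩ else 0 with hB
  have o1 : ∀ p q, G.Reachable r p → G.Reachable r q →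
      ∀ᶠ N in F, (a N p < a N q ↔ B p < B q) := fun p q h1 h2 => by
    have : B p < B q ↔ ∀ᶠ N in F, a N p < a N q := by
      simp only [hB, dif_pos h1, dif_pos h2, hA.lt_iff_lt]
      exact Germ.coe_lt
    by_cases c : B p < B q
    · exact (this.1 c).mono fun N hN => iff_of_true hN c
    · exact (Ultrafilter.eventually_not.2 (mt this.2 c)).mono fun N hN => iff_of_false hN c
  refine ⟨Φ r Ω B, fun u v hu hv => ?_⟩
  have fs := fin (ρ u + ρ v)
  have o2 : ∀ᶠ N in F, ∀ p ∈ {w | G.Reachable r w ∧ ρ w ≤ ρ u + ρ v}, τ (a N p) = τ (B p) ∧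
      ∀ q ∈ {w | G.Reachable r w ∧ ρ w ≤ ρ u + ρ v}, (a N p < a N q ↔ B p < B q) :=
    (eventually_all_finite fs).2 fun p hp => ((ht p).mono fun N hN => by
      rw [hN, hB]; simp only [dif_pos hp.1, hA']).and
      ((eventually_all_finite fs).2 fun q hq => o1 p q hp.1 hq.1)
  obtain ⟨N, o2, ⟨m1, m2⟩, w1, w2⟩ := (o2.and (((ev u hu).and (ev v hv)).and
    ((hΩ u hu).and (hΩ v hv)))).exists
  obtain ⟨c1, c2⟩ := cong (a := a N) (A := B) (fun p q hp hq => (o2 p hp).2 q hq)
    fun p hp => (o2 p hp).1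
  have s1 : ∀ p ∈ Ω u, G.Reachable r p ∧ ρ p ≤ ρ u + ρ v := fun p hp => by
    have := (hω N u m1).2 p (w1 ▸ hp)
    exact ⟨((fin _).mem_toFinset.1 this.1).1, by omega⟩
  have s2 : ∀ p ∈ Ω v, G.Reachable r p ∧ ρ p ≤ ρ u + ρ v := fun p hp => by
    have := (hω N v m2).2 p (w2 ▸ hp)
    exact ⟨((fin _).mem_toFinset.1 this.1).1, by omega⟩
  have := hΦ N u m1 v m2
  by_cases e1 : u = r <;> by_cases e2 : v = r <;>
    simp only [Φ, e1, e2, if_true, if_false, w1, w2, U0, adjO, Option.some.injEq,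
      reduceCtorEq] at this ⊢
  · exact this
  · rwa [← c1 _ s2]
  · rwa [← c1 _ s1]
  · rwa [← (c2 _ _ s1 s2).1, ← (c2 _ _ s1 s2).2]

theorem univ_emb [Countable V] (h : IsDH G) : Nonempty (G ↪g U) := by
  choose φ hφ using comp_rep (ip_of_dh h)
  obtain ⟨enc, he⟩ := exists_injective_nat V
  let ro : V → V := fun v => (G.connectedComponentMk v).out
  have r1 : ∀ v, G.Reachable (ro v) v := fun v =>
    SimpleGraph.ConnectedComponent.exact (Quot.out_eq _)
  have r2 : ∀ u v, G.Adj u v → ro u = ro v := fun u v a => by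
    simp only [ro, SimpleGraph.ConnectedComponent.sound a.reachable]
  refine ⟨⟨⟨fun v => (enc (ro v), φ (ro v) v), fun u v e => ?_⟩, fun {u v} => ⟨fun e => ?_,
    fun j => ⟨congrArg enc (r2 u v j), ?_⟩⟩⟩⟩
  · have e1 := he (congrArg Prod.fst e)
    exact (hφ _ u v (r1 u) (e1 ▸ r1 v)).1 ((congrArg Prod.snd e).trans (by simp only [e1]))
  · have e1 : ro u = ro v := he e.1
    have e2 : U0.Adj (φ (ro u) u) (φ (ro v) v) := e.2
    exact (hφ _ u v (r1 u) (e1 ▸ r1 v)).2.2 (by rwa [← e1] at e2)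
  · change U0.Adj (φ (ro u) u) (φ (ro v) v)
    rw [← r2 u v j]
    exact (hφ _ u v (r1 u) (r2 u v j ▸ r1 v)).2.1 j

end Pool.Agent.H31.DH
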