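import Mathlib

set_option autoImplicit false
open PowerSeries Finset Filter

namespace Pool.Agent.H31.DL

/-- Species trees. -/
inductive T
  | leaf : T
  | node : T → T → T

/-- The number of leaves. -/
def size : T → ℕ
  | .leaf => 1
  | .node l t => size l + size t

/-- Balanced trees. -/
def Balanced : T → Prop
  | .leaf => True
  | .node l t => Balanced l ∧ Balanced t ∧ size l ≤ size t + 1 ∧ size t ≤ size l + 1

/-- The caterpillar with `k` leaves, `k ≥ 1`. -/
def CT : ℕ → T
  | k + 2 => .node (CT (k + 1)) .leaf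
  | _ => .leaf

/-- The series of `(1 - sqrt (1 - 4 z)) / 2`, that is the sum of `catalan n * z ^ (n + 1)`. -/
noncomputable def B : ℝ⟦X⟧ := X * PowerSeries.mk fun n => (catalan n : ℝ)

/-- The generating function of histories at the root. -/
noncomputable def H : T → ℝ⟦X⟧
  | .leaf => B
  | .node l t => B.subst (H l * H t + H l + H t)

theorem hB : B = X + B * B := by
  have := congrArg (PowerSeries.map (Nat.castRingHom ℝ)) catalanSeries_sq_mul_X_add_one
  rw [map_add, map_mul, map_pow, map_X, map_one, show PowerSeries.map (Nat.castRingHom ℝ) catalanSeries =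
    PowerSeries.mk fun n => (catalan n : ℝ) by ext; simp] at this
  rw [B]; linear_combination (-X) * this

noncomputable def W : T → ℝ⟦X⟧
  | .leaf => X
  | .node l t => H l * H t + H l + H t

theorem c0 : ∀ S, constantCoeff (H S) = 0
  | .leaf => by simp [H, B]
  | .node l t => constantCoeff_subst_eq_zero (by
      show constantCoeff _ = 0
      simp [c0 l, c0 t]) _ (by simp [B])

theorem hH : ∀ S, H S = W S + H S * H S
  | .leaf => hB
  | .node l t => by
    have h : HasSubst (H l * H t + H l + H t) := .of_constantCoeff_zero' (by simp [c0])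
    conv_lhs => rw [H, hB, subst_add h, subst_mul h, subst_X h]
    rfl

def NN (P : ℝ⟦X⟧) : Prop := ∀ n, 0 ≤ coeff n P
def Ev (P : ℝ⟦X⟧) (r x : ℝ) : Prop := HasSum (fun n => coeff n P * r ^ n) x

theorem NN.mul {P Q : ℝ⟦X⟧} (a : NN P) (b : NN Q) : NN (P * Q) := fun n => by
  rw [coeff_mul]; exact sum_nonneg fun _ _ => mul_nonneg (a _) (b _)
theorem NN.add {P Q : ℝ⟦X⟧} (a : NN P) (b : NN Q) : NN (P + Q) := fun n => by
  rw [map_add]; exact add_nonneg (a _) (b _)

theorem nn0 {S : T} (h : NN (W S)) : NN (H S) := fun n => by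
  induction n using Nat.strong_induction_on with
  | _ n ih =>
    rw [hH, map_add, coeff_mul]
    refine add_nonneg (h n) (sum_nonneg fun p hp => ?_)
    have := mem_antidiagonal.mp hp
    by_cases a : p.1 = 0
    · simp [a, c0]
    by_cases b : p.2 = 0
    · simp [b, c0]
    exact mul_nonneg (ih _ (by omega)) (ih _ (by omega))

theorem nn : ∀ S, NN (W S)
  | .leaf => fun n => by rw [W, coeff_X]; split_ifs <;> norm_num
  | .node l t => (((nn0 (nn l)).mul (nn0 (nn t))).add (nn0 (nn l))).add (nn0 (nn t))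

theorem nH (S : T) : NN (H S) := nn0 (nn S)

variable {r : ℝ}

theorem cm (P Q : ℝ⟦X⟧) (n : ℕ) : coeff n (P * Q) * r ^ n =
    ∑ p ∈ antidiagonal n, coeff p.1 P * r ^ p.1 * (coeff p.2 Q * r ^ p.2) := by
  rw [coeff_mul, sum_mul]
  exact sum_congr rfl fun p hp => by rw [← mem_antidiagonal.mp hp]; ring

theorem Ev.mul {P Q : ℝ⟦X⟧} {x y : ℝ} (a : Ev P r x) (b : Ev Q r y) : Ev (P * Q) r (x * y) := by
  rw [Ev, funext (cm P Q), ← a.tsum_eq, ← b.tsum_eq,
    tsum_mul_tsum_eq_tsum_sum_antidiagonal_of_summable_norm a.summable.norm b.summable.norm]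
  exact (summable_norm_sum_mul_antidiagonal_of_summable_norm a.summable.norm b.summable.norm).of_norm.hasSum

theorem Ev.add {P Q : ℝ⟦X⟧} {x y : ℝ} (a : Ev P r x) (b : Ev Q r y) : Ev (P + Q) r (x + y) := by
  simpa [Ev, add_mul] using HasSum.add a b

theorem Ev.nn {P : ℝ⟦X⟧} {x : ℝ} (a : Ev P r x) (h : NN P) (hr : 0 ≤ r) : 0 ≤ x :=
  HasSum.nonneg (fun n => mul_nonneg (h n) (pow_nonneg hr n)) a

theorem evX : Ev X r r := by
  rw [Ev, show (fun n => coeff n (X : ℝ⟦X⟧) * r ^ n) = fun n => if n = 1 then r else 0 from funext fun n => by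
    rw [coeff_X]; split_ifs with e <;> simp [e]]
  exact hasSum_ite_eq 1 r

theorem down {P Q : ℝ⟦X⟧} {x : ℝ} (a : Ev (P + Q) r x) (p : NN P) (q : NN Q) (hr : 0 ≤ r) : ∃ y, Ev P r y :=
  Summable.of_nonneg_of_le (fun n => mul_nonneg (p n) (pow_nonneg hr n))
    (fun n => mul_le_mul_of_nonneg_right (by simpa using q n) (pow_nonneg hr n)) a.summable

theorem up {S : T} {w y : ℝ} (hr : 0 ≤ r) (h : Ev (W S) r w) (y0 : 0 ≤ y) (hy : w ≤ y - y * y) :
    ∃ x ≤ y, Ev (H S) r x := by
  have p : ∀ n, 0 ≤ coeff n (H S) * r ^ n := fun n => mul_nonneg (nH S n) (pow_nonneg hr n)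
  have s : ∀ N, ∑ n ∈ range N, coeff n (H S) * r ^ n ≤ y := fun N => by
    induction N with
    | zero => simpa
    | succ N ih =>
      have a := sum_le_hasSum (range (N + 1)) (fun n _ => mul_nonneg (nn S n) (pow_nonneg hr n)) h
      have b : ∑ n ∈ range (N + 1), coeff n (H S * H S) * r ^ n ≤
          (∑ n ∈ range N, coeff n (H S) * r ^ n) * ∑ n ∈ range N, coeff n (H S) * r ^ n := by
        rw [sum_congr rfl fun n _ => cm _ _ n, sum_mul_sum, ← sum_product', ← sum_biUnion fun i _ j _ e =>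
          disjoint_left.mpr fun p a b => e ((mem_antidiagonal.mp a).symm.trans (mem_antidiagonal.mp b)),
          ← sum_filter_ne_zero]
        refine sum_le_sum_of_subset_of_nonneg (fun q hq => ?_) fun _ _ _ => mul_nonneg (p _) (p _)
        simp only [mem_filter, mem_biUnion, mem_range, HasAntidiagonal.mem_antidiagonal, mem_product] at hq ⊢
        obtain ⟨⟨n, u, v⟩, z⟩ := hq
        have : q.1 ≠ 0 := fun e => z (by simp [e, c0])
        have : q.2 ≠ 0 := fun e => z (by simp [e, c0])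
        omega
      have c := mul_self_le_mul_self (sum_nonneg fun n _ => p n) ih
      rw [hH]; simp only [map_add, add_mul, sum_add_distrib]; linarith
  have := summable_of_sum_range_le p s
  exact ⟨_, Real.tsum_le_of_sum_range_le p s, this.hasSum⟩

theorem dec {S : T} {x : ℝ} (hr : 0 ≤ r) (h : Ev (H S) r x) : ∃ w, Ev (W S) r w ∧ x = w + x * x ∧ 0 ≤ x ∧ x ≤ 1 := by
  obtain ⟨w, hw⟩ := down (hH S ▸ h : Ev (W S + H S * H S) r x) (nn S) ((nH S).mul (nH S)) hr
  have e : x = w + x * x := HasSum.unique h (by have := hw.add (h.mul h); rwa [← hH] at this)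
  have := hw.nn (nn S) hr
  exact ⟨w, hw, e, h.nn (nH S) hr, by nlinarith⟩

theorem dec2 {l t : T} {x : ℝ} (hr : 0 ≤ r) (h : Ev (H (.node l t)) r x) :
    ∃ y z, Ev (H l) r y ∧ Ev (H t) r z ∧ x = y * z + y + z + x * x := by
  obtain ⟨w, hw, e, -⟩ := dec hr h
  obtain ⟨y, hy⟩ := down (show Ev (H l + (H l * H t + H t)) r w by rwa [add_left_comm, ← add_assoc]) (nH l)
    (((nH l).mul (nH t)).add (nH t)) hr
  obtain ⟨z, hz⟩ := down (show Ev (H t + (H l * H t + H l)) r w by rwa [add_comm]) (nH t)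
    (((nH l).mul (nH t)).add (nH l)) hr
  exact ⟨y, z, hy, hz, by rwa [← HasSum.unique hw (((hy.mul hz).add hy).add hz)]⟩

theorem low (hr : 0 ≤ r) : ∀ {S : T} {x : ℝ}, Ev (H S) r x → size S * r ≤ x
  | .leaf, x, h => by
    obtain ⟨w, hw, e, -⟩ := dec hr h
    rw [HasSum.unique hw evX] at e
    simp only [size, Nat.cast_one]; nlinarith
  | .node l t, x, h => by
    obtain ⟨y, z, a, b, e⟩ := dec2 hr h
    have := mul_nonneg (a.nn (nH l) hr) (b.nn (nH t) hr)
    simp only [size, Nat.cast_add]; nlinarith [low hr a, low hr b]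

theorem sp : ∀ S, 1 ≤ size S
  | .leaf => le_rfl
  | .node l _ => le_add_right (sp l)

theorem sz : ∀ k, size (CT (k + 1)) = k + 1
  | 0 => rfl
  | k + 1 => congrArg (· + 1) (sz k)

end Pool.Agent.H31.DL
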