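import Mathlib

set_option autoImplicit false
open SimpleGraph

namespace Pool.Agent.H31.DMSatDefs

/-- The degree of a vertex. -/
noncomputable def dg {V : Type} (G : SimpleGraph V) (v : V) : ℕ := (G.neighborSet v).ncard

/-- `G` has a degree monotone path with `m` vertices. -/
def HasP {V : Type} (G : SimpleGraph V) (m : ℕ) : Prop :=
  ∃ p : Fin m → V, Function.Injective p ∧ (∀ i j : Fin m, i.val + 1 = j.val → G.Adj (p i) (p j)) ∧
    (Monotone (fun i => dg G (p i)) ∨ Antitone (fun i => dg G (p i)))

/-- The largest number of vertices of a degree monotone path. -/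
noncomputable def mp {V : Type} (G : SimpleGraph V) : ℕ := sSup {m | HasP G m}

/-- `k`-saturated graphs. -/
def Sat {V : Type} (G : SimpleGraph V) (k : ℕ) : Prop :=
  mp G < k ∧ ∀ x y, x ≠ y → ¬ G.Adj x y → k ≤ mp (G ⊔ edge x y)

/-- The least number of edges of a `k`-saturated graph on `n` vertices. -/
noncomputable def h (n k : ℕ) : ℕ :=
  sInf {e | ∃ G : SimpleGraph (Fin n), Sat G k ∧ G.edgeSet.ncard = e}

end Pool.Agent.H31.DMSatDefs
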