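import Mathlib
import Pool.Agent.H31.DMSatDefs

set_option autoImplicit false
open SimpleGraph Finset Pool.Agent.H31.DMSatDefs

namespace Pool.Agent.H31.DMSat

variable {V U : Type} {k : ℕ}

def Ch (G : SimpleGraph V) (w : V → ℕ) (m : ℕ) (p : ℕ → V) : Prop :=
  (∀ i j, i < j → j < m → p i ≠ p j) ∧ ∀ i, i + 1 < m → G.Adj (p i) (p (i + 1)) ∧ w (p i) ≤ w (p (i + 1))

def Good (G : SimpleGraph V) (k : ℕ) (x : V) : Prop :=
  ∀ w : V → ℕ, w x = dg G x + 1 → (∀ v, G.Adj x v → w v = dg G v) →
    (∀ v, dg G v ≤ w v ∧ w v ≤ dg G v + 1) → ∃ p, Ch G w k p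

def End (G : SimpleGraph V) (k : ℕ) (x : V) : Prop :=
  ∃ p, Ch G (dg G) (k - 1) p ∧ p (k - 2) = x ∧ ∀ i < k - 2, G.Adj x (p i) ∨ Good G k (p i)

def P (G : SimpleGraph V) (k : ℕ) : Prop :=
  (∀ p, ¬ Ch G (dg G) k p) ∧ ∀ x, Good G k x ∨ End G k x

theorem hasP_of {G : SimpleGraph V} {p : ℕ → V} (h : Ch G (dg G) k p) : HasP G k := by
  refine ⟨fun i => p i, fun a b e => ?_, fun i j e => ?_, Or.inl fun a b l => ?_⟩
  · rcases lt_trichotomy a b with l | l | l
    exacts [absurd e (h.1 _ _ l b.2), l, absurd e.symm (h.1 _ _ l a.2)]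
  · have := (h.2 i (e ▸ j.2)).1
    rwa [e] at this
  · have : ∀ d, a.val + d < k → dg G (p a) ≤ dg G (p (a + d)) := by
      intro d
      induction d with
      | zero => simp
      | succ d ih => exact fun c => (ih (by omega)).trans (h.2 _ c).2
    have l' : a.val ≤ b.val := l
    have := this (b - a) (by omega)
    rwa [show a.val + (b - a) = b by omega] at this

theorem of_hasP {G : SimpleGraph V} {m : ℕ} (h : HasP G m) (hk : 0 < k) (km : k ≤ m) :
    ∃ p, Ch G (dg G) k p := by
  obtain ⟨p, h1, h2, h3 | h3⟩ := h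
  · refine ⟨fun i => p ⟨min i (m - 1), by omega⟩, fun i j a b e => ?_, fun i a => ⟨h2 _ _ ?_, h3 ?_⟩⟩
    · have := congrArg Fin.val (h1 e); simp only at this; omega
    · simp only; omega
    · simp only [Fin.mk_le_mk]; omega
  · refine ⟨fun i => p ⟨m - 1 - i, by omega⟩, fun i j a b e => ?_, fun i a => ⟨(h2 _ _ ?_).symm, h3 ?_⟩⟩
    · have := congrArg Fin.val (h1 e); simp only at this; omega
    · simp only; omega
    · simp only [Fin.mk_le_mk]; omega

theorem bdd [Fintype V] (G : SimpleGraph V) : BddAbove {m | HasP G m} :=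
  ⟨Fintype.card V, fun m ⟨p, h, _⟩ => by simpa using Fintype.card_le_of_injective p h⟩

theorem dg_sup [Fintype V] {G : SimpleGraph V} {x y : V} (xy : x ≠ y) (n : ¬ G.Adj x y) :
    dg (G ⊔ edge x y) x = dg G x + 1 ∧ ∀ v, v ≠ x → v ≠ y → dg (G ⊔ edge x y) v = dg G v := by
  constructor
  · have : (G ⊔ edge x y).neighborSet x = insert y (G.neighborSet x) := by
      ext v; simp only [mem_neighborSet, sup_adj, edge_adj, Set.mem_insert_iff]; grind
    rw [dg, this, Set.ncard_insert_of_notMem (s := G.neighborSet x) n]; rfl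
  · intro v a b
    have : (G ⊔ edge x y).neighborSet v = G.neighborSet v := by
      ext v; simp only [mem_neighborSet, sup_adj, edge_adj]; grind
    rw [dg, this]; rfl

theorem sat_of [Fintype V] {G : SimpleGraph V} (hk : 2 ≤ k) (h : P G k) : Sat G k := by
  classical
  constructor
  · by_contra c
    have : HasP G (mp G) := Nat.sSup_mem (s := {m | HasP G m})
      ⟨0, Fin.elim0, fun a => a.elim0, fun a => a.elim0, Or.inl fun a => a.elim0⟩ (bdd G)
    obtain ⟨p, hp⟩ := of_hasP this (by omega) (not_lt.mp c)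
    exact h.1 p hp
  have g : ∀ x y, x ≠ y → ¬ G.Adj x y → Good G k x → k ≤ mp (G ⊔ edge x y) := by
    intro x y xy n g
    have a := dg_sup xy n
    have b := (dg_sup xy.symm fun a => n a.symm).1
    rw [edge_comm] at b
    obtain ⟨p, hp⟩ := g (dg (G ⊔ edge x y)) a.1 (fun v c => a.2 v c.ne' (by rintro rfl; exact n c))
      fun v => by
        by_cases c : v = x
        · rw [c]; omega
        by_cases d : v = y
        · rw [d]; omega
        rw [a.2 v c d]; omega
    exact le_csSup (bdd _) (hasP_of (p := p) ⟨hp.1, fun i c => ⟨Or.inl (hp.2 i c).1, (hp.2 i c).2⟩⟩)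
  intro x y xy n
  wlog l : dg G x ≤ dg G y generalizing x y
  · rw [edge_comm]; exact this y x xy.symm (fun a => n a.symm) (by omega)
  by_cases gy : Good G k y
  · rw [edge_comm]; exact g y x xy.symm (fun a => n a.symm) gy
  rcases h.2 x with gx | ⟨p, ⟨p1, p2⟩, p3, p4⟩
  · exact g x y xy n gx
  have a := dg_sup xy n
  have b := (dg_sup xy.symm fun a => n a.symm).1
  rw [edge_comm] at b
  have ny : ∀ i < k - 1, p i ≠ y := by
    intro i hi e
    rcases (show i < k - 2 ∨ i = k - 2 by omega) with c | rfl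
    · rcases p4 i c with d | d <;> rw [e] at d <;> contradiction
    · exact xy (p3.symm.trans e)
  refine le_csSup (bdd _) (hasP_of (p := fun i => if i < k - 1 then p i else y)
    ⟨fun i j a b => ?_, fun i c => ?_⟩)
  · beta_reduce
    rw [if_pos (show i < k - 1 by omega)]
    split_ifs with c
    exacts [p1 _ _ a c, ny _ (by omega)]
  · beta_reduce
    rw [if_pos (show i < k - 1 by omega)]
    split_ifs with d
    · refine ⟨Or.inl (p2 i d).1, ?_⟩
      have := (p2 i d).2
      rw [a.2 _ (p3 ▸ p1 _ _ (by omega) (by omega)) (ny _ (by omega))]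
      by_cases e : p (i + 1) = x
      · rw [e] at this ⊢; omega
      · rwa [a.2 _ e (ny _ d)]
    · rw [show i = k - 2 by omega, p3]
      exact ⟨Or.inr ((edge_adj ..).mpr ⟨Or.inl ⟨rfl, rfl⟩, xy⟩), by omega⟩

structure Op (H : SimpleGraph U) (G : SimpleGraph V) (f : U → V) : Prop where
  inj : Function.Injective f
  adj : ∀ a b, G.Adj (f a) (f b) ↔ H.Adj a b
  cl : ∀ a z, G.Adj (f a) z → ∃ b, f b = z

theorem Op.dg_eq {H : SimpleGraph U} {G : SimpleGraph V} {f : U → V} (o : Op H G f) (a : U) :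
    dg G (f a) = dg H a := by
  have : G.neighborSet (f a) = f '' H.neighborSet a := by
    ext z
    constructor
    · intro h
      obtain ⟨b, rfl⟩ := o.cl a z h
      exact ⟨b, (o.adj _ _).mp h, rfl⟩
    · rintro ⟨b, h, rfl⟩; exact (o.adj _ _).mpr h
  rw [dg, this, Set.ncard_image_of_injective _ o.inj]; rfl

theorem Op.good {H : SimpleGraph U} {G : SimpleGraph V} {f : U → V} (o : Op H G f) {a : U}
    (g : Good H k a) : Good G k (f a) := by
  intro w w1 w2 w3
  obtain ⟨p, p1, p2⟩ := g (w ∘ f) (by simpa [o.dg_eq] using w1)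
    (fun v c => by simpa [o.dg_eq] using w2 _ ((o.adj _ _).mpr c))
    fun v => by simpa [o.dg_eq] using w3 (f v)
  exact ⟨f ∘ p, fun i j a b => o.inj.ne (p1 i j a b), fun i c => ⟨(o.adj _ _).mpr (p2 i c).1, (p2 i c).2⟩⟩

theorem P.cover {G : SimpleGraph V}
    (h : ∀ z, ∃ (U : Type) (H : SimpleGraph U) (f : U → V) (a : U), Op H G f ∧ P H k ∧ f a = z) :
    P G k := by
  classical
  refine ⟨fun p ⟨p1, p2⟩ => ?_, fun z => ?_⟩
  · obtain ⟨U, H, f, a, o, hp, e⟩ := h (p 0)
    have : ∀ i, ∃ b, i < k → f b = p i := by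
      intro i
      induction i with
      | zero => exact ⟨a, fun _ => e⟩
      | succ i ih =>
        by_cases c : i + 1 < k
        · obtain ⟨b, hb⟩ := ih
          obtain ⟨d, hd⟩ := o.cl b _ (hb (by omega) ▸ (p2 i c).1)
          exact ⟨d, fun _ => hd⟩
        · exact ⟨a, fun d => absurd d c⟩
    choose q hq using this
    refine hp.1 q ⟨fun i j a b e => p1 i j a b (by rw [← hq i (by omega), ← hq j b, e]), fun i c => ?_⟩
    rw [← o.adj, ← o.dg_eq, ← o.dg_eq, hq i (by omega), hq _ c]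
    exact p2 i c
  · obtain ⟨U, H, f, a, o, hp, rfl⟩ := h z
    rcases hp.2 a with g | ⟨p, ⟨p1, p2⟩, p3, p4⟩
    · exact Or.inl (o.good g)
    · refine Or.inr ⟨f ∘ p, ⟨fun i j a b => o.inj.ne (p1 i j a b), fun i c => ?_⟩, congrArg f p3,
        fun i c => (p4 i c).imp (o.adj _ _).mpr o.good⟩
      simpa [o.adj, o.dg_eq] using p2 i c

def Q (k n e : ℕ) : Prop :=
  ∃ (V : Type) (_ : Fintype V) (G : SimpleGraph V), Fintype.card V = n ∧ P G k ∧ G.edgeSet.ncard ≤ e

theorem Q.add {n e n' e' : ℕ} (a : Q k n e) (b : Q k n' e') : Q k (n + n') (e + e') := by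
  obtain ⟨V, _, G, rfl, a1, a2⟩ := a
  obtain ⟨U, _, H, rfl, b1, b2⟩ := b
  refine ⟨V ⊕ U, inferInstance, G ⊕g H, by simp, P.cover ?_, ?_⟩
  · rintro (z | z)
    · refine ⟨V, G, Sum.inl, z, ⟨Sum.inl_injective, by simp, ?_⟩, a1, rfl⟩
      rintro a (b | b) h
      exacts [⟨b, rfl⟩, by simp at h]
    · refine ⟨U, H, Sum.inr, z, ⟨Sum.inr_injective, by simp, ?_⟩, b1, rfl⟩
      rintro a (b | b) h
      exacts [by simp at h, ⟨b, rfl⟩]
  · have : (G ⊕g H).edgeSet ⊆ Sym2.map Sum.inl '' G.edgeSet ∪ Sym2.map Sum.inr '' H.edgeSet := by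
      intro s hs
      induction s using Sym2.ind with
      | h u v =>
        rcases u with u | u <;> rcases v with v | v <;> simp at hs
        exacts [Or.inl ⟨s(u, v), hs, rfl⟩, Or.inr ⟨s(u, v), hs, rfl⟩]
    refine (Set.ncard_le_ncard this (Set.toFinite _)).trans ((Set.ncard_union_le _ _).trans ?_)
    exact add_le_add ((Set.ncard_image_le (Set.toFinite _)).trans a2)
      ((Set.ncard_image_le (Set.toFinite _)).trans b2)

theorem Q.mul {n e : ℕ} (a : Q k n e) (t : ℕ) : Q k (t * n) (t * e) := by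
  induction t with
  | zero =>
    refine ⟨Empty, inferInstance, ⊥, by simp, ⟨fun p => (p 0).elim, fun x => x.elim⟩, by simp⟩
  | succ t ih => rw [Nat.succ_mul, Nat.succ_mul]; exact ih.add a

theorem Q.le {n e : ℕ} (hk : 2 ≤ k) (a : Q k n e) : h n k ≤ e := by
  obtain ⟨V, _, G, c, a1, a2⟩ := a
  let f := Fintype.equivFinOfCardEq c
  refine le_trans (Nat.sInf_le ⟨G.comap f.symm, sat_of hk (P.cover fun z => ⟨V, G, f, f.symm z,
    ⟨f.injective, by simp, fun _ z _ => f.surjective z⟩, a1, by simp⟩), ?_⟩) a2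
  exact Set.ncard_congr' (Iso.comap f.symm G).mapEdgeSet

theorem pigeon [Fintype V] {p : ℕ → V} (h : ∀ i j, i < j → j < k → p i ≠ p j) :
    Function.Injective fun i : Fin k => p i := fun a b e => by
  rcases lt_trichotomy a b with l | l | l
  exacts [absurd e (h _ _ l b.2), l, absurd e.symm (h _ _ l a.2)]

def fn (t i : ℕ) : Fin (t + 1) := ⟨min i t, by omega⟩

theorem clique (t : ℕ) : ∃ e, Q (t + 2) (t + 1) e := by
  refine ⟨_, Fin (t + 1), inferInstance, ⊤, by simp, ⟨fun p hp => ?_, fun x => Or.inr ?_⟩, le_rfl⟩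
  · have := Fintype.card_le_of_injective _ (pigeon hp.1)
    simp at this
  · have d : ∀ v, dg (⊤ : SimpleGraph (Fin (t + 1))) v = t := fun v => by
      rw [dg, neighborSet_top, Set.ncard_compl]; simp
    have inj : ∀ i j, i < j → j < t + 1 → Equiv.swap x (fn t t) (fn t i) ≠
        Equiv.swap x (fn t t) (fn t j) := fun i j a b => (Equiv.injective _).ne (by
      simp only [fn, Ne, Fin.mk.injEq]; omega)
    refine ⟨fun i => Equiv.swap x (fn t t) (fn t i), ⟨inj, fun i c => ⟨inj _ _ (by omega) c, ?_⟩⟩,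
      by simp, fun i c => Or.inl ?_⟩
    · rw [d, d]
    · have := (inj i t c (by omega)).symm
      simpa using this

def Km (t : ℕ) : SimpleGraph (Fin (t + 3)) where
  Adj a b := a ≠ b ∧ ¬ (a.val = 0 ∧ b.val = t + 2) ∧ ¬ (b.val = 0 ∧ a.val = t + 2)
  symm := ⟨fun _ _ h => ⟨h.1.symm, h.2.2, h.2.1⟩⟩
  loopless := ⟨fun _ h => h.1 rfl⟩

theorem Km_adj {t : ℕ} {a b : Fin (t + 3)} : (Km t).Adj a b ↔
    a.val ≠ b.val ∧ ¬ (a.val = 0 ∧ b.val = t + 2) ∧ ¬ (b.val = 0 ∧ a.val = t + 2) := by
  rw [Fin.val_ne_iff]; rfl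

theorem Km_dg {t : ℕ} (v : Fin (t + 3)) : (v.val = 0 ∨ v.val = t + 2 → dg (Km t) v = t + 1) ∧
    (v.val ≠ 0 → v.val ≠ t + 2 → dg (Km t) v = t + 2) := by
  constructor
  · intro h
    have : (Km t).neighborSet v = {0, Fin.last _}ᶜ := by
      ext w
      simp only [mem_neighborSet, Km_adj, Set.mem_compl_iff, Set.mem_insert_iff,
        Set.mem_singleton_iff, Fin.ext_iff, Fin.val_zero, Fin.val_last]
      omega
    rw [dg, this, Set.ncard_compl, Set.ncard_pair (by simp [Fin.ext_iff])]; simp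
  · intro a b
    have : (Km t).neighborSet v = {v}ᶜ := by
      ext w
      simp only [mem_neighborSet, Km_adj, Set.mem_compl_iff, Set.mem_insert_iff,
        Set.mem_singleton_iff, Fin.ext_iff, Fin.val_zero, Fin.val_last]
      omega
    rw [dg, this, Set.ncard_compl]; simp

theorem cliqueMinus (t : ℕ) : ∃ e, Q (t + 3) (t + 3) e := by
  refine ⟨_, Fin (t + 3), inferInstance, Km t, by simp, ⟨fun p hp => ?_, fun x => ?_⟩, le_rfl⟩
  · have s := Finite.injective_iff_surjective.mp (pigeon hp.1)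
    have key : ∀ j : Fin (t + 3), (p j).val = 0 ∨ (p j).val = t + 2 → j.val = 0 := by
      intro j h
      by_contra c
      have := hp.2 (j - 1) (by omega)
      rw [show j.val - 1 + 1 = j by omega, Km_adj, (Km_dg _).1 h] at this
      have := (Km_dg (p (j - 1))).2
      omega
    obtain ⟨a, ha⟩ := s 0
    obtain ⟨b, hb⟩ := s (Fin.last _)
    have a0 := key a (Or.inl (congrArg Fin.val ha))
    have b0 := key b (Or.inr (congrArg Fin.val hb))
    simp only [a0, b0] at ha hb
    rw [ha] at hb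
    simp [Fin.ext_iff] at hb
  by_cases c : x.val = 0 ∨ x.val = t + 2
  · refine Or.inl fun w w1 w2 w3 => ?_
    let p : ℕ → Fin (t + 3) := fun i => ⟨if x.val = 0 then t + 2 - i else min i (t + 2), by
      split_ifs <;> omega⟩
    have pv : ∀ i < t + 3, (x.val = 0 → (p i).val = t + 2 - i) ∧ (x.val ≠ 0 → (p i).val = i) :=
      fun i hi => ⟨fun h => by simp [p, h], fun h => by simp [p, h]; omega⟩
    refine ⟨p, fun i j a b e => ?_, fun i a => ⟨?_, ?_⟩⟩
    · have := congrArg Fin.val e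
      have := pv i (by omega); have := pv j b; omega
    · have := pv i (by omega); have := pv _ a
      rw [Km_adj]; omega
    · have := pv i (by omega); have := pv _ a
      have := w3 (p i); have := Km_dg (p i); have := w2 (p i); have := Km_dg (p (i + 1))
      have := w3 (p (i + 1)); have := Km_dg x
      rw [Km_adj] at *
      by_cases e : p (i + 1) = x
      · rw [e]; omega
      · have : (p (i + 1)).val ≠ x := fun h => e (Fin.ext h)
        omega
  · let p : ℕ → Fin (t + 3) := fun i => ⟨if i = x.val then t + 1 else if i = t + 1 then x.val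
      else min i t, by split_ifs <;> omega⟩
    have pv : ∀ i < t + 2, (i = x.val → (p i).val = t + 1) ∧ (i = t + 1 → (p i).val = x.val) ∧
        (i ≠ x.val → i ≠ t + 1 → (p i).val = i) := fun i hi => by
      simp only [p]; split_ifs <;> omega
    have := x.2
    refine Or.inr ⟨p, ⟨fun i j a b e => ?_, fun i a => ⟨?_, ?_⟩⟩, Fin.ext ((pv _ (by omega)).2.1 rfl),
      fun i a => Or.inl ?_⟩
    · have := congrArg Fin.val e
      have := pv i (by omega); have := pv j b; omega
    · have := pv i (by omega); have := pv _ a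
      rw [Km_adj]; omega
    · have := pv i (by omega); have := pv _ a
      have := Km_dg (p i); have := Km_dg (p (i + 1)); omega
    · have := pv i (by omega)
      rw [Km_adj]; omega

end Pool.Agent.H31.DMSat
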