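import Mathlib

set_option autoImplicit false
set_option linter.unusedSectionVars false

namespace Pool.Agent.H31.Spec
open Matrix Polynomial Finset

variable {n : Type} [Fintype n] [DecidableEq n]

theorem tr_pow {A : Matrix n n ℝ} (hA : A.IsHermitian) (k : ℕ) :
    ∑ i, hA.eigenvalues i ^ k = (A ^ k).trace := by
  conv_rhs => rw [hA.spectral_theorem, ← map_pow, Unitary.conjStarAlgAut_apply, trace_mul_comm,
    ← mul_assoc]
  simp [diagonal_pow]

theorem sum_roots {A : Matrix n n ℝ} (hA : A.IsHermitian) (f : ℝ → ℝ) :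
    (A.charpoly.roots.map f).sum = ∑ i, f (hA.eigenvalues i) := by
  rw [hA.roots_charpoly_eq_eigenvalues, Multiset.map_map]; rfl

theorem ann {A : Matrix n n ℝ} (p : ℝ[X]) (hp : aeval A p = 0) {x : ℝ} (hx : x ∈ spectrum ℝ A) :
    p.eval x = 0 := by
  have := spectrum.subset_polynomial_aeval A p ⟨x, hx, rfl⟩
  rw [hp] at this
  by_contra h
  exact this (by
    simpa [spectrum.mem_resolventSet_iff] using (Ne.isUnit h).map (algebraMap ℝ (Matrix n n ℝ)))

theorem eigvec {A : Matrix n n ℝ} {x : ℝ} (hx : x ∈ spectrum ℝ A) :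
    ∃ v, v ≠ 0 ∧ A *ᵥ v = x • v := by
  rw [← spectrum_toLin', ← Module.End.hasEigenvalue_iff_mem_spectrum] at hx
  obtain ⟨v, hv⟩ := hx.exists_hasEigenvector
  exact ⟨v, hv.2, by simpa using hv.apply_eq_smul⟩

theorem mem_spec {A : Matrix n n ℝ} {μ : ℝ} (x : n → ℝ)
    (hx : x ≠ 0) (h : A *ᵥ x = μ • x) : μ ∈ spectrum ℝ A := by
  rw [← spectrum_toLin', ← Module.End.hasEigenvalue_iff_mem_spectrum]
  exact Module.End.hasEigenvalue_of_hasEigenvector
    ⟨Module.End.mem_eigenspace_iff.mpr (by rw [toLin'_apply, h]), hx⟩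

theorem herm (G : SimpleGraph n) [DecidableRel G.Adj] : (G.adjMatrix ℝ).IsHermitian := by
  rw [IsHermitian, conjTranspose_eq_transpose_of_trivial, SimpleGraph.transpose_adjMatrix]

/-- Trace pairing with a matrix whose quadratic form is bounded by one. -/
theorem tr_le {A : Matrix n n ℝ} (hA : A.IsHermitian) (U : Matrix n n ℝ)
    (hU : ∀ x : n → ℝ, |x ⬝ᵥ U *ᵥ x| ≤ x ⬝ᵥ x) :
    (A * U).trace ≤ ∑ i, |hA.eigenvalues i| := by
  set V : Matrix n n ℝ := hA.eigenvectorUnitary.1
  have e : (A * U).trace = ∑ i, hA.eigenvalues i * ((fun j => V j i) ⬝ᵥ U *ᵥ fun j => V j i) := by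
    conv_lhs => rw [hA.spectral_theorem, Unitary.conjStarAlgAut_apply, mul_assoc, mul_assoc,
      trace_mul_comm, mul_assoc, mul_assoc, Matrix.trace]
    refine sum_congr rfl fun i _ => ?_
    rw [diag_apply, diagonal_mul]
    simp [mul_apply, dotProduct, mulVec, V]
  have v1 : ∀ i, ((fun j => V j i) ⬝ᵥ fun j => V j i) = 1 := fun i => by
    have := congrFun (congrFun hA.eigenvectorUnitary.2.1 i) i
    simpa [mul_apply, dotProduct, V] using this
  rw [e]
  refine sum_le_sum fun i _ => (le_abs_self _).trans ?_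
  rw [abs_mul]
  exact mul_le_of_le_one_right (abs_nonneg _) ((hU _).trans (v1 i).le)

theorem adj_cast (G : SimpleGraph n) [DecidableRel G.Adj] :
    G.adjMatrix ℝ = (Int.castRingHom ℝ).mapMatrix (G.adjMatrix ℤ) := by
  ext i j; simp [SimpleGraph.adjMatrix_apply]

theorem tr_cast (B : Matrix n n ℤ) (k : ℕ) :
    (((Int.castRingHom ℝ).mapMatrix B) ^ k).trace = ((B ^ k).trace : ℤ) := by
  rw [← map_pow]; simp [Matrix.trace]

end Pool.Agent.H31.Spec
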