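import Mathlib

set_option autoImplicit false
open Matrix Finset

namespace Pool.Agent.H31.Spec

variable {n m : Type} [Fintype n] [Fintype m]

/-- A rational sum-of-squares certificate for a quadratic form. -/
theorem ldl (M : n → n → ℚ) (U : m → n → ℚ) (D : m → ℚ)
    (h : ∀ i j, M i j = ∑ k, D k * U k i * U k j) (hD : ∀ k, 0 ≤ D k) (x : n → ℝ) :
    0 ≤ ∑ i, ∑ j, (M i j : ℝ) * x i * x j := by
  have : ∑ i, ∑ j, (M i j : ℝ) * x i * x j = ∑ k, (D k : ℝ) * (∑ i, U k i * x i) ^ 2 := by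
    simp only [h, sq, sum_mul_sum, mul_sum, Rat.cast_sum, Rat.cast_mul, sum_mul]
    rw [sum_comm (γ := m)]
    refine sum_congr rfl fun i _ => ?_
    rw [sum_comm (γ := m)]
    exact sum_congr rfl fun j _ => sum_congr rfl fun k _ => by ring
  rw [this]
  exact sum_nonneg fun k _ => mul_nonneg (by exact_mod_cast hD k) (sq_nonneg _)

end Pool.Agent.H31.Spec
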