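import Mathlib
import Pool.Agent.H31.Spec
import Pool.Agent.H31.Spec5

set_option autoImplicit false
open Matrix Finset SimpleGraph Real

namespace Pool.Agent.H31.DMax

/-- The equation defining the angle for degree `d` and diameter `D`. -/
def AngleEq (d D : ℕ) (θ : ℝ) : Prop :=
  if Even D then tan ((D / 2 : ℕ) * θ) = -(d / (d - 2)) * tan θ
  else tan (((D + 1) / 2 : ℕ) * θ) = -((2 * √(d - 1) * cos θ + d) * sin θ /
    (√(d - 1) * (d - 2 * cos θ ^ 2) + (d - 2) * cos θ))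

variable {V : Type} [Fintype V] [DecidableEq V]

/-- A connected `d`-regular graph of diameter `D` whose least nonzero Laplacian eigenvalue is
`d - 2 √(d-1) cos θ`, with `θ` the smallest positive root of the angle equation. -/
def DiamMax (G : SimpleGraph V) [DecidableRel G.Adj] (d D : ℕ) : Prop :=
  G.Connected ∧ G.IsRegularOfDegree d ∧ G.diam = D ∧ ∃ θ, IsLeast {θ | 0 < θ ∧ AngleEq d D θ} θ ∧
    IsLeast (spectrum ℝ (G.lapMatrix ℝ) \ {0}) (d - 2 * √(d - 1) * cos θ)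

theorem diam_eq (G : SimpleGraph V) (δ : V → V → ℕ) (D : ℕ) (r s : V)
    (h1 : ∀ u v, δ u v ≤ D ∧ (u = v ∨ ∃ w, G.Adj w v ∧ δ u w < δ u v))
    (h2 : ∀ v w, G.Adj v w → δ r v ≤ δ r w + 1) (h3 : δ r r = 0) (h4 : δ r s = D) :
    G.Connected ∧ G.diam = D := by
  have a : ∀ u k v, δ u v = k → G.edist u v ≤ k := fun u k => by
    induction k using Nat.strong_induction_on with
    | _ k ih =>
      intro v hv
      rcases (h1 u v).2 with rfl | ⟨w, w1, w2⟩
      · simp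
      · refine (G.edist_triangle (v := w)).trans ?_
        rw [edist_eq_one_iff_adj.mpr w1]
        exact (add_le_add_left (ih _ (hv ▸ w2) w rfl) 1).trans (by norm_cast; omega)
  have b : ∀ v (p : G.Walk v r), δ r v ≤ p.length := fun v p => by
    generalize hr : r = t at p
    induction p with
    | nil => simp [← hr, h3]
    | cons h p ih => subst hr; exact (h2 _ _ h).trans (by simpa using ih rfl)
  have : Nonempty V := ⟨r⟩
  have c : G.Connected := ⟨fun u v => reachable_of_edist_ne_top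
    (ne_top_of_le_ne_top (ENat.coe_ne_top _) (a u _ v rfl))⟩
  refine ⟨c, ?_⟩
  rw [diam, show G.ediam = D from le_antisymm (ediam_le_of_edist_le fun u v => (a u _ v rfl).trans
    (by exact_mod_cast (h1 u v).1)) ?_, ENat.toNat_coe]
  obtain ⟨p, hp⟩ := (c s r).exists_walk_length_eq_edist
  exact le_trans (by rw [← hp]; exact_mod_cast h4 ▸ b s p) (edist_le_ediam (u := s) (v := r))

theorem least (G : SimpleGraph V) [DecidableRel G.Adj] (B B' : ℝ) (α β k : ℚ) (b0 : 0 < B)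
    (hB : B ≤ B') (ha : B + B' = α) (hb : B * B' = β) (hk : B ≤ k) {m n : ℕ} (w : Fin m → V → ℚ)
    (hw : ∀ t, G.lapMatrix ℚ *ᵥ (G.lapMatrix ℚ *ᵥ w t) = α • G.lapMatrix ℚ *ᵥ w t - β • w t)
    (t : Fin m) (i : V) (h0 : w t i = 0) (h1 : (G.lapMatrix ℚ *ᵥ w t) i ≠ 0)
    (U : Fin n → V → ℚ) (D : Fin n → ℚ) (h : ∀ i j, G.lapMatrix ℚ i j - (if j = i then k else 0) +
      1 + ∑ t, w t i * w t j = ∑ t, D t * U t i * U t j) (hD : ∀ t, 0 ≤ D t) :
    IsLeast (spectrum ℝ (G.lapMatrix ℝ) \ {0}) B := by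
  have c : ∀ i j, G.lapMatrix ℝ i j = G.lapMatrix ℚ i j := fun i j => by
    simp [lapMatrix, degMatrix, diagonal_apply, apply_ite (Rat.cast : ℚ → ℝ)]
  have c' : ∀ x : V → ℚ, (G.lapMatrix ℝ *ᵥ fun i => x i) = fun i => ((G.lapMatrix ℚ *ᵥ x) i : ℝ) :=
    fun x => by ext i; simp [mulVec, dotProduct, c]
  have hw' : ∀ t, G.lapMatrix ℝ *ᵥ (G.lapMatrix ℝ *ᵥ fun i => w t i) =
      (B + B') • (G.lapMatrix ℝ *ᵥ fun i => w t i) - (B * B') • fun i => (w t i : ℝ) := fun t => by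
    rw [c', c', hw, ha, hb]; ext; simp
  have r := G.lapMatrix_mulVec_const_eq_zero (R := ℝ)
  have s : ∀ x y, x ⬝ᵥ G.lapMatrix ℝ *ᵥ y = G.lapMatrix ℝ *ᵥ x ⬝ᵥ y := fun x y => by
    rw [dotProduct_mulVec, ← mulVec_transpose, (G.isSymm_lapMatrix ℝ).eq]
  refine ⟨⟨Spec.mem_spec ((G.lapMatrix ℝ *ᵥ fun i => w t i) - B' • fun i => (w t i : ℝ))
    (fun x => h1 (by simpa [c', h0] using congrFun x i)) ?_, b0.ne'⟩, fun l ⟨l1, l0⟩ => ?_⟩
  · rw [mulVec_sub, hw', mulVec_smul]; ext; simp; ring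
  obtain ⟨g, g0, hg⟩ := Spec.eigvec l1
  by_contra! lt
  have a : (fun _ => 1) ⬝ᵥ g = 0 := by
    simpa [hg, r, show l ≠ 0 from l0] using s (fun _ => 1) g
  have b : ∀ t, g ⬝ᵥ (fun i => w t i) = 0 := fun t => by
    have := congrArg (g ⬝ᵥ ·) (hw' t)
    simp only [s, hg, dotProduct_sub, dotProduct_smul, smul_dotProduct, mulVec_smul, smul_eq_mul] at this
    exact (mul_eq_zero.mp (by linear_combination this : ((B - l) * (B' - l)) * _ = 0)).resolve_left
      (mul_pos (by linarith) (by linarith)).ne'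
  have := Spec.ldl _ U D h hD g
  have q : ∑ i, ∑ j, ((G.lapMatrix ℚ i j - (if j = i then k else 0) + 1 + ∑ t, w t i * w t j : ℚ) : ℝ) *
      g i * g j = g ⬝ᵥ G.lapMatrix ℝ *ᵥ g - k * (g ⬝ᵥ g) + ((fun _ => 1) ⬝ᵥ g) * ((fun _ => 1) ⬝ᵥ g) +
        ∑ t, (g ⬝ᵥ fun i => w t i) * (g ⬝ᵥ fun i => w t i) := by
    simp only [dotProduct, mulVec, sum_mul_sum, c]
    rw [sum_comm (γ := Fin m)]
    simp only [mul_sum, ← sum_sub_distrib, ← sum_add_distrib]
    refine sum_congr rfl fun i _ => ?_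
    rw [show (k : ℝ) * (g i * g i) = ∑ j, if j = i then k * (g i * g j) else 0 by simp,
      sum_comm (γ := Fin m), ← sum_sub_distrib, ← sum_add_distrib, ← sum_add_distrib]
    refine sum_congr rfl fun j _ => ?_
    rw [show ∑ t, g i * w t i * (g j * w t j) = (∑ t, w t i * w t j : ℚ) * g i * g j by
      push_cast; simp only [sum_mul]; exact sum_congr rfl fun _ _ => by ring]
    split_ifs <;> push_cast <;> ring
  simp only [q, a, b, hg, dotProduct_smul, smul_eq_mul, mul_zero, sum_const_zero] at this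
  nlinarith [(dotProduct_self_star_pos_iff.mpr g0 : 0 < g ⬝ᵥ star g), star_trivial g ▸
    (dotProduct_self_star_pos_iff.mpr g0 : 0 < g ⬝ᵥ star g)]

end Pool.Agent.H31.DMax
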