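import Mathlib

set_option autoImplicit false
open SimpleGraph

namespace Pool.Agent.H31.DPG

/-- Delete the edges of M and join a new vertex (none) to every endpoint of M. -/
def grow {V : Type} (G : SimpleGraph V) (M : G.Subgraph) : SimpleGraph (Option V) where
  Adj x y := match x, y with
    | some a, some b => G.Adj a b ∧ ¬ M.Adj a b
    | some a, none => a ∈ M.verts
    | none, some b => b ∈ M.verts
    | none, none => False
  symm := ⟨by
    rintro (_ | a) (_ | b) h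
    · exact h
    · exact h
    · exact h
    · exact ⟨h.1.symm, fun e => h.2 e.symm⟩⟩
  loopless := ⟨by
    rintro (_ | a) h
    · exact h
    · exact h.1.ne rfl⟩

/-- Force k t V G: starting from G, Builder can guarantee that the graph after exactly t rounds
contains a k-clique. -/
def Force (k : ℕ) : ℕ → (V : Type) → SimpleGraph V → Prop
  | 0, _, G => ¬ G.CliqueFree k
  | t + 1, V, G => ∃ M : G.Subgraph, M.IsMatching ∧ ∃ G0 G1 : SimpleGraph (Option V),
      Disjoint G0 G1 ∧ G0 ⊔ G1 = grow G M ∧ Force k t (Option V) G0 ∧ Force k t (Option V) G1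

theorem split {k t : ℕ} {V : Type} (G : SimpleGraph V) (M : G.Subgraph) (hM : M.IsMatching)
    (ih : ∀ {V W : Type} (G : SimpleGraph V) (H : SimpleGraph W) (f : V → W),
      Function.Injective f → (∀ a b, G.Adj a b → H.Adj (f a) (f b)) → Force k t V G →
      Force k t W H)
    {A B : Type} (G0 : SimpleGraph A) (G1 : SimpleGraph B) (f0 : A → Option V) (f1 : B → Option V)
    (i0 : Function.Injective f0) (i1 : Function.Injective f1)
    (a0 : ∀ a b, G0.Adj a b → (grow G M).Adj (f0 a) (f0 b))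
    (a1 : ∀ a b, G1.Adj a b → (grow G M).Adj (f1 a) (f1 b))
    (hd : ∀ a b c d, G0.Adj a b → G1.Adj c d → f0 a = f1 c → f0 b = f1 d → False)
    (h0 : Force k t A G0) (h1 : Force k t B G1) : Force k (t + 1) V G := by
  let F : A ↪ Option V := ⟨f0, i0⟩
  have hle : G0.map F ≤ grow G M := by
    intro x y h
    obtain ⟨a, b, h', rfl, rfl⟩ := (map_adj _ _ _ _).mp h
    exact a0 a b h'
  refine ⟨M, hM, G0.map F, grow G M \ G0.map F, disjoint_sdiff_self_right,
    sup_sdiff_cancel_right hle, ih G0 _ f0 i0 (fun a b h => ?_) h0,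
    ih G1 _ f1 i1 (fun a b h => ⟨a1 a b h, fun e => ?_⟩) h1⟩
  · exact (map_adj _ _ _ _).mpr ⟨a, b, h, rfl, rfl⟩
  · obtain ⟨c, d, h', e1, e2⟩ := (map_adj _ _ _ _).mp e
    exact hd c d a b h' h e1 e2

theorem emb {k : ℕ} : ∀ (t : ℕ) {V W : Type} (G : SimpleGraph V) (H : SimpleGraph W) (f : V → W),
    Function.Injective f → (∀ a b, G.Adj a b → H.Adj (f a) (f b)) → Force k t V G →
    Force k t W H := by
  intro t
  induction t with
  | zero =>
    intro V W G H f hf ha h hc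
    classical
    obtain ⟨s, hs⟩ := not_forall.mp h
    rw [not_not] at hs
    refine hc (s.image f) ⟨?_, by rw [Finset.card_image_of_injective _ hf, hs.2]⟩
    intro x hx y hy hxy
    obtain ⟨a, h1, rfl⟩ := Finset.mem_image.mp hx
    obtain ⟨b, h2, rfl⟩ := Finset.mem_image.mp hy
    exact ha a b (hs.1 h1 h2 fun e => hxy (by rw [e]))
  | succ t ih =>
    rintro V W G H f hf ha ⟨M, hM, G0, G1, hd, hs, h0, h1⟩
    let φ : G →g H := ⟨f, fun h => ha _ _ h⟩
    have key : ∀ a b, (grow G M).Adj a b → (grow H (M.map φ)).Adj (a.map f) (b.map f) := by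
      rintro (_ | a) (_ | b) h
      · exact h
      · exact ⟨b, h, rfl⟩
      · exact ⟨a, h, rfl⟩
      · refine ⟨ha _ _ h.1, ?_⟩
        rintro ⟨c, d, h', e1, e2⟩
        exact h.2 (by rw [← hf e1, ← hf e2]; exact h')
    refine split H (M.map φ) (hM.map φ hf) ih G0 G1 (Option.map f) (Option.map f)
      (Option.map_injective hf) (Option.map_injective hf)
      (fun a b h => key a b (hs ▸ Or.inl h)) (fun a b h => key a b (hs ▸ Or.inr h)) ?_ h0 h1
    intro a b c d e0 e1 e2 e3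
    rw [← Option.map_injective hf e2, ← Option.map_injective hf e3] at e1
    exact (disjoint_iff_inf_le.mp hd : G0 ⊓ G1 ≤ ⊥) ⟨e0, e1⟩

def T {V : Type} (A : SimpleGraph V) (M : A.Subgraph) (ι σ : Type) (D : Set ι) :
    SimpleGraph ((ι × σ × V) ⊕ ι) where
  Adj x y := match x, y with
    | .inl a, .inl b => a.1 = b.1 ∧ a.2.1 = b.2.1 ∧ A.Adj a.2.2 b.2.2 ∧
        (a.1 ∈ D → ¬ M.Adj a.2.2 b.2.2)
    | .inl a, .inr d => a.1 = d ∧ d ∈ D ∧ a.2.2 ∈ M.verts
    | .inr d, .inl a => a.1 = d ∧ d ∈ D ∧ a.2.2 ∈ M.verts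
    | .inr _, .inr _ => False
  symm := ⟨by
    rintro (a | a) (b | b) h
    · exact ⟨h.1.symm, h.2.1.symm, h.2.2.1.symm, fun e e' => h.2.2.2 (h.1 ▸ e) e'.symm⟩
    · exact h
    · exact h
    · exact h⟩
  loopless := ⟨by
    rintro (a | a) h
    · exact h.2.2.1.ne rfl
    · exact h⟩

theorem round {k t : ℕ} {V : Type} (A : SimpleGraph V) (M : A.Subgraph) (hM : M.IsMatching)
    (ι σ : Type) (D : Set ι) (i : ι) (hi : i ∉ D)
    (h : Force k t _ (T A M ι σ (insert i D))) : Force k (t + 1) _ (T A M ι (Bool × σ) D) := by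
  classical
  let N : (T A M ι (Bool × σ) D).Subgraph :=
    { verts := {x | ∃ b v, x = .inl (i, b, v) ∧ v ∈ M.verts}
      Adj := fun x y => ∃ b v w, x = .inl (i, b, v) ∧ y = .inl (i, b, w) ∧ M.Adj v w
      adj_sub := by
        rintro _ _ ⟨b, v, w, rfl, rfl, h⟩
        exact ⟨rfl, rfl, M.adj_sub h, fun e => absurd e hi⟩
      edge_vert := by
        rintro _ _ ⟨b, v, w, rfl, rfl, h⟩
        exact ⟨b, v, rfl, M.edge_vert h⟩
      symm := ⟨by
        rintro _ _ ⟨b, v, w, rfl, rfl, h⟩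
        exact ⟨b, w, v, rfl, rfl, h.symm⟩⟩ }
  have hN : N.IsMatching := by
    rintro _ ⟨b, v, rfl, hv⟩
    obtain ⟨w, hw, hu⟩ := hM hv
    refine ⟨.inl (i, b, w), ⟨b, v, w, rfl, rfl, hw⟩, ?_⟩
    rintro _ ⟨b', v', w', e, rfl, h'⟩
    simp only [Sum.inl.injEq, Prod.mk.injEq, true_and] at e
    obtain ⟨rfl, rfl⟩ := e
    rw [hu w' h']
  let f : Bool → ((ι × σ × V) ⊕ ι) → Option ((ι × (Bool × σ) × V) ⊕ ι) := fun c x => match x with
    | .inl a => some (.inl (a.1, (c, a.2.1), a.2.2))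
    | .inr d => if d = i then none else some (.inr d)
  have finj : ∀ c, Function.Injective (f c) := by
    rintro c (⟨a1, a2, a3⟩ | a) (⟨b1, b2, b3⟩ | b) e <;> simp only [f] at e
    · simpa using e
    · split_ifs at e <;> simp at e
    · split_ifs at e <;> simp at e
    · split_ifs at e <;> simp_all
  have hub : ∀ c (a : ι × σ × V) d, a.1 = d → d ∈ insert i D → a.2.2 ∈ M.verts →
      (grow _ N).Adj (f c (.inl a)) (f c (.inr d)) := by
    rintro c ⟨a1, a2, a3⟩ d rfl h2 h3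
    simp only [f]
    split_ifs with e
    · exact ⟨(c, a2), a3, by rw [← e], h3⟩
    · refine ⟨⟨rfl, h2.resolve_left e, h3⟩, ?_⟩
      rintro ⟨b, v, w, _, e', _⟩
      simp at e'
  have fadj : ∀ c a b, (T A M ι σ (insert i D)).Adj a b → (grow _ N).Adj (f c a) (f c b) := by
    rintro c (a | a) (b | b) h
    · refine ⟨⟨h.1, by simp [h.2.1], h.2.2.1, fun e => h.2.2.2 (Or.inr e)⟩, ?_⟩
      rintro ⟨s, v, w, e1, e2, h'⟩
      simp only [Sum.inl.injEq, Prod.mk.injEq] at e1 e2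
      exact h.2.2.2 (Or.inl e1.1) (by rw [e1.2.2, e2.2.2]; exact h')
    · exact hub c a b h.1 h.2.1 h.2.2
    · exact (hub c b a h.1 h.2.1 h.2.2).symm
    · exact h.elim
  refine split _ N hN (emb t) _ _ (f false) (f true) (finj _) (finj _) (fadj _) (fadj _) ?_ h h
  have ne : ∀ (a : ι × σ × V) c, f false (.inl a) ≠ f true c := by
    rintro a (c | c) e <;> simp only [f] at e
    · simp at e
    · split_ifs at e <;> simp at e
  rintro (a | a) (b | b) c d h0 _ e1 e2
  · exact ne _ _ e1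
  · exact ne _ _ e1
  · exact ne _ _ e2
  · exact h0

def C {V : Type} (ι : Type) (A : SimpleGraph V) : SimpleGraph (ι × V) where
  Adj x y := x.1 = y.1 ∧ A.Adj x.2 y.2
  symm := ⟨fun _ _ h => ⟨h.1.symm, h.2.symm⟩⟩
  loopless := ⟨fun _ h => h.2.ne rfl⟩

theorem phase {k t : ℕ} {V : Type} (v0 : V) (A : SimpleGraph V) (M : A.Subgraph)
    (hM : M.IsMatching) (ι : Type) [Finite ι] (h : Force k t _ (C ι (grow A M))) :
    ∃ (κ : Type) (_ : Finite κ), Nat.card κ = Nat.card ι * 2 ^ Nat.card ι + Nat.card ι ∧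
      Force k (t + Nat.card ι) _ (C κ A) := by
  have h1 : ∀ E : Set ι, ∃ (σ : Type) (_ : Finite σ), Nat.card σ = 2 ^ E.ncard ∧
      Force k (t + E.ncard) _ (T A M ι σ Eᶜ) := by
    intro E
    induction E, Set.toFinite E using Set.Finite.induction_on with
    | empty =>
      rw [Set.ncard_empty]
      refine ⟨Unit, inferInstance, by simp, emb t _ _
        (fun x => x.2.elim (.inr x.1) (fun v => .inl (x.1, (), v))) ?_ ?_ h⟩
      · rintro ⟨a, _ | x⟩ ⟨b, _ | y⟩ e <;> simp_all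
      · rintro ⟨a, _ | x⟩ ⟨b, _ | y⟩ ⟨e1, e2⟩
        · exact e2
        · exact ⟨e1.symm, by simp, e2⟩
        · exact ⟨e1, by simp, e2⟩
        · exact ⟨e1, rfl, e2.1, fun _ => e2.2⟩
    | @insert i E hi hE ih =>
      obtain ⟨σ, _, hc, hs⟩ := ih
      rw [Set.ncard_insert_of_notMem hi hE]
      refine ⟨Bool × σ, inferInstance, by simp [hc, pow_succ, mul_comm],
        round A M hM ι σ _ i (by simp) ?_⟩
      have : insert i (insert i E)ᶜ = Eᶜ := by
        ext x; by_cases e : x = i <;> simp [e, hi]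
      rwa [this]
  obtain ⟨σ, _, hc, hs⟩ := h1 Set.univ
  rw [Set.ncard_univ] at hc hs
  refine ⟨(ι × σ) ⊕ ι, inferInstance, by simp [hc], emb _ _ _
    (Sum.elim (fun x => (.inl (x.1, x.2.1), x.2.2)) (fun d => (.inr d, v0))) ?_ ?_ hs⟩
  · rintro (⟨a1, a2, a3⟩ | a) (⟨b1, b2, b3⟩ | b) e <;> simp_all
  · rintro (a | a) (b | b) h
    · exact ⟨by simp [h.1, h.2.1], h.2.2.1⟩
    · exact absurd h.2.1 (by simp)
    · exact absurd h.2.1 (by simp)
    · exact h.elim

def U (K P : Type) : SimpleGraph (K × Option P) where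
  Adj x y := (x.1 ≠ y.1 ∧ x.2 = none ∧ y.2 = none) ∨
    (x.1 = y.1 ∧ x.2 ≠ y.2 ∧ (x.2 = none ∨ y.2 = none))
  symm := ⟨fun _ _ h => h.imp (fun h => ⟨h.1.symm, h.2.2, h.2.1⟩)
    fun h => ⟨h.1.symm, h.2.1.symm, h.2.2.symm⟩⟩
  loopless := ⟨fun _ h => h.elim (fun h => h.1 rfl) fun h => h.2.1 rfl⟩

/-- The tower function: tow 0 = 1, tow (n+1) = 2 ^ tow n. -/
def tow : ℕ → ℕ
  | 0 => 1
  | n + 1 => 2 ^ tow n

theorem down {k : ℕ} (j : ℕ) : ∀ (P ι : Type) [Finite P] [Finite ι] (t x a : ℕ),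
    Nat.card P ≤ x → Nat.card ι ≤ x → t ≤ x → 1 ≤ x → 8 * x ≤ tow a →
    Force k t _ (C ι (U (Fin (j + 1)) P)) →
    ∃ (P ι : Type) (_ : Finite P) (_ : Finite ι) (t : ℕ), t ≤ tow (a + j) ∧
      Force k t _ (C ι (U (Fin 1) P)) := by
  induction j with
  | zero =>
    exact fun P ι _ _ t x a _ _ _ _ _ h =>
      ⟨P, ι, inferInstance, inferInstance, t, by simp only [add_zero]; omega, h⟩
  | succ j ih =>
    intro P ι _ _ t x a x1 x2 x3 x4 x5 h
    let A := C (Option P) (U (Fin (j + 1)) (Option P))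
    let M : A.Subgraph :=
      { verts := {x | x.2.2 = none ∨ x.2.2 = some none}
        Adj := fun x y => x.1 = y.1 ∧ x.2.1 = y.2.1 ∧
          ((x.2.2 = none ∧ y.2.2 = some none) ∨ (x.2.2 = some none ∧ y.2.2 = none))
        adj_sub := by
          rintro x y ⟨h1, h2, h3⟩
          refine ⟨h1, Or.inr ⟨h2, ?_, ?_⟩⟩ <;> rcases h3 with h3 | h3 <;> simp [h3]
        edge_vert := fun h => h.2.2.imp (·.1) (·.1)
        symm := ⟨fun _ _ h => ⟨h.1.symm, h.2.1.symm, h.2.2.symm.imp And.symm And.symm⟩⟩ }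
    have hM : M.IsMatching := by
      rintro ⟨a, b, c⟩ (hc | hc) <;> simp only at hc <;> subst hc
      · refine ⟨(a, b, some none), ⟨rfl, rfl, Or.inl ⟨rfl, rfl⟩⟩, ?_⟩
        rintro ⟨a', b', c'⟩ ⟨h1, h2, h3⟩
        simp_all
      · refine ⟨(a, b, none), ⟨rfl, rfl, Or.inr ⟨rfl, rfl⟩⟩, ?_⟩
        rintro ⟨a', b', c'⟩ ⟨h1, h2, h3⟩
        simp_all
    let g : Fin (j + 2) × Option P → Option (Option P × Fin (j + 1) × Option (Option P)) :=
      fun x => Fin.cases (x.2.map fun p => (some p, 0, none))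
        (fun i => some (none, i, x.2.map some)) x.1
    have ginj : Function.Injective g := by
      rintro ⟨a, x⟩ ⟨b, y⟩
      refine Fin.cases ?_ (fun a => ?_) a <;> refine Fin.cases ?_ (fun b => ?_) b <;>
        cases x <;> cases y <;> simp [g]
    have gadj : ∀ x y, (U (Fin (j + 2)) P).Adj x y → (grow A M).Adj (g x) (g y) := by
      rintro ⟨a, x⟩ ⟨b, y⟩
      refine Fin.cases ?_ (fun a => ?_) a <;> refine Fin.cases ?_ (fun b => ?_) b <;>
        cases x <;> cases y <;> simp [g, U, grow, A, C, M, (Fin.succ_ne_zero _).symm]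
    obtain ⟨κ, _, hc, hs⟩ := phase (none, 0, none) A M hM ι (emb t (C ι (U (Fin (j + 2)) P)) _
      (Prod.map id g) (Function.Injective.prodMap Function.injective_id ginj)
      (fun x y e => ⟨e.1, gadj _ _ e.2⟩) h)
    have p1 : x < 2 ^ x := Nat.lt_two_pow_self
    have p2 : 2 ^ x * 2 ≤ 2 ^ (4 * x) := by
      rw [← pow_succ]; exact Nat.pow_le_pow_right (by omega) (by omega)
    rw [show a + (j + 1) = a + 1 + j by omega]
    refine ih (Option P) (κ × Option P) _ (2 ^ (4 * x)) (a + 1) (by simp; omega) ?_ (by omega)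
      (by omega) ?_ (emb _ _ _ (fun x => ((x.1, x.2.1), x.2.2)) ?_ ?_ hs)
    · rw [Nat.card_prod, hc, Finite.card_option]
      have p3 : 2 ^ Nat.card ι ≤ 2 ^ x := Nat.pow_le_pow_right (by omega) x2
      have p4 : Nat.card ι * 2 ^ Nat.card ι + Nat.card ι ≤ 2 ^ x * 2 ^ x * 2 := by
        have : Nat.card ι * 2 ^ Nat.card ι ≤ 2 ^ x * 2 ^ x := Nat.mul_le_mul (by omega) p3
        nlinarith
      refine (Nat.mul_le_mul p4 (show _ ≤ 2 ^ x by omega)).trans ?_
      rw [← pow_add, ← pow_succ, ← pow_add]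
      exact Nat.pow_le_pow_right (by omega) (by omega)
    · rw [show 8 * 2 ^ (4 * x) = 2 ^ (4 * x + 3) by ring]
      exact Nat.pow_le_pow_right (by omega) (by omega)
    · rintro ⟨a1, a2, a3⟩ ⟨b1, b2, b3⟩ e; simp_all
    · rintro x y ⟨h1, h2, h3⟩
      exact ⟨Prod.ext h1 h2, h3⟩

theorem acyc {V : Type} (G : SimpleGraph V)
    (h : ∀ a b c d, G.Adj a b → G.Adj b c → G.Adj c d → a = c ∨ b = d) : G.IsAcyclic := by
  intro v c hc
  have h3 := hc.three_le_length
  rcases h _ _ _ _ (c.adj_getVert_succ (i := 0) (by omega)) (c.adj_getVert_succ (i := 1) (by omega))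
    (c.adj_getVert_succ (i := 2) (by omega)) with e | e
  · exact hc.getVert_sub_one_ne_getVert_add_one (i := 1) (by omega) e
  · exact hc.getVert_sub_one_ne_getVert_add_one (i := 2) (by omega) e

theorem main (k : ℕ) : ∃ (n : ℕ) (G : SimpleGraph (Fin n)), G.IsAcyclic ∧
    ∃ t, t ≤ tow (k + 3) ∧ Force k t (Fin n) G := by
  classical
  have h0 : Force k 0 _ (C Unit (U (Fin (k + 1)) Empty)) := by
    intro hc
    refine hc (Finset.univ.image fun i : Fin k => ((), i.succ, none)) ⟨?_, ?_⟩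
    · intro x hx y hy hxy
      obtain ⟨a, _, rfl⟩ := Finset.mem_image.mp hx
      obtain ⟨b, _, rfl⟩ := Finset.mem_image.mp hy
      exact ⟨rfl, Or.inl ⟨fun e => hxy (by simp only at e; rw [e]), rfl, rfl⟩⟩
    · rw [Finset.card_image_of_injective _ (fun a b e => by simpa using e)]; simp
  obtain ⟨P, ι, _, _, t, hb, ht⟩ := down k Empty Unit 0 1 3 (by simp) (by simp) (by omega) le_rfl
    (by decide) h0
  let e := Finite.equivFin (ι × Fin 1 × Option P)
  refine ⟨_, (C ι (U (Fin 1) P)).comap e.symm, acyc _ ?_, t, by rwa [add_comm],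
    emb t _ _ e e.injective (fun a b h => by simpa using h) ht⟩
  intro a b c d h1 h2 h3
  rw [← e.symm.injective.eq_iff, ← e.symm.injective.eq_iff (a := b)]
  simp only [comap_adj] at h1 h2 h3
  generalize e.symm a = a at *
  generalize e.symm b = b at *
  generalize e.symm c = c at *
  generalize e.symm d = d at *
  obtain ⟨a1, a2, a3⟩ := a
  obtain ⟨b1, b2, b3⟩ := b
  obtain ⟨c1, c2, c3⟩ := c
  obtain ⟨d1, d2, d3⟩ := d
  simp only [C, U, Subsingleton.elim a2 0, Subsingleton.elim b2 0, Subsingleton.elim c2 0,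
    Subsingleton.elim d2 0] at h1 h2 h3 ⊢
  cases a3 <;> cases b3 <;> cases c3 <;> cases d3 <;> simp_all

end Pool.Agent.H31.DPG
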