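import Mathlib
import Pool.Agent.H31.DPG

set_option autoImplicit false
open SimpleGraph Finset Classical

namespace Pool.Agent.H31.DPG

/-- ForceBy k t V G: starting from G, Builder can guarantee a k-clique at some time at most t. -/
def ForceBy (k : ℕ) : ℕ → (V : Type) → SimpleGraph V → Prop
  | 0, _, G => ¬ G.CliqueFree k
  | t + 1, V, G => ¬ G.CliqueFree k ∨ ∃ M : G.Subgraph, M.IsMatching ∧
      ∃ G0 G1 : SimpleGraph (Option V), Disjoint G0 G1 ∧ G0 ⊔ G1 = grow G M ∧
        ForceBy k t (Option V) G0 ∧ ForceBy k t (Option V) G1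

theorem Force.by {k : ℕ} : ∀ {t : ℕ} {V : Type} {G : SimpleGraph V}, Force k t V G →
    ForceBy k t V G
  | 0, _, _, h => h
  | _ + 1, _, _, ⟨M, h1, G0, G1, h2, h3, h4, h5⟩ => Or.inr ⟨M, h1, G0, G1, h2, h3, h4.by, h5.by⟩

theorem tow_mono : Monotone tow := monotone_nat_of_le_succ fun _ => Nat.lt_two_pow_self.le

theorem ages (S : Finset ℕ) : (∀ a ∈ S, ∀ b ∈ S, a < b → (3 / 2 : ℝ) ^ a < 3 * (b : ℝ) ^ 2) →
    ∀ T, (∀ a ∈ S, a ≤ T) → 33 ≤ S.card → 8 * tow (S.card - 31) ≤ T := by
  induction S using Finset.induction_on_max with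
  | empty => simp
  | insert m S hm ih =>
    intro h T hT hc
    have hmS : m ∉ S := fun e => lt_irrefl _ (hm m e)
    by_cases h33 : (insert m S).card = 33
    · have := card_le_card (show insert m S ⊆ range (T + 1) from
        fun a ha => mem_range.mpr (Nat.lt_succ_of_le (hT a ha)))
      rw [h33, card_range] at this
      rw [h33, show tow (33 - 31) = 4 from rfl]; omega
    rw [card_insert_of_notMem hmS] at hc h33 ⊢
    have hne : S.Nonempty := card_pos.mp (by omega)
    have h1 := ih (fun a ha b hb => h a (mem_insert_of_mem ha) b (mem_insert_of_mem hb))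
      (S.max' hne) (fun a ha => le_max' S a ha) (by omega)
    have h2 := h _ (mem_insert_of_mem (max'_mem S hne)) m (mem_insert_self _ _)
      (hm _ (max'_mem S hne))
    refine le_trans ?_ (hT m (mem_insert_self _ _))
    rw [show S.card + 1 - 31 = (S.card - 31) + 1 by omega]
    have h4 : 4 ≤ tow (S.card - 31) := tow_mono (show 2 ≤ S.card - 31 by omega)
    show 8 * 2 ^ tow (S.card - 31) ≤ m
    generalize tow (S.card - 31) = x at *
    by_contra h5
    have h6 : (m : ℝ) ≤ 8 * 2 ^ x := by exact_mod_cast (not_le.mp h5).le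
    have h7 : (3 / 2 : ℝ) ^ (8 * x) ≤ (3 / 2) ^ (S.max' hne) := pow_le_pow_right₀ (by norm_num) h1
    have h8 : (m : ℝ) ^ 2 ≤ (8 * 2 ^ x) ^ 2 := by gcongr
    have h9 : (4 : ℝ) ^ 4 ≤ 4 ^ x := pow_le_pow_right₀ (by norm_num) h4
    have h10 : ((4 : ℝ) * 4) ^ x ≤ (3 / 2) ^ (8 * x) := by
      rw [pow_mul]; gcongr; norm_num
    have h11 : ((2 : ℝ) ^ x) ^ 2 = 4 ^ x := by rw [← pow_mul, mul_comm, pow_mul]; norm_num
    rw [mul_pow] at h10 h8
    rw [h11] at h8
    have : (0 : ℝ) < 4 ^ x := by positivity
    nlinarith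

noncomputable def wt (u : ℕ) (a b : Option ℕ) : ℝ :=
  match a, b with
  | some a, some b => if a < b then (3 / 2) ^ (u - b) / (3 * ((b - a : ℝ) * (b - a + 1))) else 0
  | _, _ => 0

theorem wt_nonneg (u : ℕ) (a b : Option ℕ) : 0 ≤ wt u a b := by
  rcases a with _ | a <;> rcases b with _ | b <;> simp only [wt, le_refl]
  split_ifs with h
  · have : (a : ℝ) < b := by exact_mod_cast h
    have : (0 : ℝ) < b - a := by linarith
    positivity
  · rfl

noncomputable def pot {V : Type} [Fintype V] (G : SimpleGraph V) (β : V → Option ℕ) (u : ℕ) : ℝ :=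
  ∑ x, ∑ y, if G.Adj x y then wt u (β x) (β y) else 0

theorem tele (u : ℕ) : ∑ a ∈ range u, 1 / ((u - a : ℝ) * (u - a + 1)) ≤ 1 := by
  have : ∀ n : ℕ, ∑ d ∈ range n, 1 / (((d : ℝ) + 1) * (d + 1 + 1)) = 1 - 1 / (n + 1) := by
    intro n
    induction n with
    | zero => simp
    | succ n ih => rw [sum_range_succ, ih]; push_cast; field_simp; ring
  rw [← sum_range_reflect]
  have e : ∑ j ∈ range u, 1 / ((u - ((u - 1 - j : ℕ) : ℝ)) * (u - ((u - 1 - j : ℕ) : ℝ) + 1)) =
      ∑ d ∈ range u, 1 / (((d : ℝ) + 1) * (d + 1 + 1)) := by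
    refine sum_congr rfl fun j hj => ?_
    rw [mem_range] at hj
    have : ((u - 1 - j : ℕ) : ℝ) = u - 1 - j := by
      rw [Nat.cast_sub (by omega), Nat.cast_sub (by omega)]; simp
    rw [this]; ring
  rw [e, this]
  have : (0 : ℝ) ≤ 1 / (u + 1) := by positivity
  linarith

theorem lower_aux (k : ℕ) (hk : 35 ≤ k) : ∀ (t u : ℕ) (V : Type) [Fintype V] (G : SimpleGraph V)
    (β : V → Option ℕ), (∀ x y z, β x = none → β y = none → β z = none → G.Adj x y → G.Adj x z →
      G.Adj y z → False) → (∀ x a, β x = some a → a < u) →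
    (∀ x y a, β x = some a → β y = some a → x = y) → pot G β u < 1 → ForceBy k t V G →
    tow (k - 33) ≤ u + t := by
  have base : ∀ (u : ℕ) (V : Type) [Fintype V] (G : SimpleGraph V)
      (β : V → Option ℕ), (∀ x y z, β x = none → β y = none → β z = none → G.Adj x y → G.Adj x z →
        G.Adj y z → False) → (∀ x a, β x = some a → a < u) →
      (∀ x y a, β x = some a → β y = some a → x = y) → pot G β u < 1 → ¬ G.CliqueFree k →
      tow (k - 33) ≤ u := by
    intro u V _ G β h1 h2 h3 h4 h5
    obtain ⟨s, hs⟩ := not_forall.mp h5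
    rw [not_not] at hs
    have c1 : (s.filter fun x => β x = none).card ≤ 2 := by
      by_contra hc
      obtain ⟨x, hx, y, hy, z, hz, e1, e2, e3⟩ := two_lt_card.mp (not_le.mp hc)
      rw [mem_filter] at hx hy hz
      exact h1 x y z hx.2 hy.2 hz.2 (hs.1 hx.1 hy.1 e1) (hs.1 hx.1 hz.1 e2) (hs.1 hy.1 hz.1 e3)
    have c2 := card_filter_add_card_filter_not (s := s) (fun x => β x = none)
    rw [hs.2] at c2
    let S := (s.filter fun x => ¬ β x = none).image fun x => u - (β x).getD 0
    have c3 : S.card = (s.filter fun x => ¬ β x = none).card := by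
      refine card_image_of_injOn fun x hx y hy e => ?_
      obtain ⟨a, ha⟩ := Option.ne_none_iff_exists'.mp (mem_filter.mp hx).2
      obtain ⟨b, hb⟩ := Option.ne_none_iff_exists'.mp (mem_filter.mp hy).2
      have := h2 x a ha
      have := h2 y b hb
      simp only [ha, hb, Option.getD_some] at e
      exact h3 x y a ha (by rw [hb]; congr 1; omega)
    have c4 := ages S ?_ u ?_ (by omega)
    · have := tow_mono (show k - 33 ≤ S.card - 31 by omega)
      omega
    · intro p hp q hq hpq
      obtain ⟨y, hy, rfl⟩ := mem_image.mp hp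
      obtain ⟨x, hx, rfl⟩ := mem_image.mp hq
      obtain ⟨a, ha⟩ := Option.ne_none_iff_exists'.mp (mem_filter.mp hx).2
      obtain ⟨b, hb⟩ := Option.ne_none_iff_exists'.mp (mem_filter.mp hy).2
      have g1 := h2 x a ha
      have g2 := h2 y b hb
      simp only [ha, hb, Option.getD_some] at hpq ⊢
      have hab : a < b := by omega
      have hxy : G.Adj x y := hs.1 (mem_filter.mp hx).1 (mem_filter.mp hy).1
        (fun e => by rw [e, hb] at ha; simp at ha; omega)
      have g3 : wt u (β x) (β y) < 1 := by
        refine lt_of_le_of_lt ?_ h4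
        refine le_trans ?_ (single_le_sum (f := fun x => ∑ y, if G.Adj x y then
          wt u (β x) (β y) else 0) (fun x _ => sum_nonneg fun y _ => by
            split_ifs; exacts [wt_nonneg _ _ _, le_rfl]) (mem_univ x))
        refine le_trans (by simp [hxy]) (single_le_sum (f := fun y => if G.Adj x y then
          wt u (β x) (β y) else 0) (fun y _ => by
            split_ifs; exacts [wt_nonneg _ _ _, le_rfl]) (mem_univ y))
      simp only [ha, hb, wt, if_pos hab] at g3
      have g4 : (a : ℝ) + 1 ≤ b := by exact_mod_cast hab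
      have g5 : (b : ℝ) + 1 ≤ u := by exact_mod_cast g2
      rw [div_lt_one (by nlinarith)] at g3
      rw [Nat.cast_sub g1.le]
      nlinarith
    · intro p hp
      obtain ⟨y, _, rfl⟩ := mem_image.mp hp
      omega
  intro t
  induction t with
  | zero => exact base
  | succ t ih =>
    intro u V _ G β h1 h2 h3 h4 h5
    rcases h5 with h5 | ⟨M, _, G0, G1, hd, hs, f0, f1⟩
    · exact (base u V G β h1 h2 h3 h4 h5).trans (by omega)
    let β' : Option V → Option ℕ := fun x => x.elim (some u) β
    have b2 : ∀ x a, β' x = some a → a < u + 1 := by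
      rintro (_ | x) a h
      · simp [β'] at h; omega
      · exact (h2 x a h).trans (by omega)
    have b3 : ∀ x y a, β' x = some a → β' y = some a → x = y := by
      rintro (_ | x) (_ | y) a e1 e2
      · rfl
      · have := h2 y a e2; simp [β'] at e1; omega
      · have := h2 x a e1; simp [β'] at e2; omega
      · rw [h3 x y a e1 e2]
    have b1 : ∀ H : SimpleGraph (Option V), H ≤ grow G M → ∀ x y z, β' x = none → β' y = none →
        β' z = none → H.Adj x y → H.Adj x z → H.Adj y z → False := by
      rintro H hH (_ | x) (_ | y) (_ | z) e1 e2 e3 a1 a2 a3 <;> try (simp [β'] at e1 e2 e3; done)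
      exact h1 x y z e1 e2 e3 (hH a1).1 (hH a2).1 (hH a3).1
    have p1 : pot G0 β' (u + 1) + pot G1 β' (u + 1) = pot (grow G M) β' (u + 1) := by
      unfold pot
      rw [← sum_add_distrib]
      refine sum_congr rfl fun x _ => ?_
      rw [← sum_add_distrib]
      refine sum_congr rfl fun y _ => ?_
      rw [← hs]
      have : ¬ (G0.Adj x y ∧ G1.Adj x y) := fun e =>
        (disjoint_iff_inf_le.mp hd : G0 ⊓ G1 ≤ ⊥) e
      by_cases a : G0.Adj x y
      · rw [if_pos a, if_neg (fun b => this ⟨a, b⟩), if_pos (show (G0 ⊔ G1).Adj x y from Or.inl a),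
          add_zero]
      · by_cases b : G1.Adj x y
        · rw [if_neg a, if_pos b, if_pos (show (G0 ⊔ G1).Adj x y from Or.inr b), zero_add]
        · rw [if_neg a, if_neg b, if_neg (show ¬ (G0 ⊔ G1).Adj x y from fun e => e.elim a b),
            add_zero]
    have p2 : pot (grow G M) β' (u + 1) ≤ 3 / 2 * pot G β u + 1 / 2 := by
      unfold pot
      rw [Fintype.sum_option]
      have q1 : ∑ y, (if (grow G M).Adj none y then wt (u + 1) (β' none) (β' y) else 0) = 0 := by
        refine sum_eq_zero fun y _ => ?_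
        rcases h : β' y with _ | b
        · simp [β', wt]
        · have := b2 y b h
          simp [β', wt, show ¬ u < b by omega]
      have q2 : ∑ x : V, wt (u + 1) (β x) (some u) ≤ 1 / 2 := by
        have q3 : ∑ x : V, wt (u + 1) (β x) (some u) =
            ∑ x ∈ univ.filter (fun x => β x ≠ none), wt (u + 1) (β x) (some u) := by
          rw [sum_filter]
          refine sum_congr rfl fun x _ => ?_
          rcases β x with _ | a <;> simp [wt]
        have q4 : ∑ x ∈ univ.filter (fun x => β x ≠ none), wt (u + 1) (β x) (some u) ≤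
            ∑ a ∈ range u, wt (u + 1) (some a) (some u) := by
          have e1 : ∑ x ∈ univ.filter (fun x => β x ≠ none), wt (u + 1) (β x) (some u) =
              ∑ a ∈ (univ.filter (fun x => β x ≠ none)).image (fun x => (β x).getD 0),
                wt (u + 1) (some a) (some u) := by
            rw [sum_image]
            · refine sum_congr rfl fun x hx => ?_
              obtain ⟨b, hb⟩ := Option.ne_none_iff_exists'.mp (mem_filter.mp hx).2
              simp [hb]
            · intro x hx y hy e
              obtain ⟨a, ha⟩ := Option.ne_none_iff_exists'.mp (mem_filter.mp hx).2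
              obtain ⟨b, hb⟩ := Option.ne_none_iff_exists'.mp (mem_filter.mp hy).2
              simp only [ha, hb, Option.getD_some] at e
              exact h3 x y a ha (e ▸ hb)
          rw [e1]
          refine sum_le_sum_of_subset_of_nonneg ?_ fun a _ _ => wt_nonneg _ _ _
          intro a ha
          obtain ⟨x, hx, rfl⟩ := mem_image.mp ha
          obtain ⟨b, hb⟩ := Option.ne_none_iff_exists'.mp (mem_filter.mp hx).2
          simpa [hb] using h2 x b hb
        have q5 : ∑ a ∈ range u, wt (u + 1) (some a) (some u) =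
            1 / 2 * ∑ a ∈ range u, 1 / ((u - a : ℝ) * (u - a + 1)) := by
          rw [mul_sum]
          refine sum_congr rfl fun a ha => ?_
          simp only [wt, if_pos (mem_range.mp ha), Nat.add_sub_cancel_left]
          generalize ((u : ℝ) - a) * (u - a + 1) = z
          ring
        have := tele u
        linarith
      rw [q1, zero_add, mul_sum]
      refine le_trans ?_ (add_le_add_right q2 _)
      rw [← sum_add_distrib]
      refine sum_le_sum fun x _ => ?_
      rw [Fintype.sum_option, add_comm, mul_sum]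
      refine add_le_add (sum_le_sum fun y _ => ?_) ?_
      · have e : wt (u + 1) (β x) (β y) = 3 / 2 * wt u (β x) (β y) := by
          rcases β x with _ | a <;> rcases hb : β y with _ | b <;> simp only [wt, mul_zero]
          have := h2 y b hb
          split_ifs
          · rw [show u + 1 - b = u - b + 1 by omega, pow_succ]; ring
          · simp
        have := wt_nonneg u (β x) (β y)
        by_cases a : (grow G M).Adj (some x) (some y)
        · rw [if_pos a, if_pos a.1]; exact e.le
        · rw [if_neg a]; split_ifs <;> linarith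
      · split_ifs
        · exact le_rfl
        · exact wt_nonneg _ _ _
    rw [show u + (t + 1) = u + 1 + t by omega]
    by_cases c : pot G0 β' (u + 1) < 1
    · exact ih (u + 1) _ G0 β' (b1 G0 (hs ▸ le_sup_left)) b2 b3 c f0
    · exact ih (u + 1) _ G1 β' (b1 G1 (hs ▸ le_sup_right)) b2 b3 (by linarith) f1

theorem lower (k t n : ℕ) (hk : 3 ≤ k) (G : SimpleGraph (Fin n)) (hG : G.CliqueFree 3)
    (h : ForceBy k t _ G) : tow (k - 35) ≤ t := by
  by_cases h35 : 35 ≤ k
  · have := lower_aux k h35 t 0 (Fin n) G (fun _ => none)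
      (fun x y z _ _ _ a b c => hG _ (is3Clique_triple_iff.mpr ⟨a, b, c⟩)) (by simp) (by simp)
      (by simp [pot, wt]) h
    exact (tow_mono (show k - 35 ≤ k - 33 by omega)).trans (by simpa using this)
  · rw [show k - 35 = 0 by omega]
    rcases t with _ | t
    · exact absurd (hG.mono hk) h
    · exact Nat.succ_le_succ (Nat.zero_le _)

end Pool.Agent.H31.DPG
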