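import Mathlib

open Finset

namespace Pool.Agent.H31.DS

def Good (i j : ℕ) : Prop := ∃ (T : Type) (_ : LinearOrder T) (Λ D : Finset T) (I : T → ℕ → Finset T),
  D.card + 2 ≤ Λ.card ∧ Disjoint Λ D ∧
  (∀ l ∈ Λ, ∀ r < j, I l r ⊆ D ∧ (I l r).card = i ∧ ∀ δ ∈ I l r, l < δ) ∧
  (∀ l ∈ Λ, ∀ r r', r < r' → r' < j → ∀ δ ∈ I l r', ∀ δ' ∈ I l r, δ' < δ) ∧
  (∀ l ∈ Λ, ∀ l' ∈ Λ, l < l' → ∀ r < j, ∀ r' < j, ∀ a ∈ I l r, ∀ b ∈ I l' r', ∀ c ∈ I l r,
    l' < a → a < b → c < b)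

theorem good (i : ℕ) : ∀ j, Good i j := by
  induction i with
  | zero => exact fun j => ⟨ℕ, inferInstance, {0, 1}, ∅, fun _ _ => ∅, by simp⟩
  | succ i ih =>
  intro j
  induction j with
  | zero => exact ⟨ℕ, inferInstance, {0, 1}, ∅, fun _ _ => ∅, by simp⟩
  | succ j ihj =>
  obtain ⟨S, _, Λ, D, I, c1, c2, c3, c4, c5⟩ := ihj
  obtain ⟨T, _, Λ', D', I', d1, d2, d3, d4, d5⟩ := ih Λ.card
  let ρ : S → ℕ := fun y => (Λ.filter (· < y)).card
  have ρ1 : ∀ y ∈ Λ, ρ y < Λ.card := fun y hy =>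
    card_lt_card ⟨filter_subset _ _, fun h => lt_irrefl _ (mem_filter.1 (h hy)).2⟩
  have ρ2 : ∀ y ∈ Λ, ∀ y', y < y' → ρ y < ρ y' := fun y hy y' h =>
    card_lt_card ⟨fun z hz => mem_filter.2 ⟨(mem_filter.1 hz).1, (mem_filter.1 hz).2.trans h⟩,
      fun h' => lt_irrefl _ (mem_filter.1 (h' (mem_filter.2 ⟨hy, h⟩))).2⟩
  let f : T → S → T ×ₗ WithTop S := fun x y => toLex (x, (y : WithTop S))
  let g : T → T ×ₗ WithTop S := fun x => toLex (x, ⊤)
  have ff : ∀ x y x' y', f x y < f x' y' ↔ x < x' ∨ (x = x' ∧ y < y') := fun x y x' y' => by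
    simp [f, Prod.Lex.toLex_lt_toLex]
  have fg : ∀ x y x', f x y < g x' ↔ x ≤ x' := fun x y x' => by
    simp [f, g, Prod.Lex.toLex_lt_toLex, le_iff_lt_or_eq]
  have gf : ∀ x y x', g x' < f x y ↔ x' < x := fun x y x' => by simp [f, g, Prod.Lex.toLex_lt_toLex]
  have gg : ∀ x x', g x < g x' ↔ x < x' := fun x x' => by simp [g, Prod.Lex.toLex_lt_toLex]
  have fi : ∀ x y x' y', f x y = f x' y' ↔ x = x' ∧ y = y' := fun x y x' y' => by simp [f]
  have gi : Function.Injective g := fun x x' h => by simpa [g] using h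
  have ne : ∀ x y x', f x y ≠ g x' := fun x y x' => by simp [f, g]
  let J : T → S → ℕ → Finset (T ×ₗ WithTop S) := fun x y r =>
    if r < j then (I y r).image (f x) else (insert x (I' x (ρ y))).image g
  have mJ : ∀ x y r z, z ∈ J x y r ↔ (r < j ∧ ∃ δ ∈ I y r, f x δ = z) ∨
      (¬ r < j ∧ ∃ δ, (δ = x ∨ δ ∈ I' x (ρ y)) ∧ g δ = z) := fun x y r z => by
    simp only [J]; split_ifs with h <;> simp only [h, mem_image, mem_insert] <;> simp
  have ge : ∀ x ∈ Λ', ∀ y ∈ Λ, ∀ δ, (δ = x ∨ δ ∈ I' x (ρ y)) → x ≤ δ := fun x hx y hy δ h =>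
    h.elim (fun h => h.ge) fun h => ((d3 x hx _ (ρ1 y hy)).2.2 δ h).le
  refine ⟨T ×ₗ WithTop S, inferInstance, (Λ' ×ˢ Λ).image fun w => f w.1 w.2,
    ((Λ' ×ˢ D).image fun w => f w.1 w.2) ∪ (Λ' ∪ D').image g,
    fun z r => WithTop.recTopCoe ∅ (fun y => J (ofLex z).1 y r) (ofLex z).2, ?_, ?_, ?_, ?_, ?_⟩
  · rw [card_image_of_injective _ fun w w' h => Prod.ext ((fi _ _ _ _).1 h).1 ((fi _ _ _ _).1 h).2,
      card_product]
    have a := card_union_le ((Λ' ×ˢ D).image fun w => f w.1 w.2) ((Λ' ∪ D').image g)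
    have b : ((Λ' ×ˢ D).image fun w => f w.1 w.2).card ≤ Λ'.card * D.card :=
      card_image_le.trans (card_product _ _).le
    have c : ((Λ' ∪ D').image g).card ≤ Λ'.card + D'.card := card_image_le.trans (card_union_le _ _)
    have := Nat.mul_le_mul_left Λ'.card c1
    nlinarith
  · rw [disjoint_left]
    intro z hz hz'
    obtain ⟨⟨x, y⟩, h, rfl⟩ := mem_image.1 hz
    rcases mem_union.1 hz' with h' | h'
    · obtain ⟨⟨x', y'⟩, h', e⟩ := mem_image.1 h'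
      exact disjoint_left.1 c2 (mem_product.1 h).2 (((fi _ _ _ _).1 e).2 ▸ (mem_product.1 h').2)
    · obtain ⟨x', -, e⟩ := mem_image.1 h'
      exact ne _ _ _ e.symm
  · intro z hz r hr
    obtain ⟨⟨x, y⟩, h, rfl⟩ := mem_image.1 hz
    obtain ⟨hx, hy⟩ := mem_product.1 h
    change J x y r ⊆ _ ∧ (J x y r).card = _ ∧ ∀ δ ∈ J x y r, f x y < δ
    refine ⟨fun z hz => ?_, ?_, fun z hz => ?_⟩
    · rcases (mJ _ _ _ _).1 hz with ⟨h, δ, a, rfl⟩ | ⟨h, δ, a, rfl⟩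
      · exact mem_union_left _ (mem_image.2 ⟨(x, δ), mem_product.2 ⟨hx, (c3 y hy r h).1 a⟩, rfl⟩)
      · exact mem_union_right _ (mem_image_of_mem _ (a.elim (fun e => mem_union_left _ (e ▸ hx))
          fun e => mem_union_right _ ((d3 x hx _ (ρ1 y hy)).1 e)))
    · simp only [J]
      split_ifs with h
      · rw [card_image_of_injective _ fun a b e => ((fi _ _ _ _).1 e).2, (c3 y hy r h).2.1]
      · rw [card_image_of_injective _ gi, card_insert_of_notMem fun e =>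
          lt_irrefl _ ((d3 x hx _ (ρ1 y hy)).2.2 x e), (d3 x hx _ (ρ1 y hy)).2.1]
    · rcases (mJ _ _ _ _).1 hz with ⟨h, δ, a, rfl⟩ | ⟨h, δ, a, rfl⟩
      · exact (ff _ _ _ _).2 (Or.inr ⟨rfl, (c3 y hy r h).2.2 δ a⟩)
      · exact (fg _ _ _).2 (ge x hx y hy δ a)
  · intro z hz r r' h1 h2 a ha b hb
    obtain ⟨⟨x, y⟩, h, rfl⟩ := mem_image.1 hz
    obtain ⟨hx, hy⟩ := mem_product.1 h
    change a ∈ J x y r' at ha
    change b ∈ J x y r at hb
    rcases (mJ _ _ _ _).1 hb with ⟨h, δ, a, rfl⟩ | ⟨h, -⟩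
    · rcases (mJ _ _ _ _).1 ha with ⟨h', δ', a', rfl⟩ | ⟨h', δ', a', rfl⟩
      · exact (ff _ _ _ _).2 (Or.inr ⟨rfl, c4 y hy r r' h1 h' _ a' _ a⟩)
      · exact (fg _ _ _).2 (ge x hx y hy δ' a')
    · omega
  · intro z hz z' hz' lt r hr r' hr' a ha b hb c hc l1 l2
    obtain ⟨⟨x, y⟩, h, rfl⟩ := mem_image.1 hz
    obtain ⟨hx, hy⟩ := mem_product.1 h
    obtain ⟨⟨x', y'⟩, h0, rfl⟩ := mem_image.1 hz'
    obtain ⟨hx', hy'⟩ := mem_product.1 h0
    clear h h0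
    change a ∈ J x y r at ha
    change b ∈ J x' y' r' at hb
    change c ∈ J x y r at hc
    rw [ff] at lt
    dsimp only at lt l1 hx hy hx' hy'
    rcases (mJ _ _ _ _).1 ha with ⟨h, α, a, rfl⟩ | ⟨h, α, a, rfl⟩ <;>
      rcases (mJ _ _ _ _).1 hc with ⟨h', γ, c, rfl⟩ | ⟨h', γ, c, rfl⟩ <;> try contradiction
    · rw [ff] at l1
      obtain ⟨rfl, l0⟩ : x = x' ∧ y < y' := by
        rcases lt with lt | lt
        · rcases l1 with l1 | l1
          · exact absurd (lt.trans l1) (lt_irrefl _)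
          · exact absurd lt (l1.1 ▸ lt_irrefl _)
        · exact lt
      have l1 := (l1.resolve_left (lt_irrefl _)).2
      rcases (mJ _ _ _ _).1 hb with ⟨h'', β, b, rfl⟩ | ⟨h'', β, b, rfl⟩
      · rw [ff] at l2 ⊢
        exact Or.inr ⟨rfl, c5 y hy y' hy' l0 r h' r' h'' α a β b γ c l1 (l2.resolve_left (lt_irrefl _)).2⟩
      · exact (fg _ _ _).2 (ge x hx y' hy' β b)
    · rw [fg] at l1
      rcases (mJ _ _ _ _).1 hb with ⟨h'', β, b, rfl⟩ | ⟨h'', β, b, rfl⟩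
      · rw [gf] at l2; exact absurd (l1.trans_lt l2) (lt_irrefl _)
      · rw [gg] at l2 ⊢
        have b' : β ∈ I' x' (ρ y') := b.resolve_left fun e => lt_irrefl _ ((e ▸ l1).trans_lt l2)
        rcases c with rfl | c
        · exact (ge _ hx y hy α a).trans_lt l2
        rcases lt with lt | ⟨rfl, lt⟩
        · have a' : α ∈ I' x (ρ y) := a.resolve_left fun e => lt_irrefl _ (lt.trans_le (e ▸ l1))
          exact d5 x hx x' hx' lt _ (ρ1 y hy) _ (ρ1 y' hy') α a' β b' γ c (lt_of_le_of_ne l1 fun e =>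
            disjoint_left.1 d2 hx' (e ▸ (d3 x hx _ (ρ1 y hy)).1 a')) l2
        · exact d4 x hx _ _ (ρ2 y hy y' lt) (ρ1 y' hy') β b' γ c

/-- a pattern: `n` letters, at most `2n` blocks, every letter in more than `i` blocks -/
theorem pattern (i : ℕ) : ∃ (T : Type) (_ : LinearOrder T) (Λ B : Finset T) (O : T → Finset T),
    0 < Λ.card ∧ B.card ≤ 2 * Λ.card ∧ (∀ l ∈ Λ, O l ⊆ B ∧ i ≤ (O l).card) ∧
    ∀ l ∈ Λ, ∀ l' ∈ Λ, l < l' →
      ∀ b ∈ O l', ∀ a ∈ O l, ∀ b' ∈ O l', ∀ c ∈ O l, b ≤ a → a < b' → c < b' := by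
  obtain ⟨T, _, Λ, D, I, c1, c2, c3, -, c5⟩ := good i 1
  refine ⟨T, inferInstance, Λ, Λ ∪ D, fun l => insert l (I l 0), by omega,
    (card_union_le _ _).trans (by omega), fun l hl => ⟨insert_subset (mem_union_left _ hl)
      ((c3 l hl 0 one_pos).1.trans subset_union_right),
      (c3 l hl 0 one_pos).2.1.ge.trans (card_le_card (subset_insert _ _))⟩,
    fun l hl l' hl' h => ?_⟩
  have ge : ∀ b ∈ insert l' (I l' 0), l' ≤ b := fun b hb =>
    (mem_insert.1 hb).elim (fun e => e.ge) fun e => ((c3 l' hl' 0 one_pos).2.2 b e).le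
  intro b hb a ha b' hb' c hc h1 h2
  have la := (ge b hb).trans h1
  rcases mem_insert.1 hc with rfl | hc
  · exact h.trans_le (ge b' hb')
  have a' : a ∈ I l 0 := (mem_insert.1 ha).resolve_left fun e => lt_irrefl _ (h.trans_le (e ▸ la))
  exact c5 l hl l' hl' h 0 one_pos 0 one_pos a a' b'
    ((mem_insert.1 hb').resolve_left fun e => lt_irrefl _ ((e ▸ la).trans_lt h2)) c hc
    (lt_of_le_of_ne la fun e => disjoint_left.1 c2 hl' (e ▸ (c3 l hl 0 one_pos).1 a')) h2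

end Pool.Agent.H31.DS
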