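import Pool.Agent.H31.DS1
import Pool.Agent.H31.HyperRamsey

open Finset

namespace Pool.Agent.H31.DS

def Free (u : ℕ → ℕ) (W : Finset ℕ) : Prop :=
  ∀ p1 ∈ W, ∀ p2 ∈ W, ∀ p3 ∈ W, ∀ p4 ∈ W, ∀ p5 ∈ W, p1 < p2 → p2 < p3 → p3 < p4 → p4 < p5 →
    u p1 = u p3 → u p3 = u p5 → u p2 = u p4 → u p1 = u p2

theorem emb {T : Type} [LinearOrder T] (Λ : Finset T) (Z : Finset ℕ) (h : Λ.card ≤ Z.card) :
    ∃ φ : T → ℕ, (∀ l ∈ Λ, φ l ∈ Z) ∧ ∀ l ∈ Λ, ∀ l' ∈ Λ, l < l' → φ l < φ l' := by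
  classical
  refine ⟨fun l => if hl : l ∈ Λ then Z.orderEmbOfCardLe h ((Λ.orderIsoOfFin rfl).symm ⟨l, hl⟩) else 0,
    fun l hl => ?_, fun l hl l' hl' lt => ?_⟩
  · simp only [hl, dif_pos]; exact orderEmbOfCardLe_mem _ _ _
  · simp only [hl, hl', dif_pos]
    exact (Z.orderEmbOfCardLe h).strictMono ((Λ.orderIsoOfFin rfl).symm.strictMono lt)

theorem piece (i : ℕ) : ∃ n R : ℕ, 0 < n ∧ 0 < R ∧ ∀ (u : ℕ → ℕ) (blk : ℕ → Finset ℕ),
    (∀ k k', k < k' → ∀ p ∈ blk k, ∀ p' ∈ blk k', p < p') → ∀ Ks Z : Finset ℕ, 4 * n ≤ Ks.card →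
    R ≤ Z.card → (∀ a ∈ Z, ∀ k ∈ Ks, a ∈ (blk k).image u) →
    ∃ W ⊆ Ks.biUnion blk, Free u W ∧ W.image u ⊆ Z ∧ (W.image u).card ≤ n ∧ i * n ≤ W.card := by
  classical
  obtain ⟨T, _, Λ, B, O, h0, h1, h2, h3⟩ := pattern i
  obtain ⟨R, hR⟩ := HyperRamsey.ramsey (Fin (4 * Λ.card) → Prop) 2 Λ.card
  refine ⟨Λ.card, R + 1, h0, by omega, fun u blk hm Ks Z hK hZ hp => ?_⟩
  have : ∀ a k, ∃ p, a ∈ Z → k ∈ Ks → p ∈ blk k ∧ u p = a := fun a k => by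
    by_cases h : a ∈ Z ∧ k ∈ Ks
    · obtain ⟨p, a, b⟩ := mem_image.1 (hp a h.1 k h.2); exact ⟨p, fun _ _ => ⟨a, b⟩⟩
    · exact ⟨0, fun a b => absurd ⟨a, b⟩ h⟩
  choose π hπ using this
  let e := Ks.orderEmbOfCardLe hK
  have eK : ∀ t, e t ∈ Ks := orderEmbOfCardLe_mem _ _
  obtain ⟨Z', z1, z2, col, z3⟩ := hR ℕ Z
    (fun P t => ∀ a ∈ P, ∀ a' ∈ P, a < a' → π a (e t) < π a' (e t)) (by omega)
  have pr : ∀ a ∈ Z', ∀ a' ∈ Z', a < a' → ∀ t, col t ↔ π a (e t) < π a' (e t) := fun a ha a' ha' l t => by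
    rw [← z3 {a, a'} (by simp [insert_subset_iff, ha, ha']) (card_pair l.ne)]
    simp [l, l.le]
  obtain ⟨φ, K', f1, f2, f3, f4⟩ : ∃ (φ : T → ℕ) (K' : Finset ℕ), (∀ l ∈ Λ, φ l ∈ Z') ∧ K' ⊆ Ks ∧
      B.card ≤ K'.card ∧ ∀ l ∈ Λ, ∀ l' ∈ Λ, l < l' → φ l ≠ φ l' ∧ ∀ k ∈ K', π (φ l') k < π (φ l) k := by
    have tot := card_filter_add_card_filter_not (s := (univ : Finset (Fin (4 * Λ.card)))) col
    rw [card_univ, Fintype.card_fin] at tot
    by_cases c : 2 * Λ.card ≤ (univ.filter col).card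
    · obtain ⟨φ, a, b⟩ := emb (T := Tᵒᵈ) Λ Z' z2.ge
      refine ⟨φ, (univ.filter col).image e, a, image_subset_iff.2 fun t _ => eK t, by
        rw [card_image_of_injective _ e.injective]; omega, fun l hl l' hl' lt =>
        ⟨(b l' hl' l hl lt).ne', fun k hk => ?_⟩⟩
      obtain ⟨t, ht, rfl⟩ := mem_image.1 hk
      exact (pr _ (a l' hl') _ (a l hl) (b l' hl' l hl lt) t).1 (mem_filter.1 ht).2
    · obtain ⟨φ, a, b⟩ := emb Λ Z' z2.ge
      refine ⟨φ, (univ.filter fun t => ¬ col t).image e, a, image_subset_iff.2 fun t _ => eK t, by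
        rw [card_image_of_injective _ e.injective]; omega, fun l hl l' hl' lt =>
        ⟨(b l hl l' hl' lt).ne, fun k hk => ?_⟩⟩
      obtain ⟨t, ht, rfl⟩ := mem_image.1 hk
      refine lt_of_le_of_ne (not_lt.1 fun h => (mem_filter.1 ht).2
        ((pr _ (a l hl) _ (a l' hl') (b l hl l' hl' lt) t).2 h)) fun h => (b l hl l' hl' lt).ne ?_
      rw [← (hπ _ _ (z1 (a l hl)) (eK t)).2, ← h, (hπ _ _ (z1 (a l' hl')) (eK t)).2]
  obtain ⟨ψ, g1, g2⟩ := emb B K' f3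
  have finj : ∀ l ∈ Λ, ∀ l' ∈ Λ, φ l = φ l' → l = l' := fun l hl l' hl' h => by
    rcases lt_trichotomy l l' with c | c | c
    · exact absurd h (f4 l hl l' hl' c).1
    · exact c
    · exact absurd h.symm (f4 l' hl' l hl c).1
  have P : ∀ l ∈ Λ, ∀ t ∈ O l, π (φ l) (ψ t) ∈ blk (ψ t) ∧ u (π (φ l) (ψ t)) = φ l := fun l hl t ht =>
    hπ _ _ (z1 (f1 l hl)) (f2 (g1 t ((h2 l hl).1 ht)))
  have le : ∀ l ∈ Λ, ∀ t ∈ O l, ∀ l' ∈ Λ, ∀ t' ∈ O l', π (φ l) (ψ t) ≤ π (φ l') (ψ t') → t ≤ t' :=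
    fun l hl t ht l' hl' t' ht' h => not_lt.1 fun c => not_lt.2 h (hm _ _
      (g2 t' ((h2 l' hl').1 ht') t ((h2 l hl).1 ht) c) _ (P l' hl' t' ht').1 _ (P l hl t ht).1)
  have key : ∀ l ∈ Λ, ∀ l' ∈ Λ, l < l' → ∀ b ∈ O l', ∀ a ∈ O l, ∀ b' ∈ O l', ∀ c ∈ O l,
      π (φ l') (ψ b) < π (φ l) (ψ a) → π (φ l) (ψ a) < π (φ l') (ψ b') →
      π (φ l') (ψ b') < π (φ l) (ψ c) → False := fun l hl l' hl' lt b hb a ha b' hb' c hc x y z =>
    not_lt.2 (le _ hl' _ hb' _ hl _ hc z.le) (h3 l hl l' hl' lt b hb a ha b' hb' c hc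
      (le _ hl' _ hb _ hl _ ha x.le) (lt_of_le_of_ne (le _ hl _ ha _ hl' _ hb' y.le) fun e =>
        not_lt.2 y.le (e ▸ (f4 l hl l' hl' lt).2 _ (g1 a ((h2 l hl).1 ha)))))
  have mW : ∀ p, p ∈ (Λ.sigma O).image (fun w => π (φ w.1) (ψ w.2)) →
      ∃ l ∈ Λ, ∃ t ∈ O l, π (φ l) (ψ t) = p := fun p hp => by
    obtain ⟨⟨l, t⟩, h, rfl⟩ := mem_image.1 hp
    exact ⟨l, (mem_sigma.1 h).1, t, (mem_sigma.1 h).2, rfl⟩
  have sub : ((Λ.sigma O).image fun w => π (φ w.1) (ψ w.2)).image u ⊆ Z' := fun a ha => by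
    obtain ⟨p, hp, rfl⟩ := mem_image.1 ha
    obtain ⟨l, hl, t, ht, rfl⟩ := mW p hp
    rw [(P l hl t ht).2]; exact f1 l hl
  refine ⟨(Λ.sigma O).image fun w => π (φ w.1) (ψ w.2), fun p hp => ?_, ?_, sub.trans z1,
    (card_le_card sub).trans z2.le, ?_⟩
  · obtain ⟨l, hl, t, ht, rfl⟩ := mW p hp
    exact mem_biUnion.2 ⟨_, f2 (g1 t ((h2 l hl).1 ht)), (P l hl t ht).1⟩
  · intro p1 m1 p2 m2 p3 m3 p4 m4 p5 m5 a b c d e1 e2 e3
    obtain ⟨l1, k1, t1, s1, rfl⟩ := mW _ m1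
    obtain ⟨l2, k2, t2, s2, rfl⟩ := mW _ m2
    obtain ⟨l3, k3, t3, s3, rfl⟩ := mW _ m3
    obtain ⟨l4, k4, t4, s4, rfl⟩ := mW _ m4
    obtain ⟨l5, k5, t5, s5, rfl⟩ := mW _ m5
    simp only [(P _ k1 _ s1).2, (P _ k2 _ s2).2, (P _ k3 _ s3).2, (P _ k4 _ s4).2, (P _ k5 _ s5).2] at e1 e2 e3 ⊢
    obtain rfl := finj _ k1 _ k3 e1
    obtain rfl := finj _ k1 _ k5 e2
    obtain rfl := finj _ k2 _ k4 e3
    rcases lt_trichotomy l1 l2 with h | h | h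
    · exact (key _ k1 _ k2 h _ s2 _ s3 _ s4 _ s5 b c d).elim
    · rw [h]
    · exact (key _ k2 _ k1 h _ s1 _ s2 _ s3 _ s4 a b c).elim
  · rw [card_image_of_injOn, card_sigma, mul_comm]
    · exact card_nsmul_le_sum _ _ _ fun l hl => (h2 l hl).2
    · rintro ⟨l, t⟩ h ⟨l', t'⟩ h' e
      obtain ⟨a, b⟩ := mem_sigma.1 h
      obtain ⟨a', b'⟩ := mem_sigma.1 h'
      dsimp only at e a b a' b'
      obtain rfl := finj l a l' a' (by rw [← (P l a t b).2, e, (P l' a' t' b').2])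
      rw [le_antisymm (le _ a _ b _ a _ b' e.le) (le _ a _ b' _ a _ b e.ge)]

theorem free_union {u : ℕ → ℕ} {W W' : Finset ℕ} (h : Free u W) (h' : Free u W')
    (lt : ∀ p ∈ W, ∀ p' ∈ W', p < p') (ne : ∀ p ∈ W, ∀ p' ∈ W', u p ≠ u p') : Free u (W ∪ W') := by
  intro p1 m1 p2 m2 p3 m3 p4 m4 p5 m5 a b c d e1 e2 e3
  rw [mem_union] at *
  rcases m5 with m5 | m5
  · have A : ∀ p, p < p5 → p ∈ W ∨ p ∈ W' → p ∈ W := fun p l m =>
      m.resolve_right fun m => lt_asymm l (lt _ m5 _ m)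
    exact h _ (A _ (by omega) m1) _ (A _ (by omega) m2) _ (A _ (by omega) m3) _ (A _ d m4) _ m5 a b c d e1 e2 e3
  · have m1 := m1.resolve_left fun m => ne _ m _ m5 (e1.trans e2)
    have A : ∀ p, p1 < p → p ∈ W ∨ p ∈ W' → p ∈ W' := fun p l m =>
      m.resolve_left fun m => lt_asymm l (lt _ m _ m1)
    exact h' _ m1 _ (A _ a m2) _ (A _ (by omega) m3) _ (A _ (by omega) m4) _ m5 a b c d e1 e2 e3

theorem stage2 (i : ℕ) : ∃ n R : ℕ, 0 < n ∧ ∀ (u : ℕ → ℕ) (blk : ℕ → Finset ℕ),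
    (∀ k k', k < k' → ∀ p ∈ blk k, ∀ p' ∈ blk k', p < p') → ∀ (A : Finset ℕ) (b d G : ℕ), 0 < b →
    (∀ k < G * b, (blk k).image u ⊆ A ∧ d + G * n ≤ ((blk k).image u).card) →
    4 * n * A.card + b * (2 ^ b * R) ≤ b * d →
    ∃ W ⊆ (range (G * b)).biUnion blk, Free u W ∧ G * (i * n) ≤ W.card := by
  classical
  obtain ⟨n, R, n0, R0, H⟩ := piece i
  refine ⟨n, R, n0, fun u blk hm A b d G b0 h1 h2 => ?_⟩
  have : ∀ g ≤ G, ∃ W ⊆ (range (g * b)).biUnion blk, Free u W ∧ (W.image u).card ≤ g * n ∧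
      g * (i * n) ≤ W.card := by
    intro g
    induction g with
    | zero => exact fun _ => ⟨∅, by simp [Free]⟩
    | succ g ih =>
      intro hg
      obtain ⟨W, w1, w2, w3, w4⟩ := ih (by omega)
      have gb : g * b + b ≤ G * b := by nlinarith
      have gn : g * n ≤ G * n := Nat.mul_le_mul_right _ (by omega)
      set J := Ico (g * b) (g * b + b) with hJ
      have cJ : J.card = b := by simp [hJ]
      let S : ℕ → Finset ℕ := fun a => {k ∈ J | a ∈ (blk k).image u \ W.image u}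
      let Hv : Finset ℕ := {a ∈ A | 4 * n ≤ (S a).card}
      have s1 : b * d ≤ ∑ a ∈ A, (S a).card := by
        simp only [S, card_filter]
        rw [sum_comm, ← cJ]
        refine card_nsmul_le_sum _ _ _ fun k hk => ?_
        obtain ⟨a1, a2⟩ := h1 k (by have := (mem_Ico.1 hk).2; omega)
        rw [← card_filter, filter_mem_eq_inter, inter_eq_right.2 (sdiff_subset.trans a1)]
        have := le_card_sdiff (W.image u) ((blk k).image u)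
        omega
      have s2 : ∑ a ∈ A, (S a).card ≤ Hv.card * b + A.card * (4 * n) := by
        rw [← sum_filter_add_sum_filter_not A fun a => 4 * n ≤ (S a).card]
        refine add_le_add (sum_le_card_nsmul _ _ _ fun a _ => (card_filter_le _ _).trans cJ.le)
          ((sum_le_card_nsmul _ _ (4 * n) fun a ha => (not_le.1 (mem_filter.1 ha).2).le).trans
            (Nat.mul_le_mul_right _ (card_filter_le _ _)))
      have s3 : J.powerset.card * R ≤ Hv.card := by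
        rw [card_powerset, cJ]
        exact Nat.le_of_mul_le_mul_left (by nlinarith) b0
      obtain ⟨Ks, -, hZ⟩ := exists_le_card_fiber_of_mul_le_card_of_maps_to (f := S)
        (fun a _ => mem_powerset.2 (filter_subset _ _)) ⟨∅, by simp⟩ s3
      obtain ⟨a0, ha0⟩ := card_pos.1 (R0.trans_le hZ)
      obtain ⟨x1, x2⟩ := mem_filter.1 ha0
      have k4 : 4 * n ≤ Ks.card := x2 ▸ (mem_filter.1 x1).2
      obtain ⟨k0, hk0⟩ := card_pos.1 (show 0 < Ks.card by omega)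
      have zz : ∀ a ∈ ({a ∈ Hv | S a = Ks} : Finset ℕ), ∀ k ∈ Ks, k ∈ J ∧ a ∈ (blk k).image u \ W.image u :=
        fun a ha k hk => mem_filter.1 (show k ∈ S a from (mem_filter.1 ha).2 ▸ hk)
      obtain ⟨V, v1, v2, v3, v4, v5⟩ := H u blk hm Ks _ k4 hZ fun a ha k hk => (mem_sdiff.1 (zz a ha k hk).2).1
      have lt : ∀ p ∈ W, ∀ p' ∈ V, p < p' := fun p hp p' hp' => by
        obtain ⟨k, a, b⟩ := mem_biUnion.1 (w1 hp)
        obtain ⟨k', a', b'⟩ := mem_biUnion.1 (v1 hp')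
        exact hm k k' ((mem_range.1 a).trans_le (mem_Ico.1 (zz a0 ha0 k' a').1).1) p b p' b'
      refine ⟨W ∪ V, union_subset (w1.trans (biUnion_subset_biUnion_of_subset_left _
        (range_subset_range.2 (by nlinarith)))) (v1.trans (biUnion_subset_biUnion_of_subset_left _
        fun k hk => mem_range.2 (by have := (mem_Ico.1 (zz a0 ha0 k hk).1).2; nlinarith))),
        free_union w2 v2 lt fun p hp p' hp' e => (mem_sdiff.1 (zz _ (v3 (mem_image_of_mem u hp')) k0 hk0).2).2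
          (e ▸ mem_image_of_mem u hp), ?_, ?_⟩
      · rw [image_union]; refine (card_union_le _ _).trans ?_; nlinarith
      · rw [card_union_of_disjoint (disjoint_left.2 fun p a b => lt_irrefl _ (lt p a p b))]; nlinarith
  obtain ⟨W, a, b, -, c⟩ := this G le_rfl
  exact ⟨W, a, b, c⟩

end Pool.Agent.H31.DS
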