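import Pool.Agent.H31.DS2

open Finset

namespace Pool.Agent.H31.DS

theorem stage1 (K s q : ℕ) (hs : s = 2 * K * (2 * K + 1)) (K0 : 0 < K) (u : ℕ → ℕ)
    (h : ∀ W ⊆ range (q * q), Free u W → W.card < K * q) :
    ((range (q * q)).image u).card < K * q ∧
    q ≤ 2 * ({k ∈ range q | q / (2 * s) ≤ ((Ico (k * q) (k * q + q)).image u).card} : Finset ℕ).card := by
  classical
  set A := (range (q * q)).image u with hA
  have bsub : ∀ k < q, Ico (k * q) (k * q + q) ⊆ range (q * q) := fun k hk p hp =>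
    mem_range.2 (by have := (mem_Ico.1 hp).2; nlinarith)
  have one : ∀ a, ({p ∈ range (q * q) | u p = a} : Finset ℕ).card < K * q := fun a =>
    h _ (filter_subset _ _) fun p1 m1 p2 m2 _ _ _ _ _ _ _ _ _ _ _ _ _ =>
      (mem_filter.1 m1).2.trans (mem_filter.1 m2).2.symm
  constructor
  · obtain ⟨W, w1, w2, w3⟩ := exists_subset_injOn_image_eq_of_surjOn (f := u) (range (q * q)) A
      (by rw [hA, coe_image]; exact Set.surjOn_image _ _)
    rw [← w3, card_image_of_injOn w2]
    exact h W w1 fun p1 m1 p2 _ p3 m3 _ _ _ _ a b _ _ e _ _ => absurd (w2 m1 m3 e) (by omega)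
  let E : ℕ × ℕ → Finset ℕ := fun w => {p ∈ Ico (w.1 * q) (w.1 * q + q) | u p = w.2}
  obtain ⟨M, hM, mx⟩ := exists_max_image ((range q ×ˢ A).powerset.filter fun M : Finset (ℕ × ℕ) =>
    Set.InjOn Prod.fst (M : Set (ℕ × ℕ)) ∧
    Set.InjOn Prod.snd (M : Set (ℕ × ℕ)) ∧ ∀ w ∈ M, s ≤ (E w).card) card ⟨∅, by simp⟩
  obtain ⟨m0, m1, m2, m3⟩ := mem_filter.1 hM
  rw [mem_powerset] at m0
  have c1 : M.card * s < K * q := by
    refine lt_of_le_of_lt ?_ (h (M.biUnion E) (fun p hp => ?_) ?_)
    · rw [card_biUnion fun w hw w' hw' n => disjoint_left.2 fun p a b =>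
        n (m2 hw hw' ((mem_filter.1 a).2.symm.trans (mem_filter.1 b).2))]
      exact card_nsmul_le_sum _ _ _ m3
    · obtain ⟨w, hw, a⟩ := mem_biUnion.1 hp
      exact bsub _ (mem_range.1 (mem_product.1 (m0 hw)).1) (mem_filter.1 a).1
    · intro p1 n1 p2 n2 p3 n3 _ _ _ _ a b _ _ e _ _
      obtain ⟨w1, h1, a1⟩ := mem_biUnion.1 n1
      obtain ⟨w2, h2, a2⟩ := mem_biUnion.1 n2
      obtain ⟨w3, h3, a3⟩ := mem_biUnion.1 n3
      simp only [E, mem_filter, mem_Ico] at a1 a2 a3
      obtain rfl := m2 h1 h3 (a1.2.symm.trans (e.trans a3.2))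
      have : w1.1 = w2.1 := by
        rcases lt_trichotomy w1.1 w2.1 with c | c | c
        · exfalso; nlinarith [a1.1.1, a2.1.1, a3.1.2]
        · exact c
        · exfalso; nlinarith [a1.1.1, a2.1.2, a3.1.2]
      rw [a1.2, a2.2, m1 h1 h2 this]
  set U := M.image Prod.snd with hU
  let Bad : Finset ℕ := {k ∈ range q | ¬ q / (2 * s) ≤ ((Ico (k * q) (k * q + q)).image u).card}
  have c2 : ∀ k ∈ Bad \ M.image Prod.fst,
      q ≤ 2 * ({p ∈ Ico (k * q) (k * q + q) | u p ∈ U} : Finset ℕ).card := by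
    intro k hk
    obtain ⟨hk, k2⟩ := mem_sdiff.1 hk
    obtain ⟨k0, k1⟩ := mem_filter.1 hk
    have t := card_filter_add_card_filter_not (s := Ico (k * q) (k * q + q)) fun p => u p ∈ U
    have : ({p ∈ Ico (k * q) (k * q + q) | u p ∉ U} : Finset ℕ).card ≤
        s * ((Ico (k * q) (k * q + q)).image u).card := by
      refine card_le_mul_card_image_of_maps_to (fun p hp => mem_image_of_mem _ (mem_filter.1 hp).1) s
        fun a ha => ?_
      by_cases c : a ∈ U
      · rw [filter_false_of_mem]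
        · simp
        · intro p hp e
          have := (mem_filter.1 hp).2
          exact this (e ▸ c)
      by_contra hc
      have nm : (k, a) ∉ M := fun e => c (mem_image_of_mem _ e)
      have := mx (insert (k, a) M) (mem_filter.2 ⟨mem_powerset.2 (insert_subset (mem_product.2
        ⟨k0, image_subset_image (bsub k (mem_range.1 k0)) ha⟩) m0), ?_, ?_, fun w hw => ?_⟩)
      · rw [card_insert_of_notMem nm] at this; omega
      · rw [coe_insert, Set.injOn_insert nm]; exact ⟨m1, by simpa using k2⟩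
      · rw [coe_insert, Set.injOn_insert nm]; exact ⟨m2, by simpa [hU] using c⟩
      · rcases mem_insert.1 hw with rfl | hw
        · exact (not_le.1 hc).le.trans (card_le_card fun p hp => mem_filter.2
            ⟨(mem_filter.1 (mem_filter.1 hp).1).1, (mem_filter.1 hp).2⟩)
        · exact m3 w hw
    have a := Nat.mul_le_mul_left s (not_le.1 k1).le
    have b := Nat.mul_div_le q (2 * s)
    rw [Nat.card_Ico] at t
    rw [mul_assoc] at b
    omega
  have c3 : (Bad \ M.image Prod.fst).card * q ≤ 2 * (M.card * (K * q)) := by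
    refine (card_nsmul_le_sum _ _ _ c2).trans ?_
    rw [← mul_sum, ← card_biUnion]
    · refine Nat.mul_le_mul_left 2 (le_trans (card_le_card (t := U.biUnion fun a =>
        {p ∈ range (q * q) | u p = a}) fun p hp => ?_) ((card_biUnion_le_card_mul _ _ _ fun a _ =>
        (one a).le).trans (Nat.mul_le_mul_right _ card_image_le)))
      obtain ⟨k, a, b⟩ := mem_biUnion.1 hp
      exact mem_biUnion.2 ⟨_, (mem_filter.1 b).2, mem_filter.2
        ⟨bsub k (mem_range.1 (mem_filter.1 (mem_sdiff.1 a).1).1) (mem_filter.1 b).1, rfl⟩⟩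
    · intro k _ k' _ n
      refine disjoint_left.2 fun p a b => n ?_
      have a := mem_Ico.1 (mem_filter.1 a).1
      have b := mem_Ico.1 (mem_filter.1 b).1
      rcases lt_trichotomy k k' with c | c | c
      · exfalso; nlinarith [a.2, b.1]
      · exact c
      · exfalso; nlinarith [a.1, b.2]
  have q0 : 0 < q := by rcases Nat.eq_zero_or_pos q with rfl | h; · simp at c1
                        · exact h
  have c4 : (Bad \ M.image Prod.fst).card ≤ 2 * K * M.card := Nat.le_of_mul_le_mul_right (by nlinarith) q0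
  have c5 := le_card_sdiff (M.image Prod.fst) Bad
  have c6 : (M.image Prod.fst).card ≤ M.card := card_image_le
  have c7 : 2 * (2 * K * M.card + M.card) < q := Nat.lt_of_mul_lt_mul_left (a := K) (by rw [hs] at c1; nlinarith)
  have t := card_filter_add_card_filter_not (s := range q)
    fun k => q / (2 * s) ≤ ((Ico (k * q) (k * q + q)).image u).card
  rw [card_range] at t
  simp only [Bad] at *
  omega

theorem main (K : ℕ) (K0 : 0 < K) : ∃ q0, ∀ q, q0 ≤ q → ∀ u : ℕ → ℕ,
    ∃ W ⊆ range (q * q), Free u W ∧ K * q ≤ W.card := by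
  classical
  obtain ⟨s, hs⟩ : ∃ s, s = 2 * K * (2 * K + 1) := ⟨_, rfl⟩
  have s0 : 0 < s := by rw [hs]; positivity
  obtain ⟨n, R, n0, H⟩ := stage2 (8 * s * (4 * K + 2) * K)
  obtain ⟨c, hc⟩ : ∃ c, c = (4 * K + 2) * n := ⟨_, rfl⟩
  have c0 : 0 < c := by rw [hc]; positivity
  obtain ⟨b, hb⟩ : ∃ b, b = 2 * s * c := ⟨_, rfl⟩
  have b0 : 0 < b := by rw [hb]; positivity
  refine ⟨4 * b + b * (2 ^ b * R), fun q hq u => ?_⟩
  by_contra hn
  push Not at hn
  obtain ⟨a1, a2⟩ := stage1 K s q hs K0 u hn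
  set Q := ({k ∈ range q | q / (2 * s) ≤ ((Ico (k * q) (k * q + q)).image u).card} : Finset ℕ) with hQ
  obtain ⟨θ, t1, t2, -⟩ := HyperRamsey.ext_enum Q q (filter_subset _ _)
  set G := q / (2 * b) with hG
  set d := q / (2 * s) with hd
  have g1 : 2 * b * G ≤ q := Nat.mul_div_le _ _
  have g2 : q < 2 * b * (G + 1) := Nat.lt_mul_div_succ _ (by omega)
  have d2 : q < 2 * s * (d + 1) := Nat.lt_mul_div_succ _ (by omega)
  have tQ : ∀ k < G * b, θ k ∈ Q := fun k hk => t2 ▸ mem_image_of_mem _ (mem_range.2 (by nlinarith))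
  have bsub : ∀ k < G * b, Ico (θ k * q) (θ k * q + q) ⊆ range (q * q) := fun k hk p hp =>
    mem_range.2 (by have := (mem_Ico.1 hp).2; have := mem_range.1 (mem_filter.1 (tQ k hk)).1; nlinarith)
  have bd : c * q ≤ b * d + b := by rw [hb]; nlinarith
  have bg : 2 * (b * (G * n)) ≤ n * q := by nlinarith
  have cq : c * q = 4 * (n * (K * q)) + 2 * (n * q) := by rw [hc]; ring
  have nq : q ≤ n * q := Nat.le_mul_of_pos_left _ n0
  have dG : G * n ≤ d := Nat.le_of_mul_le_mul_left (by omega) b0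
  obtain ⟨W, w1, w2, w3⟩ := H u (fun k => Ico (θ k * q) (θ k * q + q))
    (fun k k' l p hp p' hp' => by
      have := t1 l; have := (mem_Ico.1 hp).2; have := (mem_Ico.1 hp').1; nlinarith)
    ((range (q * q)).image u) b (d - G * n) G b0
    (fun k hk => ⟨image_subset_image (bsub k hk), by
      rw [Nat.sub_add_cancel dG]; exact (mem_filter.1 (tQ k hk)).2⟩)
    (by
      have := Nat.mul_le_mul_left n a1.le
      rw [Nat.mul_sub, mul_assoc 4]
      omega)
  refine absurd (hn W (w1.trans (biUnion_subset.2 fun k hk => bsub k (mem_range.1 hk))) w2) (not_lt.2 ?_)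
  refine le_trans ?_ w3
  have : q ≤ 4 * b * G := by nlinarith [Nat.zero_le (b * (2 ^ b * R))]
  calc K * q ≤ K * (4 * b * G) := Nat.mul_le_mul_left _ this
    _ = _ := by rw [hb, hc]; ring

end Pool.Agent.H31.DS
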