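import Mathlib

namespace Pool.Agent.H31.DSF

open Finset

/-- Finite simple graphs. -/
abbrev Gr := Σ n : ℕ, SimpleGraph (Fin n)

/-- Isomorphism of finite graphs. -/
def isoSetoid : Setoid Gr where
  r G H := Nonempty (G.2 ≃g H.2)
  iseqv := ⟨fun _ => ⟨SimpleGraph.Iso.refl⟩, fun ⟨e⟩ => ⟨e.symm⟩, fun ⟨e⟩ ⟨f⟩ => ⟨e.trans f⟩⟩

/-- Finite graphs up to isomorphism. -/
def Cl := Quotient isoSetoid

/-- The isomorphism class of a graph. -/
def cl (G : Gr) : Cl := Quotient.mk isoSetoid G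

/-- The degree sequence: the degrees in non-increasing order. -/
noncomputable def degSeq (G : Gr) : List ℕ :=
  (univ.val.map fun v => (G.2.neighborSet v).ncard).sort (· ≥ ·)

/-- `H` has an induced subgraph isomorphic to `G`. -/
def Induces (H G : Gr) : Prop := Nonempty (G.2 ↪g H.2)

/-- `H ∈ P(G)`. -/
def InP (G H : Gr) : Prop := ∃ H' : Gr, degSeq H' = degSeq H ∧ Induces H' G

/-- `H ∈ P(G)` and no proper induced subgraph of `H` is in `P(G)`. -/
def InD (G H : Gr) : Prop := InP G H ∧ ∀ K : Gr, K.1 < H.1 → Induces H K → ¬ InP G K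

/-- The set `D(G)` of isomorphism classes. -/
def D (G : Gr) : Set Cl := {c | ∃ H : Gr, cl H = c ∧ InD G H}

/-- `H` is `F`-free. -/
def Free (F : Set Cl) (H : Gr) : Prop := ∀ G : Gr, cl G ∈ F → ¬ Induces H G

/-- Degree-sequence-forcing sets. -/
def IsDSF (F : Set Cl) : Prop :=
  F.Nonempty ∧ ∀ H H' : Gr, degSeq H = degSeq H' → Free F H → Free F H'

/-- Minimal degree-sequence-forcing sets. -/
def IsMinDSF (F : Set Cl) : Prop := IsDSF F ∧ ∀ F' : Set Cl, F' ⊂ F → ¬ IsDSF F'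

theorem exists_equiv {G H : Gr} (h : degSeq G = degSeq H) : ∃ e : Fin G.1 ≃ Fin H.1,
    ∀ v, (H.2.neighborSet (e v)).ncard = (G.2.neighborSet v).ncard := by
  have h1 := congrArg (fun l : List ℕ => (l : Multiset ℕ)) h
  simp only [degSeq, Multiset.sort_eq] at h1
  have h2 : ∀ c, Fintype.card {v // (G.2.neighborSet v).ncard = c} =
      Fintype.card {v // (H.2.neighborSet v).ncard = c} := by
    intro c
    have := congrArg (Multiset.count c) h1
    rw [Multiset.count_map, Multiset.count_map] at this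
    rw [Fintype.card_subtype, Fintype.card_subtype]
    simp only [eq_comm (b := c)]
    exact this
  exact ⟨Equiv.ofFiberEquiv fun c => Fintype.equivOfCardEq (h2 c), fun v =>
    Equiv.ofFiberEquiv_map (fun c => Fintype.equivOfCardEq (h2 c)) v⟩

theorem degSeq_eq {G H : Gr} (e : Fin G.1 ≃ Fin H.1)
    (h : ∀ v, (H.2.neighborSet (e v)).ncard = (G.2.neighborSet v).ncard) :
    degSeq G = degSeq H := by
  unfold degSeq
  congr 1
  rw [← Finset.map_univ_equiv e, Finset.map_val, Multiset.map_map]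
  exact Multiset.map_congr rfl fun v _ => (h v).symm

theorem deg_comap {U V : Type} (e : U ≃ V) (K : SimpleGraph V) (v : U) :
    ((K.comap e).neighborSet v).ncard = (K.neighborSet (e v)).ncard :=
  Set.ncard_congr (fun w _ => e w) (fun _ h => h) (fun _ _ _ _ h => e.injective h)
    (fun b hb => ⟨e.symm b, by simpa using hb, by simp⟩)

section defect
variable {U : Type} [Fintype U]

/-- defect pairs of a tripartition -/
def df {U : Type} (K : SimpleGraph U) (τ : U → Fin 3) (u w : U) : Prop :=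
  (τ u = 0 ∧ τ w ≠ 1 ∧ w ≠ u ∧ ¬ K.Adj u w) ∨ (τ u = 1 ∧ τ w ≠ 0 ∧ K.Adj u w)

open Classical in
noncomputable def Def (K : SimpleGraph U) (τ : U → Fin 3) : Finset (U × U) :=
  univ.filter fun p => df K τ p.1 p.2

open Classical in
theorem def_formula (K : SimpleGraph U) (τ : U → Fin 3) : (#(Def K τ) : ℤ) =
    ∑ u, if τ u = 0 then (#{w | τ w ≠ 1} : ℤ) - 1 - (K.neighborSet u).ncard else
      if τ u = 1 then ((K.neighborSet u).ncard : ℤ) else 0 := by
  have hd : ∀ u, ((K.neighborSet u).ncard : ℤ) = ∑ w, if K.Adj u w then 1 else 0 := by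
    intro u
    rw [Set.ncard_eq_toFinset_card', ← natCast_card_filter]
    congr 2
    ext w; simp
  have h1 : ∀ u : U, (1 : ℤ) = ∑ w, if w = u then 1 else 0 := by intro u; simp
  have hs : ∑ u, ∑ w, (if τ u = 0 ∧ τ w = 1 ∧ K.Adj u w then (1 : ℤ) else 0) =
      ∑ u, ∑ w, (if τ u = 1 ∧ τ w = 0 ∧ K.Adj u w then (1 : ℤ) else 0) := by
    rw [sum_comm]
    refine sum_congr rfl fun u _ => sum_congr rfl fun w _ => ?_
    refine if_congr ?_ rfl rfl
    rw [K.adj_comm]; tauto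
  have h2 : (#(Def K τ) : ℤ) = ∑ u, ∑ w, if df K τ u w then (1 : ℤ) else 0 := by
    rw [Def, natCast_card_filter, ← univ_product_univ, sum_product]
  rw [h2, ← sub_eq_zero]
  refine Eq.trans ?_ (sub_eq_zero.2 hs)
  rw [← sum_sub_distrib, ← sum_sub_distrib]
  refine sum_congr rfl fun u _ => ?_
  rw [hd u, natCast_card_filter]
  by_cases a : τ u = 0
  · rw [if_pos a, h1 u]
    simp only [← sum_sub_distrib]
    refine sum_congr rfl fun w _ => ?_
    by_cases b : w = u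
    · subst b; simp [df, a]
    · by_cases c : τ w = 1 <;> by_cases d : K.Adj u w <;> simp [df, a, b, c, d]
  rw [if_neg a]
  by_cases a' : τ u = 1
  · rw [if_pos a']
    simp only [← sum_sub_distrib]
    refine sum_congr rfl fun w _ => ?_
    by_cases c : τ w = 0 <;> by_cases d : K.Adj u w <;> simp [df, a', c, d]
  · simp [df, a, a']

theorem def_eq (K K' : SimpleGraph U) (τ : U → Fin 3)
    (h : ∀ u, (K.neighborSet u).ncard = (K'.neighborSet u).ncard) : #(Def K τ) = #(Def K' τ) := by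
  have := def_formula K τ
  simp only [h] at this
  rw [← def_formula K' τ] at this
  exact_mod_cast this

theorem df_emb {U V : Type} {K : SimpleGraph U} {L : SimpleGraph V} (φ : K ↪g L) (τ : V → Fin 3)
    (u w : U) (h : df K (τ ∘ φ) u w) : df L τ (φ u) (φ w) := by
  unfold df at h ⊢
  rw [φ.map_adj_iff]
  simpa [φ.injective.eq_iff] using h

theorem def_le {V : Type} [Fintype V] {K : SimpleGraph U} {L : SimpleGraph V} (φ : K ↪g L)
    (τ : V → Fin 3) : #(Def K (τ ∘ φ)) ≤ #(Def L τ) := by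
  refine card_le_card_of_injOn (fun p => (φ p.1, φ p.2)) (fun p hp => ?_) (fun p _ q _ h => ?_)
  · simp only [Def, coe_filter, mem_univ, true_and, Set.mem_ofPred_eq] at hp ⊢
    exact df_emb φ τ _ _ hp
  · simp only [Prod.mk.injEq, φ.injective.eq_iff] at h
    exact Prod.ext h.1 h.2

end defect

def rel (n x y : ℕ) : Prop :=
  (x ≤ 3 ∧ (y ≤ 3 ∨ 8 ≤ y ∨ (y - x) % 4 = 0 ∨ (y - x) % 4 = 3)) ∨
    (8 ≤ x ∧ x < 8 + 2 * n ∧ x % 2 = 0) ∨ (8 + 2 * n ≤ x ∧ (y - x) % 2 = 1)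

def rH (n x y : ℕ) : Prop :=
  (7 ≤ x ∧ x < 8 + 2 * n ∧ y = x + 1 ∧ x % 2 = 1) ∨
    (¬ (7 ≤ x ∧ x < 8 + 2 * n ∧ y = x + 1) ∧ rel n x y)

def rH' (n x y : ℕ) : Prop := (x = 7 ∧ y = 8 + 2 * n) ∨ rel n x y

def mk (N : ℕ) (r : ℕ → ℕ → Prop) : SimpleGraph (Fin N) where
  Adj x y := (x.1 < y.1 ∧ r x y) ∨ (y.1 < x.1 ∧ r y x)
  symm := ⟨fun _ _ h => h.symm⟩
  loopless := ⟨fun _ h => by omega⟩

def H (n : ℕ) : Gr := ⟨12 + 2 * n, mk _ (rH n)⟩
def H' (n : ℕ) : Gr := ⟨12 + 2 * n, mk _ (rH' n)⟩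
/-- The graph on 12 vertices. -/
def G0 : SimpleGraph (Fin 12) := mk _ (rH' 0)

instance : DecidableRel G0.Adj := fun _ _ => by unfold G0 mk rH' rel; infer_instance

theorem swap_deg {V : Type} [Finite V] (s s' : Set V) (p q : V) (hp : p ∈ s) (hq : q ∉ s)
    (hp' : p ∉ s') (hq' : q ∈ s') (h : ∀ w, w ≠ p → w ≠ q → (w ∈ s ↔ w ∈ s')) :
    s.ncard = s'.ncard := by
  have : s' = insert q (s \ {p}) := by
    ext w
    by_cases a : w = q
    · simp [a, hq']
    by_cases b : w = p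
    · subst b; simp [a, hp']
    · simp [a, b, h w b a]
  rw [this, Set.ncard_exchange hq hp]

theorem deg_H0 (n : ℕ) (hn : 1 ≤ n) (v : Fin (12 + 2 * n)) :
    ((mk (12 + 2 * n) (rH' n)).neighborSet v).ncard =
    ((mk (12 + 2 * n) (rH n)).neighborSet v).ncard := by
  have hv : v.1 < 12 + 2 * n := v.2
  by_cases c : 7 ≤ v.1 ∧ v.1 ≤ 8 + 2 * n
  · obtain ⟨p, q, h⟩ : ∃ p q : ℕ, (v.1 % 2 = 1 ∧ q = v.1 + 1 ∧ ((v.1 = 7 ∧ p = 8 + 2 * n) ∨
        (7 < v.1 ∧ p = v.1 - 1))) ∨ (v.1 % 2 = 0 ∧ q = v.1 - 1 ∧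
        ((v.1 = 8 + 2 * n ∧ p = 7) ∨ (v.1 < 8 + 2 * n ∧ p = v.1 + 1))) := by
      by_cases a : v.1 % 2 = 1
      · by_cases b : v.1 = 7
        · exact ⟨_, _, Or.inl ⟨a, rfl, Or.inl ⟨b, rfl⟩⟩⟩
        · exact ⟨_, _, Or.inl ⟨a, rfl, Or.inr ⟨by omega, rfl⟩⟩⟩
      · by_cases b : v.1 = 8 + 2 * n
        · exact ⟨_, _, Or.inr ⟨by omega, rfl, Or.inl ⟨b, rfl⟩⟩⟩
        · exact ⟨_, _, Or.inr ⟨by omega, rfl, Or.inr ⟨by omega, rfl⟩⟩⟩
    have F1 : ∀ x y, 7 ≤ x → x < 8 + 2 * n → y = x + 1 → (rH n x y ↔ x % 2 = 1) := by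
      intro x y a b c; unfold rH; simp [a, b, c]
    have F2 : ∀ x y, 7 ≤ x → x < 8 + 2 * n → y = x + 1 → (rH' n x y ↔ x % 2 = 0) := by
      intro x y a b c; unfold rH' rel; omega
    have F3 : ∀ x y, x = 7 → y = 8 + 2 * n → rH' n x y ∧ ¬ rH n x y := by
      intro x y a b; unfold rH rH' rel; omega
    have L : ∀ (r : ℕ → ℕ → Prop) (y : ℕ) (hy : y < 12 + 2 * n), v.1 < y →
        ((⟨y, hy⟩ : Fin _) ∈ (mk _ r).neighborSet v ↔ r v.1 y) := by
      intro r y hy a; simp only [SimpleGraph.mem_neighborSet, mk]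
      rw [or_iff_left (by omega), and_iff_right a]
    have R : ∀ (r : ℕ → ℕ → Prop) (y : ℕ) (hy : y < 12 + 2 * n), y < v.1 →
        ((⟨y, hy⟩ : Fin _) ∈ (mk _ r).neighborSet v ↔ r y v.1) := by
      intro r y hy a; simp only [SimpleGraph.mem_neighborSet, mk]
      rw [or_iff_right (by omega), and_iff_right a]
    refine swap_deg _ _ ⟨p, by omega⟩ ⟨q, by omega⟩ ?_ ?_ ?_ ?_ (fun w a b => ?_)
    · rcases h with ⟨h1, h2, h3 | h3⟩ | ⟨h1, h2, h3 | h3⟩
      · rw [L _ _ _ (by omega)]; exact (F3 _ _ h3.1 h3.2).1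
      · rw [R _ _ _ (by omega), F2 _ _ (by omega) (by omega) (by omega)]; omega
      · rw [R _ _ _ (by omega)]; exact (F3 _ _ h3.2 h3.1).1
      · rw [L _ _ _ (by omega), F2 _ _ (by omega) (by omega) (by omega)]; omega
    · rcases h with ⟨h1, h2, h3⟩ | ⟨h1, h2, h3⟩
      · rw [L _ _ _ (by omega), F2 _ _ (by omega) (by omega) (by omega)]; omega
      · rw [R _ _ _ (by omega), F2 _ _ (by omega) (by omega) (by omega)]; omega
    · rcases h with ⟨h1, h2, h3 | h3⟩ | ⟨h1, h2, h3 | h3⟩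
      · rw [L _ _ _ (by omega)]; exact (F3 _ _ h3.1 h3.2).2
      · rw [R _ _ _ (by omega), F1 _ _ (by omega) (by omega) (by omega)]; omega
      · rw [R _ _ _ (by omega)]; exact (F3 _ _ h3.2 h3.1).2
      · rw [L _ _ _ (by omega), F1 _ _ (by omega) (by omega) (by omega)]; omega
    · rcases h with ⟨h1, h2, h3⟩ | ⟨h1, h2, h3⟩
      · rw [L _ _ _ (by omega), F1 _ _ (by omega) (by omega) (by omega)]; omega
      · rw [R _ _ _ (by omega), F1 _ _ (by omega) (by omega) (by omega)]; omega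
    · simp only [ne_eq, Fin.ext_iff] at a b
      simp only [SimpleGraph.mem_neighborSet, mk, rH, rH']
      refine or_congr (and_congr_right fun _ => ?_) (and_congr_right fun _ => ?_)
      · rw [or_iff_right (by omega), or_iff_right (by omega), and_iff_right (by omega)]
      · rw [or_iff_right (by omega), or_iff_right (by omega), and_iff_right (by omega)]
  · congr 1
    ext w
    simp only [SimpleGraph.mem_neighborSet, mk, rH, rH']
    refine or_congr (and_congr_right fun _ => ?_) (and_congr_right fun _ => ?_)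
    · rw [or_iff_right (by omega), or_iff_right (by omega), and_iff_right (by omega)]
    · rw [or_iff_right (by omega), or_iff_right (by omega), and_iff_right (by omega)]

theorem deg_H (n : ℕ) (hn : 1 ≤ n) : degSeq (H n) = degSeq (H' n) :=
  degSeq_eq (Equiv.refl _) (deg_H0 n hn)

def sh (n x : ℕ) : ℕ := if x ≤ 7 then x else x + 2 * n

theorem sh_spec (n x : ℕ) : (x ≤ 7 ∧ sh n x = x) ∨ (7 < x ∧ sh n x = x + 2 * n) := by
  unfold sh; split_ifs <;> omega

theorem sh_r (n x y : ℕ) (h : x < y) : rH' n (sh n x) (sh n y) ↔ rH' 0 x y := by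
  unfold rH' rel
  rcases sh_spec n x with a | a <;> rcases sh_spec n y with b | b <;> rw [a.2, b.2]
  · refine or_congr (by omega) (or_congr Iff.rfl (or_congr (by omega) (by omega)))
  · refine or_congr (by omega) (or_congr (by omega) (or_congr (by omega) (by omega)))
  · omega
  · refine or_congr (by omega) (or_congr (by omega) (or_congr (by omega) (by omega)))

theorem ind_H' (n : ℕ) : Induces (H' n) ⟨12, G0⟩ := by
  have hl : ∀ x : Fin 12, sh n x < 12 + 2 * n := fun x => by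
    have := x.2
    have := sh_spec n x
    omega
  refine ⟨⟨⟨fun x => ⟨sh n x.1, hl x⟩, fun x y h => ?_⟩, ?_⟩⟩
  · have h1 : sh n x.1 = sh n y.1 := congrArg Fin.val h
    have := sh_spec n x.1
    have := sh_spec n y.1
    ext; omega
  · intro x y
    show (sh n x.1 < sh n y.1 ∧ rH' n (sh n x.1) (sh n y.1)) ∨
      (sh n y.1 < sh n x.1 ∧ rH' n (sh n y.1) (sh n x.1)) ↔
      (x.1 < y.1 ∧ rH' 0 x.1 y.1) ∨ (y.1 < x.1 ∧ rH' 0 y.1 x.1)
    have := sh_spec n x.1
    have := sh_spec n y.1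
    have a : sh n x.1 < sh n y.1 ↔ x.1 < y.1 := by omega
    have b : sh n y.1 < sh n x.1 ↔ y.1 < x.1 := by omega
    rw [a, b]
    exact or_congr (and_congr_right (sh_r n _ _)) (and_congr_right (sh_r n _ _))

def tau (t x : ℕ) : Fin 3 := if t < x then 2 else if x ≤ 3 ∨ (8 ≤ x ∧ x % 2 = 0) then 0 else 1

theorem tau0 (t x : ℕ) : tau t x = 0 ↔ x ≤ t ∧ (x ≤ 3 ∨ (8 ≤ x ∧ x % 2 = 0)) := by
  unfold tau; split_ifs <;> simp <;> omega
theorem tau1 (t x : ℕ) : tau t x = 1 ↔ x ≤ t ∧ ¬ (x ≤ 3 ∨ (8 ≤ x ∧ x % 2 = 0)) := by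
  unfold tau; split_ifs <;> simp <;> omega
theorem tau2 (t x : ℕ) : tau t x = 2 ↔ t < x := by
  unfold tau; split_ifs <;> simp <;> omega

theorem df_H (n t : ℕ) (h7 : 7 ≤ t) (ht : t < 8 + 2 * n) (u w : Fin (12 + 2 * n))
    (h : df (mk (12 + 2 * n) (rH n)) (fun x => tau t x) u w) : u.1 = t ∧ w.1 = t + 1 := by
  simp only [df, ne_eq, tau0, tau1, Fin.ext_iff (a := w), mk] at h
  generalize u.1 = x at *
  generalize w.1 = y at *
  rcases h with ⟨h1, h2, h3, h4⟩ | ⟨h1, h2, h3⟩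
  · rcases Nat.lt_or_gt_of_ne h3 with h5 | h5
    · exfalso; apply h4; right
      refine ⟨h5, ?_⟩
      by_cases c : y = 7
      · omega
      refine Or.inr ⟨by omega, ?_⟩
      by_cases c' : y ≤ 3
      · left; omega
      · right; left; omega
    · by_contra h6; apply h4; left
      refine ⟨h5, Or.inr ⟨by omega, ?_⟩⟩
      by_cases c' : x ≤ 3
      · left; omega
      · right; left; omega
  · rcases h3 with ⟨h5, h3 | ⟨h3, h4 | h4 | h4⟩⟩ | ⟨h5, h3 | ⟨h3, h4 | h4 | h4⟩⟩ <;> omega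

theorem indec (σ : Fin 12 → Fin 3) (h : ∀ u w, ¬ df G0 σ u w) (u : Fin 12) : σ u = 2 := by
  have A : ∀ u w, w ≠ u → ¬ G0.Adj u w → σ w ≠ 1 → σ u ≠ 0 :=
    fun u w a b c d => h u w (Or.inl ⟨d, c, a, b⟩)
  have B : ∀ u w, G0.Adj u w → σ w ≠ 0 → σ u ≠ 1 := fun u w a c d => h u w (Or.inr ⟨d, c, a⟩)
  have Y : ∀ u w z, G0.Adj u w → G0.Adj u z → z ≠ w → ¬ G0.Adj w z → σ u ≠ 1 := by
    intro u w z a b c d e
    have e1 : σ w = 0 := by by_contra hh; exact B u w a hh e
    have e2 : σ z = 0 := by by_contra hh; exact B u z b hh e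
    exact A w z c d (by rw [e2]; decide) e1
  have y8 := Y 8 9 11 (by decide) (by decide) (by decide) (by decide)
  have y9 := Y 9 8 10 (by decide) (by decide) (by decide) (by decide)
  have y10 := Y 10 9 11 (by decide) (by decide) (by decide) (by decide)
  have y11 := Y 11 8 10 (by decide) (by decide) (by decide) (by decide)
  have z8 := A 8 10 (by decide) (by decide) y10
  have z9 := A 9 11 (by decide) (by decide) y11
  have z10 := A 10 8 (by decide) (by decide) y8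
  have z11 := A 11 9 (by decide) (by decide) y9
  have z4 := A 4 9 (by decide) (by decide) y9
  have z5 := A 5 9 (by decide) (by decide) y9
  have z6 := A 6 9 (by decide) (by decide) y9
  have z7 := A 7 9 (by decide) (by decide) y9
  have y0 := B 0 9 (by decide) z9
  have y1 := B 1 9 (by decide) z9
  have y2 := B 2 9 (by decide) z9
  have y3 := B 3 9 (by decide) z9
  have y7 := B 7 8 (by decide) z8
  have z1 := A 1 7 (by decide) (by decide) y7
  have z2 := A 2 7 (by decide) (by decide) y7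
  have y4 := B 4 1 (by decide) z1
  have y5 := B 5 1 (by decide) z1
  have y6 := B 6 2 (by decide) z2
  have z0 := A 0 5 (by decide) (by decide) y5
  have z3 := A 3 4 (by decide) (by decide) y4
  have E : ∀ x : Fin 3, x ≠ 0 → x ≠ 1 → x = 2 := by decide
  fin_cases u <;> apply E <;> assumption

theorem two (u : Fin 12) : (∃ w w', w ≠ w' ∧ w ≠ u ∧ w' ≠ u ∧ G0.Adj u w ∧ G0.Adj u w') ∧
    (∃ w w', w ≠ w' ∧ w ≠ u ∧ w' ≠ u ∧ ¬ G0.Adj u w ∧ ¬ G0.Adj u w') := by
  have : ∀ u : Fin 12, (1 < #{w | w ≠ u ∧ G0.Adj u w}) ∧ (1 < #{w | w ≠ u ∧ ¬ G0.Adj u w}) := by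
    decide
  obtain ⟨h1, h2⟩ := this u
  obtain ⟨a, ha, b, hb, c⟩ := one_lt_card.1 h1
  obtain ⟨a', ha', b', hb', c'⟩ := one_lt_card.1 h2
  simp only [mem_filter, mem_univ, true_and] at ha hb ha' hb'
  exact ⟨⟨a, b, c, ha.1, hb.1, ha.2, hb.2⟩, ⟨a', b', c', ha'.1, hb'.1, ha'.2, hb'.2⟩⟩

theorem one (σ : Fin 12 → Fin 3) (u : Fin 12) (h : ∀ w, w ≠ u → σ w = 2)
    (hc : #(Def G0 σ) ≤ 1) : σ u = 2 := by
  by_contra hu
  have : ∃ w w', w ≠ w' ∧ df G0 σ u w ∧ df G0 σ u w' := by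
    obtain ⟨⟨w, w', a, b, c, d, e⟩, ⟨z, z', a', b', c', d', e'⟩⟩ := two u
    have : σ u = 0 ∨ σ u = 1 := by omega
    rcases this with s | s
    · exact ⟨z, z', a', Or.inl ⟨s, by rw [h z b']; decide, b', d'⟩,
        Or.inl ⟨s, by rw [h z' c']; decide, c', e'⟩⟩
    · exact ⟨w, w', a, Or.inr ⟨s, by rw [h w b]; decide, d⟩, Or.inr ⟨s, by rw [h w' c]; decide, e⟩⟩
  obtain ⟨w, w', a, b, c⟩ := this
  have := card_le_one.1 hc (u, w) (by simpa [Def] using b) (u, w') (by simpa [Def] using c)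
  exact a (Prod.mk.inj this).2

theorem chain {U : Type} [Fintype U] (n : ℕ) (K1 K2 : SimpleGraph U)
    (hd : ∀ u, (K1.neighborSet u).ncard = (K2.neighborSet u).ncard) (φ : G0 ↪g K1)
    (ψ : K2 ↪g mk (12 + 2 * n) (rH n)) (v : ℕ) (h8 : 8 ≤ v) (hv : v < 8 + 2 * n) :
    ∃ u, (ψ u).1 = v := by
  by_contra hn
  push Not at hn
  have A : ∀ t, #(Def G0 ((fun x => tau t (ψ x)) ∘ φ)) ≤ #(Def K2 fun x => tau t (ψ x)) :=
    fun t => (def_le φ _).trans (def_eq K1 K2 _ hd).le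
  have B : ∀ t, 7 ≤ t → t < 8 + 2 * n → ∀ p ∈ Def K2 fun x => tau t (ψ x),
      (ψ p.1).1 = t ∧ (ψ p.2).1 = t + 1 := by
    intro t a b p hp
    simp only [Def, mem_filter, mem_univ, true_and] at hp
    exact df_H n t a b _ _ (df_emb ψ (fun x => tau t x) _ _ hp)
  have C : ∀ j, v + j < 8 + 2 * n → ∀ g, v + j < (ψ (φ g)).1 := by
    intro j
    induction j with
    | zero =>
      intro _ g
      rw [← tau2]
      refine indec ((fun x => tau v (ψ x)) ∘ φ) (fun u w h => ?_) g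
      have h1 : (Def K2 fun x => tau v (ψ x)) = ∅ :=
        eq_empty_of_forall_notMem fun p hp => hn _ (B v (by omega) hv p hp).1
      have h2 := A v
      rw [h1, card_empty, Nat.le_zero, card_eq_zero] at h2
      have : (u, w) ∈ Def G0 ((fun x => tau v (ψ x)) ∘ φ) := by simpa [Def] using h
      rw [h2] at this; simp at this
    | succ j ih =>
      intro hj g
      by_contra hg
      have h1 := ih (by omega)
      apply hg
      rw [← tau2]
      refine one ((fun x => tau (v + (j + 1)) (ψ x)) ∘ φ) g (fun w hw => ?_) ((A _).trans ?_)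
      · show tau _ _ = 2
        rw [tau2]
        have := h1 w
        have := h1 g
        have : (ψ (φ w)).1 ≠ (ψ (φ g)).1 := fun e => hw (φ.injective (ψ.injective (Fin.ext e)))
        omega
      · refine card_le_one.2 fun p hp q hq => ?_
        have a := B _ (by omega) hj p hp
        have b := B _ (by omega) hj q hq
        exact Prod.ext (ψ.injective (Fin.ext (by omega))) (ψ.injective (Fin.ext (by omega)))
  have h1 := C (7 + 2 * n - v) (by omega)
  have h2 : #(univ : Finset (Fin 12)) ≤ #(range 4) := by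
    refine card_le_card_of_injOn (fun g => (ψ (φ g)).1 - (8 + 2 * n)) (fun g _ => ?_)
      (fun g _ g' _ e => ?_)
    · have := (ψ (φ g)).2
      simp only [coe_range, Set.mem_Iio]; omega
    · have := h1 g
      have := h1 g'
      simp only at e
      exact φ.injective (ψ.injective (Fin.ext (by omega)))
  simp at h2

theorem big (n : ℕ) (K : Gr) (h1 : Induces (H n) K) (h2 : InP ⟨12, G0⟩ K) : n ≤ K.1 := by
  obtain ⟨ψ⟩ := h1
  obtain ⟨K', hd, ⟨φ⟩⟩ := h2
  obtain ⟨e, he⟩ := exists_equiv hd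
  have := chain n K'.2 (K.2.comap e) (fun u => by rw [deg_comap, he]) φ
    (ψ.comp (SimpleGraph.Embedding.comap e.toEmbedding K.2))
  have h3 : #(range n) ≤ #(univ : Finset (Fin K.1)) := by
    refine card_le_card_of_surjOn (fun u => (ψ u).1 - 8) (fun i hi => ?_)
    rw [coe_range, Set.mem_Iio] at hi
    obtain ⟨u, hu⟩ := this (8 + i) (by omega) (by omega)
    refine ⟨e u, by simp, ?_⟩
    have : (ψ (e u)).1 = 8 + i := hu
    simp only; omega
  simpa using h3

theorem Induces.trans {A B C : Gr} (h : Induces A B) (h' : Induces B C) : Induces A C := by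
  obtain ⟨f⟩ := h; obtain ⟨g⟩ := h'; exact ⟨f.comp g⟩

theorem exists_D (G : Gr) : ∀ m (A : Gr), A.1 < m → InP G A → ∃ K, Induces A K ∧ InD G K := by
  intro m
  induction m with
  | zero => intro A h; omega
  | succ m ih =>
    intro A h hA
    by_cases c : ∃ K : Gr, K.1 < A.1 ∧ Induces A K ∧ InP G K
    · obtain ⟨K, a, b, d⟩ := c
      obtain ⟨L, h1, h2⟩ := ih K (by omega) d
      exact ⟨L, b.trans h1, h2⟩
    · exact ⟨A, ⟨SimpleGraph.Embedding.refl⟩, hA, fun K a b d => c ⟨K, a, b, d⟩⟩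

theorem size_eq {A B : Gr} (h : cl A = cl B) : A.1 = B.1 := by
  obtain ⟨e⟩ := Quotient.exact h
  simpa using Fintype.card_congr e.toEquiv

theorem infinite_D : (D ⟨12, G0⟩).Infinite := by
  intro hf
  obtain ⟨m, hm⟩ := (hf.image fun c : Cl => (Quotient.out c).1).bddAbove
  obtain ⟨K, h1, h2⟩ := exists_D ⟨12, G0⟩ _ (H (m + 1)) (Nat.lt_succ_self _)
    ⟨H' (m + 1), (deg_H _ (by omega)).symm, ind_H' _⟩
  have a := big _ K h1 h2.1
  have b := hm ⟨cl K, ⟨K, rfl, h2⟩, rfl⟩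
  have c : (Quotient.out (cl K)).1 = K.1 := size_eq (Quotient.out_eq _)
  simp only at b
  omega

end Pool.Agent.H31.DSF
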