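import Mathlib

namespace Pool.Agent.H31.DTC

open Finset

abbrev P := ℝ × ℝ

/-- `det (q - p, r - p)` -/
def det (p q r : P) : ℝ := (q.1 - p.1) * (r.2 - p.2) - (r.1 - p.1) * (q.2 - p.2)

/-- Same order type. -/
def Equi (S T : Finset P) : Prop :=
  ∃ φ : S ≃ T, ∀ p q r : S, SignType.sign (det p q r) = SignType.sign (det (φ p) (φ q) (φ r))

/-- Every point is a vertex (extreme point) of the convex hull. -/
def ConvPos (S : Finset P) : Prop := ∀ p ∈ S, p ∈ (convexHull ℝ (S : Set P)).extremePoints ℝ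

/-- The least number of points to remove to reach convex position. -/
noncomputable def dtc (S : Finset P) : ℕ := sInf {m | ∃ R ⊆ S, #R = m ∧ ConvPos (S \ R)}

/-- Configurations with `n` points and `DTC < k`. -/
def Conf (k n : ℕ) := {S : Finset P // #S = n ∧ dtc S < k}

def setoid (k n : ℕ) : Setoid (Conf k n) where
  r S T := Equi S.1 T.1
  iseqv := ⟨fun _ => ⟨Equiv.refl _, fun _ _ _ => rfl⟩,
    fun ⟨φ, h⟩ => ⟨φ.symm, fun p q r => by rw [h]; simp⟩,
    fun ⟨φ, h⟩ ⟨ψ, h'⟩ => ⟨φ.trans ψ, fun p q r => by rw [h, h']; rfl⟩⟩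

/-- The number of order types. -/
noncomputable def c (k n : ℕ) : ℕ := Nat.card (Quotient (setoid k n))

theorem tri {C : Finset P} (h : ConvPos C) {a b d x : P} (ha : a ∈ C) (hb : b ∈ C) (hd : d ∈ C)
    (hx : x ∈ C) (n1 : a ≠ x) (n2 : b ≠ x) (n3 : d ≠ x) {α β γ : ℝ} (h1 : 0 ≤ α) (h2 : 0 ≤ β)
    (h3 : 0 ≤ γ) (hs : 0 < α + β + γ) (e1 : (α + β + γ) * x.1 = α * a.1 + β * b.1 + γ * d.1)
    (e2 : (α + β + γ) * x.2 = α * a.2 + β * b.2 + γ * d.2) : False := by
  have := ((convex_convexHull ℝ _).mem_extremePoints_iff_mem_sdiff_convexHull_sdiff.1 (h x hx)).2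
  apply this
  have m : ∀ y ∈ C, y ≠ x → y ∈ convexHull ℝ (convexHull ℝ (C : Set P) \ {x}) := fun y hy n =>
    subset_convexHull _ _ ⟨subset_convexHull _ _ hy, n⟩
  have := (convex_convexHull ℝ (convexHull ℝ (C : Set P) \ {x})).sum_mem (t := univ)
    (w := ![α / (α + β + γ), β / (α + β + γ), γ / (α + β + γ)]) (z := ![a, b, d])
    (fun i _ => by fin_cases i <;> simp <;> positivity)
    (by simp only [Fin.sum_univ_three]; simp; field_simp)
    (fun i _ => by fin_cases i; exacts [m a ha n1, m b hb n2, m d hd n3])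
  convert this using 1
  simp only [Fin.sum_univ_three]
  ext <;> simp <;> field_simp <;> linarith

theorem shear (S : Finset P) : ∃ t : ℝ, ∀ p ∈ S, ∀ q ∈ S, p.1 + t * p.2 = q.1 + t * q.2 → p = q := by
  classical
  obtain ⟨t, ht⟩ := Infinite.exists_notMem_finset
    ((S ×ˢ S).image fun z : P × P => (z.2.1 - z.1.1) / (z.1.2 - z.2.2))
  refine ⟨t, fun p hp q hq h => ?_⟩
  by_cases e : p.2 = q.2
  · exact Prod.ext (by rw [e] at h; linarith) e
  · exfalso; apply ht
    refine mem_image.2 ⟨(p, q), mem_product.2 ⟨hp, hq⟩, ?_⟩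
    have : p.2 - q.2 ≠ 0 := sub_ne_zero.2 e
    simp only; field_simp; linarith

theorem key_order {C : Finset P} (h : ConvPos C) : ∃ κ : P → WithBot ℝ,
    ∀ a ∈ C, ∀ b ∈ C, ∀ d ∈ C, a ≠ b → b ≠ d → a ≠ d → κ a ≤ κ b → κ b ≤ κ d → 0 < det a b d := by
  classical
  rcases C.eq_empty_or_nonempty with rfl | hne
  · exact ⟨fun _ => ⊥, by simp⟩
  obtain ⟨t, ht⟩ := shear C
  obtain ⟨o, ho, hmin⟩ := exists_min_image C (fun p => p.1 + t * p.2) hne
  let X : P → ℝ := fun p => p.1 + t * p.2 - (o.1 + t * o.2)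
  have hX : ∀ p ∈ C, p ≠ o → 0 < X p := fun p hp n =>
    sub_pos.2 (lt_of_le_of_ne (hmin p hp) fun e => n (ht _ ho _ hp e).symm)
  let s : P → ℝ := fun p => (p.2 - o.2) / X p
  have D : ∀ p ∈ C, ∀ q ∈ C, p ≠ o → q ≠ o → det o p q = X p * X q * (s q - s p) := by
    intro p hp q hq a b
    have := (hX p hp a).ne'
    have := (hX q hq b).ne'
    simp only [s]; field_simp
    simp only [det, X]; ring
  have E : ∀ p ∈ C, ∀ q ∈ C, p ≠ o → q ≠ o → p ≠ q → s p ≤ s q → 0 < det o p q := by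
    intro p hp q hq a b n l
    have x1 := hX p hp a
    have x2 := hX q hq b
    rw [D p hp q hq a b]
    refine mul_pos (mul_pos x1 x2) (sub_pos.2 (lt_of_le_of_ne l fun e => ?_))
    have e' : (p.2 - o.2) * X q = (q.2 - o.2) * X p := by
      simp only [s] at e; field_simp at e; linarith
    rcases le_total (X p) (X q) with c | c
    · refine tri h ho hq hq hp a.symm n.symm n.symm (α := X q - X p) (β := X p) (γ := 0)
        (by linarith) x1.le le_rfl (by linarith) ?_ (by linarith)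
      simp only [X] at e' ⊢; linear_combination (-t) * e'
    · refine tri h ho hp hp hq b.symm n n (α := X p - X q) (β := X q) (γ := 0)
        (by linarith) x2.le le_rfl (by linarith) ?_ (by linarith)
      simp only [X] at e' ⊢; linear_combination t * e'
  refine ⟨fun p => if p = o then ⊥ else (s p : ℝ), fun a ha b hb d hd n1 n2 n3 l1 l2 => ?_⟩
  have hb' : b ≠ o := by
    rintro rfl
    simp [n1] at l1
  have hd' : d ≠ o := by
    rintro rfl
    simp [hb'] at l2
  simp only [hb', hd', if_false, WithBot.coe_le_coe] at l1 l2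
  by_cases e : a = o
  · subst e; exact E b hb d hd hb' hd' n2 l2
  simp only [e, if_false, WithBot.coe_le_coe] at l1
  have p1 := E a ha b hb e hb' n1 l1
  have p2 := E b hb d hd hb' hd' n2 l2
  by_contra hc
  refine tri h ho ha hd hb hb'.symm n1 n2.symm (α := -det a b d) (β := det o b d) (γ := det o a b)
    (by linarith) p2.le p1.le (by linarith) ?_ ?_ <;> simp only [det] <;> ring

variable {n k : ℕ}

theorem label (S : Finset P) (hn : #S = n) (h0 : 0 < n) (hk : dtc S < k) :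
    ∃ (p : Fin n ≃ S) (g : Fin k → Fin n), ∀ i j l, i < j → j < l → i ∉ Set.range g →
      j ∉ Set.range g → l ∉ Set.range g → 0 < det (p i) (p j) (p l) := by
  classical
  obtain ⟨R, hR, hc, hconv⟩ := Nat.sInf_mem (s := {m | ∃ R ⊆ S, #R = m ∧ ConvPos (S \ R)})
    ⟨#S, S, Subset.refl _, rfl, by simp [ConvPos]⟩
  obtain ⟨κ, hκ⟩ := key_order hconv
  let q : Fin n ≃ S := (S.equivFinOfCardEq hn).symm
  let σ := Tuple.sort fun i => κ (q i)
  have hm : Monotone ((fun i => κ (q i)) ∘ σ) := Tuple.monotone_sort _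
  let p : Fin n ≃ S := σ.trans q
  let E : Finset (Fin n) := {i | (p i).1 ∈ R}
  have hE : #E ≤ k := by
    have : #E ≤ #R := card_le_card_of_injOn (fun i => (p i).1) (fun i hi => by simpa [E] using hi)
      (fun i _ j _ e => p.injective (Subtype.ext e))
    unfold dtc at hk; omega
  let g : Fin k → Fin n := fun a => if h : a.1 < #E then (E.equivFin.symm ⟨a, h⟩).1 else ⟨0, h0⟩
  have hg : ∀ i, i ∉ Set.range g → (p i).1 ∈ S \ R := by
    intro i hi
    refine mem_sdiff.2 ⟨(p i).2, fun h => hi ?_⟩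
    have hiE : i ∈ E := by simpa [E] using h
    refine ⟨⟨E.equivFin ⟨i, hiE⟩, lt_of_lt_of_le (E.equivFin ⟨i, hiE⟩).2 hE⟩, ?_⟩
    simp [g]
  refine ⟨p, g, fun i j l a b x y z => hκ _ (hg i x) _ (hg j y) _ (hg l z) ?_ ?_ ?_ (hm a.le)
    (hm b.le)⟩
  · exact fun e => a.ne (p.injective (Subtype.ext e))
  · exact fun e => b.ne (p.injective (Subtype.ext e))
  · exact fun e => (a.trans b).ne (p.injective (Subtype.ext e))

theorem radon {a b d e : P} (h1 : 0 < det b d e) (h2 : 0 < det a b e) (h3 : 0 < det a d e)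
    (h4 : 0 < det a b d) (u v w : ℝ) :
    ¬ (0 < u * a.1 + v * a.2 + w ∧ 0 < u * d.1 + v * d.2 + w ∧ u * b.1 + v * b.2 + w ≤ 0 ∧
      u * e.1 + v * e.2 + w ≤ 0) ∧
    ¬ (u * a.1 + v * a.2 + w ≤ 0 ∧ u * d.1 + v * d.2 + w ≤ 0 ∧ 0 < u * b.1 + v * b.2 + w ∧
      0 < u * e.1 + v * e.2 + w) := by
  have : det b d e * (u * a.1 + v * a.2 + w) + det a b e * (u * d.1 + v * d.2 + w) =
      det a d e * (u * b.1 + v * b.2 + w) + det a b d * (u * e.1 + v * e.2 + w) := by
    simp only [det]; ring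
  constructor <;> rintro ⟨a1, a2, a3, a4⟩
  · nlinarith [mul_pos h1 a1, mul_pos h2 a2, mul_nonneg h3.le (neg_nonneg.2 a3),
      mul_nonneg h4.le (neg_nonneg.2 a4)]
  · nlinarith [mul_pos h3 a3, mul_pos h4 a4, mul_nonneg h1.le (neg_nonneg.2 a1),
      mul_nonneg h2.le (neg_nonneg.2 a2)]

theorem records (Y : Fin n → Prop) (t : Fin n → ℝ)
    (h : ∀ i j l m, i < j → j < l → l < m → Y i → Y j → Y l → Y m → ∀ c,
      ¬ (c < t i ∧ c < t l ∧ t j ≤ c ∧ t m ≤ c) ∧ ¬ (t i ≤ c ∧ t l ≤ c ∧ c < t j ∧ c < t m)) :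
    ∃ d : Fin n → Fin 4, ∀ i j, Y i → Y j → i < j → d i = d j →
      (d i % 2 = 0 → t i ≤ t j) ∧ (d i % 2 ≠ 0 → t j ≤ t i) := by
  classical
  have A : ∀ i, Y i → (∀ j < i, Y j → t j ≤ t i) ∨ (∀ j < i, Y j → t i ≤ t j) ∨
      (∀ j > i, Y j → t i ≤ t j) ∨ (∀ j > i, Y j → t j ≤ t i) := by
    intro i hi
    by_contra hc
    push Not at hc
    obtain ⟨⟨j1, a1, b1, c1⟩, ⟨j2, a2, b2, c2⟩, ⟨l2, a3, b3, c3⟩, ⟨l1, a4, b4, c4⟩⟩ := hc
    rcases lt_trichotomy j1 j2 with e | e | e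
    · exact (h j1 j2 i l2 e a2 a3 b1 b2 hi b3 (max (t j2) (t l2))).1
        ⟨(max_lt c2 c3).trans c1, max_lt c2 c3, le_max_left _ _, le_max_right _ _⟩
    · subst e; linarith
    · exact (h j2 j1 i l1 e a1 a4 b2 b1 hi b4 (t i)).2 ⟨c2.le, le_rfl, c1, c4⟩
  have B : ∀ i, ∃ d : Fin 4, Y i → (d = 0 → ∀ j < i, Y j → t j ≤ t i) ∧
      (d = 1 → ∀ j < i, Y j → t i ≤ t j) ∧ (d = 2 → ∀ j > i, Y j → t i ≤ t j) ∧
      (d = 3 → ∀ j > i, Y j → t j ≤ t i) := by
    intro i
    by_cases hi : Y i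
    · rcases A i hi with a | a | a | a
      · exact ⟨0, fun _ => ⟨fun _ => a, by simp, by simp, by simp⟩⟩
      · exact ⟨1, fun _ => ⟨by simp, fun _ => a, by simp, by simp⟩⟩
      · exact ⟨2, fun _ => ⟨by simp, by simp, fun _ => a, by simp⟩⟩
      · exact ⟨3, fun _ => ⟨by simp, by simp, by simp, fun _ => a⟩⟩
    · exact ⟨0, fun h => absurd h hi⟩
  choose d hd using B
  refine ⟨d, fun i j hi hj l e => ?_⟩
  obtain ⟨-, -, a2, a3⟩ := hd i hi
  obtain ⟨b0, b1, -, -⟩ := hd j hj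
  have : d i = 0 ∨ d i = 1 ∨ d i = 2 ∨ d i = 3 := by omega
  rcases this with x | x | x | x <;> rw [x] <;> refine ⟨fun z => ?_, fun z => ?_⟩ <;>
    first | exact absurd z (by decide) | exact b0 (e ▸ x) i l hi | exact b1 (e ▸ x) i l hi |
      exact a2 x j l hj | exact a3 x j l hj

abbrev Data (n k : ℕ) := (Fin n → SignType × SignType × Fin 4) ×
  (SignType × Fin 4 → Finset (Fin (2 * n + 1))) × (Fin k → Fin (n + 1))

noncomputable def sl (p : Fin n → P) (z : P) (i : Fin n) : ℝ := ((p i).1 - z.1) / ((p i).2 - z.2)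

open Classical in
noncomputable def rk (t : Fin n → ℝ) (i : Fin n) : ℕ := #{j | t j < t i}

theorem rk_le (t : Fin n → ℝ) (i : Fin n) : rk t i ≤ n := by
  classical
  unfold rk; exact (card_filter_le _ _).trans (by simp)

theorem rk_mono (t : Fin n → ℝ) {i j : Fin n} (h : t i ≤ t j) : rk t i ≤ rk t j := by
  unfold rk
  refine card_le_card fun l hl => ?_
  simp only [mem_filter, mem_univ, true_and] at hl ⊢; linarith

theorem rk_lt (t : Fin n → ℝ) {i j : Fin n} : t i < t j ↔ rk t i < rk t j := by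
  refine ⟨fun h => ?_, fun h => not_le.1 fun h' => absurd (rk_mono t h') (by omega)⟩
  unfold rk
  refine card_lt_card ⟨fun l hl => ?_, fun hs => ?_⟩
  · simp only [mem_filter, mem_univ, true_and] at hl ⊢; linarith
  · have := @hs i (by simpa using h)
    simp at this

def hh (δ : Fin 4) (ρ : Fin n → ℕ) (i : Fin n) : ℕ := if δ % 2 = 0 then ρ i + i else ρ i + (n - i)

def Codes (p : Fin n → P) (z : P) (g : Fin k → Fin n) (D : Data n k) : Prop :=
  (∀ i, (D.1 i).1 = SignType.sign ((p i).1 - z.1) ∧ (D.1 i).2.1 = SignType.sign ((p i).2 - z.2)) ∧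
  (∀ i j, i ∉ Set.range g → j ∉ Set.range g → i < j → (D.1 i).2 = (D.1 j).2 →
    ((D.1 i).2.2 % 2 = 0 → rk (sl p z) i ≤ rk (sl p z) j) ∧
    ((D.1 i).2.2 % 2 ≠ 0 → rk (sl p z) j ≤ rk (sl p z) i)) ∧
  (∀ c v, v ∈ D.2.1 c ↔ ∃ i, i ∉ Set.range g ∧ (D.1 i).2 = c ∧ hh c.2 (rk (sl p z)) i = v.1) ∧
  ∀ a, (D.2.2 a).1 = rk (sl p z) (g a)

theorem codes_ex (p : Fin n → P) (z : P) (g : Fin k → Fin n)
    (h : ∀ i j l, i < j → j < l → i ∉ Set.range g →
      j ∉ Set.range g → l ∉ Set.range g → 0 < det (p i) (p j) (p l)) : ∃ D, Codes p z g D := by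
  classical
  have A : ∀ s : SignType, ∃ d : Fin n → Fin 4, ∀ i j,
      (i ∉ Set.range g ∧ SignType.sign ((p i).2 - z.2) = s) →
      (j ∉ Set.range g ∧ SignType.sign ((p j).2 - z.2) = s) → i < j → d i = d j →
      (d i % 2 = 0 → sl p z i ≤ sl p z j) ∧ (d i % 2 ≠ 0 → sl p z j ≤ sl p z i) := by
    intro s
    refine records _ _ fun i j l m a b e hi hj hl hm c => ?_
    have R := radon (h j l m b e hj.1 hl.1 hm.1) (h i j m a (b.trans e) hi.1 hj.1 hm.1)
      (h i l m (a.trans b) e hi.1 hl.1 hm.1) (h i j l a b hi.1 hj.1 hl.1)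
    have K : ∃ u v w : ℝ, ∀ x, SignType.sign ((p x).2 - z.2) = s →
        (c < sl p z x ↔ 0 < u * (p x).1 + v * (p x).2 + w) := by
      rcases s with _ | _ | _
      · refine ⟨0, 0, -c, fun x hx => ?_⟩
        have : (p x).2 - z.2 = 0 := sign_eq_zero_iff.1 hx
        simp [sl, this]
      · refine ⟨-1, c, z.1 - c * z.2, fun x hx => ?_⟩
        have : (p x).2 - z.2 < 0 := sign_eq_neg_one_iff.1 hx
        rw [sl, lt_div_iff_of_neg this]
        constructor <;> intro _ <;> linarith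
      · refine ⟨1, -c, c * z.2 - z.1, fun x hx => ?_⟩
        have : 0 < (p x).2 - z.2 := sign_eq_one_iff.1 hx
        rw [sl, lt_div_iff₀ this]
        constructor <;> intro _ <;> linarith
    obtain ⟨u, v, w, K⟩ := K
    simp only [← not_lt (a := c), K i hi.2, K j hj.2, K l hl.2, K m hm.2]
    simp only [not_lt]
    exact R u v w
  choose d hd using A
  refine ⟨(fun i => (SignType.sign ((p i).1 - z.1), SignType.sign ((p i).2 - z.2),
    d (SignType.sign ((p i).2 - z.2)) i), fun c => univ.filter fun v => ∃ i, i ∉ Set.range g ∧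
      (SignType.sign ((p i).2 - z.2), d (SignType.sign ((p i).2 - z.2)) i) = c ∧
      hh c.2 (rk (sl p z)) i = v.1, fun a => ⟨rk (sl p z) (g a), Nat.lt_succ_of_le (rk_le _ _)⟩),
    fun i => ⟨rfl, rfl⟩, fun i j a b l e => ?_, fun c v => by simp, fun a => rfl⟩
  simp only [Prod.mk.injEq] at e ⊢
  have := hd _ i j ⟨a, rfl⟩ ⟨b, e.1.symm⟩ l (by rw [e.2, e.1])
  exact ⟨fun x => rk_mono _ (this.1 x), fun x => rk_mono _ (this.2 x)⟩

theorem codes_rk {p p' : Fin n → P} {z z' : P} {g : Fin k → Fin n} {D : Data n k}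
    (h : Codes p z g D) (h' : Codes p' z' g D) (i : Fin n) :
    rk (sl p z) i = rk (sl p' z') i := by
  by_cases hi : i ∈ Set.range g
  · obtain ⟨a, rfl⟩ := hi
    rw [← h.2.2.2, ← h'.2.2.2]
  let K := {j : Fin n // j ∉ Set.range g ∧ (D.1 j).2 = (D.1 i).2}
  have R : ∀ {p : Fin n → P} {z : P}, Codes p z g D →
      Set.range (fun j : K => hh (D.1 i).2.2 (rk (sl p z)) j.1) =
        Fin.val '' (D.2.1 (D.1 i).2 : Set (Fin (2 * n + 1))) := by
    intro p z h
    ext v
    constructor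
    · rintro ⟨j, rfl⟩
      have := rk_le (sl p z) j.1
      have := j.1.2
      exact ⟨⟨hh (D.1 i).2.2 (rk (sl p z)) j.1, by unfold hh; split_ifs <;> omega⟩,
        (h.2.2.1 _ _).2 ⟨j.1, j.2.1, j.2.2, rfl⟩, rfl⟩
    · rintro ⟨w, hw, rfl⟩
      obtain ⟨j, a, b, e⟩ := (h.2.2.1 _ _).1 hw
      exact ⟨⟨j, a, b⟩, e⟩
  have E : (fun j : K => hh (D.1 i).2.2 (rk (sl p z)) j.1) =
      fun j : K => hh (D.1 i).2.2 (rk (sl p' z')) j.1 := by
    by_cases e : (D.1 i).2.2 % 2 = 0
    · have M : ∀ {p : Fin n → P} {z : P}, Codes p z g D →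
          StrictMono (fun j : K => hh (D.1 i).2.2 (rk (sl p z)) j.1) := by
        intro p z h a b l
        have l' : a.1 < b.1 := l
        have := (h.2.1 a.1 b.1 a.2.1 b.2.1 l' (a.2.2.trans b.2.2.symm)).1 (by rw [a.2.2]; exact e)
        simp only [hh, e, if_true]; omega
      exact ((M h).range_inj (M h')).1 ((R h).trans (R h').symm)
    · have M : ∀ {p : Fin n → P} {z : P}, Codes p z g D →
          StrictAnti (fun j : K => hh (D.1 i).2.2 (rk (sl p z)) j.1) := by
        intro p z h a b l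
        have l' : a.1 < b.1 := l
        have := (h.2.1 a.1 b.1 a.2.1 b.2.1 l' (a.2.2.trans b.2.2.symm)).2 (by rw [a.2.2]; exact e)
        simp only [hh, e, if_false]; omega
      exact ((M h).range_inj (M h')).1 ((R h).trans (R h').symm)
  have := congrFun E ⟨i, hi, rfl⟩
  simp only [hh] at this
  split_ifs at this <;> omega

theorem codes_det {p p' : Fin n → P} {z z' : P} {g : Fin k → Fin n} {D : Data n k}
    (h : Codes p z g D) (h' : Codes p' z' g D) (i j : Fin n) :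
    SignType.sign (det z (p i) (p j)) = SignType.sign (det z' (p' i) (p' j)) := by
  have sx : ∀ i, SignType.sign ((p i).1 - z.1) = SignType.sign ((p' i).1 - z'.1) :=
    fun i => (h.1 i).1.symm.trans (h'.1 i).1
  have sy : ∀ i, SignType.sign ((p i).2 - z.2) = SignType.sign ((p' i).2 - z'.2) :=
    fun i => (h.1 i).2.symm.trans (h'.1 i).2
  have z0 : ∀ i, (p i).2 - z.2 = 0 ↔ (p' i).2 - z'.2 = 0 := fun i => by
    rw [← sign_eq_zero_iff, sy, sign_eq_zero_iff]
  unfold det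
  by_cases a : (p i).2 - z.2 = 0
  · rw [a, (z0 i).1 a]; simp only [mul_zero, sub_zero, sign_mul, sx, sy]
  by_cases b : (p j).2 - z.2 = 0
  · rw [b, (z0 j).1 b]; simp only [mul_zero, zero_sub, Left.sign_neg, sign_mul, sx, sy]
  have F : ∀ (p : Fin n → P) (z : P), (p i).2 - z.2 ≠ 0 → (p j).2 - z.2 ≠ 0 →
      ((p i).1 - z.1) * ((p j).2 - z.2) - ((p j).1 - z.1) * ((p i).2 - z.2) =
      ((p i).2 - z.2) * ((p j).2 - z.2) * (sl p z i - sl p z j) := by
    intro p z a b; unfold sl; field_simp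
  rw [F p z a b, F p' z' (fun e => a ((z0 i).2 e)) (fun e => b ((z0 j).2 e))]
  simp only [sign_mul, sy]
  congr 1
  have L : ∀ i j, sl p z i < sl p z j ↔ sl p' z' i < sl p' z' j := fun i j => by
    rw [rk_lt, rk_lt, codes_rk h h', codes_rk h h']
  rcases lt_trichotomy (sl p z i) (sl p z j) with e | e | e
  · rw [sign_neg (sub_neg.2 e), sign_neg (sub_neg.2 ((L _ _).1 e))]
  · have : sl p' z' i = sl p' z' j := le_antisymm (not_lt.1 fun x => e.le.not_gt ((L _ _).2 x))
      (not_lt.1 fun x => e.ge.not_gt ((L _ _).2 x))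
    rw [e, this]; simp
  · rw [sign_pos (sub_pos.2 e), sign_pos (sub_pos.2 ((L _ _).1 e))]

theorem sgn_all (p : Fin n → P) (G : Fin n → Prop)
    (h : ∀ i j l, i < j → j < l → G i → G j → G l → 0 < det (p i) (p j) (p l)) (i j l : Fin n)
    (a : G i) (b : G j) (d : G l) : SignType.sign (det (p i) (p j) (p l)) =
      if i = j ∨ j = l ∨ i = l then 0 else
        if (i < j ∧ j < l) ∨ (j < l ∧ l < i) ∨ (l < i ∧ i < j) then 1 else -1 := by
  split_ifs with x y
  · rw [sign_eq_zero_iff]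
    rcases x with rfl | rfl | rfl <;> simp only [det] <;> ring
  · rw [sign_eq_one_iff]
    rcases y with y | y | y
    · exact h _ _ _ y.1 y.2 a b d
    · have := h _ _ _ y.1 y.2 b d a; unfold det at this ⊢; linarith
    · have := h _ _ _ y.1 y.2 d a b; unfold det at this ⊢; linarith
  · rw [sign_eq_neg_one_iff]
    have : (i < l ∧ l < j) ∨ (j < i ∧ i < l) ∨ (l < j ∧ j < i) := by omega
    rcases this with y | y | y
    · have := h _ _ _ y.1 y.2 a d b; unfold det at this ⊢; linarith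
    · have := h _ _ _ y.1 y.2 b a d; unfold det at this ⊢; linarith
    · have := h _ _ _ y.1 y.2 d b a; unfold det at this ⊢; linarith

theorem inj (h0 : 0 < n) : ∃ F : Quotient (setoid k n) → (Fin k → Fin n × Data n k),
    Function.Injective F := by
  have A : ∀ S : Conf k n, ∃ (p : Fin n ≃ S.1) (F : Fin k → Fin n × Data n k),
      (∀ i j l, i < j → j < l → i ∉ Set.range (fun a => (F a).1) →
        j ∉ Set.range (fun a => (F a).1) → l ∉ Set.range (fun a => (F a).1) →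
        0 < det (p i) (p j) (p l)) ∧
      ∀ a, Codes (fun i => (p i).1) (p (F a).1) (fun a => (F a).1) (F a).2 := by
    intro S
    obtain ⟨p, g, h⟩ := label S.1 S.2.1 h0 S.2.2
    choose D hD using fun a => codes_ex (fun i => (p i).1) (p (g a)) g h
    exact ⟨p, fun a => (g a, D a), h, hD⟩
  choose p F h1 h2 using A
  refine ⟨fun c => F c.out, fun c c' e => ?_⟩
  rw [← c.out_eq, ← c'.out_eq]
  simp only at e
  generalize c.out = S at e
  generalize c'.out = T at e
  refine Quotient.sound ⟨(p S).symm.trans (p T), fun x y w => ?_⟩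
  obtain ⟨i, rfl⟩ := (p S).surjective x
  obtain ⟨j, rfl⟩ := (p S).surjective y
  obtain ⟨l, rfl⟩ := (p S).surjective w
  simp only [Equiv.trans_apply, Equiv.symm_apply_apply]
  have a1 := h1 S
  have a2 := h2 S
  rw [e] at a1 a2
  have C : ∀ i ∈ Set.range (fun a => (F T a).1), ∀ j l,
      SignType.sign (det (p S i) (p S j) (p S l)) = SignType.sign (det (p T i) (p T j) (p T l)) := by
    rintro i ⟨a, rfl⟩ j l
    exact codes_det (a2 a) (h2 T a) j l
  have cyc : ∀ a b d : P, det a b d = det b d a := fun a b d => by unfold det; ring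
  by_cases hi : i ∈ Set.range (fun a => (F T a).1)
  · exact C i hi j l
  by_cases hj : j ∈ Set.range (fun a => (F T a).1)
  · rw [cyc, cyc (p T i)]; exact C j hj l i
  by_cases hl : l ∈ Set.range (fun a => (F T a).1)
  · rw [← cyc, ← cyc (p T l)]; exact C l hl i j
  rw [sgn_all (fun i => (p S i).1) _ a1 i j l hi hj hl,
    sgn_all (fun i => (p T i).1) _ (h1 T) i j l hi hj hl]

theorem upper (h0 : 0 < n) : Finite (Quotient (setoid k n)) ∧ c k n ≤ 2 ^ (k * (43 + k) * n) := by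
  obtain ⟨F, hF⟩ := inj (k := k) h0
  refine ⟨Finite.of_injective F hF, (Nat.card_le_card_of_injective F hF).trans ?_⟩
  have hs : Fintype.card SignType = 3 := rfl
  simp only [Nat.card_eq_fintype_card, Fintype.card_fun, Fintype.card_prod, Fintype.card_fin, hs,
    Fintype.card_finset]
  rw [show k * (43 + k) * n = (n + (6 * n + (3 * n * 12 + n * k))) * k by ring,
    pow_mul 2 (n + (6 * n + (3 * n * 12 + n * k))) k]
  refine Nat.pow_le_pow_left ?_ _
  rw [pow_add 2 n, pow_add 2 (6 * n), pow_add 2 (3 * n * 12), pow_mul 2 6 n, pow_mul 2 (3 * n) 12,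
    pow_mul 2 n k]
  have := Nat.lt_two_pow_self (n := n)
  gcongr
  · norm_num
  · norm_num
  · omega
  · omega

end Pool.Agent.H31.DTC
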