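import Mathlib
import Pool.Agent.H31.HyperRamsey

set_option autoImplicit false
open Finset

namespace Pool.Agent.H31.DegMono

def HP {V : Type} (G : SimpleGraph V) (m : ℕ) : Prop :=
  ∃ p : ℕ → V, Set.InjOn p (Set.Iio m) ∧ ∀ i, i + 1 < m → G.Adj (p i) (p (i + 1)) ∧
    (G.neighborSet (p i)).ncard ≤ (G.neighborSet (p (i + 1))).ncard

theorem deg_compl {V : Type} [Fintype V] (G : SimpleGraph V) (v : V) :
    (G.neighborSet v).ncard + (Gᶜ.neighborSet v).ncard + 1 = Fintype.card V := by
  classical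
  have h1 : (G.neighborSet v).ncard = G.degree v := by
    rw [← SimpleGraph.card_neighborSet_eq_degree, Set.ncard_eq_toFinset_card']; simp
  have h2 : (Gᶜ.neighborSet v).ncard = Gᶜ.degree v := by
    rw [← SimpleGraph.card_neighborSet_eq_degree, Set.ncard_eq_toFinset_card']; simp
  have h3 := G.degree_lt_card_verts v
  rw [h1, h2, SimpleGraph.degree_compl]; omega

def un {V : Type} (G : SimpleGraph V) (r : ℕ) : SimpleGraph (V ⊕ Fin r) := G ⊕g ⊤

theorem deg_un_l {V : Type} (G : SimpleGraph V) (r : ℕ) (v : V) :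
    ((un G r).neighborSet (Sum.inl v)).ncard = (G.neighborSet v).ncard := by
  have : (un G r).neighborSet (Sum.inl v) = Sum.inl '' (G.neighborSet v) := by
    ext x; cases x <;> simp [un]
  rw [this, Set.ncard_image_of_injective _ Sum.inl_injective]

theorem deg_un_r {V : Type} (G : SimpleGraph V) (r : ℕ) (v : Fin r) :
    ((un G r).neighborSet (Sum.inr v)).ncard + 1 = r := by
  have : (un G r).neighborSet (Sum.inr v) = Sum.inr '' ((univ.erase v : Finset (Fin r))) := by
    ext x; cases x <;> simp [un, eq_comm]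
  have h := v.2
  rw [this, Set.ncard_image_of_injective _ Sum.inr_injective, Set.ncard_coe_finset,
    card_erase_of_mem (mem_univ _), card_univ, Fintype.card_fin]; omega

theorem hp_un {V : Type} (G : SimpleGraph V) (r a : ℕ) (h : ¬ HP G (a + 1)) (hr : r ≤ a) :
    ¬ HP (un G r) (a + 1) := by
  rintro ⟨p, hinj, hp⟩
  rcases h0 : p 0 with v | v
  · have hl : ∀ i, i < a + 1 → ∃ w, p i = Sum.inl w := by
      intro i
      induction i with
      | zero => exact fun _ => ⟨v, h0⟩
      | succ i ih =>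
        intro hi
        obtain ⟨w, hw⟩ := ih (by omega)
        have := (hp i hi).1
        rcases h1 : p (i + 1) with x | x
        · exact ⟨x, rfl⟩
        · rw [hw, h1] at this; simp [un] at this
    refine h ⟨fun i => (p i).elim id (fun _ => v), fun i hi j hj e => ?_, fun i hi => ?_⟩
    · obtain ⟨x, hx⟩ := hl i hi
      obtain ⟨y, hy⟩ := hl j hj
      simp only [hx, hy, Sum.elim_inl, id] at e
      exact hinj hi hj (by rw [hx, hy, e])
    · obtain ⟨x, hx⟩ := hl i (by omega)
      obtain ⟨y, hy⟩ := hl (i + 1) hi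
      have := hp i hi
      rw [hx, hy, deg_un_l, deg_un_l] at this
      simpa [hx, hy, un] using this
  · have hl : ∀ i, i < a + 1 → ∃ w, p i = Sum.inr w := by
      intro i
      induction i with
      | zero => exact fun _ => ⟨v, h0⟩
      | succ i ih =>
        intro hi
        obtain ⟨w, hw⟩ := ih (by omega)
        have := (hp i hi).1
        rcases h1 : p (i + 1) with x | x
        · rw [hw, h1] at this; simp [un] at this
        · exact ⟨x, rfl⟩
    have := card_le_card_of_injOn (s := range (a + 1)) (t := (univ : Finset (Fin r)))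
      (fun i => (p i).elim (fun _ => v) id) (fun _ _ => mem_univ _) (by
        intro i hi j hj e
        have hi' : i < a + 1 := by simpa using hi
        have hj' : j < a + 1 := by simpa using hj
        obtain ⟨x, hx⟩ := hl i hi'
        obtain ⟨y, hy⟩ := hl j hj'
        simp only [hx, hy, Sum.elim_inr, id] at e
        exact hinj hi' hj' (by rw [hx, hy, e]))
    simp at this; omega

theorem hp_join {V : Type} [Fintype V] (G : SimpleGraph V) (r b : ℕ) (h : ¬ HP Gᶜ (b + 1))
    (hr : ∀ v, r ≤ (G.neighborSet v).ncard) : ¬ HP (un G r)ᶜ (b + 2) := by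
  rintro ⟨p, hinj, hp⟩
  have hl : ∀ i, i < b + 1 → ∃ w, p i = Sum.inl w := by
    intro i hi
    obtain ⟨h1, h2⟩ := hp i (by omega)
    rcases h0 : p i with x | x
    · exact ⟨x, rfl⟩
    · rcases h3 : p (i + 1) with y | y
      · rw [h0, h3] at h2
        have e1 := deg_compl (un G r) (Sum.inr x)
        have e2 := deg_compl (un G r) (Sum.inl y)
        have e3 := deg_un_l G r y
        have e4 := deg_un_r G r x
        have := hr y
        omega
      · rw [h0, h3] at h1
        simp [un] at h1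
  obtain ⟨v, _⟩ := hl 0 (by omega)
  refine h ⟨fun i => (p i).elim id (fun _ => v), fun i hi j hj e => ?_, fun i hi => ?_⟩
  · have hi' : i < b + 1 := hi
    have hj' : j < b + 1 := hj
    obtain ⟨x, hx⟩ := hl i hi'
    obtain ⟨y, hy⟩ := hl j hj'
    simp only [hx, hy, Sum.elim_inl, id] at e
    exact hinj (show i < b + 2 by omega) (show j < b + 2 by omega) (by rw [hx, hy, e])
  · obtain ⟨x, hx⟩ := hl i (by omega)
    obtain ⟨y, hy⟩ := hl (i + 1) hi
    obtain ⟨h1, h2⟩ := hp i (by omega)
    rw [hx, hy] at h1 h2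
    have e1 := deg_compl (un G r) (Sum.inl x)
    have e2 := deg_compl (un G r) (Sum.inl y)
    have e3 := deg_un_l G r x
    have e4 := deg_un_l G r y
    have e5 := deg_compl G x
    have e6 := deg_compl G y
    simp only [hx, hy, Sum.elim_inl, id]
    exact ⟨by simpa [un] using h1, by omega⟩

def St (n a b d e : ℕ) : Prop :=
  ∃ (V : Type) (_ : Fintype V) (G : SimpleGraph V), Fintype.card V = n ∧ ¬ HP G (a + 1) ∧
    ¬ HP Gᶜ (b + 1) ∧ (∀ v, d ≤ (G.neighborSet v).ncard) ∧ ∀ v, e ≤ (Gᶜ.neighborSet v).ncard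

theorem St.swap {n a b d e : ℕ} (h : St n a b d e) : St n b a e d := by
  obtain ⟨V, _, G, h1, h2, h3, h4, h5⟩ := h
  exact ⟨V, _, Gᶜ, h1, h3, by rwa [compl_compl], h5, by rwa [compl_compl]⟩

theorem St.step {n a b d e : ℕ} (h : St n a b d e) (r d' e' : ℕ) (h1 : r ≤ a) (h2 : r ≤ d)
    (h3 : d' < r) (h4 : e' ≤ e + r) (h5 : e' ≤ n) : St (n + r) a (b + 1) d' e' := by
  obtain ⟨V, _, G, k1, k2, k3, k4, k5⟩ := h
  refine ⟨V ⊕ Fin r, inferInstance, un G r, by simp [k1], hp_un G r a k2 h1,
    hp_join G r b k3 (fun v => h2.trans (k4 v)), ?_, ?_⟩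
  · rintro (v | v)
    · have := k4 v; rw [deg_un_l]; omega
    · have := deg_un_r G r v; omega
  · rintro (v | v)
    · have e1 := deg_compl (un G r) (Sum.inl v)
      have e2 := deg_un_l G r v
      have e3 := deg_compl G v
      have := k5 v
      simp only [Fintype.card_sum, Fintype.card_fin] at e1
      omega
    · have e1 := deg_compl (un G r) (Sum.inr v)
      have e2 := deg_un_r G r v
      simp only [Fintype.card_sum, Fintype.card_fin] at e1
      omega

theorem st_main (t : ℕ) (ht : 4 ≤ t) : ∃ n, n + 7 = t ^ 2 ∧ St n t t 1 t := by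
  induction t, ht using Nat.le_induction with
  | base =>
    have h0 : St 0 4 0 4 0 := ⟨Empty, inferInstance, ⊥, rfl, fun ⟨p, _⟩ => (p 0).elim,
      fun ⟨p, _⟩ => (p 0).elim, fun v => v.elim, fun v => v.elim⟩
    have h1 := h0.step 4 3 0 le_rfl le_rfl (by omega) (by omega) le_rfl
    have h2 := h1.step 3 2 3 (by omega) le_rfl (by omega) (by omega) (by omega)
    have h3 := h2.step 2 1 4 (by omega) le_rfl (by omega) (by omega) (by omega)
    obtain ⟨V, _, G, k1, k2, k3, k4, k5⟩ := h3
    refine ⟨9, rfl, V, _, G, k1, k2, fun ⟨p, a, b⟩ => k3 ⟨p, a.mono fun x hx => ?_,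
      fun i hi => b i (by omega)⟩, k4, k5⟩
    simp only [Set.mem_Iio] at hx ⊢; omega
  | succ t ht ih =>
    obtain ⟨n, hn, h⟩ := ih
    have hn' : t + 1 ≤ n := by nlinarith
    have h1 := h.swap.step t (t - 1) (t + 1) le_rfl le_rfl (by omega) (by omega) hn'
    have h2 := h1.swap.step (t + 1) 1 (t + 1) le_rfl le_rfl (by omega) (by omega) (by omega)
    exact ⟨_, by rw [add_sq]; omega, h2⟩

theorem hp_comap {V W : Type} (e : W ≃ V) (G : SimpleGraph V) (m : ℕ)
    (h : HP (G.comap e) m) : HP G m := by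
  obtain ⟨p, h1, h2⟩ := h
  have hd : ∀ w, ((G.comap e).neighborSet w).ncard = (G.neighborSet (e w)).ncard := by
    intro w
    rw [← Set.ncard_image_of_injective _ e.injective]
    congr 1; ext x
    obtain ⟨y, rfl⟩ := e.surjective x
    simp
  refine ⟨fun i => e (p i), fun i hi j hj he => h1 hi hj (e.injective he), fun i hi => ?_⟩
  have := h2 i hi
  rw [hd, hd] at this
  exact this

theorem hp_of_clique {V : Type} (G : SimpleGraph V) (m : ℕ) (hm : 1 ≤ m) (T : Finset V)
    (hT : T.card = m) (h : ∀ x ∈ T, ∀ y ∈ T, x ≠ y → G.Adj x y) : HP G m := by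
  let f : Fin m → V := fun i => (T.equivFinOfCardEq hT).symm i
  have hf : Function.Injective f := fun i j e =>
    (T.equivFinOfCardEq hT).symm.injective (Subtype.ext e)
  let g : Fin m → ℕ := fun i => (G.neighborSet (f i)).ncard
  let c : ℕ → Fin m := fun i => if h : i < m then ⟨i, h⟩ else ⟨0, hm⟩
  have hinj : Set.InjOn (fun i => f (Tuple.sort g (c i))) (Set.Iio m) := by
    intro i hi j hj e
    have hi' : i < m := hi
    have hj' : j < m := hj
    have := (Tuple.sort g).injective (hf e)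
    simpa [c, hi', hj'] using this
  refine ⟨_, hinj, fun i hi => ⟨h _ ((T.equivFinOfCardEq hT).symm _).2 _
    ((T.equivFinOfCardEq hT).symm _).2 fun e => ?_, ?_⟩⟩
  · have := hinj (show i < m by omega) hi e
    omega
  · refine Tuple.monotone_sort g (show c i ≤ c (i + 1) from ?_)
    simp only [c, dif_pos hi, dif_pos (show i < m by omega)]
    exact Fin.mk_le_mk.mpr (by omega)

theorem finite_ramsey (k m : ℕ) (hk : 1 ≤ k) (hm : 1 ≤ m) : ∃ M, ∀ n, M ≤ n →
    ∀ (G : Fin k → SimpleGraph (Fin n)), (∀ x y, x ≠ y → ∃ j, (G j).Adj x y) →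
      ∃ j, HP (G j) m := by
  classical
  have : Nonempty (Fin k) := ⟨⟨0, hk⟩⟩
  obtain ⟨R, hR⟩ := HyperRamsey.ramsey (Fin k) 2 m
  refine ⟨R, fun n hn G hG => ?_⟩
  have : ∀ P : Finset (Fin n), ∃ j, ∀ x y, x ≠ y → P = {x, y} → (G j).Adj x y := by
    intro P
    by_cases h : ∃ x y, x ≠ y ∧ P = {x, y}
    · obtain ⟨x, y, hxy, rfl⟩ := h
      obtain ⟨j, hj⟩ := hG x y hxy
      refine ⟨j, fun a b hab e => ?_⟩
      have e' : ({x, y} : Set (Fin n)) = {a, b} := by simpa using congrArg (fun s : Finset (Fin n) => (s : Set (Fin n))) e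
      rcases Set.pair_eq_pair_iff.mp e' with ⟨rfl, rfl⟩ | ⟨rfl, rfl⟩
      · exact hj
      · exact hj.symm
    · exact ⟨⟨0, hk⟩, fun x y h1 h2 => absurd ⟨x, y, h1, h2⟩ h⟩
  choose χ hχ using this
  obtain ⟨T, _, hT, col, hc⟩ := hR (Fin n) univ χ (by simpa using hn)
  refine ⟨col, hp_of_clique _ m hm T hT fun x hx y hy hxy => ?_⟩
  rw [← hc {x, y} (by simp [insert_subset_iff, hx, hy]) (card_pair hxy)]
  exact hχ _ x y hxy rfl

end Pool.Agent.H31.DegMono
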