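import Mathlib

set_option autoImplicit false
open Finset Classical

namespace Pool.Agent.H31.DegMono3

noncomputable def dg {V K : Type} [Fintype V] (c : V → V → K) (j : K) (x : V) : ℕ :=
  (univ.filter fun y => y ≠ x ∧ c x y = j).card

def Feas (K : Type) (n : ℕ) : Prop :=
  ∃ (V : Type) (_ : Fintype V) (c : V → V → K) (s : K → V → Prop), Fintype.card V = n ∧
    (∀ x y, c x y = c y x) ∧ ∀ x y, x ≠ y → (s (c x y) x ↔ ¬ s (c x y) y) ∧
      (s (c x y) x → dg c (c x y) y < dg c (c x y) x)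

theorem Feas.equiv {K K' : Type} {n : ℕ} (e : K ≃ K') (h : Feas K n) : Feas K' n := by
  obtain ⟨V, _, c, s, h1, h2, h3⟩ := h
  refine ⟨V, _, fun x y => e (c x y), fun j => s (e.symm j), h1, fun x y => congrArg e (h2 x y), ?_⟩
  intro x y hxy
  have : ∀ j z, dg (fun x y => e (c x y)) (e j) z = dg c j z := by
    intro j z; simp [dg]
  simpa [this] using h3 x y hxy

theorem Feas.double {K : Type} {a b : ℕ} (h1 : Feas K a) (h2 : Feas K b) (hab : a < b) :
    Feas (Option K) (a + b) := by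
  obtain ⟨V, _, c, s, k1, k2, k3⟩ := h1
  obtain ⟨W, _, d, t, l1, l2, l3⟩ := h2
  let f : V ⊕ W → V ⊕ W → Option K := fun x y => match x, y with
    | .inl x, .inl y => some (c x y)
    | .inr x, .inr y => some (d x y)
    | _, _ => none
  let u : Option K → V ⊕ W → Prop := fun j x => match j, x with
    | some j, .inl x => s j x
    | some j, .inr x => t j x
    | none, .inl _ => True
    | none, .inr _ => False
  have e1 : ∀ j x, dg f (some j) (.inl x) = dg c j x := by
    intro j x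
    unfold dg
    rw [← card_image_of_injective (univ.filter fun y => y ≠ x ∧ c x y = j)
      (Sum.inl_injective (β := W))]
    congr 1; ext y; cases y <;> simp [f]
  have e2 : ∀ j x, dg f (some j) (.inr x) = dg d j x := by
    intro j x
    unfold dg
    rw [← card_image_of_injective (univ.filter fun y => y ≠ x ∧ d x y = j)
      (Sum.inr_injective (α := V))]
    congr 1; ext y; cases y <;> simp [f]
  have e3 : ∀ x, dg f none (.inl x) = b := by
    intro x
    unfold dg
    rw [← l1, ← card_univ, ← card_image_of_injective univ (Sum.inr_injective (α := V))]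
    congr 1; ext y; cases y <;> simp [f]
  have e4 : ∀ x, dg f none (.inr x) = a := by
    intro x
    unfold dg
    rw [← k1, ← card_univ, ← card_image_of_injective univ (Sum.inl_injective (β := W))]
    congr 1; ext y; cases y <;> simp [f]
  refine ⟨V ⊕ W, inferInstance, f, u, by simp [k1, l1], ?_, ?_⟩
  · rintro (x | x) (y | y)
    · exact congrArg some (k2 x y)
    · rfl
    · rfl
    · exact congrArg some (l2 x y)
  · rintro (x | x) (y | y) hxy
    · have := k3 x y (fun e => hxy (by rw [e]))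
      simpa [f, u, e1] using this
    · show (True ↔ ¬ False) ∧ (True → dg f none _ < dg f none _)
      simp [e3, e4, hab]
    · show (False ↔ ¬ True) ∧ (False → _)
      simp
    · have := l3 x y (fun e => hxy (by rw [e]))
      simpa [f, u, e2] using this

def Three (k N : ℕ) : Prop :=
  ∃ a b c, N ≤ a ∧ a < b ∧ b < c ∧ Feas (Fin k) a ∧ Feas (Fin k) b ∧ Feas (Fin k) c

theorem Three.pow {k N : ℕ} (h : Three k N) (t : ℕ) : Three (k + t) (N * 2 ^ t) := by
  induction t with
  | zero => simpa using h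
  | succ t ih =>
    obtain ⟨a, b, c, h1, h2, h3, f1, f2, f3⟩ := ih
    exact ⟨a + b, a + c, b + c, by rw [pow_succ, ← mul_assoc]; omega, by omega, by omega,
      (f1.double f2 h2).equiv (finSuccEquiv _).symm,
      (f1.double f3 (h2.trans h3)).equiv (finSuccEquiv _).symm,
      (f2.double f3 h3).equiv (finSuccEquiv _).symm⟩

section base
variable {b : ℕ}

abbrev A (b : ℕ) := Fin b → ZMod 2

theorem two_fix {α : Type} [Fintype α] [DecidableEq α] (i j : Fin 3) (hij : i ≠ j) (u v : α) :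
    (univ.filter fun δ : Fin 3 → α => δ i = u ∧ δ j = v).card ≤ Fintype.card α := by
  obtain ⟨l, hl⟩ : ∃ l : Fin 3, ∀ x, x = i ∨ x = j ∨ x = l := by
    revert hij; revert i j; decide
  rw [← card_univ]
  refine card_le_card_of_injOn (fun δ => δ l) (fun _ _ => mem_univ _) ?_
  intro δ h1 δ' h2 e
  simp only [coe_filter, mem_univ, true_and, Set.mem_ofPred_eq] at h1 h2
  funext x
  rcases hl x with rfl | rfl | rfl
  · rw [h1.1, h2.1]
  · rw [h1.2, h2.2]
  · exact e

theorem exists_col (σ : A b → Fin 3 × Fin b) : ∃ (col : (Fin 3 → A b) → Fin 3 × Fin b)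
    (pick : A b → Fin b → Fin b), (∀ δ : Fin 3 → A b, δ ≠ 0 → δ (col δ).1 (col δ).2 = 1) ∧
    (∀ a c, a c = 1 → pick a c = c) ∧
    ∀ δ, δ (σ (∑ j, δ j)).1 ≠ 0 →
      col δ = ((σ (∑ j, δ j)).1, pick (δ (σ (∑ j, δ j)).1) (σ (∑ j, δ j)).2) := by
  have hz : ∀ x : ZMod 2, x ≠ 0 → x = 1 := by decide
  have h1 : ∀ (a : A b) (c : Fin b), ∃ d, (a ≠ 0 → a d = 1) ∧ (a c = 1 → d = c) := by
    intro a c
    by_cases h : a c = 1
    · exact ⟨c, fun _ => h, fun _ => rfl⟩
    · by_cases h0 : a = 0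
      · exact ⟨c, fun e => absurd h0 e, fun _ => rfl⟩
      · obtain ⟨d, hd⟩ := Function.ne_iff.mp h0
        exact ⟨d, fun _ => hz _ hd, fun e => absurd e h⟩
  choose pick hp1 hp2 using h1
  have h2 : ∀ δ : Fin 3 → A b, ∃ p : Fin 3 × Fin b, (δ ≠ 0 → δ p.1 p.2 = 1) ∧
      (δ (σ (∑ j, δ j)).1 ≠ 0 →
        p = ((σ (∑ j, δ j)).1, pick (δ (σ (∑ j, δ j)).1) (σ (∑ j, δ j)).2)) := by
    intro δ
    by_cases h : δ (σ (∑ j, δ j)).1 ≠ 0
    · exact ⟨_, fun _ => hp1 _ _ h, fun _ => rfl⟩
    · by_cases h0 : δ = 0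
      · exact ⟨σ 0, fun e => absurd h0 e, fun e => absurd e h⟩
      · obtain ⟨i, hi⟩ := Function.ne_iff.mp h0
        obtain ⟨d, hd⟩ := Function.ne_iff.mp hi
        exact ⟨(i, d), fun _ => hz _ hd, fun e => absurd e h⟩
  choose col hc1 hc2 using h2
  exact ⟨col, pick, hc1, hp2, hc2⟩

theorem loss (σ : A b → Fin 3 × Fin b) (hσ : ∀ p, 12 ≤ (univ.filter fun h => σ h = p).card)
    (col : (Fin 3 → A b) → Fin 3 × Fin b) (pick : A b → Fin b → Fin b)
    (h1 : ∀ δ : Fin 3 → A b, δ ≠ 0 → δ (col δ).1 (col δ).2 = 1) (h2 : ∀ a c, a c = 1 → pick a c = c)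
    (h3 : ∀ δ, δ (σ (∑ j, δ j)).1 ≠ 0 →
      col δ = ((σ (∑ j, δ j)).1, pick (δ (σ (∑ j, δ j)).1) (σ (∑ j, δ j)).2))
    (i : Fin 3) (c : Fin b) (x y : Fin 3 → A b) (hx : ∀ j, x j ≠ 0)
    (hxi : x i c ≠ 1) (hyi : y i c = 1) :
    (univ.filter fun δ => δ ≠ 0 ∧ col δ = (i, c) ∧ ∃ j, δ j = x j).card + 2 <
      (univ.filter fun δ => δ ≠ 0 ∧ col δ = (i, c) ∧ ∃ j, δ j = y j).card := by
  set q := Fintype.card (A b) with hq
  have hq1 : 1 ≤ q := Fintype.card_pos
  obtain ⟨j, l, hj, hl, hjl, hall⟩ : ∃ j l : Fin 3, j ≠ i ∧ l ≠ i ∧ j ≠ l ∧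
      ∀ x, x = i ∨ x = j ∨ x = l := by clear hxi hyi; revert i; decide
  let S : Fin 3 → A b → Finset (Fin 3 → A b) := fun j a => univ.filter fun δ =>
    ((σ (∑ j, δ j)).1 = i ∧ δ i ≠ 0 ∧ pick (δ i) (σ (∑ j, δ j)).2 = c) ∧ δ j = a
  have aa : ∀ a : A b, a + a = 0 := fun a => by
    funext t; exact CharTwo.add_self_eq_zero _
  have tr : ∀ j l : Fin 3, j ≠ i → l ≠ i → j ≠ l → ∀ a a', (S j a).card ≤ (S j a').card := by
    intro j l hj hl hjl a a'
    refine card_le_card_of_injOn
      (fun δ => δ + (Pi.single j (a + a') + Pi.single l (a + a'))) ?_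
      (fun _ _ _ _ e => add_right_cancel e)
    intro δ hδ
    have hs : ∑ t, (δ + (Pi.single j (a + a') + Pi.single l (a + a') : Fin 3 → A b)) t
        = ∑ t, δ t := by
      simp only [Pi.add_apply, sum_add_distrib, Finset.sum_pi_single', mem_univ, if_true, aa,
        add_zero]
    have hi : (δ + (Pi.single j (a + a') + Pi.single l (a + a') : Fin 3 → A b)) i = δ i := by
      simp [Pi.single_eq_of_ne hj.symm, Pi.single_eq_of_ne hl.symm]
    simp only [S, coe_filter, mem_univ, true_and, Set.mem_ofPred_eq] at hδ ⊢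
    rw [hs, hi]
    refine ⟨hδ.1, ?_⟩
    simp only [Pi.add_apply, Pi.single_eq_same, Pi.single_eq_of_ne hjl, add_zero, hδ.2]
    rw [← add_assoc, aa, zero_add]
  have up : (univ.filter fun δ => δ ≠ 0 ∧ col δ = (i, c) ∧ ∃ j, δ j = x j).card ≤
      (S j (x j)).card + (S l (x l)).card + 6 * q := by
    have hsub : (univ.filter fun δ => δ ≠ 0 ∧ col δ = (i, c) ∧ ∃ j, δ j = x j) ⊆
        (S j (x j) ∪ S l (x l)) ∪ (univ : Finset (Fin 3)).offDiag.biUnion fun p =>
          univ.filter fun δ : Fin 3 → A b => δ p.1 = x p.1 ∧ δ p.2 = 0 := by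
      intro δ hδ
      obtain ⟨_, g1, g2, t, g3⟩ := mem_filter.mp hδ
      by_cases hm : δ (σ (∑ j, δ j)).1 = 0
      · refine mem_union_right _ (mem_biUnion.mpr ⟨(t, (σ (∑ j, δ j)).1), ?_, by simp [g3, hm]⟩)
        simp only [mem_offDiag, mem_univ, true_and]
        intro e; rw [← e, g3] at hm; exact hx t hm
      · have g4 := h3 δ hm
        rw [g2, Prod.mk.injEq] at g4
        have g5 := h1 δ g1
        rw [g2] at g5
        refine mem_union_left _ ?_
        rw [← g4.1] at hm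
        have g6 : pick (δ i) (σ (∑ j, δ j)).2 = c := by rw [g4.2, ← g4.1]
        rcases hall t with rfl | rfl | rfl
        · exact absurd (g3 ▸ g5) hxi
        · exact mem_union_left _ (mem_filter.mpr ⟨mem_univ _, ⟨g4.1.symm, hm, g6⟩, g3⟩)
        · exact mem_union_right _ (mem_filter.mpr ⟨mem_univ _, ⟨g4.1.symm, hm, g6⟩, g3⟩)
    refine (card_le_card hsub).trans ((card_union_le _ _).trans
      (add_le_add (card_union_le _ _) ?_))
    refine (card_biUnion_le_card_mul _ _ q fun p hp => ?_).trans (by simp)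
    exact two_fix _ _ (mem_offDiag.mp hp).2.2 _ _
  have low : (S i (y i) ∪ S j (y j) ∪ S l (y l)).card ≤
      (univ.filter fun δ => δ ≠ 0 ∧ col δ = (i, c) ∧ ∃ j, δ j = y j).card := by
    refine card_le_card fun δ hδ => ?_
    have : ∃ t, δ ∈ S t (y t) := by
      simp only [mem_union] at hδ
      rcases hδ with (h | h) | h <;> exact ⟨_, h⟩
    obtain ⟨t, ht⟩ := this
    obtain ⟨_, ⟨g1, g2, g3⟩, g4⟩ := mem_filter.mp ht
    refine mem_filter.mpr ⟨mem_univ _, fun e => g2 (by simp [e]), ?_, t, g4⟩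
    rw [h3 δ (by rwa [g1]), g1, g3]
  have inter : ∀ s t : Fin 3, s ≠ t → (S s (y s) ∩ S t (y t)).card ≤ q := by
    intro s t hst
    refine le_trans (card_le_card fun δ hδ => ?_) (two_fix s t hst (y s) (y t))
    rw [mem_inter] at hδ
    exact mem_filter.mpr ⟨mem_univ _, (mem_filter.mp hδ.1).2.2, (mem_filter.mp hδ.2).2.2⟩
  have big : 12 * q ≤ (S i (y i)).card := by
    refine le_trans (Nat.mul_le_mul_right q (hσ (i, c))) ?_
    rw [hq, ← card_univ, ← card_product]
    refine card_le_card_of_injOn (fun p => Pi.single i (y i) + Pi.single j p.2 +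
      Pi.single l (p.1 + y i + p.2)) ?_ ?_
    · rintro ⟨h, u⟩ hp
      have hp' : σ h = (i, c) := by simpa using hp
      have hs : ∑ t, (Pi.single i (y i) + Pi.single j u + Pi.single l (h + y i + u) :
          Fin 3 → A b) t = h := by
        simp only [Pi.add_apply, sum_add_distrib, Finset.sum_pi_single', mem_univ, if_true]
        have := aa (y i); have := aa u
        linear_combination (aa (y i)) + aa u
      have hi : (Pi.single i (y i) + Pi.single j u + Pi.single l (h + y i + u) :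
          Fin 3 → A b) i = y i := by
        simp [Pi.single_eq_of_ne hj.symm, Pi.single_eq_of_ne hl.symm]
      simp only [S, coe_filter, mem_univ, true_and, Set.mem_ofPred_eq]
      rw [hs, hi, hp']
      exact ⟨⟨rfl, fun e => by simp [e] at hyi, h2 _ _ hyi⟩, rfl⟩
    · rintro ⟨h, u⟩ _ ⟨h', u'⟩ _ e
      have e1 := congrFun e j
      have e2 := congrFun e l
      simp [Pi.single_eq_of_ne hj, Pi.single_eq_of_ne hl, Pi.single_eq_of_ne hjl,
        Pi.single_eq_of_ne hjl.symm] at e1 e2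
      subst e1
      simpa using e2
  have c1 := card_union_add_card_inter (S i (y i)) (S j (y j))
  have c2 := card_union_add_card_inter (S i (y i) ∪ S j (y j)) (S l (y l))
  rw [union_inter_distrib_right] at c2
  have c3 := card_union_le (S i (y i) ∩ S l (y l)) (S j (y j) ∩ S l (y l))
  have := inter i j hj.symm
  have := inter i l hl.symm
  have := inter j l hjl
  have := tr j l hj hl hjl (x j) (y j)
  have := tr l j hl hj hjl.symm (x l) (y l)
  omega

theorem base_feas (hb : 36 * b ≤ 2 ^ b) (hb0 : 0 < b) (P : Finset (Fin 3 → A b))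
    (hP : ∀ x ∈ P, ∀ j, x j ≠ 0)
    (hP2 : (univ.filter fun x : Fin 3 → A b => x ∉ P ∧ ∀ j, x j ≠ 0).card ≤ 2) :
    Feas (Fin 3 × Fin b) P.card := by
  obtain ⟨ι⟩ : Nonempty ((Fin 3 × Fin b) × Fin 12 ↪ A b) :=
    Function.Embedding.nonempty_of_card_le (by simp; omega)
  have : Nonempty ((Fin 3 × Fin b) × Fin 12) := ⟨((0, ⟨0, hb0⟩), 0)⟩
  let σ : A b → Fin 3 × Fin b := fun h => (Function.invFun ι h).1
  have hσ : ∀ p, 12 ≤ (univ.filter fun h => σ h = p).card := by
    intro p
    have := card_le_card_of_injOn (s := (univ : Finset (Fin 12)))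
      (t := univ.filter fun h => σ h = p) (fun r => ι (p, r))
      (fun r _ => by simp [σ, Function.leftInverse_invFun ι.injective (p, r)])
      (fun r _ r' _ e => by simpa using ι.injective e)
    simpa using this
  obtain ⟨col, pick, h1, h2, h3⟩ := exists_col σ
  have aa : ∀ a : Fin 3 → A b, a + a = 0 := fun a => by
    funext s t; exact CharTwo.add_self_eq_zero _
  have a0 : ∀ a a' : A b, a + a' = 0 ↔ a' = a := fun a a' => by
    rw [add_eq_zero_iff_neg_eq, eq_comm]
    have : -a = a := by funext t; exact CharTwo.neg_eq _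
    rw [this]
  have hd : ∀ (x : P) p, dg (fun x y : P => col (x + y)) p x +
      (univ.filter fun δ => δ ≠ 0 ∧ col δ = p ∧ x.1 + δ ∉ P).card =
      (univ.filter fun δ => δ ≠ 0 ∧ col δ = p).card := by
    intro x p
    rw [← card_filter_add_card_filter_not (s := univ.filter fun δ => δ ≠ 0 ∧ col δ = p)
      (fun δ => x.1 + δ ∈ P), filter_filter, filter_filter]
    congr 1
    · unfold dg
      refine card_bij (fun y _ => x.1 + y.1) ?_ ?_ ?_
      · intro y hy
        simp only [mem_filter, mem_univ, true_and] at hy ⊢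
        refine ⟨⟨fun e => hy.1 (Subtype.ext ?_), hy.2⟩, by rw [← add_assoc, aa, zero_add]; exact y.2⟩
        rw [← zero_add y.1, ← aa x.1, add_assoc, e, add_zero]
      · intro y _ y' _ e; exact Subtype.ext (add_left_cancel e)
      · intro δ hδ
        simp only [mem_filter, mem_univ, true_and] at hδ
        have e : x.1 + (x.1 + δ) = δ := by rw [← add_assoc, aa, zero_add]
        refine ⟨⟨x.1 + δ, hδ.2⟩, ?_, e⟩
        simp only [mem_filter, mem_univ, true_and, e]
        exact ⟨fun e' => hδ.1.1 (by simpa using congrArg Subtype.val e'), hδ.1.2⟩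
    · congr 1; ext δ; simp [and_assoc]
  refine ⟨P, inferInstance, fun x y => col (x + y), fun p x => x.1 p.1 p.2 ≠ 1, by simp,
    fun x y => by simp only [add_comm x.1], fun x y hxy => ?_⟩
  have hne : x.1 + y.1 ≠ 0 := fun e => hxy (Subtype.ext (by
    rw [← zero_add y.1, ← aa x.1, add_assoc, e, add_zero]))
  have hbit := h1 _ hne
  simp only [Pi.add_apply] at hbit
  have hz : ∀ u v : ZMod 2, u + v = 1 → (u ≠ 1 ↔ ¬ v ≠ 1) := by decide
  refine ⟨hz _ _ hbit, fun hs => ?_⟩
  have hy1 := not_not.mp ((hz _ _ hbit).mp hs)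
  set p := col (x.1 + y.1)
  have L := loss σ hσ col pick h1 h2 h3 p.1 p.2 x y (hP x x.2) hs hy1
  have d1 := hd x p
  have d2 := hd y p
  have u1 : (univ.filter fun δ => δ ≠ 0 ∧ col δ = p ∧ x.1 + δ ∉ P).card ≤
      (univ.filter fun δ => δ ≠ 0 ∧ col δ = (p.1, p.2) ∧ ∃ j, δ j = x.1 j).card + 2 := by
    have hsub : (univ.filter fun δ => δ ≠ 0 ∧ col δ = p ∧ x.1 + δ ∉ P) ⊆
        (univ.filter fun δ => δ ≠ 0 ∧ col δ = (p.1, p.2) ∧ ∃ j, δ j = x.1 j) ∪
        (univ.filter fun z : Fin 3 → A b => z ∉ P ∧ ∀ j, z j ≠ 0).image (fun z => x.1 + z) := by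
      intro δ hδ
      simp only [mem_filter, mem_univ, true_and, mem_union, mem_image] at hδ ⊢
      by_cases h : ∃ j, δ j = x.1 j
      · exact Or.inl ⟨hδ.1, hδ.2.1, h⟩
      · refine Or.inr ⟨x.1 + δ, ⟨hδ.2.2, fun j e => h ⟨j, (a0 _ _).mp e⟩⟩, ?_⟩
        rw [← add_assoc, aa, zero_add]
    exact (card_le_card hsub).trans ((card_union_le _ _).trans
      (Nat.add_le_add_left (card_image_le.trans hP2) _))
  have u2 : (univ.filter fun δ => δ ≠ 0 ∧ col δ = (p.1, p.2) ∧ ∃ j, δ j = y.1 j).card ≤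
      (univ.filter fun δ => δ ≠ 0 ∧ col δ = p ∧ y.1 + δ ∉ P).card := by
    refine card_le_card fun δ hδ => ?_
    simp only [mem_filter, mem_univ, true_and] at hδ ⊢
    obtain ⟨g1, g2, j, g3⟩ := hδ
    exact ⟨g1, g2, fun e => hP _ e j ((a0 _ _).mpr g3)⟩
  show dg (fun x y : P => col (x + y)) p y < dg (fun x y : P => col (x + y)) p x
  omega

theorem three_base (hb : 36 * b ≤ 2 ^ b) (hb0 : 0 < b) : Three (3 * b) ((2 ^ b - 1) ^ 3 - 2) := by
  let P0 : Finset (Fin 3 → A b) := Fintype.piFinset fun _ => univ.erase 0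
  have hc : P0.card = (2 ^ b - 1) ^ 3 := by simp [P0, card_erase_of_mem]
  have h2 : 3 ≤ (2 ^ b - 1) ^ 3 := by
    have : 2 ≤ 2 ^ b - 1 := by omega
    exact le_trans (by norm_num) (Nat.pow_le_pow_left this 3)
  have key : ∀ n, n ≤ P0.card → P0.card ≤ n + 2 → Feas (Fin (3 * b)) n := by
    intro n h1 h3
    obtain ⟨P, hP, rfl⟩ := exists_subset_card_eq h1
    refine (base_feas hb hb0 P (fun x hx j => ?_) ?_).equiv finProdFinEquiv
    · simpa [P0] using (Fintype.mem_piFinset.mp (hP hx)) j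
    · have : (univ.filter fun x : Fin 3 → A b => x ∉ P ∧ ∀ j, x j ≠ 0) = P0 \ P := by
        ext x; simp [P0, and_comm]
      rw [this, card_sdiff_of_subset hP]; omega
  exact ⟨_, (2 ^ b - 1) ^ 3 - 1, (2 ^ b - 1) ^ 3, le_rfl, by omega, by omega,
    key _ (by omega) (by omega), key _ (by omega) (by omega), key _ (by omega) (by omega)⟩

end base

end Pool.Agent.H31.DegMono3
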