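import Mathlib

namespace Pool.Agent.H31.FPP

open Finset

/-- `R` is an order relation on `[n]`, given as its set of pairs. -/
def IsOrd {n : ℕ} (R : Finset (Fin n × Fin n)) : Prop :=
  (∀ x, (x, x) ∈ R) ∧ (∀ x y, (x, y) ∈ R → (y, x) ∈ R → x = y) ∧
    (∀ x y z, (x, y) ∈ R → (y, z) ∈ R → (x, z) ∈ R)

/-- The fixed point property. -/
def HasFPP {n : ℕ} (R : Finset (Fin n × Fin n)) : Prop :=
  ∀ f : Fin n → Fin n, (∀ x y, (x, y) ∈ R → (f x, f y) ∈ R) → ∃ x, f x = x

/-- `S` arises from `R` by adding exactly one new pair. -/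
def Step {n : ℕ} (R S : Finset (Fin n × Fin n)) : Prop := ∃ p, p ∉ R ∧ S = insert p R

/-- A maximal chain `c 0 ⊂ c 1 ⊂ ⋯ ⊂ c (n choose 2)` of order relations on `[n]`. -/
def IsMaxCh (n : ℕ) (c : ℕ → Finset (Fin n × Fin n)) : Prop :=
  c 0 = univ.diag ∧ (∀ i ≤ n.choose 2, IsOrd (c i)) ∧
    (∀ i < n.choose 2, Step (c i) (c (i + 1))) ∧
    (∀ x y, (x, y) ∈ c (n.choose 2) ∨ (y, x) ∈ c (n.choose 2))

open Classical in
/-- Number of members with the fixed point property. -/
noncomputable def fppCount (n : ℕ) (c : ℕ → Finset (Fin n × Fin n)) : ℕ :=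
  #{i ∈ range (n.choose 2 + 1) | HasFPP (c i)}

open Classical in
/-- Number of adjacencies from a member without to a member with the fixed point property. -/
noncomputable def adjCount (n : ℕ) (c : ℕ → Finset (Fin n × Fin n)) : ℕ :=
  #{i ∈ range (n.choose 2) | ¬ HasFPP (c i) ∧ HasFPP (c (i + 1))}

variable {n : ℕ}

theorem fix_up {R : Finset (Fin n × Fin n)} (hR : IsOrd R) (f : Fin n → Fin n)
    (hf : ∀ x y, (x, y) ∈ R → (f x, f y) ∈ R) :
    ∀ k x, #{y | (x, y) ∈ R} < k → (x, f x) ∈ R → ∃ x, f x = x := by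
  intro k
  induction k with
  | zero => intro x h; omega
  | succ k ih =>
    intro x h hx
    by_cases e : f x = x
    · exact ⟨x, e⟩
    refine ih (f x) ?_ (hf _ _ hx)
    have : ({y | (f x, y) ∈ R} : Finset (Fin n)) ⊂ ({y | (x, y) ∈ R} : Finset (Fin n)) := by
      refine ⟨fun y hy => ?_, fun hs => ?_⟩
      · simp only [mem_filter, mem_univ, true_and] at hy ⊢
        exact hR.2.2 _ _ _ hx hy
      · have := hs (show x ∈ ({y | (x, y) ∈ R} : Finset (Fin n)) by simpa using hR.1 x)
        simp only [mem_filter, mem_univ, true_and] at this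
        exact e (hR.2.1 _ _ this hx)
    have := card_lt_card this
    omega

theorem fix_dn {R : Finset (Fin n × Fin n)} (hR : IsOrd R) (f : Fin n → Fin n)
    (hf : ∀ x y, (x, y) ∈ R → (f x, f y) ∈ R) :
    ∀ k x, #{y | (y, x) ∈ R} < k → (f x, x) ∈ R → ∃ x, f x = x := by
  intro k
  induction k with
  | zero => intro x h; omega
  | succ k ih =>
    intro x h hx
    by_cases e : f x = x
    · exact ⟨x, e⟩
    refine ih (f x) ?_ (hf _ _ hx)
    have : ({y | (y, f x) ∈ R} : Finset (Fin n)) ⊂ ({y | (y, x) ∈ R} : Finset (Fin n)) := by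
      refine ⟨fun y hy => ?_, fun hs => ?_⟩
      · simp only [mem_filter, mem_univ, true_and] at hy ⊢
        exact hR.2.2 _ _ _ hy hx
      · have := hs (show x ∈ ({y | (y, x) ∈ R} : Finset (Fin n)) by simpa using hR.1 x)
        simp only [mem_filter, mem_univ, true_and] at this
        exact e (hR.2.1 _ _ hx this)
    have := card_lt_card this
    omega

theorem inc_map {R : Finset (Fin n × Fin n)} (hR : IsOrd R) (h : ¬ HasFPP R) :
    ∃ f : Fin n → Fin n, (∀ x y, (x, y) ∈ R → (f x, f y) ∈ R) ∧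
      ∀ x, (x, f x) ∉ R ∧ (f x, x) ∉ R := by
  unfold HasFPP at h
  push Not at h
  obtain ⟨f, hf, hn⟩ := h
  refine ⟨f, hf, fun x => ⟨fun hx => ?_, fun hx => ?_⟩⟩
  · obtain ⟨y, hy⟩ := fix_up hR f hf _ x (Nat.lt_succ_self _) hx
    exact hn y hy
  · obtain ⟨y, hy⟩ := fix_dn hR f hf _ x (Nat.lt_succ_self _) hx
    exact hn y hy

/-- incomparable ordered pairs -/
def inc (R : Finset (Fin n × Fin n)) : Finset (Fin n × Fin n) := {p | p ∉ R ∧ p.swap ∉ R}

theorem inc_step {R S : Finset (Fin n × Fin n)} (h : Step R S) : #(inc R) ≤ #(inc S) + 2 := by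
  obtain ⟨p, -, rfl⟩ := h
  have : inc R ⊆ inc (insert p R) ∪ {p, p.swap} := by
    intro q hq
    simp only [inc, mem_filter, mem_univ, true_and, mem_union, mem_insert, mem_singleton] at hq ⊢
    by_cases h1 : q = p
    · right; left; exact h1
    by_cases h2 : q = p.swap
    · right; right; exact h2
    left
    refine ⟨fun h => h.elim h1 hq.1, fun h => h.elim (fun h => h2 (by rw [← h]; simp)) hq.2⟩
  have h1 := card_le_card this
  have h2 := card_union_le (inc (insert p R)) {p, p.swap}
  have h3 : #({p, p.swap} : Finset _) ≤ 2 := card_le_two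
  omega

theorem inc_le {c : ℕ → Finset (Fin n × Fin n)} (hc : IsMaxCh n c) :
    ∀ j i, i + j = n.choose 2 → #(inc (c i)) ≤ 2 * j := by
  intro j
  induction j with
  | zero =>
    intro i hi
    have : inc (c i) = ∅ := by
      refine eq_empty_of_forall_notMem fun p hp => ?_
      simp only [inc, mem_filter, mem_univ, true_and] at hp
      have h := hc.2.2.2 p.1 p.2
      rw [← hi] at h
      exact h.elim hp.1 hp.2
    simp [this]
  | succ j ih =>
    intro i hi
    have h1 := ih (i + 1) (by omega)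
    have h2 := inc_step (hc.2.2.1 i (by omega))
    omega

theorem card_inc_ge {R : Finset (Fin n × Fin n)} (f : Fin n → Fin n)
    (hf : ∀ x, (x, f x) ∉ R ∧ (f x, x) ∉ R) :
    (univ.image fun x => (x, f x)) ⊆ inc R ∧ #(univ.image fun x : Fin n => (x, f x)) = n := by
  constructor
  · intro p hp
    simp only [mem_image, mem_univ, true_and] at hp
    obtain ⟨x, rfl⟩ := hp
    simp only [inc, mem_filter, mem_univ, true_and]
    exact hf x
  · rw [card_image_of_injective _ (fun x y h => (Prod.mk.inj h).1)]; simp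

theorem top_fpp {c : ℕ → Finset (Fin n × Fin n)} (hc : IsMaxCh n c) (i : ℕ)
    (hi : i ≤ n.choose 2) (h : ¬ HasFPP (c i)) : n + 2 * i ≤ 2 * n.choose 2 := by
  obtain ⟨f, -, hf⟩ := inc_map (hc.2.1 i hi) h
  obtain ⟨h1, h2⟩ := card_inc_ge f hf
  have h3 := card_le_card h1
  have h4 := inc_le hc (n.choose 2 - i) i (by omega)
  omega

theorem not_fpp_of_label {R : Finset (Fin n × Fin n)} (hR : ∀ x, (x, x) ∈ R) {β : Type}
    (g : Fin n → β) (hg : ∀ x y, (x, y) ∈ R → g x = g y) (p q : Fin n) (h : g p ≠ g q) :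
    ¬ HasFPP R := by
  classical
  intro hF
  obtain ⟨x, hx⟩ := hF (fun x => if g x = g p then q else p) (fun x y hxy => by
    simp only [hg x y hxy]; exact hR _)
  by_cases e : g x = g p
  · simp only [e, if_true] at hx
    rw [← hx] at e; exact h e.symm
  · simp only [e, if_false] at hx
    rw [← hx] at e; exact e rfl

theorem label {c : ℕ → Finset (Fin n × Fin n)} (hc : IsMaxCh n c) :
    ∀ i ≤ n.choose 2, ∃ g : Fin n → Fin n, (∀ x y, (x, y) ∈ c i → g x = g y) ∧
      n ≤ #(univ.image g) + i := by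
  intro i
  induction i with
  | zero =>
    intro _
    refine ⟨id, fun x y h => ?_, by simp⟩
    rw [hc.1] at h
    simpa using h
  | succ i ih =>
    intro hi
    obtain ⟨g, hg, hn⟩ := ih (by omega)
    obtain ⟨p, -, hp⟩ := hc.2.2.1 i (by omega)
    refine ⟨fun x => if g x = g p.2 then g p.1 else g x, fun x y h => ?_, ?_⟩
    · rw [hp, mem_insert] at h
      rcases h with h | h
      · subst h; simp
      · simp only [hg x y h]
    · have : univ.image g ⊆ insert (g p.2) (univ.image fun x => if g x = g p.2 then g p.1 else g x) := by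
        intro y hy
        simp only [mem_image, mem_univ, true_and, mem_insert] at hy ⊢
        obtain ⟨x, rfl⟩ := hy
        by_cases e : g x = g p.2
        · left; exact e
        · right; exact ⟨x, by simp [e]⟩
      have h1 := card_le_card this
      have h2 := card_insert_le (g p.2) (univ.image fun x => if g x = g p.2 then g p.1 else g x)
      omega

theorem bot_fpp {c : ℕ → Finset (Fin n × Fin n)} (hc : IsMaxCh n c) (i : ℕ)
    (hi : i ≤ n.choose 2) (h : HasFPP (c i)) : n ≤ i + 1 := by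
  obtain ⟨g, hg, hn⟩ := label hc i hi
  by_contra hlt
  have : 1 < #(univ.image g) := by omega
  obtain ⟨a, ha, b, hb, hab⟩ := one_lt_card.1 this
  simp only [mem_image, mem_univ, true_and] at ha hb
  obtain ⟨p, rfl⟩ := ha
  obtain ⟨q, rfl⟩ := hb
  exact not_fpp_of_label (hc.2.1 i hi).1 g hg p q hab h

/-- weighted paths of single steps -/
inductive Pth (w : Finset (Fin n × Fin n) → Finset (Fin n × Fin n) → ℕ)
    (R : Finset (Fin n × Fin n)) : Finset (Fin n × Fin n) → ℕ → ℕ → Prop
  | nil : Pth w R R 0 0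
  | snoc {S T k m} : Pth w R S k m → Step S T → IsOrd T → Pth w R T (k + 1) (m + w S T)

theorem Pth.trans {w} {R S T : Finset (Fin n × Fin n)} {k m k' m' : ℕ} (h : Pth w R S k m)
    (h' : Pth w S T k' m') : Pth w R T (k + k') (m + m') := by
  induction h' with
  | nil => exact h
  | snoc _ hs ho ih => rw [← add_assoc, ← add_assoc]; exact ih.snoc hs ho

theorem Pth.card {w} {R S : Finset (Fin n × Fin n)} {k m : ℕ} (h : Pth w R S k m) :
    #S = #R + k := by
  induction h with
  | nil => rfl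
  | snoc _ hs _ ih =>
    obtain ⟨p, hp, rfl⟩ := hs
    rw [card_insert_of_notMem hp, ih]; omega

theorem Pth.seq {w} {R S : Finset (Fin n × Fin n)} {k m : ℕ} (h : Pth w R S k m) (hR : IsOrd R) :
    ∃ c : ℕ → Finset (Fin n × Fin n), c 0 = R ∧ c k = S ∧ (∀ i ≤ k, IsOrd (c i)) ∧
      (∀ i < k, Step (c i) (c (i + 1))) ∧ ∑ i ∈ range k, w (c i) (c (i + 1)) = m := by
  induction h with
  | nil => exact ⟨fun _ => R, rfl, rfl, fun _ _ => hR, fun i hi => by omega, by simp⟩
  | @snoc S T k m _ hs ho ih =>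
    obtain ⟨c, h0, hk, h1, h2, h3⟩ := ih
    refine ⟨fun i => if i ≤ k then c i else T, by simp [h0], by simp, fun i hi => ?_,
      fun i hi => ?_, ?_⟩
    · by_cases e : i ≤ k
      · simp only [e, if_true]; exact h1 i e
      · simp only [e, if_false]; exact ho
    · by_cases e : i < k
      · simp only [show i ≤ k by omega, show i + 1 ≤ k by omega, if_true]; exact h2 i e
      · have : i = k := by omega
        subst this
        simp only [le_refl, if_true, show ¬ (i + 1 ≤ i) by omega, if_false, hk]; exact hs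
    · rw [sum_range_succ, ← h3]
      simp only [le_refl, if_true, show ¬ (k + 1 ≤ k) by omega, if_false, hk]
      congr 1
      refine sum_congr rfl fun i hi => ?_
      have := mem_range.1 hi
      simp only [show i ≤ k by omega, show i + 1 ≤ k by omega, if_true]

theorem ext_step {R S : Finset (Fin n × Fin n)} (hR : IsOrd R) (hS : IsOrd S) (h : R ⊆ S)
    (hne : R ≠ S) : ∃ T, Step R T ∧ IsOrd T ∧ T ⊆ S := by
  have hn : (S \ R).Nonempty := by
    rw [sdiff_nonempty]; exact fun h' => hne (Subset.antisymm h h')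
  obtain ⟨⟨x, y⟩, hp, hmin⟩ := exists_min_image (S \ R)
    (fun p => #{u | (u, p.1) ∈ R} + #{v | (p.2, v) ∈ R}) hn
  rw [mem_sdiff] at hp
  have hsub : insert (x, y) R ⊆ S := insert_subset hp.1 h
  have A : ∀ u, (u, x) ∈ R → u ≠ x → (u, y) ∈ R := by
    intro u hu hne
    by_contra hc
    have h1 := hmin (u, y) (mem_sdiff.2 ⟨hS.2.2 _ _ _ (h hu) hp.1, hc⟩)
    have : ({t | (t, u) ∈ R} : Finset (Fin n)) ⊂ ({t | (t, x) ∈ R} : Finset (Fin n)) := by
      refine ⟨fun t ht => ?_, fun hs => ?_⟩
      · simp only [mem_filter, mem_univ, true_and] at ht ⊢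
        exact hR.2.2 _ _ _ ht hu
      · have := hs (show x ∈ ({t | (t, x) ∈ R} : Finset (Fin n)) by simpa using hR.1 x)
        simp only [mem_filter, mem_univ, true_and] at this
        exact hne (hR.2.1 _ _ hu this)
    have := card_lt_card this
    simp only at h1
    omega
  have B : ∀ v, (y, v) ∈ R → v ≠ y → (x, v) ∈ R := by
    intro v hv hne
    by_contra hc
    have h1 := hmin (x, v) (mem_sdiff.2 ⟨hS.2.2 _ _ _ hp.1 (h hv), hc⟩)
    have : ({t | (v, t) ∈ R} : Finset (Fin n)) ⊂ ({t | (y, t) ∈ R} : Finset (Fin n)) := by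
      refine ⟨fun t ht => ?_, fun hs => ?_⟩
      · simp only [mem_filter, mem_univ, true_and] at ht ⊢
        exact hR.2.2 _ _ _ hv ht
      · have := hs (show y ∈ ({t | (y, t) ∈ R} : Finset (Fin n)) by simpa using hR.1 y)
        simp only [mem_filter, mem_univ, true_and] at this
        exact hne (hR.2.1 _ _ this hv)
    have := card_lt_card this
    simp only at h1
    omega
  refine ⟨insert (x, y) R, ⟨_, hp.2, rfl⟩, ⟨fun a => mem_insert_of_mem (hR.1 a),
    fun a b h1 h2 => hS.2.1 a b (hsub h1) (hsub h2), fun a b d h1 h2 => ?_⟩, hsub⟩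
  simp only [mem_insert, Prod.mk.injEq] at h1 h2 ⊢
  rcases h1 with ⟨rfl, rfl⟩ | h1 <;> rcases h2 with ⟨h2, rfl⟩ | h2
  · left; exact ⟨rfl, rfl⟩
  · by_cases e : d = b
    · left; exact ⟨rfl, e⟩
    · right; exact B d h2 e
  · subst h2
    by_cases e : a = b
    · left; exact ⟨e, rfl⟩
    · right; exact A a h1 e
  · right; exact hR.2.2 _ _ _ h1 h2

theorem exists_pth (w) (b : ℕ) {S : Finset (Fin n × Fin n)} (hS : IsOrd S) :
    ∀ k (R : Finset (Fin n × Fin n)), IsOrd R → R ⊆ S → #S = #R + k →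
      (∀ M T, IsOrd T → R ⊆ T → T ⊆ S → w M T ≤ b) → ∃ m, m ≤ b * k ∧ Pth w R S k m := by
  intro k
  induction k with
  | zero =>
    intro R _ h hc _
    have : R = S := eq_of_subset_of_card_le h (by omega)
    subst this
    exact ⟨0, by simp, Pth.nil⟩
  | succ k ih =>
    intro R hR h hc hw
    obtain ⟨T, hs, hT, hTS⟩ := ext_step hR hS h (by rintro rfl; omega)
    have hRT : R ⊆ T := by obtain ⟨p, -, rfl⟩ := hs; exact subset_insert _ _
    have h1 : Pth w R T (0 + 1) (0 + w R T) := Pth.nil.snoc hs hT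
    obtain ⟨m, hm, hp⟩ := ih T hT hTS (by have := h1.card; omega)
      (fun M U hU h1 h2 => hw M U hU (hRT.trans h1) h2)
    have h2 := h1.trans hp
    have h3 := hw R T hT hRT hTS
    refine ⟨0 + w R T + m, by rw [mul_add]; omega, ?_⟩
    rwa [show k + 1 = 0 + 1 + k by omega]

theorem ord_diag : IsOrd (univ.diag : Finset (Fin n × Fin n)) :=
  ⟨fun x => by simp, fun x y h _ => by simpa using h, fun x y z h1 h2 => by
    simp only [mem_diag, mem_univ, true_and] at h1 h2 ⊢; exact h1.trans h2⟩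

theorem diag_sub {R : Finset (Fin n × Fin n)} (hR : IsOrd R) : univ.diag ⊆ R := by
  rintro ⟨x, y⟩ h
  simp only [mem_diag, mem_univ, true_and] at h
  subst h; exact hR.1 x

theorem two_choose (n : ℕ) : 2 * n.choose 2 + n = n * n := by
  induction n with
  | zero => rfl
  | succ n ih => rw [Nat.choose_succ_succ' n 1, Nat.choose_one_right]; nlinarith

theorem card_total {L : Finset (Fin n × Fin n)} (hL : IsOrd L)
    (ht : ∀ x y, (x, y) ∈ L ∨ (y, x) ∈ L) : #L = n + n.choose 2 := by
  have h1 : L ∪ L.map (Equiv.prodComm _ _).toEmbedding = univ := by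
    refine eq_univ_of_forall fun p => ?_
    rw [mem_union, mem_map_equiv]
    exact ht p.1 p.2
  have h2 : L ∩ L.map (Equiv.prodComm _ _).toEmbedding = univ.diag := by
    ext ⟨x, y⟩
    rw [mem_inter, mem_map_equiv]
    simp only [mem_diag, mem_univ, true_and]
    constructor
    · rintro ⟨a, b⟩; exact hL.2.1 _ _ a b
    · rintro rfl; exact ⟨hL.1 x, hL.1 x⟩
  have h3 := card_union_add_card_inter L (L.map (Equiv.prodComm _ _).toEmbedding)
  rw [h1, h2, card_map] at h3
  simp only [card_univ, Fintype.card_prod, Fintype.card_fin, diag_card] at h3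
  have := two_choose n
  omega

theorem exists_total {R : Finset (Fin n × Fin n)} (hR : IsOrd R) :
    ∃ L, IsOrd L ∧ R ⊆ L ∧ ∀ x y, (x, y) ∈ L ∨ (y, x) ∈ L := by
  classical
  have : IsPartialOrder (Fin n) (fun x y => (x, y) ∈ R) :=
    { refl := hR.1, trans := hR.2.2, antisymm := hR.2.1 }
  obtain ⟨s, hs, hle⟩ := extend_partialOrder (fun x y : Fin n => (x, y) ∈ R)
  refine ⟨univ.filter fun p : Fin n × Fin n => s p.1 p.2, ⟨fun x => ?_, fun x y h1 h2 => ?_, fun x y z h1 h2 => ?_⟩,
    fun p hp => ?_, fun x y => ?_⟩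
  · simpa using hs.refl x
  · simp only [mem_filter, mem_univ, true_and] at h1 h2; exact hs.antisymm _ _ h1 h2
  · simp only [mem_filter, mem_univ, true_and] at h1 h2 ⊢; exact hs.trans _ _ _ h1 h2
  · simp only [mem_filter, mem_univ, true_and]; exact hle _ _ hp
  · simpa using hs.total x y

theorem chain_of_pth {w} {L : Finset (Fin n × Fin n)} {k m : ℕ} (h : Pth w univ.diag L k m)
    (hL : IsOrd L) (ht : ∀ x y, (x, y) ∈ L ∨ (y, x) ∈ L) :
    ∃ c, IsMaxCh n c ∧ ∑ i ∈ range (n.choose 2), w (c i) (c (i + 1)) = m := by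
  have h1 := h.card
  rw [card_total hL ht] at h1
  simp only [diag_card, card_univ, Fintype.card_fin] at h1
  have hk : k = n.choose 2 := by omega
  subst hk
  obtain ⟨c, a, b, d, e, f⟩ := h.seq ord_diag
  exact ⟨c, ⟨a, d, e, by rw [b]; exact ht⟩, f⟩

end Pool.Agent.H31.FPP
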