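import Mathlib

open Finset

namespace Pool.Agent.H31.GP

structure Cfg (α : Type) where
  IsL : Set α → Prop
  uq : ∀ L L' p q, IsL L → IsL L' → p ≠ q → p ∈ L → q ∈ L → p ∈ L' → q ∈ L' → L = L'
  S : Finset α
  C : Finset (Set α)
  hC : ∀ L ∈ C, IsL L
  cov : ∀ p ∈ S, ∃ L ∈ C, p ∈ L
  k : ℕ
  hk : C.card ≤ k
  g : ℕ

open Classical

noncomputable def sel {α : Type} (U : Finset α) (P : α → Prop) : Finset α := U.filter P

theorem mem_sel {α : Type} {U : Finset α} {P : α → Prop} {a : α} : a ∈ sel U P ↔ a ∈ U ∧ P a := mem_filter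

namespace Cfg

variable {α : Type} (X : Cfg α)

def col (x y z : α) : Prop := ∃ L, X.IsL L ∧ L ∉ X.C ∧ x ∈ L ∧ y ∈ L ∧ z ∈ L

noncomputable def I : Finset α := (sel X.S fun p => ∃ L ∈ X.C, ∃ L' ∈ X.C, L ≠ L' ∧ p ∈ L ∧ p ∈ L')

def Valid (U : Finset α) (c : α → ℕ) : Prop :=
  (∀ p ∈ U, c p < X.g) ∧ (∀ L ∈ X.C, ∀ j, (sel U fun p => p ∈ L ∧ c p = j).card ≤ 2) ∧
    Set.InjOn c X.I

noncomputable def Tri (c : α → ℕ) : Finset (α × α × α) :=
  {t ∈ X.S ×ˢ X.S ×ˢ X.S | t.1 ≠ t.2.1 ∧ t.1 ≠ t.2.2 ∧ t.2.1 ≠ t.2.2 ∧ c t.2.1 = c t.1 ∧ c t.2.2 = c t.1 ∧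
    X.col t.1 t.2.1 t.2.2}

def blk (c : α → ℕ) (x : α) (j : ℕ) (y : α) : Prop :=
  y ∈ X.S ∧ y ≠ x ∧ c y = j ∧ ∃ z ∈ X.S, y ≠ z ∧ z ≠ x ∧ c z = j ∧ X.col x y z

noncomputable def pop (c : α → ℕ) (x : α) : Finset ℕ := {j ∈ range X.g | ∃ y, X.blk c x j y}

theorem col_12 {x y z : α} (h : X.col x y z) : X.col y x z :=
  let ⟨L, a, b, c, d, e⟩ := h; ⟨L, a, b, d, c, e⟩

theorem col_23 {x y z : α} (h : X.col x y z) : X.col x z y :=
  let ⟨L, a, b, c, d, e⟩ := h; ⟨L, a, b, c, e, d⟩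

theorem col_off {x y z : α} (h : X.col x y z) (hxy : x ≠ y) {L : Set α} (hL : L ∈ X.C) (hx : x ∈ L) :
    y ∉ L := fun hy =>
  let ⟨M, a, b, c, d, _⟩ := h; b (X.uq M L x y a (X.hC L hL) hxy c d hx hy ▸ hL)

theorem card_I : X.I.card ≤ X.k ^ 2 := by
  have : X.I ⊆ X.C.offDiag.biUnion fun w => (sel X.S fun p => p ∈ w.1 ∧ p ∈ w.2) := fun p hp => by
    obtain ⟨h, L, hL, L', hL', a, b⟩ := mem_sel.1 hp
    exact mem_biUnion.2 ⟨(L, L'), mem_offDiag.2 ⟨hL, hL', a⟩, mem_sel.2 ⟨h, b⟩⟩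
  refine (card_le_card this).trans ((card_biUnion_le_card_mul _ _ 1 fun w hw => ?_).trans ?_)
  · obtain ⟨a, b, c⟩ := mem_offDiag.1 hw
    refine card_le_one.2 fun p hp q hq => ?_
    by_contra h
    have hp := (mem_sel.1 hp).2
    have hq := (mem_sel.1 hq).2
    exact c (X.uq _ _ p q (X.hC _ a) (X.hC _ b) h hp.1 hq.1 hp.2 hq.2)
  · rw [offDiag_card, mul_one, sq]
    exact (Nat.sub_le _ _).trans (Nat.mul_le_mul X.hk X.hk)

theorem by_lines (P : α → Prop) (b : ℕ) (h : ∀ L ∈ X.C, (sel X.S fun p => p ∈ L ∧ P p).card ≤ b) :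
    (sel X.S fun p => P p).card ≤ X.k * b := by
  have : (sel X.S fun p => P p) ⊆ X.C.biUnion fun L => (sel X.S fun p => p ∈ L ∧ P p) := fun p hp => by
    obtain ⟨a, b⟩ := mem_sel.1 hp
    obtain ⟨L, hL, c⟩ := X.cov p a
    exact mem_biUnion.2 ⟨L, hL, mem_sel.2 ⟨a, c, b⟩⟩
  exact (card_le_card this).trans ((card_biUnion_le_card_mul _ _ b h).trans (Nat.mul_le_mul_right _ X.hk))

theorem cnt1 (W : Finset α) {L : Set α} (hL : L ∈ X.C) :
    (sel X.S fun p => p ∈ L ∧ ∃ u ∈ W, ∃ v ∈ W, u ≠ v ∧ X.col p u v).card ≤ W.card ^ 2 := by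
  have : (sel X.S fun p => p ∈ L ∧ ∃ u ∈ W, ∃ v ∈ W, u ≠ v ∧ X.col p u v) ⊆
      W.offDiag.biUnion fun w => (sel X.S fun p => p ∈ L ∧ X.col p w.1 w.2) := fun p hp => by
    obtain ⟨h, a, u, hu, v, hv, b, c⟩ := mem_sel.1 hp
    exact mem_biUnion.2 ⟨(u, v), mem_offDiag.2 ⟨hu, hv, b⟩, mem_sel.2 ⟨h, a, c⟩⟩
  refine (card_le_card this).trans ((card_biUnion_le_card_mul _ _ 1 fun w hw => ?_).trans ?_)
  · refine card_le_one.2 fun p hp q hq => ?_
    by_contra h
    obtain ⟨p1, M, a, b, c, d, e⟩ := (mem_sel.1 hp).2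
    obtain ⟨q1, M', a', -, c', d', e'⟩ := (mem_sel.1 hq).2
    have := X.uq M M' _ _ a a' (mem_offDiag.1 hw).2.2 d e d' e'
    subst this
    exact b (X.uq M L p q a (X.hC L hL) h c c' p1 q1 ▸ hL)
  · rw [offDiag_card, mul_one, sq]; exact Nat.sub_le _ _

theorem cls_le {c : α → ℕ} (hc : X.Valid X.S c) (j : ℕ) : (sel X.S fun p => c p = j).card ≤ X.k * 2 :=
  X.by_lines _ 2 fun L hL => hc.2.1 L hL j

noncomputable def mv (c : α → ℕ) (x x' : α) (j : ℕ) : α → ℕ :=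
  fun p => if p = x then j else if p = x' then c x else c p

def MD (c : α → ℕ) (L : Set α) (x x' : α) (j : ℕ) (W : Finset α) : Prop :=
  j < X.g ∧ j ≠ c x ∧
    ((x' = x ∧ (sel X.S fun p => p ∈ L ∧ c p = j).card ≤ 1) ∨
      (x' ∈ X.S ∧ x' ∈ L ∧ x' ∉ X.I ∧ c x' = j ∧ ∀ u ∈ W, ∀ v ∈ W, u ≠ v → ¬ X.col x' u v))

theorem ex_md (c : α → ℕ) {L : Set α} (hL : L ∈ X.C) (x : α) (F : Finset ℕ) (W : Finset α)
    (h : F.card + X.k ^ 2 + W.card ^ 2 + 1 < X.g) :
    ∃ x' j, j ∉ F ∧ (∀ p ∈ X.I, c p ≠ j) ∧ X.MD c L x x' j W := by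
  set B := (sel X.S fun p => p ∈ L ∧ ∃ u ∈ W, ∃ v ∈ W, u ≠ v ∧ X.col p u v) with hB
  have : (insert (c x) (F ∪ X.I.image c ∪ B.image c)).card < (range X.g).card := by
    rw [card_range]
    have a := card_insert_le (c x) (F ∪ X.I.image c ∪ B.image c)
    have b := card_union_le (F ∪ X.I.image c) (B.image c)
    have d := card_union_le F (X.I.image c)
    have e := (card_image_le (f := c)).trans X.card_I
    have f := (card_image_le (f := c)).trans (X.cnt1 W hL)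
    rw [← hB] at f
    omega
  obtain ⟨j, hj, hn⟩ := exists_mem_notMem_of_card_lt_card this
  simp only [mem_insert, mem_union, mem_image, not_or, not_exists, not_and] at hn
  obtain ⟨n1, ⟨n2, n3⟩, n4⟩ := hn
  by_cases h1 : (sel X.S fun p => p ∈ L ∧ c p = j).card ≤ 1
  · exact ⟨x, j, n2, n3, mem_range.1 hj, n1, Or.inl ⟨rfl, h1⟩⟩
  · obtain ⟨x', hx'⟩ := card_pos.1 (show 0 < (sel X.S fun p => p ∈ L ∧ c p = j).card by omega)
    obtain ⟨a, b, d⟩ := mem_sel.1 hx'
    exact ⟨x', j, n2, n3, mem_range.1 hj, n1, Or.inr ⟨a, b, fun h => n3 _ h d, d, fun u hu v hv e f =>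
      n4 x' (mem_sel.2 ⟨a, b, u, hu, v, hv, e, f⟩) d⟩⟩

theorem only {x : α} (hx : x ∈ X.S) (hI : x ∉ X.I) {L M : Set α} (hL : L ∈ X.C) (hM : M ∈ X.C)
    (a : x ∈ L) (b : x ∈ M) : L = M := by
  by_contra h
  exact hI (mem_sel.2 ⟨hx, L, hL, M, hM, h, a, b⟩)

theorem mv_valid {c : α → ℕ} (hc : X.Valid X.S c) {L : Set α} (hL : L ∈ X.C) {x x' : α} (hx : x ∈ X.S)
    (hI : x ∉ X.I) (hxL : x ∈ L) {j : ℕ} {W : Finset α} (h : X.MD c L x x' j W) :
    X.Valid X.S (mv c x x' j) := by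
  obtain ⟨h1, h2, h3⟩ := h
  have hx' : x' ∈ X.S ∧ x' ∈ L ∧ x' ∉ X.I := by
    rcases h3 with ⟨rfl, -⟩ | h3
    · exact ⟨hx, hxL, hI⟩
    · exact ⟨h3.1, h3.2.1, h3.2.2.1⟩
  refine ⟨fun p hp => ?_, fun M hM i => ?_, fun p hp q hq e => ?_⟩
  · unfold mv; split_ifs
    · exact h1
    · exact hc.1 x hx
    · exact hc.1 p hp
  · by_cases e : M = L
    · subst e
      rcases h3 with ⟨rfl, h3⟩ | h3
      · by_cases e : i = j
        · subst e
          refine le_trans (card_le_card (t := insert x' (sel X.S fun p => p ∈ M ∧ c p = i)) fun p hp => ?_)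
            ((card_insert_le _ _).trans (by omega))
          simp only [mv, mem_sel, mem_insert] at hp ⊢
          by_cases e : p = x' <;> simp_all
        · refine le_trans (card_le_card fun p hp => ?_) (hc.2.1 M hM i)
          simp only [mv, mem_sel] at hp ⊢
          by_cases e : p = x' <;> simp_all
      · refine le_trans (card_le_card_of_injOn (Equiv.swap x x') (fun p hp => ?_)
          (Equiv.injective _).injOn) (hc.2.1 M hM i)
        simp only [mv, mem_coe, mem_sel, Equiv.swap_apply_def] at hp ⊢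
        split_ifs at hp ⊢
        · exact ⟨h3.1, h3.2.1, h3.2.2.2.1.trans hp.2.2⟩
        · exact ⟨hx, hxL, hp.2.2⟩
        · exact hp
    · refine le_trans (card_le_card fun p hp => ?_) (hc.2.1 M hM i)
      simp only [mv, mem_sel] at hp ⊢
      have a : p ≠ x := fun a => e (X.only hx hI hM hL (a ▸ hp.2.1) hxL)
      have b : p ≠ x' := fun a => e (X.only hx'.1 hx'.2.2 hM hL (a ▸ hp.2.1) hx'.2.1)
      simpa only [a, b, if_false] using hp
  · have a : ∀ p ∈ (X.I : Set α), mv c x x' j p = c p := fun p hp => by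
      have a : p ≠ x := fun a => hI (a ▸ hp)
      have b : p ≠ x' := fun a => hx'.2.2 (a ▸ hp)
      simp [mv, a, b]
    rw [a p hp, a q hq] at e
    exact hc.2.2 hp hq e

theorem mv_tri {c : α → ℕ} {L : Set α} {x x' : α} {j : ℕ} {W : Finset α} (h : X.MD c L x x' j W)
    (hL : L ∈ X.C) (hxL : x ∈ L) (hW : ∀ p ∈ X.S, c p = c x → p ∈ W) (hb : ∀ y, ¬ X.blk c x j y) :
    X.Tri (mv c x x' j) ⊆ X.Tri c := by
  obtain ⟨h1, h2, h3⟩ := h
  have hx' : x' ∈ L := by
    rcases h3 with ⟨rfl, -⟩ | h3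
    · exact hxL
    · exact h3.2.1
  have key : ∀ a b d, a ∈ X.S → b ∈ X.S → d ∈ X.S → a ≠ b → a ≠ d → b ≠ d →
      mv c x x' j b = mv c x x' j a → mv c x x' j d = mv c x x' j a → X.col a b d → a ≠ x ∧ a ≠ x' := by
    intro a b d ha hb' hd n1 n2 n3 e1 e2 hc
    by_contra hn
    have aL : a ∈ L := by
      by_cases e : a = x
      · exact e ▸ hxL
      · have : a = x' := by tauto
        exact this ▸ hx'
    have bL := X.col_off hc n1 hL aL
    have dL := X.col_off (X.col_23 hc) n2 hL aL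
    have b1 : b ≠ x := fun e => bL (e ▸ hxL)
    have b2 : b ≠ x' := fun e => bL (e ▸ hx')
    have d1 : d ≠ x := fun e => dL (e ▸ hxL)
    have d2 : d ≠ x' := fun e => dL (e ▸ hx')
    simp only [mv, b1, b2, d1, d2, if_false] at e1 e2
    by_cases e : a = x
    · subst e
      simp only [if_true] at e1 e2
      exact hb b ⟨hb', b1, e1, d, hd, n3, d1, e2, hc⟩
    · have : a = x' := by tauto
      subst this
      simp only [e, if_true, if_false] at e1 e2
      rcases h3 with ⟨h3, -⟩ | h3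
      · exact e h3
      · exact h3.2.2.2.2 b (hW b hb' e1) d (hW d hd e2) n3 hc
  rintro ⟨a, b, d⟩ ht
  simp only [Tri, mem_filter, mem_product] at ht ⊢
  obtain ⟨⟨ha, hb', hd⟩, n1, n2, n3, e1, e2, hc⟩ := ht
  obtain ⟨a1, a2⟩ := key a b d ha hb' hd n1 n2 n3 e1 e2 hc
  obtain ⟨b1, b2⟩ := key b a d hb' ha hd n1.symm n3 n2 e1.symm (e2.trans e1.symm) (X.col_12 hc)
  obtain ⟨d1, d2⟩ := key d a b hd ha hb' n2.symm n3.symm n1 e2.symm (e1.trans e2.symm)
    (X.col_12 (X.col_23 hc))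
  simp only [mv, a1, a2, b1, b2, d1, d2, if_false] at e1 e2
  exact ⟨⟨ha, hb', hd⟩, n1, n2, n3, e1, e2, hc⟩

theorem unblock {L : Set α} (hL : L ∈ X.C) {x : α} (hxL : x ∈ L) (j : ℕ) (d : ℕ) :
    ∀ c : α → ℕ, X.Valid X.S c → j ≠ c x → (∀ p ∈ X.I, c p ≠ j) →
      (sel X.S fun y => X.blk c x j y).card ≤ d →
      (∀ y, X.blk c x j y → (X.pop c y).card + 2 * d + X.k ^ 2 + (X.k * 2 + 1) ^ 2 + 2 < X.g) →
      ∃ c', X.Valid X.S c' ∧ X.Tri c' ⊆ X.Tri c ∧ (∀ p ∈ L, c' p = c p) ∧ (∀ p, c' p = c x ↔ c p = c x) ∧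
        ∀ y, ¬ X.blk c' x j y := by
  induction d with
  | zero =>
    intro c hc _ _ h _
    refine ⟨c, hc, Subset.rfl, fun _ _ => rfl, fun _ => Iff.rfl, fun y hy => ?_⟩
    exact absurd ((card_pos.2 ⟨y, mem_sel.2 ⟨hy.1, hy⟩⟩).trans_le h) (lt_irrefl _)
  | succ d ih =>
    intro c hc hj hI hd hp
    by_cases hy : ∃ y, X.blk c x j y
    swap
    · exact ⟨c, hc, Subset.rfl, fun _ _ => rfl, fun _ => Iff.rfl, fun y h => hy ⟨y, h⟩⟩
    obtain ⟨y, hy⟩ := hy
    have hpy := hp y hy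
    obtain ⟨yS, yx, cy, z, -, -, -, -, hcol⟩ := id hy
    have yI : y ∉ X.I := fun h => hI y h cy
    obtain ⟨M, hM, yM⟩ := X.cov y yS
    have yL := X.col_off hcol yx.symm hL hxL
    obtain ⟨y', j', f1, f2, md⟩ := X.ex_md c hM y (insert (c x) (X.pop c y))
      (insert x (sel X.S fun p => c p = j)) (by
        have a := card_insert_le (c x) (X.pop c y)
        have b := Nat.pow_le_pow_left ((card_insert_le x _).trans (Nat.succ_le_succ (X.cls_le hc j))) 2
        simp only [Nat.succ_eq_add_one] at b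
        omega)
    simp only [mem_insert, not_or] at f1
    have y'p : y' = y ∨ (y' ∉ L ∧ y' ∉ X.I ∧ c y' = j') := by
      rcases md.2.2 with h | h
      · exact Or.inl h.1
      · exact Or.inr ⟨fun e => yL (X.only h.1 h.2.2.1 hM hL h.2.1 e ▸ yM), h.2.2.1, h.2.2.2.1⟩
    have jj : j' ≠ j := cy ▸ md.2.1
    have same : ∀ p i, i ≠ j → i ≠ j' → (mv c y y' j' p = i ↔ c p = i) := by
      intro p i a b
      unfold mv
      split_ifs with e1 e2
      · rw [e1, cy]; exact ⟨fun e => absurd e.symm b, fun e => absurd e.symm a⟩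
      · rw [e2, cy, (y'p.resolve_left fun e => e1 (e2.trans e)).2.2]
        exact ⟨fun e => absurd e.symm a, fun e => absurd e.symm b⟩
      · rfl
    have onL : ∀ p ∈ L, mv c y y' j' p = c p := fun p hp => by
      have a : p ≠ y := fun e => yL (e ▸ hp)
      have b : p ≠ y' := fun e => y'p.elim (fun h => a (e.trans h)) fun h => h.1 (e ▸ hp)
      simp [mv, a, b]
    have newb : ∀ w, X.blk (mv c y y' j') x j w → w ≠ y ∧ X.blk c x j w := by
      have one : ∀ u v, u ∈ X.S → v ∈ X.S → u ≠ v → v ≠ x → mv c y y' j' u = j → mv c y y' j' v = j →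
          X.col x u v → u ≠ y ∧ c u = j := by
        intro u v hu hv n1 n2 e1 e2 hc
        have a : u ≠ y := fun e => jj (by simpa [mv, e] using e1)
        have b : v ≠ y := fun e => jj (by simpa [mv, e] using e2)
        refine ⟨a, ?_⟩
        by_cases e : u = y'
        · exfalso
          subst e
          rcases md.2.2 with h | h
          · exact a h.1
          · refine h.2.2.2.2 x (mem_insert_self _ _) v (mem_insert_of_mem (mem_sel.2 ⟨hv, ?_⟩))
              n2.symm (X.col_12 hc)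
            simpa [mv, b, n1.symm] using e2
        · simpa [mv, a, e] using e1
      rintro w ⟨w1, w2, w3, v, v1, v2, v3, v4, v5⟩
      obtain ⟨a, b⟩ := one w v w1 v1 v2 v3 w3 v4 v5
      obtain ⟨-, e⟩ := one v w v1 w1 v2.symm w2 v4 w3 (X.col_23 v5)
      exact ⟨a, w1, w2, b, v, v1, v2, v3, e, v5⟩
    obtain ⟨c', a1, a2, a3, a4, a5⟩ := ih (mv c y y' j') (X.mv_valid hc hM yS yI yM md)
      (by rw [onL x hxL]; exact hj)
      (fun p hp => by
        have a : p ≠ y := fun e => yI (e ▸ hp)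
        have b : p ≠ y' := fun e => y'p.elim (fun h => a (e.trans h)) fun h => h.2.1 (e ▸ hp)
        simpa [mv, a, b] using hI p hp)
      (by
        have : (sel X.S fun w => X.blk (mv c y y' j') x j w) ⊆
            (sel X.S fun w => X.blk c x j w).erase y := fun w hw =>
          mem_erase.2 ⟨(newb w (mem_sel.1 hw).2).1, mem_sel.2 ⟨(mem_sel.1 hw).1,
            (newb w (mem_sel.1 hw).2).2⟩⟩
        have := card_le_card this
        rw [card_erase_of_mem (mem_sel (P := fun w => X.blk c x j w).2 ⟨yS, hy⟩)] at this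
        omega)
      (fun w hw => by
        have := hp w (newb w hw).2
        have s : X.pop (mv c y y' j') w ⊆ insert j (insert j' (X.pop c w)) := fun i hi => by
          simp only [mem_insert]
          by_cases a : i = j
          · exact Or.inl a
          by_cases b : i = j'
          · exact Or.inr (Or.inl b)
          obtain ⟨i1, u, u1, u2, u3, v, v1, v2, v3, v4, v5⟩ := mem_filter.1 hi
          exact Or.inr (Or.inr (mem_filter.2 ⟨i1, u, u1, u2, (same u i a b).1 u3, v, v1, v2, v3,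
            (same v i a b).1 v4, v5⟩))
        have a := card_le_card s
        have b := card_insert_le j (insert j' (X.pop c w))
        have e := card_insert_le j' (X.pop c w)
        omega)
    rw [onL x hxL] at a4
    refine ⟨c', a1, a2.trans (X.mv_tri md hM yM (fun p hp e => mem_insert_of_mem
      (mem_sel.2 ⟨hp, e.trans cy⟩)) fun w hw => f1.2 (mem_filter.2 ⟨mem_range.2 md.1, w, hw⟩)),
      fun p hp => (a3 p hp).trans (onL p hp), fun p => (a4 p).trans (same p _ hj.symm (Ne.symm f1.1)), a5⟩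

end Cfg

end Pool.Agent.H31.GP
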