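import Pool.Agent.H31.GP1

open Finset

namespace Pool.Agent.H31.GP

open Classical

namespace Cfg

variable {α : Type} (X : Cfg α)

theorem few_pop {c : α → ℕ} (hc : X.Valid X.S c) :
    (sel X.S fun y => X.g < 2 * (X.pop c y).card).card ≤ 8 * X.k ^ 3 := by
  have h1 : ∑ y ∈ X.S, (X.pop c y).card ≤ X.g * (4 * X.k ^ 3) := by
    simp only [pop, card_filter]
    rw [sum_comm]
    refine (sum_le_card_nsmul _ _ (4 * X.k ^ 3) fun j _ => ?_).trans (by simp)
    rw [← card_filter]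
    refine le_trans (card_le_card (t := sel X.S fun p => ∃ u ∈ (sel X.S fun p => c p = j),
      ∃ v ∈ (sel X.S fun p => c p = j), u ≠ v ∧ X.col p u v) fun y hy => ?_)
      ((X.by_lines _ _ fun L hL => (X.cnt1 _ hL).trans (Nat.pow_le_pow_left (X.cls_le hc j) 2)).trans
        (le_of_eq (by ring)))
    obtain ⟨h, u, u1, -, u3, v, v1, v2, -, v4, v5⟩ := mem_filter.1 hy
    exact mem_sel.2 ⟨h, u, mem_sel.2 ⟨u1, u3⟩, v, mem_sel.2 ⟨v1, v4⟩, v2, v5⟩
  set P := sel X.S fun y => X.g < 2 * (X.pop c y).card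
  have h2 := card_nsmul_le_sum P (fun y => 2 * (X.pop c y).card) (X.g + 1) fun y hy => (mem_sel.1 hy).2
  have h3 : ∑ y ∈ P, (X.pop c y).card ≤ ∑ y ∈ X.S, (X.pop c y).card :=
    sum_le_sum_of_subset fun y hy => (mem_sel.1 hy).1
  rw [← mul_sum, smul_eq_mul] at h2
  refine Nat.le_of_mul_le_mul_right ?_ (Nat.succ_pos X.g)
  nlinarith [Nat.zero_le (X.k ^ 3)]

theorem decr (hg : 33 * X.k ^ 3 ≤ X.g) {c : α → ℕ} (hc : X.Valid X.S c) (h : (X.Tri c).Nonempty) :
    ∃ c', X.Valid X.S c' ∧ (X.Tri c').card < (X.Tri c).card := by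
  have : ∃ t ∈ X.Tri c, t.1 ∉ X.I := by
    obtain ⟨⟨a, b, d⟩, ht⟩ := h
    by_cases e : a ∈ X.I
    · simp only [Tri, mem_filter, mem_product] at ht
      obtain ⟨⟨ha, hb, hd⟩, n1, n2, n3, e1, e2, h⟩ := ht
      refine ⟨(b, a, d), ?_, fun e' => n1 (hc.2.2 e e' e1.symm)⟩
      simp only [Tri, mem_filter, mem_product]
      exact ⟨⟨hb, ha, hd⟩, n1.symm, n3, n2, e1.symm, e2.trans e1.symm, X.col_12 h⟩
    · exact ⟨_, ht, e⟩
  obtain ⟨⟨x, y, z⟩, ht, xI⟩ := this
  have ht' := ht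
  simp only [Tri, mem_filter, mem_product] at ht' xI
  obtain ⟨⟨hx, hy, hz⟩, n1, n2, n3, e1, e2, hcol⟩ := ht'
  obtain ⟨L, hL, xL⟩ := X.cov x hx
  have k1 : 1 ≤ X.k := (card_pos.2 ⟨L, hL⟩).trans_le X.hk
  have k2 : X.k ≤ X.k ^ 2 := by nlinarith
  have k3 : X.k ^ 2 ≤ X.k ^ 3 := Nat.pow_le_pow_right k1 (by norm_num)
  obtain ⟨x', j, f1, f2, md⟩ := X.ex_md c hL x
    ((sel X.S fun y => X.g < 2 * (X.pop c y).card).image c) (sel X.S fun p => c p = c x) (by
      have a := (card_image_le (f := c)).trans (X.few_pop hc)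
      have b := Nat.pow_le_pow_left (X.cls_le hc (c x)) 2
      rw [mul_pow] at b
      omega)
  obtain ⟨c', a1, a2, a3, a4, a5⟩ := X.unblock hL xL j (X.k * 2) c hc md.2.1 f2
    ((card_le_card fun w hw => mem_sel.2 ⟨(mem_sel.1 hw).1, (mem_sel.1 hw).2.2.2.1⟩).trans (X.cls_le hc j))
    fun w hw => by
      have : ¬ X.g < 2 * (X.pop c w).card := fun h =>
        f1 (mem_image.2 ⟨w, mem_sel.2 ⟨hw.1, h⟩, hw.2.2.1⟩)
      rw [show (X.k * 2 + 1) ^ 2 = 4 * X.k ^ 2 + 4 * X.k + 1 by ring]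
      omega
  have cx := a3 x xL
  have md' : X.MD c' L x x' j (sel X.S fun p => c p = c x) := by
    refine ⟨md.1, cx ▸ md.2.1, md.2.2.imp (fun h => ⟨h.1, le_trans (card_le_card fun p hp => ?_) h.2⟩)
      fun h => ⟨h.1, h.2.1, h.2.2.1, (a3 _ h.2.1).trans h.2.2.2.1, h.2.2.2.2⟩⟩
    obtain ⟨a, b, d⟩ := mem_sel.1 hp
    exact mem_sel.2 ⟨a, b, a3 p b ▸ d⟩
  refine ⟨_, X.mv_valid a1 hL hx xI xL md', card_lt_card ⟨(X.mv_tri md' hL xL
    (fun p hp e => mem_sel.2 ⟨hp, (a4 p).1 (e.trans cx)⟩) a5).trans a2, fun h => ?_⟩⟩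
  have := (mem_filter.1 (h ht)).2.2.2.2.1
  have yL := X.col_off hcol n1 hL xL
  have b : y ≠ x' := fun e => md.2.2.elim (fun h => n1 (e.trans h.1).symm) fun h => yL (e ▸ h.2.1)
  simp only [mv, n1.symm, b, if_true, if_false] at this
  exact md.2.1 (this.symm.trans ((a4 y).2 e1))

theorem init (hg : X.k ^ 2 ≤ X.g) (hm : ∀ L ∈ X.C, (sel X.S fun p => p ∈ L).card ≤ 2 * X.g) :
    ∃ c, X.Valid X.S c := by
  have key : ∀ A : Finset α, A ⊆ X.S \ X.I → ∃ c, X.Valid (X.I ∪ A) c := by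
    intro A
    induction A using Finset.induction_on with
    | empty =>
      intro _
      let c : α → ℕ := fun p => if h : p ∈ X.I then (X.I.equivFin ⟨p, h⟩ : ℕ) else 0
      have inj : Set.InjOn c X.I := fun p hp q hq e => by
        simp only [c, mem_coe.1 hp, mem_coe.1 hq, dif_pos] at e
        exact congrArg Subtype.val (X.I.equivFin.injective (Fin.ext e))
      refine ⟨c, fun p hp => ?_, fun L _ j => le_trans (card_le_one.2 fun p hp q hq => ?_) one_le_two, inj⟩
      · rw [union_empty] at hp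
        simp only [c, hp, dif_pos]
        exact (Fin.is_lt _).trans_le (X.card_I.trans hg)
      · rw [union_empty, mem_sel] at hp hq
        exact inj hp.1 hq.1 (hp.2.2.trans hq.2.2.symm)
    | insert a A ha ih =>
      intro h
      obtain ⟨c, c1, c2, c3⟩ := ih ((subset_insert _ _).trans h)
      obtain ⟨aS, aI⟩ := mem_sdiff.1 (h (mem_insert_self _ _))
      obtain ⟨L, hL, aL⟩ := X.cov a aS
      have aU : a ∉ X.I ∪ A := by simp [aI, ha]
      have : ∃ j < X.g, (sel (X.I ∪ A) fun p => p ∈ L ∧ c p = j).card ≤ 1 := by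
        by_contra hn
        push Not at hn
        have h1 := card_nsmul_le_sum (range X.g) _ 2 fun j hj => hn j (mem_range.1 hj)
        have h2 : (sel (X.I ∪ A) fun p => p ∈ L).card =
            ∑ j ∈ range X.g, (sel (X.I ∪ A) fun p => p ∈ L ∧ c p = j).card := by
          rw [card_eq_sum_card_fiberwise (f := c) (t := range X.g)
            fun p hp => mem_range.2 (c1 p (mem_sel.1 hp).1)]
          exact sum_congr rfl fun j _ => congrArg card (by ext p; simp [mem_sel, and_assoc])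
        have h3 : (sel (X.I ∪ A) fun p => p ∈ L).card < (sel X.S fun p => p ∈ L).card :=
          card_lt_card ⟨fun p hp => mem_sel.2 ⟨(mem_union.1 (mem_sel.1 hp).1).elim
            (fun h => (mem_sel.1 h).1) fun h' => (mem_sdiff.1 (h (mem_insert_of_mem h'))).1,
            (mem_sel.1 hp).2⟩, fun h => aU (mem_sel.1 (h (mem_sel.2 ⟨aS, aL⟩))).1⟩
        have := hm L hL
        rw [card_range, smul_eq_mul] at h1
        omega
      obtain ⟨j, j1, j2⟩ := this
      refine ⟨fun p => if p = a then j else c p, fun p hp => ?_, fun M hM i => ?_, fun p hp q hq e => ?_⟩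
      · dsimp only
        split_ifs with e
        · exact j1
        · exact c1 p (by simp only [mem_union, mem_insert] at hp ⊢; tauto)
      · by_cases e : a ∈ M ∧ j = i
        · obtain ⟨e, rfl⟩ := e
          rw [X.only aS aI hM hL e aL]
          refine le_trans (card_le_card (t := insert a (sel (X.I ∪ A) fun p => p ∈ L ∧ c p = j))
            fun p hp => ?_) ((card_insert_le _ _).trans (by omega))
          simp only [mem_sel, mem_insert, mem_union] at hp ⊢
          by_cases e : p = a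
          · exact Or.inl e
          · simp only [e, if_false, false_or] at hp ⊢; exact hp
        · refine le_trans (card_le_card fun p hp => ?_) (c2 M hM i)
          simp only [mem_sel, mem_insert, mem_union] at hp ⊢
          by_cases e' : p = a
          · simp only [e', if_true] at hp; exact absurd hp.2 e
          · simp only [e', if_false, false_or] at hp ⊢; exact hp
      · have a1 : p ≠ a := fun e => aI (e ▸ hp)
        have a2 : q ≠ a := fun e => aI (e ▸ hq)
        simp only [a1, a2, if_false] at e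
        exact c3 hp hq e
  obtain ⟨c, hc⟩ := key _ Subset.rfl
  rw [union_sdiff_of_subset (show X.I ⊆ X.S from fun p hp => (mem_sel.1 hp).1)] at hc
  exact ⟨c, hc⟩

theorem main (hg : 33 * X.k ^ 3 ≤ X.g) (hm : ∀ L ∈ X.C, (sel X.S fun p => p ∈ L).card ≤ 2 * X.g) :
    ∃ c : α → ℕ, (∀ p ∈ X.S, c p < X.g) ∧
      ∀ L, X.IsL L → ∀ j, (sel X.S fun p => p ∈ L ∧ c p = j).card ≤ 2 := by
  have : ∀ n, ∀ c, X.Valid X.S c → (X.Tri c).card = n → ∃ c, X.Valid X.S c ∧ X.Tri c = ∅ := by
    intro n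
    induction n using Nat.strong_induction_on with
    | _ n ih =>
    intro c hc hn
    rcases (X.Tri c).eq_empty_or_nonempty with h | h
    · exact ⟨c, hc, h⟩
    · obtain ⟨c', a, b⟩ := X.decr hg hc h
      exact ih _ (hn ▸ b) c' a rfl
  obtain ⟨c0, h0⟩ := X.init (by
    rcases Nat.eq_zero_or_pos X.k with h | h
    · simp [h]
    · have : X.k ^ 2 ≤ X.k ^ 3 := Nat.pow_le_pow_right h (by norm_num)
      omega) hm
  obtain ⟨c, hc, e⟩ := this _ c0 h0 rfl
  refine ⟨c, hc.1, fun L hL j => ?_⟩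
  by_cases h : L ∈ X.C
  · exact hc.2.1 L h j
  · by_contra hn
    obtain ⟨a, b, d, ha, hb, hd, n1, n2, n3⟩ := two_lt_card_iff.1 (not_le.1 hn)
    rw [mem_sel] at ha hb hd
    have : (a, b, d) ∈ X.Tri c := by
      simp only [Tri, mem_filter, mem_product]
      exact ⟨⟨ha.1, hb.1, hd.1⟩, n1, n2, n3, hb.2.2.trans ha.2.2.symm, hd.2.2.trans ha.2.2.symm,
        L, hL, h, ha.2.1, hb.2.1, hd.2.1⟩
    simp [e] at this

end Cfg

end Pool.Agent.H31.GP
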