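import Mathlib

namespace Pool.Agent.H31.GPos

/-- Points of the real plane. -/
abbrev Pt := ℝ × ℝ

/-- Lines of the plane. -/
def IsLine (L : Set Pt) : Prop :=
  ∃ a b c : ℝ, (a ≠ 0 ∨ b ≠ 0) ∧ L = {p | a * p.1 + b * p.2 = c}

/-- The largest number of points of `S` on one line. -/
noncomputable def ONLINE (S : Finset Pt) : ℕ :=
  sSup {m | ∃ L, IsLine L ∧ ((S : Set Pt) ∩ L).ncard = m}

/-- The least number of lines covering `S`. -/
noncomputable def LC (S : Finset Pt) : ℕ :=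
  sInf {k | ∃ C : Finset (Set Pt), C.card = k ∧ (∀ L ∈ C, IsLine L) ∧ ∀ p ∈ S, ∃ L ∈ C, p ∈ L}

/-- No three distinct points of `T` lie on one line. -/
def GenPos (T : Set Pt) : Prop :=
  ∀ L, IsLine L → ∀ p ∈ T ∩ L, ∀ q ∈ T ∩ L, ∀ r ∈ T ∩ L, p = q ∨ p = r ∨ q = r

/-- The least number of parts (colour classes) in a partition of `S` into sets in general position. -/
noncomputable def GP (S : Finset Pt) : ℕ :=
  sInf {g | ∃ c : Pt → ℕ, (∀ p ∈ S, c p < g) ∧ ∀ j, GenPos {p | p ∈ S ∧ c p = j}}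

end Pool.Agent.H31.GPos
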