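import Pool.Agent.H31.GP2
import Pool.Agent.H31.GPDefs

open Finset

namespace Pool.Agent.H31.GPos

open Classical GP

def D (p q r : Pt) : ℝ := (q.1 - p.1) * (r.2 - p.2) - (q.2 - p.2) * (r.1 - p.1)

def ln (p q : Pt) : Set Pt := {r | D p q r = 0}

theorem ne_co {p q : Pt} (h : p ≠ q) : q.1 - p.1 ≠ 0 ∨ q.2 - p.2 ≠ 0 := by
  by_contra hc
  push Not at hc
  exact h (Prod.ext (by linarith [hc.1]) (by linarith [hc.2]))

theorem ln_line {p q : Pt} (h : p ≠ q) : IsLine (ln p q) :=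
  ⟨-(q.2 - p.2), q.1 - p.1, (q.1 - p.1) * p.2 - (q.2 - p.2) * p.1,
    (ne_co h).symm.imp (fun h => neg_ne_zero.2 h) id, by
      ext r; simp only [ln, D, Set.mem_ofPred_eq]; constructor <;> intro h <;> linarith⟩

theorem line_eq {L : Set Pt} (hL : IsLine L) {p q : Pt} (h : p ≠ q) (hp : p ∈ L) (hq : q ∈ L) :
    L = ln p q := by
  obtain ⟨a, b, c, h0, rfl⟩ := hL
  simp only [Set.mem_ofPred_eq] at hp hq
  ext r
  simp only [ln, D, Set.mem_ofPred_eq]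
  constructor
  · intro hr
    rcases h0 with h0 | h0 <;> refine mul_left_cancel₀ h0 ?_
    · linear_combination (r.2 - p.2) * (hq - hp) - (q.2 - p.2) * (hr - hp)
    · linear_combination (q.1 - p.1) * (hr - hp) - (r.1 - p.1) * (hq - hp)
  · intro hr
    rcases ne_co h with h0 | h0 <;> refine mul_left_cancel₀ h0 ?_
    · linear_combination b * hr + (r.1 - p.1) * (hq - hp) + (q.1 - p.1) * hp
    · linear_combination -a * hr + (r.2 - p.2) * (hq - hp) + (q.2 - p.2) * hp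

def hz (p : Pt) : Set Pt := {r | 0 * r.1 + 1 * r.2 = p.2}

theorem hz_line (p : Pt) : IsLine (hz p) := ⟨0, 1, p.2, Or.inr one_ne_zero, rfl⟩

theorem mem_hz (p : Pt) : p ∈ hz p := by simp [hz]

theorem lc_le {S : Finset Pt} (l : List (Set Pt)) (h1 : ∀ L ∈ l, IsLine L) (h2 : ∀ p ∈ S, ∃ L ∈ l, p ∈ L) :
    LC S ≤ l.length := by
  refine le_trans (Nat.sInf_le ?_) l.toFinset_card_le
  exact ⟨l.toFinset, rfl, fun L hL => h1 L (List.mem_toFinset.1 hL),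
    fun p hp => let ⟨L, a, b⟩ := h2 p hp; ⟨L, List.mem_toFinset.2 a, b⟩⟩

theorem lc_card (S : Finset Pt) : LC S ≤ S.card := by
  simpa using lc_le (S := S) (S.toList.map hz)
    (fun L hL => by obtain ⟨p, -, rfl⟩ := List.mem_map.1 hL; exact hz_line p)
    fun p hp => ⟨hz p, List.mem_map_of_mem (by simpa using hp), mem_hz p⟩

theorem ex_cfg (S : Finset Pt) (k g : ℕ) (h : LC S ≤ k) :
    ∃ X : Cfg Pt, X.IsL = IsLine ∧ X.S = S ∧ X.k = k ∧ X.g = g := by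
  obtain ⟨C, c1, c2, c3⟩ : LC S ∈ _ := Nat.sInf_mem (s := {k | ∃ C : Finset (Set Pt), C.card = k ∧
    (∀ L ∈ C, IsLine L) ∧ ∀ p ∈ S, ∃ L ∈ C, p ∈ L}) ⟨_, S.image hz, rfl,
    fun L hL => by obtain ⟨p, -, rfl⟩ := mem_image.1 hL; exact hz_line p,
    fun p hp => ⟨hz p, mem_image_of_mem _ hp, mem_hz p⟩⟩
  exact ⟨⟨IsLine, fun L L' p q a b c d e f g => (line_eq a c d e).trans (line_eq b c f g).symm, S, C, c2,
    c3, k, c1 ▸ h, g⟩, rfl, rfl, rfl, rfl⟩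

theorem nc (S : Finset Pt) (L : Set Pt) : ((S : Set Pt) ∩ L).ncard = (sel S fun p => p ∈ L).card := by
  rw [← Set.ncard_coe_finset]; congr 1; ext p; simp [mem_sel]

theorem on_bdd (S : Finset Pt) : BddAbove {m | ∃ L, IsLine L ∧ ((S : Set Pt) ∩ L).ncard = m} :=
  ⟨S.card, fun _ ⟨L, _, h⟩ => h ▸ nc S L ▸ card_le_card fun _ hp => (mem_sel.1 hp).1⟩

theorem le_on (S : Finset Pt) {L : Set Pt} (h : IsLine L) : (sel S fun p => p ∈ L).card ≤ ONLINE S :=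
  le_csSup (on_bdd S) ⟨L, h, nc S L⟩

theorem on_ex (S : Finset Pt) : ∃ L, IsLine L ∧ (sel S fun p => p ∈ L).card = ONLINE S := by
  obtain ⟨L, a, b⟩ := Nat.sSup_mem (s := {m | ∃ L, IsLine L ∧ ((S : Set Pt) ∩ L).ncard = m})
    ⟨_, hz 0, hz_line 0, rfl⟩ (on_bdd S)
  exact ⟨L, a, (nc S L).symm.trans b⟩

theorem gp_eq (S : Finset Pt) (k : ℕ) (h : LC S ≤ k) (hn : 66 * k ^ 4 ≤ S.card) :
    GP S = (ONLINE S + 1) / 2 := by
  obtain ⟨X, e1, rfl, rfl, e4⟩ := ex_cfg S k ((ONLINE S + 1) / 2) h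
  have hC : ∀ L ∈ X.C, IsLine L := fun L hL => e1 ▸ X.hC L hL
  have n1 : X.S.card ≤ X.k * ONLINE X.S := by
    refine le_trans (card_le_card fun p hp => mem_sel.2 ⟨hp, trivial⟩) (X.by_lines (fun _ => True) _
      fun L hL => le_trans (card_le_card fun p hp => ?_) (le_on X.S (hC L hL)))
    exact mem_sel.2 ⟨(mem_sel.1 hp).1, (mem_sel.1 hp).2.1⟩
  obtain ⟨c, c1, c2⟩ := X.main (by
    rcases Nat.eq_zero_or_pos X.k with h0 | h0
    · simp [h0]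
    · have : 66 * X.k ^ 3 ≤ ONLINE X.S := Nat.le_of_mul_le_mul_left (by nlinarith) h0
      omega) fun L hL => (le_on X.S (hC L hL)).trans (by omega)
  have mem : (ONLINE X.S + 1) / 2 ∈
      {g | ∃ c : Pt → ℕ, (∀ p ∈ X.S, c p < g) ∧ ∀ j, GenPos {p | p ∈ X.S ∧ c p = j}} := by
    refine ⟨c, e4 ▸ c1, fun j L hL p hp q hq r hr => ?_⟩
    by_contra hc
    push Not at hc
    exact absurd (c2 L (e1 ▸ hL) j) (not_le.2 (two_lt_card_iff.2 ⟨p, q, r,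
      mem_sel.2 ⟨hp.1.1, hp.2, hp.1.2⟩, mem_sel.2 ⟨hq.1.1, hq.2, hq.1.2⟩,
      mem_sel.2 ⟨hr.1.1, hr.2, hr.1.2⟩, hc⟩))
  refine le_antisymm (Nat.sInf_le mem) (le_csInf ⟨_, mem⟩ ?_)
  rintro g ⟨d, d1, d2⟩
  obtain ⟨L, hL, e⟩ := on_ex X.S
  have := card_le_mul_card_image_of_maps_to (s := sel X.S fun p => p ∈ L) (t := range g) (f := d)
    (fun p hp => mem_range.2 (d1 p (mem_sel.1 hp).1)) 2 fun j _ => by
      by_contra hc
      obtain ⟨p, q, r, hp, hq, hr, n⟩ := two_lt_card_iff.1 (not_le.1 hc)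
      simp only [mem_filter, mem_sel] at hp hq hr
      have := d2 j L hL p ⟨⟨hp.1.1, hp.2⟩, hp.1.2⟩ q ⟨⟨hq.1.1, hq.2⟩, hq.1.2⟩ r ⟨⟨hr.1.1, hr.2⟩, hr.1.2⟩
      tauto
  rw [card_range, e] at this
  omega

theorem gp_mem (S : Finset Pt) :
    S.card ∈ {g | ∃ c : Pt → ℕ, (∀ p ∈ S, c p < g) ∧ ∀ j, GenPos {p | p ∈ S ∧ c p = j}} := by
  refine ⟨fun p => if h : p ∈ S then (S.equivFin ⟨p, h⟩ : ℕ) else 0, fun p hp => ?_,
    fun j L _ p hp q hq r _ => Or.inl ?_⟩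
  · simp only [hp, dif_pos]; exact Fin.is_lt _
  · have e := hp.1.2.trans hq.1.2.symm
    simp only [hp.1.1, hq.1.1, dif_pos] at e
    exact congrArg Subtype.val (S.equivFin.injective (Fin.ext e))

theorem gp_le (S : Finset Pt) : GP S ≤ S.card := Nat.sInf_le (gp_mem S)

theorem gp_pos {S : Finset Pt} (h : S.Nonempty) : 0 < GP S := by
  obtain ⟨p, hp⟩ := h
  obtain ⟨c, h, -⟩ := Nat.sInf_mem ⟨_, gp_mem S⟩
  exact (Nat.zero_le _).trans_lt (h p hp)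

end Pool.Agent.H31.GPos
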