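import Pool.Agent.H31.GPDefs
import Pool.Agent.H38.ER.Defs

namespace Pool.Agent.H31.GPos

/-- The triple of integers `(x, y, d)` stands for the rational point `(x/d, y/d)`. -/
noncomputable def pt (t : ℤ × ℤ × ℤ) : Pt := ((t.1 : ℝ) / t.2.2, (t.2.1 : ℝ) / t.2.2)

/-- Well-formed lists: nonzero denominators, no point listed twice. -/
def OK (S : List (ℤ × ℤ × ℤ)) : Prop := (∀ t ∈ S, t.2.2 ≠ 0) ∧ (S.map pt).Nodup

open Classical in
/-- The configuration described by a list. -/
noncomputable def conf (S : List (ℤ × ℤ × ℤ)) : Finset Pt := (S.map pt).toFinset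

/-- Instances `(S, g)`; all numbers are written in binary. -/
abbrev Inst := List (ℤ × ℤ × ℤ) × H38.NP.Bin

end Pool.Agent.H31.GPos
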