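import Pool.Agent.H31.GP3
import Pool.Agent.H31.GPDefs2
import Pool.Agent.H38.ER.Big

open Finset

namespace Pool.Agent.H31.GPos

open GP Pool.Agent.H38.NP Pool.Agent.H38.ER

abbrev Z3 := ℤ × ℤ × ℤ

instance decBin : Dec Bin := ⟨fun x => ⟨bval x.val⟩, pt_ofBits (PT.bval PT.id'), fun x => by
  simp [raw, enc, bval_bits]⟩

instance decInt : Dec ℤ :=
  ⟨fun x => cond (dec x : Bool × Bin).1 (-((dec x : Bool × Bin).2.val : ℤ))
      ((dec x : Bool × Bin).2.val : ℤ), by
    have h : PT fun x : Bits => ((dec x : Bool × Bin).2.val : ℤ) :=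
      (pt_diff (PT.snd (Dec.pt (α := Bool × Bin))) (PT.const ⟨0⟩)).of_eq fun a => by simp
    exact PT.cond (PT.fst Dec.pt) (pt_zneg h) h, fun z => by
    have : (dec (raw z) : Bool × Bin) = (decide (z < 0), Bin.mk z.natAbs) := Dec.dec_raw _
    rw [this]
    by_cases h : z < 0 <;> simp only [h, decide_true, decide_false, cond_true, cond_false] <;> omega⟩

def det (s t u : Z3) : ℤ :=
  (t.1 * s.2.2 - s.1 * t.2.2) * (u.2.1 * s.2.2 - s.2.1 * u.2.2) -
    (t.2.1 * s.2.2 - s.2.1 * t.2.2) * (u.1 * s.2.2 - s.1 * u.2.2)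

def lst (S : List Z3) (w : Z3 × Z3) : List Z3 := S.filter fun u => decide (det w.1 w.2 u = 0)

def HH (S : List Z3) (κ : ℕ) : List (Z3 × Z3) :=
  (S.product S).filter fun w =>
    decide (w.1 ≠ w.2) && decide ((lst S w).take 2 = [w.1, w.2]) && decide (κ < (lst S w).length)

def RR (S : List Z3) (κ : ℕ) : List Z3 :=
  S.filter fun u => !(HH S κ).any fun w => decide (det w.1 w.2 u = 0)

def est (S : List Z3) (κ : ℕ) : ℕ := (HH S κ).length + (RR S κ).length

def Gam (S : List Z3) : Bool := decide (2 ≤ S.length) && (List.range (S.length + 1)).any fun κ =>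
  decide (66 * (est S κ * est S κ * (est S κ * est S κ)) ≤ S.length)

def Yes (a : Inst) : Bool := (a.1.product a.1).all fun w =>
  decide (w.1 = w.2) || decide ((Bin.mk (((lst a.1 w).length + 1) / 2)).val ≤ a.2.val)

def K (a : Inst) : Inst :=
  cond (Gam a.1) (cond (Yes a) ([], ⟨0⟩) ([(0, 0, 1)], ⟨0⟩))
    (a.1, cond (decide (a.2.val ≤ (Bin.mk a.1.length).val)) a.2 ⟨a.1.length⟩)

variable {α : Type} [Enc α]

@[fun_prop] theorem pt_det {s t u : α → Z3} (hs : PT s) (ht : PT t) (hu : PT u) :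
    PT fun a => det (s a) (t a) (u a) := by unfold det; fun_prop

@[fun_prop] theorem pt_lst {S : α → List Z3} {w : α → Z3 × Z3} (hS : PT S) (hw : PT w) :
    PT fun a => lst (S a) (w a) := by unfold lst; fun_prop

@[fun_prop] theorem pt_HH {S : α → List Z3} {k : α → ℕ} (hS : PT S) (hk : PT k) :
    PT fun a => HH (S a) (k a) := by unfold HH; fun_prop

@[fun_prop] theorem pt_RR {S : α → List Z3} {k : α → ℕ} (hS : PT S) (hk : PT k) :
    PT fun a => RR (S a) (k a) := by unfold RR; fun_prop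

@[fun_prop] theorem pt_est {S : α → List Z3} {k : α → ℕ} (hS : PT S) (hk : PT k) :
    PT fun a => est (S a) (k a) := by unfold est; fun_prop

theorem pt_K : PT K := by
  have h1 : PT fun a : Inst => Gam a.1 := by unfold Gam; fun_prop
  have h2 : PT Yes := by unfold Yes; fun_prop
  unfold K; fun_prop

theorem det_iff {s t u : Z3} (hs : s.2.2 ≠ 0) (ht : t.2.2 ≠ 0) (hu : u.2.2 ≠ 0) :
    det s t u = 0 ↔ pt u ∈ ln (pt s) (pt t) := by
  have hs : (s.2.2 : ℝ) ≠ 0 := by exact_mod_cast hs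
  have ht : (t.2.2 : ℝ) ≠ 0 := by exact_mod_cast ht
  have hu : (u.2.2 : ℝ) ≠ 0 := by exact_mod_cast hu
  have : D (pt s) (pt t) (pt u) * (s.2.2 ^ 2 * t.2.2 * u.2.2) = (det s t u : ℤ) := by
    simp only [D, pt, det]; push_cast; field_simp
  rw [← Int.cast_eq_zero (α := ℝ), ← this, mul_eq_zero]
  exact or_iff_left (by positivity)

theorem mem_conf {S : List Z3} {p : Pt} : p ∈ conf S ↔ ∃ u ∈ S, pt u = p := by simp [conf]

theorem len_eq {S : List Z3} (h : OK S) (f : Z3 → Bool) (P : Pt → Prop) (e : ∀ u ∈ S, f u = true ↔ P (pt u)) :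
    (S.filter f).length = (sel (conf S) P).card := by
  classical
  rw [← List.length_map (f := pt), ← List.toFinset_card_of_nodup
    (h.2.sublist (List.filter_sublist.map _))]
  congr 1; ext p
  simp only [List.mem_toFinset, List.mem_map, List.mem_filter, mem_sel, mem_conf]
  constructor
  · rintro ⟨u, ⟨a, b⟩, rfl⟩; exact ⟨⟨u, a, rfl⟩, (e u a).1 b⟩
  · rintro ⟨⟨u, a, rfl⟩, b⟩; exact ⟨u, ⟨a, (e u a).2 b⟩, rfl⟩

theorem conf_card {S : List Z3} (h : OK S) : (conf S).card = S.length := by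
  classical
  rw [← List.length_map (f := pt), ← List.toFinset_card_of_nodup h.2]; congr

theorem pt_ne {S : List Z3} (h : OK S) {s t : Z3} (hs : s ∈ S) (ht : t ∈ S) (e : s ≠ t) : pt s ≠ pt t :=
  fun e' => e (List.inj_on_of_nodup_map h.2 hs ht e')

theorem lst_len {S : List Z3} (h : OK S) {s t : Z3} (hs : s ∈ S) (ht : t ∈ S) :
    (lst S (s, t)).length = (sel (conf S) fun p => p ∈ ln (pt s) (pt t)).card :=
  len_eq h _ _ fun u hu => by simpa using det_iff (h.1 s hs) (h.1 t ht) (h.1 u hu)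

theorem mem_HH {S : List Z3} {κ : ℕ} {w : Z3 × Z3} : w ∈ HH S κ ↔ (w.1 ∈ S ∧ w.2 ∈ S) ∧
    (w.1 ≠ w.2 ∧ (lst S w).take 2 = [w.1, w.2]) ∧ κ < (lst S w).length := by
  obtain ⟨a, b⟩ := w
  simp [HH]

theorem lc_est {S : List Z3} (h : OK S) (κ : ℕ) : LC (conf S) ≤ est S κ := by
  have := lc_le (S := conf S) ((HH S κ).map (fun w => ln (pt w.1) (pt w.2)) ++ (RR S κ).map fun u => hz (pt u))
    (fun L hL => by
      rcases List.mem_append.1 hL with hL | hL
      · obtain ⟨w, hw, rfl⟩ := List.mem_map.1 hL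
        obtain ⟨a, b, -⟩ := mem_HH.1 hw
        exact ln_line (pt_ne h a.1 a.2 b.1)
      · obtain ⟨w, -, rfl⟩ := List.mem_map.1 hL; exact hz_line _)
    fun p hp => by
      obtain ⟨u, hu, rfl⟩ := mem_conf.1 hp
      by_cases e : u ∈ RR S κ
      · exact ⟨_, List.mem_append_right _ (List.mem_map_of_mem e), mem_hz _⟩
      · simp only [RR, List.mem_filter, hu, true_and, Bool.not_eq_true', Bool.not_eq_false,
          List.any_eq_true, decide_eq_true_eq] at e
        obtain ⟨w, hw, e⟩ := e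
        obtain ⟨a, -⟩ := mem_HH.1 hw
        exact ⟨_, List.mem_append_left _ (List.mem_map_of_mem hw),
          (det_iff (h.1 _ a.1) (h.1 _ a.2) (h.1 _ hu)).1 e⟩
  simpa [est] using this

theorem est_le {S : List Z3} (h : OK S) :
    est S (LC (conf S)) ≤ LC (conf S) + LC (conf S) * LC (conf S) := by
  classical
  obtain ⟨X, e1, e2, e3, -⟩ := ex_cfg (conf S) _ 0 le_rfl
  rw [← e3]
  have nd : S.Nodup := h.2.of_map _
  have hC : ∀ L ∈ X.C, IsLine L := fun L hL => e1 ▸ X.hC L hL
  refine add_le_add ?_ ?_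
  · rw [← List.toFinset_card_of_nodup (show (HH S X.k).Nodup from (nd.product nd).filter _)]
    refine le_trans (card_le_card_of_injOn (fun w => ln (pt w.1) (pt w.2)) (fun w hw => ?_)
      fun w hw w' hw' e => ?_) X.hk
    · obtain ⟨a, b, c⟩ := mem_HH.1 (List.mem_toFinset.1 hw)
      have hl := ln_line (pt_ne h a.1 a.2 b.1)
      by_contra hn
      rw [lst_len h a.1 a.2, ← e2] at c
      refine absurd (X.by_lines _ 1 fun L hL => card_le_one.2 fun p hp q hq => ?_) (by simpa using c)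
      by_contra n
      have hp := (mem_sel.1 hp).2
      have hq := (mem_sel.1 hq).2
      rw [(line_eq (hC L hL) n hp.1 hq.1).trans (line_eq hl n hp.2 hq.2).symm] at hL
      exact hn hL
    · obtain ⟨a, b, -⟩ := mem_HH.1 (List.mem_toFinset.1 hw)
      obtain ⟨a', b', -⟩ := mem_HH.1 (List.mem_toFinset.1 hw')
      have : lst S w = lst S w' := List.filter_congr fun u hu => by
        simp only at e
        rw [decide_eq_decide, det_iff (h.1 _ a.1) (h.1 _ a.2) (h.1 _ hu),
          det_iff (h.1 _ a'.1) (h.1 _ a'.2) (h.1 _ hu), e]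
      have := b.2.symm.trans (this ▸ b'.2)
      simp only [List.cons.injEq, and_true] at this
      exact Prod.ext this.1 this.2
  · rw [RR, len_eq h _ (fun p => ∀ w ∈ HH S X.k, p ∉ ln (pt w.1) (pt w.2)) fun u hu => ?_, ← e2]
    · refine X.by_lines _ _ fun L hL => ?_
      by_contra hn
      push Not at hn
      have k1 : 1 ≤ X.k := (card_pos.2 ⟨L, hL⟩).trans_le X.hk
      obtain ⟨p, hp⟩ := card_pos.1 ((Nat.zero_le _).trans_lt hn)
      have l1 : X.k < (S.filter fun u => decide (pt u ∈ L)).length := by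
        rw [len_eq h _ (fun p => p ∈ L) fun u _ => by simp, ← e2]
        exact hn.trans_le (card_le_card fun q hq => mem_sel.2 ⟨(mem_sel.1 hq).1, (mem_sel.1 hq).2.1⟩)
      have nd' := nd.filter fun u => decide (pt u ∈ L)
      have sub : ∀ u ∈ S.filter fun u => decide (pt u ∈ L), u ∈ S ∧ pt u ∈ L := fun u hu => by simpa using hu
      match e : S.filter fun u => decide (pt u ∈ L) with
      | [] => simp [e] at l1
      | [a] => simp [e] at l1; omega
      | a :: b :: r =>
        have ha := sub a (by simp [e])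
        have hb := sub b (by simp [e])
        have ab : a ≠ b := by rw [e] at nd'; simp at nd'; exact nd'.1.1
        have eL := line_eq (hC L hL) (pt_ne h ha.1 hb.1 ab) ha.2 hb.2
        have : lst S (a, b) = S.filter fun u => decide (pt u ∈ L) := List.filter_congr fun u hu => by
          rw [decide_eq_decide, det_iff (h.1 _ ha.1) (h.1 _ hb.1) (h.1 _ hu), eL]
        exact (mem_sel.1 hp).2.2 (a, b) (mem_HH.2 ⟨⟨ha.1, hb.1⟩, ⟨ab, by rw [this, e]; rfl⟩, this ▸ l1⟩)
          (eL ▸ (mem_sel.1 hp).2.1)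
    · simp only [Bool.not_eq_true', List.any_eq_false, decide_eq_true_eq]
      exact forall₂_congr fun w hw => by
        rw [det_iff (h.1 _ (mem_HH.1 hw).1.1) (h.1 _ (mem_HH.1 hw).1.2) (h.1 _ hu)]

theorem yes_iff {a : Inst} (h : OK a.1) (h2 : 2 ≤ a.1.length) :
    Yes a = true ↔ (ONLINE (conf a.1) + 1) / 2 ≤ a.2.val := by
  simp only [Yes, List.all_eq_true, Bool.or_eq_true, decide_eq_true_eq]
  constructor
  · intro H
    have H' : ∀ p ∈ conf a.1, ∀ q ∈ conf a.1, p ≠ q →
        ((sel (conf a.1) fun r => r ∈ ln p q).card + 1) / 2 ≤ a.2.val := fun p hp q hq n => by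
      obtain ⟨s, hs, rfl⟩ := mem_conf.1 hp
      obtain ⟨t, ht, rfl⟩ := mem_conf.1 hq
      rw [← lst_len h hs ht]
      exact (H (s, t) (List.pair_mem_product.2 ⟨hs, ht⟩)).resolve_left fun e => n (congrArg pt e)
    obtain ⟨L, hL, e⟩ := on_ex (conf a.1)
    by_cases c : 1 < ONLINE (conf a.1)
    · rw [← e] at c ⊢
      obtain ⟨p, hp, q, hq, n⟩ := one_lt_card.1 c
      rw [mem_sel] at hp hq
      rw [line_eq hL n hp.2 hq.2]
      exact H' p hp.1 q hq.1 n
    · obtain ⟨p, hp, q, hq, n⟩ := one_lt_card.1 (show 1 < (conf a.1).card by rw [conf_card h]; omega)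
      have := H' p hp q hq n
      have : 0 < (sel (conf a.1) fun r => r ∈ ln p q).card :=
        card_pos.2 ⟨p, mem_sel.2 ⟨hp, by simp [ln, D]⟩⟩
      omega
  · rintro H ⟨s, t⟩ hw
    obtain ⟨hs, ht⟩ := List.pair_mem_product.1 hw
    by_cases e : s = t
    · exact Or.inl e
    · have := le_on (conf a.1) (ln_line (pt_ne h hs ht e))
      rw [← lst_len h hs ht] at this
      right; omega

theorem kernel (a : Inst) (h : OK a.1) : OK (K a).1 ∧
    (GP (conf a.1) ≤ a.2.val ↔ GP (conf (K a).1) ≤ (K a).2.val) ∧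
    (K a).1.length ≤ 66 * (LC (conf a.1) + LC (conf a.1) ^ 2) ^ 4 + 1 ∧
    (K a).2.val ≤ 66 * (LC (conf a.1) + LC (conf a.1) ^ 2) ^ 4 + 1 := by
  unfold K
  cases e : Gam a.1 with
  | true =>
    simp only [Gam, Bool.and_eq_true, decide_eq_true_eq, List.any_eq_true] at e
    obtain ⟨e1, κ, -, e2⟩ := e
    rw [gp_eq _ _ (lc_est h κ) (by rw [conf_card h]; linarith), ← yes_iff h e1]
    cases Yes a with
    | true =>
      have : GP (conf []) = 0 := Nat.le_zero.1 (gp_le _)
      simp [OK, this]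
    | false =>
      have : 0 < GP (conf [(0, 0, 1)]) := gp_pos ⟨_, mem_conf.2 ⟨(0, 0, 1), by simp, rfl⟩⟩
      simp [OK, this.ne']
  | false =>
    have n : a.1.length ≤ 66 * (LC (conf a.1) + LC (conf a.1) ^ 2) ^ 4 + 1 := by
      simp only [Gam, Bool.and_eq_false_iff, decide_eq_false_iff_not, List.any_eq_false,
        decide_eq_true_eq] at e
      rcases e with e | e
      · omega
      · have := e (LC (conf a.1)) (List.mem_range.2 (Nat.lt_succ_of_le (conf_card h ▸ lc_card _)))
        have b := Nat.pow_le_pow_left (est_le h) 4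
        rw [← sq] at b
        rw [show ∀ x : ℕ, x * x * (x * x) = x ^ 4 from fun x => by ring] at this
        omega
    have g := gp_le (conf a.1)
    rw [conf_card h] at g
    by_cases c : a.2.val ≤ a.1.length
    · simp only [cond_false, c, decide_true, cond_true]
      exact ⟨h, trivial, n, c.trans n⟩
    · simp only [cond_false, c, decide_false]
      exact ⟨h, by omega, n, n⟩

end Pool.Agent.H31.GPos
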