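import Mathlib

set_option autoImplicit false
open Finset Function

namespace Pool.Agent.H31.Konig

variable {L R : Type} [Fintype L] [Fintype R]

/-- A `k`-regular bipartite multigraph is a union of `k` perfect matchings. -/
theorem konig (k : ℕ) (μ : L → R → ℕ) (h1 : ∀ x, ∑ y, μ x y = k) (h2 : ∀ y, ∑ x, μ x y = k) :
    ∃ σ : Fin k → L → R, (∀ i, Bijective (σ i)) ∧ (∀ i x, 0 < μ x (σ i x)) ∧
      ∀ x y, 0 < μ x y → ∃ i, σ i x = y := by
  classical
  induction k generalizing μ with
  | zero =>
    refine ⟨Fin.elim0, fun i => i.elim0, fun i => i.elim0, fun x y h => ?_⟩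
    have := single_le_sum (f := μ x) (fun _ _ => Nat.zero_le _) (mem_univ y)
    rw [h1] at this; omega
  | succ k ih =>
    obtain ⟨f, f1, f2⟩ := (all_card_le_biUnion_card_iff_exists_injective
      fun x => univ.filter fun y => 0 < μ x y).mp fun s => by
      refine Nat.le_of_mul_le_mul_right ?_ (Nat.succ_pos k)
      calc #s * (k + 1) = ∑ x ∈ s, ∑ y ∈ s.biUnion fun x => univ.filter fun y => 0 < μ x y, μ x y := by
            rw [sum_const_nat fun x hx => ?_]
            rw [← h1 x]
            refine sum_subset (subset_univ _) fun y _ hy => by_contra fun c => hy ?_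
            exact mem_biUnion.mpr ⟨x, hx, by simpa using Nat.pos_of_ne_zero c⟩
        _ ≤ _ := by
            rw [sum_comm, ← smul_eq_mul]
            exact sum_le_card_nsmul _ _ _ fun y _ => (sum_le_sum_of_subset (subset_univ _)).trans (h2 y).le
    have f2 : ∀ x, 0 < μ x (f x) := fun x => by simpa using f2 x
    have cd : Fintype.card L = Fintype.card R := by
      have := sum_comm (s := univ) (t := univ) (f := μ)
      simpa [h1, h2] using this
    have fb := (Fintype.bijective_iff_injective_and_card f).mpr ⟨f1, cd⟩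
    have le : ∀ x y, (if f x = y then 1 else 0) ≤ μ x y := fun x y => by
      split_ifs with c
      · exact c ▸ f2 x
      · omega
    obtain ⟨σ, s1, s2, s3⟩ := ih (fun x y => μ x y - if f x = y then 1 else 0)
      (fun x => by rw [sum_tsub_distrib _ fun y _ => le x y, h1]; simp)
      (fun y => by
        obtain ⟨x, rfl⟩ := fb.2 y
        rw [sum_tsub_distrib _ fun x' _ => le x' _, h2]; simp [f1.eq_iff])
    refine ⟨Fin.cons f σ, Fin.cases fb s1, Fin.cases f2 fun i x => (s2 i x).trans_le (Nat.sub_le _ _),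
      fun x y h => ?_⟩
    by_cases c : f x = y
    · exact ⟨0, c⟩
    · obtain ⟨i, hi⟩ := s3 x y (by simpa [c] using h)
      exact ⟨i.succ, hi⟩

/-- Existence of a perfect `b`-matching under the Hall condition. -/
theorem bmatch (W : L → R → Prop) (p : L → ℕ) (q : R → ℕ)
    (h : ∀ (X : Finset L) (N : Finset R), (∀ y, y ∈ N ↔ ∃ x ∈ X, W x y) → ∑ x ∈ X, p x ≤ ∑ y ∈ N, q y)
    (e : ∑ x, p x = ∑ y, q y) : ∃ ν : L → R → ℕ, (∀ x y, 0 < ν x y → W x y) ∧
      (∀ x, ∑ y, ν x y = p x) ∧ ∀ y, ∑ x, ν x y = q y := by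
  classical
  obtain ⟨f, f1, f2⟩ := (all_card_le_biUnion_card_iff_exists_injective
    fun x : Σ x, Fin (p x) => univ.filter fun y : Σ y, Fin (q y) => W x.1 y.1).mp fun s => by
    calc #s ≤ #((s.image (·.1)).sigma fun _ => univ) :=
          card_le_card fun z hz => mem_sigma.mpr ⟨mem_image_of_mem _ hz, mem_univ _⟩
      _ ≤ #((univ.filter fun y => ∃ x ∈ s.image (·.1), W x y).sigma fun y => (univ : Finset (Fin (q y)))) := by
          simpa only [card_sigma, card_univ, Fintype.card_fin] using h _ _ (by simp)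
      _ ≤ _ := card_le_card fun z hz => by simpa using hz
  have fb := (Fintype.bijective_iff_injective_and_card f).mpr ⟨f1, by simpa using e⟩
  refine ⟨fun x y => #(univ.filter fun i => (f ⟨x, i⟩).1 = y), fun x y h => ?_, fun x => ?_, fun y => ?_⟩
  · obtain ⟨i, hi⟩ := card_pos.mp h
    rw [← (mem_filter.mp hi).2]; simpa using f2 ⟨x, i⟩
  · exact (card_eq_sum_card_fiberwise fun _ _ => mem_univ _).symm.trans (by simp)
  · beta_reduce
    rw [← card_sigma, ← Fintype.card_fin (q y), ← card_univ]
    refine (card_bij (fun i _ => surjInv fb.2 ⟨y, i⟩) (fun i _ => by simp [surjInv_eq]) (fun i _ j _ e => ?_)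
      fun z hz => ?_).symm
    · simpa using injective_surjInv fb.2 e
    · have : (f z).1 = y := by simpa using hz
      subst this
      exact ⟨(f z).2, mem_univ _, f1 (surjInv_eq _ _)⟩

end Pool.Agent.H31.Konig
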