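import Mathlib

open Finset Polynomial

namespace Pool.Agent.H31.Kraw

noncomputable def g (a b : ℕ) : ℝ[X] := (1 - X) ^ a * (1 + X) ^ b

/-- `K m a b = K_m(a; a+b)` -/
noncomputable def K (m a b : ℕ) : ℝ := (g a b).coeff m

theorem cs (a : ℕ) : ∀ j, ((1 - X : ℝ[X]) ^ a).coeff j = (-1) ^ j * (a.choose j : ℝ) := by
  induction a with
  | zero => intro j; cases j <;> simp [coeff_one]
  | succ a ih =>
    intro j
    rw [pow_succ, mul_sub, mul_one, coeff_sub]
    cases j with
    | zero => simp [ih]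
    | succ j => rw [coeff_mul_X, ih, ih, Nat.choose_succ_succ]; push_cast; ring

theorem K_eq (m a b : ℕ) :
    K m a b = ∑ j ∈ range (m + 1), (-1) ^ j * (a.choose j : ℝ) * (b.choose (m - j) : ℝ) := by
  rw [K, g, coeff_mul, Finset.Nat.sum_antidiagonal_eq_sum_range_succ_mk]
  simp only [cs, coeff_one_add_X_pow]

theorem K_diff (m a b : ℕ) : K (m + 1) (a + 1) b - K (m + 1) a (b + 1) = -2 * K m a b := by
  have : g (a + 1) b - g a (b + 1) = C (-2) * (g a b * X) := by
    simp only [g, map_neg, show (C 2 : ℝ[X]) = 2 from rfl]; ring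
  rw [K, K, ← Polynomial.coeff_sub, this, coeff_C_mul, coeff_mul_X, K]

theorem K_rec (m a b : ℕ) : (b + 1) * K m (a + 2) b + (a + 1) * K m a (b + 2) =
    (a + b + 2 - 2 * m) * K m (a + 1) (b + 1) := by
  have : C (b + 1 : ℝ) * g (a + 2) b + C (a + 1 : ℝ) * g a (b + 2) =
      C (a + b + 2 : ℝ) * g (a + 1) (b + 1) - C 2 * (derivative (g (a + 1) (b + 1)) * X) := by
    simp only [g, derivative_mul, derivative_pow, derivative_sub, derivative_one,
      derivative_X, map_add, map_natCast, map_one, show (C 2 : ℝ[X]) = 2 from rfl, Nat.add_sub_cancel]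
    push_cast; ring
  have h := congrArg (fun p => coeff p m) this
  simp only [coeff_add, Polynomial.coeff_sub, coeff_C_mul] at h
  have e : coeff (derivative (g (a + 1) (b + 1)) * X) m = m * K m (a + 1) (b + 1) := by
    cases m with
    | zero => simp
    | succ m => rw [coeff_mul_X, coeff_derivative, K]; push_cast; ring
  rw [e] at h
  simp only [K] at h ⊢
  linarith

theorem K_symm (k a b : ℕ) : K (2 * k) a b = K (2 * k) b a := by
  rw [K_eq, K_eq, ← sum_range_reflect]
  refine sum_congr rfl fun j hj => ?_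
  have hj := mem_range.1 hj
  have e1 : 2 * k + 1 - 1 - j = 2 * k - j := by omega
  have e2 : 2 * k - (2 * k - j) = j := by omega
  have e3 : (-1 : ℝ) ^ (2 * k - j) = (-1) ^ j := by
    rw [neg_one_pow_eq_pow_mod_two, neg_one_pow_eq_pow_mod_two (n := j)]; congr 1; omega
  rw [e1, e2, e3]; ring

theorem orth0 (d N i : ℕ) (hi : i < d) (hN : d ≤ N) :
    ∑ x ∈ range (N + 1), (N.choose x : ℝ) * (x.choose i : ℝ) * K d x (N - x) = 0 := by
  obtain ⟨M, rfl⟩ : ∃ M, N = i + M := ⟨N - i, by omega⟩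
  have : ∑ x ∈ range (i + M + 1), C (((i + M).choose x : ℝ) * (x.choose i : ℝ)) * g x (i + M - x) =
      C (((i + M).choose i : ℝ) * 2 ^ M) * (1 - X) ^ i := by
    rw [show i + M + 1 = i + (M + 1) by ring, sum_range_add, sum_eq_zero, zero_add]
    · have e : (2 : ℝ[X]) ^ M = ((1 - X) + (1 + X)) ^ M := by congr 1; ring
      rw [map_mul, map_pow, show (C 2 : ℝ[X]) = 2 from rfl, e, add_pow, mul_sum, sum_mul]
      refine sum_congr rfl fun y hy => ?_
      have h := Nat.choose_mul (n := i + M) (k := i + y) (s := i) (by omega)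
      rw [Nat.add_sub_cancel_left, Nat.add_sub_cancel_left] at h
      rw [← Nat.cast_mul, h, g, show i + M - (i + y) = M - y by omega]
      simp only [Nat.cast_mul, map_mul, map_natCast]
      ring
    · intro x hx
      simp [Nat.choose_eq_zero_of_lt (mem_range.1 hx)]
  have h := congrArg (fun p => coeff p d) this
  simp only [finsetSum_coeff, coeff_C_mul, cs, Nat.choose_eq_zero_of_lt hi] at h
  simpa [K] using h

theorem orth (d N : ℕ) (hN : d ≤ N) : ∀ (n : ℕ) (q : ℝ[X]), q.natDegree = n → n < d →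
    ∑ x ∈ range (N + 1), (N.choose x : ℝ) * q.eval (x : ℝ) * K d x (N - x) = 0 := by
  intro n
  induction n using Nat.strong_induction_on with
  | _ n ih =>
    intro q hq hn
    have base : ∑ x ∈ range (N + 1), (N.choose x : ℝ) *
        (C q.leadingCoeff * descPochhammer ℝ n).eval (x : ℝ) * K d x (N - x) = 0 := by
      have := orth0 d N n hn hN
      rw [← mul_zero (q.leadingCoeff * n.factorial), ← this, mul_sum]
      refine sum_congr rfl fun x _ => ?_
      rw [eval_mul, eval_C, descPochhammer_eval_eq_descFactorial,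
        Nat.descFactorial_eq_factorial_mul_choose]
      push_cast; ring
    by_cases h0 : q - C q.leadingCoeff * descPochhammer ℝ n = 0
    · rw [sub_eq_zero] at h0; rw [h0]; exact base
    have q0 : q ≠ 0 := by rintro rfl; simp at h0
    have l0 : q.leadingCoeff ≠ 0 := leadingCoeff_ne_zero.2 q0
    have hlt : (q - C q.leadingCoeff * descPochhammer ℝ n).degree < q.degree := by
      refine degree_sub_lt_left ?_ q0 ?_
      · rw [degree_C_mul l0, degree_eq_natDegree q0,
          degree_eq_natDegree (monic_descPochhammer ℝ n).ne_zero, descPochhammer_natDegree, hq]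
      · simp [(monic_descPochhammer ℝ n).leadingCoeff]
    have hl := natDegree_lt_natDegree h0 hlt
    have := ih _ (hq ▸ hl) _ rfl (by omega)
    rw [← add_zero 0, ← this]
    conv_rhs => rw [this, add_zero, ← add_zero (0 : ℝ)]
    nth_rewrite 1 [← this]
    rw [← base, ← sum_add_distrib]
    refine sum_congr rfl fun x _ => ?_
    rw [eval_sub]; ring

/-- the Krawtchouk polynomial -/
noncomputable def P (d N : ℕ) : ℝ[X] := ∑ j ∈ range (d + 1),
  C ((-1) ^ j / (j.factorial * (d - j).factorial : ℝ)) * descPochhammer ℝ j *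
    (descPochhammer ℝ (d - j)).comp (C (N : ℝ) - X)

theorem P_deg (d N : ℕ) : (P d N).natDegree ≤ d := by
  refine natDegree_sum_le_of_forall_le _ _ fun j hj => ?_
  have hj := mem_range.1 hj
  have a : (C ((-1) ^ j / (j.factorial * (d - j).factorial : ℝ)) * descPochhammer ℝ j).natDegree ≤ j :=
    (natDegree_C_mul_le _ _).trans (descPochhammer_natDegree ℝ j).le
  have b : ((descPochhammer ℝ (d - j)).comp (C (N : ℝ) - X)).natDegree ≤ d - j := by
    refine natDegree_comp_le.trans ?_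
    have : (C (N : ℝ) - X).natDegree ≤ 1 := by compute_degree
    rw [descPochhammer_natDegree]
    simpa using Nat.mul_le_mul_left (d - j) this
  exact natDegree_mul_le.trans (by omega)

theorem P_eval (d N x : ℕ) (hx : x ≤ N) : (P d N).eval (x : ℝ) = K d x (N - x) := by
  rw [P, K_eq, eval_finsetSum]
  refine sum_congr rfl fun j _ => ?_
  rw [eval_mul, eval_mul, eval_C, eval_comp, eval_sub, eval_C, eval_X, ← Nat.cast_sub hx,
    descPochhammer_eval_eq_descFactorial, descPochhammer_eval_eq_descFactorial,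
    Nat.descFactorial_eq_factorial_mul_choose, Nat.descFactorial_eq_factorial_mul_choose]
  push_cast
  field_simp

theorem K_top (d N : ℕ) : K d N 0 = (-1) ^ d * (N.choose d : ℝ) := by simp [K, g, cs]

/-- a polynomial of degree `< d` cannot have the sign of `P` on all of `0..N` -/
theorem no_sign (d N : ℕ) (hN : d ≤ N) (q : ℝ[X]) (hq : q.natDegree < d)
    (h : ∀ x : ℕ, x ≤ N → 0 ≤ q.eval (x : ℝ) * (P d N).eval (x : ℝ))
    (h2 : q.eval (N : ℝ) ≠ 0) : False := by
  have o := orth d N hN _ q rfl hq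
  rw [sum_eq_zero_iff_of_nonneg] at o
  · have := o N (self_mem_range_succ N)
    rw [Nat.sub_self, K_top] at this
    have c : (N.choose d : ℝ) ≠ 0 := by exact_mod_cast (Nat.choose_pos hN).ne'
    simp [h2, c] at this
  · intro x hx
    have hx := Nat.lt_succ_iff.1 (mem_range.1 hx)
    rw [mul_assoc, ← P_eval d N x hx]
    exact mul_nonneg (by positivity) (h x hx)

theorem roots (d N : ℕ) (hd : Odd d) (hN : d ≤ N) : ∃ ξ : ℝ,
    IsGreatest {x | (P d N).eval x = 0} ξ ∧ 0 < ξ ∧ ξ < N ∧ (∀ x, ξ < x → (P d N).eval x < 0) ∧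
      0 < (P d N).eval ((⌈ξ⌉₊ : ℝ) - 1) := by
  have d0 : 0 < d := hd.pos
  have top : (P d N).eval (N : ℝ) < 0 := by
    rw [P_eval d N N le_rfl, Nat.sub_self, K_top, hd.neg_one_pow]
    have c : (0 : ℝ) < N.choose d := by exact_mod_cast Nat.choose_pos hN
    linarith
  have P0 : P d N ≠ 0 := by rintro h; rw [h] at top; simp at top
  have cont : ∀ p : ℝ[X], Continuous fun x => p.eval x := fun p => p.continuous
  have ex : ∃ x, (P d N).eval x = 0 := by
    by_contra hn
    push Not at hn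
    refine no_sign d N hN (C (-1)) (by simpa using d0) (fun x hx => ?_) (by simp)
    by_contra h
    simp only [eval_C, neg_mul, one_mul, Left.nonneg_neg_iff, not_le] at h
    obtain ⟨y, hy⟩ := intermediate_value_univ (N : ℝ) x (cont (P d N)) ⟨top.le, h.le⟩
    exact hn y hy
  have fin : {x | (P d N).eval x = 0}.Finite := (P d N).rootSet_finite ℝ |>.subset fun x hx => by
    simpa [mem_rootSet, P0] using hx
  obtain ⟨ξ, hξ, hmax⟩ := Set.exists_max_image _ id fin ex
  obtain ⟨Q, hQ⟩ : ∃ Q, P d N = (X - C ξ) * Q := ⟨_, (mul_divByMonic_eq_iff_isRoot.2 hξ).symm⟩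
  have Q0 : Q ≠ 0 := by rintro rfl; simp [P0] at hQ
  have dQ : Q.natDegree + 1 ≤ d := by
    have := P_deg d N
    rw [hQ, natDegree_mul (X_sub_C_ne_zero ξ) Q0, natDegree_X_sub_C] at this
    omega
  have ev : ∀ x, (P d N).eval x = (x - ξ) * Q.eval x := by intro x; rw [hQ]; simp
  have QN : Q.eval (N : ℝ) ≠ 0 := by intro h; rw [ev, h] at top; simp at top
  have pos : 0 < ξ := by
    by_contra hn
    refine no_sign d N hN Q (by omega) (fun x hx => ?_) QN
    rw [ev]
    have : (0 : ℝ) ≤ x := by positivity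
    nlinarith [mul_nonneg (show 0 ≤ (x : ℝ) - ξ by linarith) (mul_self_nonneg (Q.eval (x : ℝ)))]
  have lt : ξ < N := by
    by_contra hn
    refine no_sign d N hN (-Q) (by rw [natDegree_neg]; omega) (fun x hx => ?_) (by simpa using QN)
    rw [ev, eval_neg]
    have : (x : ℝ) ≤ N := by exact_mod_cast hx
    nlinarith [mul_nonneg (show 0 ≤ ξ - (x : ℝ) by linarith) (mul_self_nonneg (Q.eval (x : ℝ)))]
  have neg : ∀ x, ξ < x → (P d N).eval x < 0 := by
    intro x hx
    by_contra hn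
    obtain ⟨y, hy, e⟩ := intermediate_value_uIcc (a := (N : ℝ)) (b := x) (cont (P d N)).continuousOn
      (show (0 : ℝ) ∈ Set.uIcc _ _ from Set.mem_uIcc.2 (Or.inl ⟨top.le, not_lt.1 hn⟩))
    have := hmax y e
    rcases Set.mem_uIcc.1 hy with h | h <;> simp only [id] at this <;> linarith [h.1]
  refine ⟨ξ, ⟨hξ, hmax⟩, pos, lt, neg, ?_⟩
  by_contra hn
  have c1 : (⌈ξ⌉₊ : ℝ) - 1 < ξ := by linarith [Nat.ceil_lt_add_one pos.le]
  have c2 : ξ ≤ ⌈ξ⌉₊ := Nat.le_ceil ξ
  have q1 : 0 ≤ Q.eval ((⌈ξ⌉₊ : ℝ) - 1) := by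
    rw [ev] at hn
    by_contra h
    exact hn (mul_pos_of_neg_of_neg (by linarith) (not_le.1 h))
  have q2 : Q.eval ξ ≤ 0 := by
    refine le_of_tendsto (f := fun x => Q.eval x) (x := nhdsWithin ξ (Set.Ioi ξ))
      ((cont Q).tendsto ξ |>.mono_left nhdsWithin_le_nhds) ?_
    filter_upwards [self_mem_nhdsWithin] with x hx
    have h1 := neg x hx
    rw [ev] at h1
    by_contra h
    have := mul_pos (sub_pos.2 (Set.mem_Ioi.1 hx)) (not_le.1 h)
    linarith
  obtain ⟨η, hη, e⟩ := intermediate_value_Icc' c1.le (cont Q).continuousOn ⟨q2, q1⟩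
  obtain ⟨S, hS⟩ : ∃ S, Q = (X - C η) * S := ⟨_, (mul_divByMonic_eq_iff_isRoot.2 e).symm⟩
  have S0 : S ≠ 0 := by rintro rfl; simp [Q0] at hS
  have dS : S.natDegree < d := by
    rw [hS, natDegree_mul (X_sub_C_ne_zero η) S0] at dQ
    omega
  have ev2 : ∀ x, Q.eval x = (x - η) * S.eval x := by intro x; rw [hS]; simp
  refine no_sign d N hN S dS (fun x hx => ?_) (fun h => QN (by rw [ev2, h, mul_zero]))
  rw [ev, ev2]
  have : 0 ≤ ((x : ℝ) - ξ) * (x - η) := by
    rcases le_or_gt ⌈ξ⌉₊ x with h | h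
    · have : (⌈ξ⌉₊ : ℝ) ≤ x := by exact_mod_cast h
      exact mul_nonneg (by linarith) (by linarith [hη.2])
    · have : (x : ℝ) + 1 ≤ ⌈ξ⌉₊ := by exact_mod_cast h
      exact mul_nonneg_of_nonpos_of_nonpos (by linarith) (by linarith [hη.1])
  nlinarith [mul_nonneg this (mul_self_nonneg (S.eval (x : ℝ)))]

theorem harm (j : ℕ) : ∑ i ∈ range j, (1 / (i + 1) : ℝ) ≤ 2 * √j := by
  induction j with
  | zero => simp
  | succ j ih =>
    rw [sum_range_succ]
    push_cast
    have h1 : √(j : ℝ) ≤ √(j + 1) := Real.sqrt_le_sqrt (by linarith)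
    have h2 : √(j : ℝ) ^ 2 = j := Real.sq_sqrt (by positivity)
    have h3 : √((j : ℝ) + 1) ^ 2 = j + 1 := Real.sq_sqrt (by positivity)
    have h4 : 1 ≤ √((j : ℝ) + 1) := Real.one_le_sqrt.2 (by have : (0 : ℝ) ≤ j := by positivity
                                                           linarith)
    have h5 : 0 ≤ √(j : ℝ) := Real.sqrt_nonneg _
    have : (1 / (j + 1) : ℝ) ≤ 2 * √((j : ℝ) + 1) - 2 * √(j : ℝ) := by
      rw [div_le_iff₀ (by positivity)]
      set s := √((j : ℝ) + 1)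
      set r := √(j : ℝ)
      rw [← h3]
      have e : (s - r) * (s + r) = 1 := by nlinarith
      have : s + r ≤ 2 * s ^ 2 := by nlinarith
      nlinarith [mul_le_mul_of_nonneg_left this (sub_nonneg.2 h1)]
    linarith

theorem energy (n m : ℕ) (u : ℕ → ℝ) (hm : 1 ≤ m) (hn : 16 * m ^ 4 < n)
    (hr : ∀ t, t + 2 ≤ n →
      (n - (t + 1)) * (u (t + 2) - u (t + 1)) - (t + 1) * (u (t + 1) - u t) = -2 * m * u (t + 1))
    (a c : ℕ) (ha : n ≤ 2 * a) (hac : a ≤ c) (hc : c + 2 ≤ n) (h1 : u (c + 1) < u c)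
    (h2 : u (c + 1) ≤ u (c + 2)) (h3 : u a ≤ u (c + 1)) : False := by
  have m1 : (1 : ℝ) ≤ m := by exact_mod_cast hm
  have n1 : 16 * (m : ℝ) ^ 4 < n := by exact_mod_cast hn
  have m4 : (m : ℝ) ≤ m ^ 4 := le_self_pow₀ m1 (by norm_num)
  have n0 : (0 : ℝ) < n := by linarith
  have ha' : (n : ℝ) ≤ 2 * a := by exact_mod_cast ha
  let S : ℕ → ℝ := fun t => 2 * m * u t * u (t + 1) + n / 2 * (u (t + 1) - u t) ^ 2
  have st : ∀ t, t + 2 ≤ n → S (t + 1) = S t + (t + 1 - n / 2) * (u (t + 2) - u t) ^ 2 := by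
    intro t ht
    have := hr t ht
    simp only [S]
    linear_combination (u (t + 2) - u t) * this
  have mono : ∀ t, a ≤ t → ∀ j, t + j + 1 ≤ n → S t ≤ S (t + j) := by
    intro t ht j
    induction j with
    | zero => simp
    | succ j ih =>
      intro hj
      have := st (t + j) (by omega)
      have e : (a : ℝ) ≤ ((t + j : ℕ) : ℝ) := by exact_mod_cast (show a ≤ t + j by omega)
      have := mul_nonneg (show (0 : ℝ) ≤ ((t + j : ℕ) : ℝ) + 1 - n / 2 by linarith)
        (sq_nonneg (u (t + j + 2) - u (t + j)))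
      have := ih (by omega)
      rw [← add_assoc]
      linarith
  have hc' : (c : ℝ) + 2 ≤ n := by exact_mod_cast hc
  have hac' : (a : ℝ) ≤ c := by exact_mod_cast hac
  have r1 := hr c hc
  have p1 := mul_nonneg (show (0 : ℝ) ≤ n - (c + 1) by linarith) (sub_nonneg.2 h2)
  have p2 := mul_pos (show (0 : ℝ) < c + 1 by positivity) (sub_pos.2 h1)
  have uc : u (c + 1) < 0 := by nlinarith
  have up : S c ≤ 2 * m * u a ^ 2 := by
    have b1 : n / 2 * (u c - u (c + 1)) ≤ -2 * m * u (c + 1) := by nlinarith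
    have b2 := mul_le_mul_of_nonneg_left b1 (sub_nonneg.2 h1.le)
    have b3 : u (c + 1) ^ 2 ≤ u a ^ 2 := by nlinarith
    have b4 := mul_le_mul_of_nonneg_left b3 (show (0 : ℝ) ≤ 2 * m by linarith)
    simp only [S]
    nlinarith
  have lo : 2 * m * u a ^ 2 - 2 * m ^ 2 / n * u a ^ 2 ≤ S a := by
    have : S a - (2 * m * u a ^ 2 - 2 * m ^ 2 / n * u a ^ 2) =
        n / 2 * (u (a + 1) - u a + 2 * m / n * u a) ^ 2 := by
      simp only [S]; field_simp; ring
    have := mul_nonneg (show (0 : ℝ) ≤ n / 2 by positivity) (sq_nonneg (u (a + 1) - u a + 2 * m / n * u a))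
    linarith
  obtain ⟨y, hy, hmax⟩ := exists_max_image (Icc a (c + 1)) u ⟨a, mem_Icc.2 ⟨le_rfl, by omega⟩⟩
  have yc := hmax c (mem_Icc.2 ⟨hac, by omega⟩)
  rw [mem_Icc] at hy
  have y1 : y ≠ a := by rintro rfl; linarith
  have y2 : y ≠ c + 1 := by rintro rfl; linarith
  obtain ⟨w, rfl⟩ : ∃ w, y = w + 1 := ⟨y - 1, by omega⟩
  have w1 := hmax w (mem_Icc.2 ⟨by omega, by omega⟩)
  have w2 := hmax (w + 2) (mem_Icc.2 ⟨by omega, by omega⟩)
  have r2 := hr w (by omega)
  have hw : (w : ℝ) + 2 ≤ n := by exact_mod_cast (show w + 2 ≤ n by omega)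
  have hw' : (a : ℝ) ≤ w := by exact_mod_cast (show a ≤ w by omega)
  have p3 := mul_nonneg (show (0 : ℝ) ≤ n - (w + 1) by linarith) (sub_nonneg.2 w2)
  have p4 := mul_nonneg (show (0 : ℝ) ≤ w + 1 by positivity) (sub_nonneg.2 w1)
  have u1 : 0 ≤ u (w + 1) := by nlinarith
  have u0 : 0 ≤ u w := by
    have b1 : (w + 1) * (u (w + 1) - u w) ≤ 2 * m * u (w + 1) := by nlinarith
    have b2 : 2 * m * u (w + 1) ≤ (w + 1) * u (w + 1) :=
      mul_le_mul_of_nonneg_right (by linarith) u1
    by_contra h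
    have := mul_pos (show (0 : ℝ) < w + 1 by positivity) (neg_pos.2 (not_le.1 h))
    linarith
  obtain ⟨j, hj, hu⟩ : ∃ j, a + 2 * j ≤ c ∧ 0 ≤ u (a + 2 * j) := by
    rcases Nat.even_or_odd' (w + 1 - a) with ⟨j, h | h⟩
    · exact ⟨j, by omega, by rw [show a + 2 * j = w + 1 by omega]; exact u1⟩
    · exact ⟨j, by omega, by rw [show a + 2 * j = w by omega]; exact u0⟩
  set l := 2 * m ^ 2 / n * (-u a) with hl
  have key : ∀ i, a + 2 * i ≤ c → S a + 2 * l * (u (a + 2 * i) - u a) -
      l ^ 2 * ∑ k ∈ range i, (1 / (k + 1) : ℝ) ≤ S (a + 2 * i) := by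
    intro i
    induction i with
    | zero => simp
    | succ i ih =>
      intro hi
      have e1 := ih (by omega)
      have e2 := st (a + 2 * i) (by omega)
      have e3 := mono (a + 2 * i + 1) (by omega) 1 (by omega)
      rw [sum_range_succ, show a + 2 * (i + 1) = a + 2 * i + 2 by ring]
      set δ := u (a + 2 * i + 2) - u (a + 2 * i) with hδ
      have i0 : (0 : ℝ) < i + 1 := by positivity
      have e4 : (i + 1 : ℝ) * δ ^ 2 ≤ (((a + 2 * i : ℕ) : ℝ) + 1 - n / 2) * δ ^ 2 := by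
        refine mul_le_mul_of_nonneg_right ?_ (sq_nonneg _)
        push_cast; linarith
      have e5 : 2 * l * δ - l ^ 2 * (1 / (i + 1)) ≤ (i + 1 : ℝ) * δ ^ 2 := by
        have : (i + 1 : ℝ) * δ ^ 2 - (2 * l * δ - l ^ 2 * (1 / (i + 1))) =
            (i + 1) * (δ - l / (i + 1)) ^ 2 := by field_simp; ring
        have := mul_nonneg i0.le (sq_nonneg (δ - l / (i + 1)))
        linarith
      have e6 : u (a + 2 * i + 2) = δ + u (a + 2 * i) := by rw [hδ]; ring
      rw [show a + 2 * i + 1 + 1 = a + 2 * i + 2 by ring] at e3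
      rw [e6]
      linarith
  have k1 := key j hj
  have k2 := mono (a + 2 * j) (by omega) (c - (a + 2 * j)) (by omega)
  rw [show a + 2 * j + (c - (a + 2 * j)) = c by omega] at k2
  have U : 0 < -u a := by linarith
  have l0 : 0 < l := by positivity
  have hH : ∑ k ∈ range j, (1 / (k + 1) : ℝ) ≤ 2 * √n :=
    (harm j).trans (by gcongr; omega)
  have s2 : √(n : ℝ) ^ 2 = n := Real.sq_sqrt n0.le
  have s3 : 4 * (m : ℝ) ^ 2 < √n := Real.lt_sqrt_of_sq_lt (by linarith)
  have s4 : l * (2 * √n) < -u a := by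
    rw [hl, mul_right_comm]
    refine mul_lt_of_lt_one_left U ?_
    rw [div_mul_eq_mul_div, div_lt_one n0]
    have := mul_lt_mul_of_pos_right s3 (Real.sqrt_pos.2 n0)
    linarith
  have k3 := mul_le_mul_of_nonneg_left hH (sq_nonneg l)
  have k4 := mul_lt_mul_of_pos_left s4 l0
  have k5 := mul_nonneg l0.le hu
  have k6 : 2 * m ^ 2 / n * u a ^ 2 = l * (-u a) := by rw [hl]; ring
  linarith

end Pool.Agent.H31.Kraw
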