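import Mathlib

open Finset

namespace Pool.Agent.H31.LocC

variable {V : Type}

/-- `f 0, …, f (k-1)` are the distinct vertices, in cyclic order, of a `k`-cycle of `G`. -/
def IsCyc (G : SimpleGraph V) (k : ℕ) (f : ℕ → V) : Prop :=
  3 ≤ k ∧ Set.InjOn f (Set.Iio k) ∧ (∀ i, i + 1 < k → G.Adj (f i) (f (i + 1))) ∧
    G.Adj (f (k - 1)) (f 0)

def IsP (G : SimpleGraph V) (k : ℕ) (f : ℕ → V) : Prop :=
  Set.InjOn f (Set.Iio k) ∧ ∀ i, i + 1 < k → G.Adj (f i) (f (i + 1))

theorem inj_le [Fintype V] {k : ℕ} {f : ℕ → V} (h : Set.InjOn f (Set.Iio k)) : k ≤ Fintype.card V := by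
  classical
  have : ((range k).image f).card = k := by
    rw [card_image_of_injOn (by simpa using h), card_range]
  exact this ▸ card_le_univ _

theorem posa [Fintype V] [DecidableEq V] (G : SimpleGraph V) [DecidableRel G.Adj] {a b : V}
    (hab : G.Adj a b) : ∃ (C S : Finset V) (w : V), S ⊆ C ∧ w ∈ C ∧ w ∉ S ∧ (∃ u ∈ S, G.Adj u w) ∧
      (∀ u ∈ S, ∀ x, G.Adj u x → x ∈ C) ∧ (∀ u ∈ S, G.degree u ≤ S.card) ∧
      (3 ≤ C.card → ∃ f, IsCyc G C.card f ∧ (range C.card).image f = C) := by
  classical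
  have p2 : IsP G 2 fun n => if n = 0 then a else b := by
    refine ⟨fun i hi j hj e => ?_, fun i hi => ?_⟩
    · have hi : i < 2 := hi
      have hj : j < 2 := hj
      have := hab.ne
      interval_cases i <;> interval_cases j <;> simp_all
    · have : i = 0 := by omega
      subst this; simpa using hab
  set k := Nat.findGreatest (fun k => ∃ f, IsP G k f) (Fintype.card V) with hk
  have k2 : 2 ≤ k := Nat.le_findGreatest (inj_le p2.1) ⟨_, p2⟩
  obtain ⟨p0, hp0⟩ : ∃ f, IsP G k f :=
    Nat.findGreatest_spec (P := fun k => ∃ f, IsP G k f) (inj_le p2.1) ⟨_, p2⟩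
  have kmax : ∀ f, ¬ IsP G (k + 1) f := fun f hf =>
    Nat.findGreatest_is_greatest (P := fun k => ∃ f, IsP G k f) (Nat.lt_succ_self k) (inj_le hf.1) ⟨f, hf⟩
  set j := Nat.findGreatest (fun j => ∃ f, IsP G k f ∧ G.Adj (f 0) (f j)) (k - 1) with hj
  have j1 : 1 ≤ j := Nat.le_findGreatest (by omega) ⟨p0, hp0, hp0.2 0 (by omega)⟩
  have jk : j ≤ k - 1 := Nat.findGreatest_le _
  obtain ⟨p, hp, hpj⟩ : ∃ f, IsP G k f ∧ G.Adj (f 0) (f j) :=
    Nat.findGreatest_spec (P := fun j => ∃ f, IsP G k f ∧ G.Adj (f 0) (f j)) (m := 1) (by omega)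
      ⟨p0, hp0, hp0.2 0 (by omega)⟩
  have nb : ∀ q, IsP G k q → ∀ x, G.Adj (q 0) x → ∃ i, 1 ≤ i ∧ i ≤ j ∧ x = q i := by
    intro q hq x hx
    by_cases h : ∃ i < k, x = q i
    · obtain ⟨i, hi, rfl⟩ := h
      refine ⟨i, ?_, Nat.le_findGreatest (by omega) ⟨q, hq, hx⟩, rfl⟩
      by_contra h0
      have : i = 0 := by omega
      subst this; exact hx.ne rfl
    · exfalso
      push Not at h
      refine kmax (fun n => if n = 0 then x else q (n - 1)) ⟨fun m hm n hn e => ?_, fun i hi => ?_⟩
      · have hm : m < k + 1 := hm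
        have hn : n < k + 1 := hn
        by_cases m0 : m = 0 <;> by_cases n0 : n = 0 <;> simp only [m0, n0, if_true, if_false] at e ⊢
        · exact absurd e (h _ (by omega))
        · exact absurd e.symm (h _ (by omega))
        · have := hq.1 (show m - 1 < k by omega) (show n - 1 < k by omega) e; omega
      · cases i with
        | zero => simpa using hx.symm
        | succ i => simpa using hq.2 i (by omega)
  let ok : (ℕ → V) → Prop := fun q => IsP G k q ∧ (range j).image q = (range j).image p ∧ q j = p j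
  have rot : ∀ q, ok q → ∀ i, 1 ≤ i → i ≤ j → G.Adj (q 0) (q i) →
      ok fun n => if n < i then q (i - 1 - n) else q n := by
    intro q hq i i1 ij hadj
    refine ⟨⟨fun m hm n hn e => ?_, fun n hn => ?_⟩, ?_, by simp [hq.2.2, not_lt.2 ij]⟩
    · have hm : m < k := hm
      have hn : n < k := hn
      by_cases m0 : m < i <;> by_cases n0 : n < i <;> simp only [m0, n0, if_true, if_false] at e
      · have := hq.1.1 (show i - 1 - m < k by omega) (show i - 1 - n < k by omega) e; omega
      · have := hq.1.1 (show i - 1 - m < k by omega) hn e; omega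
      · have := hq.1.1 hm (show i - 1 - n < k by omega) e; omega
      · exact hq.1.1 hm hn e
    · by_cases h1 : n + 1 < i
      · simp only [h1, show n < i by omega, if_true]
        have := (hq.1.2 (i - 1 - (n + 1)) (by omega)).symm
        rwa [show i - 1 - (n + 1) + 1 = i - 1 - n by omega] at this
      · by_cases h2 : n < i
        · simp only [h1, h2, if_true, if_false]
          rw [show i - 1 - n = 0 by omega, show n + 1 = i by omega]; exact hadj
        · simp only [h1, h2, if_false]; exact hq.1.2 n hn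
    · rw [← hq.2.1]
      ext x
      simp only [mem_image, mem_range]
      constructor
      · rintro ⟨n, hn, rfl⟩
        by_cases h : n < i
        · exact ⟨i - 1 - n, by omega, by simp [h]⟩
        · exact ⟨n, hn, by simp [h]⟩
      · rintro ⟨n, hn, rfl⟩
        by_cases h : n < i
        · exact ⟨i - 1 - n, by omega, by
            rw [if_pos (by omega), show i - 1 - (i - 1 - n) = n by omega]⟩
        · exact ⟨n, hn, by simp [h]⟩
  have cardC : ((range (j + 1)).image p).card = j + 1 := by
    rw [card_image_of_injOn, card_range]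
    exact hp.1.mono fun n hn => by simp only [coe_range, Set.mem_Iio] at hn ⊢; omega
  have inC : ∀ q, ok q → ∀ i ≤ j, q i ∈ (range (j + 1)).image p := by
    intro q hq i hi
    rcases hi.eq_or_lt with rfl | hi
    · rw [hq.2.2]; exact mem_image_of_mem _ (self_mem_range_succ _)
    · have : q i ∈ (range j).image p := hq.2.1 ▸ mem_image_of_mem _ (mem_range.2 hi)
      exact image_subset_image (range_subset_range.2 (by omega)) this
  refine ⟨(range (j + 1)).image p, ({u | ∃ q, ok q ∧ q 0 = u} : Finset V), p j, ?_,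
    mem_image_of_mem _ (self_mem_range_succ _), ?_, ⟨p 0, ?_, hpj⟩, ?_, ?_, ?_⟩
  · intro u hu
    obtain ⟨q, hq, rfl⟩ := (mem_filter.1 hu).2
    exact inC q hq 0 (by omega)
  · intro hu
    obtain ⟨q, hq, e⟩ := (mem_filter.1 hu).2
    have := hq.1.1 (show 0 < k by omega) (show j < k by omega) (e.trans hq.2.2.symm)
    omega
  · exact mem_filter.2 ⟨mem_univ _, p, ⟨hp, rfl, rfl⟩, rfl⟩
  · intro u hu x hx
    obtain ⟨q, hq, rfl⟩ := (mem_filter.1 hu).2
    obtain ⟨i, -, h2, rfl⟩ := nb q hq.1 x hx
    exact inC q hq i h2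
  · intro u hu
    obtain ⟨q, hq, rfl⟩ := (mem_filter.1 hu).2
    let I : Finset ℕ := {i ∈ range j | G.Adj (q 0) (q (i + 1))}
    calc G.degree (q 0) ≤ (I.image fun i => q (i + 1)).card := by
          refine card_le_card fun x hx => ?_
          rw [SimpleGraph.mem_neighborFinset] at hx
          obtain ⟨i, h1, h2, rfl⟩ := nb q hq.1 x hx
          obtain ⟨i, rfl⟩ : ∃ i', i = i' + 1 := ⟨i - 1, by omega⟩
          exact mem_image.2 ⟨i, mem_filter.2 ⟨mem_range.2 (by omega), hx⟩, rfl⟩
      _ ≤ I.card := card_image_le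
      _ ≤ _ := by
          refine card_le_card_of_injOn q (fun i hi => ?_) fun m hm n hn e => ?_
          · have hi := mem_filter.1 hi
            have := mem_range.1 hi.1
            exact mem_coe.2 (mem_filter.2 ⟨mem_univ _, _, rot q hq (i + 1) (by omega) (by omega) hi.2,
              by simp⟩)
          · have := mem_range.1 (mem_filter.1 hm).1
            have := mem_range.1 (mem_filter.1 hn).1
            exact hq.1.1 (show m < k by omega) (show n < k by omega) e
  · rw [cardC]
    intro h3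
    exact ⟨p, ⟨h3, hp.1.mono fun n hn => by simp only [Set.mem_Iio] at hn ⊢; omega,
      fun i hi => hp.2 i (by omega), hpj.symm⟩, rfl⟩

theorem clique_cyc [DecidableEq V] (G : SimpleGraph V) (B : Finset V) (hB : G.IsClique (B : Set V))
    (h3 : 3 ≤ B.card) : ∃ f, IsCyc G B.card f ∧ (range B.card).image f = B := by
  let f : ℕ → V := fun n => (B.equivFin.symm ⟨n % B.card, Nat.mod_lt _ (by omega)⟩).1
  have inj : Set.InjOn f (Set.Iio B.card) := by
    intro m hm n hn e
    have := B.equivFin.symm.injective (Subtype.ext e)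
    simp only [Fin.mk.injEq, Nat.mod_eq_of_lt hm, Nat.mod_eq_of_lt hn] at this
    exact this
  have adj : ∀ m n, m < B.card → n < B.card → m ≠ n → G.Adj (f m) (f n) := fun m n hm hn h =>
    hB (Subtype.prop _) (Subtype.prop _) fun e => h (inj hm hn e)
  refine ⟨f, ⟨h3, inj, fun i hi => adj _ _ (by omega) hi (by omega),
    adj _ _ (by omega) (by omega) (by omega)⟩, ?_⟩
  refine eq_of_subset_of_card_le (fun x hx => ?_) ?_
  · obtain ⟨n, -, rfl⟩ := mem_image.1 hx; exact Subtype.prop _
  · rw [card_image_of_injOn (by simpa using inj), card_range]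

theorem two_pow_choose (b c j0 : ℕ) (h0 : b.choose j0 ≤ c.choose j0)
    (h : ∀ j, j0 ≤ j → 2 * (b - j) ≤ c - j) (i : ℕ) : 2 ^ i * b.choose (j0 + i) ≤ c.choose (j0 + i) := by
  induction i with
  | zero => simpa using h0
  | succ i ih =>
    refine Nat.le_of_mul_le_mul_right ?_ (Nat.succ_pos (j0 + i))
    rw [← add_assoc, Nat.choose_succ_right_eq, mul_assoc, Nat.choose_succ_right_eq]
    calc 2 ^ (i + 1) * (b.choose (j0 + i) * (b - (j0 + i))) =
        2 ^ i * b.choose (j0 + i) * (2 * (b - (j0 + i))) := by ring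
      _ ≤ _ := Nat.mul_le_mul ih (h _ (by omega))

theorem vand (a c r : ℕ) : ((a + c).choose r : ℝ) =
    ∑ j ∈ range (r + 1), (a.choose (r - j) : ℝ) * c.choose j := by
  rw [add_comm, Nat.add_choose_eq, Finset.Nat.sum_antidiagonal_eq_sum_range_succ_mk]
  push_cast
  exact sum_congr rfl fun j _ => mul_comm _ _

theorem pw (j : ℕ) : ((j : ℝ) + 2) / 2 ≤ 2 ^ j ∧ (1 ≤ j → ((j : ℝ) + 2) / 2 < 2 ^ j) := by
  have : (j : ℝ) + 1 ≤ 2 ^ j := by exact_mod_cast Nat.lt_two_pow_self
  refine ⟨by have : (0 : ℝ) ≤ j := by positivity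
             linarith, fun h => ?_⟩
  have : (1 : ℝ) ≤ j := by exact_mod_cast h
  linarith

theorem F1 (a b r : ℕ) :
    ∑ j ∈ range (r + 1), (a.choose (r - j) : ℝ) * b.choose j * ((j + 2) / 2) ≤ (a + 2 * b).choose r ∧
    (1 ≤ b → 1 ≤ r → r ≤ a + 2 * b →
    ∑ j ∈ range (r + 1), (a.choose (r - j) : ℝ) * b.choose j * ((j + 2) / 2) < (a + 2 * b).choose r) := by
  have t : ∀ j, (2 : ℝ) ^ j * b.choose j ≤ (2 * b).choose j := fun j => by
    have := two_pow_choose b (2 * b) 0 (by simp) (fun j _ => by omega) j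
    rw [zero_add] at this; exact_mod_cast this
  have le : ∀ j, (a.choose (r - j) : ℝ) * b.choose j * ((j + 2) / 2) ≤
      (a.choose (r - j) : ℝ) * (2 * b).choose j := fun j => by
    rw [mul_assoc]
    refine mul_le_mul_of_nonneg_left (le_trans ?_ (t j)) (by positivity)
    rw [mul_comm]; exact mul_le_mul_of_nonneg_right (pw j).1 (by positivity)
  rw [vand]
  refine ⟨sum_le_sum fun j _ => le j, fun h1 h2 h3 => sum_lt_sum (fun j _ => le j)
    ⟨min r (2 * b), mem_range.2 (by omega), ?_⟩⟩
  rw [mul_assoc]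
  refine mul_lt_mul_of_pos_left ?_ (by exact_mod_cast Nat.choose_pos (by omega))
  rcases Nat.eq_zero_or_pos (b.choose (min r (2 * b))) with h | h
  · rw [h, Nat.cast_zero, zero_mul]; exact_mod_cast Nat.choose_pos (by omega)
  · refine lt_of_lt_of_le ?_ (t _)
    rw [mul_comm]; exact mul_lt_mul_of_pos_right ((pw _).2 (by omega)) (by exact_mod_cast h)

theorem F0 (a b r : ℕ) :
    ∑ j ∈ range (r + 1), (a.choose (r - j) : ℝ) * b.choose j * (((j - 1 : ℕ) + 2) / 2) ≤
      (a + (2 * b - 1)).choose r := by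
  rw [vand]
  refine sum_le_sum fun j _ => ?_
  rw [mul_assoc]
  refine mul_le_mul_of_nonneg_left ?_ (by positivity)
  cases j with
  | zero => simp
  | succ j =>
    have := two_pow_choose b (2 * b - 1) 1 (by simp; omega) (fun j _ => by omega) j
    rw [add_comm 1 j] at this
    have t : (2 : ℝ) ^ j * b.choose (j + 1) ≤ (2 * b - 1).choose (j + 1) := by exact_mod_cast this
    refine le_trans ?_ t
    rw [mul_comm, Nat.add_sub_cancel]; exact mul_le_mul_of_nonneg_right (pw j).1 (by positivity)

theorem sum_split [DecidableEq V] (A B : Finset V) (r : ℕ) (φ : ℕ → ℝ) (hφ : ∀ j, 0 ≤ φ j) :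
    ∑ T ∈ powersetCard r (A ∪ B), φ (T ∩ B).card ≤
      ∑ j ∈ range (r + 1), (A.card.choose (r - j) : ℝ) * B.card.choose j * φ j := by
  rw [← sum_fiberwise_of_maps_to (t := range (r + 1)) (g := fun T => (T ∩ B).card)]
  · refine sum_le_sum fun j _ => ?_
    rw [sum_congr rfl (g := fun _ => φ j) fun T hT => by rw [(mem_filter.1 hT).2], sum_const,
      nsmul_eq_mul]
    refine mul_le_mul_of_nonneg_right ?_ (hφ j)
    rw [← card_powersetCard, ← card_powersetCard, ← Nat.cast_mul, ← card_product, Nat.cast_le]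
    refine card_le_card_of_injOn (fun T => (T \ B, T ∩ B)) (fun T hT => ?_) fun T _ T' _ e => ?_
    · simp only [coe_filter, mem_powersetCard, Set.mem_ofPred_eq] at hT
      simp only [coe_product, Set.mem_prod, mem_coe, mem_powersetCard]
      have := card_sdiff_add_card_inter T B
      refine ⟨⟨fun x hx => ?_, by omega⟩, inter_subset_right, hT.2⟩
      have := hT.1.1 (mem_sdiff.1 hx).1
      rcases mem_union.1 this with h | h
      · exact h
      · exact absurd h (mem_sdiff.1 hx).2
    · simp only [Prod.mk.injEq] at e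
      rw [← sdiff_union_inter T B, ← sdiff_union_inter T' B, e.1, e.2]
  · intro T hT
    have := card_le_card (inter_subset_left (s₁ := T) (s₂ := B))
    rw [(mem_powersetCard.1 hT).2] at this
    exact mem_range.2 (by omega)

end Pool.Agent.H31.LocC
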