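import Pool.Agent.H31.LocC1

open Finset

namespace Pool.Agent.H31.LocC

variable {V : Type} [Fintype V] [DecidableEq V]

noncomputable def gam (G : SimpleGraph V) (T : Finset V) : ℕ :=
  sSup {k | ∃ f, IsCyc G k f ∧ T ⊆ (range k).image f}

noncomputable def cw (t g : ℕ) : ℝ := (g.choose 2 : ℝ) / g.choose t

theorem bdd (G : SimpleGraph V) (T : Finset V) :
    BddAbove {k | ∃ f, IsCyc G k f ∧ T ⊆ (range k).image f} :=
  ⟨Fintype.card V, fun _ ⟨_, hf, _⟩ => inj_le hf.2.1⟩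

theorem le_gam {G : SimpleGraph V} {T : Finset V} {k : ℕ} {f : ℕ → V} (h : IsCyc G k f)
    (hT : T ⊆ (range k).image f) : k ≤ gam G T := le_csSup (bdd G T) ⟨f, h, hT⟩

theorem gam_ge {G : SimpleGraph V} {T B : Finset V} (hB : G.IsClique (B : Set V)) (h3 : 3 ≤ B.card)
    (hT : T ⊆ B) : B.card ≤ gam G T := by
  obtain ⟨f, hf, e⟩ := clique_cyc G B hB h3
  exact le_gam hf (e.symm ▸ hT)

theorem cw_eq {t g : ℕ} (h2 : 2 ≤ t) (h : t ≤ g) :
    cw t g = (t * (t - 1) / 2 : ℝ) / (g - 2).choose (t - 2) := by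
  have e := Nat.choose_mul (n := g) (k := t) (s := 2) h2
  have e' : (g.choose t : ℝ) * t.choose 2 = g.choose 2 * (g - 2).choose (t - 2) := by exact_mod_cast e
  have p1 : (0 : ℝ) < g.choose t := by exact_mod_cast Nat.choose_pos h
  have p2 : (0 : ℝ) < (g - 2).choose (t - 2) := by exact_mod_cast Nat.choose_pos (by omega)
  rw [cw, div_eq_div_iff p1.ne' p2.ne', ← e', Nat.cast_choose_two]; ring

theorem cw_anti {t g g' : ℕ} (h2 : 2 ≤ t) (h : t ≤ g) (h' : g ≤ g') : cw t g' ≤ cw t g := by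
  rw [cw_eq h2 h, cw_eq h2 (h.trans h')]
  have : (2 : ℝ) ≤ t := by exact_mod_cast h2
  refine div_le_div_of_nonneg_left (by nlinarith) (by exact_mod_cast Nat.choose_pos (by omega)) ?_
  exact_mod_cast Nat.choose_le_choose _ (by omega)

def PS (G : SimpleGraph V) [DecidableRel G.Adj] (S : Finset V) : Finset (V × V) :=
  {p | G.Adj p.1 p.2 ∧ (p.1 ∈ S ∨ p.2 ∈ S)}

noncomputable def den (t j : ℕ) : ℝ := t * (t - 1) - j * (j - 1)

theorem den_pos {t j : ℕ} (h2 : 2 ≤ t) (h : j < t) : 0 < den t j := by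
  have h1 : (j : ℝ) + 1 ≤ t := by exact_mod_cast h
  have h3 : (2 : ℝ) ≤ t := by exact_mod_cast h2
  have h0 : (0 : ℝ) ≤ j := by positivity
  unfold den
  rcases Nat.eq_zero_or_pos j with rfl | hj
  · simp only [Nat.cast_zero, zero_mul, sub_zero]; nlinarith
  · have : (1 : ℝ) ≤ j := by exact_mod_cast hj
    nlinarith

theorem ratio {t j : ℕ} (h2 : 2 ≤ t) (h : j < t) :
    (t * (t - 1) : ℝ) / den t j ≤ (((j - 1 : ℕ) : ℝ) + 2) / 2 := by
  rw [div_le_iff₀ (den_pos h2 h)]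
  unfold den
  rcases Nat.eq_zero_or_pos j with rfl | hj
  · simp
  · obtain ⟨i, rfl⟩ : ∃ i, j = i + 1 := ⟨j - 1, by omega⟩
    have h1 : (i : ℝ) + 2 ≤ t := by exact_mod_cast h
    have h0 : (0 : ℝ) ≤ i := by positivity
    simp only [Nat.add_sub_cancel]
    push_cast
    have : (i + 2 : ℝ) * (i + 1) ≤ t * (t - 1) := by nlinarith
    nlinarith

theorem dist (G : SimpleGraph V) [DecidableRel G.Adj] (t : ℕ) (h2 : 2 ≤ t) (S : Finset V)
    (g : Finset V → ℝ) :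
    ∑ T ∈ G.cliqueFinset t with (T ∩ S).Nonempty, g T =
      ∑ p ∈ PS G S, ∑ T ∈ G.cliqueFinset t with p.1 ∈ T ∧ p.2 ∈ T, g T / den t (T \ S).card := by
  rw [sum_comm' (t' := {T ∈ G.cliqueFinset t | (T ∩ S).Nonempty})
    (s' := fun T => T.offDiag \ (T \ S).offDiag)]
  · refine sum_congr rfl fun T hT => ?_
    obtain ⟨hT, ⟨x, hx⟩⟩ := mem_filter.1 hT
    have hc := (SimpleGraph.mem_cliqueFinset_iff.1 hT).card_eq
    have hlt : (T \ S).card < t := by
      rw [← hc]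
      exact card_lt_card ⟨sdiff_subset, fun h => (mem_sdiff.1 (h (mem_inter.1 hx).1)).2 (mem_inter.1 hx).2⟩
    rw [sum_const, card_sdiff_of_subset (offDiag_mono sdiff_subset), nsmul_eq_mul,
      Nat.cast_sub (card_le_card (offDiag_mono sdiff_subset)), offDiag_card, offDiag_card, hc,
      Nat.cast_sub (Nat.le_mul_self _), Nat.cast_sub (Nat.le_mul_self _)]
    have := den_pos h2 hlt
    field_simp
    unfold den; push_cast; ring
  · intro p T
    simp only [PS, mem_filter, mem_univ, true_and, mem_sdiff, mem_offDiag,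
      SimpleGraph.mem_cliqueFinset_iff]
    constructor
    · rintro ⟨⟨ha, hs⟩, hT, h1, h2⟩
      refine ⟨⟨⟨h1, h2, ha.ne⟩, by tauto⟩, hT, ?_⟩
      rcases hs with hs | hs
      · exact ⟨_, mem_inter.2 ⟨h1, hs⟩⟩
      · exact ⟨_, mem_inter.2 ⟨h2, hs⟩⟩
    · rintro ⟨⟨⟨h1, h2, h3⟩, h4⟩, hT, -⟩
      exact ⟨⟨hT.1 h1 h2 h3, by tauto⟩, hT, h1, h2⟩

def cn (G : SimpleGraph V) [DecidableRel G.Adj] (u v : V) : Finset V := {x | G.Adj u x ∧ G.Adj v x}

theorem pair_le (G : SimpleGraph V) [DecidableRel G.Adj] (t : ℕ) (h2 : 2 ≤ t) (S : Finset V)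
    {u v : V} (huv : G.Adj u v) (φ : ℕ → ℝ) (hφ : ∀ j, 0 ≤ φ j) (g : Finset V → ℝ)
    (hg : ∀ T ∈ G.cliqueFinset t, u ∈ T → v ∈ T → g T ≤ φ ((T \ {u, v}) \ S).card) :
    ∑ T ∈ G.cliqueFinset t with u ∈ T ∧ v ∈ T, g T ≤
      ∑ j ∈ range (t - 2 + 1), (((cn G u v ∩ S).card.choose (t - 2 - j) : ℕ) : ℝ) *
        (cn G u v \ S).card.choose j * φ j := by
  refine le_trans ?_ (sum_split _ _ _ φ hφ)
  rw [union_comm, sdiff_union_inter]
  have sub : ∀ T ∈ G.cliqueFinset t, u ∈ T → v ∈ T → T \ {u, v} ⊆ cn G u v := by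
    intro T hT hu hv x hx
    have hT := SimpleGraph.mem_cliqueFinset_iff.1 hT
    simp only [mem_sdiff, mem_insert, mem_singleton, not_or] at hx
    exact mem_filter.2 ⟨mem_univ _, hT.1 hu hx.1 (Ne.symm hx.2.1), hT.1 hv hx.1 (Ne.symm hx.2.2)⟩
  have inj : Set.InjOn (fun T => T \ {u, v})
      (({T ∈ G.cliqueFinset t | u ∈ T ∧ v ∈ T} : Finset (Finset V)) : Set (Finset V)) := by
    intro T hT T' hT' e
    have h1 := (mem_filter.1 hT).2
    have h2 := (mem_filter.1 hT').2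
    have s1 : {u, v} ⊆ T := by simp [insert_subset_iff, h1]
    have s2 : {u, v} ⊆ T' := by simp [insert_subset_iff, h2]
    simp only at e
    rw [← sdiff_union_of_subset s1, ← sdiff_union_of_subset s2, e]
  refine le_trans (sum_le_sum fun T hT => ?_) ((sum_image
    (f := fun R => φ (R ∩ (cn G u v \ S)).card) inj).symm.le.trans
    (sum_le_sum_of_subset_of_nonneg (fun R hR => ?_) fun _ _ _ => hφ _))
  · obtain ⟨hT, h1⟩ := mem_filter.1 hT
    refine (hg T hT h1.1 h1.2).trans (le_of_eq ?_)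
    congr 2
    ext x
    have := @sub T hT h1.1 h1.2 x
    simp only [mem_sdiff, mem_inter] at this ⊢
    tauto
  · obtain ⟨T, hT, rfl⟩ := mem_image.1 hR
    obtain ⟨hT, h1⟩ := mem_filter.1 hT
    have s1 : {u, v} ⊆ T := by simp [insert_subset_iff, h1]
    refine mem_powersetCard.2 ⟨sub T hT h1.1 h1.2, ?_⟩
    rw [card_sdiff_of_subset s1, card_pair huv.ne, (SimpleGraph.mem_cliqueFinset_iff.1 hT).card_eq]

end Pool.Agent.H31.LocC
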