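import Pool.Agent.H31.LocC2

open Finset

namespace Pool.Agent.H31.LocC

variable {V : Type} [Fintype V] [DecidableEq V]

noncomputable def X (G : SimpleGraph V) [DecidableRel G.Adj] (t : ℕ) (S : Finset V) (u v : V) : ℝ :=
  ∑ T ∈ G.cliqueFinset t with u ∈ T ∧ v ∈ T, cw t (gam G T) / den t (T \ S).card

theorem pair_bound (G : SimpleGraph V) [DecidableRel G.Adj] (t : ℕ) (h3 : 3 ≤ t) (C S : Finset V)
    (hSC : S ⊆ C) (hN : ∀ u ∈ S, ∀ x, G.Adj u x → x ∈ C)
    (hd : ∀ u ∈ S, G.degree u ≤ S.card)
    (hc : 3 ≤ C.card → ∃ f, IsCyc G C.card f ∧ (range C.card).image f = C)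
    {u v : V} (hu : u ∈ S) (huv : G.Adj u v) :
    X G t S u v ≤ 1 / 2 ∧
      (v ∉ S → X G t S u v = 1 / 2 → t ≤ C.card ∧ C.card ≤ (cn G u v ∩ S).card + 2) := by
  have TC : ∀ T ∈ G.cliqueFinset t, u ∈ T → T ⊆ C := fun T hT h x hx => by
    by_cases e : u = x
    · exact e ▸ hSC hu
    · exact hN u hu x ((SimpleGraph.mem_cliqueFinset_iff.1 hT).1 h hx e)
  by_cases hl : C.card < t
  · have : X G t S u v = 0 := by
      refine sum_eq_zero fun T hT => ?_
      obtain ⟨hT, h1⟩ := mem_filter.1 hT
      have := card_le_card (TC T hT h1.1)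
      rw [(SimpleGraph.mem_cliqueFinset_iff.1 hT).card_eq] at this
      omega
    rw [this]; exact ⟨by norm_num, fun _ h => by norm_num at h⟩
  push Not at hl
  obtain ⟨f, hf, hfC⟩ := hc (by omega)
  set N : ℝ := (((C.card - 2).choose (t - 2) : ℕ) : ℝ) with hNdef
  have Npos : 0 < N := by rw [hNdef]; exact_mod_cast Nat.choose_pos (by omega)
  have key : ∀ T ∈ G.cliqueFinset t, u ∈ T → cw t (gam G T) / den t (T \ S).card ≤
      ((((T \ S).card - 1 : ℕ) : ℝ) + 2) / 2 / (2 * N) := by
    intro T hT h
    have hlt : (T \ S).card < t := by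
      rw [← (SimpleGraph.mem_cliqueFinset_iff.1 hT).card_eq]
      exact card_lt_card ⟨sdiff_subset, fun h' => (mem_sdiff.1 (h' h)).2 hu⟩
    have a1 := cw_anti (t := t) (by omega) hl (le_gam hf (hfC.symm ▸ TC T hT h))
    rw [cw_eq (by omega) hl] at a1
    have a2 := ratio (t := t) (by omega) hlt
    have a3 := den_pos (t := t) (by omega) hlt
    calc _ ≤ (t * (t - 1) / 2 : ℝ) / N / den t (T \ S).card := div_le_div_of_nonneg_right a1 a3.le
      _ = (t * (t - 1) : ℝ) / den t (T \ S).card / (2 * N) := by field_simp
      _ ≤ _ := div_le_div_of_nonneg_right a2 (by positivity)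
  set a := (cn G u v ∩ S).card with ha
  set b := (cn G u v \ S).card with hb
  have hdeg : a + b + 1 ≤ S.card := by
    refine le_trans ?_ (hd u hu)
    have : v ∉ cn G u v := fun h => (mem_filter.1 h).2.2.ne rfl
    rw [ha, hb, add_comm (_ ∩ _ : Finset V).card, card_sdiff_add_card_inter, ← card_insert_of_notMem this]
    refine card_le_card fun x hx => ?_
    rw [SimpleGraph.mem_neighborFinset]
    rcases mem_insert.1 hx with rfl | hx
    · exact huv
    · exact (mem_filter.1 hx).2.1
  have hCS : (C \ S).card + S.card = C.card := card_sdiff_add_card_eq_card hSC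
  have bsub : cn G u v \ S ⊆ C \ S := fun x hx =>
    mem_sdiff.2 ⟨hN u hu x (mem_filter.1 (mem_sdiff.1 hx).1).2.1, (mem_sdiff.1 hx).2⟩
  by_cases hv : v ∈ S
  · refine ⟨?_, fun h => absurd hv h⟩
    have hW : b ≤ (C \ S).card := card_le_card bsub
    have := pair_le G t (by omega) S huv (fun j => (((j - 1 : ℕ) : ℝ) + 2) / 2 / (2 * N))
      (fun j => by positivity) (fun T => cw t (gam G T) / den t (T \ S).card) fun T hT h1 h2 => by
        refine (key T hT h1).trans (le_of_eq ?_)
        congr 6
        ext x
        simp only [mem_sdiff, mem_insert, mem_singleton]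
        constructor
        · rintro ⟨h, h'⟩
          exact ⟨⟨h, by rintro (rfl | rfl) <;> contradiction⟩, h'⟩
        · tauto
    refine this.trans ?_
    simp only [← mul_div_assoc, ← sum_div]
    rw [div_le_iff₀ (by positivity)]
    have f0 := F0 a b (t - 2)
    simp only [← mul_div_assoc, ← sum_div] at f0
    have two : 2 ≤ S.card := by
      rw [← card_pair huv.ne]; exact card_le_card (by simp [insert_subset_iff, hu, hv])
    have : ((a + (2 * b - 1)).choose (t - 2) : ℝ) ≤ N := by
      rw [hNdef]
      refine Nat.cast_le.2 (Nat.choose_le_choose _ ?_)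
      rcases Nat.eq_zero_or_pos b with h0 | h0
      · have : a + 2 ≤ S.card := by
          have : insert u (insert v (cn G u v ∩ S)) ⊆ S := by
            simp [insert_subset_iff, hu, hv]
          have h1 : v ∉ cn G u v ∩ S := fun h => (mem_filter.1 (mem_inter.1 h).1).2.2.ne rfl
          have h2 : u ∉ insert v (cn G u v ∩ S) := fun h => by
            rcases mem_insert.1 h with h | h
            · exact huv.ne h
            · exact (mem_filter.1 (mem_inter.1 h).1).2.1.ne rfl
          have := card_le_card this
          rwa [card_insert_of_notMem h2, card_insert_of_notMem h1] at this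
        omega
      · omega
    linarith
  · have hW : b + 1 ≤ (C \ S).card := by
      have : v ∉ cn G u v \ S := fun h => (mem_filter.1 (mem_sdiff.1 h).1).2.2.ne rfl
      rw [hb, ← card_insert_of_notMem this]
      exact card_le_card (insert_subset (mem_sdiff.2 ⟨hN u hu v huv, hv⟩) bsub)
    have := pair_le G t (by omega) S huv (fun j => ((j : ℝ) + 2) / 2 / (2 * N))
      (fun j => by positivity) (fun T => cw t (gam G T) / den t (T \ S).card) fun T hT h1 h2 => by
        refine (key T hT h1).trans (le_of_eq ?_)
        have : T \ S = insert v ((T \ {u, v}) \ S) := by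
          ext x
          simp only [mem_sdiff, mem_insert, mem_singleton]
          constructor
          · rintro ⟨h, h'⟩
            by_cases e : x = v
            · exact Or.inl e
            · exact Or.inr ⟨⟨h, by rintro (rfl | rfl) <;> contradiction⟩, h'⟩
          · rintro (rfl | h)
            · exact ⟨h2, hv⟩
            · tauto
        rw [this, card_insert_of_notMem (by simp), Nat.add_sub_cancel]
    simp only [← mul_div_assoc, ← sum_div] at this
    rw [le_div_iff₀ (by positivity)] at this
    obtain ⟨f1, f2⟩ := F1 a b (t - 2)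
    simp only [← mul_div_assoc, ← sum_div] at f1 f2
    have le : ((a + 2 * b).choose (t - 2) : ℝ) ≤ N := by
      rw [hNdef]; exact Nat.cast_le.2 (Nat.choose_le_choose _ (by omega))
    refine ⟨?_, fun _ h => ⟨hl, ?_⟩⟩
    · refine le_of_mul_le_mul_right ?_ (show 0 < 2 * N by positivity)
      unfold X; linarith
    · unfold X at h
      rw [h] at this
      have e : N ≤ ((a + 2 * b).choose (t - 2) : ℝ) := by linarith
      have r1 : t - 2 ≤ a + 2 * b := by
        by_contra hc
        rw [Nat.choose_eq_zero_of_lt (by omega), Nat.cast_zero] at e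
        linarith
      have b0 : b = 0 := by
        by_contra hc
        have := f2 (by omega) (by omega) r1
        linarith
      by_contra hc
      have : (a + 2 * b).choose (t - 2) < (C.card - 2).choose (t - 2) := by
        calc _ < (a + 2 * b + 1).choose (t - 2) := by
              obtain ⟨r, hr⟩ : ∃ r, t - 2 = r + 1 := ⟨t - 3, by omega⟩
              rw [hr, Nat.choose_succ_succ]
              have : 0 < (a + 2 * b).choose r := Nat.choose_pos (by omega)
              simp only [Nat.succ_eq_add_one]; omega
          _ ≤ _ := Nat.choose_le_choose _ (by omega)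
      have : ((a + 2 * b).choose (t - 2) : ℝ) < N := by rw [hNdef]; exact_mod_cast this
      linarith

end Pool.Agent.H31.LocC
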