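import Pool.Agent.H31.LocC3

open Finset

namespace Pool.Agent.H31.LocC

variable {V : Type} [Fintype V] [DecidableEq V]

def Q (G : SimpleGraph V) (t : ℕ) : Prop :=
  (∀ u v, G.Adj u v → ∃ T, G.IsNClique t T ∧ u ∈ T ∧ v ∈ T) ∧
    ∀ k f, IsCyc G k f → G.IsClique (((range k).image f : Finset V) : Set V)

def del (G : SimpleGraph V) (S : Finset V) : SimpleGraph V where
  Adj x y := G.Adj x y ∧ x ∉ S ∧ y ∉ S
  symm := ⟨fun _ _ h => ⟨h.1.symm, h.2.2, h.2.1⟩⟩
  loopless := ⟨fun _ h => h.1.ne rfl⟩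

omit [Fintype V] [DecidableEq V] in
theorem cyc_per {G : SimpleGraph V} {k : ℕ} {f : ℕ → V} (h : IsCyc G k f) (n : ℕ) :
    G.Adj (f (n % k)) (f ((n + 1) % k)) := by
  have k0 : 0 < k := by have := h.1; omega
  have := Nat.mod_lt n k0
  rw [Nat.add_mod, Nat.mod_eq_of_lt (show 1 < k by have := h.1; omega)]
  by_cases e : n % k + 1 < k
  · rw [Nat.mod_eq_of_lt e]; exact h.2.2.1 _ e
  · rw [show n % k + 1 = k by omega, Nat.mod_self, show n % k = k - 1 by omega]; exact h.2.2.2

omit [Fintype V] [DecidableEq V] in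
theorem per_inj {G : SimpleGraph V} {k : ℕ} {f : ℕ → V} (h : IsCyc G k f) {p q : ℕ} (h1 : p < q)
    (h2 : q < p + k) : f (p % k) ≠ f (q % k) := fun e => by
  have k0 : 0 < k := by have := h.1; omega
  have := h.2.1 (Nat.mod_lt p k0) (Nat.mod_lt q k0) e
  have := (Nat.modEq_iff_dvd' h1.le).1 this
  have := Nat.le_of_dvd (by omega) this
  omega

omit [Fintype V] in
theorem stay {G : SimpleGraph V} {k : ℕ} {f : ℕ → V} (h : IsCyc G k f) (S : Finset V) (w : V)
    (hw : w ∉ S) (hN : ∀ u ∈ S, ∀ x, G.Adj u x → x ∈ S ∨ x = w) {i j : ℕ} (hi : i < k) (hj : j < k)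
    (h1 : f i ∈ S) : f j ∈ S ∨ f j = w := by
  by_contra hc
  push Not at hc
  have cross : ∀ a b, a < b → f (a % k) ≠ w → f (b % k) ≠ w → ¬ (f (a % k) ∈ S ↔ f (b % k) ∈ S) →
      ∃ p, a < p ∧ p < b ∧ f (p % k) = w := by
    intro a b hab ha hb hn
    by_contra hp
    push Not at hp
    refine hn ?_
    have : ∀ n, a + n ≤ b → f ((a + n) % k) ≠ w ∧ (f (a % k) ∈ S ↔ f ((a + n) % k) ∈ S) := by
      intro n
      induction n with
      | zero => exact fun _ => ⟨ha, Iff.rfl⟩
      | succ n ih =>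
        intro hn
        obtain ⟨i1, i2⟩ := ih (by omega)
        have nw : f ((a + (n + 1)) % k) ≠ w := by
          rcases hn.eq_or_lt with e | e
          · rwa [e]
          · exact hp _ (by omega) e
        have adj := cyc_per h (a + n)
        exact ⟨nw, i2.trans ⟨fun h => (hN _ h _ adj).resolve_right nw,
          fun h => (hN _ h _ adj.symm).resolve_right i1⟩⟩
    have := (this (b - a) (by omega)).2
    rwa [show a + (b - a) = b by omega] at this
  have iw : f i ≠ w := fun e => hw (e ▸ h1)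
  have ei := Nat.mod_eq_of_lt hi
  have ej := Nat.mod_eq_of_lt hj
  rcases lt_trichotomy i j with l | l | l
  · obtain ⟨p, p1, p2, p3⟩ := cross i j l (by rwa [ei]) (by rw [ej]; exact hc.2) (by rw [ei, ej]; tauto)
    obtain ⟨q, q1, q2, q3⟩ := cross j (i + k) (by omega) (by rw [ej]; exact hc.2)
      (by rwa [Nat.add_mod_right, ei]) (by rw [Nat.add_mod_right, ei, ej]; tauto)
    exact per_inj h (show p < q by omega) (by omega) (p3.trans q3.symm)
  · exact hc.1 (l ▸ h1)
  · obtain ⟨p, p1, p2, p3⟩ := cross j i l (by rw [ej]; exact hc.2) (by rwa [ei]) (by rw [ei, ej]; tauto)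
    obtain ⟨q, q1, q2, q3⟩ := cross i (j + k) (by omega) (by rwa [ei])
      (by rw [Nat.add_mod_right, ej]; exact hc.2) (by rw [Nat.add_mod_right, ei, ej]; tauto)
    exact per_inj h (show p < q by omega) (by omega) (p3.trans q3.symm)

theorem main (t : ℕ) (h3 : 3 ≤ t) (n : ℕ) : ∀ (G : SimpleGraph V) [DecidableRel G.Adj],
    (PS G univ).card = n →
    ∑ T ∈ G.cliqueFinset t, cw t (gam G T) ≤ n / 2 ∧
      (∑ T ∈ G.cliqueFinset t, cw t (gam G T) = n / 2 → Q G t) := by
  induction n using Nat.strong_induction_on with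
  | _ n ih =>
  intro G _ hn
  classical
  by_cases hE : ∃ a b, G.Adj a b
  swap
  · push Not at hE
    refine ⟨?_, fun _ => ⟨fun u v h => absurd h (hE u v), fun k f h => absurd h.2.2.2 (hE _ _)⟩⟩
    rw [sum_eq_zero]
    · positivity
    · intro T hT
      have hT := SimpleGraph.mem_cliqueFinset_iff.1 hT
      obtain ⟨a, ha, b, hb, hab⟩ := one_lt_card.1 (show 1 < T.card by rw [hT.card_eq]; omega)
      exact absurd (hT.1 ha hb hab) (hE a b)
  obtain ⟨a, b, hab⟩ := hE
  obtain ⟨C, S, w, hSC, hwC, hwS, ⟨u, huS, huw⟩, hN, hd, hc⟩ := posa G hab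
  have split : (PS G S).card + (PS (del G S) univ).card = n := by
    rw [← hn, ← card_union_of_disjoint]
    · congr 1; ext p; simp only [PS, del, mem_union, mem_filter, mem_univ, true_and]; tauto
    · rw [disjoint_left]; intro p; simp only [PS, del, mem_filter, mem_univ, true_and]; tauto
  have pos : 0 < (PS G S).card := card_pos.2 ⟨(u, w), mem_filter.2 ⟨mem_univ _, huw, Or.inl huS⟩⟩
  obtain ⟨i1, i2⟩ := ih _ (by omega) (del G S) rfl
  have le : del G S ≤ G := fun _ _ h => h.1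
  have cle : ∀ {k f}, IsCyc (del G S) k f → IsCyc G k f := fun h =>
    ⟨h.1, h.2.1, fun i hi => le (h.2.2.1 i hi), le h.2.2.2⟩
  have s2 : ∑ T ∈ G.cliqueFinset t with ¬ (T ∩ S).Nonempty, cw t (gam G T) ≤
      ∑ T ∈ (del G S).cliqueFinset t, cw t (gam (del G S) T) := by
    have e : ({T ∈ G.cliqueFinset t | ¬ (T ∩ S).Nonempty} : Finset (Finset V)) =
        (del G S).cliqueFinset t := by
      ext T
      simp only [mem_filter, SimpleGraph.mem_cliqueFinset_iff]
      constructor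
      · rintro ⟨hT, h⟩
        exact ⟨fun x hx y hy hxy => ⟨hT.1 hx hy hxy, fun h' => h ⟨x, mem_inter.2 ⟨hx, h'⟩⟩,
          fun h' => h ⟨y, mem_inter.2 ⟨hy, h'⟩⟩⟩, hT.2⟩
      · intro hT
        refine ⟨hT.mono le, fun ⟨x, hx⟩ => ?_⟩
        obtain ⟨y, hy, hxy⟩ := exists_mem_ne (show 1 < T.card by rw [hT.card_eq]; omega) x
        exact (hT.1 (mem_inter.1 hx).1 hy hxy.symm).2.1 (mem_inter.1 hx).2
    rw [e]
    refine sum_le_sum fun T hT => ?_
    have hT := SimpleGraph.mem_cliqueFinset_iff.1 hT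
    have g1 := gam_ge hT.1 (by rw [hT.card_eq]; exact h3) Subset.rfl
    rw [hT.card_eq] at g1
    refine cw_anti (by omega) g1 (csSup_le_csSup' (bdd G T) ?_)
    rintro k ⟨f, hf, h⟩
    exact ⟨f, cle hf, h⟩
  have pb : ∀ p ∈ PS G S, X G t S p.1 p.2 ≤ 1 / 2 := by
    intro p hp
    obtain ⟨-, h1, h2 | h2⟩ := mem_filter.1 hp
    · exact (pair_bound G t h3 C S hSC hN hd hc h2 h1).1
    · have := (pair_bound G t h3 C S hSC hN hd hc h2 h1.symm).1
      unfold X at this ⊢
      simpa only [and_comm] using this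
  have s1 := dist G t (by omega) S fun T => cw t (gam G T)
  have s1' : ∑ p ∈ PS G S, X G t S p.1 p.2 ≤ ∑ p ∈ PS G S, (1 / 2 : ℝ) := sum_le_sum pb
  have s0 := sum_filter_add_sum_filter_not (G.cliqueFinset t) (fun T => (T ∩ S).Nonempty)
    fun T => cw t (gam G T)
  have e0 : ∑ p ∈ PS G S, (1 / 2 : ℝ) = (PS G S).card / 2 := by simp [div_eq_mul_inv]
  have split' : ((PS G S).card : ℝ) + (PS (del G S) univ).card = n := by exact_mod_cast split
  change _ = ∑ p ∈ PS G S, X G t S p.1 p.2 at s1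
  refine ⟨by linarith, fun heq => ?_⟩
  obtain ⟨q1, q2⟩ := i2 (by linarith)
  have all := (sum_eq_sum_iff_of_le pb).1 (by linarith)
  have big : ∀ x ∈ S, G.Adj x w → t ≤ C.card ∧ ∀ y ∈ C, y ≠ x → y ≠ w → y ∈ cn G x w ∩ S := by
    intro x hx hxw
    obtain ⟨b1, b2⟩ := (pair_bound G t h3 C S hSC hN hd hc hx hxw).2 hwS
      (all (x, w) (mem_filter.2 ⟨mem_univ _, hxw, Or.inl hx⟩))
    refine ⟨b1, fun y hy h1 h2 => ?_⟩
    have sub : cn G x w ∩ S ⊆ C \ {x, w} := fun z hz => by
      obtain ⟨h1, h2⟩ := mem_inter.1 hz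
      obtain ⟨-, h3, h4⟩ := mem_filter.1 h1
      simp [hSC h2, h3.ne', h4.ne']
    have : (C \ {x, w}).card = C.card - 2 := by
      rw [card_sdiff_of_subset (by simp [insert_subset_iff, hSC hx, hwC]), card_pair hxw.ne]
    rw [eq_of_subset_of_card_le sub (by omega)]
    simp [hy, h1, h2]
  have CS : ∀ y ∈ C, y ≠ w → y ∈ S ∧ G.Adj y w := fun y hy h => by
    by_cases e : y = u
    · exact e ▸ ⟨huS, huw⟩
    · have := mem_inter.1 ((big u huS huw).2 y hy e h)
      exact ⟨this.2, (mem_filter.1 this.1).2.2.symm⟩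
  have clq : G.IsClique (C : Set V) := fun x hx y hy hxy => by
    by_cases e : y = w
    · subst e; exact (CS x hx hxy).2
    · by_cases e' : x = w
      · subst e'; exact (CS y hy e).2.symm
      · obtain ⟨h1, h2⟩ := CS x hx e'
        exact (mem_filter.1 (mem_inter.1 ((big x h1 h2).2 y hy (Ne.symm hxy) e)).1).2.1
  have tC := (big u huS huw).1
  refine ⟨fun x y hxy => ?_, fun k f hf => ?_⟩
  · by_cases h : x ∈ S ∨ y ∈ S
    · have : {x, y} ⊆ C := by
        rcases h with h | h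
        · simp [insert_subset_iff, hSC h, hN x h y hxy]
        · simp [insert_subset_iff, hSC h, hN y h x hxy.symm]
      obtain ⟨T, t1, t2, t3⟩ := exists_subsuperset_card_eq this
        (show ({x, y} : Finset V).card ≤ t by rw [card_pair hxy.ne]; omega) tC
      exact ⟨T, ⟨clq.subset t2, t3⟩, t1 (by simp), t1 (by simp)⟩
    · push Not at h
      obtain ⟨T, hT, h'⟩ := q1 x y ⟨hxy, h⟩
      exact ⟨T, hT.mono le, h'⟩
  · by_cases h : ∃ i < k, f i ∈ S
    · obtain ⟨i, hi, h⟩ := h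
      refine clq.subset fun z hz => ?_
      obtain ⟨j, hj, rfl⟩ := mem_image.1 hz
      rcases stay hf S w hwS (fun x hx y hxy => by
        by_cases e : y = w
        · exact Or.inr e
        · exact Or.inl (CS y (hN x hx y hxy) e).1) hi (mem_range.1 hj) h with h | h
      · exact hSC h
      · exact h ▸ hwC
    · push Not at h
      have := hf.1
      exact (q2 k f ⟨hf.1, hf.2.1, fun i hi => ⟨hf.2.2.1 i hi, h _ (by omega), h _ hi⟩,
        hf.2.2.2, h _ (by omega), h _ (by omega)⟩).mono le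

end Pool.Agent.H31.LocC
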