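import Pool.Agent.H31.LocC4

open Finset

namespace Pool.Agent.H31.LocC

variable {V : Type} [Fintype V] [DecidableEq V]

omit [Fintype V] in
theorem Q_adj {G : SimpleGraph V} {t : ℕ} (hQ : Q G t) {u v x y : V} (h1 : G.Adj u x) (h2 : G.Adj v x)
    (h3 : G.Adj u y) (h4 : G.Adj v y) (huv : u ≠ v) (hxy : x ≠ y) : G.Adj x y := by
  let f : ℕ → V := fun n => if n = 0 then u else if n = 1 then x else if n = 2 then v else y
  have := h1.ne; have := h2.ne; have := h3.ne; have := h4.ne
  have hc : IsCyc G 4 f := by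
    refine ⟨by norm_num, fun i hi j hj e => ?_, fun i hi => ?_, h3.symm⟩
    · have hi : i < 4 := hi
      have hj : j < 4 := hj
      interval_cases i <;> interval_cases j <;> simp_all [f]
    · have hi : i < 3 := by omega
      interval_cases i
      · exact h1
      · exact h2.symm
      · exact h4
  exact hQ.2 4 f hc (mem_coe.2 (mem_image.2 ⟨1, by simp, rfl⟩)) (mem_coe.2 (mem_image.2 ⟨3, by simp, rfl⟩)) hxy

theorem Q_eq (G : SimpleGraph V) [DecidableRel G.Adj] (t : ℕ) (h3 : 3 ≤ t) (hQ : Q G t) :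
    ∑ T ∈ G.cliqueFinset t, cw t (gam G T) = (PS G univ).card / 2 := by
  have s1 := dist G t (by omega) univ fun T => cw t (gam G T)
  rw [filter_true_of_mem] at s1
  swap
  · intro T hT
    rw [inter_univ, ← card_pos, (SimpleGraph.mem_cliqueFinset_iff.1 hT).card_eq]; omega
  rw [s1, sum_congr rfl (g := fun _ => (1 / 2 : ℝ))]
  · simp [div_eq_mul_inv]
  rintro ⟨u, v⟩ hp
  have huv : G.Adj u v := (mem_filter.1 hp).2.1
  set B : Finset V := {u, v} ∪ cn G u v with hB
  have memB : ∀ x, x ∈ B ↔ x = u ∨ x = v ∨ (G.Adj u x ∧ G.Adj v x) := fun x => by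
    simp [hB, cn]
  have clq : G.IsClique (B : Set V) := fun x hx y hy hxy => by
    rcases (memB x).1 hx with rfl | rfl | hx <;> rcases (memB y).1 hy with rfl | rfl | hy
    · exact absurd rfl hxy
    · exact huv
    · exact hy.1
    · exact huv.symm
    · exact absurd rfl hxy
    · exact hy.2
    · exact hx.1.symm
    · exact hx.2.symm
    · exact Q_adj hQ hx.1 hx.2 hy.1 hy.2 huv.ne hxy
  have sub : ∀ T : Finset V, G.IsClique (T : Set V) → u ∈ T → v ∈ T → T ⊆ B := fun T hT hu hv x hx => by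
    rw [memB]
    by_cases e1 : x = u
    · exact Or.inl e1
    by_cases e2 : x = v
    · exact Or.inr (Or.inl e2)
    exact Or.inr (Or.inr ⟨hT hu hx (Ne.symm e1), hT hv hx (Ne.symm e2)⟩)
  obtain ⟨T0, hT0, h0u, h0v⟩ := hQ.1 u v huv
  have tB : t ≤ B.card := hT0.card_eq ▸ card_le_card (sub T0 hT0.1 h0u h0v)
  have gB : ∀ T, G.IsNClique t T → u ∈ T → v ∈ T → gam G T = B.card := fun T hT hu hv => by
    refine le_antisymm (csSup_le' ?_) (gam_ge clq (by omega) (sub T hT.1 hu hv))
    rintro k ⟨f, hf, h⟩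
    have : ((range k).image f).card = k := by
      rw [card_image_of_injOn (by simpa using hf.2.1), card_range]
    exact this ▸ card_le_card (sub _ (hQ.2 k f hf) (h hu) (h hv))
  have e : ({T ∈ G.cliqueFinset t | u ∈ T ∧ v ∈ T} : Finset (Finset V)) =
      {T ∈ powersetCard t B | {u, v} ⊆ T} := by
    ext T
    simp only [mem_filter, SimpleGraph.mem_cliqueFinset_iff, mem_powersetCard, insert_subset_iff,
      singleton_subset_iff]
    exact ⟨fun h => ⟨⟨sub T h.1.1 h.2.1 h.2.2, h.1.2⟩, h.2⟩, fun h => ⟨⟨clq.subset h.1.1, h.1.2⟩, h.2⟩⟩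
  rw [sum_congr rfl (g := fun _ => cw t B.card / den t 0)]
  · rw [sum_const, e, card_filter_powersetCard_subset _ _ _ subset_union_left
      (by rw [card_pair huv.ne]; omega), card_pair huv.ne, cw_eq (by omega) tB, nsmul_eq_mul]
    have p2 : (0 : ℝ) < (B.card - 2).choose (t - 2) := by exact_mod_cast Nat.choose_pos (by omega)
    have := den_pos (t := t) (j := 0) (by omega) (by omega)
    rw [← hB]
    field_simp
    simp [den]
  · intro T hT
    obtain ⟨hT, h1⟩ := mem_filter.1 hT
    rw [gB T (SimpleGraph.mem_cliqueFinset_iff.1 hT) h1.1 h1.2, sdiff_eq_empty_iff_subset.2 (subset_univ _), card_empty]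

theorem PS_card (G : SimpleGraph V) [DecidableRel G.Adj] : (PS G univ).card = 2 * G.edgeFinset.card := by
  rw [← SimpleGraph.dart_card_eq_twice_card_edges, ← card_univ]
  refine (card_nbij (fun d => d.toProd) (fun d _ => ?_) (fun d _ d' _ e => SimpleGraph.Dart.ext _ _ e)
    fun p hp => ?_).symm
  · exact mem_coe.2 (mem_filter.2 ⟨mem_univ _, d.adj, Or.inl (mem_univ _)⟩)
  · exact ⟨⟨p, (mem_filter.1 hp).2.1⟩, by simp, rfl⟩

/-- The graph induced on `B` is connected and has no cut vertex. -/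
def NoCut (G : SimpleGraph V) (B : Set V) : Prop :=
  (G.induce B).Connected ∧ ∀ x ∈ B, (G.induce (B \ {x})).Preconnected

omit [Fintype V] [DecidableEq V] in
theorem pre_hub (G : SimpleGraph V) (Y : Set V) {u : V} (hu : u ∈ Y)
    (h : ∀ x ∈ Y, x = u ∨ G.Adj u x) : (G.induce Y).Preconnected := by
  have : ∀ x : Y, (G.induce Y).Reachable ⟨u, hu⟩ x := fun x => by
    rcases h x x.2 with e | e
    · rw [show x = ⟨u, hu⟩ from Subtype.ext e]
    · exact SimpleGraph.Adj.reachable e
  exact fun x y => (this x).symm.trans (this y)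

omit [Fintype V] [DecidableEq V] in
theorem nocut_two (G : SimpleGraph V) (Y : Set V) {u v : V} (hu : u ∈ Y) (hv : v ∈ Y) (huv : u ≠ v)
    (h : ∀ x ∈ Y, x = u ∨ G.Adj u x) (h' : ∀ x ∈ Y, x = v ∨ G.Adj v x) : NoCut G Y := by
  have : Nonempty Y := ⟨⟨u, hu⟩⟩
  refine ⟨⟨pre_hub G Y hu h⟩, fun x _ => ?_⟩
  by_cases e : u = x
  · exact pre_hub G _ (u := v) ⟨hv, fun e' => huv (e.trans e'.symm)⟩ fun y hy => h' y hy.1
  · exact pre_hub G _ (u := u) ⟨hu, e⟩ fun y hy => h y hy.1

omit [Fintype V] [DecidableEq V] in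
theorem pre_path (G : SimpleGraph V) (Y : Set V) (g : ℕ → V) (m : ℕ) (adj : ∀ n, G.Adj (g n) (g (n + 1)))
    (h : ∀ x, x ∈ Y ↔ ∃ n ≤ m, g n = x) : (G.induce Y).Preconnected := by
  have : ∀ n (hn : n ≤ m), (G.induce Y).Reachable ⟨g 0, (h _).2 ⟨0, by omega, rfl⟩⟩
      ⟨g n, (h _).2 ⟨n, hn, rfl⟩⟩ := by
    intro n
    induction n with
    | zero => exact fun _ => SimpleGraph.Reachable.refl _
    | succ n ih => exact fun hn => (ih (by omega)).trans (SimpleGraph.Adj.reachable (adj n))
  rintro ⟨x, hx⟩ ⟨y, hy⟩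
  obtain ⟨a, ha, rfl⟩ := (h x).1 hx
  obtain ⟨b, hb, rfl⟩ := (h y).1 hy
  exact (this a ha).symm.trans (this b hb)

omit [Fintype V] in
theorem nocut_cyc {G : SimpleGraph V} {k : ℕ} {f : ℕ → V} (h : IsCyc G k f) :
    NoCut G (((range k).image f : Finset V) : Set V) := by
  have k3 := h.1
  have : Nonempty (((range k).image f : Finset V) : Set V) :=
    ⟨⟨f 0, mem_coe.2 (mem_image_of_mem _ (mem_range.2 (by omega)))⟩⟩
  refine ⟨⟨pre_path G _ (fun n => f (n % k)) (k - 1) (cyc_per h) fun x => ?_⟩, fun z hz => ?_⟩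
  · simp only [coe_image, coe_range, Set.mem_image, Set.mem_Iio]
    constructor
    · rintro ⟨n, hn, rfl⟩; exact ⟨n, by omega, by rw [Nat.mod_eq_of_lt hn]⟩
    · rintro ⟨n, -, rfl⟩; exact ⟨_, Nat.mod_lt _ (by omega), rfl⟩
  · obtain ⟨i, hi, rfl⟩ := mem_image.1 hz
    have hi := mem_range.1 hi
    refine pre_path G _ (fun n => f ((i + 1 + n) % k)) (k - 2) (fun n => cyc_per h _) fun x => ?_
    simp only [coe_image, coe_range, Set.mem_sdiff, Set.mem_image, Set.mem_Iio, Set.mem_singleton_iff]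
    constructor
    · rintro ⟨⟨n, hn, rfl⟩, h'⟩
      have : n ≠ i := fun e => h' (by rw [e])
      by_cases l : i < n
      · exact ⟨n - i - 1, by omega, by rw [show i + 1 + (n - i - 1) = n by omega, Nat.mod_eq_of_lt hn]⟩
      · exact ⟨n + k - i - 1, by omega, by
          rw [show i + 1 + (n + k - i - 1) = n + k by omega, Nat.add_mod_right, Nat.mod_eq_of_lt hn]⟩
    · rintro ⟨n, hn, rfl⟩
      refine ⟨⟨_, Nat.mod_lt _ (by omega), rfl⟩, fun e => ?_⟩
      exact per_inj h (p := i) (q := i + 1 + n) (by omega) (by omega) (by rw [e, Nat.mod_eq_of_lt hi])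

theorem Q_iff (G : SimpleGraph V) (t : ℕ) (h3 : 3 ≤ t) : Q G t ↔
    ∀ B, Maximal (NoCut G) B → B.ncard = 1 ∨ (G.IsClique B ∧ t ≤ B.ncard) := by
  constructor
  · intro hQ B hB
    have tri : ∀ u x y : B, G.Adj u x → G.Adj x y → u = y ∨ G.Adj u y := by
      intro u x y h1 h2
      by_cases e : u = y
      · exact Or.inl e
      right
      obtain ⟨p, hp⟩ := (hB.1.2 x x.2 ⟨u, u.2, h1.ne⟩ ⟨y, y.2, h2.ne'⟩).exists_isPath
      have l0 : p.length ≠ 0 := fun h => e (Subtype.ext (congrArg Subtype.val (p.eq_of_length_eq_zero h) :))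
      let f : ℕ → V := fun n => if n ≤ p.length then (p.getVert n).1 else x
      have f0 : f 0 = u := by simp [f]
      have f1 : f p.length = y := by simp [f]
      have hc : IsCyc G (p.length + 2) f := by
        refine ⟨by omega, fun i hi j hj e => ?_, fun i hi => ?_, ?_⟩
        · have hi : i < p.length + 2 := hi
          have hj : j < p.length + 2 := hj
          by_cases a : i ≤ p.length <;> by_cases b : j ≤ p.length <;> simp only [f, a, b, if_true, if_false] at e
          · exact hp.getVert_injOn a b (Subtype.ext e)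
          · exact absurd e (p.getVert i).2.2
          · exact absurd e.symm (p.getVert j).2.2
          · omega
        · by_cases a : i < p.length
          · simp only [f, a.le, show i + 1 ≤ p.length from a, if_true]
            exact p.adj_getVert_succ a
          · rw [show i = p.length by omega, f1]
            simpa [f] using h2.symm
        · rw [f0]; simpa [f] using h1.symm
      have := hQ.2 _ f hc (mem_coe.2 (mem_image_of_mem f (show 0 ∈ range _ by simp)))
        (mem_coe.2 (mem_image_of_mem f (show p.length ∈ range _ by simp)))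
      rw [f0, f1] at this
      exact this fun e' => e (Subtype.ext e')
    have clq : G.IsClique B := by
      have : ∀ u y : B, (G.induce B).Reachable u y → u = y ∨ G.Adj u y := by
        intro u y h
        rw [SimpleGraph.reachable_iff_reflTransGen] at h
        induction h with
        | refl => exact Or.inl rfl
        | tail _ h ih =>
          rcases ih with rfl | ih
          · exact Or.inr h
          · exact tri _ _ _ ih h
      intro u hu y hy e
      exact (this ⟨u, hu⟩ ⟨y, hy⟩ (hB.1.1.preconnected _ _)).resolve_left fun h => e (congrArg Subtype.val h)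
    by_cases h1 : B.ncard = 1
    · exact Or.inl h1
    refine Or.inr ⟨clq, ?_⟩
    obtain ⟨⟨z, hz⟩⟩ := hB.1.1.nonempty
    have : 0 < B.ncard := (Set.ncard_pos (Set.toFinite _)).2 ⟨z, hz⟩
    obtain ⟨u, v, hu, hv, huv⟩ := (Set.one_lt_ncard_iff (Set.toFinite B)).1 (by omega)
    obtain ⟨T, hT, h1, h2⟩ := hQ.1 u v (clq hu hv huv)
    have hub : ∀ a, a ∈ B → a ∈ T → ∀ x ∈ B ∪ T, x = a ∨ G.Adj a x := fun a ha ha' x hx => by
      by_cases e : a = x
      · exact Or.inl e.symm
      · exact Or.inr (hx.elim (fun h => clq ha h e) fun h => hT.1 ha' h e)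
    have := hB.2 (nocut_two G (B ∪ T) (Or.inl hu) (Or.inl hv) huv (hub u hu h1) (hub v hv h2))
      Set.subset_union_left
    rw [← hT.card_eq, ← Set.ncard_coe_finset]
    exact Set.ncard_le_ncard (Set.subset_union_right.trans this)
  · intro h
    have blk : ∀ Y, NoCut G Y → ∀ u ∈ Y, ∀ v ∈ Y, u ≠ v →
        ∃ B, Y ⊆ B ∧ G.IsClique B ∧ t ≤ B.ncard := by
      intro Y hY u hu v hv huv
      obtain ⟨B, h1, h2⟩ := Finite.exists_le_maximal hY
      refine ⟨B, h1, (h B h2).resolve_left fun e => ?_⟩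
      have := (Set.one_lt_ncard_iff (Set.toFinite B)).2 ⟨u, v, h1 hu, h1 hv, huv⟩
      omega
    refine ⟨fun u v huv => ?_, fun k f hf => ?_⟩
    · obtain ⟨B, h1, h2, h4⟩ := blk {u, v} (nocut_two G _ (u := u) (v := v) (by simp) (by simp) huv.ne
        (by simp [huv]) (by simp [huv.symm])) u (by simp) v (by simp) huv.ne
      obtain ⟨T, t1, t2, t3⟩ := exists_subsuperset_card_eq (s := {u, v}) (t := (Set.toFinite B).toFinset)
        (n := t) (fun x hx => by simpa using h1 (by simpa using hx))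
        (by rw [card_pair huv.ne]; omega) (by rwa [← Set.ncard_eq_toFinset_card])
      exact ⟨T, ⟨h2.subset fun x hx => by simpa using t2 hx, t3⟩, t1 (by simp), t1 (by simp)⟩
    · have := hf.1
      obtain ⟨B, h1, h2, -⟩ := blk _ (nocut_cyc hf) (f 0)
        (mem_coe.2 (mem_image_of_mem _ (mem_range.2 (by omega)))) (f 1)
        (mem_coe.2 (mem_image_of_mem _ (mem_range.2 (by omega)))) (hf.2.2.1 0 (by omega)).ne
      exact h2.subset h1

end Pool.Agent.H31.LocC
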