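import Pool.Agent.H31.AccDefs

set_option autoImplicit false
open Finset Function Pool.Agent.H31.AccDefs

namespace Pool.Agent.H31.Lop

open Classical in
/-- Lopsided local lemma, counting form. -/
theorem lll {Ω ι : Type} [Fintype Ω] [Nonempty Ω] (I : Finset ι) (A : ι → Ω → Prop) (conf : ι → ι → Prop)
    (D : ℕ) (D0 : 0 < D) (lop : ∀ i ∈ I, ∀ S ⊆ I, (∀ j ∈ S, ¬conf i j) →
      4 * D * #(univ.filter fun ω => A i ω ∧ ∀ j ∈ S, ¬A j ω) ≤ #(univ.filter fun ω => ∀ j ∈ S, ¬A j ω))
    (deg : ∀ i ∈ I, #(I.filter (conf i)) ≤ D) : ∃ ω, ∀ i ∈ I, ¬A i ω := by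
  have key : ∀ S ⊆ I, ∀ i ∈ I, 2 * D * #(univ.filter fun ω => A i ω ∧ ∀ j ∈ S, ¬A j ω) ≤
      #(univ.filter fun ω => ∀ j ∈ S, ¬A j ω) := by
    intro S
    induction S using Finset.strongInduction with
    | _ S ih =>
      intro hS i hi
      by_cases c : ∀ j ∈ S, ¬conf i j
      · exact (Nat.mul_le_mul_right _ (by omega)).trans (lop i hi S hS c)
      obtain ⟨T, hT⟩ : ∃ T, T = S.filter fun j => ¬conf i j := ⟨_, rfl⟩
      have t1 : T ⊂ S := hT ▸ filter_ssubset.mpr (by simpa using c)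
      have a1 := lop i hi T (t1.1.trans hS) fun j hj => by rw [hT] at hj; exact (mem_filter.mp hj).2
      have a2 : #(univ.filter fun ω => A i ω ∧ ∀ j ∈ S, ¬A j ω) ≤
          #(univ.filter fun ω => A i ω ∧ ∀ j ∈ T, ¬A j ω) :=
        card_le_card (monotone_filter_right _ fun ω _ h => ⟨h.1, fun j hj => h.2 j (t1.1 hj)⟩)
      have a3 : #(univ.filter fun ω => ∀ j ∈ T, ¬A j ω) ≤ #(univ.filter fun ω => ∀ j ∈ S, ¬A j ω) +
          ∑ k ∈ S.filter (conf i), #(univ.filter fun ω => A k ω ∧ ∀ j ∈ T, ¬A j ω) := by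
        refine le_trans (card_le_card fun ω h => ?_) ((card_union_le _ _).trans (add_le_add_right card_biUnion_le _))
        simp only [mem_union, mem_filter, mem_univ, true_and, mem_biUnion] at h ⊢
        by_contra! c
        obtain ⟨⟨j, j1, j2⟩, c⟩ := c
        by_cases d : conf i j
        · obtain ⟨k, k1, k2⟩ := c j ⟨j1, d⟩ j2
          exact h k k1 k2
        · exact h j (hT ▸ mem_filter.mpr ⟨j1, d⟩) j2
      have a4 : 2 * D * ∑ k ∈ S.filter (conf i), #(univ.filter fun ω => A k ω ∧ ∀ j ∈ T, ¬A j ω) ≤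
          D * #(univ.filter fun ω => ∀ j ∈ T, ¬A j ω) := by
        rw [mul_sum]
        exact (sum_le_card_nsmul _ _ _ fun k hk => ih T t1 (t1.1.trans hS) k (hS (mem_filter.mp hk).1)).trans
          (Nat.mul_le_mul_right _ ((card_le_card (filter_subset_filter _ hS)).trans (deg i hi)))
      have a5 := Nat.le_of_mul_le_mul_left ((mul_assoc _ _ _).symm.le.trans (mul_comm 2 D ▸ a4)) D0
      nlinarith
  have pos : ∀ S ⊆ I, 0 < #(univ.filter fun ω => ∀ j ∈ S, ¬A j ω) := by
    intro S
    induction S using Finset.induction_on with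
    | empty => simp [Fintype.card_pos]
    | insert i S _ ih =>
      intro h
      have a := ih ((subset_insert _ _).trans h)
      have b := key S ((subset_insert _ _).trans h) i (h (mem_insert_self _ _))
      have c : #(univ.filter fun ω => ∀ j ∈ S, ¬A j ω) ≤ #(univ.filter fun ω => ∀ j ∈ insert i S, ¬A j ω) +
          #(univ.filter fun ω => A i ω ∧ ∀ j ∈ S, ¬A j ω) :=
        (card_le_card fun ω => by simp; tauto).trans (card_union_le _ _)
      nlinarith
  obtain ⟨ω, h⟩ := card_pos.mp (pos I Subset.rfl)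
  exact ⟨ω, (mem_filter.mp h).2⟩

theorem mv {α κ : Type} [Finite κ] {v w : κ → α} (hv : Injective v) (hw : Injective w) :
    ∃ π : Equiv.Perm α, (∀ k, π (v k) = w k) ∧ ∀ x, (∀ k, x ≠ v k) → π x = x ∨ ∃ k, π x = v k := by
  classical
  let U : α → Prop := fun x => (∃ k, x = v k) ∨ ∃ k, x = w k
  obtain ⟨σ, h⟩ := Equiv.Perm.exists_extending_pair (β := Subtype U) (f := fun k => ⟨v k, Or.inl ⟨k, rfl⟩⟩)
    (g := fun k => ⟨w k, Or.inr ⟨k, rfl⟩⟩) (fun a b e => hv (congrArg Subtype.val e))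
    fun a b e => hw (congrArg Subtype.val e)
  refine ⟨Equiv.Perm.ofSubtype σ, fun k => by
    rw [Equiv.Perm.ofSubtype_apply_of_mem σ (Or.inl ⟨k, rfl⟩), h], fun x hx => ?_⟩
  by_cases c : U x
  · rw [Equiv.Perm.ofSubtype_apply_of_mem σ c]
    refine Or.inr ((σ ⟨x, c⟩).2.resolve_right fun ⟨k, e⟩ => hx k ?_)
    exact congrArg Subtype.val (σ.injective ((Subtype.ext e).trans (h k).symm))
  · exact Or.inl (Equiv.Perm.ofSubtype_apply_of_not_mem σ c)

theorem main {n : ℕ} (hn : 6 ≤ n) {F : Finset (Finset (Fin n))} (h : Blocks F) :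
    ∃ a, n ^ 2 < 400000 * #(F.filter (a ∈ ·)) := by
  classical
  by_contra! c
  obtain ⟨d, hd, c⟩ : ∃ d, 400000 * d ≤ n ^ 2 ∧ ∀ a, #(F.filter (a ∈ ·)) ≤ d :=
    ⟨n ^ 2 / 400000, Nat.mul_div_le _ _, fun a => by have := c a; omega⟩
  let p : Fin n × Fin n → Fin 4 → Fin n := fun z => ![z.1, finRotate n z.1, z.2, finRotate n z.2]
  let W : Finset (Finset (Fin n)) → Finset (Fin 4 → Fin n) := fun G => univ.filter fun v => univ.image v ∈ G
  have cW : ∀ G ⊆ F, #(W G) ≤ #G * 256 := fun G hG => by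
    refine (card_le_card (t := G.biUnion fun X => Fintype.piFinset fun _ => X) fun v hv => ?_).trans
      (card_biUnion_le_card_mul _ _ _ fun X hX => by rw [Fintype.card_piFinset_const, h.1 X (hG hX)]; simp)
    exact mem_biUnion.mpr ⟨_, (mem_filter.mp hv).2, by simp⟩
  have cF : #F ≤ n * d := by
    refine (card_le_card (t := univ.biUnion fun a => F.filter (a ∈ ·)) fun X hX => ?_).trans
      ((card_biUnion_le_card_mul _ _ d fun a _ => c a).trans (by simp))
    obtain ⟨a, ha⟩ := card_pos.mp (show 0 < #X by rw [h.1 X hX]; omega)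
    exact mem_biUnion.mpr ⟨a, mem_univ _, mem_filter.mpr ⟨hX, ha⟩⟩
  have hP : n ^ 4 ≤ 16 * n.descFactorial 4 := by
    obtain ⟨m, rfl⟩ := Nat.exists_eq_add_of_le' hn
    simp only [Nat.descFactorial, show m + 6 - 3 = m + 3 from rfl, show m + 6 - 2 = m + 4 from rfl,
      show m + 6 - 1 = m + 5 from rfl, Nat.sub_zero]
    nlinarith [Nat.zero_le (m ^ 4), Nat.zero_le (m ^ 3), Nat.zero_le (m ^ 2)]
  refine Exists.elim (lll (Ω := Equiv.Perm (Fin n)) ((univ : Finset (Fin n × Fin n)) ×ˢ W F)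
    (fun e σ => ∀ k, σ (p e.1 k) = e.2 k) (fun e e' => ∃ k l, p e.1 k = p e'.1 l ∨ e.2 k = e'.2 l)
    (n.descFactorial 4 / 4) (by
      have : 6 ^ 4 ≤ n ^ 4 := Nat.pow_le_pow_left hn 4
      omega) (fun e he S _ hS => ?_) fun e _ => ?_) fun σ hσ => ?_
  rotate_right
  · refine h.2 σ fun i j _ hm => hσ ((i, j), fun k => σ (p (i, j) k)) ?_ fun _ => rfl
    refine mem_product.mpr ⟨mem_univ _, mem_filter.mpr ⟨mem_univ _, ?_⟩⟩
    convert hm using 1
    ext x; simp [p, Fin.exists_fin_succ]; tauto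
  · have vi : Injective e.2 := fun a b => injOn_of_card_image_eq
      ((h.1 _ (mem_filter.mp (mem_product.mp he).2).2).trans (by simp)) (mem_univ a) (mem_univ b)
    choose π p1 p2 using fun w : Fin 4 ↪ Fin n => mv vi w.injective
    refine le_trans (Nat.mul_le_mul_right _ (Nat.mul_div_le _ _)) ?_
    rw [show n.descFactorial 4 = #(univ : Finset (Fin 4 ↪ Fin n)) by simp, ← card_product]
    refine card_le_card_of_injOn (fun z => π z.1 * z.2) (fun z hz => ?_) fun z hz z' hz' q => ?_
    · simp only [coe_product, Set.mem_prod, coe_filter, mem_univ, true_and, Set.mem_setOf_eq] at hz ⊢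
      refine fun j hj a => hz.2.2 j hj fun l => ?_
      have b := hS j hj
      simp only [not_exists, not_or] at b
      rcases p2 z.1 (z.2 (p j.1 l)) fun k q => (b k l).1 (z.2.injective ((hz.2.1 k).trans q.symm)) with r | ⟨k, r⟩
      · exact r.symm.trans (a l)
      · exact ((b k l).2 (r.symm.trans (a l))).elim
    · simp only [coe_product, Set.mem_prod, coe_filter, mem_univ, true_and, Set.mem_setOf_eq] at hz hz'
      have a := hz.2.1
      have a' := hz'.2.1
      have : z.1 = z'.1 := Function.Embedding.ext fun k => by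
        have := DFunLike.congr_fun q (p e.1 k)
        simpa [a, a', p1] using this
      exact Prod.ext this (by simpa [this] using q)
  · let B : Finset (Fin n) := univ.image (p e.1) ∪ (univ.image (p e.1)).image (finRotate n).symm
    have cB : #B ≤ 8 := (card_union_le _ _).trans (add_le_add (card_image_le.trans (by simp))
      (card_image_le.trans (card_image_le.trans (by simp))) |>.trans (show 4 + 4 ≤ 8 from le_rfl))
    have mB : ∀ k x, p e.1 k = x ∨ p e.1 k = finRotate n x → x ∈ B := by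
      rintro k x (rfl | a)
      · exact mem_union_left _ (mem_image_of_mem _ (mem_univ k))
      · exact mem_union_right _ (mem_image.mpr ⟨_, mem_image_of_mem _ (mem_univ k), by rw [a, Equiv.symm_apply_apply]⟩)
    refine le_trans (card_le_card (t := ((B ×ˢ univ ∪ univ ×ˢ B) ×ˢ W F) ∪
      univ ×ˢ univ.biUnion fun k => W (F.filter (e.2 k ∈ ·))) fun z hz => ?_) ?_
    · simp only [mem_filter] at hz
      obtain ⟨z1, k, l, z2 | z2⟩ := hz
      · refine mem_union_left _ (mem_product.mpr ⟨?_, (mem_product.mp z1).2⟩)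
        simp only [mem_union, mem_product, mem_univ, true_and, and_true]
        fin_cases l
        exacts [Or.inl (mB k _ (Or.inl z2)), Or.inl (mB k _ (Or.inr z2)), Or.inr (mB k _ (Or.inl z2)),
          Or.inr (mB k _ (Or.inr z2))]
      · refine mem_union_right _ (mem_product.mpr ⟨mem_univ _, mem_biUnion.mpr ⟨k, mem_univ _, ?_⟩⟩)
        exact mem_filter.mpr ⟨mem_univ _, mem_filter.mpr ⟨(mem_filter.mp (mem_product.mp z1).2).2,
          z2 ▸ mem_image_of_mem _ (mem_univ l)⟩⟩
    · have a1 : #(B ×ˢ univ ∪ univ ×ˢ B : Finset (Fin n × Fin n)) ≤ 16 * n :=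
        (card_union_le _ _).trans (by simp only [card_product, card_univ, Fintype.card_fin]; nlinarith)
      have a2 := (cW F Subset.rfl).trans (Nat.mul_le_mul_right _ cF)
      have a3 : #(univ.biUnion fun k => W (F.filter (e.2 k ∈ ·))) ≤ 4 * (d * 256) :=
        (card_biUnion_le_card_mul _ _ _ fun k _ => (cW _ (filter_subset _ _)).trans
          (Nat.mul_le_mul_right _ (c _))).trans (by simp)
      refine (card_union_le _ _).trans ?_
      rw [card_product, card_product, card_univ, Fintype.card_prod, Fintype.card_fin,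
        Nat.le_div_iff_mul_le (by omega)]
      nlinarith [Nat.mul_le_mul a1 a2, Nat.mul_le_mul_left (n * n) a3, Nat.mul_le_mul_left (n * n) hd]

end Pool.Agent.H31.Lop
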