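import Mathlib

set_option autoImplicit false
set_option linter.unusedSectionVars false
open Matrix Finset ComplexConjugate Classical

namespace Pool.Agent.H31.Mag

variable {V : Type} [Fintype V] [DecidableEq V]

/-- A magnetic potential: unit complex numbers on oriented edges, conjugate under reversal. -/
def Pot (G : SimpleGraph V) (σ : V → V → ℂ) : Prop :=
  ∀ x y, G.Adj x y → ‖σ x y‖ = 1 ∧ σ y x = conj (σ x y)

/-- The matrix of the magnetic Laplacian. -/
noncomputable def lap (G : SimpleGraph V) (σ : V → V → ℂ) : Matrix V V ℂ :=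
  diagonal (fun x => ((G.neighborSet x).ncard : ℂ)) - of fun x y => if G.Adj x y then σ x y else 0

/-- The smallest eigenvalue of the magnetic Laplacian. -/
noncomputable def lam1 (G : SimpleGraph V) (σ : V → V → ℂ) : ℝ := sInf (spectrum ℝ (lap G σ))

/-- The magneto-spectral height. -/
noncomputable def nu (G : SimpleGraph V) : ℝ := sSup {t | ∃ σ, Pot G σ ∧ t = lam1 G σ}

theorem herm {G : SimpleGraph V} {σ : V → V → ℂ} (h : Pot G σ) : (lap G σ).IsHermitian := by
  refine IsHermitian.ext fun x y => ?_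
  by_cases a : G.Adj x y
  · simp [lap, a, a.symm, a.ne, a.ne', (h x y a).2]
  · by_cases e : x = y
    · simp [lap, e]
    · simp [lap, a, e, Ne.symm e, mt G.adj_symm a]

theorem ray {A : Matrix V V ℂ} (hA : A.IsHermitian) (x : V → ℂ) :
    sInf (spectrum ℝ A) * ∑ i, ‖x i‖ ^ 2 ≤ (star x ⬝ᵥ A *ᵥ x).re := by
  open ComplexOrder in
  have p : (A - algebraMap ℝ (Matrix V V ℂ) (sInf (spectrum ℝ A))).PosSemidef := by
    have hH : (A - algebraMap ℝ (Matrix V V ℂ) (sInf (spectrum ℝ A))).IsHermitian :=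
      hA.sub (by rw [Algebra.algebraMap_eq_smul_one]; exact isHermitian_one.smul (IsSelfAdjoint.all _))
    rw [hH.posSemidef_iff_eigenvalues_nonneg]
    intro i
    have := hH.eigenvalues_mem_spectrum_real i
    rw [← spectrum.sub_singleton_eq] at this
    obtain ⟨a, ha, b, rfl, e⟩ := this
    have := csInf_le A.finite_real_spectrum.bddBelow ha
    simp only [Pi.zero_apply, ← e, sub_nonneg, this]
  have := p.re_dotProduct_nonneg x
  rw [Algebra.algebraMap_eq_smul_one, sub_mulVec, smul_mulVec, one_mulVec, dotProduct_sub,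
    dotProduct_smul] at this
  have e : (star x ⬝ᵥ x).re = ∑ i, ‖x i‖ ^ 2 := by
    simp [dotProduct, Complex.sq_norm, Complex.normSq_apply]
  simp [e] at this
  exact this

theorem low [Nonempty V] {A : Matrix V V ℂ} (hA : A.IsHermitian) (c : ℝ)
    (h : ∀ x : V → ℂ, c * ∑ i, ‖x i‖ ^ 2 ≤ (star x ⬝ᵥ A *ᵥ x).re) : c ≤ sInf (spectrum ℝ A) := by
  rw [hA.spectrum_real_eq_range_eigenvalues]
  refine le_csInf (Set.range_nonempty _) ?_
  rintro _ ⟨i, rfl⟩
  have := h (hA.eigenvectorBasis i)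
  rw [← EuclideanSpace.norm_sq_eq, hA.eigenvectorBasis.orthonormal.1 i] at this
  rw [hA.eigenvalues_eq]
  simpa using this

theorem le_nu {G : SimpleGraph V} {σ : V → V → ℂ} (h : Pot G σ) : lam1 G σ ≤ nu G := by
  refine le_csSup ⟨Fintype.card V, ?_⟩ ⟨σ, h, rfl⟩
  rintro _ ⟨τ, hτ, rfl⟩
  rcases isEmpty_or_nonempty V with e | ⟨⟨v⟩⟩
  · simp [lam1, spectrum.of_subsingleton]
  have := ray (herm hτ) (Pi.single v 1)
  have b := Set.ncard_le_card (G.neighborSet v)
  simp [Pi.single_apply, apply_ite, lap] at this b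
  exact this.trans (by exact_mod_cast b)

theorem nu_le {G : SimpleGraph V} {c : ℝ} (h : ∀ σ, Pot G σ → lam1 G σ ≤ c) : nu G ≤ c :=
  csSup_le ⟨_, fun _ _ => 1, by simp [Pot], rfl⟩ fun _ ⟨σ, a, b⟩ => b ▸ h σ a

end Pool.Agent.H31.Mag
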