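import Mathlib
import Pool.Agent.H31.Mag

set_option autoImplicit false
set_option linter.unusedSectionVars false
open Matrix Finset ComplexConjugate

namespace Pool.Agent.H31.Mag

variable {V : Type} [Fintype V] [DecidableEq V]

theorem qf (G : SimpleGraph V) [DecidableRel G.Adj] (σ : V → V → ℂ) (f : V → ℂ) :
    (star f ⬝ᵥ lap G σ *ᵥ f).re = ∑ x, (G.degree x : ℝ) * ‖f x‖ ^ 2 -
      ∑ x, ∑ y, if G.Adj x y then (conj (f x) * σ x y * f y).re else 0 := by
  rw [lap, sub_mulVec, dotProduct_sub, Complex.sub_re]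
  simp only [dotProduct, mulVec_diagonal, Complex.re_sum]
  congr 1
  · refine sum_congr rfl fun x _ => ?_
    rw [← SimpleGraph.card_neighborSet_eq_degree, Set.fintypeCard_eq_ncard]
    simp [Complex.sq_norm, Complex.normSq_apply]; ring
  · simp only [mulVec, dotProduct, mul_sum, Complex.re_sum, of_apply]
    refine sum_congr rfl fun x _ => sum_congr rfl fun y _ => ?_
    by_cases h : G.Adj x y
    · rw [if_pos h, if_pos h, mul_assoc]; rfl
    · rw [if_neg h, if_neg h]; simp

theorem lap_real (G : SimpleGraph V) [DecidableRel G.Adj] (s : V → V → ℝ) (c : ℝ)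
    (h : ∀ x : V → ℝ, c * ∑ i, x i ^ 2 ≤ ∑ i, (G.degree i : ℝ) * x i ^ 2 -
      ∑ i, ∑ j, if G.Adj i j then x i * s i j * x j else 0) (f : V → ℂ) :
    c * ∑ i, ‖f i‖ ^ 2 ≤ (star f ⬝ᵥ lap G (fun i j => s i j) *ᵥ f).re := by
  have h1 := h fun i => (f i).re
  have h2 := h fun i => (f i).im
  have e : ∀ i j, (if G.Adj i j then (conj (f i) * s i j * f j).re else 0) =
      (if G.Adj i j then (f i).re * s i j * (f j).re else 0) +
        if G.Adj i j then (f i).im * s i j * (f j).im else 0 := fun i j => by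
    split_ifs <;> simp
  rw [qf]
  simp only [e, Complex.sq_norm, Complex.normSq_apply, mul_add, sum_add_distrib, ← sq]
  linarith

end Pool.Agent.H31.Mag
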