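import Mathlib
import Pool.Agent.H31.Mag2

set_option autoImplicit false
set_option linter.unusedSectionVars false
open Matrix Finset

namespace Pool.Agent.H31.Mag

variable {V : Type} [Fintype V] [DecidableEq V]

def cut (M : Matrix V V ℝ) (v : V) : Matrix V V ℝ :=
  fun x y => if x = v ∨ y = v then (if x = y then 1 else 0) else M x y

theorem sym {M : Matrix V V ℝ} (h : M.IsHermitian) (x y : V) : M x y = M y x := by
  simpa using h.apply y x

theorem cut_qf (M : Matrix V V ℝ) (v : V) (x : V → ℝ) : x ⬝ᵥ cut M v *ᵥ x =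
    (x - Pi.single v (x v)) ⬝ᵥ M *ᵥ (x - Pi.single v (x v)) + x v ^ 2 := by
  have : x v ^ 2 = ∑ i, ∑ j, if i = v ∧ j = v then x i * x j else 0 := by simp [ite_and, sq]
  simp only [this, dotProduct, mulVec, mul_sum, ← sum_add_distrib]
  refine sum_congr rfl fun i _ => sum_congr rfl fun j _ => ?_
  by_cases a : i = v <;> by_cases b : j = v <;> simp [cut, a, b, eq_comm (a := v)]

theorem cut_herm {M : Matrix V V ℝ} (h : M.IsHermitian) (v : V) : (cut M v).IsHermitian :=
  IsHermitian.ext fun x y => by simp [cut, or_comm, eq_comm, sym h x y]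

theorem cut_pd {M : Matrix V V ℝ} (h : M.PosDef) (v : V) : (cut M v).PosDef :=
  .of_dotProduct_mulVec_pos (cut_herm h.1 v) fun x hx => by
    rw [star_trivial, cut_qf]
    by_cases c : x v = 0
    · simpa [c] using h.dotProduct_mulVec_pos hx
    · exact add_pos_of_nonneg_of_pos (h.posSemidef.dotProduct_mulVec_nonneg _) (by positivity)

theorem schur {M : Matrix V V ℝ} (h : M.IsHermitian) (v : V) (hN : (cut M v).PosDef)
    (s : V → ℝ) (hs : ∀ x, s x = if x = v then 0 else M x v) (τ : ℝ)
    (hτ : τ = M v v - s ⬝ᵥ (cut M v)⁻¹ *ᵥ s) :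
    M.det = τ * (cut M v).det ∧ (0 < τ → M.PosDef) ∧ (M.PosDef → M⁻¹ v v * τ = 1) := by
  set N := cut M v
  set w := N⁻¹ *ᵥ s
  have u : IsUnit N.det := (isUnit_iff_isUnit_det _).mp hN.isUnit
  have w1 : N *ᵥ w = s := by rw [mulVec_mulVec, mul_nonsing_inv _ u, one_mulVec]
  have w2 : w v = 0 := by simpa [hs, N, cut, mulVec, dotProduct] using congrFun w1 v
  have w3 : M *ᵥ w = s + Pi.single v (s ⬝ᵥ w) := funext fun x => by
    by_cases a : x = v
    · simp only [a, hs, mulVec, dotProduct, Pi.add_apply, if_true, Pi.single_eq_same, zero_add]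
      exact sum_congr rfl fun y _ => by by_cases b : y = v <;> simp [b, w2, sym h v y]
    · simp only [← w1, mulVec, dotProduct, Pi.add_apply, Pi.single_eq_of_ne a, add_zero]
      exact sum_congr rfl fun y _ => by by_cases b : y = v <;> simp [N, cut, a, b, w2]
  have w4 : M *ᵥ (Pi.single v 1 - w) = Pi.single v τ := by
    rw [mulVec_sub, w3]
    funext x
    by_cases a : x = v <;> simp [a, hs, hτ]
  have d : ∀ a : V → ℝ, ∀ b : V → ℝ, (1 + vecMulVec a b).det = 1 + b ⬝ᵥ a := fun a b => by
    rw [vecMulVec_eq Unit, det_one_add_replicateCol_mul_replicateRow]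
  refine ⟨?_, fun t => .of_dotProduct_mulVec_pos h fun x hx => ?_, fun p => ?_⟩
  · have e : M * (1 + vecMulVec (-w) (Pi.single v 1)) = (1 + vecMulVec (Pi.single v 1) w) *
        (1 + vecMulVec (Pi.single v (τ - 1)) (Pi.single v 1)) * N := by
      have n1 : Pi.single v 1 ᵥ* N = Pi.single v 1 := funext fun y => by
        simp [N, cut, Pi.single_apply, eq_comm]
      have n2 : w ᵥ* N = s := by rw [← w1, ← mulVec_transpose, ← conjTranspose_eq_transpose_of_trivial, hN.1]
      simp only [mul_add, add_mul, mul_one, one_mul, mul_vecMulVec, vecMulVec_mul, n1, n2, mulVec_neg,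
        w3, vecMulVec_mulVec]
      ext x y
      by_cases a : x = v <;> by_cases b : y = v <;>
        simp [vecMulVec_apply, a, b, N, cut, hs, hτ, w2, sym h v, eq_comm (a := v)]
      ring
    have := congrArg det e
    simpa [d, w2, -neg_vecMulVec] using this
  · have e : x ⬝ᵥ M *ᵥ x = (x - x v • (Pi.single v 1 - w)) ⬝ᵥ N *ᵥ (x - x v • (Pi.single v 1 - w)) +
        τ * x v ^ 2 := by
      have c : ∀ a b, a ⬝ᵥ M *ᵥ b = b ⬝ᵥ M *ᵥ a := fun a b => by
        rw [dotProduct_mulVec, ← mulVec_transpose, ← conjTranspose_eq_transpose_of_trivial, h,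
          dotProduct_comm]
      rw [cut_qf]
      simp only [Pi.sub_apply, Pi.smul_apply, Pi.single_eq_same, w2, sub_zero, smul_eq_mul, mul_one,
        sub_self, Pi.single_zero]
      rw [mulVec_sub, sub_dotProduct, dotProduct_sub, dotProduct_sub, c (x v • _) x, mulVec_smul, w4]
      simp [w2]; ring
    rw [star_trivial, e]
    by_cases c : x v = 0
    · simpa [c] using hN.dotProduct_mulVec_pos hx
    · exact add_pos_of_nonneg_of_pos (hN.posSemidef.dotProduct_mulVec_nonneg _) (by positivity)
  · have := congrFun (congrArg (M⁻¹ *ᵥ ·) w4) v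
    simp only [mulVec_mulVec, nonsing_inv_mul _ ((isUnit_iff_isUnit_det _).mp p.isUnit),
      one_mulVec] at this
    simpa [w2] using this.symm

def sg (b : Bool) : ℝ := if b then 1 else -1

theorem avg (P : Matrix V V ℝ) (S : Finset V) : ∃ ε : V → Bool,
    (fun x => if x ∈ S then sg (ε x) else 0) ⬝ᵥ P *ᵥ (fun x => if x ∈ S then sg (ε x) else 0) ≤
      ∑ u ∈ S, P u u := by
  induction S using Finset.induction_on with
  | empty => exact ⟨fun _ => true, by simp [dotProduct]⟩
  | insert u S hu ih =>
    obtain ⟨ε, h⟩ := ih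
    have e : ∀ b, (fun x => if x ∈ insert u S then sg (Function.update ε u b x) else 0) =
        (fun x => if x ∈ S then sg (ε x) else 0) + Pi.single u (sg b) := fun b => funext fun x => by
      by_cases a : x = u <;> simp [a, hu]
    by_contra c
    push Not at c
    have c1 := c (Function.update ε u true)
    have c2 := c (Function.update ε u false)
    rw [e, sum_insert hu] at c1 c2
    generalize (fun x => if x ∈ S then sg (ε x) else 0) = y at *
    simp [mulVec_add, sg, Pi.single_neg, mulVec_neg] at c1 c2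
    linarith

variable (G : SimpleGraph V) [DecidableRel G.Adj]

def MM (c : ℝ) (W : Finset V) (s : V → V → Bool) : Matrix V V ℝ := fun x y =>
  if x ∈ W ∧ y ∈ W then (if x = y then G.degree x - c else if G.Adj x y then -sg (s x y) else 0)
  else if x = y then 1 else 0

theorem cut_MM (c : ℝ) (W : Finset V) (s : V → V → Bool) (v : V) :
    cut (MM G c W s) v = MM G c (W.erase v) s := by
  ext x y
  by_cases a : x = v <;> by_cases b : y = v <;> simp [cut, MM, a, b]

theorem maxdet (c : ℝ) (θ : ℕ → V → V → ℝ) (h0 : ∀ k u v, 0 < θ k u v)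
    (ha : ∀ k < Fintype.card V, ∀ v p, G.Adj v p →
      θ (k + 1) v p ≤ G.degree v - c - ∑ u ∈ (G.neighborFinset v).erase p, 1 / θ k u v)
    (hb : ∀ k < Fintype.card V, ∀ v, 0 < G.degree v - c - ∑ u ∈ G.neighborFinset v, 1 / θ k u v) :
    c ≤ nu G ∨ IsEmpty V := by
  classical
  let Ok := fun W (s : V → V → Bool) => (∀ x y, s x y = s y x) ∧ (MM G c W s).PosDef
  have key : ∀ W : Finset V, (∃ s, Ok W s) ∧ ∀ v ∈ W, ∀ p ∉ W, G.Adj v p → ∀ s', Ok (W.erase v) s' →
      ∃ s, Ok W s ∧ θ W.card v p * (MM G c (W.erase v) s').det ≤ (MM G c W s).det := by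
    intro W
    induction W using Finset.strongInduction with
    | H W ih =>
      have Q : ∀ v ∈ W, ∃ s, Ok W s ∧ ∀ s', Ok (W.erase v) s' → ∀ t, 0 ≤ t → t ≤ G.degree v - c -
          ∑ u ∈ G.neighborFinset v ∩ W, 1 / θ (W.erase v).card u v →
          t * (MM G c (W.erase v) s').det ≤ (MM G c W s).det := fun v hv => by
        obtain ⟨i1, i2⟩ := ih _ (erase_ssubset hv)
        obtain ⟨s0, m1, m2⟩ := exists_max_image (univ.filter (Ok (W.erase v)))
          (fun s => (MM G c (W.erase v) s).det) (i1.imp fun s h => by simpa using h)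
        simp only [mem_filter, mem_univ, true_and] at m1 m2
        obtain ⟨ε, hε⟩ := avg (MM G c (W.erase v) s0)⁻¹ (G.neighborFinset v ∩ W)
        let s1 : V → V → Bool := fun x y => if x = v then !ε y else if y = v then !ε x else s0 x y
        have q1 : ∀ x y, s1 x y = s1 y x := fun x y => by
          by_cases a : x = v <;> by_cases b : y = v <;> simp [s1, a, b, m1.1 x y]
        have q2 : cut (MM G c W s1) v = MM G c (W.erase v) s0 := by
          rw [cut_MM]; ext x y
          by_cases a : x = v <;> by_cases b : y = v <;> simp [MM, a, b, s1]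
        have q3 : (MM G c W s1).IsHermitian := IsHermitian.ext fun x y => by
          by_cases a : x = y
          · simp [a]
          · simp [MM, a, Ne.symm a, and_comm, G.adj_comm x, q1 x y]
        obtain ⟨r1, r2, -⟩ := schur q3 v (q2 ▸ m1.2)
          (fun x => if x ∈ G.neighborFinset v ∩ W then sg (ε x) else 0) (fun x => by
            by_cases a : x = v
            · simp [a]
            · by_cases b : x ∈ W <;> by_cases d : G.Adj x v <;> cases e : ε x <;>
                simp [MM, a, b, d, e, hv, s1, sg, G.adj_comm v]) _ rfl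
        rw [q2] at r1 r2
        have r3 : ∑ u ∈ G.neighborFinset v ∩ W, (MM G c (W.erase v) s0)⁻¹ u u ≤
            ∑ u ∈ G.neighborFinset v ∩ W, 1 / θ (W.erase v).card u v := sum_le_sum fun u hu => by
          simp only [mem_inter, SimpleGraph.mem_neighborFinset] at hu
          have pc := cut_pd m1.2 u
          obtain ⟨t1, -, t2⟩ := schur m1.2.1 u pc _ (fun _ => rfl) _ rfl
          rw [cut_MM] at pc t1 t2
          obtain ⟨s, t3, t4⟩ := i2 u (by simp [hu.1.ne', hu.2]) v (by simp) hu.1.symm s0 ⟨m1.1, pc⟩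
          have t6 := le_of_mul_le_mul_right ((t4.trans (m2 s t3)).trans_eq t1) pc.det_pos
          rw [le_div_iff₀ (h0 _ _ _), ← t2 m1.2]
          exact mul_le_mul_of_nonneg_left t6 m1.2.inv.diag_pos.le
        have r4 : MM G c W s1 v v = G.degree v - c := by simp [MM, hv]
        have r5 := hb _ ((card_erase_lt_of_mem hv).trans_le (card_le_univ _)) v
        have r6 : ∑ u ∈ G.neighborFinset v ∩ W, 1 / θ (W.erase v).card u v ≤ _ :=
          sum_le_sum_of_subset_of_nonneg inter_subset_left fun u _ _ => (one_div_pos.mpr (h0 _ _ _)).le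
        refine ⟨s1, ⟨q1, r2 (by linarith)⟩, fun s' h t t0 ht => ?_⟩
        rw [r1]
        exact mul_le_mul (by linarith) (m2 s' h) h.2.det_pos.le (by linarith)
      constructor
      · rcases W.eq_empty_or_nonempty with rfl | ⟨v, hv⟩
        · exact ⟨fun _ _ => true, fun _ _ => rfl, by
            rw [show MM G c ∅ (fun _ _ => true) = 1 by ext; simp [MM, one_apply]]; exact .one⟩
        · exact (Q v hv).imp fun _ h => h.1
      · intro v hv p hp a s' h
        obtain ⟨s, h1, h2⟩ := Q v hv
        refine ⟨s, h1, h2 s' h _ (h0 _ _ _).le ?_⟩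
        rw [← card_erase_add_one hv]
        refine (ha _ ((card_erase_lt_of_mem hv).trans_le (card_le_univ _)) v p a).trans ?_
        gcongr
        · exact fun u _ _ => (one_div_pos.mpr (h0 _ _ _)).le
        · exact fun u hu => mem_erase.mpr ⟨fun e => hp (e ▸ (mem_inter.mp hu).2), (mem_inter.mp hu).1⟩
  rcases isEmpty_or_nonempty V with e | e
  · exact Or.inr e
  obtain ⟨s, h1, h2⟩ := (key univ).1
  have p : Pot G fun x y => sg (s x y) := fun x y _ => by
    simp only [h1 y x]; cases s x y <;> simp [sg]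
  refine Or.inl ((low (herm p) _ (lap_real G _ _ fun x => ?_)).trans (le_nu p))
  have := h2.posSemidef.dotProduct_mulVec_nonneg x
  have e : ∀ i j, x i * (MM G c univ s i j * x j) = (if i = j then (G.degree i - c) * x i ^ 2 else 0) -
      if G.Adj i j then x i * sg (s i j) * x j else 0 := fun i j => by
    by_cases a : i = j
    · simp [MM, a]; ring
    · by_cases b : G.Adj i j <;> simp [MM, a, b, mul_assoc]
  simp only [star_trivial, dotProduct, mulVec, mul_sum, e, sum_sub_distrib, sum_ite_eq, mem_univ,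
    if_true, sub_mul] at this ⊢
  linarith

theorem mindeg [Nonempty V] (d : ℕ) (hd : 3 ≤ d) (h : ∀ v, d ≤ G.degree v) :
    d - 2 * √(d - 1) ≤ nu G := by
  have d3 : (3 : ℝ) ≤ d := by exact_mod_cast hd
  have q := Real.mul_self_sqrt (show (0 : ℝ) ≤ d - 1 by linarith)
  have r : 1.4 ≤ √((d : ℝ) - 1) := Real.le_sqrt_of_sq_le (by linarith)
  generalize √((d : ℝ) - 1) = t at *
  have t0 : 0 < t := by linarith
  refine (maxdet G _ (fun _ _ _ => t) (fun _ _ _ => t0) (fun _ _ v p a => ?_)
    fun _ _ v => ?_).resolve_right (not_isEmpty_of_nonempty V)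
  · have : (d : ℝ) ≤ G.degree v := by exact_mod_cast h v
    rw [sum_const, card_erase_of_mem (by simpa using a), SimpleGraph.card_neighborFinset_eq_degree,
      nsmul_eq_mul, Nat.cast_pred (by have := h v; omega), le_sub_comm, mul_one_div, div_le_iff₀ t0]
    nlinarith
  · have : (d : ℝ) ≤ G.degree v := by exact_mod_cast h v
    rw [sum_const, SimpleGraph.card_neighborFinset_eq_degree,
      nsmul_eq_mul, sub_pos, mul_one_div, div_lt_iff₀ t0]
    nlinarith

end Pool.Agent.H31.Mag
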