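import Mathlib

set_option autoImplicit false
open Finset

namespace Pool.Agent.H31.Nice

/-- An oriented graph on Fin n: an asymmetric arc relation (no loops, no directed 2-cycles). -/
structure OG where
  n : ℕ
  r : Fin n → Fin n → Prop
  asymm : ∀ x y, r x y → ¬ r y x

/-- The underlying undirected graph. -/
def OG.und (D : OG) : SimpleGraph (Fin D.n) := SimpleGraph.fromRel D.r

def OG.IsTournament (D : OG) : Prop := ∀ x y, x ≠ y → D.r x y ∨ D.r y x

def OG.IsForest (D : OG) : Prop := D.und.IsAcyclic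

/-- The arcs of D have a k-colouring (arc x to y gets colour c x y) in which no colour class
contains a copy of a member of the family. -/
def Free (S : Set OG) (k : ℕ) (D : OG) : Prop :=
  ∃ c : Fin D.n → Fin D.n → Fin k, ∀ F ∈ S, ∀ j : Fin k,
    ¬ ∃ f : Fin F.n ↪ Fin D.n, ∀ a b, F.r a b → D.r (f a) (f b) ∧ c (f a) (f b) = j

noncomputable def p (S : Set OG) (k : ℕ) : ℕ∞ :=
  ⨆ (D : OG) (_ : D.IsTournament ∧ Free S k D), (D.n : ℕ∞)

noncomputable def q (S : Set OG) (k : ℕ) : ℕ∞ :=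
  ⨆ (D : OG) (_ : Free S k D), D.und.chromaticNumber

def IsNice (S : Set OG) (k : ℕ) : Prop := p S k = q S k

def P3 : OG := ⟨3, fun a b => b.val = a.val + 1, fun _ _ _ _ => by omega⟩

def C4 : OG := ⟨4, fun a b => a.val < 2 ∧ 2 ≤ b.val, fun _ _ _ _ => by omega⟩

theorem P3_forest : P3.IsForest := by
  have : P3.und = SimpleGraph.pathGraph 3 := by
    ext a b
    simp only [OG.und, P3, SimpleGraph.fromRel_adj, SimpleGraph.pathGraph_adj, Ne, Fin.ext_iff]
    omega
  unfold OG.IsForest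
  rw [this]
  refine (SimpleGraph.isTree_iff_connected_and_card.mpr
    ⟨SimpleGraph.pathGraph_connected 2, ?_⟩).isAcyclic
  have : (SimpleGraph.pathGraph 3).edgeSet = {s(0, 1), s(1, 2)} := by
    ext e
    induction e using Sym2.ind with
    | _ a b => fin_cases a <;> fin_cases b <;> simp [SimpleGraph.pathGraph_adj]
  rw [this, Nat.card_coe_set_eq, Set.ncard_pair (by decide)]
  simp

def NoC4 {V : Type} (G : SimpleGraph V) : Prop :=
  ∀ a b c d, a ≠ b → c ≠ d → G.Adj a c → G.Adj a d → G.Adj b c → G.Adj b d → False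

theorem descartes (t : ℕ) : ∃ (V : Type) (_ : Fintype V) (G : SimpleGraph V),
    G.Colorable (t + 1) ∧ ¬ G.Colorable t ∧ NoC4 G := by
  classical
  induction t with
  | zero =>
    refine ⟨Unit, inferInstance, ⊥, ⟨SimpleGraph.Coloring.mk (fun _ => 0) (by simp)⟩, ?_, ?_⟩
    · rintro ⟨c⟩; exact (c ()).elim0
    · intro a b c d _ _ h; exact absurd h (by simp)
  | succ t ih =>
    obtain ⟨V, _, G, ⟨c1⟩, h2, h3⟩ := ih
    let S := Fin ((t + 1) * Fintype.card V)
    let H : SimpleGraph (S ⊕ ((V ↪ S) × V)) :=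
      { Adj := fun x y => match x, y with
          | .inl _, .inl _ => False
          | .inl s, .inr y => y.1 y.2 = s
          | .inr x, .inl s => x.1 x.2 = s
          | .inr x, .inr y => x.1 = y.1 ∧ G.Adj x.2 y.2
        symm := ⟨by
          rintro (x | x) (y | y) h
          · exact h
          · exact h
          · exact h
          · exact ⟨h.1.symm, h.2.symm⟩⟩
        loopless := ⟨by
          rintro (x | x) h
          · exact h
          · exact h.2.ne rfl⟩ }
    refine ⟨S ⊕ ((V ↪ S) × V), inferInstance, H, ⟨SimpleGraph.Coloring.mk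
      (Sum.elim (fun _ => Fin.last _) (fun x => (c1 x.2).castSucc)) ?_⟩, ?_, ?_⟩
    · rintro (x | x) (y | y) h
      · exact h.elim
      · exact (Fin.castSucc_ne_last _).symm
      · exact Fin.castSucc_ne_last _
      · exact fun e => c1.valid h.2 (Fin.castSucc_injective _ e)
    · rintro ⟨c⟩
      obtain ⟨i, _, hi⟩ := exists_le_card_fiber_of_mul_le_card_of_maps_to
        (s := (univ : Finset S)) (t := (univ : Finset (Fin (t + 1)))) (f := fun s => c (.inl s))
        (n := Fintype.card V) (fun _ _ => mem_univ _) univ_nonempty (by simp [S])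
      obtain ⟨e⟩ : Nonempty (V ↪ (univ.filter fun s : S => c (.inl s) = i)) :=
        Function.Embedding.nonempty_of_card_le (by simpa [Fintype.card_subtype] using hi)
      let g : V ↪ S := e.trans (Function.Embedding.subtype _)
      have hne : ∀ v, c (.inr (g, v)) ≠ i := by
        intro v h
        have h1 : c (.inl (g v)) = i := (mem_filter.mp (e v).2).2
        exact c.valid (show H.Adj (.inl (g v)) (.inr (g, v)) from rfl) (h1.trans h.symm)
      choose d hd using fun v => Fin.exists_succAbove_eq (hne v)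
      refine h2 ⟨SimpleGraph.Coloring.mk d fun {v w} h e => ?_⟩
      exact c.valid (show H.Adj (.inr (g, v)) (.inr (g, w)) from ⟨rfl, h⟩)
        (by rw [← hd, ← hd, e])
    · have key : ∀ (s : S) (x y : (V ↪ S) × V), x.1 x.2 = s → y.1 y.2 = s → x.1 = y.1 → x = y := by
        rintro s ⟨f, v⟩ ⟨g, w⟩ h1 h2 h3
        simp only at h1 h2 h3
        subst h3
        rw [f.injective (h1.trans h2.symm)]
      rintro (a | a) (b | b) (c | c) (d | d) hab hcd h4 h5 h6 h7
      all_goals first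
        | exact h4.elim
        | exact h5.elim
        | exact h6.elim
        | exact h7.elim
        | exact hab (congrArg Sum.inl (Eq.trans (Eq.symm h4) h6))
        | exact hcd (congrArg Sum.inl (Eq.trans (Eq.symm h4) h5))
        | exact hcd (congrArg Sum.inr (key _ _ _ h4 h5 (h6.1.symm.trans h7.1)))
        | exact hcd (congrArg Sum.inr (key _ _ _ h6 h7 (h4.1.symm.trans h5.1)))
        | exact hab (congrArg Sum.inr (key _ _ _ h4 h6 (h5.1.trans h7.1.symm)))
        | exact hab (congrArg Sum.inr (key _ _ _ h5 h7 (h4.1.trans h6.1.symm)))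
        | exact h3 a.2 b.2 c.2 d.2
            (fun e => hab (congrArg Sum.inr (Prod.ext (h4.1.trans h6.1.symm) e)))
            (fun e => hcd (congrArg Sum.inr (Prod.ext (h4.1.symm.trans h5.1) e)))
            h4.2 h5.2 h6.2 h7.2

theorem q_ge (k t : ℕ) (hk : 1 ≤ k) (ht : t + 1 ≤ 2 ^ k) : (t : ℕ∞) < q {P3, C4} k := by
  classical
  obtain ⟨V, _, G, h1, h2, h3⟩ := descartes t
  let e : Fin (Fintype.card V) ≃ V := (Fintype.equivFin V).symm
  obtain ⟨c0⟩ := h1
  obtain ⟨ι⟩ : Nonempty (Fin (t + 1) ↪ (Fin k → Bool)) :=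
    Function.Embedding.nonempty_of_card_le (by simpa using ht)
  have : ∀ u v : V, ∃ j : Fin k, G.Adj u v → ι (c0 u) j ≠ ι (c0 v) j := by
    intro u v
    by_cases h : G.Adj u v
    · obtain ⟨j, hj⟩ := Function.ne_iff.mp (fun e => c0.valid h (ι.injective e))
      exact ⟨j, fun _ => hj⟩
    · exact ⟨⟨0, hk⟩, fun e => absurd e h⟩
  choose col hcol using this
  let cc : Fin (Fintype.card V) → Fin (Fintype.card V) → Fin k := fun x y =>
    col (e (min x y)) (e (max x y))
  have hs : ∀ x y, cc x y = cc y x := fun x y => by simp only [cc, min_comm, max_comm]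
  have hcc : ∀ x y, G.Adj (e x) (e y) → ι (c0 (e x)) (cc x y) ≠ ι (c0 (e y)) (cc x y) := by
    intro x y h
    rcases le_total x y with h4 | h4
    · simp only [cc, min_eq_left h4, max_eq_right h4]; exact hcol _ _ h
    · simp only [cc, min_eq_right h4, max_eq_left h4]; exact (hcol _ _ h.symm).symm
  let D : OG := ⟨Fintype.card V, fun x y => G.Adj (e x) (e y) ∧ ι (c0 (e x)) (cc x y) = false, by
    intro x y a b
    exact hcc x y a.1 (by rw [a.2, hs, b.2])⟩
  have hD : Free {P3, C4} k D := by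
    refine ⟨cc, ?_⟩
    rintro F (rfl | rfl) j ⟨f, hf⟩
    · obtain ⟨⟨a1, a2⟩, a3⟩ := hf (0 : Fin 3) (1 : Fin 3) rfl
      obtain ⟨⟨_, b2⟩, b3⟩ := hf (1 : Fin 3) (2 : Fin 3) rfl
      exact hcc _ _ a1 (by rw [a2, a3, ← b3, b2])
    · exact h3 (e (f (0 : Fin 4))) (e (f (1 : Fin 4))) (e (f (2 : Fin 4))) (e (f (3 : Fin 4)))
        (fun h => absurd (f.injective (e.injective h)) (by decide))
        (fun h => absurd (f.injective (e.injective h)) (by decide))
        (hf _ _ ⟨by decide, by decide⟩).1.1 (hf _ _ ⟨by decide, by decide⟩).1.1 (hf _ _ ⟨by decide, by decide⟩).1.1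
        (hf _ _ ⟨by decide, by decide⟩).1.1
  refine lt_of_lt_of_le ?_ (le_iSup₂_of_le (f := fun (D : OG) (_ : Free {P3, C4} k D) =>
    D.und.chromaticNumber) D hD le_rfl)
  by_contra h
  obtain ⟨c⟩ := SimpleGraph.chromaticNumber_le_iff_colorable.mp (not_lt.mp h)
  refine h2 ⟨SimpleGraph.Coloring.mk (fun v => c (e.symm v)) fun {v w} h => c.valid ?_⟩
  have h4 : G.Adj (e (e.symm v)) (e (e.symm w)) := by simpa using h
  refine ⟨fun h5 => h.ne (e.symm.injective h5), ?_⟩
  have h5 := hcc _ _ h4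
  cases h6 : ι (c0 (e (e.symm v))) (cc (e.symm v) (e.symm w))
  · exact Or.inl ⟨h4, h6⟩
  · refine Or.inr ⟨h4.symm, ?_⟩
    rw [h6, hs] at h5
    simpa using h5.symm

theorem p_le (k : ℕ) : p {P3, C4} k ≤ ((k + 1 + k * (k + 1) ^ 2 : ℕ) : ℕ∞) := by
  classical
  refine iSup₂_le ?_
  rintro ⟨n, r, hr⟩ ⟨hT, c, hc⟩
  simp only [Nat.cast_le]
  by_contra hn
  have irr : ∀ x, ¬ r x x := fun x h => hr x x h h
  have p3 : ∀ x y z, r x y → r y z → c x y ≠ c y z := by
    intro x y z h1 h2 e
    have hxz : x ≠ z := fun h => hr _ _ h1 (h ▸ h2)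
    have hxy : x ≠ y := fun h => irr _ (h ▸ h1)
    have hyz : y ≠ z := fun h => irr _ (h ▸ h2)
    have i1 : Function.Injective (![x, y, z] : Fin 3 → Fin n) := by
      clear hc; intro a b; fin_cases a <;> fin_cases b <;> simp_all [eq_comm]
    have i2 : ∀ a b : Fin 3, b.val = a.val + 1 → r (![x, y, z] a) (![x, y, z] b) ∧
        c (![x, y, z] a) (![x, y, z] b) = c x y := by
      intro a b; fin_cases a <;> fin_cases b <;> simp [h1, h2, e]
    exact hc P3 (Or.inl rfl) (c x y) ⟨⟨_, i1⟩, i2⟩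
  have c4 : ∀ x y z w j, x ≠ y → z ≠ w → r x z → r x w → r y z → r y w → c x z = j → c x w = j →
      c y z = j → c y w = j → False := by
    intro x y z w j h1 h2 a1 a2 a3 a4 b1 b2 b3 b4
    have : x ≠ z := fun h => irr _ (h ▸ a1)
    have : x ≠ w := fun h => irr _ (h ▸ a2)
    have : y ≠ z := fun h => irr _ (h ▸ a3)
    have : y ≠ w := fun h => irr _ (h ▸ a4)
    have i1 : Function.Injective (![x, y, z, w] : Fin 4 → Fin n) := by
      clear hc; intro a b; fin_cases a <;> fin_cases b <;> simp_all [eq_comm]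
    have i2 : ∀ a b : Fin 4, (a.val < 2 ∧ 2 ≤ b.val) → r (![x, y, z, w] a) (![x, y, z, w] b) ∧
        c (![x, y, z, w] a) (![x, y, z, w] b) = j := by
      intro a b; fin_cases a <;> fin_cases b <;> simp [a1, a2, a3, a4, b1, b2, b3, b4]
    exact hc C4 (Or.inr rfl) j ⟨⟨_, i1⟩, i2⟩
  obtain ⟨T, _, hTc⟩ := exists_subset_card_eq (s := (univ : Finset (Fin n))) (n := k + 1)
    (by simp; omega)
  let E : Fin n → Fin n → Fin k → Prop := fun v x j => (r v x ∧ c v x = j) ∨ (r x v ∧ c x v = j)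
  have : ∀ v : Fin n, ∃ z : Fin k × T × T, v ∉ T → z.2.1 ≠ z.2.2 ∧ E v z.2.1 z.1 ∧
      E v z.2.2 z.1 := by
    intro v
    obtain ⟨x, y, hxy, h⟩ := Fintype.exists_ne_map_eq_of_card_lt
      (fun x : T => if r v x then c v x else c x v) (by simp [hTc])
    refine ⟨(if r v x then c v x else c x v, x, y), fun hv => ⟨hxy, ?_, ?_⟩⟩
    · by_cases h1 : r v x
      · exact Or.inl ⟨h1, by simp [h1]⟩
      · exact Or.inr ⟨(hT v x (fun e => hv (e ▸ x.2))).resolve_left h1, by simp [h1]⟩
    · by_cases h1 : r v y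
      · exact Or.inl ⟨h1, by rw [h]; simp [h1]⟩
      · exact Or.inr ⟨(hT v y (fun e => hv (e ▸ y.2))).resolve_left h1, by rw [h]; simp [h1]⟩
  choose z hz using this
  have := card_le_card_of_injOn (s := univ \ T) (t := univ) z (fun _ _ => mem_univ _) (by
    intro v hv w hw e
    by_contra hvw
    obtain ⟨h0, h1, h2⟩ := hz v (by simpa using hv)
    obtain ⟨_, h3, h4⟩ := hz w (by simpa using hw)
    rw [← e] at h3 h4
    have h0' : ((z v).2.1 : Fin n) ≠ (z v).2.2 := fun e => h0 (Subtype.ext e)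
    rcases h1 with h1 | h1 <;> rcases h2 with h2 | h2 <;> rcases h3 with h3 | h3 <;>
      rcases h4 with h4 | h4
    all_goals first
      | exact c4 _ _ _ _ _ hvw h0' h1.1 h2.1 h3.1 h4.1 h1.2 h2.2 h3.2 h4.2
      | exact c4 _ _ _ _ _ h0' hvw h1.1 h3.1 h2.1 h4.1 h1.2 h3.2 h2.2 h4.2
      | exact p3 _ _ _ h2.1 h1.1 (h2.2.trans h1.2.symm)
      | exact p3 _ _ _ h1.1 h2.1 (h1.2.trans h2.2.symm)
      | exact p3 _ _ _ h1.1 h3.1 (h1.2.trans h3.2.symm)
      | exact p3 _ _ _ h3.1 h1.1 (h3.2.trans h1.2.symm)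
      | exact p3 _ _ _ h2.1 h4.1 (h2.2.trans h4.2.symm)
      | exact p3 _ _ _ h4.1 h2.1 (h4.2.trans h2.2.symm))
  rw [card_sdiff_of_subset (subset_univ _)] at this
  simp only [card_univ, Fintype.card_fin, Fintype.card_prod, Fintype.card_coe, hTc] at this
  rw [sq] at hn
  omega

theorem not_nice (k : ℕ) (hk : 11 ≤ k) : ¬ IsNice {P3, C4} k := by
  have h : k + 1 + k * (k + 1) ^ 2 + 1 ≤ 2 ^ k := by
    induction k, hk using Nat.le_induction with
    | base => norm_num
    | succ k h ih => rw [pow_succ 2]; nlinarith [Nat.mul_le_mul h h]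
  exact ((p_le k).trans_lt (q_ge k _ (by omega) h)).ne

end Pool.Agent.H31.Nice
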