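import Mathlib

open scoped Pointwise
open Finset

namespace Pool.Agent.H31.OPH

/-- an integer point seen as a real point -/
def rp {ι : Type} (y : ι → ℤ) : ι → ℝ := fun i => (y i : ℝ)

/-- convex hull of finitely many integer points -/
def poly {ι : Type} (V : Finset (ι → ℤ)) : Set (ι → ℝ) := convexHull ℝ (rp '' (V : Set (ι → ℤ)))

/-- integer points of the dilate `n P` -/
def pts {ι : Type} (P : Set (ι → ℝ)) (n : ℕ) : Set (ι → ℤ) := {y | rp y ∈ (n : ℝ) • P}

/-- cone membership -/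
def kc {ι : Type} (P : Set (ι → ℝ)) (r : ℝ) (y : ι → ℝ) : Prop := 0 ≤ r ∧ y ∈ r • P

section cone
variable {ι : Type} {P : Set (ι → ℝ)}

theorem kc_add (hP : Convex ℝ P) {r s : ℝ} {y z : ι → ℝ} (h1 : kc P r y) (h2 : kc P s z) :
    kc P (r + s) (y + z) := by
  refine ⟨add_nonneg h1.1 h2.1, ?_⟩
  rw [hP.add_smul h1.1 h2.1]
  exact Set.add_mem_add h1.2 h2.2

theorem kc_smul {r c : ℝ} {y : ι → ℝ} (hc : 0 ≤ c) (h1 : kc P r y) : kc P (c * r) (c • y) := by
  refine ⟨mul_nonneg hc h1.1, ?_⟩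
  obtain ⟨w, hw, rfl⟩ := h1.2
  exact ⟨w, hw, by simp [mul_smul]⟩

theorem kc_mem {r : ℝ} {w : ι → ℝ} (hr : 0 ≤ r) (hw : w ∈ P) : kc P r (r • w) :=
  ⟨hr, ⟨w, hw, rfl⟩⟩

theorem kc_one {w : ι → ℝ} : kc P 1 w ↔ w ∈ P := by simp [kc]

theorem kc_mono (hP : Convex ℝ P) (h0 : (0 : ι → ℝ) ∈ P) {r s : ℝ} {y : ι → ℝ} (hrs : r ≤ s)
    (h1 : kc P r y) : kc P s y := by
  have := kc_add hP h1 (kc_mem (sub_nonneg.2 hrs) h0)
  simpa using this
end cone

theorem poly_convex {ι : Type} (V : Finset (ι → ℤ)) : Convex ℝ (poly V) := convex_convexHull _ _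

theorem mem_poly {ι : Type} {V : Finset (ι → ℤ)} {v : ι → ℤ} (hv : v ∈ V) : rp v ∈ poly V :=
  subset_convexHull _ _ ⟨v, hv, rfl⟩

theorem zero_mem_poly {ι : Type} {V : Finset (ι → ℤ)} (hv : (0 : ι → ℤ) ∈ V) :
    (0 : ι → ℝ) ∈ poly V := by
  have := mem_poly hv
  have e : rp (0 : ι → ℤ) = 0 := by ext i; simp [rp]
  rwa [e] at this

theorem pts_finite {ι : Type} [Fintype ι] (V : Finset (ι → ℤ)) (n : ℕ) : (pts (poly V) n).Finite := by
  classical
  set R : ℤ := ∑ v ∈ V, ∑ i, |v i| with hR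
  have hb : ∀ v ∈ V, ∀ i, |v i| ≤ R := by
    intro v hv i
    calc |v i| ≤ ∑ i, |v i| := single_le_sum (f := fun i => |v i|) (fun _ _ => abs_nonneg _) (mem_univ i)
      _ ≤ R := single_le_sum (f := fun v : ι → ℤ => ∑ i, |v i|)
          (fun _ _ => sum_nonneg fun _ _ => abs_nonneg _) hv
  have hbox : poly V ⊆ Set.Icc (fun _ => -(R : ℝ)) (fun _ => (R : ℝ)) := by
    refine convexHull_min ?_ (convex_Icc _ _)
    rintro _ ⟨v, hv, rfl⟩
    constructor <;> intro i <;> have := abs_le.1 (hb v hv i) <;> simp only [rp] <;>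
      first | exact_mod_cast this.1 | exact_mod_cast this.2
  refine (Set.finite_Icc (fun _ : ι => -(n * R)) (fun _ => (n * R))).subset ?_
  rintro y ⟨w, hw, e⟩
  have hn : (0 : ℝ) ≤ n := Nat.cast_nonneg n
  constructor <;> intro i
  · have h1 : -(R : ℝ) ≤ w i := (hbox hw).1 i
    have h2 : (n : ℝ) * w i = y i := congrFun e i
    have : -((n : ℝ) * R) ≤ y i := by nlinarith
    show -((n : ℤ) * R) ≤ y i
    exact_mod_cast this
  · have h1 : w i ≤ (R : ℝ) := (hbox hw).2 i
    have h2 : (n : ℝ) * w i = y i := congrFun e i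
    have : (y i : ℝ) ≤ (n : ℝ) * R := by nlinarith
    show y i ≤ (n : ℤ) * R
    exact_mod_cast this

/-- prism over `V` with a pyramid on the top and on the bottom -/
def up {D : ℕ} (V : Finset (Fin D → ℤ)) : Finset (Fin (D + 1) → ℤ) :=
  V.image (fun v => Fin.cons 0 v) ∪ V.image (fun v => Fin.cons 1 v) ∪
    {Fin.cons 2 0, Fin.cons (-1) 0}

theorem rp_cons {D : ℕ} (h : ℤ) (y : Fin D → ℤ) :
    rp (Fin.cons h y : Fin (D + 1) → ℤ) = Fin.cons (h : ℝ) (rp y) := by
  ext i; refine Fin.cases ?_ (fun j => ?_) i <;> simp [rp]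

theorem cons_add {D : ℕ} (a b : ℝ) (y z : Fin D → ℝ) :
    (Fin.cons a y : Fin (D + 1) → ℝ) + Fin.cons b z = Fin.cons (a + b) (y + z) := by
  ext i; refine Fin.cases ?_ (fun j => ?_) i <;> simp

theorem cons_smul {D : ℕ} (c a : ℝ) (y : Fin D → ℝ) :
    c • (Fin.cons a y : Fin (D + 1) → ℝ) = Fin.cons (c * a) (c • y) := by
  ext i; refine Fin.cases ?_ (fun j => ?_) i <;> simp

theorem rp_zero {ι : Type} : rp (0 : ι → ℤ) = 0 := by ext i; simp [rp]

theorem cons_mem_up {D : ℕ} (V : Finset (Fin D → ℤ)) (c : ℤ) (hc : c = 0 ∨ c = 1)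
    {w : Fin D → ℝ} (hw : w ∈ poly V) : (Fin.cons (c : ℝ) w : Fin (D + 1) → ℝ) ∈ poly (up V) := by
  have : poly V ⊆ {w | (Fin.cons (c : ℝ) w : Fin (D + 1) → ℝ) ∈ poly (up V)} := by
    refine convexHull_min ?_ ?_
    · rintro _ ⟨v, hv, rfl⟩
      show _ ∈ poly (up V)
      rw [← rp_cons]
      apply mem_poly
      rcases hc with rfl | rfl
      · simp only [up, mem_union, mem_image]; exact Or.inl (Or.inl ⟨v, hv, rfl⟩)
      · simp only [up, mem_union, mem_image]; exact Or.inl (Or.inr ⟨v, hv, rfl⟩)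
    · intro x hx y hy a b ha hb hab
      have := poly_convex (up V) hx hy ha hb hab
      rw [cons_smul, cons_smul, cons_add, ← add_mul, hab, one_mul] at this
      exact this
  exact this hw

theorem kc_up {D : ℕ} (V : Finset (Fin D → ℤ)) (h0 : (0 : Fin D → ℤ) ∈ V) (t h : ℝ) (y : Fin D → ℝ) :
    kc (poly (up V)) t (Fin.cons h y) ↔
      kc (poly V) t y ∧ kc (poly V) (t + h) y ∧ kc (poly V) (2 * t - h) y := by
  have hP := poly_convex V
  have hz := zero_mem_poly h0
  have hQ := poly_convex (up V)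
  constructor
  · have key : poly (up V) ⊆ {z | kc (poly V) 1 (Fin.tail z) ∧ kc (poly V) (1 + z 0) (Fin.tail z) ∧
        kc (poly V) (2 - z 0) (Fin.tail z)} := by
      refine convexHull_min ?_ ?_
      · rintro _ ⟨u, hu, rfl⟩
        simp only [up, coe_union, coe_image, Set.mem_union, Set.mem_image, mem_coe, coe_insert,
          coe_singleton, Set.mem_insert_iff, Set.mem_singleton_iff] at hu
        have k0 : kc (poly V) 0 0 := by simpa using kc_mem (le_refl (0:ℝ)) hz
        rcases hu with (⟨v, hv, rfl⟩ | ⟨v, hv, rfl⟩) | rfl | rfl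
        · have k1 : kc (poly V) 1 (rp v) := kc_one.2 (mem_poly hv)
          simp only [Set.mem_ofPred_eq, rp_cons, Fin.tail_cons, Fin.cons_zero]
          exact ⟨k1, kc_mono hP hz (by norm_num) k1, kc_mono hP hz (by norm_num) k1⟩
        · have k1 : kc (poly V) 1 (rp v) := kc_one.2 (mem_poly hv)
          simp only [Set.mem_ofPred_eq, rp_cons, Fin.tail_cons, Fin.cons_zero]
          exact ⟨k1, kc_mono hP hz (by norm_num) k1, kc_mono hP hz (by norm_num) k1⟩
        · simp only [Set.mem_ofPred_eq, rp_cons, Fin.tail_cons, Fin.cons_zero, rp_zero]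
          exact ⟨kc_mono hP hz (by norm_num) k0, kc_mono hP hz (by norm_num) k0,
            kc_mono hP hz (by norm_num) k0⟩
        · simp only [Set.mem_ofPred_eq, rp_cons, Fin.tail_cons, Fin.cons_zero, rp_zero]
          exact ⟨kc_mono hP hz (by norm_num) k0, kc_mono hP hz (by norm_num) k0,
            kc_mono hP hz (by norm_num) k0⟩
      · intro x hx z hz' a b ha hb hab
        have et : Fin.tail (a • x + b • z) = a • Fin.tail x + b • Fin.tail z := by
          ext i; simp [Fin.tail]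
        simp only [Set.mem_ofPred_eq, et, Pi.add_apply, Pi.smul_apply, smul_eq_mul]
        refine ⟨?_, ?_, ?_⟩
        · have := kc_add hP (kc_smul ha hx.1) (kc_smul hb hz'.1)
          rwa [show a * 1 + b * 1 = 1 by linarith] at this
        · have := kc_add hP (kc_smul ha hx.2.1) (kc_smul hb hz'.2.1)
          rwa [show a * (1 + x 0) + b * (1 + z 0) = 1 + (a * x 0 + b * z 0) by
            linear_combination hab] at this
        · have := kc_add hP (kc_smul ha hx.2.2) (kc_smul hb hz'.2.2)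
          rwa [show a * (2 - x 0) + b * (2 - z 0) = 2 - (a * x 0 + b * z 0) by
            linear_combination 2 * hab] at this
    rintro ⟨ht, z, hz', e⟩
    obtain ⟨k1, k2, k3⟩ := key hz'
    have e0 : t * z 0 = h := by simpa using congrFun e 0
    have e1 : t • Fin.tail z = y := by
      ext i; simpa [Fin.tail] using congrFun e i.succ
    refine ⟨?_, ?_, ?_⟩
    · have := kc_smul ht k1; rwa [mul_one, e1] at this
    · have := kc_smul ht k2; rwa [e1, show t * (1 + z 0) = t + h by linear_combination e0] at this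
    · have := kc_smul ht k3
      rwa [e1, show t * (2 - z 0) = 2 * t - h by linear_combination -e0] at this
  · rintro ⟨k1, k2, k3⟩
    have a0 : ∀ r u, kc (poly V) r u → kc (poly (up V)) r (Fin.cons 0 u) := by
      rintro r u ⟨hr, w, hw, rfl⟩
      have := kc_mem hr (cons_mem_up V 0 (Or.inl rfl) hw)
      simpa [cons_smul] using this
    have a1 : ∀ r u, kc (poly V) r u → kc (poly (up V)) r (Fin.cons r u) := by
      rintro r u ⟨hr, w, hw, rfl⟩
      have := kc_mem hr (cons_mem_up V 1 (Or.inr rfl) hw)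
      simpa [cons_smul] using this
    have b2 : ∀ j : ℝ, 0 ≤ j → kc (poly (up V)) j (Fin.cons (j * 2) 0) := by
      intro j hj
      have hm : (Fin.cons 2 0 : Fin (D + 1) → ℤ) ∈ up V := by simp [up]
      have := kc_mem hj (mem_poly hm)
      simpa [rp_cons, cons_smul, rp_zero] using this
    have b1 : ∀ j : ℝ, 0 ≤ j → kc (poly (up V)) j (Fin.cons (-j) 0) := by
      intro j hj
      have hm : (Fin.cons (-1) 0 : Fin (D + 1) → ℤ) ∈ up V := by simp [up]
      have := kc_mem hj (mem_poly hm)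
      simpa [rp_cons, cons_smul, rp_zero] using this
    rcases le_total h 0 with hh | hh
    · have := kc_add hQ (a0 _ _ k2) (b1 (-h) (by linarith))
      rw [cons_add] at this
      simpa using this
    rcases le_total t h with ht | ht
    · have := kc_add hQ (a1 _ _ k3) (b2 (h - t) (by linarith))
      rw [cons_add, show 2 * t - h + (h - t) = t by ring, show 2 * t - h + (h - t) * 2 = h by ring,
        add_zero] at this
      exact this
    · obtain ⟨_, w, hw, rfl⟩ := k1
      have := kc_add hQ (a0 _ _ (kc_mem (sub_nonneg.2 ht) hw)) (a1 _ _ (kc_mem hh hw))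
      rw [cons_add, ← add_smul, sub_add_cancel, zero_add] at this
      exact this

/-- height function -/
def rho (t : ℕ) (h : ℤ) : ℕ := (min (t : ℤ) (min (t + h) (2 * t - h))).toNat

theorem mem_pts_up {D : ℕ} (V : Finset (Fin D → ℤ)) (h0 : (0 : Fin D → ℤ) ∈ V) (t : ℕ) (h : ℤ)
    (y : Fin D → ℤ) : (Fin.cons h y : Fin (D + 1) → ℤ) ∈ pts (poly (up V)) t ↔
      h ∈ Icc (-(t : ℤ)) (2 * t) ∧ y ∈ pts (poly V) (rho t h) := by
  have hP := poly_convex V
  have hz := zero_mem_poly h0
  have e : ∀ {ι : Type} (P : Set (ι → ℝ)) (n : ℕ) (y : ι → ℤ), y ∈ pts P n ↔ kc P n (rp y) := by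
    intro ι P n y; simp [pts, kc]
  rw [e, e, rp_cons, kc_up V h0, mem_Icc]
  constructor
  · rintro ⟨k1, k2, k3⟩
    have h2 : (0 : ℤ) ≤ t + h := by exact_mod_cast k2.1
    have h3 : (0 : ℤ) ≤ 2 * t - h := by exact_mod_cast k3.1
    refine ⟨⟨by omega, by omega⟩, ?_⟩
    have : (rho t h : ℤ) = t ∨ (rho t h : ℤ) = t + h ∨ (rho t h : ℤ) = 2 * t - h := by
      unfold rho; omega
    rcases this with e1 | e1 | e1
    · have : (rho t h : ℝ) = t := by exact_mod_cast e1
      rwa [this]
    · have : (rho t h : ℝ) = t + h := by exact_mod_cast e1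
      rwa [this]
    · have : (rho t h : ℝ) = 2 * t - h := by exact_mod_cast e1
      rwa [this]
  · rintro ⟨⟨h1, h2⟩, k⟩
    have g1 : (rho t h : ℤ) ≤ t := by unfold rho; omega
    have g2 : (rho t h : ℤ) ≤ t + h := by unfold rho; omega
    have g3 : (rho t h : ℤ) ≤ 2 * t - h := by unfold rho; omega
    exact ⟨kc_mono hP hz (by exact_mod_cast g1) k, kc_mono hP hz (by exact_mod_cast g2) k,
      kc_mono hP hz (by exact_mod_cast g3) k⟩

theorem sum_rho (B : ℕ → ℕ) (t : ℕ) :
    ∑ h ∈ Icc (-(t : ℤ)) (2 * t), B (rho t h) = (t + 1) * B t + 2 * ∑ s ∈ range t, B s := by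
  have e : Icc (-(t : ℤ)) (2 * t) = (range (t + (t + 1) + t)).image (fun k : ℕ => (k : ℤ) - t) := by
    ext h
    simp only [mem_Icc, mem_image, mem_range]
    constructor
    · rintro ⟨h1, h2⟩; exact ⟨(h + t).toNat, by omega, by omega⟩
    · rintro ⟨k, hk, rfl⟩; omega
  rw [e, sum_image (by intro a _ b _ hab; simpa using hab), sum_range_add, sum_range_add]
  have e1 : ∑ k ∈ range t, B (rho t ((k : ℤ) - t)) = ∑ s ∈ range t, B s := by
    refine sum_congr rfl fun k hk => ?_
    have := mem_range.1 hk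
    congr 1; unfold rho; omega
  have e2 : ∑ k ∈ range (t + 1), B (rho t (((t + k : ℕ) : ℤ) - t)) = (t + 1) * B t := by
    rw [sum_congr rfl (g := fun _ => B t)]
    · simp
    · intro k hk
      have := mem_range.1 hk
      congr 1; unfold rho; omega
  have e3 : ∑ k ∈ range t, B (rho t (((t + (t + 1) + k : ℕ) : ℤ) - t)) = ∑ s ∈ range t, B s := by
    rw [← sum_range_reflect (fun s => B s) t]
    refine sum_congr rfl fun k hk => ?_
    have := mem_range.1 hk
    congr 1; unfold rho; omega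
  rw [e1, e2, e3]; ring

theorem cnt_up {D : ℕ} (V : Finset (Fin D → ℤ)) (h0 : (0 : Fin D → ℤ) ∈ V) (t : ℕ) :
    (pts (poly (up V)) t).ncard =
      (t + 1) * (pts (poly V) t).ncard + 2 * ∑ s ∈ range t, (pts (poly V) s).ncard := by
  classical
  rw [← sum_rho (fun s => (pts (poly V) s).ncard) t,
    Set.ncard_eq_toFinset_card _ (pts_finite (up V) t),
    card_eq_sum_card_fiberwise (f := fun z => z 0) (t := Icc (-(t : ℤ)) (2 * t))]
  · refine sum_congr rfl fun h hh => ?_
    rw [Set.ncard_eq_toFinset_card _ (pts_finite V (rho t h))]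
    symm
    refine card_bij (fun y _ => Fin.cons h y) ?_ ?_ ?_
    · intro y hy
      simp only [mem_filter, Set.Finite.mem_toFinset, Fin.cons_zero, and_true] at hy ⊢
      exact (mem_pts_up V h0 t h y).2 ⟨hh, hy⟩
    · intro a _ b _ hab
      have := congrArg Fin.tail hab
      simpa using this
    · intro z hz
      simp only [mem_filter, Set.Finite.mem_toFinset] at hz
      obtain ⟨hz1, rfl⟩ := hz
      refine ⟨Fin.tail z, ?_, by simp⟩
      rw [← Fin.cons_self_tail z] at hz1
      simpa using ((mem_pts_up V h0 t _ _).1 hz1).2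
  · intro z hz
    simp only [Set.Finite.coe_toFinset] at hz
    rw [← Fin.cons_self_tail z] at hz
    exact ((mem_pts_up V h0 t _ _).1 hz).1

theorem span_up {D : ℕ} (V : Finset (Fin D → ℤ)) (h0 : (0 : Fin D → ℤ) ∈ V)
    (hs : Submodule.span ℝ (poly V) = ⊤) : Submodule.span ℝ (poly (up V)) = ⊤ := by
  rw [eq_top_iff]
  intro z _
  have a : ∀ y ∈ Submodule.span ℝ (poly V),
      (Fin.cons 0 y : Fin (D + 1) → ℝ) ∈ Submodule.span ℝ (poly (up V)) := by
    intro y hy
    induction hy using Submodule.span_induction with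
    | mem x hx => exact Submodule.subset_span (by simpa using cons_mem_up V 0 (Or.inl rfl) hx)
    | zero =>
      have : (Fin.cons 0 0 : Fin (D + 1) → ℝ) = 0 := by
        ext i; refine Fin.cases ?_ (fun j => ?_) i <;> simp
      rw [this]; exact Submodule.zero_mem _
    | add x y _ _ hx hy => have := Submodule.add_mem _ hx hy; rwa [cons_add, add_zero] at this
    | smul c x _ hx => have := Submodule.smul_mem _ c hx; rwa [cons_smul, mul_zero] at this
  have b : (Fin.cons 1 0 : Fin (D + 1) → ℝ) ∈ Submodule.span ℝ (poly (up V)) :=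
    Submodule.subset_span (by simpa using cons_mem_up V 1 (Or.inr rfl) (zero_mem_poly h0))
  have := Submodule.add_mem _ (a (Fin.tail z) (by rw [hs]; trivial)) (Submodule.smul_mem _ (z 0) b)
  rw [cons_smul, cons_add] at this
  simpa using this

theorem zero_mem_up {D : ℕ} (V : Finset (Fin D → ℤ)) (h0 : (0 : Fin D → ℤ) ∈ V) :
    (0 : Fin (D + 1) → ℤ) ∈ up V := by
  simp only [up, mem_union, mem_image]
  refine Or.inl (Or.inl ⟨0, h0, ?_⟩)
  ext i; refine Fin.cases ?_ (fun j => ?_) i <;> simp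

/-- `A` is the double partial sum of the point count of a full-dimensional lattice polytope -/
def Rep (D : ℕ) (A : ℕ → ℕ) : Prop :=
  ∃ V : Finset (Fin D → ℤ), (0 : Fin D → ℤ) ∈ V ∧ Submodule.span ℝ (poly V) = ⊤ ∧
    ∀ t, A t = ∑ r ∈ range (t + 1), ∑ s ∈ range (r + 1), (pts (poly V) s).ncard

theorem rep_step {D : ℕ} {A : ℕ → ℕ} (h : Rep D A) : Rep (D + 1) (fun t => (t + 1) * A t) := by
  obtain ⟨V, h0, hs, hA⟩ := h
  refine ⟨up V, zero_mem_up V h0, span_up V h0 hs, ?_⟩
  simp only [cnt_up V h0, hA]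
  set B : ℕ → ℕ := fun s => (pts (poly V) s).ncard with hB
  have e1 : ∀ r, ∑ s ∈ range (r + 1), ((s + 1) * B s + 2 * ∑ u ∈ range s, B u) =
      (r + 1) * ∑ s ∈ range (r + 1), B s + ∑ q ∈ range r, ∑ s ∈ range (q + 1), B s := by
    intro r
    induction r with
    | zero => simp
    | succ r ih =>
      rw [sum_range_succ, ih, sum_range_succ B (r + 1),
        sum_range_succ (fun q => ∑ s ∈ range (q + 1), B s) r]; ring
  intro t
  show (t + 1) * ∑ r ∈ range (t + 1), ∑ s ∈ range (r + 1), B s =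
    ∑ r ∈ range (t + 1), ∑ s ∈ range (r + 1), ((s + 1) * B s + 2 * ∑ u ∈ range s, B u)
  simp only [e1]
  induction t with
  | zero => simp
  | succ t ih =>
    rw [sum_range_succ (fun r => ∑ s ∈ range (r + 1), B s) (t + 1),
      sum_range_succ (fun r => (r + 1) * ∑ s ∈ range (r + 1), B s +
        ∑ q ∈ range r, ∑ s ∈ range (q + 1), B s) (t + 1), ← ih]; ring

theorem rep_iter {D : ℕ} {A : ℕ → ℕ} (h : Rep D A) (j : ℕ) :
    Rep (D + j) (fun t => (t + 1) ^ j * A t) := by
  induction j with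
  | zero => simpa using h
  | succ j ih =>
    have := rep_step ih
    have e : (fun t => (t + 1) ^ (j + 1) * A t) = fun t => (t + 1) * ((t + 1) ^ j * A t) := by
      ext t; ring
    rw [e]; exact this

end Pool.Agent.H31.OPH
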