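import Pool.Agent.H31.OPH

open scoped Pointwise
open Finset

namespace Pool.Agent.H31.OPH

/-- order preserving maps into `[0,t]` -/
def U (β : Type) [PartialOrder β] (t : ℕ) : Set (β → ℤ) :=
  {x | (∀ a, 0 ≤ x a ∧ x a ≤ t) ∧ ∀ a b, a ≤ b → x a ≤ x b}

def Cs (β : Type) [PartialOrder β] (t : ℕ) : Set (β → ℤ) := {x | x ∈ U β t ∧ ∃ a, x a = 0}

def Ts (β : Type) [PartialOrder β] (t : ℕ) : Set (β → ℤ) := {x | x ∈ Cs β t ∧ ∃ a, x a = t}

variable {β : Type} [PartialOrder β]

theorem U_fin [Fintype β] (t : ℕ) : (U β t).Finite := by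
  classical
  exact (Set.finite_Icc (fun _ : β => (0 : ℤ)) (fun _ => (t : ℤ))).subset
    fun _ hx => ⟨fun a => (hx.1 a).1, fun a => (hx.1 a).2⟩

theorem Cs_fin [Fintype β] (t : ℕ) : (Cs β t).Finite := (U_fin t).subset fun _ hx => hx.1

theorem Ts_fin [Fintype β] (t : ℕ) : (Ts β t).Finite := (Cs_fin t).subset fun _ hx => hx.1

theorem U_sum [Fintype β] [Nonempty β] (t : ℕ) :
    (U β t).ncard = ∑ r ∈ range (t + 1), (Cs β r).ncard := by
  induction t with
  | zero =>
    have : U β 0 = Cs β 0 := by
      ext x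
      refine ⟨fun hx => ⟨hx, Classical.arbitrary β, ?_⟩, fun hx => hx.1⟩
      have := hx.1 (Classical.arbitrary β)
      omega
    simp [this]
  | succ t ih =>
    rw [sum_range_succ, ← ih]
    have inj : Function.Injective (fun (x : β → ℤ) => fun a => x a + 1) := by
      intro x y h; ext a; simpa using congrFun h a
    have : U β (t + 1) = ((fun (x : β → ℤ) => fun a => x a + 1) '' U β t) ∪ Cs β (t + 1) := by
      ext x
      constructor
      · intro hx
        by_cases h : ∃ a, x a = 0
        · exact Or.inr ⟨hx, h⟩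
        · push Not at h
          refine Or.inl ⟨fun a => x a - 1, ⟨fun a => ?_, fun a b hab => ?_⟩, by ext a; simp⟩
          · have := hx.1 a; have := h a; push_cast at *; constructor <;> omega
          · have := hx.2 a b hab; show x a - 1 ≤ x b - 1; omega
      · rintro (⟨y, hy, rfl⟩ | hx)
        · refine ⟨fun a => ?_, fun a b hab => ?_⟩
          · have := hy.1 a; push_cast; constructor <;> omega
          · have := hy.2 a b hab; show y a + 1 ≤ y b + 1; omega
        · exact hx.1
    rw [this, Set.ncard_union_eq _ ((U_fin t).image _) (Cs_fin _), Set.ncard_image_of_injective _ inj]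
    rw [Set.disjoint_left]
    rintro _ ⟨y, hy, rfl⟩ ⟨_, a, ha⟩
    have := hy.1 a
    simp only at ha
    omega

theorem Cs_sum [Fintype β] [Nonempty β] (t : ℕ) :
    (Cs β t).ncard = ∑ r ∈ range (t + 1), (Ts β r).ncard := by
  induction t with
  | zero =>
    have : Cs β 0 = Ts β 0 := by
      ext x
      exact ⟨fun hx => ⟨hx, by simpa using hx.2⟩, fun hx => hx.1⟩
    simp [this]
  | succ t ih =>
    rw [sum_range_succ, ← ih]
    have : Cs β (t + 1) = Cs β t ∪ Ts β (t + 1) := by
      ext x
      constructor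
      · intro hx
        by_cases h : ∃ a, x a = ((t + 1 : ℕ) : ℤ)
        · exact Or.inr ⟨hx, h⟩
        · push Not at h
          refine Or.inl ⟨⟨fun a => ?_, hx.1.2⟩, hx.2⟩
          have := hx.1.1 a; have := h a; push_cast at *; constructor <;> omega
      · rintro (hx | hx)
        · refine ⟨⟨fun a => ?_, hx.1.2⟩, hx.2⟩
          have := hx.1.1 a; push_cast; constructor <;> omega
        · exact hx.1
    rw [this, Set.ncard_union_eq _ (Cs_fin t) (Ts_fin _)]
    rw [Set.disjoint_left]
    rintro x hx ⟨_, a, ha⟩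
    have := hx.1.1 a
    push_cast at ha
    omega

/-- the real order preserving maps into `[0,1]` -/
def OP (β : Type) [PartialOrder β] : Set (β → ℝ) :=
  {x | (∀ a, 0 ≤ x a ∧ x a ≤ 1) ∧ ∀ a b, a ≤ b → x a ≤ x b}

theorem OP_convex : Convex ℝ (OP β) := by
  intro x hx y hy a b ha hb hab
  refine ⟨fun i => ?_, fun i j hij => ?_⟩
  · have := hx.1 i; have := hy.1 i
    simp only [Pi.add_apply, Pi.smul_apply, smul_eq_mul]
    constructor <;> nlinarith
  · have := hx.2 i j hij; have := hy.2 i j hij
    simp only [Pi.add_apply, Pi.smul_apply, smul_eq_mul]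
    nlinarith

theorem rp_mem_OP {x : β → ℤ} (hx : x ∈ U β 1) : rp x ∈ OP β := by
  refine ⟨fun a => ?_, fun a b hab => ?_⟩
  · have := hx.1 a
    simp only [rp]
    constructor
    · exact_mod_cast this.1
    · exact_mod_cast this.2
  · have := hx.2 a b hab
    simp only [rp]; exact_mod_cast this

/-- linear images: decomposition of an integer point into 0/1 points -/
theorem decomp {ι : Type} (φ : (β → ℝ) →ₗ[ℝ] (ι → ℝ)) (P : Set (ι → ℝ)) (hP : Convex ℝ P)
    (h1 : ∀ x ∈ U β 1, φ (rp x) ∈ P) (t : ℕ) : ∀ x ∈ U β t, kc P t (φ (rp x)) := by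
  induction t with
  | zero =>
    intro x hx
    have e : rp x = 0 := by
      ext a; have := hx.1 a; have : x a = 0 := by omega
      simp [rp, this]
    have z : (0 : β → ℤ) ∈ U β 1 := ⟨fun a => by simp, fun a b _ => le_refl _⟩
    have := kc_mem (le_refl (0 : ℝ)) (h1 _ z)
    simpa [e] using this
  | succ t ih =>
    intro x hx
    have a1 : (fun a => min (x a) 1) ∈ U β 1 := by
      refine ⟨fun a => ?_, fun a b hab => ?_⟩
      · have := hx.1 a; constructor <;> simp only <;> omega
      · have := hx.2 a b hab; simp only; omega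
    have a2 : (fun a => x a - min (x a) 1) ∈ U β t := by
      refine ⟨fun a => ?_, fun a b hab => ?_⟩
      · have := hx.1 a; push_cast at this; constructor <;> simp only <;> omega
      · have := hx.2 a b hab; simp only; omega
    have := kc_add hP (ih _ a2) (kc_one.2 (h1 _ a1))
    rw [← map_add] at this
    have e : rp (fun a => x a - min (x a) 1) + rp (fun a => min (x a) 1) = rp x := by
      ext a; simp [rp]
    rw [e] at this
    simpa using this

theorem single_mem {W : Submodule ℝ (β → ℝ)} [DecidableEq β] (h : ∀ x ∈ U β 1, rp x ∈ W) (a : β) :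
    (Pi.single a 1 : β → ℝ) ∈ W := by
  classical
  have a1 : (fun b => if a ≤ b then (1 : ℤ) else 0) ∈ U β 1 := by
    refine ⟨fun b => by beta_reduce; split_ifs <;> simp, fun b c hbc => ?_⟩
    by_cases h : a ≤ b
    · simp [h, h.trans hbc]
    · simp only [h, if_false]; split_ifs <;> simp
  have a2 : (fun b => if a < b then (1 : ℤ) else 0) ∈ U β 1 := by
    refine ⟨fun b => by beta_reduce; split_ifs <;> simp, fun b c hbc => ?_⟩
    by_cases h : a < b
    · simp [h, h.trans_le hbc]
    · simp only [h, if_false]; split_ifs <;> simp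
  have := W.sub_mem (h _ a1) (h _ a2)
  convert this using 1
  ext b
  by_cases hb : b = a
  · subst hb; simp [rp]
  · have : a < b ↔ a ≤ b := ⟨le_of_lt, fun h => lt_of_le_of_ne h (Ne.symm hb)⟩
    simp [rp, hb, this]

theorem rep_base [Fintype β] [Nonempty β] (hβ : ∀ a : β, ∃ b, a < b ∨ b < a) :
    ∃ D, D + 2 = Fintype.card β ∧ Rep D (fun t => (U β t).ncard) := by
  classical
  have exm : ∀ a : β, ∃ m, IsMin m ∧ m ≤ a := by
    intro a
    obtain ⟨m, h1, h2⟩ := exists_minimal_le_of_wellFoundedLT (fun _ : β => True) a trivial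
    exact ⟨m, fun b hb => h2.2 trivial hb, h1⟩
  have exn : ∀ a : β, ∃ n, ¬ IsMin n ∧ a ≤ n := by
    intro a
    obtain ⟨b, h | h⟩ := hβ a
    · exact ⟨b, h.not_isMin, h.le⟩
    · exact ⟨a, h.not_isMin, le_refl _⟩
  obtain ⟨m0, hm0, -⟩ := exm (Classical.arbitrary β)
  obtain ⟨n0, hn0, -⟩ := exn (Classical.arbitrary β)
  have hmn : m0 ≠ n0 := fun h => hn0 (h ▸ hm0)
  set D := Fintype.card {p : β // p ≠ m0 ∧ p ≠ n0} with hD
  have e : Fin D ≃ {p : β // p ≠ m0 ∧ p ≠ n0} := (Fintype.equivFin _).symm
  have hcard : D + 2 = Fintype.card β := by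
    rw [hD, Fintype.card_subtype]
    have : ({p | p ≠ m0 ∧ p ≠ n0} : Finset β) = univ \ {m0, n0} := by ext p; simp
    rw [this, card_sdiff_of_subset (subset_univ _), card_pair hmn, card_univ]
    have : ({m0, n0} : Finset β).card ≤ Fintype.card β := card_le_univ _
    rw [card_pair hmn] at this
    omega
  refine ⟨D, hcard, ?_⟩
  let b : β → β := fun p => if IsMin p then m0 else n0
  let φ : (β → ℝ) →ₗ[ℝ] (Fin D → ℝ) :=
    { toFun := fun x i => x (e i) - x (b (e i))
      map_add' := by intro x y; ext i; simp; ring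
      map_smul' := by intro c x; ext i; simp; ring }
  let ψ : (β → ℤ) → (Fin D → ℤ) := fun x i => x (e i) - x (b (e i))
  have hψ : ∀ x, rp (ψ x) = φ (rp x) := by intro x; ext i; simp [rp, ψ, φ]
  let V : Finset (Fin D → ℤ) := (U_fin (β := β) 1).toFinset.image ψ
  have hV : ∀ x ∈ U β 1, φ (rp x) ∈ poly V := by
    intro x hx
    rw [← hψ]
    exact mem_poly (mem_image.2 ⟨x, by simpa using hx, rfl⟩)
  have hVO : poly V ⊆ φ '' OP β := by
    refine convexHull_min ?_ (OP_convex.linear_image φ)
    rintro _ ⟨v, hv, rfl⟩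
    obtain ⟨x, hx, rfl⟩ := mem_image.1 hv
    exact ⟨rp x, rp_mem_OP (by simpa using hx), (hψ x).symm⟩
  have hb : ∀ p, b p = m0 ∨ b p = n0 := by intro p; simp only [b]; split_ifs <;> simp
  have hbm : b m0 = m0 := by simp [b, hm0]
  have hbn : b n0 = n0 := by simp [b, hn0]
  refine ⟨V, ?_, ?_, ?_⟩
  · refine mem_image.2 ⟨0, ?_, by ext i; simp [ψ]⟩
    simp only [Set.Finite.mem_toFinset]
    exact ⟨fun a => by simp, fun a b _ => le_refl _⟩
  · rw [eq_top_iff]
    intro z _
    have : ∀ i, (Pi.single i 1 : Fin D → ℝ) ∈ Submodule.span ℝ (poly V) := by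
      intro i
      have := single_mem (W := (Submodule.span ℝ (poly V)).comap φ)
        (fun x hx => Submodule.subset_span (hV x hx)) (e i).1
      rw [Submodule.mem_comap] at this
      convert this using 1
      ext j
      have h1 : b (e j) ≠ (e i).1 := by
        rcases hb (e j) with h | h <;> rw [h]
        · exact (e i).2.1.symm
        · exact (e i).2.2.symm
      by_cases hij : j = i
      · subst hij; simp [φ, h1]
      · have : (e j).1 ≠ (e i).1 := fun h => hij (e.injective (Subtype.ext h))
        simp [φ, h1, hij, this]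
    rw [pi_eq_sum_univ' z]
    exact Submodule.sum_mem _ fun i _ => Submodule.smul_mem _ _ (this i)
  · intro t
    show (U β t).ncard = _
    rw [U_sum]
    refine sum_congr rfl fun r _ => ?_
    rw [Cs_sum]
    refine sum_congr rfl fun s _ => ?_
    refine Set.ncard_congr (fun x _ => ψ x) ?_ ?_ ?_
    · intro x hx
      have := decomp φ _ (poly_convex V) hV s x hx.1.1
      rw [← hψ] at this
      exact this.2
    · intro x y hx hy hxy
      have d : ∀ p, x p - x (b p) = y p - y (b p) := by
        intro p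
        by_cases h1 : p = m0
        · subst h1; simp [hbm]
        by_cases h2 : p = n0
        · subst h2; simp [hbn]
        have := congrFun hxy (e.symm ⟨p, h1, h2⟩)
        simpa [ψ] using this
      have dm : ∀ p, IsMin p → x p - x m0 = y p - y m0 := by
        intro p hp; have := d p; simpa [b, hp] using this
      have dn : ∀ p, ¬ IsMin p → x p - x n0 = y p - y n0 := by
        intro p hp; have := d p; simpa [b, hp] using this
      have z : ∀ w ∈ Ts β s, (∃ m, IsMin m ∧ w m = 0) ∧ ∃ n, ¬ IsMin n ∧ w n = s := by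
        intro w hw
        obtain ⟨a, ha⟩ := hw.1.2
        obtain ⟨c, hc⟩ := hw.2
        obtain ⟨m, h1, h2⟩ := exm a
        obtain ⟨n, h3, h4⟩ := exn c
        have := hw.1.1.2 _ _ h2
        have := hw.1.1.2 _ _ h4
        have := hw.1.1.1 m
        have := hw.1.1.1 n
        exact ⟨⟨m, h1, by omega⟩, ⟨n, h3, by omega⟩⟩
      obtain ⟨⟨m1, g1, g2⟩, n1, g3, g4⟩ := z x hx
      obtain ⟨⟨m2, g5, g6⟩, n2, g7, g8⟩ := z y hy
      have := dm m1 g1; have := dm m2 g5; have := dn n1 g3; have := dn n2 g7
      have := hx.1.1.1 m2; have := hy.1.1.1 m1; have := hx.1.1.1 n2; have := hy.1.1.1 n1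
      ext p
      by_cases hp : IsMin p
      · have := dm p hp; omega
      · have := dn p hp; omega
    · rintro y ⟨w, hw, ew⟩
      obtain ⟨u, hu, rfl⟩ := hVO hw
      let y' : β → ℤ := fun p => if h : p ≠ m0 ∧ p ≠ n0 then y (e.symm ⟨p, h⟩) else 0
      have hy' : ∀ p, (y' p : ℝ) = s * u p - s * u (b p) := by
        intro p
        by_cases h : p ≠ m0 ∧ p ≠ n0
        · have := congrFun ew (e.symm ⟨p, h⟩)
          simp only [y', dif_pos h]
          simp only [φ, rp, LinearMap.coe_mk, AddHom.coe_mk, Pi.smul_apply, smul_eq_mul,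
            Equiv.apply_symm_apply] at this
          rw [← this]; ring
        · simp only [y', dif_neg h]
          have : b p = p := by
            by_cases h1 : p = m0
            · rw [h1, hbm]
            · have : p = n0 := by tauto
              rw [this, hbn]
          rw [this]; simp
      obtain ⟨pm, hpm, hmin⟩ := exists_min_image ({p | IsMin p} : Finset β) u ⟨m0, by simpa using hm0⟩
      obtain ⟨pn, hpn, hmax⟩ := exists_max_image ({p | ¬ IsMin p} : Finset β) u ⟨n0, by simpa using hn0⟩
      simp only [mem_filter, mem_univ, true_and] at hpm hpn hmin hmax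
      let x : β → ℤ := fun p => if IsMin p then y' p - y' pm else y' p - y' pn + s
      have hs : (0 : ℝ) ≤ s := Nat.cast_nonneg s
      have xm : ∀ p, IsMin p → (x p : ℝ) = s * (u p - u pm) := by
        intro p hp
        simp only [x, if_pos hp]; push_cast
        rw [hy', hy']; simp only [b, if_pos hp, if_pos hpm]; ring
      have xn : ∀ p, ¬ IsMin p → (x p : ℝ) = s * (u p - u pn + 1) := by
        intro p hp
        simp only [x, if_neg hp]; push_cast
        rw [hy', hy']; simp only [b, if_neg hp, if_neg hpn]; ring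
      refine ⟨x, ⟨⟨⟨fun a => ?_, fun a c hac => ?_⟩, pm, by simp [x, hpm]⟩, pn, by simp [x, hpn]⟩, ?_⟩
      · have h1 := hu.1 a; have h2 := hu.1 pm; have h3 := hu.1 pn
        have : (0 : ℝ) ≤ x a ∧ (x a : ℝ) ≤ s := by
          by_cases ha : IsMin a
          · rw [xm a ha]; have := hmin a ha; constructor <;> nlinarith
          · rw [xn a ha]; have := hmax a ha; constructor <;> nlinarith
        exact ⟨by exact_mod_cast this.1, by exact_mod_cast this.2⟩
      · have h1 := hu.2 a c hac; have h2 := hu.1 pm; have h3 := hu.1 pn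
        have : (x a : ℝ) ≤ x c := by
          by_cases hc : IsMin c
          · have : a = c := le_antisymm hac (hc hac)
            rw [this]
          · rw [xn c hc]
            by_cases ha : IsMin a
            · rw [xm a ha]; nlinarith
            · rw [xn a ha]; nlinarith
        exact_mod_cast this
      · ext i
        have h1 : y' (e i) = y i := by simp [y', (e i).2.1, (e i).2.2]
        have h2 : y' m0 = 0 := by simp [y']
        have h3 : y' n0 = 0 := by simp [y']
        by_cases hp : IsMin (e i).1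
        · simp [ψ, x, b, hp, hm0, h1, h2]
        · simp [ψ, x, b, hp, hn0, h1, h3]

end Pool.Agent.H31.OPH
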