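import Mathlib

set_option autoImplicit false
open Finset PowerSeries

namespace Pool.Agent.H31.QHyp

/-- The q-Pochhammer symbol (x;q)_n. -/
def poch {K : Type} [Field K] (x q : K) (n : ℕ) : K := ∏ j ∈ range n, (1 - x * q ^ j)

/-- The basic hypergeometric series as a formal power series in z. -/
noncomputable def phi {K : Type} [Field K] (a b c q : K) : K⟦X⟧ :=
  PowerSeries.mk fun n => poch a q n * poch b q n / (poch q q n * poch c q n)

/-- The field of rational functions over the rationals in four indeterminates. -/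
abbrev RF := FractionRing (MvPolynomial (Fin 4) ℚ)

/-- The indeterminates a, b, c, q are var 0, var 1, var 2, var 3. -/
noncomputable def var (i : Fin 4) : RF := algebraMap (MvPolynomial (Fin 4) ℚ) RF (MvPolynomial.X i)

section
variable {K : Type} [Field K] {a b c q : K}

theorem poch_succ (x : K) (n : ℕ) : poch x q (n + 1) = poch x q n * (1 - x * q ^ n) :=
  prod_range_succ _ _

theorem poch_succ' (x : K) (n : ℕ) : poch x q (n + 1) = poch (x * q) q n * (1 - x) := by
  unfold poch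
  rw [prod_range_succ']
  simp only [pow_zero, mul_one, pow_succ', mul_assoc]

theorem poch_ne {x : K} (h : ∀ k, 1 - x * q ^ k ≠ 0) (n : ℕ) : poch x q n ≠ 0 :=
  prod_ne_zero_iff.mpr fun k _ => h k

def D (c q : K) (n : ℕ) : K := ∏ k ∈ range (n + 1), (1 - c * q ^ k) ^ ((n + 1) / (k + 1))

def D' (c q : K) (n : ℕ) : K := ∏ k ∈ range (n + 1), (1 - c * q ^ k) ^ ((n + 2) / (k + 1))

theorem D_succ (n : ℕ) : D c q (n + 1) = D' c q n * (1 - c * q ^ (n + 1)) := by
  unfold D D'
  rw [prod_range_succ, Nat.div_self (by omega), pow_one]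

theorem D_ext (i n : ℕ) (h : i ≤ n) :
    D c q i = ∏ k ∈ range (n + 1), (1 - c * q ^ k) ^ ((i + 1) / (k + 1)) := by
  refine prod_subset (range_subset_range.mpr (by omega)) fun k _ hk => ?_
  rw [Nat.div_eq_of_lt (by simp at hk; omega), pow_zero]

variable (S : Subring K) (hc : c ∈ S) (hq : q ∈ S)
include hc hq

theorem lift (n : ℕ) (e f : ℕ → ℕ) (h : ∀ k, e k ≤ f k) (x : K)
    (hx : (∏ k ∈ range n, (1 - c * q ^ k) ^ e k) * x ∈ S) :
    (∏ k ∈ range n, (1 - c * q ^ k) ^ f k) * x ∈ S := by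
  have : ∏ k ∈ range n, (1 - c * q ^ k) ^ f k = (∏ k ∈ range n, (1 - c * q ^ k) ^ (f k - e k)) *
      ∏ k ∈ range n, (1 - c * q ^ k) ^ e k := by
    rw [← prod_mul_distrib]
    exact prod_congr rfl fun k _ => by rw [← pow_add, Nat.sub_add_cancel (h k)]
  rw [this, mul_assoc]
  exact S.mul_mem (S.prod_mem fun k _ => S.pow_mem (S.sub_mem S.one_mem
    (S.mul_mem hc (S.pow_mem hq _))) _) hx

theorem one_good (i n : ℕ) (h : i ≤ n) (x : K) (hx : D c q i * x ∈ S) : D' c q n * x ∈ S := by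
  rw [D_ext i n h] at hx
  exact lift S hc hq _ _ _ (fun k => Nat.div_le_div_right (by omega)) x hx

theorem two_good (m n : ℕ) (h : m ≤ n) (φ ψ : K⟦X⟧) (h1 : ∀ i ≤ n, D c q i * coeff i φ ∈ S)
    (h2 : ∀ i ≤ n, D c q i * coeff i ψ ∈ S) : D' c q n * coeff m (φ * rescale q ψ) ∈ S := by
  rw [coeff_mul, mul_sum]
  refine S.sum_mem fun p hp => ?_
  rw [HasAntidiagonal.mem_antidiagonal] at hp
  have h3 := S.mul_mem (S.mul_mem (h1 p.1 (by omega)) (h2 p.2 (by omega))) (S.pow_mem hq p.2)
  rw [D_ext p.1 n (by omega), D_ext p.2 n (by omega)] at h3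
  refine lift S hc hq _ (fun k => (p.1 + 1) / (k + 1) + (p.2 + 1) / (k + 1)) _ (fun k =>
    (Nat.add_div_le_add_div _ _ _).trans (Nat.div_le_div_right (by omega))) _ ?_
  simp only [pow_add, prod_mul_distrib, coeff_rescale]
  convert h3 using 1; ring

omit hc hq in
theorem idF (h1 : ∀ k, 1 - c * q ^ k ≠ 0) (h2 : ∀ k, 1 - q * q ^ k ≠ 0) :
    rescale q (phi a b c q) = phi a b c q -
      X * (C ((1 - a) * (1 - b)) * (C (1 - c)⁻¹ * phi (a * q) (b * q) (c * q) q)) := by
  have h0 : 1 - c ≠ 0 := by simpa using h1 0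
  have h3 : ∀ k, 1 - c * q * q ^ k ≠ 0 := fun k => by simpa [pow_succ', mul_assoc] using h1 (k + 1)
  ext n
  rcases n with _ | n
  · simp [phi, poch]
  · simp only [coeff_rescale, map_sub, coeff_succ_X_mul, coeff_C_mul, phi, coeff_mk,
      poch_succ' a, poch_succ' b, poch_succ' c, poch_succ q]
    have := poch_ne h2 n; have := poch_ne h3 n; have := h2 n
    field_simp; ring

omit hc hq in
theorem idG (h1 : ∀ k, 1 - c * q ^ k ≠ 0) (h2 : ∀ k, 1 - q * q ^ k ≠ 0) (G : K⟦X⟧)
    (hG : G = C (1 - c)⁻¹ * phi (a * q) (b * q) (c * q) q) :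
    G - C c * rescale q G = phi a b c q + X * (C (a + b - a * b) * G -
      C (a * b * q) * rescale q G) := by
  have h0 : 1 - c ≠ 0 := by simpa using h1 0
  have h3 : ∀ k, 1 - c * q * q ^ k ≠ 0 := fun k => by simpa [pow_succ', mul_assoc] using h1 (k + 1)
  ext n
  rcases n with _ | n
  · simp only [hG, coeff_rescale, LinearMap.map_sub, LinearMap.map_add, coeff_zero_X_mul,
      coeff_C_mul, phi, coeff_mk, poch, range_zero, prod_empty]
    field_simp; ring
  · simp only [hG, coeff_rescale, LinearMap.map_sub, LinearMap.map_add, coeff_succ_X_mul, coeff_C_mul, phi, coeff_mk,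
      poch_succ' a, poch_succ' b, poch_succ' c, poch_succ q, poch_succ (a * q), poch_succ (b * q),
      poch_succ (c * q)]
    have := poch_ne h2 n; have := poch_ne h3 n; have := h2 n; have := h3 n
    field_simp; ring

omit hc hq in
theorem idU (h1 : ∀ k, 1 - c * q ^ k ≠ 0) (h2 : ∀ k, 1 - q * q ^ k ≠ 0) (U : K⟦X⟧)
    (hU : U = C (1 - c)⁻¹ * phi (a * q) b (c * q) q) :
    U - C c * rescale q U = phi a b c q +
      X * (C (a * (1 - b)) * (C (1 - c)⁻¹ * phi (a * q) (b * q) (c * q) q)) := by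
  have h0 : 1 - c ≠ 0 := by simpa using h1 0
  have h3 : ∀ k, 1 - c * q * q ^ k ≠ 0 := fun k => by simpa [pow_succ', mul_assoc] using h1 (k + 1)
  ext n
  rcases n with _ | n
  · simp only [hU, coeff_rescale, LinearMap.map_sub, LinearMap.map_add, coeff_zero_X_mul,
      coeff_C_mul, phi, coeff_mk, poch, range_zero, prod_empty]
    field_simp; ring
  · simp only [hU, coeff_rescale, LinearMap.map_sub, LinearMap.map_add, coeff_succ_X_mul, coeff_C_mul, phi, coeff_mk,
      poch_succ' a, poch_succ' b, poch_succ' c, poch_succ q, poch_succ (a * q), poch_succ (c * q)]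
    have := poch_ne h2 n; have := poch_ne h3 n; have := h2 n; have := h3 n
    field_simp; ring

theorem main (ha : a ∈ S) (hb : b ∈ S) (h1 : ∀ k, 1 - c * q ^ k ≠ 0)
    (h2 : ∀ k, 1 - q * q ^ k ≠ 0) :
    (∀ n, D c q n * coeff n (C (1 - c)⁻¹ * (phi (a * q) (b * q) (c * q) q * (phi a b c q)⁻¹)) ∈ S) ∧
    ∀ n, D c q n * coeff n (C (1 - c)⁻¹ * (phi (a * q) b (c * q) q * (phi a b c q)⁻¹)) ∈ S := by
  have hF0 : constantCoeff (phi a b c q) ≠ 0 := by simp [phi, poch]
  have hF : phi a b c q ≠ 0 := fun e => hF0 (by simp [e])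
  have hi := PowerSeries.inv_mul_cancel _ hF0
  have e1 := idF (a := a) (b := b) h1 h2
  have e2 := idG (a := a) (b := b) h1 h2 _ rfl
  have e3 := idU (a := a) (b := b) h1 h2 _ rfl
  set F := phi a b c q
  set Γ := C (1 - c)⁻¹ * (phi (a * q) (b * q) (c * q) q * F⁻¹) with hΓ
  set U := C (1 - c)⁻¹ * (phi (a * q) b (c * q) q * F⁻¹) with hU
  have g1 : C (1 - c)⁻¹ * phi (a * q) (b * q) (c * q) q = Γ * F := by
    rw [hΓ, mul_assoc, mul_assoc, hi, mul_one]
  have g2 : C (1 - c)⁻¹ * phi (a * q) b (c * q) q = U * F := by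
    rw [hU, mul_assoc, mul_assoc, hi, mul_one]
  rw [g1] at e1 e2 e3
  rw [g2, map_mul, e1] at e3
  rw [map_mul (rescale q), e1] at e2
  have f2 : Γ - C c * rescale q Γ = 1 + X * (C (a + b - a * b) * Γ - C (a * b * q) * rescale q Γ -
      C c * (C ((1 - a) * (1 - b)) * (Γ * rescale q Γ)) +
      C (a * b * q) * (C ((1 - a) * (1 - b)) * (X * (Γ * rescale q Γ)))) :=
    mul_right_cancel₀ hF (by linear_combination e2)
  have f3 : U - C c * rescale q U = 1 + X * (C (a * (1 - b)) * Γ -
      C c * (C ((1 - a) * (1 - b)) * (Γ * rescale q U))) :=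
    mul_right_cancel₀ hF (by linear_combination e3)
  have key : ∀ (φ ψ : K⟦X⟧), φ - C c * rescale q φ = 1 + X * ψ → D c q 0 * coeff 0 φ ∈ S ∧
      ∀ n, D' c q n * coeff n ψ ∈ S → D c q (n + 1) * coeff (n + 1) φ ∈ S := by
    intro φ ψ h
    refine ⟨?_, fun n hn => ?_⟩
    · have := congrArg (coeff 0) h
      simp only [map_sub, coeff_C_mul, coeff_rescale, map_add, coeff_zero_X_mul, coeff_zero_one]
        at this
      convert S.one_mem using 1
      simp only [D, zero_add, range_one, prod_singleton, Nat.div_self one_pos]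
      linear_combination this
    · have := congrArg (coeff (n + 1)) h
      simp only [map_sub, coeff_C_mul, coeff_rescale, map_add, coeff_succ_X_mul, coeff_one,
        if_neg (Nat.succ_ne_zero n), zero_add] at this
      rw [D_succ, mul_assoc]
      convert hn using 2
      linear_combination this
  have l : (1 - a) * (1 - b) ∈ S := S.mul_mem (S.sub_mem S.one_mem ha) (S.sub_mem S.one_mem hb)
  have abq : a * b * q ∈ S := S.mul_mem (S.mul_mem ha hb) hq
  have mulS : ∀ (s d x : K), s ∈ S → d * x ∈ S → d * (s * x) ∈ S := fun s d x h1 h2 => by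
    rw [mul_left_comm]; exact S.mul_mem h1 h2
  have r1 : ∀ n, D c q n * coeff n Γ ∈ S := by
    intro n
    induction n using Nat.strong_induction_on with
    | _ n ih =>
    rcases n with _ | n
    · exact (key _ _ f2).1
    refine (key _ _ f2).2 n ?_
    have ih' : ∀ i ≤ n, D c q i * coeff i Γ ∈ S := fun i hi => ih i (by omega)
    have t1 := one_good S hc hq n n le_rfl _ (ih' n le_rfl)
    simp only [LinearMap.map_sub, LinearMap.map_add, coeff_C_mul, coeff_rescale]
    rw [mul_add, mul_sub, mul_sub]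
    refine S.add_mem (S.sub_mem (S.sub_mem (mulS _ _ _ (S.sub_mem (S.add_mem ha hb)
      (S.mul_mem ha hb)) t1) (mulS _ _ _ abq (mulS _ _ _ (S.pow_mem hq _) t1)))
      (mulS _ _ _ hc (mulS _ _ _ l (two_good S hc hq n n le_rfl _ _ ih' ih'))))
      (mulS _ _ _ abq (mulS _ _ _ l ?_))
    rcases n with _ | n
    · simp
    · rw [coeff_succ_X_mul]; exact two_good S hc hq n _ (by omega) _ _ ih' ih'
  refine ⟨r1, fun n => ?_⟩
  induction n using Nat.strong_induction_on with
  | _ n ih =>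
  rcases n with _ | n
  · exact (key _ _ f3).1
  refine (key _ _ f3).2 n ?_
  simp only [LinearMap.map_sub, coeff_C_mul]
  rw [mul_sub]
  exact S.sub_mem (mulS _ _ _ (S.mul_mem ha (S.sub_mem S.one_mem hb))
    (one_good S hc hq n n le_rfl _ (r1 n))) (mulS _ _ _ hc (mulS _ _ _ l
    (two_good S hc hq n n le_rfl _ _ (fun i _ => r1 i) fun i hi => ih i (by omega))))

end

theorem var_ne (i j : Fin 4) (k : ℕ) : 1 - var i * var j ^ k ≠ 0 := by
  have : 1 - var i * var j ^ k = algebraMap (MvPolynomial (Fin 4) ℚ) RF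
      (1 - MvPolynomial.X i * MvPolynomial.X j ^ k) := by simp [var]
  rw [this, Ne, FaithfulSMul.algebraMap_eq_zero_iff]
  intro h
  simpa using congrArg MvPolynomial.constantCoeff h

theorem main' :
    (∀ n, ∃ P : MvPolynomial (Fin 4) ℤ, MvPolynomial.aeval var P = D (var 2) (var 3) n *
      ((1 - var 2)⁻¹ * coeff n (phi (var 0 * var 3) (var 1 * var 3) (var 2 * var 3) (var 3) *
        (phi (var 0) (var 1) (var 2) (var 3))⁻¹))) ∧
    ∀ n, ∃ P : MvPolynomial (Fin 4) ℤ, MvPolynomial.aeval var P = D (var 2) (var 3) n *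
      ((1 - var 2)⁻¹ * coeff n (phi (var 0 * var 3) (var 1) (var 2 * var 3) (var 3) *
        (phi (var 0) (var 1) (var 2) (var 3))⁻¹)) := by
  have hm : ∀ i, var i ∈ (MvPolynomial.aeval (R := ℤ) var).range.toSubring :=
    fun i => ⟨MvPolynomial.X i, by simp⟩
  have := main (MvPolynomial.aeval (R := ℤ) var).range.toSubring (hm 2) (hm 3) (hm 0) (hm 1)
    (var_ne 2 3) (var_ne 3 3)
  simp only [coeff_C_mul] at this
  exact this

end Pool.Agent.H31.QHyp
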