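import Mathlib

set_option autoImplicit false
open Finset

namespace Pool.Agent.H31.QInt

/-- The q-Pochhammer symbol (x;q)_n in a commutative ring. -/
def poch {S : Type} [CommRing S] (x q : S) (n : ℕ) : S := ∏ j ∈ range n, (1 - x * q ^ j)

section
variable {S : Type} [CommRing S]

theorem poch_succ (x q : S) (n : ℕ) : poch x q (n + 1) = poch x q n * (1 - x * q ^ n) :=
  prod_range_succ _ _

theorem poch_succ' (x q : S) (n : ℕ) : poch x q (n + 1) = poch (x * q) q n * (1 - x) := by
  unfold poch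
  rw [prod_range_succ']
  simp only [pow_zero, mul_one, pow_succ', mul_assoc]

theorem map_poch {T : Type} [CommRing T] (f : S →+* T) (x q : S) (n : ℕ) :
    f (poch x q n) = poch (f x) (f q) n := by simp [poch]

def FF (p r : S) (N : ℕ) : S := ∑ n ∈ range N, (p * r) ^ (n + 1) * poch r r n

def GG (p q : S) (N : ℕ) : S := ∑ n ∈ range N, p * q ^ n * poch p q n * poch q q n

theorem FF_eq (p q r : S) (h : q * r = 1) (N : ℕ) :
    p * FF p r N + (1 - p) * FF (p * q) r N = p - p ^ (N + 1) * poch r r N := by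
  induction N with
  | zero => simp [FF, poch]
  | succ N ih =>
    simp only [FF, sum_range_succ, mul_assoc p q r, h, mul_one, poch_succ] at ih ⊢
    linear_combination ih

theorem GG_eq (p q : S) (N : ℕ) :
    p * GG p q N + (1 - p) * GG (p * q) q N = p - p * poch p q N * poch q q N := by
  induction N with
  | zero => simp [GG, poch]
  | succ N ih =>
    have h := (poch_succ p q N).symm.trans (poch_succ' p q N)
    simp only [GG, sum_range_succ, poch_succ] at ih ⊢
    linear_combination ih - p * q ^ (N + 1) * poch q q N * h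

theorem one (q r : S) (h : q * r = 1) (M : ℕ) (hM : poch r r M = 0) (N : ℕ) : ∀ p s : S,
    p * s = 1 → poch s r N = 0 → ∑ n ∈ range N, poch s r n = FF p r M := by
  have key : ∀ p s : S, p * s = 1 → FF p r M = 1 + (1 - s) * FF (p * q) r M := by
    intro p s hs
    have := FF_eq p q r h M
    rw [hM] at this
    linear_combination s * this + (1 - FF p r M + FF (p * q) r M) * hs
  have : ∀ N, ∀ p s : S, p * s = 1 →
      FF p r M = ∑ n ∈ range N, poch s r n + poch s r N * FF (p * q ^ N) r M := by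
    intro N
    induction N with
    | zero => intro p s _; simp [poch]
    | succ N ih =>
      intro p s hs
      rw [ih p s hs, key (p * q ^ N) (s * r ^ N) (by
        rw [mul_mul_mul_comm, hs, ← mul_pow, h]; simp), sum_range_succ, poch_succ, pow_succ,
        mul_assoc p]
      ring
  intro p s hs hN
  rw [this N p s hs, hN]; simp

open Polynomial in
theorem two (q r : S) (h : q * r = 1) (N : ℕ) (h1 : poch r r N = 0) (h2 : poch q q N = 0)
    (p : S) : GG p q N = FF p r N := by
  have e1 := FF_eq (X : S[X]) (C q) (C r) (by rw [← map_mul, h, map_one]) N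
  have e2 := GG_eq (X : S[X]) (C q) N
  rw [← map_poch C r r, h1] at e1
  rw [← map_poch C q q, h2] at e2
  set Δ : S[X] := GG X (C q) N - FF X (C r) N with hΔ
  have hev : ∀ {T : Type} [CommRing T] (f : S[X] →+* T),
      f Δ = GG (f X) (f (C q)) N - FF (f X) (f (C r)) N := by
    intro T _ f; simp only [hΔ, GG, FF, map_poch, map_sub, map_sum, map_mul, map_pow]
  have e3 : Δ.comp (C q * X) = GG (X * C q) (C q) N - FF (X * C q) (C r) N := by
    have := hev (compRingHom (C q * X))
    rw [coe_compRingHom_apply, coe_compRingHom_apply, coe_compRingHom_apply, coe_compRingHom_apply,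
      X_comp, C_comp, C_comp] at this
    rw [this, mul_comm]
  have e4 : Δ.comp (C q * X) = X * (Δ.comp (C q * X) - Δ) := by
    rw [e3]; simp only [map_zero, mul_zero, sub_zero] at e1 e2
    linear_combination e2 - e1
  have e5 : ∀ n, Δ.coeff n = 0 := by
    have u : ∀ n, Δ.coeff n * q ^ n = 0 → Δ.coeff n = 0 := fun n hn => by
      have : q ^ n * r ^ n = 1 := by rw [← mul_pow, h, one_pow]
      linear_combination r ^ n * hn - Δ.coeff n * this
    intro n
    induction n with
    | zero =>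
      have := congrArg (coeff · 0) e4
      simp only [coeff_X_mul_zero, comp_C_mul_X_coeff] at this
      exact u 0 this
    | succ n ih =>
      have := congrArg (coeff · (n + 1)) e4
      simp only [coeff_X_mul, coeff_sub, comp_C_mul_X_coeff, ih] at this
      exact u _ (by simpa using this)
  have e6 : Δ = 0 := Polynomial.ext e5
  have := hev (evalRingHom p)
  rw [e6] at this
  simp only [map_zero, coe_evalRingHom, eval_X, eval_C] at this
  linear_combination -this

theorem poch_dvd (x q : S) (m : ℕ) (hm : 1 ≤ m) (h : x ∣ 1 - q ^ m) (t N : ℕ) (hN : m * t ≤ N) :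
    x ^ t ∣ poch q q N := by
  refine Dvd.dvd.trans ?_ (prod_dvd_prod_of_subset _ _ _ (range_subset_range.mpr hN))
  clear hN
  induction t with
  | zero => simp
  | succ t ih =>
    rw [mul_add, mul_one, prod_range_add, pow_succ]
    refine mul_dvd_mul ih (Dvd.dvd.trans ?_ (dvd_prod_of_mem _ (mem_range.mpr
      (show m - 1 < m by omega))))
    rw [← pow_succ', show m * t + (m - 1) + 1 = m * (t + 1) by rw [mul_add]; omega, pow_mul]
    exact h.trans (by simpa using sub_dvd_pow_sub_pow 1 (q ^ m) (t + 1))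

end

def J (d : Fin 2 →₀ ℕ) : Ideal (MvPowerSeries (Fin 2) ℂ) where
  carrier := {f | ∀ e ≤ d, MvPowerSeries.coeff e f = 0}
  add_mem' := fun h1 h2 e he => by rw [map_add, h1 e he, h2 e he, add_zero]
  zero_mem' := fun _ _ => rfl
  smul_mem' := fun c f h e he => by
    rw [smul_eq_mul, MvPowerSeries.coeff_mul]
    refine sum_eq_zero fun x hx => ?_
    rw [HasAntidiagonal.mem_antidiagonal] at hx
    rw [h x.2 (le_trans (hx ▸ le_add_self) he), mul_zero]

theorem ev_J (a : ℕ → MvPowerSeries (Fin 2) ℂ)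
    (h : ∀ d, {n | MvPowerSeries.coeff d (a n) ≠ 0}.Finite) (d : Fin 2 →₀ ℕ) :
    ∃ N, ∀ n, N ≤ n → a n ∈ J d := by
  obtain ⟨N, hN⟩ := ((Set.finite_Iic d).biUnion fun e _ => h e).bddAbove
  refine ⟨N + 1, fun n hn e he => ?_⟩
  by_contra hc
  have := hN (Set.mem_biUnion (show e ∈ Set.Iic d from he) hc)
  omega

theorem fs (f : ℕ → ℂ) (N : ℕ) (h : ∀ n, N ≤ n → f n = 0) : ∑ᶠ n, f n = ∑ n ∈ range N, f n :=
  finsum_eq_sum_of_support_subset _ fun n hn => by
    simpa using not_le.mp fun e => hn (h n e)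

theorem Q1 (p q s r : MvPowerSeries (Fin 2) ℂ) (hp : p * s = 1) (hq : q * r = 1)
    (h1 : ∀ d, {n | MvPowerSeries.coeff d (poch s r n) ≠ 0}.Finite)
    (h2 : ∀ d, {n | MvPowerSeries.coeff d ((p * r) ^ (n + 1) * poch r r n) ≠ 0}.Finite)
    (d : Fin 2 →₀ ℕ) : ∑ᶠ n, MvPowerSeries.coeff d (poch s r n) =
      ∑ᶠ n, MvPowerSeries.coeff d ((p * r) ^ (n + 1) * poch r r n) := by
  obtain ⟨N, hN⟩ := ev_J _ h1 d
  obtain ⟨M, hM⟩ := ev_J _ h2 d
  rw [fs _ N fun n hn => hN n hn d le_rfl, fs _ M fun n hn => hM n hn d le_rfl, ← map_sum,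
    ← map_sum, ← sub_eq_zero, ← map_sub]
  refine (show _ ∈ J d from Ideal.Quotient.eq.mp ?_) d le_rfl
  let π := Ideal.Quotient.mk (J d)
  have h3 : poch r r M ∈ J d := by
    have := (J d).mul_mem_left ((s * q) ^ (M + 1)) (hM M le_rfl)
    rwa [← mul_assoc, ← mul_pow, show s * q * (p * r) = 1 by
      linear_combination q * r * hp + hq, one_pow, one_mul] at this
  have := one (π q) (π r) (by rw [← map_mul, hq, map_one]) M
    (by rw [← map_poch]; exact Ideal.Quotient.eq_zero_iff_mem.mpr h3) N (π p) (π s)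
    (by rw [← map_mul, hp, map_one])
    (by rw [← map_poch]; exact Ideal.Quotient.eq_zero_iff_mem.mpr (hN N le_rfl))
  simpa [FF, map_poch, π] using this

open PowerSeries in
theorem Q2 {R : Type} [CommRing R] (p q r : R⟦X⟧) (hq : q * r = 1) (m : ℕ) (hm : 1 ≤ m)
    (h : constantCoeff q ^ m = 1) (k : ℕ) :
    {n | coeff k (p * q ^ n * poch p q n * poch q q n) ≠ 0}.Finite ∧
    {n | coeff k ((p * r) ^ (n + 1) * poch r r n) ≠ 0}.Finite ∧
    ∑ᶠ n, coeff k (p * q ^ n * poch p q n * poch q q n) =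
      ∑ᶠ n, coeff k ((p * r) ^ (n + 1) * poch r r n) := by
  have d1 : (X : R⟦X⟧) ∣ 1 - q ^ m := X_dvd_iff.mpr (by simp [h])
  have d2 : (X : R⟦X⟧) ∣ 1 - r ^ m := by
    have : q ^ m * r ^ m = 1 := by rw [← mul_pow, hq, one_pow]
    have e : 1 - r ^ m = (1 - q ^ m) * (-r ^ m) := by linear_combination -this
    rw [e]; exact d1.mul_right _
  have z1 : ∀ n, m * (k + 1) ≤ n → coeff k (p * q ^ n * poch p q n * poch q q n) = 0 := fun n hn =>
    X_pow_dvd_iff.mp ((poch_dvd X q m hm d1 _ n hn).mul_left _) k (by omega)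
  have z2 : ∀ n, m * (k + 1) ≤ n → coeff k ((p * r) ^ (n + 1) * poch r r n) = 0 := fun n hn =>
    X_pow_dvd_iff.mp ((poch_dvd X r m hm d2 _ n hn).mul_left _) k (by omega)
  have s1 : ∀ f : ℕ → R, (∀ n, m * (k + 1) ≤ n → f n = 0) →
      Function.support f ⊆ (range (m * (k + 1)) : Finset ℕ) := fun f h n hn => by
    simpa using not_le.mp fun e => hn (h n e)
  refine ⟨(finite_toSet _).subset (s1 _ z1), (finite_toSet _).subset (s1 _ z2), ?_⟩
  rw [finsum_eq_sum_of_support_subset _ (s1 _ z1), finsum_eq_sum_of_support_subset _ (s1 _ z2),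
    ← map_sum, ← map_sum, ← sub_eq_zero, ← map_sub]
  refine X_pow_dvd_iff.mp (Ideal.mem_span_singleton.mp (Ideal.Quotient.eq.mp ?_)) k
    (Nat.lt_succ_self k)
  let π := Ideal.Quotient.mk (Ideal.span {(X : R⟦X⟧) ^ (k + 1)})
  have := two (π q) (π r) (by rw [← map_mul, hq, map_one]) (m * (k + 1))
    (by rw [← map_poch]; exact Ideal.Quotient.eq_zero_iff_mem.mpr (Ideal.mem_span_singleton.mpr
      (poch_dvd X r m hm d2 _ _ le_rfl)))
    (by rw [← map_poch]; exact Ideal.Quotient.eq_zero_iff_mem.mpr (Ideal.mem_span_singleton.mpr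
      (poch_dvd X q m hm d1 _ _ le_rfl))) (π p)
  simpa [FF, GG, map_poch, π] using this

end Pool.Agent.H31.QInt
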