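import Mathlib

set_option autoImplicit false
open Module Submodule

namespace Pool.Agent.H31.QMat

abbrev E4 := Fin 4 → ZMod 2

def cls (v : E4) : Fin 7 :=
  if v 2 = 0 ∧ v 3 = 0 then 0
  else if v 0 = 0 ∧ v 1 = 0 then 1
  else if v 2 = v 0 ∧ v 3 = v 1 then 2
  else if v 2 = v 1 ∧ v 3 = v 0 + v 1 then 3
  else if v 0 = 0 then 4 else if v 1 = 0 then 5 else 6

theorem cls_add : ∀ u v : E4, cls u = cls v → u + v = 0 ∨ cls (u + v) = cls u := by
  decide +kernel

def L (i : Fin 7) : Submodule (ZMod 2) E4 where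
  carrier := {v | v = 0 ∨ cls v = i}
  add_mem' := by
    rintro u v (hu | hu) (hv | hv)
    · left; simp [hu, hv]
    · right; simpa [hu] using hv
    · right; simpa [hv] using hu
    · rcases cls_add u v (hu.trans hv.symm) with h | h
      · exact Or.inl h
      · exact Or.inr (h.trans hu)
  zero_mem' := Or.inl rfl
  smul_mem' := by
    intro c v hv
    have : c = 0 ∨ c = 1 := by revert c; decide
    rcases this with rfl | rfl
    · left; simp
    · simpa using hv

theorem mem_L (i : Fin 7) (v : E4) : v ∈ L i ↔ v = 0 ∨ cls v = i := Iff.rfl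

open Classical in
noncomputable def rho (V : Submodule (ZMod 2) E4) : ℕ :=
  if V = ⊥ then 0 else if ∃ i, V ≤ L i then 1 else 2

theorem rho_le (V : Submodule (ZMod 2) E4) : rho V ≤ 2 := by
  unfold rho; split_ifs <;> omega

theorem rho_dim (V : Submodule (ZMod 2) E4) : rho V ≤ finrank (ZMod 2) V := by
  unfold rho
  split_ifs with h1 h2
  · omega
  · exact Submodule.one_le_finrank_iff.mpr h1
  · by_contra h
    obtain ⟨v, hv⟩ := finrank_le_one_iff.mp (show finrank (ZMod 2) V ≤ 1 by omega)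
    refine h2 ⟨cls v, fun w hw => ?_⟩
    obtain ⟨c, hc⟩ := hv ⟨w, hw⟩
    have : w = c • (v : E4) := (congrArg Subtype.val hc).symm
    rw [this]
    exact (L _).smul_mem _ (Or.inr rfl)

theorem rho_mono (U V : Submodule (ZMod 2) E4) (h : U ≤ V) : rho U ≤ rho V := by
  unfold rho
  by_cases h1 : V = ⊥
  · have : U = ⊥ := le_bot_iff.mp (h1 ▸ h)
    simp [this]
  · rw [if_neg h1]
    by_cases h2 : ∃ i, V ≤ L i
    · obtain ⟨i, hi⟩ := h2
      have h3 : ∃ i, U ≤ L i := ⟨i, h.trans hi⟩
      rw [if_pos h3, if_pos (show ∃ i, V ≤ L i from ⟨i, hi⟩)]; split_ifs <;> omega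
    · rw [if_neg h2]; split_ifs <;> omega

theorem rho_sub (U V : Submodule (ZMod 2) E4) :
    rho (U ⊔ V) + rho (U ⊓ V) ≤ rho U + rho V := by
  have m1 := rho_mono _ _ (inf_le_left : U ⊓ V ≤ U)
  have m2 := rho_mono _ _ (inf_le_right : U ⊓ V ≤ V)
  have m3 := rho_le (U ⊔ V)
  by_cases h1 : U = ⊥
  · subst h1; rw [bot_sup_eq, bot_inf_eq]; omega
  by_cases h2 : V = ⊥
  · subst h2; rw [sup_bot_eq, inf_bot_eq]
  by_cases h3 : ∃ i, U ≤ L i
  swap
  · have : rho U = 2 := by simp only [rho, if_neg h1, if_neg h3]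
    omega
  by_cases h4 : ∃ i, V ≤ L i
  swap
  · have : rho V = 2 := by simp only [rho, if_neg h2, if_neg h4]
    omega
  have e1 : rho U = 1 := by simp only [rho, if_neg h1, if_pos h3]
  have e2 : rho V = 1 := by simp only [rho, if_neg h2, if_pos h4]
  by_cases h5 : U ⊓ V = ⊥
  · have : rho (U ⊓ V) = 0 := by simp only [rho, if_pos h5]
    omega
  obtain ⟨v, hv, hv0⟩ := (Submodule.ne_bot_iff _).mp h5
  obtain ⟨i, hi⟩ := h3
  obtain ⟨j, hj⟩ := h4
  have hij : i = j := by
    rcases hi hv.1 with h | h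
    · exact absurd h hv0
    · rcases hj hv.2 with h' | h'
      · exact absurd h' hv0
      · exact h.symm.trans h'
  subst hij
  have : rho (U ⊔ V) ≤ 1 := by
    unfold rho
    rw [if_pos (show ∃ i, U ⊔ V ≤ L i from ⟨i, sup_le hi hj⟩)]
    split_ifs <;> omega
  omega

theorem span_rank {K : Type} [Field K] (τ : Fin 7 → K) (hτ : Function.Injective τ)
    (A : Set (Projectivization (ZMod 2) E4)) :
    rho (⨆ p ∈ A, p.submodule) =
      finrank K (span K ((fun p : Projectivization (ZMod 2) E4 =>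
        (![1, τ (cls p.rep)] : Fin 2 → K)) '' A)) := by
  rcases A.eq_empty_or_nonempty with rfl | ⟨p, hp⟩
  · rw [Set.image_empty, span_empty]; simp [rho]
  have hmem : ∀ q ∈ A, q.rep ∈ (⨆ p ∈ A, p.submodule : Submodule (ZMod 2) E4) := by
    intro q hq
    refine (le_iSup₂_of_le (f := fun p (_ : p ∈ A) => p.submodule) q hq le_rfl) ?_
    rw [Projectivization.submodule_eq]; exact mem_span_singleton_self _
  have h1 : (⨆ p ∈ A, p.submodule : Submodule (ZMod 2) E4) ≠ ⊥ := by
    intro h
    have := hmem p hp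
    rw [h, mem_bot] at this
    exact p.rep_nonzero this
  unfold rho
  rw [if_neg h1]
  by_cases h2 : ∀ q ∈ A, cls q.rep = cls p.rep
  · rw [if_pos]
    · have : ((fun p : Projectivization (ZMod 2) E4 =>
          (![1, τ (cls p.rep)] : Fin 2 → K)) '' A) = {![1, τ (cls p.rep)]} := by
        ext x
        simp only [Set.mem_image, Set.mem_singleton_iff]
        constructor
        · rintro ⟨q, hq, rfl⟩; rw [h2 q hq]
        · rintro rfl; exact ⟨p, hp, rfl⟩
      rw [this, finrank_span_singleton]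
      intro h; simpa using congrFun h 0
    · refine ⟨cls p.rep, iSup₂_le fun q hq => ?_⟩
      rw [Projectivization.submodule_eq, span_singleton_le_iff_mem]
      exact Or.inr (h2 q hq)
  · push Not at h2
    obtain ⟨q, hq, hne⟩ := h2
    rw [if_neg]
    · have : span K ((fun p : Projectivization (ZMod 2) E4 =>
          (![1, τ (cls p.rep)] : Fin 2 → K)) '' A) = ⊤ := by
        rw [eq_top_iff]
        intro x _
        have hd : τ (cls q.rep) - τ (cls p.rep) ≠ 0 := sub_ne_zero.mpr fun e => hne (hτ e)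
        have e : x = ((x 0 * τ (cls q.rep) - x 1) / (τ (cls q.rep) - τ (cls p.rep))) •
            (![1, τ (cls p.rep)] : Fin 2 → K) +
            ((x 1 - x 0 * τ (cls p.rep)) / (τ (cls q.rep) - τ (cls p.rep))) •
            (![1, τ (cls q.rep)] : Fin 2 → K) := by
          ext i; fin_cases i <;> simp <;> field_simp <;> ring
        rw [e]
        exact add_mem (smul_mem _ _ (subset_span ⟨p, hp, rfl⟩))
          (smul_mem _ _ (subset_span ⟨q, hq, rfl⟩))
      rw [this]; simp
    · rintro ⟨i, hi⟩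
      rcases hi (hmem p hp) with h | h
      · exact p.rep_nonzero h
      · rcases hi (hmem q hq) with h' | h'
        · exact q.rep_nonzero h'
        · exact hne (h'.trans h.symm)

theorem not_rep {K : Type} [Field K] [Algebra (ZMod 2) K] {k : ℕ} (ψ : E4 →+ (Fin k → K))
    (h : ∀ V : Submodule (ZMod 2) E4, rho V = finrank K (span K (ψ '' V))) : False := by
  have dep : ∀ u v : E4, cls u = cls v → ∀ i j, ψ u i * ψ v j = ψ u j * ψ v i := by
    intro u v huv i j
    have h1 : finrank K (span K (ψ '' (L (cls u)))) ≤ 1 := by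
      rw [← h]; unfold rho
      rw [if_pos (show ∃ i, L (cls u) ≤ L i from ⟨_, le_rfl⟩)]
      split_ifs <;> omega
    obtain ⟨w, hw⟩ := finrank_le_one_iff.mp h1
    obtain ⟨a, ha⟩ := hw ⟨ψ u, subset_span ⟨u, Or.inr rfl, rfl⟩⟩
    obtain ⟨b, hb⟩ := hw ⟨ψ v, subset_span ⟨v, Or.inr huv.symm, rfl⟩⟩
    have ha' : ψ u = a • (w : Fin k → K) := (congrArg Subtype.val ha).symm
    have hb' : ψ v = b • (w : Fin k → K) := (congrArg Subtype.val hb).symm
    rw [ha', hb']; simp only [Pi.smul_apply, smul_eq_mul]; ring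
  have two : (2 : K) = 0 := by
    have : (algebraMap (ZMod 2) K) 2 = 2 := map_ofNat _ 2
    rw [← this, show (2 : ZMod 2) = 0 from rfl, map_zero]
  let a1 : E4 := ![1, 0, 0, 0]
  let a2 : E4 := ![0, 1, 0, 0]
  let b1 : E4 := ![0, 0, 1, 0]
  let b2 : E4 := ![0, 0, 0, 1]
  have key : ∀ i j, ψ (a1 + b1 + b2) i * ψ (a2 + b1) j = ψ (a1 + b1 + b2) j * ψ (a2 + b1) i := by
    intro i j
    have d1 := dep a1 a2 (by decide) i j
    have d2 := dep b1 b2 (by decide) i j
    have d3 := dep (a1 + b1) (a2 + b2) (by decide) i j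
    have d4 := dep (a1 + b2) (a2 + b1 + b2) (by decide) i j
    simp only [map_add, Pi.add_apply] at d3 d4 ⊢
    linear_combination d1 + d2 + d3 + d4 - (ψ a1 i * ψ a2 j - ψ a1 j * ψ a2 i +
      ψ a1 i * ψ b2 j - ψ a1 j * ψ b2 i + ψ b1 i * ψ b2 j - ψ b1 j * ψ b2 i) * two
  set u := a1 + b1 + b2 with hu
  set v := a2 + b1 with hv
  have hV : rho (span (ZMod 2) {u, v}) = 2 := by
    have m1 : u ∈ span (ZMod 2) {u, v} := subset_span (by simp)
    have m2 : v ∈ span (ZMod 2) {u, v} := subset_span (by simp)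
    unfold rho
    rw [if_neg, if_neg]
    · rintro ⟨i, hi⟩
      have c1 := hi m1
      have c2 := hi m2
      rw [mem_L] at c1 c2
      clear hi; revert c1 c2; revert i; decide
    · intro e; rw [e, mem_bot] at m1; revert m1; decide
  obtain ⟨w, hw1, hw2⟩ : ∃ w : Fin k → K, ψ u ∈ span K {w} ∧ ψ v ∈ span K {w} := by
    by_cases h0 : ψ u = 0
    · exact ⟨ψ v, by simp [h0], mem_span_singleton_self _⟩
    · obtain ⟨i, hi⟩ := Function.ne_iff.mp h0
      refine ⟨ψ u, mem_span_singleton_self _, mem_span_singleton.mpr ⟨ψ v i / ψ u i, ?_⟩⟩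
      ext j
      have := key i j
      simp only [Pi.zero_apply] at hi
      simp only [Pi.smul_apply, smul_eq_mul]
      field_simp
      linear_combination -this
  have hle : span K (ψ '' (span (ZMod 2) {u, v} : Submodule (ZMod 2) E4)) ≤ span K {w} := by
    rw [span_le]
    rintro _ ⟨x, hx, rfl⟩
    obtain ⟨c, d, rfl⟩ := mem_span_pair.mp hx
    have hz : ∀ c : ZMod 2, c = 0 ∨ c = 1 := by decide
    have hc := hz c
    have hd := hz d
    rcases hc with rfl | rfl <;> rcases hd with rfl | rfl <;> simp [hw1, hw2, add_mem]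
  have h2 := Submodule.finrank_mono hle
  have h3 : finrank K (span K ({w} : Set (Fin k → K))) ≤ 1 := by
    simpa using finrank_span_le_card ({w} : Set (Fin k → K))
  rw [← h, hV] at h2
  omega

end Pool.Agent.H31.QMat
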