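import Mathlib

open Finset MeasureTheory ProbabilityTheory

namespace Pool.Agent.H31.RK

theorem sm {Ω ι : Type} [MeasurableSpace Ω] (P : Measure Ω) [IsProbabilityMeasure P] (s : Finset ι)
    (A : ι → Set Ω) (hA : ∀ i, MeasurableSet (A i)) (V t : ℝ) (ht : 0 ≤ t)
    (h : ∑ i ∈ s, ∑ j ∈ s, (P.real (A i ∩ A j) - P.real (A i) * P.real (A j)) ≤ V) :
    t ^ 2 * P.real {ω | t ≤ |∑ i ∈ s, ((A i).indicator 1 ω - P.real (A i))|} ≤ V := by
  let f : ι → Ω → ℝ := fun i ω => (A i).indicator 1 ω - P.real (A i)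
  have e : ∀ i j, (fun ω => f i ω * f j ω) = fun ω => (A i ∩ A j).indicator 1 ω -
      P.real (A j) * (A i).indicator 1 ω - P.real (A i) * (A j).indicator 1 ω +
      P.real (A i) * P.real (A j) := fun i j => by
    funext ω; simp only [f, Set.inter_indicator_one, Pi.mul_apply]; ring
  have i1 : ∀ B : Set Ω, MeasurableSet B → Integrable (B.indicator (1 : Ω → ℝ)) P := fun B hB =>
    (integrable_const 1).indicator hB
  have i2 : ∀ i j, Integrable (fun ω => f i ω * f j ω) P := fun i j => by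
    rw [e]
    exact (((i1 _ ((hA i).inter (hA j))).sub ((i1 _ (hA i)).const_mul _)).sub
      ((i1 _ (hA j)).const_mul _)).add (integrable_const _)
  have i3 : ∀ i j, ∫ ω, f i ω * f j ω ∂P = P.real (A i ∩ A j) - P.real (A i) * P.real (A j) := fun i j => by
    rw [e, integral_add, integral_sub, integral_sub, integral_const_mul, integral_const_mul,
      integral_indicator_one ((hA i).inter (hA j)), integral_indicator_one (hA i),
      integral_indicator_one (hA j)]
    · simp; ring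
    · exact i1 _ ((hA i).inter (hA j))
    · exact (i1 _ (hA i)).const_mul _
    · exact (i1 _ ((hA i).inter (hA j))).sub ((i1 _ (hA i)).const_mul _)
    · exact (i1 _ (hA j)).const_mul _
    · exact ((i1 _ ((hA i).inter (hA j))).sub ((i1 _ (hA i)).const_mul _)).sub ((i1 _ (hA j)).const_mul _)
    · exact integrable_const _
  have e2 : (fun ω => (∑ i ∈ s, f i ω) ^ 2) = fun ω => ∑ i ∈ s, ∑ j ∈ s, f i ω * f j ω := by
    funext ω; rw [sq, sum_mul_sum]
  have := mul_meas_ge_le_integral_of_nonneg (μ := P) (f := fun ω => (∑ i ∈ s, f i ω) ^ 2)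
    (Filter.Eventually.of_forall fun _ => sq_nonneg _)
    (by rw [e2]; exact integrable_finsetSum _ fun i _ => integrable_finsetSum _ fun j _ => i2 i j) (t ^ 2)
  rw [show ∫ ω, (∑ i ∈ s, f i ω) ^ 2 ∂P = ∑ i ∈ s, ∑ j ∈ s, ∫ ω, f i ω * f j ω ∂P by
    rw [e2, integral_finsetSum _ fun i _ => integrable_finsetSum _ fun j _ => i2 i j]
    exact sum_congr rfl fun i _ => integral_finsetSum _ fun j _ => i2 i j] at this
  simp only [i3] at this
  refine le_trans (mul_le_mul_of_nonneg_left (measureReal_mono fun ω hω => ?_) (sq_nonneg _)) (this.trans h)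
  simp only [Set.mem_ofPred_eq] at hω ⊢
  rw [← sq_abs (∑ i ∈ s, f i ω)]; exact pow_le_pow_left₀ ht hω 2

variable {n : ℕ}

noncomputable def cell (a : Fin n → ℕ) (x : Fin n → ℝ) : Fin n → ℤ := fun i => ⌊2 ^ a i * x i⌋

noncomputable def v (a : Fin n → ℕ) : ℝ := ∏ i, (1 / 2) ^ a i

noncomputable def μ (n : ℕ) : Measure (Fin n → ℝ) := volume.restrict (Set.Icc 0 1)

def U (n : ℕ) : Set (Fin n → ℝ) := Set.pi Set.univ fun _ => Set.Ico 0 1

instance : IsProbabilityMeasure (μ n) := ⟨by simp [μ, Real.volume_Icc_pi]⟩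

theorem v_pos (a : Fin n → ℕ) : 0 < v a := prod_pos fun _ _ => by positivity

@[fun_prop] theorem cell_meas (a : Fin n → ℕ) : Measurable (cell a) := by unfold cell; fun_prop

theorem ae_U : ∀ᵐ x ∂μ n, x ∈ U n := by
  have h : U n =ᵐ[volume] Set.Icc 0 1 := Measure.univ_pi_Ico_ae_eq_Icc
  rw [μ, ← Measure.restrict_congr_set h]
  exact ae_restrict_mem (MeasurableSet.univ_pi fun _ => measurableSet_Ico)

theorem cell_mu (a : Fin n → ℕ) {y : Fin n → ℝ} (hy : y ∈ U n) :
    μ n {x | cell a x = cell a y} = ENNReal.ofReal (v a) := by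
  have e : {x | cell a x = cell a y} = Set.pi Set.univ fun i =>
      Set.Ico ((cell a y i : ℝ) / 2 ^ a i) ((cell a y i + 1) / 2 ^ a i) := by
    ext x
    simp only [Set.mem_ofPred_eq, funext_iff, Set.mem_pi, Set.mem_univ, true_imp_iff, Set.mem_Ico]
    refine forall_congr' fun i => ?_
    rw [cell, Int.floor_eq_iff, div_le_iff₀' (by positivity), lt_div_iff₀' (by positivity)]
  rw [e, μ, Measure.restrict_eq_self, Real.volume_pi_Ico, v, ENNReal.ofReal_prod_of_nonneg
    fun _ _ => by positivity]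
  · exact prod_congr rfl fun i _ => by congr 1; field_simp; simp
  · intro x hx
    refine ⟨fun i => le_trans ?_ (hx i trivial).1, fun i => (hx i trivial).2.le.trans ?_⟩
    · have := (hy i trivial).1
      have : 0 ≤ cell a y i := Int.floor_nonneg.2 (by positivity)
      exact div_nonneg (Int.cast_nonneg this) (by positivity)
    · have : cell a y i < 2 ^ a i := Int.floor_lt.2 (by
        push_cast; exact mul_lt_of_lt_one_right (by positivity) (hy i trivial).2)
      rw [div_le_iff₀ (by positivity)]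
      simp only [Pi.one_apply, one_mul]; exact_mod_cast this

theorem cell_real (a : Fin n → ℕ) {y : Fin n → ℝ} (hy : y ∈ U n) :
    (μ n).real {x | cell a x = cell a y} = v a := by
  rw [measureReal_def, cell_mu a hy, ENNReal.toReal_ofReal (v_pos a).le]

theorem nest {a b : Fin n → ℕ} (h : a ≤ b) {x y : Fin n → ℝ} (e : cell b x = cell b y) :
    cell a x = cell a y := by
  have : ∀ x : Fin n → ℝ, ∀ i, cell a x i = cell b x i / (2 ^ (b i - a i) : ℕ) := fun x i => by
    rw [cell, cell, ← Int.floor_div_natCast]; congr 1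
    rw [show b i = a i + (b i - a i) from (Nat.add_sub_of_le (h i)).symm, pow_add, Nat.add_sub_cancel_left]
    push_cast; field_simp
  funext i; rw [this, this, e]

theorem close {a : Fin n → ℕ} {x y : Fin n → ℝ} (e : cell a x = cell a y) (i : Fin n) :
    |x i - y i| < (1 / 2) ^ a i := by
  have := Int.abs_sub_lt_one_of_floor_eq_floor (congrFun e i)
  rw [← mul_sub, abs_mul, abs_of_pos (by positivity)] at this
  rw [one_div, inv_pow, ← one_div, lt_div_iff₀' (by positivity)]; exact this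

variable {Ω : Type} [MeasurableSpace Ω] {P : Measure Ω} [IsProbabilityMeasure P] {X : ℕ → Ω → Fin n → ℝ}

def E (X : ℕ → Ω → Fin n → ℝ) (a : Fin n → ℕ) (p : ℕ × ℕ) : Set Ω := {ω | cell a (X p.1 ω) = cell a (X p.2 ω)}

omit [IsProbabilityMeasure P] in
theorem X_U (hm : ∀ j, Measurable (X j)) (hl : ∀ j, P.map (X j) = μ n) (j : ℕ) : ∀ᵐ ω ∂P, X j ω ∈ U n :=
  ae_of_ae_map (hm j).aemeasurable (hl j ▸ ae_U)

theorem E_meas (hm : ∀ j, Measurable (X j)) (a : Fin n → ℕ) (p : ℕ × ℕ) : MeasurableSet (E X a p) :=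
  measurableSet_eq_fun ((cell_meas a).comp (hm _)) ((cell_meas a).comp (hm _))

theorem fresh (hm : ∀ j, Measurable (X j)) (hi : iIndepFun X P) (hl : ∀ j, P.map (X j) = μ n)
    (a : Fin n → ℕ) (p : ℕ × ℕ) (l z : ℕ) (h1 : p.1 ≠ z) (h2 : p.2 ≠ z) (h3 : l ≠ z) :
    P.real (E X a p ∩ E X a (z, l)) = P.real (E X a p) * v a := by
  let S : Finset ℕ := {p.1, p.2, l}
  have I := (hi.indepFun_finset S {z} (by simp [S, h1.symm, h2.symm, h3.symm]) hm).comp
    (φ := fun y : S → Fin n → ℝ => (y ⟨p.1, by simp [S]⟩, y ⟨p.2, by simp [S]⟩, y ⟨l, by simp [S]⟩))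
    (ψ := fun y : ({z} : Finset ℕ) → Fin n → ℝ => y ⟨z, mem_singleton_self z⟩) (by fun_prop)
    (measurable_pi_apply (X := fun _ : ({z} : Finset ℕ) => Fin n → ℝ) ⟨z, mem_singleton_self z⟩)
  let Y : Ω → (Fin n → ℝ) × (Fin n → ℝ) × (Fin n → ℝ) := fun ω => (X p.1 ω, X p.2 ω, X l ω)
  have mY : Measurable Y := (hm _).prodMk ((hm _).prodMk (hm _))
  change IndepFun Y (X z) P at I
  have e := I.map_prod_eq_prod_map_map mY.aemeasurable (hm z).aemeasurable
  let D : Set (((Fin n → ℝ) × (Fin n → ℝ) × (Fin n → ℝ)) × (Fin n → ℝ)) :=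
    {w | cell a w.1.1 = cell a w.1.2.1} ∩ {w | cell a w.2 = cell a w.1.2.2}
  have mD : MeasurableSet D :=
    (measurableSet_eq_fun (by fun_prop) (by fun_prop)).inter (measurableSet_eq_fun (by fun_prop) (by fun_prop))
  have : P (E X a p ∩ E X a (z, l)) = P (E X a p) * ENNReal.ofReal (v a) := by
    calc _ = P.map (fun ω => (Y ω, X z ω)) D := (Measure.map_apply (mY.prodMk (hm z)) mD).symm
      _ = ∫⁻ ω, μ n (Prod.mk (Y ω) ⁻¹' D) ∂P := by
        rw [e, hl, Measure.prod_apply mD, lintegral_map (measurable_measure_prodMk_left mD) mY]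
      _ = ∫⁻ ω, (E X a p).indicator (fun _ => ENNReal.ofReal (v a)) ω ∂P := by
        refine lintegral_congr_ae ((X_U hm hl l).mono fun ω hω => ?_)
        by_cases c : ω ∈ E X a p
        · simp only [Set.indicator_of_mem c]
          rw [← cell_mu a hω]; congr 1; ext x; exact and_iff_right c
        · simp only [Set.indicator_of_notMem c]
          rw [show Prod.mk (Y ω) ⁻¹' D = ∅ from Set.eq_empty_of_forall_notMem fun x hx => c hx.1, measure_empty]
      _ = _ := by rw [lintegral_indicator_const (E_meas hm a p), mul_comm]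
  rw [measureReal_def, this, ENNReal.toReal_mul, ENNReal.toReal_ofReal (v_pos a).le, measureReal_def]

def B (k : ℕ) : Finset ℕ := Ico (2 ^ k) (2 ^ (k + 1))

theorem card_B (k : ℕ) : (B k).card = 2 ^ k := by rw [B, Nat.card_Ico, pow_succ]; omega

noncomputable def Φ (x : ℕ → Fin n → ℝ) (a : Fin n → ℕ) (k k' : ℕ) : ℝ :=
  ∑ j ∈ B k, ∑ j' ∈ B k', if j < j' then (if cell a (x j) = cell a (x j') then 1 else 0) - v a else 0

theorem tail (hm : ∀ j, Measurable (X j)) (hi : iIndepFun X P) (hl : ∀ j, P.map (X j) = μ n)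
    (a : Fin n → ℕ) (k k' : ℕ) (ε : ℝ) (hε : 0 < ε) :
    P.real {ω | ε * (2 ^ k * 2 ^ k' * v a) ≤ Φ (fun j => X j ω) a k k'} ≤ 1 / (ε ^ 2 * (2 ^ k * 2 ^ k' * v a)) := by
  have sy : ∀ i j, E X a (i, j) = E X a (j, i) := fun i j => Set.ext fun ω => eq_comm
  have one : ∀ p : ℕ × ℕ, p.1 < p.2 → P.real (E X a p) = v a := fun p h => by
    have := fresh hm hi hl a (p.1, p.1) p.1 p.2 h.ne h.ne h.ne
    rw [show E X a (p.1, p.1) = Set.univ from Set.eq_univ_of_forall fun _ => rfl, Set.univ_inter, sy] at this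
    simpa using this
  have two : ∀ p q : ℕ × ℕ, p.1 < p.2 → q.1 < q.2 → p ≠ q →
      P.real (E X a p ∩ E X a q) = P.real (E X a p) * P.real (E X a q) := fun p q hp hq n => by
    rcases lt_trichotomy p.2 q.2 with c | c | c
    · rw [one q hq, ← fresh hm hi hl a p q.1 q.2 (by omega) (by omega) (by omega), sy q.2]
    · rw [one q hq, ← fresh hm hi hl a p q.2 q.1 (fun e => n (Prod.ext e c)) (by omega) (by omega)]
    · rw [one p hp, mul_comm, Set.inter_comm, ← fresh hm hi hl a q p.1 p.2 (by omega) (by omega) (by omega), sy p.2]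
  set s := (B k ×ˢ B k').filter fun p => p.1 < p.2 with hs
  set M := 2 ^ k * 2 ^ k' * v a with hM
  have M0 : 0 < M := by have := v_pos a; positivity
  have := sm P s (E X a) (E_meas hm a) M (ε * M) (by positivity) (by
    calc _ ≤ ∑ p ∈ s, v a := sum_le_sum fun p hp => by
          rw [sum_eq_single p (fun q hq n => by
            rw [two p q (mem_filter.1 hp).2 (mem_filter.1 hq).2 n.symm, sub_self]) (fun h => absurd hp h),
            Set.inter_self, one p (mem_filter.1 hp).2]
          nlinarith [v_pos a]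
      _ ≤ M := by
          rw [sum_const, nsmul_eq_mul]
          refine mul_le_mul_of_nonneg_right ?_ (v_pos a).le
          have := card_filter_le (B k ×ˢ B k') fun p => p.1 < p.2
          rw [card_product, card_B, card_B] at this
          exact_mod_cast this)
  rw [le_div_iff₀ (by positivity)]
  refine le_of_mul_le_mul_right ?_ M0
  refine le_trans (le_of_eq (by ring)) ((mul_le_mul_of_nonneg_left (measureReal_mono fun ω hω => ?_)
    (sq_nonneg _)).trans (this.trans (one_mul M).ge))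
  simp only [Set.mem_ofPred_eq] at hω ⊢
  refine le_trans hω (le_trans (le_of_eq ?_) (le_abs_self _))
  rw [Φ, ← sum_product', ← sum_filter]
  refine sum_congr rfl fun p hp => ?_
  rw [one p (mem_filter.1 hp).2]
  by_cases c : cell a (X p.1 ω) = cell a (X p.2 ω) <;> simp [Set.indicator, E, c]

theorem good (hm : ∀ j, Measurable (X j)) (hi : iIndepFun X P) (hl : ∀ j, P.map (X j) = μ n)
    (ε : ℝ) (hε : 0 < ε) : ∀ᵐ ω ∂P, ∀ᶠ k' in Filter.atTop, ∀ k ≤ k', ∀ a : Fin n → ℕ,
      (3 / 4) ^ k ≤ 2 ^ k * v a → Φ (fun j => X j ω) a k k' ≤ ε * (2 ^ k * 2 ^ k' * v a) := by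
  classical
  let I : ℕ → Finset (ℕ × (Fin n → ℕ)) := fun k' =>
    {w ∈ range (k' + 1) ×ˢ Fintype.piFinset fun _ => range (2 * k' + 1) | (3 / 4) ^ w.1 ≤ 2 ^ w.1 * v w.2}
  let s : ℕ → Set Ω := fun k' => ⋃ w ∈ I k',
    {ω | ε * (2 ^ w.1 * 2 ^ k' * v w.2) ≤ Φ (fun j => X j ω) w.2 w.1 k'}
  let b : ℕ → ℝ := fun k => (2 ^ n * (3 / 2) / ε ^ 2) * (((k + 1 : ℕ) : ℝ) ^ (n + 1) * (2 / 3) ^ (k + 1))
  have hb : Summable b := ((summable_nat_add_iff 1).2
    (summable_pow_mul_geometric_of_norm_lt_one (n + 1) (r := (2 / 3 : ℝ)) (by norm_num))).mul_left _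
  have hs : ∀ k, P (s k) ≤ ENNReal.ofReal (b k) := fun k => by
    rw [← ofReal_measureReal (measure_ne_top P _)]
    refine ENNReal.ofReal_le_ofReal ((measureReal_biUnion_finset_le _ _).trans
      ((sum_le_card_nsmul _ _ ((2 / 3) ^ k / ε ^ 2) fun w hw => (tail hm hi hl _ _ _ ε hε).trans ?_).trans ?_))
    · obtain ⟨h1, h2⟩ := mem_filter.1 hw
      have h3 : (3 / 4 : ℝ) ^ k ≤ (3 / 4) ^ w.1 := pow_le_pow_of_le_one (by norm_num) (by norm_num)
        (Nat.lt_succ_iff.1 (mem_range.1 (mem_product.1 h1).1))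
      have := v_pos w.2
      rw [div_le_div_iff₀ (by positivity) (by positivity)]
      have e : (2 / 3 : ℝ) ^ k * (2 ^ k * (3 / 4) ^ k) = 1 := by rw [← mul_pow, ← mul_pow]; norm_num
      calc 1 * ε ^ 2 = (2 / 3 : ℝ) ^ k * (ε ^ 2 * (2 ^ k * (3 / 4) ^ k)) := by rw [mul_left_comm, e]; ring
        _ ≤ (2 / 3 : ℝ) ^ k * (ε ^ 2 * (2 ^ k * (2 ^ w.1 * v w.2))) := by gcongr; exact h3.trans h2
        _ = _ := by ring
    · have : ((I k).card : ℝ) ≤ 2 ^ n * ((k + 1 : ℕ) : ℝ) ^ (n + 1) := by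
        have := card_filter_le (range (k + 1) ×ˢ Fintype.piFinset fun _ : Fin n => range (2 * k + 1))
          fun w => (3 / 4) ^ w.1 ≤ 2 ^ w.1 * v w.2
        rw [card_product, Fintype.card_piFinset, card_range] at this
        simp only [card_range, prod_const, card_univ, Fintype.card_fin] at this
        have h2 : (2 * k + 1) ^ n ≤ (2 * (k + 1)) ^ n := Nat.pow_le_pow_left (by omega) n
        have : (I k).card ≤ 2 ^ n * (k + 1) ^ (n + 1) :=
          this.trans ((Nat.mul_le_mul_left _ h2).trans (le_of_eq (by rw [mul_pow]; ring)))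
        exact_mod_cast this
      rw [nsmul_eq_mul]
      exact (mul_le_mul_of_nonneg_right this (by positivity)).trans (le_of_eq (by simp only [b]; ring))
  filter_upwards [ae_eventually_notMem (μ := P) (s := s)
    (ne_top_of_le_ne_top hb.tsum_ofReal_ne_top (ENNReal.tsum_le_tsum hs))] with ω hω
  filter_upwards [hω] with k' h k hk a ha
  refine le_of_not_ge fun c => h (Set.mem_biUnion (x := (k, a)) (mem_filter.2 ⟨mem_product.2
    ⟨mem_range.2 (by omega), Fintype.mem_piFinset.2 fun i => mem_range.2 ?_⟩, ha⟩) c)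
  have h1 : v a ≤ (1 / 2) ^ a i := by
    rw [v, ← mul_prod_erase _ _ (mem_univ i)]
    exact mul_le_of_le_one_right (by positivity) (prod_le_one (fun _ _ => by positivity)
      fun _ _ => pow_le_one₀ (by norm_num) (by norm_num))
  have h2 : (1 / 2 : ℝ) ^ (2 * k) ≤ v a := by
    refine le_of_mul_le_mul_left (le_trans ?_ ha) (by positivity)
    rw [pow_mul, ← mul_pow]; exact pow_le_pow_left₀ (by norm_num) (by norm_num) k
  have := (pow_le_pow_iff_right_of_lt_one₀ (by norm_num) (by norm_num)).1 (h2.trans h1)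
  dsimp only; omega

end Pool.Agent.H31.RK
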