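import Pool.Agent.H31.RK1

open Finset MeasureTheory ProbabilityTheory Filter

namespace Pool.Agent.H31.RK

variable {n : ℕ}

theorem log_B {k j : ℕ} (h : j ∈ B k) : Nat.log 2 j = k :=
  Nat.log_eq_of_pow_le_of_lt_pow (mem_Ico.1 h).1 (mem_Ico.1 h).2

theorem cover (x : ℕ → Fin n → ℝ) (hx : ∀ j, x j ∈ U n) (a : ℕ → Fin n → ℕ) (ha : Monotone a)
    (T : Finset ℕ) (ε : ℝ) (hε : 0 < ε)
    (h : ∀ k ∈ T, ∀ k' ∈ T, k ≤ k' → Φ x (a k) k k' ≤ ε * (2 ^ k * 2 ^ k' * v (a k))) :
    (∑ k ∈ T, 2 ^ k * v (a k)) ^ 2 *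
      (μ n).real {y | ∀ k ∈ T, ∀ j ∈ B k, cell (a k) y ≠ cell (a k) (x j)} ≤
      ∑ k ∈ T, 2 ^ k * v (a k) + 2 * ε * (∑ k ∈ T, 2 ^ k * v (a k)) ^ 2 := by
  set M := ∑ k ∈ T, 2 ^ k * v (a k) with hM
  have M0 : 0 ≤ M := sum_nonneg fun k _ => by have := v_pos (a k); positivity
  let sh : ℕ → Fin n → ℕ := fun j => a (Nat.log 2 j)
  let A : ℕ → Set (Fin n → ℝ) := fun j => {y | cell (sh j) y = cell (sh j) (x j)}
  have sb : ∀ f : ℕ → ℝ, ∑ j ∈ T.biUnion B, f j = ∑ k ∈ T, ∑ j ∈ B k, f j := fun f =>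
    sum_biUnion fun k _ k' _ e => disjoint_left.2 fun j a b => e ((log_B a).symm.trans (log_B b))
  have mA : ∀ j, (μ n).real (A j) = v (sh j) := fun j => cell_real _ (hx j)
  have eM : ∑ j ∈ T.biUnion B, v (sh j) = M := by
    rw [sb]
    refine sum_congr rfl fun k _ => ?_
    rw [sum_congr rfl (g := fun _ => v (a k)) fun j hj => by simp only [sh, log_B hj], sum_const, card_B]
    simp
  let d : ℕ → ℕ → ℝ := fun j j' => if j < j' then
    v (sh j') * ((if cell (sh j) (x j) = cell (sh j) (x j') then 1 else 0) - v (sh j)) else 0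
  have dd : ∑ j ∈ T.biUnion B, ∑ j' ∈ T.biUnion B, d j j' ≤ ε * M ^ 2 := by
    rw [sb, sq, hM, sum_mul_sum, mul_sum]
    refine sum_le_sum fun k hk => ?_
    simp only [sb]
    rw [sum_comm, mul_sum]
    refine sum_le_sum fun k' hk' => ?_
    have e : ∑ j' ∈ B k', ∑ j ∈ B k, d j j' = v (a k') * Φ x (a k) k k' := by
      rw [sum_comm, Φ, mul_sum]
      refine sum_congr rfl fun j hj => ?_
      rw [mul_sum]
      refine sum_congr rfl fun j' hj' => ?_
      simp only [d, sh, log_B hj, log_B hj', mul_ite, mul_zero]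
    have p1 := v_pos (a k)
    have p2 := v_pos (a k')
    rw [sum_comm, e]
    by_cases c : k ≤ k'
    · exact (mul_le_mul_of_nonneg_left (h k hk k' hk' c) p2.le).trans (le_of_eq (by ring))
    · rw [show Φ x (a k) k k' = 0 from sum_eq_zero fun j hj => sum_eq_zero fun j' hj' => if_neg fun l =>
        c (log_B hj ▸ log_B hj' ▸ Nat.log_mono_right l.le)]
      rw [mul_zero]; positivity
  have lt : ∀ j j', j < j' → (μ n).real (A j ∩ A j') - v (sh j) * v (sh j') ≤ d j j' := fun j j' l => by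
    simp only [d, l, if_true]
    split_ifs with c
    · have : (μ n).real (A j ∩ A j') ≤ v (sh j') := mA j' ▸ measureReal_mono Set.inter_subset_right
      linarith
    · rw [show A j ∩ A j' = ∅ from Set.eq_empty_of_forall_notMem fun y hy =>
        c (hy.1.symm.trans (nest (ha (Nat.log_mono_right l.le)) hy.2))]
      simp [mul_comm]
  have := sm (μ n) (T.biUnion B) A (fun j => measurableSet_eq_fun (cell_meas _) measurable_const)
    (M + 2 * ε * M ^ 2) M M0 (by
      simp only [mA]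
      calc _ ≤ ∑ j ∈ T.biUnion B, ∑ j' ∈ T.biUnion B, ((if j = j' then v (sh j) else 0) + d j j' + d j' j) :=
            sum_le_sum fun j _ => sum_le_sum fun j' _ => by
              rcases lt_trichotomy j j' with l | rfl | l
              · simpa [l.ne, show d j' j = 0 from if_neg l.not_gt] using lt j j' l
              · simp [d, mA, mul_self_nonneg]
              · simpa [l.ne', show d j j' = 0 from if_neg l.not_gt, Set.inter_comm, mul_comm] using lt j' j l
        _ ≤ _ := by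
            simp only [sum_add_distrib]
            rw [sum_comm (f := fun j j' => d j' j), sum_congr rfl (g := fun j => v (sh j)) fun j hj => by
              simp [hj], eM]
            linarith)
  refine le_trans (mul_le_mul_of_nonneg_left (measureReal_mono fun y hy => ?_) (sq_nonneg _)) this
  simp only [Set.mem_ofPred_eq, mA] at hy ⊢
  rw [sum_congr rfl (g := fun j => - v (sh j)) fun j hj => by
    obtain ⟨k, hk, hj⟩ := mem_biUnion.1 hj
    rw [Set.indicator_of_notMem (by simp only [A, sh, log_B hj]; exact hy k hk j hj), zero_sub],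
    sum_neg_distrib, eM, abs_neg, abs_of_nonneg M0]

theorem shapes (ψ : Fin n → ℕ → ℝ) (h0 : ∀ i j, 0 < ψ i j) (h1 : ∀ i, Antitone (ψ i))
    (hd : ¬ Summable fun j => ∏ i, ψ i j) : ∃ a : ℕ → Fin n → ℕ, Monotone a ∧
      (∀ k i, (1 / 2) ^ a k i ≤ ψ i (2 ^ (k + 1))) ∧ ¬ Summable fun k => 2 ^ k * v (a k) := by
  classical
  have ex : ∀ k i, ∃ a : ℕ, (1 / 2 : ℝ) ^ a ≤ ψ i (2 ^ (k + 1)) := fun k i =>
    (exists_pow_lt_of_lt_one (h0 i _) (by norm_num)).imp fun _ h => h.le
  refine ⟨fun k i => Nat.find (ex k i), fun k k' h i => Nat.find_mono fun a ha =>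
    ha.trans (h1 i (Nat.pow_le_pow_right (by norm_num) (by omega))), fun k i => Nat.find_spec (ex k i),
    fun hs => hd ?_⟩
  rw [← summable_condensed_iff_of_nonneg (fun j => prod_nonneg fun i _ => (h0 i j).le)
    (fun j k _ h => prod_le_prod (fun i _ => (h0 i _).le) fun i _ => h1 i h), ← summable_nat_add_iff 1]
  refine Summable.of_nonneg_of_le (fun k => mul_nonneg (by positivity) (prod_nonneg fun i _ => (h0 i _).le))
    (fun k => ?_) (hs.mul_left (2 * ∏ i, (2 + ψ i 0)))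
  have : ∏ i, ψ i (2 ^ (k + 1)) ≤ (∏ i, (2 + ψ i 0)) * v fun i => Nat.find (ex k i) := by
    rw [v, ← prod_mul_distrib]
    refine prod_le_prod (fun i _ => (h0 i _).le) fun i _ => ?_
    have := h1 i (Nat.zero_le (2 ^ (k + 1)))
    rcases h : Nat.find (ex k i) with _ | m
    · simp; linarith
    · have := not_le.1 (Nat.find_min (ex k i) (m := m) (by omega))
      have p : (0 : ℝ) < (1 / 2) ^ m := by positivity
      have := h0 i 0
      rw [pow_succ (1 / 2 : ℝ)]; nlinarith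
  calc _ ≤ (2 : ℝ) ^ (k + 1) * ((∏ i, (2 + ψ i 0)) * v fun i => Nat.find (ex k i)) :=
        mul_le_mul_of_nonneg_left this (by positivity)
    _ = _ := by ring

theorem det (x : ℕ → Fin n → ℝ) (hx : ∀ j, x j ∈ U n)
    (hg : ∀ r : ℕ, ∀ᶠ k' in atTop, ∀ k ≤ k', ∀ a : Fin n → ℕ,
      (3 / 4) ^ k ≤ 2 ^ k * v a → Φ x a k k' ≤ (1 / (r + 1)) * (2 ^ k * 2 ^ k' * v a))
    (ψ : Fin n → ℕ → ℝ) (h0 : ∀ i j, 0 < ψ i j) (h1 : ∀ i, Antitone (ψ i))
    (hd : ¬ Summable fun j => ∏ i, ψ i j) :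
    ∀ᵐ y ∂μ n, ∃ᶠ j in atTop, ∀ i, |y i - x j i| < ψ i j := by
  classical
  obtain ⟨a, a1, a2, a3⟩ := shapes ψ h0 h1 hd
  simp only [frequently_atTop, ae_all_iff]
  intro J
  let m : ℕ → ℝ := fun k => if (3 / 4) ^ k ≤ 2 ^ k * v (a k) then 2 ^ k * v (a k) else 0
  have m0 : ∀ k, 0 ≤ m k := fun k => by
    have := v_pos (a k); simp only [m]; split_ifs <;> positivity
  have ns : ¬ Summable m := fun h => a3 (Summable.of_nonneg_of_le
    (fun k => by have := v_pos (a k); positivity) (fun k => by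
      simp only [m]; split_ifs with c
      · exact le_add_of_nonneg_right (by positivity)
      · rw [zero_add]; exact (not_le.1 c).le)
    (h.add (summable_geometric_of_lt_one (by norm_num) (by norm_num : (3 / 4 : ℝ) < 1))))
  rw [ae_iff, ← measureReal_eq_zero_iff]
  refine le_antisymm (le_of_forall_pos_le_add fun δ hδ => ?_) measureReal_nonneg
  obtain ⟨r, hr⟩ := exists_nat_one_div_lt (show 0 < δ / 3 by positivity)
  obtain ⟨K0, hK⟩ := eventually_atTop.1 (hg r)
  set K := max K0 J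
  obtain ⟨N, hN⟩ := (((not_summable_iff_tendsto_nat_atTop_of_nonneg fun k => m0 (k + K)).1
    fun h => ns ((summable_nat_add_iff K).1 h)).eventually_ge_atTop (3 / δ)).exists
  let T : Finset ℕ := {k ∈ (range N).image (· + K) | (3 / 4) ^ k ≤ 2 ^ k * v (a k)}
  have TK : ∀ k ∈ T, K ≤ k := fun k hk => by
    obtain ⟨i, -, rfl⟩ := mem_image.1 (mem_filter.1 hk).1; omega
  have c := cover x hx a a1 T (1 / (r + 1)) (by positivity) fun k hk k' hk' l =>
    hK k' ((le_max_left _ _).trans (TK k' hk')) k l _ (mem_filter.1 hk).2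
  have eM : ∑ k ∈ T, 2 ^ k * v (a k) = ∑ i ∈ range N, m (i + K) := by
    rw [sum_filter, sum_image fun _ _ _ _ e => by simpa using e]
  rw [eM] at c
  generalize ∑ i ∈ range N, m (i + K) = M at *
  have M0 : 0 < M := lt_of_lt_of_le (by positivity) hN
  rw [div_le_iff₀ hδ] at hN
  refine le_trans (measureReal_mono (s₂ := {y | ∀ k ∈ T, ∀ j ∈ B k, cell (a k) y ≠ cell (a k) (x j)})
    fun y hy k hk j hj e => hy ⟨j, ?_, fun i => ?_⟩) (le_of_mul_le_mul_left (c.trans ?_) (pow_pos M0 2))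
  · exact ((le_max_right _ _).trans (TK k hk)).trans (Nat.lt_two_pow_self.le.trans (mem_Ico.1 hj).1)
  · exact (close e i).trans_le ((a2 k i).trans (h1 i (mem_Ico.1 hj).2.le))
  · have := mul_le_mul_of_nonneg_right hr.le (sq_nonneg M)
    nlinarith

end Pool.Agent.H31.RK
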