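import Mathlib

set_option autoImplicit false
open Classical Finset

namespace Pool.Agent.H31.RankRamsey

/-- rows that are restrictions of members of a span of a finite family give a rank bound -/
theorem rank_le_of_rows {α β ι : Type} [Fintype α] [Fintype ι] (M : Matrix α α ℝ) (e : α → β)
    (v : ι → β → ℝ) (h : ∀ a, ∃ F ∈ Submodule.span ℝ (Set.range v), ∀ b, M a b = F (e b)) :
    M.rank ≤ Fintype.card ι := by
  rw [Matrix.rank_eq_finrank_span_row]
  have h1 : Submodule.span ℝ (Set.range M.row) ≤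
      Submodule.span ℝ (Set.range (fun i => (v i) ∘ e)) := by
    rw [Submodule.span_le]
    rintro _ ⟨a, rfl⟩
    obtain ⟨F, hF, hFa⟩ := h a
    have h2 : M.row a = (LinearMap.funLeft ℝ ℝ e) F := by
      funext b; simp [Matrix.row, hFa, LinearMap.funLeft_apply]
    rw [h2]
    have h3 := Submodule.mem_map_of_mem (f := LinearMap.funLeft ℝ ℝ e) hF
    rw [Submodule.map_span, ← Set.range_comp] at h3
    exact h3
  have : Module.Finite ℝ (Submodule.span ℝ (Set.range (fun i => (v i) ∘ e))) :=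
    Module.Finite.span_of_finite ℝ (Set.finite_range _)
  exact (Submodule.finrank_mono h1).trans (finrank_range_le_card _)

noncomputable def mon {n : ℕ} (S : Finset (Fin n)) : Finset (Fin n) → ℝ :=
  fun y => if S ⊆ y then 1 else 0

noncomputable def L (n j : ℕ) : Submodule ℝ (Finset (Fin n) → ℝ) :=
  Submodule.span ℝ (Set.range (fun S : {S : Finset (Fin n) // S.card ≤ j} => mon S.1))

theorem mon_mem {n j : ℕ} (S : Finset (Fin n)) (h : S.card ≤ j) : mon S ∈ L n j :=
  Submodule.subset_span ⟨⟨S, h⟩, rfl⟩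

theorem mul_aff {n j : ℕ} (a : ℝ) (b : Fin n → ℝ) (f : Finset (Fin n) → ℝ) (hf : f ∈ L n j) :
    (fun y => (a + ∑ i, b i * (if i ∈ y then 1 else 0)) * f y) ∈ L n (j + 1) := by
  induction hf using Submodule.span_induction with
  | mem x hx =>
    obtain ⟨⟨S, hS⟩, rfl⟩ := hx
    have : (fun y => (a + ∑ i, b i * (if i ∈ y then 1 else 0)) * mon S y)
        = a • mon S + ∑ i, b i • mon (insert i S) := by
      funext y
      simp only [Pi.add_apply, Pi.smul_apply, Finset.sum_apply, smul_eq_mul, mon, add_mul,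
        Finset.sum_mul, Finset.insert_subset_iff]
      congr 1
      refine Finset.sum_congr rfl fun i _ => ?_
      by_cases h1 : i ∈ y <;> by_cases h2 : S ⊆ y <;> simp [h1, h2]
    simp only []
    rw [this]
    refine Submodule.add_mem _ (Submodule.smul_mem _ _ (mon_mem _ (by omega)))
      (Submodule.sum_mem _ fun i _ => Submodule.smul_mem _ _ (mon_mem _ ?_))
    exact (Finset.card_insert_le _ _).trans (by omega)
  | zero =>
    have : (fun y : Finset (Fin n) => (a + ∑ i, b i * (if i ∈ y then 1 else 0)) *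
      (0 : Finset (Fin n) → ℝ) y) = 0 := by funext y; simp
    rw [this]; exact Submodule.zero_mem _
  | add x y _ _ hx hy =>
    have : (fun z : Finset (Fin n) => (a + ∑ i, b i * (if i ∈ z then 1 else 0)) * (x + y) z) =
      (fun z => (a + ∑ i, b i * (if i ∈ z then 1 else 0)) * x z) +
      (fun z => (a + ∑ i, b i * (if i ∈ z then 1 else 0)) * y z) := by
      funext z; simp only [Pi.add_apply]; ring
    rw [this]; exact Submodule.add_mem _ hx hy
  | smul c x _ hx =>
    have : (fun z : Finset (Fin n) => (a + ∑ i, b i * (if i ∈ z then 1 else 0)) * (c • x) z) =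
      c • (fun z => (a + ∑ i, b i * (if i ∈ z then 1 else 0)) * x z) := by
      funext z; simp only [Pi.smul_apply, smul_eq_mul]; ring
    rw [this]; exact Submodule.smul_mem _ _ hx

/-- Hamming distance -/
noncomputable def dist {n : ℕ} (x y : Finset (Fin n)) : ℕ :=
  ∑ i, if (i ∈ x ↔ i ∈ y) then 0 else 1

theorem dist_comm {n : ℕ} (x y : Finset (Fin n)) : dist x y = dist y x := by
  unfold dist; refine Finset.sum_congr rfl fun i _ => ?_
  by_cases h1 : i ∈ x <;> by_cases h2 : i ∈ y <;> simp [h1, h2]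

theorem dist_tri {n : ℕ} (x y z : Finset (Fin n)) : dist x y + dist y z + dist x z ≤ 2 * n := by
  unfold dist
  rw [← Finset.sum_add_distrib, ← Finset.sum_add_distrib]
  calc _ ≤ ∑ _i : Fin n, 2 := by
        refine Finset.sum_le_sum fun i _ => ?_
        by_cases h1 : i ∈ x <;> by_cases h2 : i ∈ y <;> by_cases h3 : i ∈ z <;> simp [h1, h2, h3]
    _ = 2 * n := by simp [mul_comm]

theorem dist_le {n : ℕ} (x y : Finset (Fin n)) : dist x y ≤ n := by
  unfold dist
  calc _ ≤ ∑ _i : Fin n, 1 := by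
        refine Finset.sum_le_sum fun i _ => ?_
        split_ifs <;> simp
    _ = n := by simp

theorem dist_eq_zero {n : ℕ} (x y : Finset (Fin n)) (h : dist x y = 0) : x = y := by
  unfold dist at h
  rw [Finset.sum_eq_zero_iff] at h
  ext i
  have := h i (Finset.mem_univ _)
  by_contra hc
  simp [hc] at this

theorem dist_self {n : ℕ} (x : Finset (Fin n)) : dist x x = 0 := by simp [dist]

theorem card_as_sum {n : ℕ} (x : Finset (Fin n)) : x.card = ∑ i, if i ∈ x then 1 else 0 := by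
  simp

theorem dist_parity {n : ℕ} (x y : Finset (Fin n)) :
    ∃ k, x.card + y.card = dist x y + 2 * k := by
  refine ⟨∑ i, if (i ∈ x ∧ i ∈ y) then 1 else 0, ?_⟩
  rw [card_as_sum x, card_as_sum y]
  unfold dist
  rw [← Finset.sum_add_distrib, Finset.mul_sum, ← Finset.sum_add_distrib]
  refine Finset.sum_congr rfl fun i _ => ?_
  by_cases h1 : i ∈ x <;> by_cases h2 : i ∈ y <;> simp [h1, h2]

theorem dist_aff {n : ℕ} (x y : Finset (Fin n)) :
    (dist x y : ℝ) = x.card + ∑ i, (if i ∈ x then (-1 : ℝ) else 1) * (if i ∈ y then 1 else 0) := by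
  rw [card_as_sum x]
  unfold dist
  push_cast
  rw [← Finset.sum_add_distrib]
  refine Finset.sum_congr rfl fun i _ => ?_
  by_cases h1 : i ∈ x <;> by_cases h2 : i ∈ y <;> simp [h1, h2]

noncomputable def pol (m : ℕ) (t : ℝ) : ℝ := ∏ i ∈ range m, ((i : ℝ) + 1 - t)

theorem pol_mem {n : ℕ} (m : ℕ) (x : Finset (Fin n)) :
    (fun y => pol m ((dist x y : ℝ) / 2)) ∈ L n m := by
  induction m with
  | zero =>
    have : (fun y : Finset (Fin n) => pol 0 ((dist x y : ℝ) / 2)) = mon ∅ := by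
      funext y; simp [pol, mon]
    rw [this]; exact mon_mem _ (by simp)
  | succ m ih =>
    have h := mul_aff ((m : ℝ) + 1 - x.card / 2)
      (fun i => -(if i ∈ x then (-1 : ℝ) else 1) / 2) _ ih
    convert h using 2 with y
    unfold pol
    rw [Finset.prod_range_succ, mul_comm]
    congr 1
    rw [dist_aff]
    have : ∑ i, -(if i ∈ x then (-1 : ℝ) else 1) / 2 * (if i ∈ y then 1 else 0)
        = -(∑ i, (if i ∈ x then (-1 : ℝ) else 1) * (if i ∈ y then 1 else 0)) / 2 := by
      rw [← Finset.sum_neg_distrib, Finset.sum_div]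
      refine Finset.sum_congr rfl fun i _ => ?_
      ring
    rw [this]; ring

theorem pol_zero (m : ℕ) : pol m 0 = (m.factorial : ℝ) := by
  unfold pol
  induction m with
  | zero => simp
  | succ m ih => rw [Finset.prod_range_succ, ih, Nat.factorial_succ]; push_cast; ring

theorem pol_succ (m s : ℕ) :
    pol m ((s : ℝ) + 1) = (-1) ^ m * (s.descFactorial m : ℝ) := by
  unfold pol
  induction m with
  | zero => simp
  | succ m ih =>
    rw [Finset.prod_range_succ, ih, Nat.descFactorial_succ]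
    by_cases h : s < m
    · rw [Nat.descFactorial_eq_zero_iff_lt.mpr h]; simp
    · push_cast [Nat.cast_sub (not_lt.mp h)]; ring

/-- the weight -/
def th (m t : ℕ) : ℕ := (t - 1).choose m

theorem pol_val (m t : ℕ) (hm : Odd m) :
    pol m (t : ℝ) / (m.factorial : ℝ) = (if t = 0 then 1 else 0) - (th m t : ℝ) := by
  have hf : (m.factorial : ℝ) ≠ 0 := by positivity
  rcases t with _ | s
  · have : th m 0 = 0 := by
      unfold th; exact Nat.choose_eq_zero_of_lt (by have := hm.pos; omega)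
    simp [pol_zero, hf, this]
  · have h := pol_succ m s
    push_cast
    rw [h, hm.neg_one_pow, Nat.descFactorial_eq_factorial_mul_choose]
    simp [th]
    field_simp

theorem th_pos {m t : ℕ} (hm : 0 < m) (h : 0 < th m t) : m < t := by
  by_contra hc
  have : th m t = 0 := Nat.choose_eq_zero_of_lt (by omega)
  omega

def lab {q : ℕ} (i : ℕ) (u : Fin q × Fin q) : ℕ := u.2.val + i * u.1.val

theorem lab_unique {q : ℕ} {u v : Fin q × Fin q} (h : u ≠ v) {i j : ℕ}
    (hi : lab i u = lab i v) (hj : lab j u = lab j v) : i = j := by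
  unfold lab at hi hj
  by_contra hij
  have h1 : ((i : ℤ) - j) * ((u.1.val : ℤ) - v.1.val) = 0 := by
    zify at hi hj; linear_combination hi - hj
  rcases mul_eq_zero.mp h1 with h2 | h2
  · apply hij; omega
  · have h3 : u.1.val = v.1.val := by omega
    apply h
    rw [h3] at hi
    exact Prod.ext (Fin.ext h3) (Fin.ext (by omega))

theorem lab_sum {q : ℕ} (u v : Fin q × Fin q) (θ : ℕ) :
    (∑ i ∈ range θ, if lab i u = lab i v then (1 : ℝ) else 0) =
      (if u = v then (θ : ℝ) else 0) +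
        (if (u ≠ v ∧ ∃ i < θ, lab i u = lab i v) then 1 else 0) := by
  by_cases h : u = v
  · subst h; simp
  · simp only [h, if_false, zero_add, ne_eq, not_false_eq_true, true_and]
    split_ifs with h2
    · obtain ⟨i, hi, he⟩ := h2
      rw [Finset.sum_eq_single i]
      · simp [he]
      · intro j _ hj
        rw [if_neg]
        intro hc; exact hj (lab_unique h hc he)
      · intro hc; exact absurd (Finset.mem_range.mpr hi) hc
    · refine Finset.sum_eq_zero fun i hi => ?_
      rw [if_neg]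
      intro hc; exact h2 ⟨i, Finset.mem_range.mp hi, hc⟩

/-- the graph -/
def G0 (m q : ℕ) : SimpleGraph ((Fin q × Fin q) × Finset (Fin (3 * m))) where
  Adj a b := a.1 ≠ b.1 ∧ ∃ i < th m (dist a.2 b.2 / 2), lab i a.1 = lab i b.1
  symm := ⟨by
    rintro a b ⟨h1, i, hi, he⟩
    exact ⟨h1.symm, i, by rwa [dist_comm], he.symm⟩⟩
  loopless := ⟨by rintro a ⟨h, _⟩; exact h rfl⟩

theorem G0_far {m q : ℕ} (hm : 0 < m) {a b} (h : (G0 m q).Adj a b) : 2 * m < dist a.2 b.2 := by
  obtain ⟨_, i, hi, _⟩ := h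
  have := th_pos hm (lt_of_le_of_lt (Nat.zero_le _) hi)
  omega

theorem G0_free {m q : ℕ} (hm : 0 < m) : (G0 m q).CliqueFree 3 := by
  intro s hs
  rw [SimpleGraph.is3Clique_iff] at hs
  obtain ⟨a, b, c, h1, h2, h3, _⟩ := hs
  have := G0_far hm h1
  have := G0_far hm h2
  have := G0_far hm h3
  have := dist_tri a.2 b.2 c.2
  omega

abbrev Idx (m q : ℕ) : Type :=
  Unit ⊕ ((Fin q × Fin q) × {S : Finset (Fin (3 * m)) // S.card ≤ m}) ⊕
    (Fin (4 ^ m) × Fin ((4 ^ m + 1) * q) × Finset (Fin (3 * m)))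

noncomputable def fam (m q : ℕ) : Idx m q → ((Fin q × Fin q) × Finset (Fin (3 * m))) → ℝ
  | Sum.inl _ => fun _ => 1
  | Sum.inr (Sum.inl p) => fun b => (if p.1 = b.1 then 1 else 0) * mon p.2.1 b.2
  | Sum.inr (Sum.inr p) => fun b => if (p.2.1.val = lab p.1.val b.1 ∧ p.2.2 = b.2) then 1 else 0

theorem th_le (m : ℕ) (x y : Finset (Fin (3 * m))) : th m (dist x y / 2) ≤ 4 ^ m := by
  have h := dist_le x y
  unfold th
  calc _ ≤ 2 ^ (dist x y / 2 - 1) := Nat.choose_le_two_pow _ _
    _ ≤ 2 ^ (2 * m) := Nat.pow_le_pow_right (by norm_num) (by omega)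
    _ = 4 ^ m := by rw [pow_mul]; norm_num

theorem row_mem (m q : ℕ) (a : (Fin q × Fin q) × Finset (Fin (3 * m))) :
    (fun b : (Fin q × Fin q) × Finset (Fin (3 * m)) =>
      (if a.1 = b.1 then (1 : ℝ) else 0) * (pol m ((dist a.2 b.2 : ℝ) / 2) / (m.factorial : ℝ)) +
      ∑ i ∈ range (th m (dist a.2 b.2 / 2)), if lab i a.1 = lab i b.1 then (1 : ℝ) else 0)
      ∈ Submodule.span ℝ (Set.range (fam m q)) := by
  refine Submodule.add_mem (Submodule.span ℝ (Set.range (fam m q)))
    (x := fun b => (if a.1 = b.1 then (1 : ℝ) else 0) *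
      (pol m ((dist a.2 b.2 : ℝ) / 2) / (m.factorial : ℝ)))
    (y := fun b => ∑ i ∈ range (th m (dist a.2 b.2 / 2)),
      if lab i a.1 = lab i b.1 then (1 : ℝ) else 0) ?_ ?_
  · have key : ∀ f ∈ L (3 * m) m,
        (fun b : (Fin q × Fin q) × Finset (Fin (3 * m)) =>
          (if a.1 = b.1 then (1 : ℝ) else 0) * f b.2) ∈ Submodule.span ℝ (Set.range (fam m q)) := by
      intro f hf
      induction hf using Submodule.span_induction with
      | mem x hx =>
        obtain ⟨S, rfl⟩ := hx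
        exact Submodule.subset_span ⟨Sum.inr (Sum.inl (a.1, S)), rfl⟩
      | zero =>
        convert Submodule.zero_mem _ using 1
        funext b; simp
      | add x y _ _ hx hy =>
        convert Submodule.add_mem _ hx hy using 1
        funext b; simp only [Pi.add_apply]; ring
      | smul c x _ hx =>
        convert Submodule.smul_mem _ c hx using 1
        funext b; simp only [Pi.smul_apply, smul_eq_mul]; ring
    have h := key _ (Submodule.smul_mem _ (1 / (m.factorial : ℝ)) (pol_mem m a.2))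
    convert h using 2 with b
    simp only [Pi.smul_apply, smul_eq_mul]; ring
  · have hl : ∀ i : Fin (4 ^ m), lab i.val a.1 < (4 ^ m + 1) * q := by
      intro i
      unfold lab
      have h1 := a.1.1.2
      have h2 := a.1.2.2
      have h3 := i.2
      have h4 : i.val * a.1.1.val ≤ 4 ^ m * q := Nat.mul_le_mul h3.le h1.le
      nlinarith
    have : (fun b : (Fin q × Fin q) × Finset (Fin (3 * m)) =>
        ∑ i ∈ range (th m (dist a.2 b.2 / 2)), if lab i a.1 = lab i b.1 then (1 : ℝ) else 0) =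
        ∑ y : Finset (Fin (3 * m)), ∑ i : Fin (4 ^ m),
          (if i.val < th m (dist a.2 y / 2) then (1 : ℝ) else 0) •
            fam m q (Sum.inr (Sum.inr (i, ⟨lab i.val a.1, hl i⟩, y))) := by
      funext b
      simp only [Finset.sum_apply, Pi.smul_apply, smul_eq_mul, fam]
      rw [Finset.sum_eq_single b.2]
      · rw [Fin.sum_univ_eq_sum_range (fun i => (if i < th m (dist a.2 b.2 / 2) then (1 : ℝ) else 0)
          * (if (lab i a.1 = lab i b.1 ∧ b.2 = b.2) then 1 else 0)) (4 ^ m)]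
        symm
        rw [← Finset.sum_subset (Finset.range_subset_range.mpr (th_le m a.2 b.2))]
        · refine Finset.sum_congr rfl fun i hi => ?_
          simp [Finset.mem_range.mp hi]
        · intro i _ hi
          simp only [Finset.mem_range] at hi
          simp [hi]
      · intro y _ hy
        simp [hy]
      · simp
    rw [this]
    exact Submodule.sum_mem _ fun y _ => Submodule.sum_mem _ fun i _ =>
      Submodule.smul_mem _ _ (Submodule.subset_span ⟨_, rfl⟩)

theorem entry (m q : ℕ) (hm : Odd m) (a b : (Fin q × Fin q) × Finset (Fin (3 * m)))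
    (hp : a.2.card % 2 = b.2.card % 2) :
    (if a.1 = b.1 then (1 : ℝ) else 0) * (pol m ((dist a.2 b.2 : ℝ) / 2) / (m.factorial : ℝ)) +
      (∑ i ∈ range (th m (dist a.2 b.2 / 2)), if lab i a.1 = lab i b.1 then (1 : ℝ) else 0)
      = (if (G0 m q).Adj a b then 1 else 0) + (if a = b then 1 else 0) := by
  obtain ⟨k, hk⟩ := dist_parity a.2 b.2
  have h2 : (dist a.2 b.2 : ℝ) / 2 = ((dist a.2 b.2 / 2 : ℕ) : ℝ) := by
    have : dist a.2 b.2 = 2 * (dist a.2 b.2 / 2) := by omega
    rw [div_eq_iff (by norm_num)]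
    exact_mod_cast (by omega)
  rw [h2, pol_val _ _ hm, lab_sum]
  have h3 : (G0 m q).Adj a b ↔ (a.1 ≠ b.1 ∧ ∃ i < th m (dist a.2 b.2 / 2), lab i a.1 = lab i b.1) :=
    Iff.rfl
  simp only [← h3]
  by_cases h1 : a.1 = b.1
  · by_cases h4 : a.2 = b.2
    · have : a = b := Prod.ext h1 h4
      subst this
      simp [dist_self]
    · have h5 : a ≠ b := fun h => h4 (by rw [h])
      have h6 : dist a.2 b.2 / 2 ≠ 0 := by
        intro h; apply h4; apply dist_eq_zero; omega
      simp [h1, h5, h6]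
  · have h5 : a ≠ b := fun h => h1 (by rw [h])
    simp [h1, h5]

theorem small_count (m : ℕ) : Fintype.card {S : Finset (Fin (3 * m)) // S.card ≤ m} ≤ 7 ^ m := by
  have h := Finset.sum_pow_mul_eq_add_pow (1 : ℕ) 2 (univ : Finset (Fin (3 * m)))
  simp only [one_pow, one_mul, Finset.card_univ, Fintype.card_fin, Finset.powerset_univ] at h
  rw [Fintype.card_subtype]
  have h1 : (univ.filter (fun S : Finset (Fin (3 * m)) => S.card ≤ m)).card * 4 ^ m ≤ 27 ^ m := by
    calc _ = ∑ _S ∈ univ.filter (fun S : Finset (Fin (3 * m)) => S.card ≤ m), 4 ^ m := by simp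
      _ ≤ ∑ S ∈ univ.filter (fun S : Finset (Fin (3 * m)) => S.card ≤ m), 2 ^ (3 * m - S.card) := by
        refine Finset.sum_le_sum fun S hS => ?_
        have := (Finset.mem_filter.mp hS).2
        calc 4 ^ m = 2 ^ (2 * m) := by rw [pow_mul]; norm_num
          _ ≤ _ := Nat.pow_le_pow_right (by norm_num) (by omega)
      _ ≤ ∑ S : Finset (Fin (3 * m)), 2 ^ (3 * m - S.card) :=
        Finset.sum_le_sum_of_subset (Finset.filter_subset _ _)
      _ = 27 ^ m := by rw [h, pow_mul]; norm_num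
  have h2 : 27 ^ m ≤ 7 ^ m * 4 ^ m := by
    rw [← mul_pow]; exact Nat.pow_le_pow_left (by norm_num) _
  exact Nat.le_of_mul_le_mul_right (h1.trans h2) (by positivity)

theorem idx_card (m : ℕ) : Fintype.card (Idx m (32 ^ m)) ≤ 4 * 7168 ^ m := by
  have h := small_count m
  simp only [Idx, Fintype.card_sum, Fintype.card_prod, Fintype.card_fin, Fintype.card_unit,
    Fintype.card_finset]
  have h1 : 32 ^ m * 32 ^ m * Fintype.card {S : Finset (Fin (3 * m)) // S.card ≤ m} ≤ 7168 ^ m := by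
    calc _ ≤ 32 ^ m * 32 ^ m * 7 ^ m := Nat.mul_le_mul_left _ h
      _ = 7168 ^ m := by rw [← mul_pow, ← mul_pow]; norm_num
  have h2 : 4 ^ m * ((4 ^ m + 1) * 32 ^ m * 2 ^ (3 * m)) ≤ 2 * 7168 ^ m := by
    have h3 : 4 ^ m + 1 ≤ 2 * 4 ^ m := by have : 0 < 4 ^ m := by positivity
                                          omega
    calc _ ≤ 4 ^ m * ((2 * 4 ^ m) * 32 ^ m * 2 ^ (3 * m)) := by gcongr
      _ = 2 * (4 * 4 * 32 * 8) ^ m := by
        rw [pow_mul]; simp only [mul_pow]; norm_num; ring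
      _ ≤ 2 * 7168 ^ m := by gcongr; norm_num
  have h4 : 1 ≤ 7168 ^ m := Nat.one_le_pow _ _ (by norm_num)
  omega

theorem parity_class (k : ℕ) : ∃ r : ℕ,
    2 ^ k ≤ 2 * (univ.filter (fun x : Finset (Fin k) => x.card % 2 = r)).card := by
  have h := Finset.card_filter_add_card_filter_not (s := (univ : Finset (Finset (Fin k))))
    (fun x => x.card % 2 = 0)
  have h2 : univ.filter (fun x : Finset (Fin k) => ¬ x.card % 2 = 0) =
      univ.filter (fun x : Finset (Fin k) => x.card % 2 = 1) := by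
    refine Finset.filter_congr fun x _ => ?_
    omega
  rw [h2, Finset.card_univ, Fintype.card_finset, Fintype.card_fin] at h
  by_cases h3 : 2 ^ k ≤ 2 * (univ.filter (fun x : Finset (Fin k) => x.card % 2 = 0)).card
  · exact ⟨0, h3⟩
  · exact ⟨1, by omega⟩

theorem finite_main (m n : ℕ) (hm : Odd m) (hn : 2 * n ≤ 8192 ^ m) :
    ∃ G : SimpleGraph (Fin n), G.CliqueFree 3 ∧
      (G.adjMatrix ℝ + 1).rank ≤ 4 * 7168 ^ m ∧ ((Gᶜ).adjMatrix ℝ).rank ≤ 4 * 7168 ^ m := by
  obtain ⟨r, hr⟩ := parity_class (3 * m)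
  set A : Finset ((Fin (32 ^ m) × Fin (32 ^ m)) × Finset (Fin (3 * m))) :=
    univ ×ˢ (univ.filter (fun x : Finset (Fin (3 * m)) => x.card % 2 = r)) with hA
  have hc : n ≤ A.card := by
    rw [hA, Finset.card_product]
    simp only [Finset.card_univ, Fintype.card_prod, Fintype.card_fin]
    have h1 : 8192 ^ m = 32 ^ m * 32 ^ m * 2 ^ (3 * m) := by
      rw [pow_mul, ← mul_pow, ← mul_pow]; norm_num
    have h2 : 32 ^ m * 32 ^ m * 2 ^ (3 * m) ≤ 32 ^ m * 32 ^ m * (2 *
      (univ.filter (fun x : Finset (Fin (3 * m)) => x.card % 2 = r)).card) :=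
      Nat.mul_le_mul_left _ hr
    nlinarith
  obtain ⟨e0⟩ : Nonempty (Fin n ↪ A) :=
    Function.Embedding.nonempty_of_card_le (by simpa using hc)
  let e : Fin n → ((Fin (32 ^ m) × Fin (32 ^ m)) × Finset (Fin (3 * m))) := fun i => (e0 i).1
  have he : Function.Injective e := fun i j h => e0.injective (Subtype.ext h)
  have hpar : ∀ i, (e i).2.card % 2 = r := fun i => by
    have := (e0 i).2
    simp only [hA, Finset.mem_product, Finset.mem_filter] at this
    exact this.2.2
  refine ⟨(G0 m (32 ^ m)).comap e, ?_, ?_, ?_⟩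
  · exact (G0_free hm.pos).comap (SimpleGraph.Embedding.comap ⟨e, he⟩ _).isContained
  · refine (rank_le_of_rows _ e (fam m (32 ^ m)) fun a => ⟨_, row_mem m _ (e a), fun b => ?_⟩).trans
      (idx_card m)
    rw [entry m _ hm (e a) (e b) (by rw [hpar, hpar])]
    simp [Matrix.add_apply, SimpleGraph.adjMatrix_apply, Matrix.one_apply, he.eq_iff]
  · refine (rank_le_of_rows _ e (fam m (32 ^ m)) fun a => ⟨_, Submodule.sub_mem _
      (Submodule.subset_span ⟨Sum.inl (), rfl⟩) (row_mem m _ (e a)), fun b => ?_⟩).trans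
      (idx_card m)
    simp only [Pi.sub_apply]
    rw [entry m _ hm (e a) (e b) (by rw [hpar, hpar])]
    simp only [SimpleGraph.adjMatrix_apply, SimpleGraph.compl_adj, SimpleGraph.comap_adj, fam,
      he.eq_iff]
    by_cases h1 : a = b
    · subst h1; simp
    · by_cases h2 : (G0 m (32 ^ m)).Adj (e a) (e b) <;> simp [h1, h2]

theorem main (n : ℕ) (hn : 1 ≤ n) :
    ∃ G : SimpleGraph (Fin n), G.CliqueFree 3 ∧
      (((G.adjMatrix ℝ + 1).rank : ℕ) : ℝ) ≤ 2 ^ 30 * (n : ℝ) ^ (1 - 1 / 100 : ℝ) ∧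
      ((((Gᶜ).adjMatrix ℝ).rank : ℕ) : ℝ) ≤ 2 ^ 30 * (n : ℝ) ^ (1 - 1 / 100 : ℝ) := by
  have hex : ∃ j, 2 * n ≤ 8192 ^ (2 * j + 1) := by
    refine ⟨n, ?_⟩
    have : 2 * n + 1 < 8192 ^ (2 * n + 1) := Nat.lt_pow_self (by norm_num)
    omega
  let j := Nat.find hex
  have hj : 2 * n ≤ 8192 ^ (2 * j + 1) := Nat.find_spec hex
  have hup : 8192 ^ (2 * j + 1) ≤ 2 ^ 27 * n := by
    rcases Nat.eq_zero_or_pos j with h0 | h0
    · rw [h0]; omega
    · have := Nat.find_min hex (m := j - 1) (by omega)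
      have h2 : 2 * j + 1 = (2 * (j - 1) + 1) + 2 := by omega
      rw [h2, pow_add]; omega
  obtain ⟨G, h1, h2, h3⟩ := finite_main (2 * j + 1) n ⟨j, rfl⟩ hj
  have hb : (7168 : ℝ) ≤ (8192 : ℝ) ^ (1 - 1 / 100 : ℝ) := by
    have : (1 - 1 / 100 : ℝ) = (99 : ℕ) * ((100 : ℕ) : ℝ)⁻¹ := by norm_num
    rw [this, Real.rpow_mul (by norm_num), Real.rpow_natCast]
    rw [Real.le_rpow_inv_iff_of_pos (by norm_num) (by positivity) (by norm_num), Real.rpow_natCast]
    norm_num
  have hn' : (1 : ℝ) ≤ n := by exact_mod_cast hn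
  have key : (4 * 7168 ^ (2 * j + 1) : ℝ) ≤ 2 ^ 30 * (n : ℝ) ^ (1 - 1 / 100 : ℝ) := by
    calc (4 * 7168 ^ (2 * j + 1) : ℝ) ≤ 4 * ((8192 : ℝ) ^ (1 - 1 / 100 : ℝ)) ^ (2 * j + 1) := by
          gcongr
      _ = 4 * ((8192 : ℝ) ^ (2 * j + 1)) ^ (1 - 1 / 100 : ℝ) := by
          rw [← Real.rpow_natCast, ← Real.rpow_mul (by norm_num), mul_comm (1 - 1 / 100 : ℝ),
            Real.rpow_mul (by norm_num), Real.rpow_natCast]
      _ ≤ 4 * ((2 : ℝ) ^ 27 * n) ^ (1 - 1 / 100 : ℝ) := by
          gcongr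
          exact_mod_cast hup
      _ = 4 * (((2 : ℝ) ^ 27) ^ (1 - 1 / 100 : ℝ) * (n : ℝ) ^ (1 - 1 / 100 : ℝ)) := by
          rw [Real.mul_rpow (by positivity) (by positivity)]
      _ ≤ 4 * (((2 : ℝ) ^ 27) * (n : ℝ) ^ (1 - 1 / 100 : ℝ)) := by
          gcongr
          calc ((2 : ℝ) ^ 27) ^ (1 - 1 / 100 : ℝ) ≤ ((2 : ℝ) ^ 27) ^ (1 : ℝ) :=
                Real.rpow_le_rpow_of_exponent_le (by norm_num) (by norm_num)
            _ = _ := Real.rpow_one _
      _ ≤ _ := by
          have : 0 ≤ (n : ℝ) ^ (1 - 1 / 100 : ℝ) := by positivity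
          nlinarith
  refine ⟨G, h1, le_trans ?_ key, le_trans ?_ key⟩
  · exact_mod_cast h2
  · exact_mod_cast h3

end Pool.Agent.H31.RankRamsey
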