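import Mathlib

namespace Pool.Agent.H31.Rb

open Finset

variable {M : ℕ} [Fact M.Prime]

noncomputable abbrev e (x : ZMod M) : ℂ := ZMod.stdAddChar x

theorem e_norm (x : ZMod M) : ‖e x‖ = 1 := by
  rw [e, ZMod.stdAddChar_apply]; exact Circle.norm_coe _

theorem orth (t : ZMod M) : ∑ ξ : ZMod M, e (ξ * t) = if t = 0 then (M : ℂ) else 0 := by
  simpa using AddChar.sum_mulShift t (ZMod.isPrimitive_stdAddChar M)

noncomputable def hat (I : Finset ℤ) (g : ℤ → ℝ) (ξ : ZMod M) : ℂ := ∑ u ∈ I, g u * e (ξ * (u : ZMod M))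

theorem hat_le {I : Finset ℤ} {g : ℤ → ℝ} (hg : ∀ u, |g u| ≤ 1) (ξ : ZMod M) :
    ‖hat I g ξ‖ ≤ I.card := by
  refine (norm_sum_le _ _).trans ((sum_le_card_nsmul _ _ 1 fun u _ => ?_).trans (by simp))
  simpa [e_norm] using hg u

theorem parseval {I : Finset ℤ} (hI : ∀ u ∈ I, ∀ v ∈ I, (u : ZMod M) = v → u = v) {g : ℤ → ℝ}
    (hg : ∀ u, |g u| ≤ 1) {a : ZMod M} (ha : a ≠ 0) :
    ∑ ξ : ZMod M, ‖hat I g (ξ * a)‖ ^ 2 ≤ M * I.card := by
  rw [← Equiv.sum_comp (Equiv.mulRight₀ a ha).symm]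
  simp only [Equiv.mulRight₀_symm_apply, inv_mul_cancel_right₀ ha]
  have : ((∑ ξ : ZMod M, ‖hat I g ξ‖ ^ 2 : ℝ) : ℂ) = ((∑ u ∈ I, M * g u ^ 2 : ℝ) : ℂ) := by
    push_cast
    calc _ = ∑ ξ : ZMod M, ∑ u ∈ I, ∑ v ∈ I, (g u * g v : ℂ) * e (ξ * ((u : ZMod M) - (v : ZMod M))) := by
          refine sum_congr rfl fun ξ _ => ?_
          rw [← Complex.mul_conj', hat, map_sum, sum_mul_sum]
          refine sum_congr rfl fun u _ => sum_congr rfl fun v _ => ?_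
          rw [map_mul, Complex.conj_ofReal, ← AddChar.map_neg_eq_conj, mul_mul_mul_comm,
            ← AddChar.map_add_eq_mul]
          congr 2; ring
      _ = ∑ u ∈ I, ∑ v ∈ I, (g u * g v : ℂ) * ∑ ξ : ZMod M, e (ξ * ((u : ZMod M) - (v : ZMod M))) := by
          rw [sum_comm]
          refine sum_congr rfl fun u _ => ?_
          rw [sum_comm]
          simp only [mul_sum]
      _ = _ := by
          refine sum_congr rfl fun u hu => ?_
          rw [sum_eq_single u (fun v hv n => by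
            rw [orth, if_neg (fun t => n (hI u hu v hv (sub_eq_zero.1 t)).symm), mul_zero])
            (fun t => absurd hu t), orth, if_pos (sub_self _)]
          ring
  rw [Complex.ofReal_injective this, ← mul_sum]
  gcongr
  refine (sum_le_card_nsmul _ _ 1 fun u _ => ?_).trans (by simp)
  exact sq_le_one_iff_abs_le_one _ |>.2 (hg u)

/-- solutions of `a x + b y = c z + t` in `[n]^3` -/
noncomputable def T (a b c : ℤ) (n : ℕ) (t : ℤ) : Finset (ℤ × ℤ × ℤ) :=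
  (Icc (1 : ℤ) n ×ˢ Icc (1 : ℤ) n ×ˢ Icc (1 : ℤ) n).filter
    fun p => a * p.1 + b * p.2.1 = c * p.2.2 + t

theorem mem_T {a b c t : ℤ} {n : ℕ} {p : ℤ × ℤ × ℤ} : p ∈ T a b c n t ↔
    ((1 ≤ p.1 ∧ p.1 ≤ n) ∧ (1 ≤ p.2.1 ∧ p.2.1 ≤ n) ∧ 1 ≤ p.2.2 ∧ p.2.2 ≤ n) ∧
      a * p.1 + b * p.2.1 = c * p.2.2 + t := by simp [T]

theorem four {a b c t : ℤ} {n : ℕ} (g1 g2 g3 : ℤ → ℝ)
    (h : ∀ x ∈ Icc (1 : ℤ) n, ∀ y ∈ Icc (1 : ℤ) n, ∀ z ∈ Icc (1 : ℤ) n,
      |a * x + b * y - c * z - t| < M) :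
    ((M * ∑ p ∈ T a b c n t, g1 p.1 * g2 p.2.1 * g3 p.2.2 : ℝ) : ℂ) = ∑ ξ : ZMod M,
      hat (Icc 1 n) g1 (ξ * (a : ZMod M)) * hat (Icc 1 n) g2 (ξ * (b : ZMod M)) * hat (Icc 1 n) g3 (ξ * (-(c : ZMod M))) *
        e (ξ * (-(t : ZMod M))) := by
  have : ∀ ξ : ZMod M, hat (Icc 1 n) g1 (ξ * (a : ZMod M)) * hat (Icc 1 n) g2 (ξ * (b : ZMod M)) *
      hat (Icc 1 n) g3 (ξ * (-(c : ZMod M))) * e (ξ * (-(t : ZMod M))) =
      ∑ p ∈ Icc (1 : ℤ) n ×ˢ Icc (1 : ℤ) n ×ˢ Icc (1 : ℤ) n, (g1 p.1 * g2 p.2.1 * g3 p.2.2 : ℂ) *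
        e (ξ * ((a * p.1 + b * p.2.1 - c * p.2.2 - t : ℤ) : ZMod M)) := fun ξ => by
    simp only [hat, sum_product, sum_mul, mul_sum]
    rw [sum_comm]
    refine (sum_congr rfl fun y _ => sum_comm).trans (sum_comm.trans ?_)
    refine sum_congr rfl fun x _ => sum_congr rfl fun y _ => sum_congr rfl fun z _ => ?_
    rw [show ξ * ((a * x + b * y - c * z - t : ℤ) : ZMod M) =
      ξ * (a : ZMod M) * (x : ZMod M) + ξ * (b : ZMod M) * (y : ZMod M) + ξ * (-(c : ZMod M)) * (z : ZMod M) + ξ * (-(t : ZMod M)) by push_cast; ring]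
    simp only [e, AddChar.map_add_eq_mul]
    ring
  simp only [this]
  rw [sum_comm, T, sum_filter]
  push_cast [mul_sum]
  refine sum_congr rfl fun p hp => ?_
  rw [← mul_sum, orth]
  simp only [mem_product] at hp
  have k : (a * p.1 + b * p.2.1 - c * p.2.2 - t : ZMod M) = 0 ↔
      a * p.1 + b * p.2.1 = c * p.2.2 + t := by
    have := ZMod.intCast_zmod_eq_zero_iff_dvd (a * p.1 + b * p.2.1 - c * p.2.2 - t) M
    push_cast at this
    rw [this]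
    exact ⟨fun d => by have := Int.eq_zero_of_abs_lt_dvd d (h _ hp.1 _ hp.2.1 _ hp.2.2); omega,
      fun d => by rw [show a * p.1 + b * p.2.1 - c * p.2.2 - t = 0 by omega]; simp⟩
  simp only [k]
  split_ifs <;> simp [mul_comm]

theorem dirichlet {η : ℝ} (hη : 0 < η) (D : ℕ) : ∃ P0 : ℕ, ∀ (ι : Type) (S : Finset ι)
    (z : ι → ℂ), S.card ≤ D → (∀ i, ‖z i‖ = 1) → ∃ P : ℕ, 1 ≤ P ∧ P ≤ P0 ∧
      ∀ i ∈ S, ‖z i ^ P - 1‖ ≤ η := by
  classical
  obtain ⟨C, hC, cov⟩ := Metric.totallyBounded_iff.1 (isCompact_sphere (0 : ℂ) 1).totallyBounded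
    (η / 2) (by positivity)
  have : ∀ w : ℂ, ‖w‖ = 1 → ∃ y : hC.toFinset, dist w y < η / 2 := fun w hw => by
    obtain ⟨y, hy, t⟩ := Set.mem_iUnion₂.1 (cov (by simpa using hw : w ∈ Metric.sphere 0 1))
    exact ⟨⟨y, by simpa using hy⟩, t⟩
  choose r hr using this
  refine ⟨(hC.toFinset.card + 1) ^ D, fun ι S z hS hz => ?_⟩
  have key : ∀ p q : ℕ, p < q → q ≤ (hC.toFinset.card + 1) ^ D →
      (∀ i ∈ S, r (z i ^ p) (by simp [hz]) = r (z i ^ q) (by simp [hz])) →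
      ∃ P : ℕ, 1 ≤ P ∧ P ≤ (hC.toFinset.card + 1) ^ D ∧ ∀ i ∈ S, ‖z i ^ P - 1‖ ≤ η := by
    intro p q l hq h
    refine ⟨q - p, by omega, by omega, fun i hi => ?_⟩
    have h1 := hr (z i ^ p) (by simp [hz])
    have h2 := hr (z i ^ q) (by simp [hz])
    rw [h i hi] at h1
    generalize ((r (z i ^ q) _ : hC.toFinset) : ℂ) = y at h1 h2
    have := dist_triangle_right (z i ^ q) (z i ^ p) y
    rw [dist_eq_norm, show z i ^ q - z i ^ p = z i ^ p * (z i ^ (q - p) - 1) by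
      rw [mul_sub, ← pow_add, Nat.add_sub_cancel' l.le, mul_one], norm_mul, norm_pow, hz] at this
    simp only [one_pow, one_mul] at this
    linarith
  obtain ⟨p, q, n, h⟩ := Fintype.exists_ne_map_eq_of_card_lt
    (fun (p : Fin ((hC.toFinset.card + 1) ^ D + 1)) (i : S) => r (z i ^ (p : ℕ)) (by simp [hz])) (by
      simp only [Fintype.card_pi, Fintype.card_coe, prod_const, card_univ, Fintype.card_fin]
      exact Nat.lt_succ_of_le ((Nat.pow_le_pow_left (Nat.le_succ _) _).trans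
        (Nat.pow_le_pow_right (by omega) hS)))
  rcases lt_or_gt_of_ne n with l | l
  · exact key p q l (by omega) fun i hi => congrFun h ⟨i, hi⟩
  · exact key q p l (by omega) fun i hi => (congrFun h ⟨i, hi⟩).symm

theorem pow_sub {w : ℂ} (hw : ‖w‖ = 1) (k : ℕ) : ‖w ^ k - 1‖ ≤ k * ‖w - 1‖ := by
  induction k with
  | zero => simp
  | succ k ih =>
    rw [show w ^ (k + 1) - 1 = w * (w ^ k - 1) + (w - 1) by ring]
    refine (norm_add_le _ _).trans ?_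
    rw [norm_mul, hw]; push_cast; linarith

theorem e_int (x : ZMod M) (j : ℤ) : ‖e (x * (j : ZMod M)) - 1‖ ≤ |j| * ‖e x - 1‖ := by
  have : ∀ k : ℕ, ‖e (x * (k : ZMod M)) - 1‖ ≤ k * ‖e x - 1‖ := fun k => by
    rw [mul_comm, ← nsmul_eq_mul, e, AddChar.map_nsmul_eq_pow]; exact pow_sub (e_norm x) k
  obtain ⟨k, rfl | rfl⟩ := Int.eq_nat_or_neg j
  · simpa using this k
  · have t : e (x * ((-(k : ℤ) : ℤ) : ZMod M)) - 1 = starRingEnd ℂ (e (x * (k : ZMod M)) - 1) := by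
      simp [e, ← AddChar.map_neg_eq_conj]
    rw [t, Complex.norm_conj]
    simpa using this k

theorem period {a b c : ℤ} (ha : 0 < a) (hb : 0 < b) (hc : 0 < c) {ε : ℝ} (hε : 0 < ε) (K : ℕ) :
    ∃ P0 : ℕ, ∀ n : ℕ, K * P0 < n → ∀ g : Fin 3 → ℤ → ℝ, (∀ i u, |g i u| ≤ 1) →
      ∃ P : ℕ, 1 ≤ P ∧ P ≤ P0 ∧ ∀ (i j k : Fin 3) (s : ℤ), |s| ≤ K →
      |∑ p ∈ T a b c n (s * P), g i p.1 * g j p.2.1 * g k p.2.2 -
        ∑ p ∈ T a b c n 0, g i p.1 * g j p.2.1 * g k p.2.2| ≤ ε * n ^ 2 := by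
  classical
  obtain ⟨C, hC⟩ : ∃ C : ℕ, (C : ℤ) = a + b + c + 1 := ⟨(a + b + c + 1).toNat, by omega⟩
  obtain ⟨D, hD⟩ := exists_nat_ge (2 * C / (ε / 2) ^ 2)
  obtain ⟨P0, hP⟩ := dirichlet (show 0 < ε / (K + 1) by positivity) (3 * D)
  refine ⟨P0, fun n hn g hg => ?_⟩
  have n0 : 0 < n := by omega
  obtain ⟨M, hM, m1, m2⟩ := Nat.exists_prime_lt_and_le_two_mul (C * n)
    (Nat.mul_ne_zero (by omega) n0.ne')
  have := Fact.mk hM
  have m1' : (a + b + c + 1) * n < (M : ℤ) := by rw [← hC]; exact_mod_cast m1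
  have nz : ∀ x : ℤ, 0 < x → x ≤ a + b + c → (x : ZMod M) ≠ 0 := fun x h1 h2 d => by
    have := Int.le_of_dvd h1 ((ZMod.intCast_zmod_eq_zero_iff_dvd _ _).1 d)
    nlinarith
  have hI : ∀ u ∈ Icc (1 : ℤ) n, ∀ v ∈ Icc (1 : ℤ) n, (u : ZMod M) = v → u = v := by
    intro u hu v hv d
    rw [mem_Icc] at hu hv
    have := Int.eq_zero_of_abs_lt_dvd ((ZMod.intCast_eq_intCast_iff_dvd_sub _ _ _).1 d)
      (abs_lt.2 ⟨by nlinarith, by nlinarith⟩)
    omega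
  have cI : ((Icc (1 : ℤ) n).card : ℝ) = n := by simp
  have pv := fun i x (hx : (x : ZMod M) ≠ 0) => cI ▸ parseval hI (hg i) hx
  have nr : (0 : ℝ) < n := by exact_mod_cast n0
  have Mr : (0 : ℝ) < M := by exact_mod_cast hM.pos
  set S : Fin 3 → Finset (ZMod M) := fun k =>
    univ.filter fun ξ => ε / 2 * n ≤ ‖hat (Icc 1 n) (g k) (ξ * (-(c : ZMod M)))‖ with hS
  have cS : ∀ k, (S k).card ≤ D := fun k => by
    have h1 := card_nsmul_le_sum (S k) (fun ξ => ‖hat (Icc 1 n) (g k) (ξ * (-(c : ZMod M)))‖ ^ 2)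
      ((ε / 2 * n) ^ 2) fun ξ h => pow_le_pow_left₀ (by positivity) (mem_filter.1 h).2 2
    have h2 := (sum_le_sum_of_subset_of_nonneg (subset_univ (S k)) fun _ _ _ => sq_nonneg _).trans
      (pv k _ (neg_ne_zero.2 (nz c hc (by omega))))
    have h3 : (M : ℝ) ≤ 2 * (C * n) := by exact_mod_cast m2
    rw [div_le_iff₀ (by positivity)] at hD
    rw [nsmul_eq_mul] at h1
    have : ((S k).card : ℝ) * ((ε / 2) ^ 2 * n ^ 2) ≤ D * ((ε / 2) ^ 2 * n ^ 2) := by nlinarith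
    exact_mod_cast le_of_mul_le_mul_right this (by positivity)
  obtain ⟨P, p1, p2, hP⟩ := hP _ (univ.biUnion S) e
    (card_biUnion_le.trans ((sum_le_card_nsmul _ _ _ fun k _ => cS k).trans (by simp))) e_norm
  refine ⟨P, p1, p2, fun i j k s hs => ?_⟩
  have rng : ∀ t : ℤ, |t| ≤ n → ∀ x ∈ Icc (1 : ℤ) n, ∀ y ∈ Icc (1 : ℤ) n, ∀ z ∈ Icc (1 : ℤ) n,
      |a * x + b * y - c * z - t| < M := fun t ht x hx y hy z hz => by
    rw [mem_Icc] at hx hy hz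
    rw [abs_le] at ht
    exact abs_lt.2 ⟨by nlinarith, by nlinarith⟩
  have sP : |s * P| ≤ (n : ℤ) := by
    rw [abs_mul, Nat.abs_cast]
    have : (K : ℤ) * P0 < n := by exact_mod_cast hn
    have : (P : ℤ) ≤ P0 := by exact_mod_cast p2
    nlinarith [abs_nonneg s]
  refine le_of_mul_le_mul_left ?_ Mr
  rw [← abs_of_pos Mr, ← abs_mul, mul_sub, ← Real.norm_eq_abs, ← Complex.norm_real,
    Complex.ofReal_sub, four _ _ _ (rng _ sP), four _ _ _ (rng 0 (by simp)), ← sum_sub_distrib,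
    abs_of_pos Mr]
  refine (norm_sum_le _ _).trans ((sum_le_sum (g := fun ξ : ZMod M => (‖hat (Icc 1 n) (g i) (ξ * (a : ZMod M))‖ ^ 2
    + ‖hat (Icc 1 n) (g j) (ξ * (b : ZMod M))‖ ^ 2) * (ε / 2 * n)) fun ξ _ => ?_).trans ?_)
  · have key : ‖hat (Icc 1 n) (g k) (ξ * (-(c : ZMod M)))‖ * ‖e (ξ * -((s * P : ℤ) : ZMod M)) - 1‖ ≤ ε * n := by
      by_cases t : ξ ∈ S k
      · have h1 := hP ξ (mem_biUnion.2 ⟨k, mem_univ _, t⟩)
        have h2 := e_int (ξ * (P : ZMod M)) (-s)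
        rw [mul_comm ξ (P : ZMod M), ← nsmul_eq_mul, e, e, AddChar.map_nsmul_eq_pow, abs_neg,
          show P • ξ * ((-s : ℤ) : ZMod M) = ξ * -((s * P : ℤ) : ZMod M) by push_cast; ring] at h2
        have h3 : ((|s| : ℤ) : ℝ) ≤ K + 1 := by
          have : |s| ≤ K + 1 := by omega
          exact_mod_cast this
        have h4 := (h2.trans (mul_le_mul h3 h1 (norm_nonneg _) (by positivity))).trans_eq
          (mul_div_cancel₀ ε (by positivity))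
        rw [mul_comm]
        exact mul_le_mul h4 (cI ▸ hat_le (hg k) _) (norm_nonneg _) hε.le
      · have h1 : ‖hat (Icc 1 n) (g k) (ξ * (-(c : ZMod M)))‖ ≤ ε / 2 * n := by
          simpa [hS] using (not_le.1 fun u => t (mem_filter.2 ⟨mem_univ _, u⟩)).le
        have h2 := (norm_sub_le (e (ξ * -((s * P : ℤ) : ZMod M))) 1).trans_eq
          (by rw [e_norm, norm_one])
        refine (mul_le_mul h1 h2 (norm_nonneg _) (by positivity)).trans_eq (by ring)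
    rw [← mul_sub, Int.cast_zero, neg_zero, mul_zero, e, e, AddChar.map_zero_eq_one, norm_mul,
      norm_mul, norm_mul, mul_assoc]
    refine (mul_le_mul_of_nonneg_left key (by positivity)).trans ?_
    nlinarith [mul_nonneg (sq_nonneg (‖hat (Icc 1 n) (g i) (ξ * (a : ZMod M))‖ -
      ‖hat (Icc 1 n) (g j) (ξ * (b : ZMod M))‖)) (mul_pos hε nr).le]
  · rw [← sum_mul, sum_add_distrib]
    have h1 := pv i _ (nz a ha (by omega))
    have h2 := pv j _ (nz b hb (by omega))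
    nlinarith [mul_le_mul_of_nonneg_right (add_le_add h1 h2) (mul_pos hε nr).le]

end Pool.Agent.H31.Rb
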