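import Pool.Agent.H31.Rb1

namespace Pool.Agent.H31.Rb

open Finset

theorem derand {ι G : Type} [Fintype ι] [DecidableEq ι] [Fintype G] [AddCommGroup G] {x y z : ι}
    (h1 : x ≠ y) (h2 : x ≠ z) (h3 : y ≠ z) (h : G → G → G → ℝ) :
    (Fintype.card G : ℝ) ^ 3 * ∑ σ : ι → G, h (σ x) (σ y) (σ z) =
      Fintype.card (ι → G) * ∑ s : G × G × G, h s.1 s.2.1 s.2.2 := by
  have : ∀ s : G × G × G, ∑ σ : ι → G, h (σ x) (σ y) (σ z) =
      ∑ σ : ι → G, h (σ x + s.1) (σ y + s.2.1) (σ z + s.2.2) := fun s => by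
    rw [← Equiv.sum_comp (Equiv.addRight
      (Pi.single x s.1 + Pi.single y s.2.1 + Pi.single z s.2.2 : ι → G))]
    simp [h1, h2, h3, h1.symm, h2.symm, h3.symm]
  calc _ = ∑ s : G × G × G, ∑ σ : ι → G, h (σ x) (σ y) (σ z) := by
        simp only [sum_const, card_univ, Fintype.card_prod, nsmul_eq_mul]; push_cast; ring
    _ = ∑ σ : ι → G, ∑ s : G × G × G, h (σ x + s.1) (σ y + s.2.1) (σ z + s.2.2) := by
        rw [sum_congr rfl fun s _ => this s, sum_comm]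
    _ = ∑ σ : ι → G, ∑ s : G × G × G, h s.1 s.2.1 s.2.2 := sum_congr rfl fun σ _ =>
        Equiv.sum_comp (Equiv.addLeft (σ x, σ y, σ z)) fun s => h s.1 s.2.1 s.2.2
    _ = _ := by simp only [sum_const, card_univ, nsmul_eq_mul]

theorem inj_le {α β : Type} {S : Finset α} {S' : Finset β} {g : α → ℝ} {h : β → ℝ} (j : α → β)
    (hj : Set.InjOn j S) (h0 : ∀ y, 0 ≤ h y) (hm : ∀ x ∈ S, g x ≤ 0 ∨ j x ∈ S' ∧ g x ≤ h (j x)) :
    ∑ x ∈ S, g x ≤ ∑ y ∈ S', h y := by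
  classical
  calc _ ≤ ∑ x ∈ S.filter (j · ∈ S'), h (j x) := by
        rw [sum_filter]
        refine sum_le_sum fun x hx => ?_
        rcases hm x hx with t | t
        · split_ifs
          exacts [t.trans (h0 _), t]
        · rw [if_pos t.1]; exact t.2
    _ = ∑ y ∈ (S.filter (j · ∈ S')).image j, h y :=
        (sum_image (hj.mono (coe_subset.2 (filter_subset _ _)))).symm
    _ ≤ _ := sum_le_sum_of_subset_of_nonneg (fun y hy => by
        obtain ⟨x, hx, rfl⟩ := mem_image.1 hy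
        exact (mem_filter.1 hx).2) fun y _ _ => h0 y

variable {a b c : ℤ}

theorem card_T (hc : 0 < c) (n : ℕ) (t : ℤ) : (T a b c n t).card ≤ n ^ 2 := by
  refine (card_le_card_of_injOn (t := Icc (1 : ℤ) n ×ˢ Icc (1 : ℤ) n) (fun p => (p.1, p.2.1))
    (fun p hp => ?_) ?_).trans (by simp [sq])
  · have := mem_T.1 hp
    simp [this]
  · rintro ⟨x, y, z⟩ hp ⟨x', y', z'⟩ hq h
    obtain ⟨rfl, rfl⟩ := Prod.mk.inj h
    have := (mem_T.1 hp).2
    have := (mem_T.1 hq).2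
    rw [mul_left_cancel₀ hc.ne' (show c * z = c * z' by linarith)]

theorem card_or {α : Type} (S : Finset α) (p q r : α → Prop) [DecidablePred p] [DecidablePred q]
    [DecidablePred r] {k : ℕ} (hp : (S.filter p).card ≤ k) (hq : (S.filter q).card ≤ k)
    (hr : (S.filter r).card ≤ k) : (S.filter fun x => p x ∨ q x ∨ r x).card ≤ 3 * k := by
  classical
  rw [filter_or, filter_or]
  have := card_union_le (S.filter p) (S.filter q ∪ S.filter r)
  have := card_union_le (S.filter q) (S.filter r)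
  omega

theorem card_deg (ha : 0 < a) (hb : 0 < b) (hc : 0 < c) (n : ℕ) :
    ((T a b c n 0).filter fun p => p.1 = p.2.1 ∨ p.1 = p.2.2 ∨ p.2.1 = p.2.2).card ≤ 3 * n := by
  have e : (Icc (1 : ℤ) n).card = n := by simp
  refine card_or _ _ _ _
    ((card_le_card_of_injOn (fun p => p.1) (fun p hp => ?_) ?_).trans e.le)
    ((card_le_card_of_injOn (fun p => p.1) (fun p hp => ?_) ?_).trans e.le)
    ((card_le_card_of_injOn (fun p => p.2.1) (fun p hp => ?_) ?_).trans e.le)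
  iterate 3
    · have := mem_T.1 (mem_filter.1 hp).1
      simp [this]
    · rintro ⟨x, y, z⟩ hp ⟨x', y', z'⟩ hq h
      obtain ⟨h1, h2⟩ := mem_filter.1 hp
      obtain ⟨h3, h4⟩ := mem_filter.1 hq
      have h5 := (mem_T.1 h1).2
      have h6 := (mem_T.1 h3).2
      dsimp only at h h2 h4 h5 h6
      subst h h2 h4
      first
      | rw [mul_left_cancel₀ hc.ne' (show c * z = c * z' by linarith)]
      | rw [mul_left_cancel₀ hb.ne' (show b * y = b * y' by linarith)]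
      | rw [mul_left_cancel₀ ha.ne' (show a * x = a * x' by linarith)]

theorem card_small (ha : 0 < a) (hb : 0 < b) (hc : 0 < c) (n : ℕ) :
    ((T a b c n 0).filter fun p => p.1 ≤ 3 ∨ p.2.1 ≤ 3 ∨ p.2.2 ≤ 3).card ≤ 3 * (3 * n) := by
  have e : (Icc (1 : ℤ) 3 ×ˢ Icc (1 : ℤ) n).card = 3 * n := by simp
  refine card_or _ _ _ _
    ((card_le_card_of_injOn (fun p => (p.1, p.2.1)) (fun p hp => ?_) ?_).trans e.le)
    ((card_le_card_of_injOn (fun p => (p.2.1, p.2.2)) (fun p hp => ?_) ?_).trans e.le)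
    ((card_le_card_of_injOn (fun p => (p.2.2, p.1)) (fun p hp => ?_) ?_).trans e.le)
  iterate 3
    · have := mem_T.1 (mem_filter.1 hp).1
      have t := (mem_filter.1 hp).2
      simp [this, t, Prod.le_def]
    · rintro ⟨x, y, z⟩ hp ⟨x', y', z'⟩ hq h
      have h5 := (mem_T.1 (mem_filter.1 hp).1).2
      have h6 := (mem_T.1 (mem_filter.1 hq).1).2
      obtain ⟨rfl, rfl⟩ := Prod.mk.inj h
      dsimp only at h5 h6
      first
      | rw [mul_left_cancel₀ hc.ne' (show c * z = c * z' by linarith)]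
      | rw [mul_left_cancel₀ hb.ne' (show b * y = b * y' by linarith)]
      | rw [mul_left_cancel₀ ha.ne' (show a * x = a * x' by linarith)]

variable (a b c) (w : Fin 3 → Fin 3 → Fin 3 → ℝ)

noncomputable def W (n : ℕ) (t : ℤ) (f : ℤ → Fin 3) : ℝ :=
  ∑ p ∈ T a b c n t, w (f p.1) (f p.2.1) (f p.2.2)

noncomputable def V (n : ℕ) : ℝ := ⨆ f, W a b c w n 0 f

noncomputable def om (n : ℕ) (f : ℤ → Fin 3) (u v z : ℤ) : ℝ :=
  if (1 ≤ u ∧ u ≤ n) ∧ (1 ≤ v ∧ v ≤ n) ∧ 1 ≤ z ∧ z ≤ n then w (f u) (f v) (f z) else 0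

noncomputable def H (n L : ℕ) (P : ℤ) (f : ℤ → Fin 3) (u v z : ℤ) : ℝ :=
  ∑ s : Fin L × Fin L × Fin L,
    om w n f (u - (s.1 : ℕ) * P) (v - (s.2.1 : ℕ) * P) (z - (s.2.2 : ℕ) * P)

variable {a b c w} (h0 : ∀ i j k, 0 ≤ w i j k) (h1 : ∀ i j k, w i j k ≤ 1)
include h0 h1

theorem om_mem (n : ℕ) (f : ℤ → Fin 3) (u v z : ℤ) : 0 ≤ om w n f u v z ∧ om w n f u v z ≤ 1 := by
  unfold om; split_ifs <;> simp [h0, h1]

theorem H_mem (n L : ℕ) (P : ℤ) (f : ℤ → Fin 3) (u v z : ℤ) :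
    0 ≤ H w n L P f u v z ∧ H w n L P f u v z ≤ L ^ 3 :=
  ⟨sum_nonneg fun _ _ => (om_mem h0 h1 ..).1,
    (sum_le_card_nsmul _ _ 1 fun _ _ => (om_mem h0 h1 ..).2).trans (by simp [pow_succ, mul_assoc])⟩

theorem H_one (n L : ℕ) (P : ℤ) (f : ℤ → Fin 3) (u v z : ℤ) :
    |H w n L P f u v (z + P) - H w n L P f u v z| ≤ L ^ 2 := by
  simp only [H, Fintype.sum_prod_type, ← sum_sub_distrib]
  refine (abs_sum_le_sum_abs _ _).trans ((sum_le_card_nsmul _ _ (L : ℝ) fun s _ =>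
    (abs_sum_le_sum_abs _ _).trans ((sum_le_card_nsmul _ _ 1 fun t _ => ?_).trans
      (by simp))).trans (by simp [sq]))
  set q := om w n f (u - (s : ℕ) * P) (v - (t : ℕ) * P)
  rw [Fin.sum_univ_eq_sum_range (fun k : ℕ => q (z + P - k * P) - q (z - k * P)),
    sum_congr rfl fun k _ => by rw [show z - (k : ℕ) * P = z + P - (k + 1 : ℕ) * P by
      push_cast; ring], sum_range_sub' fun k : ℕ => q (z + P - k * P), abs_le]
  have := fun x => om_mem h0 h1 n f (u - (s : ℕ) * P) (v - (t : ℕ) * P) x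
  constructor <;> linarith [this (z + P - (0 : ℕ) * P), this (z + P - L * P)]

theorem H_lip (n L : ℕ) (P : ℤ) (f : ℤ → Fin 3) (u v z d : ℤ) :
    H w n L P f u v z - (|d| : ℤ) * L ^ 2 ≤ H w n L P f u v (z + d * P) := by
  have : ∀ (k : ℕ) z, |H w n L P f u v (z + k * P) - H w n L P f u v z| ≤ k * L ^ 2 := by
    intro k z
    induction k with
    | zero => simp
    | succ k ih =>
      have := H_one h0 h1 n L P f u v (z + k * P)
      push_cast
      rw [add_mul, one_mul, ← add_assoc, abs_le] at *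
      constructor <;> linarith [this.1, this.2, ih.1, ih.2]
  obtain ⟨k, rfl | rfl⟩ := Int.eq_nat_or_neg d
  · have := (abs_le.1 (this k z)).1
    simp only [Nat.abs_cast, Int.cast_natCast]; linarith
  · have := (abs_le.1 (this k (z + -k * P))).2
    rw [show z + -k * P + k * P = z by ring] at this
    simp only [abs_neg, Nat.abs_cast, Int.cast_natCast]; linarith

theorem W_le (hc : 0 < c) (n : ℕ) (t : ℤ) (f : ℤ → Fin 3) : W a b c w n t f ≤ n ^ 2 := by
  refine (sum_le_card_nsmul _ _ 1 fun _ _ => h1 ..).trans ?_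
  rw [nsmul_eq_mul, mul_one]
  exact_mod_cast card_T hc n t

theorem le_V (hc : 0 < c) (n : ℕ) (f : ℤ → Fin 3) : W a b c w n 0 f ≤ V a b c w n :=
  le_ciSup (f := W a b c w n 0) ⟨_, by rintro _ ⟨f, rfl⟩; exact W_le h0 h1 hc n 0 f⟩ f

theorem V_mono (hc : 0 < c) : Monotone (V a b c w) := fun n n' h => ciSup_le fun f => by
  refine le_trans (sum_le_sum_of_subset_of_nonneg (fun p hp => ?_) fun _ _ _ => h0 ..)
    (le_V h0 h1 hc n' f)
  rw [mem_T] at hp ⊢
  omega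

theorem stepB {n n' L P : ℕ} (hn : n + L * P ≤ n') (ha : 0 < a) (hb : 0 < b) (hc : 0 < c)
    (f : ℤ → Fin 3) {X : ℝ} (hX : ∀ s : ℤ, |s| ≤ (a + b + c) * L → X ≤ W a b c w n (s * P) f) :
    L ^ 3 * X ≤ ∑ p ∈ T a b c n' 0, H w n L P f p.1 p.2.1 p.2.2 := by
  simp only [H]
  rw [sum_comm]
  refine le_trans (by simp [pow_succ, mul_assoc]) (card_nsmul_le_sum _ _ X fun s _ => ?_)
  obtain ⟨⟨i, hi⟩, ⟨j, hj⟩, k, hk⟩ := s
  zify at hi hj hk hn
  have P0 : (0 : ℤ) ≤ P := by positivity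
  have i0 : (0 : ℤ) ≤ i := by positivity
  have j0 : (0 : ℤ) ≤ j := by positivity
  have k0 : (0 : ℤ) ≤ k := by positivity
  refine (hX (c * k - a * i - b * j) (abs_le.2 ⟨by nlinarith, by nlinarith⟩)).trans
    (inj_le (fun p => (p.1 + i * P, p.2.1 + j * P, p.2.2 + k * P)) ?_
      (fun _ => (om_mem h0 h1 ..).1) fun p hp => Or.inr ?_)
  · rintro ⟨x, y, z⟩ - ⟨x', y', z'⟩ - h
    simpa using h
  · rw [mem_T] at hp
    obtain ⟨⟨⟨_, _⟩, ⟨_, _⟩, _, _⟩, e⟩ := id hp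
    refine ⟨mem_T.2 ⟨⟨⟨?_, ?_⟩, ⟨?_, ?_⟩, ?_, ?_⟩, by dsimp only; linarith⟩, ?_⟩
    iterate 6 dsimp only; nlinarith
    simp only [add_sub_cancel_right, om, if_pos hp.1, le_refl]

end Pool.Agent.H31.Rb
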