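import Pool.Agent.H31.Rb2

namespace Pool.Agent.H31.Rb

open Finset

def ph (m l x : ℤ) : ℤ := x % m + m * (x / m / l)

def ps (m l u i : ℤ) : ℤ := u % m + m * (l * (u / m) + i)

theorem ph_ps {m l i : ℤ} (hm : 0 < m) (h0 : 0 ≤ i) (h1 : i < l) (u : ℤ) :
    ph m l (ps m l u i) = u := by
  rw [ph, ps, Int.add_mul_emod_self_left, Int.emod_emod_of_dvd _ dvd_rfl,
    Int.add_mul_ediv_left _ _ hm.ne', Int.ediv_eq_zero_of_lt (Int.emod_nonneg _ hm.ne')
    (Int.emod_lt_of_pos _ hm), zero_add, add_comm _ i, Int.add_mul_ediv_left _ _ (by omega),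
    Int.ediv_eq_zero_of_lt h0 h1, zero_add, Int.emod_add_mul_ediv]

theorem ph_near {m l : ℤ} (hm : 0 < m) (hl : 0 < l) (x : ℤ) :
    |l * ph m l x - x| ≤ m * l ∧ m ∣ ph m l x - x := by
  have e1 := Int.emod_add_mul_ediv x m
  have e2 := Int.emod_add_mul_ediv (x / m) l
  have := Int.emod_nonneg x hm.ne'
  have := Int.emod_lt_of_pos x hm
  have := Int.emod_nonneg (x / m) hl.ne'
  have := Int.emod_lt_of_pos (x / m) hl
  have e : l * ph m l x - x = (l - 1) * (x % m) - m * (x / m % l) := by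
    rw [ph]; linear_combination e1 + m * e2
  refine ⟨?_, x / m / l - x / m, by rw [ph]; linear_combination e1⟩
  rw [e, abs_le]
  constructor <;> nlinarith

theorem ps_mem {m l i u B : ℤ} (hm : 0 < m) (h0 : 0 ≤ i) (h1 : i < l) (hu : 1 ≤ u)
    (hB : u < m * B) : 1 ≤ ps m l u i ∧ ps m l u i ≤ l * (m * B) := by
  have e1 := Int.emod_add_mul_ediv u m
  have := Int.emod_nonneg u hm.ne'
  have := Int.emod_lt_of_pos u hm
  have h2 : 0 ≤ u / m := Int.ediv_nonneg (by omega) hm.le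
  have h3 : u / m < B := Int.ediv_lt_of_lt_mul hm (by linarith)
  rw [ps]
  constructor
  · nlinarith [mul_nonneg hm.le h0, mul_nonneg (mul_nonneg hm.le h2) (show 0 ≤ l - 1 by omega)]
  · have : l * (u / m) + i + 1 ≤ l * B := by nlinarith
    nlinarith

theorem ph_big {m l B z : ℤ} (hm : 0 < m) (hl : 0 < l) (hz : l * (m * B) ≤ z) :
    m * B ≤ ph m l z := by
  have := Int.emod_nonneg z hm.ne'
  have : B ≤ z / m / l := Int.le_ediv_of_mul_le hl (Int.le_ediv_of_mul_le hm (by linarith))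
  rw [ph]
  nlinarith

variable {a b c : ℤ} {w : Fin 3 → Fin 3 → Fin 3 → ℝ} (h0 : ∀ i j k, 0 ≤ w i j k)
  (h1 : ∀ i j k, w i j k ≤ 1) (ha : 0 < a) (hb : 0 < b) (hc : 0 < c)
include h0 h1 ha hb hc

theorem stepC {n n' L P l : ℕ} {B : ℤ} (hn : n + L * P ≤ n') (hB : c * P * B = n' + 1)
    (hP : 1 ≤ P) (hl : 1 ≤ l) (f : ℤ → Fin 3) :
    l ^ 2 * ∑ p ∈ T a b c n' 0, H w n L P f p.1 p.2.1 p.2.2 - (a + b + c) * L ^ 2 * (l * n') ^ 2 ≤
      ∑ p ∈ T a b c (l * (n' + 1)) 0,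
        H w n L P f (ph (c * P) l p.1) (ph (c * P) l p.2.1) (ph (c * P) l p.2.2) := by
  have P0 : (0 : ℤ) < P := by exact_mod_cast hP
  have l0 : (0 : ℤ) < l := by exact_mod_cast hl
  have hm : 0 < c * P := mul_pos hc P0
  have C0 : (0 : ℝ) ≤ (a + b + c) * L ^ 2 := by
    have : (0 : ℝ) < ((a + b + c : ℤ) : ℝ) := by exact_mod_cast (by omega)
    push_cast at this
    positivity
  refine le_trans ?_ (inj_le (S := T a b c n' 0 ×ˢ range l ×ˢ range l)
    (g := fun q => H w n L P f q.1.1 q.1.2.1 q.1.2.2 - (a + b + c) * L ^ 2)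
    (fun q => (ps (c * P) l q.1.1 q.2.1, ps (c * P) l q.1.2.1 q.2.2,
      (a * ps (c * P) l q.1.1 q.2.1 + b * ps (c * P) l q.1.2.1 q.2.2) / c)) ?_
    (fun _ => (H_mem h0 h1 ..).1) ?_)
  · simp only [sum_product, sum_const, card_range, nsmul_eq_mul, ← mul_sum, sum_sub_distrib,
      card_product]
    push_cast
    have : ((T a b c n' 0).card : ℝ) ≤ n' ^ 2 := by exact_mod_cast card_T hc n' 0
    nlinarith [mul_le_mul_of_nonneg_left this (mul_nonneg C0 (sq_nonneg (l : ℝ)))]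
  · rintro ⟨⟨u, v, z⟩, i, j⟩ hp ⟨⟨u', v', z'⟩, i', j'⟩ hq h
    simp only [coe_product, Set.mem_prod, mem_coe, mem_range, mem_T] at hp hq
    simp only [Prod.mk.injEq] at h
    have k := fun (i : ℕ) (hi : i < l) => ph_ps hm (Int.natCast_nonneg i) (Int.ofNat_lt.2 hi)
    obtain rfl : u = u' := by rw [← k i hp.2.1 u, h.1, k i' hq.2.1]
    obtain rfl : v = v' := by rw [← k j hp.2.2 v, h.2.1, k j' hq.2.2]
    obtain rfl : z = z' := mul_left_cancel₀ hc.ne' (by linarith [hp.1.2, hq.1.2])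
    have p0 : P ≠ 0 := by omega
    have e1 : i = i' := by simpa [ps, hc.ne', p0] using h.1
    have e2 : j = j' := by simpa [ps, hc.ne', p0] using h.2.1
    rw [e1, e2]
  · rintro ⟨⟨u, v, t⟩, i, j⟩ hp
    simp only [mem_product, mem_range, mem_T] at hp
    obtain ⟨⟨⟨hu, hv, -⟩, e⟩, hi, hj⟩ := hp
    have i1 := Int.ofNat_lt.2 hi
    have j1 := Int.ofNat_lt.2 hj
    have mx := ps_mem hm (Int.natCast_nonneg i) i1 hu.1 (show u < c * P * B by omega)
    have my := ps_mem hm (Int.natCast_nonneg j) j1 hv.1 (show v < c * P * B by omega)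
    have ex := ph_ps hm (Int.natCast_nonneg i) i1 u
    have ey := ph_ps hm (Int.natCast_nonneg j) j1 v
    dsimp only
    generalize ps (c * P) l u i = x at *
    generalize ps (c * P) l v j = y at *
    obtain ⟨nx, dx, hx⟩ := ph_near hm l0 x
    obtain ⟨ny, dy, hy⟩ := ph_near hm l0 y
    rw [ex] at nx hx
    rw [ey] at ny hy
    obtain ⟨z, hz⟩ : ∃ z, z = t - P * (a * dx + b * dy) := ⟨_, rfl⟩
    have ez : a * x + b * y = c * z := by rw [hz]; linear_combination e - a * hx - b * hy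
    rw [ez, Int.mul_ediv_cancel_left _ hc.ne']
    obtain ⟨nz, dz, hz'⟩ := ph_near hm l0 z
    obtain ⟨d, hd⟩ : ∃ d, d = c * dz - a * dx - b * dy := ⟨_, rfl⟩
    have e3 : ph (c * P) l z = t + d * P := by rw [hd]; linear_combination hz' + hz
    have e4 : c * P * l * d = c * (l * ph (c * P) l z - z) - a * (l * u - x) - b * (l * v - y) := by
      rw [e3]; linear_combination l * e - ez
    have hd' : |d| ≤ a + b + c := by
      rw [abs_le] at nx ny nz ⊢
      have := mul_le_mul_of_nonneg_left nx.1 ha.le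
      have := mul_le_mul_of_nonneg_left nx.2 ha.le
      have := mul_le_mul_of_nonneg_left ny.1 hb.le
      have := mul_le_mul_of_nonneg_left ny.2 hb.le
      have := mul_le_mul_of_nonneg_left nz.1 hc.le
      have := mul_le_mul_of_nonneg_left nz.2 hc.le
      constructor <;> refine le_of_mul_le_mul_left ?_ (mul_pos hm l0) <;> linarith
    have lip : H w n L P f u v t - (a + b + c) * L ^ 2 ≤ H w n L P f u v (ph (c * P) l z) := by
      refine le_trans ?_ (e3 ▸ H_lip h0 h1 n L P f u v t d)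
      have : ((|d| : ℤ) : ℝ) ≤ (a + b + c : ℤ) := by exact_mod_cast hd'
      push_cast at this ⊢
      nlinarith [sq_nonneg (L : ℝ)]
    by_cases hz : z ≤ l * (c * P * B)
    · refine Or.inr ⟨mem_T.2 ?_, by rwa [ex, ey]⟩
      have : 0 < z := (mul_pos_iff_of_pos_left hc).1
        (ez ▸ add_pos (mul_pos ha mx.1) (mul_pos hb my.1))
      rw [hB] at mx my hz
      push_cast
      exact ⟨⟨mx, my, this, hz⟩, by simpa using ez⟩
    · refine Or.inl (lip.trans_eq (sum_eq_zero fun s _ => if_neg fun t => ?_))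
      have := ph_big hm l0 (not_le.1 hz).le
      have := Int.ofNat_lt.2 s.2.2.2
      zify at hn
      linarith [t.2.2.2, mul_le_mul_of_nonneg_right this.le P0.le]

theorem stepD {n L N : ℕ} (P : ℤ) (hL : 1 ≤ L) (f : ℤ → Fin 3) (φ : ℤ → ℤ) :
    ∑ p ∈ T a b c N 0, H w n L P f (φ p.1) (φ p.2.1) (φ p.2.2) - 3 * N * L ^ 3 ≤
      L ^ 3 * V a b c w N := by
  classical
  obtain ⟨L, rfl⟩ : ∃ k, L = k + 1 := ⟨L - 1, by omega⟩
  have inj : ∀ x y : ℤ, 1 ≤ x ∧ x ≤ N → 1 ≤ y ∧ y ≤ N → x ≠ y →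
      (x : ZMod (N + 1)) ≠ (y : ZMod (N + 1)) := fun x y hx hy ne d => by
    have := Int.eq_zero_of_abs_lt_dvd ((ZMod.intCast_eq_intCast_iff_dvd_sub _ _ _).1 d)
      (abs_lt.2 ⟨by push_cast; omega, by push_cast; omega⟩)
    omega
  set D : ℤ × ℤ × ℤ → Prop := fun p => p.1 = p.2.1 ∨ p.1 = p.2.2 ∨ p.2.1 = p.2.2 with hD
  have k1 : ∑ p ∈ (T a b c N 0).filter D, H w n (L + 1) P f (φ p.1) (φ p.2.1) (φ p.2.2) ≤
      3 * N * ((L + 1 : ℕ) : ℝ) ^ 3 := by
    refine (sum_le_card_nsmul _ _ _ fun _ _ => (H_mem h0 h1 ..).2).trans ?_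
    rw [nsmul_eq_mul]
    gcongr
    exact_mod_cast card_deg ha hb hc N
  rw [← sum_filter_add_sum_filter_not _ D]
  have O : (0 : ℝ) < Fintype.card (ZMod (N + 1) → Fin (L + 1)) := by
    exact_mod_cast Fintype.card_pos
  suffices ∑ p ∈ (T a b c N 0).filter (¬ D ·), H w n (L + 1) P f (φ p.1) (φ p.2.1) (φ p.2.2) ≤
      ((L + 1 : ℕ) : ℝ) ^ 3 * V a b c w N by linarith
  refine le_of_mul_le_mul_left ?_ O
  calc _ = ∑ p ∈ (T a b c N 0).filter (¬ D ·), ((L + 1 : ℕ) : ℝ) ^ 3 *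
        ∑ σ : ZMod (N + 1) → Fin (L + 1), om w n f (φ p.1 - (σ p.1 : ℕ) * P)
          (φ p.2.1 - (σ p.2.1 : ℕ) * P) (φ p.2.2 - (σ p.2.2 : ℕ) * P) := by
        rw [mul_sum]
        refine sum_congr rfl fun p hp => ?_
        obtain ⟨h2, h3⟩ := mem_filter.1 hp
        obtain ⟨⟨hx, hy, hz⟩, -⟩ := mem_T.1 h2
        simp only [hD, not_or] at h3
        have := derand (inj _ _ hx hy h3.1) (inj _ _ hx hz h3.2.1) (inj _ _ hy hz h3.2.2)
          fun i j k : Fin (L + 1) => om w n f (φ p.1 - (i : ℕ) * P) (φ p.2.1 - (j : ℕ) * P)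
            (φ p.2.2 - (k : ℕ) * P)
        rw [Fintype.card_fin] at this
        exact this.symm
    _ ≤ _ := by
        rw [← mul_sum, sum_comm, mul_left_comm]
        gcongr
        refine (sum_le_card_nsmul _ _ (V a b c w N) fun σ _ => ?_).trans
          (by rw [card_univ, nsmul_eq_mul])
        refine le_trans (inj_le id (Set.injOn_id _) (fun _ => h0 ..) fun p hp =>
          Or.inr ⟨(mem_filter.1 hp).1, ?_⟩)
          (le_V h0 h1 hc N fun x => f (φ x - (σ x : ℕ) * P))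
        unfold om
        split_ifs
        exacts [le_rfl, h0 ..]

theorem W_period {ε : ℝ} (hε : 0 < ε) (K : ℕ) : ∃ P0 : ℕ, ∀ n : ℕ, K * P0 < n → ∀ f,
    ∃ P : ℕ, 1 ≤ P ∧ P ≤ P0 ∧ ∀ s : ℤ, |s| ≤ K →
      W a b c w n 0 f - 27 * ε * n ^ 2 ≤ W a b c w n (s * P) f := by
  obtain ⟨P0, h⟩ := period ha hb hc hε K
  refine ⟨P0, fun n hn f => ?_⟩
  obtain ⟨P, p1, p2, h⟩ := h n hn (fun i u => if f u = i then 1 else 0) fun i u => by
    split_ifs <;> simp
  refine ⟨P, p1, p2, fun s hs => ?_⟩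
  have e : ∀ t, W a b c w n t f = ∑ q : Fin 3 × Fin 3 × Fin 3, w q.1 q.2.1 q.2.2 *
      ∑ p ∈ T a b c n t, (if f p.1 = q.1 then (1 : ℝ) else 0) * (if f p.2.1 = q.2.1 then 1 else 0) *
        (if f p.2.2 = q.2.2 then 1 else 0) := fun t => by
    simp only [mul_sum]
    rw [sum_comm]
    refine sum_congr rfl fun p _ => ?_
    rw [sum_eq_single (f p.1, f p.2.1, f p.2.2) (fun q _ n => ?_) (by simp)]
    · simp
    · split_ifs with k1 k2 k3 <;> simp
      exact absurd (by rw [k1, k2, k3]) n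
  rw [e, e, sub_le_comm, ← sum_sub_distrib]
  refine (sum_le_card_nsmul _ _ (ε * n ^ 2) fun q _ => ?_).trans (by simp [mul_assoc])
  have := abs_le.1 (h q.1 q.2.1 q.2.2 s hs)
  have := h0 q.1 q.2.1 q.2.2
  have := h1 q.1 q.2.1 q.2.2
  have : 0 ≤ ε * n ^ 2 := by positivity
  nlinarith

end Pool.Agent.H31.Rb
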