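import Pool.Agent.H31.Rb3

namespace Pool.Agent.H31.Rb

open Finset Filter Topology

theorem conv {v : ℕ → ℝ} (h0 : ∀ n, 0 ≤ v n) (h1 : ∀ n, v n ≤ 1)
    (h : ∀ ε > 0, ∀ᶠ n in atTop, ∀ᶠ N in atTop, v n - ε ≤ v N) :
    ∃ τ, Tendsto v atTop (𝓝 τ) := by
  have b1 : IsBoundedUnder (· ≤ ·) atTop v := isBoundedUnder_of ⟨1, h1⟩
  have b0 : IsBoundedUnder (· ≥ ·) atTop v := isBoundedUnder_of ⟨0, h0⟩
  refine ⟨limsup v atTop, tendsto_order.2 ⟨fun x hx => ?_, fun x hx =>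
    eventually_lt_of_limsup_lt hx b1⟩⟩
  obtain ⟨n, k1, k2⟩ := ((frequently_lt_of_lt_limsup b0.isCoboundedUnder_le
    (show (x + limsup v atTop) / 2 < _ by linarith)).and_eventually
    (h ((limsup v atTop - x) / 2) (by linarith))).exists
  exact k2.mono fun N hN => by linarith

variable {a b c : ℤ} {w : Fin 3 → Fin 3 → Fin 3 → ℝ} (h0 : ∀ i j k, 0 ≤ w i j k)
  (h1 : ∀ i j k, w i j k ≤ 1) (ha : 0 < a) (hb : 0 < b) (hc : 0 < c)
include h0 h1 ha hb hc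

theorem transfer {ε : ℝ} (hε : 0 < ε) {L : ℕ} (hL : 1 ≤ L) : ∃ Q : ℕ, ∀ n : ℕ, Q < n → ∀ f,
    ∃ n' : ℕ, n < n' ∧ n' ≤ n + Q ∧ ∀ l : ℕ, 1 ≤ l → l ^ 2 * (W a b c w n 0 f - 27 * ε * n ^ 2) -
      (a + b + c) / L * (l * n') ^ 2 - 3 * (l * n') ≤ V a b c w (l * n') := by
  obtain ⟨C, hC⟩ : ∃ C : ℕ, (C : ℤ) = a + b + c := ⟨(a + b + c).toNat, by omega⟩
  obtain ⟨P0, h⟩ := W_period h0 h1 ha hb hc hε (C * L)
  refine ⟨(C * L + L + C + 1) * P0 + 1, fun n hn f => ?_⟩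
  obtain ⟨P, p1, p2, h⟩ := h n (by nlinarith) f
  have hm : 0 < c * P := mul_pos hc (by exact_mod_cast p1)
  have e1 := Int.emod_add_mul_ediv (n + L * P) (c * P)
  have e2 := Int.emod_nonneg (n + L * P) hm.ne'
  have e3 := Int.emod_lt_of_pos (n + L * P) hm
  have LP : (0 : ℤ) ≤ L * P := by positivity
  obtain ⟨n', hn'⟩ : ∃ n' : ℕ, c * P * ((n + L * P) / (c * P) + 1) = n' + 1 :=
    ⟨(c * P * ((n + L * P) / (c * P) + 1) - 1).toNat, by
      rw [Int.toNat_of_nonneg (by linarith [Int.natCast_nonneg n])]; ring⟩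
  have k : n + L * P ≤ n' := by zify; linarith
  refine ⟨n' + 1, by omega, ?_, fun l hl => ?_⟩
  · have : c * P ≤ C * P0 := mul_le_mul (by omega) (by exact_mod_cast p2) (by positivity)
      (by positivity)
    have : L * P ≤ L * P0 := Nat.mul_le_mul_left _ p2
    zify at this ⊢
    nlinarith [show (0 : ℤ) ≤ C * L * P0 + P0 by positivity]
  have B := stepB h0 h1 k ha hb hc f fun s hs => h s (by push_cast; rwa [hC])
  have C' := stepC h0 h1 ha hb hc k hn' p1 hl f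
  have D := stepD h0 h1 ha hb hc (n := n) (N := l * (n' + 1)) P hL f (ph (c * P) l)
  have L0 : (0 : ℝ) < L := by exact_mod_cast hL
  refine le_of_mul_le_mul_left (le_trans ?_ D) (pow_pos L0 3)
  have C0 : (0 : ℝ) < ((a + b + c : ℤ) : ℝ) := by exact_mod_cast (by omega)
  have k2 : (a + b + c) * (L : ℝ) ^ 2 * (l * n') ^ 2 ≤
      L ^ 3 * ((a + b + c) / L * (l * (n' + 1)) ^ 2) := by
    push_cast at C0
    rw [show (L : ℝ) ^ 3 * ((a + b + c) / L * (l * (n' + 1)) ^ 2) =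
      (a + b + c) * (L : ℝ) ^ 2 * (l * (n' + 1)) ^ 2 by field_simp]
    gcongr
    linarith
  push_cast
  nlinarith [mul_le_mul_of_nonneg_left B (sq_nonneg (l : ℝ))]

theorem V_mem (n : ℕ) : 0 ≤ V a b c w n ∧ V a b c w n ≤ n ^ 2 :=
  ⟨le_trans (sum_nonneg fun _ _ => h0 ..) (le_V h0 h1 hc n 0),
    ciSup_le fun f => W_le h0 h1 hc n 0 f⟩

theorem V_conv : ∃ τ, Tendsto (fun n : ℕ => V a b c w n / n ^ 2) atTop (𝓝 τ) := by
  refine conv (fun n => div_nonneg (V_mem h0 h1 ha hb hc n).1 (sq_nonneg _))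
    (fun n => div_le_one_of_le₀ (V_mem h0 h1 ha hb hc n).2 (sq_nonneg _)) fun ε hε => ?_
  obtain ⟨δ, d0, rfl⟩ : ∃ δ > 0, ε = 36 * δ := ⟨ε / 36, by positivity, by ring⟩
  obtain ⟨L, hL⟩ := exists_nat_gt ((a + b + c) / δ + 1)
  have C0 : (0 : ℝ) < ((a + b + c : ℤ) : ℝ) := by exact_mod_cast (by omega)
  push_cast at C0
  have L1 : (1 : ℝ) ≤ L := by linarith [div_pos C0 d0]
  obtain ⟨Q, hQ⟩ := transfer h0 h1 ha hb hc d0 (L := L) (by exact_mod_cast L1)
  have ev : ∀ x : ℝ, ∀ᶠ n : ℕ in atTop, x ≤ δ * n := fun x =>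
    (tendsto_natCast_atTop_atTop.const_mul_atTop d0).eventually_ge_atTop x
  filter_upwards [eventually_gt_atTop Q, ev Q] with n hn qn
  have n0 : (0 : ℝ) < n := by exact_mod_cast (by omega)
  obtain ⟨f, hf⟩ := exists_lt_of_lt_ciSup (f := W a b c w n 0)
    (show V a b c w n - δ * n ^ 2 < _ from sub_lt_self _ (by positivity))
  obtain ⟨n', k1, k2, h⟩ := hQ n hn f
  filter_upwards [eventually_ge_atTop n', ev n', ev 1] with N hN k3 k4
  have n'0 : 0 < n' := by omega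
  have k5 := (h _ (Nat.div_pos hN n'0)).trans (V_mono h0 h1 hc (Nat.div_mul_le_self N n'))
  have k6 : ((N / n' : ℕ) : ℝ) * n' ≤ N := by exact_mod_cast Nat.div_mul_le_self N n'
  have k7 : (N : ℝ) ≤ (N / n' : ℕ) * n' + n' := by exact_mod_cast (Nat.lt_div_mul_add n'0).le
  have l0 : (0 : ℝ) ≤ (N / n' : ℕ) := by positivity
  generalize ((N / n' : ℕ) : ℝ) = l at *
  have N0 : (0 : ℝ) < N := by exact_mod_cast (by omega)
  have k1' : (n : ℝ) ≤ n' := by exact_mod_cast k1.le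
  have k2' : (n' : ℝ) ≤ n + Q := by exact_mod_cast k2
  have u1 : l * n ≤ N := by nlinarith
  have u2 : (1 - 2 * δ) * N ≤ l * n := by
    nlinarith [mul_le_mul_of_nonneg_left (k2'.trans (add_le_add_right qn _)) l0,
      mul_le_mul_of_nonneg_left u1 d0.le]
  have u3 : (a + b + c) / L * (l * n') ^ 2 ≤ δ * (N : ℝ) ^ 2 := by
    gcongr
    rw [div_le_iff₀ (by linarith)]
    have := (div_lt_iff₀ d0).1 (show (a + b + c) / δ < L by linarith)
    linarith
  obtain ⟨y, hy⟩ : ∃ y, y = V a b c w n / n ^ 2 := ⟨_, rfl⟩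
  have y1 : y ≤ 1 := hy ▸ div_le_one_of_le₀ (V_mem h0 h1 ha hb hc n).2 (sq_nonneg _)
  have y0 : 0 ≤ y := hy ▸ div_nonneg (V_mem h0 h1 ha hb hc n).1 (sq_nonneg _)
  rw [← hy, le_div_iff₀ (by positivity)]
  rw [eq_div_iff (by positivity)] at hy
  rw [← hy] at hf
  have u4 : (l * n) ^ 2 * (y - 28 * δ) ≤ l ^ 2 * (W a b c w n 0 f - 27 * δ * n ^ 2) := by
    nlinarith [mul_le_mul_of_nonneg_left hf.le (sq_nonneg l)]
  have t0 : 0 ≤ l * n := by positivity
  generalize l * n = t at *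
  have u5 : t ^ 2 ≤ (N : ℝ) ^ 2 := by gcongr
  have u6 : (N : ℝ) ^ 2 - t ^ 2 ≤ 4 * δ * N ^ 2 := by
    nlinarith [mul_le_mul (show N - t ≤ 2 * δ * N by linarith) (show N + t ≤ 2 * N by linarith)
      (by positivity) (by positivity)]
  have u7 := mul_le_mul_of_nonneg_left y1 (sub_nonneg.2 u5)
  have u8 := mul_le_mul_of_nonneg_left u5 d0.le
  have u9 := mul_le_mul_of_nonneg_left k4 N0.le
  nlinarith

theorem surj_conv : ∃ τ, Tendsto (fun n : ℕ => sSup {r | ∃ f : ℤ → Fin 3,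
    Set.SurjOn f (Set.Icc 1 n) Set.univ ∧ r = W a b c w n 0 f} / n ^ 2) atTop (𝓝 τ) := by
  obtain ⟨τ, h⟩ := V_conv h0 h1 ha hb hc
  have h' := h.sub (tendsto_const_div_atTop_nhds_zero_nat (9 : ℝ))
  rw [sub_zero] at h'
  refine ⟨τ, tendsto_of_tendsto_of_tendsto_of_le_of_le' h' h ?_ (Eventually.of_forall fun n => ?_)⟩
  · filter_upwards [eventually_ge_atTop 3] with n hn
    have n0 : (0 : ℝ) < n := by exact_mod_cast (by omega)
    rw [show (9 : ℝ) / n = 9 * n / n ^ 2 by field_simp, ← sub_div]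
    gcongr
    rw [sub_le_iff_le_add]
    refine ciSup_le fun f => ?_
    set g : ℤ → Fin 3 := fun x => if x = 1 then 0 else if x = 2 then 1 else if x = 3 then 2 else f x
      with hg
    refine le_trans (b := W a b c w n 0 g + 9 * n) ?_ (add_le_add (le_csSup ⟨(n : ℝ) ^ 2, by
      rintro _ ⟨f, -, rfl⟩; exact W_le h0 h1 hc n 0 f⟩ ⟨g, fun i _ => ?_, rfl⟩) le_rfl)
    · have : (((T a b c n 0).filter fun p => p.1 ≤ 3 ∨ p.2.1 ≤ 3 ∨ p.2.2 ≤ 3).card : ℝ) ≤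
          3 * (3 * n) := by exact_mod_cast card_small ha hb hc n
      rw [card_filter] at this
      push_cast at this
      refine le_trans (sum_le_sum fun p _ => ?_) ((sum_add_distrib).trans_le
        (add_le_add le_rfl (this.trans_eq (by ring))))
      split_ifs with t
      · linarith [h1 (f p.1) (f p.2.1) (f p.2.2), h0 (g p.1) (g p.2.1) (g p.2.2)]
      · have : ∀ x, ¬ x ≤ 3 → g x = f x := fun x hx => by
          rw [hg]; dsimp only; rw [if_neg (by omega), if_neg (by omega), if_neg (by omega)]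
        simp only [not_or] at t
        rw [this _ t.1, this _ t.2.1, this _ t.2.2, add_zero]
    · refine ⟨(i : ℕ) + 1, ⟨by omega, by omega⟩, ?_⟩
      fin_cases i <;> rfl
  · gcongr
    exact Real.sSup_le (by rintro _ ⟨f, -, rfl⟩; exact le_V h0 h1 hc n f) (V_mem h0 h1 ha hb hc n).1

omit h0 h1 in
theorem card_conv : ∃ τ > 0, Tendsto (fun n : ℕ => ((T a b c n 0).card : ℝ) / n ^ 2) atTop (𝓝 τ) := by
  obtain ⟨τ, h⟩ := V_conv (w := fun _ _ _ => 1) (by simp) (by simp) ha hb hc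
  simp only [V, W, sum_const, nsmul_eq_mul, mul_one, ciSup_const] at h
  obtain ⟨C, hC⟩ : ∃ C : ℕ, (C : ℤ) = a + b + c := ⟨(a + b + c).toNat, by omega⟩
  have C0 : 0 < C := by omega
  refine ⟨τ, lt_of_lt_of_le (show (0 : ℝ) < 1 / (2 * C) ^ 2 by positivity) (ge_of_tendsto h ?_), h⟩
  filter_upwards [eventually_ge_atTop C] with n hn
  have n0 : (0 : ℝ) < n := by exact_mod_cast (by omega)
  have k1 : (n / C) ^ 2 ≤ (T a b c n 0).card := by
    refine le_trans (by generalize n / C = k; simp [sq]) (card_le_card_of_injOn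
      (s := Icc (1 : ℤ) (n / C : ℕ) ×ˢ Icc (1 : ℤ) (n / C : ℕ))
      (fun p => (c * p.1, c * p.2, a * p.1 + b * p.2)) (fun p hp => ?_) ?_)
    · simp only [coe_product, Set.mem_prod, mem_coe, mem_Icc] at hp
      have : ((n / C : ℕ) : ℤ) * (a + b + c) ≤ n := by
        rw [← hC]; exact_mod_cast Nat.div_mul_le_self n C
      obtain ⟨⟨_, _⟩, _, _⟩ := hp
      generalize ((n / C : ℕ) : ℤ) = k at *
      refine mem_T.2 ⟨⟨⟨?_, ?_⟩, ⟨?_, ?_⟩, ?_, ?_⟩, by dsimp only; ring⟩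
      all_goals dsimp only; nlinarith
    · rintro ⟨x, y⟩ - ⟨x', y'⟩ - h
      simp only [Prod.mk.injEq, mul_eq_mul_left_iff, hc.ne', or_false] at h
      rw [h.1, h.2.1]
  have k2 : n ≤ 2 * C * (n / C) := by
    have := Nat.lt_div_mul_add (a := n) C0
    have := Nat.div_pos hn C0
    nlinarith
  have k3 : n ^ 2 ≤ (T a b c n 0).card * (2 * C) ^ 2 :=
    (Nat.pow_le_pow_left k2 2).trans (by rw [mul_pow, mul_comm]; gcongr)
  rw [div_le_div_iff₀ (by positivity) (by positivity), one_mul]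
  exact_mod_cast k3

theorem ratio_conv : ∃ τ, Tendsto (fun n : ℕ => sSup {r | ∃ f : ℤ → Fin 3,
    Set.SurjOn f (Set.Icc 1 n) Set.univ ∧ r = W a b c w n 0 f / (T a b c n 0).card})
    atTop (𝓝 τ) := by
  obtain ⟨τ, h⟩ := surj_conv h0 h1 ha hb hc
  obtain ⟨σ, s0, h'⟩ := card_conv ha hb hc
  refine ⟨_, (h.div h' s0.ne').congr' ?_⟩
  filter_upwards [eventually_gt_atTop 0] with n hn
  have n0 : (0 : ℝ) < n := by exact_mod_cast hn
  rw [Pi.div_apply, div_div_div_cancel_right₀ (by positivity), div_eq_inv_mul, ← smul_eq_mul,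
    ← Real.sSup_smul_of_nonneg (by positivity)]
  congr 1
  ext r
  constructor
  · rintro ⟨_, ⟨f, hf, rfl⟩, rfl⟩
    exact ⟨f, hf, by simp [div_eq_inv_mul]⟩
  · rintro ⟨f, hf, rfl⟩
    exact ⟨_, ⟨f, hf, rfl⟩, by simp [div_eq_inv_mul]⟩

end Pool.Agent.H31.Rb
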