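import Mathlib

namespace Pool.Agent.H31.Rog

open Finset

open Classical in
noncomputable def N (L : ℕ) (p : ℕ → Prop) : ℕ := ((range L).filter p).card

theorem N_mono {L : ℕ} {p q : ℕ → Prop} (h : ∀ x, p x → q x) : N L p ≤ N L q := by
  classical
  exact card_le_card fun x hx => by
    simp only [mem_filter] at hx ⊢; exact ⟨hx.1, h x hx.2⟩

theorem N_or (L : ℕ) (p q : ℕ → Prop) :
    N L (fun x => p x ∨ q x) + N L (fun x => p x ∧ q x) = N L p + N L q := by
  simp only [N, card_filter, ← sum_add_distrib]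
  exact sum_congr rfl fun x _ => by by_cases p x <;> by_cases q x <;> simp [*]

open Classical in
theorem win {L : ℕ} (b : ℕ) {p : ℕ → Prop} (h : ∀ x, p (x + L) ↔ p x) :
    ((Ico b (b + L)).filter p).card = N L p := by
  have pp : Function.Periodic p L := fun x => propext (h x)
  rw [Nat.filter_Ico_card_eq_of_periodic b L p pp, ← Nat.filter_Ico_card_eq_of_periodic 0 L p pp,
    N, zero_add, range_eq_Ico]

theorem per {L m : ℕ} (h : m ∣ L) (a : ℤ) (x : ℕ) :
    (m : ℤ) ∣ (x + L : ℕ) - a ↔ (m : ℤ) ∣ x - a := by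
  rw [show ((x + L : ℕ) : ℤ) - a = L + (x - a) by push_cast; ring]
  exact dvd_add_right (Int.natCast_dvd_natCast.2 h)

theorem one {L m : ℕ} (h : m ∣ L) (hL : L ≠ 0) (a : ℤ) :
    N L (fun x => (m : ℤ) ∣ x) ≤ N L fun x => (m : ℤ) ∣ x - a := by
  classical
  have m0 : (m : ℤ) ≠ 0 := by
    have := ne_zero_of_dvd_ne_zero hL h
    omega
  obtain ⟨b, hb⟩ := Int.eq_ofNat_of_zero_le (Int.emod_nonneg a m0)
  rw [← win (p := fun x => (m : ℤ) ∣ x - a) b (per h a), N]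
  refine card_le_card_of_injOn (· + b) (fun x hx => ?_) fun x _ y _ e => by simpa using e
  simp only [coe_filter, mem_range, mem_Ico, Set.mem_ofPred_eq] at hx ⊢
  refine ⟨by omega, ?_⟩
  rw [show ((x + b : ℕ) : ℤ) - a = x - m * (a / m) by
    push_cast; rw [← hb]; linarith [Int.emod_add_mul_ediv a m]]
  exact dvd_sub hx.2 (dvd_mul_right _ _)

open Classical in
theorem crt {A B : ℕ} (co : A.Coprime B) (hA : A ≠ 0) (hB : B ≠ 0) (P : ℕ → ℕ → Prop) :
    N (A * B) (fun x => P (x % A) (x % B)) = ((range A ×ˢ range B).filter fun z => P z.1 z.2).card := by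
  refine card_nbij' (fun x => (x % A, x % B)) (fun z => Nat.chineseRemainder co z.1 z.2)
    (fun x hx => ?_) (fun z hz => ?_) (fun x hx => ?_) fun z hz => ?_
  · simp only [coe_filter, mem_range, mem_product, Set.mem_ofPred_eq] at hx ⊢
    exact ⟨⟨Nat.mod_lt _ (by omega), Nat.mod_lt _ (by omega)⟩, hx.2⟩
  · simp only [coe_filter, mem_range, mem_product, Set.mem_ofPred_eq] at hz ⊢
    have := (Nat.chineseRemainder co z.1 z.2).2
    refine ⟨Nat.chineseRemainder_lt_mul co _ _ hA hB, ?_⟩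
    rw [this.1, this.2, Nat.mod_eq_of_lt hz.1.1, Nat.mod_eq_of_lt hz.1.2]
    exact hz.2
  · simp only [coe_filter, mem_range, Set.mem_ofPred_eq] at hx
    have := (Nat.chineseRemainder co (x % A) (x % B)).2
    exact Nat.ModEq.eq_of_lt_of_lt ((Nat.modEq_and_modEq_iff_modEq_mul co).1
      ⟨this.1.trans (Nat.mod_modEq _ _), this.2.trans (Nat.mod_modEq _ _)⟩)
      (Nat.chineseRemainder_lt_mul co _ _ hA hB) hx.1
  · simp only [coe_filter, mem_range, mem_product, Set.mem_ofPred_eq] at hz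
    have := (Nat.chineseRemainder co z.1 z.2).2
    exact Prod.ext (Eq.trans this.1 (Nat.mod_eq_of_lt hz.1.1))
      (Eq.trans this.2 (Nat.mod_eq_of_lt hz.1.2))

theorem split {A B m : ℕ} (co : A.Coprime B) (h : m ∣ A * B) (x : ℕ) (a : ℤ) : (m : ℤ) ∣ x - a ↔
    (m.gcd A : ℤ) ∣ (x % A : ℕ) - a ∧ (m.gcd B : ℤ) ∣ (x % B : ℕ) - a := by
  have k : ∀ C : ℕ, (m.gcd C : ℤ) ∣ (x % C : ℕ) - a ↔ (m.gcd C : ℤ) ∣ x - a := fun C => by
    rw [← per (L := C * (x / C)) ((Nat.gcd_dvd_right _ _).mul_right _), Nat.mod_add_div]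
  rw [k, k]
  refine ⟨fun d => ⟨(Int.natCast_dvd_natCast.2 (Nat.gcd_dvd_left _ _)).trans d,
    (Int.natCast_dvd_natCast.2 (Nat.gcd_dvd_left _ _)).trans d⟩, fun d => ?_⟩
  rw [← Nat.gcd_eq_left h, co.gcd_mul, Nat.cast_mul]
  exact (Nat.isCoprime_iff_coprime.2 ((co.gcd_left m).gcd_right m)).mul_dvd d.1 d.2

/-- Rogers' theorem on unions of residue classes -/
theorem rogers {ι : Type} (L : ℕ) : ∀ (F : ι → Prop) (m : ι → ℕ) (a : ι → ℤ),
    (∀ i, F i → m i ∣ L) → N L (fun x => ∃ i, F i ∧ (m i : ℤ) ∣ x - 0) ≤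
      N L fun x => ∃ i, F i ∧ (m i : ℤ) ∣ x - a i := by
  classical
  induction L using Nat.recOnPrimeCoprime with
  | zero => simp [N]
  | prime_pow p n hp =>
    intro F m a h
    by_cases ne : ∃ i, F i
    · obtain ⟨i, hi, mi⟩ := (measure m).wf.has_min {i | F i} ne
      refine (N_mono fun x ⟨k, hk, d⟩ => ?_).trans ((one (h i hi) (pow_pos hp.pos n).ne' (a i)).trans
        (N_mono fun x d => ⟨i, hi, d⟩))
      obtain ⟨s, -, e1⟩ := (Nat.dvd_prime_pow hp).1 (h i hi)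
      obtain ⟨t, -, e2⟩ := (Nat.dvd_prime_pow hp).1 (h k hk)
      have : ¬ m k < m i := mi k hk
      rw [e1, e2, Nat.pow_lt_pow_iff_right hp.one_lt, not_lt] at this
      rw [sub_zero] at d
      exact (Int.natCast_dvd_natCast.2 (e1 ▸ e2 ▸ pow_dvd_pow p this)).trans d
    · exact N_mono fun x ⟨k, hk, _⟩ => absurd ⟨k, hk⟩ ne
  | coprime A B hA hB co iA iB =>
    intro F m a h
    have e : ∀ s : ι → ℤ, N (A * B) (fun x => ∃ i, F i ∧ (m i : ℤ) ∣ x - s i) =
        ((range A ×ˢ range B).filter fun z => ∃ i, F i ∧ ((m i).gcd A : ℤ) ∣ z.1 - s i ∧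
          ((m i).gcd B : ℤ) ∣ z.2 - s i).card := fun s => by
      rw [← crt co (by omega) (by omega) fun x y => ∃ i, F i ∧ ((m i).gcd A : ℤ) ∣ x - s i ∧
          ((m i).gcd B : ℤ) ∣ y - s i]
      congr 1
      exact funext fun x => propext (exists_congr fun i => and_congr_right fun hi =>
        split co (h i hi) x _)
    rw [e fun _ => 0, e a]
    refine le_trans (b := ((range A ×ˢ range B).filter fun z => ∃ i, F i ∧
      ((m i).gcd A : ℤ) ∣ z.1 - 0 ∧ ((m i).gcd B : ℤ) ∣ z.2 - a i).card) ?_ ?_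
    · simp only [card_filter, sum_product]
      refine sum_le_sum fun x _ => ?_
      simpa only [N, card_filter, and_assoc] using iB (fun i => F i ∧ ((m i).gcd A : ℤ) ∣ x - 0)
        (fun i => (m i).gcd B) a fun i _ => Nat.gcd_dvd_right _ _
    · simp only [card_filter, sum_product_right]
      refine sum_le_sum fun y _ => ?_
      simpa only [N, card_filter, and_assoc, and_comm (a := ((m _).gcd B : ℤ) ∣ _)] using
        iA (fun i => F i ∧ ((m i).gcd B : ℤ) ∣ y - a i)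
        (fun i => (m i).gcd A) a fun i _ => Nat.gcd_dvd_right _ _

inductive C : ℕ → ℕ → ℕ → ℤ → Prop
  | z : C 0 1 1 0
  | s {j q' m e} (q) : C j q' m e → q' < q → C (j + 1) q (q * m) (1 - q * e)

theorem C.le {j q m e} (h : C j q m e) : j + 1 ≤ q ∧ m ∣ q.factorial := by
  induction h with
  | z => simp
  | s q _ l ih =>
    obtain ⟨q, rfl⟩ : ∃ k, q = k + 1 := ⟨q - 1, by omega⟩
    exact ⟨by omega, Nat.mul_dvd_mul_left _ (ih.2.trans (Nat.factorial_dvd_factorial (by omega)))⟩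

theorem C.ex (j) : ∃ m e, C j (j + 1) m e := by
  induction j with
  | zero => exact ⟨_, _, .z⟩
  | succ j ih => obtain ⟨m, e, h⟩ := ih; exact ⟨_, _, h.s _ (by omega)⟩

theorem C.inv {j q m e} (h : C (j + 2) q m e) {x : ℤ} (d : (m : ℤ) ∣ x - e) :
    ∃ (q' : ℕ) (s : ℤ), j + 2 ≤ q' ∧ q' < q ∧ x - 1 + q = q * q' * s := by
  cases h with
  | s _ h l =>
    have := h.le.1
    cases h with
    | @s _ _ m e _ h _ =>
      obtain ⟨t, ht⟩ := d
      exact ⟨_, e + m * t, this, l, by push_cast at ht; linear_combination ht⟩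

def G (j w : ℕ) (i : ℕ × ℤ) : Prop := ∃ q < w, C j q i.1 i.2

theorem gain {j c : ℕ} : N ((j + 4).factorial * c)
    (fun x => ∃ i, G (j + 2) (j + 5) i ∧ (i.1 : ℤ) ∣ x - 0) + c ≤
    N ((j + 4).factorial * c) fun x => ∃ i, G (j + 2) (j + 5) i ∧ (i.1 : ℤ) ∣ x - i.2 := by
  classical
  set L := (j + 4).factorial * c with hL
  have r := fun q (hq : q ≤ j + 4) => rogers L (fun i : ℕ × ℤ => C (j + 2) q i.1 i.2) (·.1) (·.2)
    fun i hi => (hi.le.2.trans (Nat.factorial_dvd_factorial hq)).mul_right c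
  have e : ∀ s : ℕ × ℤ → ℤ, (fun x : ℕ => ∃ i, G (j + 2) (j + 5) i ∧ (i.1 : ℤ) ∣ x - s i) =
      fun x : ℕ => (∃ i : ℕ × ℤ, C (j + 2) (j + 3) i.1 i.2 ∧ (i.1 : ℤ) ∣ x - s i) ∨
        ∃ i : ℕ × ℤ, C (j + 2) (j + 4) i.1 i.2 ∧ (i.1 : ℤ) ∣ x - s i := fun s => by
    refine funext fun x => propext ⟨fun ⟨i, ⟨q, l, h⟩, d⟩ => ?_, ?_⟩
    · have := h.le.1
      obtain rfl | rfl : q = j + 3 ∨ q = j + 4 := by omega
      exacts [.inl ⟨i, h, d⟩, .inr ⟨i, h, d⟩]
    · rintro (⟨i, h, d⟩ | ⟨i, h, d⟩) <;> exact ⟨i, ⟨_, by omega, h⟩, d⟩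
  rw [e fun _ => 0, e (·.2)]
  have r1 := r (j + 3) (by omega)
  have r2 := r (j + 4) le_rfl
  have o := fun s : ℕ × ℤ → ℤ => N_or L
    (fun x => ∃ i : ℕ × ℤ, C (j + 2) (j + 3) i.1 i.2 ∧ (i.1 : ℤ) ∣ x - s i)
    fun x => ∃ i : ℕ × ℤ, C (j + 2) (j + 4) i.1 i.2 ∧ (i.1 : ℤ) ∣ x - s i
  refine le_trans (Nat.add_le_add_left ?_ _) ((o fun _ => 0).trans_le ((add_le_add r1 r2).trans
    ((o (·.2)).symm.trans_le (add_le_of_nonpos_right
      ((N_mono (q := fun _ => False) ?_).trans (by simp [N]))))))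
  · refine le_trans (by simp) (card_le_card_of_injOn (s := range c)
      ((j + 4).factorial * ·) (fun t ht => ?_) fun x _ y _ h =>
        Nat.eq_of_mul_eq_mul_left (Nat.factorial_pos _) h)
    obtain ⟨m, e, h⟩ := C.ex (j + 1)
    have k : ∀ q ≤ j + 4, j + 2 < q → ∃ i : ℕ × ℤ, C (j + 2) q i.1 i.2 ∧
        (i.1 : ℤ) ∣ ((j + 4).factorial * t : ℕ) - 0 := fun q h1 h2 => ⟨(_, _), h.s q h2, by
      rw [sub_zero]
      exact Int.natCast_dvd_natCast.2 (((h.s q h2).le.2.trans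
        (Nat.factorial_dvd_factorial h1)).mul_right t)⟩
    have l : (j + 4).factorial * t ∈ range L :=
      mem_range.2 (Nat.mul_lt_mul_of_pos_left (mem_range.1 ht) (Nat.factorial_pos _))
    simp only [coe_filter, Set.mem_ofPred_eq]
    exact ⟨l, k _ (by omega) (by omega), k _ (by omega) (by omega)⟩
  · rintro x ⟨⟨i, h1, d1⟩, k, h2, d2⟩
    obtain ⟨q, s, a1, a2, a3⟩ := h1.inv d1
    obtain ⟨q', s', b1, b2, b3⟩ := h2.inv d2
    obtain rfl : q = j + 2 := by omega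
    push_cast at a3 b3
    obtain rfl | rfl : q' = j + 2 ∨ q' = j + 3 := by omega
    · have := Int.le_of_dvd one_pos (⟨(j + 4) * s' - (j + 3) * s, by
        push_cast at b3; linear_combination b3 - a3⟩ : (j + 2 : ℤ) ∣ 1)
      omega
    · have := Int.le_of_dvd one_pos (⟨(j + 4) * s' - (j + 2) * s, by
        push_cast at b3; linear_combination b3 - a3⟩ : (j + 3 : ℤ) ∣ 1)
      omega

end Pool.Agent.H31.Rog
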