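import Mathlib

set_option autoImplicit false
open SimpleGraph

namespace Pool.Agent.H31.SatDefs

/-- `G` has a subgraph isomorphic to a cycle whose length lies in `I`. -/
def HasCyc {V : Type} (G : SimpleGraph V) (I : Set ℕ) : Prop := ∃ k ∈ I, cycleGraph k ⊑ G

/-- `G` is saturated for the family of cycles with lengths in `I`. -/
def Saturated {V : Type} (G : SimpleGraph V) (I : Set ℕ) : Prop :=
  ¬ HasCyc G I ∧ ∀ x y, x ≠ y → ¬ G.Adj x y → HasCyc (G ⊔ edge x y) I

/-- The least number of edges of a saturated graph on `n` vertices. -/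
noncomputable def sat (n : ℕ) (I : Set ℕ) : ℕ :=
  sInf {e | ∃ G : SimpleGraph (Fin n), Saturated G I ∧ G.edgeSet.ncard = e}

end Pool.Agent.H31.SatDefs
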