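import Mathlib
import Pool.Agent.H31.HyperRamsey

set_option autoImplicit false
open Classical Finset

namespace Pool.Agent.H31.Schemes

theorem const_of_swap {α β : Type} [DecidableEq α] (U : Finset α) (j : ℕ) (g : Finset α → β)
    (h : ∀ K' ⊆ U, K'.card + 1 = j → ∀ a ∈ U, ∀ b ∈ U, a ∉ K' → b ∉ K' → a ≠ b →
      g (insert a K') = g (insert b K')) :
    ∀ K ⊆ U, ∀ K0 ⊆ U, K.card = j → K0.card = j → g K = g K0 := by
  intro K hK K0 hK0 hc hc0
  induction' hd : (K \ K0).card with d ih generalizing K
  · have : K ⊆ K0 := by rwa [Finset.card_eq_zero, Finset.sdiff_eq_empty_iff_subset] at hd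
    rw [Finset.eq_of_subset_of_card_le this (by omega)]
  · obtain ⟨a, ha⟩ : (K \ K0).Nonempty := Finset.card_pos.mp (by omega)
    have h1 : (K0 \ K).card = (K \ K0).card := Finset.card_sdiff_comm (by omega)
    obtain ⟨b, hb⟩ : (K0 \ K).Nonempty := Finset.card_pos.mp (by omega)
    rw [mem_sdiff] at ha hb
    have hab : a ≠ b := fun e => ha.2 (e ▸ hb.1)
    have hbe : b ∉ K.erase a := fun e => hb.2 (mem_of_mem_erase e)
    have hce : (K.erase a).card + 1 = j := by rw [Finset.card_erase_add_one ha.1, hc]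
    have h2 := h (K.erase a) ((erase_subset _ _).trans hK) hce a (hK ha.1) b (hK0 hb.1)
      (notMem_erase _ _) hbe hab
    rw [Finset.insert_erase ha.1] at h2
    rw [h2]
    refine ih _ ?_ ?_ ?_
    · exact insert_subset (hK0 hb.1) ((erase_subset _ _).trans hK)
    · rw [card_insert_of_notMem hbe, hce]
    · have : insert b (K.erase a) \ K0 = (K \ K0).erase a := by
        ext x
        simp only [mem_sdiff, mem_insert, mem_erase]
        constructor
        · rintro ⟨rfl | h3, h4⟩
          · exact absurd hb.1 h4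
          · exact ⟨h3.1, h3.2, h4⟩
        · rintro ⟨h3, h4, h5⟩; exact ⟨Or.inr ⟨h3, h4⟩, h5⟩
      rw [this, card_erase_of_mem (mem_sdiff.mpr ha), hd]; rfl

theorem sum_insert_pow {α : Type} [DecidableEq α] (g : Finset α → ℚ) (k : ℕ) (L : Finset α) (a : α)
    (ha : a ∉ L) : ∑ K ∈ (insert a L).powersetCard (k + 1), g K =
      ∑ K ∈ L.powersetCard (k + 1), g K + ∑ K ∈ L.powersetCard k, g (insert a K) := by
  rw [Finset.powersetCard_succ_insert ha, Finset.sum_union, Finset.sum_image]
  · intro K hK K' hK' he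
    have h1 : a ∉ K := fun e => ha ((mem_powersetCard.mp hK).1 e)
    have h2 : a ∉ K' := fun e => ha ((mem_powersetCard.mp hK').1 e)
    rw [← Finset.erase_insert h1, ← Finset.erase_insert h2]
    exact congrArg (fun s => Finset.erase s a) he
  · rw [Finset.disjoint_left]
    intro K hK hK'
    obtain ⟨K', _, rfl⟩ := mem_image.mp hK'
    exact ha ((mem_powersetCard.mp hK).1 (mem_insert_self _ _))

/-- the inclusion matrix has full rank -/
theorem gottlieb {α : Type} [DecidableEq α] (k : ℕ) : ∀ (l : ℕ) (U : Finset α) (g : Finset α → ℚ),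
    k ≤ l → k + l ≤ U.card → (∀ L ⊆ U, L.card = l → ∑ K ∈ L.powersetCard k, g K = 0) →
    ∀ K ⊆ U, K.card = k → g K = 0 := by
  induction k with
  | zero =>
    intro l U g _ hU h K _ hK
    obtain ⟨L, hL, hc⟩ := Finset.exists_subset_card_eq (show l ≤ U.card by omega)
    have := h L hL hc
    rw [Finset.card_eq_zero.mp hK]
    simpa using this
  | succ k ih =>
    intro l U g hl hU h K hK hKc
    obtain ⟨l', rfl⟩ : ∃ l', l = l' + 1 := ⟨l - 1, by omega⟩
    have hsw : ∀ K' ⊆ U, K'.card + 1 = k + 1 → ∀ a ∈ U, ∀ b ∈ U, a ∉ K' → b ∉ K' → a ≠ b →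
        g (insert a K') = g (insert b K') := by
      intro K' hK' hc a ha b hb haK hbK hab
      have hb' : b ∈ U.erase a := mem_erase.mpr ⟨hab.symm, hb⟩
      have := ih l' ((U.erase a).erase b) (fun K => g (insert a K) - g (insert b K)) (by omega)
        (by rw [card_erase_of_mem hb', card_erase_of_mem ha]; omega) ?_ K' ?_ (by omega)
      · linarith
      · intro L hL hLc
        have haL : a ∉ L := fun e => by simpa using hL e
        have hbL : b ∉ L := fun e => by simpa using hL e
        have hLU : L ⊆ U := (hL.trans (erase_subset _ _)).trans (erase_subset _ _)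
        have h1 := h (insert a L) (insert_subset ha hLU) (by rw [card_insert_of_notMem haL, hLc])
        have h2 := h (insert b L) (insert_subset hb hLU) (by rw [card_insert_of_notMem hbL, hLc])
        rw [sum_insert_pow g k L a haL] at h1
        rw [sum_insert_pow g k L b hbL] at h2
        rw [Finset.sum_sub_distrib]; linarith
      · intro x hx
        exact mem_erase.mpr ⟨fun e => hbK (e ▸ hx), mem_erase.mpr ⟨fun e => haK (e ▸ hx), hK' hx⟩⟩
    have hconst := const_of_swap U (k + 1) g hsw
    obtain ⟨L, hL, hc⟩ := Finset.exists_subset_card_eq (show l' + 1 ≤ U.card by omega)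
    have h1 := h L hL hc
    rw [Finset.sum_congr rfl (g := fun _ => g K) (fun K2 hK2 =>
      hconst K2 ((mem_powersetCard.mp hK2).1.trans hL) K hK (mem_powersetCard.mp hK2).2 hKc)] at h1
    rw [Finset.sum_const, card_powersetCard, hc, nsmul_eq_mul] at h1
    have : (((l' + 1).choose (k + 1) : ℕ) : ℚ) ≠ 0 := by
      exact_mod_cast (Nat.choose_pos hl).ne'
    exact (mul_eq_zero.mp h1).resolve_left this

/-- the alternating sum of a degree `k` function over a `(k+1)`-cube vanishes -/
theorem cube {α : Type} [DecidableEq α] [Fintype α] (k : ℕ) (h : Finset α → ℚ) (L D : Finset α)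
    (β : α → α) (hD : D ⊆ L) (hc : k < D.card) (hβ : Set.InjOn β D) (hβL : ∀ a ∈ D, β a ∉ L) :
    ∑ J ∈ D.powerset, (-1 : ℚ) ^ J.card *
      ∑ K ∈ ((L \ J) ∪ J.image β).powersetCard k, h K = 0 := by
  have h1 : ∀ J, ∑ K ∈ ((L \ J) ∪ J.image β).powersetCard k, h K =
      ∑ K ∈ (univ : Finset α).powersetCard k, if K ⊆ (L \ J) ∪ J.image β then h K else 0 := by
    intro J
    rw [← Finset.sum_filter]
    refine Finset.sum_congr ?_ fun _ _ => rfl
    ext K; simp [mem_powersetCard, and_comm]
  simp only [h1, Finset.mul_sum]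
  rw [Finset.sum_comm]
  refine Finset.sum_eq_zero fun K hK => ?_
  have hKc := (mem_powersetCard.mp hK).2
  obtain ⟨a, haD, haK, hbK⟩ : ∃ a ∈ D, a ∉ K ∧ β a ∉ K := by
    by_contra hcon
    push Not at hcon
    have : D.card ≤ K.card := by
      refine Finset.card_le_card_of_injOn (fun a => if a ∈ K then a else β a) ?_ ?_
      · intro a ha
        by_cases h2 : a ∈ K
        · simp [h2]
        · simpa [h2] using hcon a ha h2
      · intro a ha b hb hab
        by_cases h2 : a ∈ K <;> by_cases h3 : b ∈ K <;> simp only [h2, h3, if_true, if_false] at hab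
        · exact hab
        · exact absurd (hab ▸ hD ha) (hβL b hb)
        · exact absurd (hab ▸ hD hb) (hβL a ha)
        · exact hβ ha hb hab
    omega
  have key : ∀ J ⊆ D, a ∉ J →
      (K ⊆ (L \ insert a J) ∪ (insert a J).image β ↔ K ⊆ (L \ J) ∪ J.image β) := by
    intro J _ _
    constructor
    · intro h2 x hx
      have := h2 hx
      simp only [mem_union, mem_sdiff, mem_insert, mem_image, not_or] at this ⊢
      rcases this with h3 | ⟨y, rfl | hy, rfl⟩
      · exact Or.inl ⟨h3.1, h3.2.2⟩
      · exact absurd hx hbK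
      · exact Or.inr ⟨y, hy, rfl⟩
    · intro h2 x hx
      have := h2 hx
      simp only [mem_union, mem_sdiff, mem_insert, mem_image, not_or] at this ⊢
      rcases this with h3 | ⟨y, hy, rfl⟩
      · exact Or.inl ⟨h3.1, fun e => haK (e ▸ hx), h3.2⟩
      · exact Or.inr ⟨y, Or.inr hy, rfl⟩
  rw [← Finset.insert_erase haD, Finset.sum_powerset_insert (notMem_erase _ _),
    ← Finset.sum_add_distrib]
  refine Finset.sum_eq_zero fun J hJ => ?_
  have hJ' := mem_powerset.mp hJ
  have haJ : a ∉ J := fun e => by simpa using hJ' e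
  simp only [key J (hJ'.trans (erase_subset _ _)) haJ, card_insert_of_notMem haJ]
  ring

def sch {n r : ℕ} (k : ℕ) (c : Finset (Fin n) → Fin r) (L : Finset (Fin n)) : Fin r → ℕ :=
  fun i => ((L.powersetCard k).filter (fun K => c K = i)).card

theorem sum_sch {n r : ℕ} (k : ℕ) (c : Finset (Fin n) → Fin r) (L : Finset (Fin n))
    (v : Fin r → ℚ) : ∑ K ∈ L.powersetCard k, v (c K) = ∑ i, v i * (sch k c L i : ℚ) := by
  rw [← Finset.sum_fiberwise (s := L.powersetCard k) (g := c)]
  refine Finset.sum_congr rfl fun i _ => ?_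
  rw [Finset.sum_congr rfl (g := fun _ => v i) (fun K hK => by rw [(mem_filter.mp hK).2])]
  simp [sch, mul_comm]

theorem indicator {n r k l : ℕ} (hkl : k ≤ l) (hn : k + l ≤ n) (c : Finset (Fin n) → Fin r)
    (hsurj : ∀ i : Fin r, ∃ K : Finset (Fin n), K.card = k ∧ c K = i)
    (hcard : ((univ.filter (fun L : Finset (Fin n) => L.card = l)).image (sch k c)).card = r)
    (L0 : Finset (Fin n)) : ∃ v : Fin r → ℚ, ∀ L : Finset (Fin n), L.card = l →
      ∑ K ∈ L.powersetCard k, v (c K) = if sch k c L = sch k c L0 then 1 else 0 := by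
  set S := (univ.filter (fun L : Finset (Fin n) => L.card = l)).image (sch k c) with hS
  let Φ : (Fin r → ℚ) →ₗ[ℚ] (S → ℚ) :=
    { toFun := fun v σ => ∑ i, v i * (σ.1 i : ℚ)
      map_add' := fun v w => by
        funext σ; simp [add_mul, Finset.sum_add_distrib]
      map_smul' := fun a v => by
        funext σ; simp [Finset.mul_sum, mul_assoc] }
  have hinj : Function.Injective Φ := by
    rw [injective_iff_map_eq_zero]
    intro v hv
    funext i
    obtain ⟨K, hK, rfl⟩ := hsurj i
    refine gottlieb k l univ (fun K => v (c K)) hkl (by simpa using hn) ?_ K (subset_univ _) hK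
    intro L _ hL
    rw [sum_sch]
    exact congrFun hv ⟨sch k c L, mem_image_of_mem _ (by simpa using hL)⟩
  have hsur : Function.Surjective Φ := by
    rwa [← LinearMap.injective_iff_surjective_of_finrank_eq_finrank]
    simp [hcard]
  obtain ⟨v, hv⟩ := hsur (fun σ => if σ.1 = sch k c L0 then 1 else 0)
  refine ⟨v, fun L hL => ?_⟩
  rw [sum_sch]
  exact congrFun hv ⟨sch k c L, mem_image_of_mem _ (by simpa using hL)⟩

theorem cube_prop {n r k l : ℕ} (hkl : k ≤ l) (hn : k + l ≤ n) (c : Finset (Fin n) → Fin r)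
    (hsurj : ∀ i : Fin r, ∃ K : Finset (Fin n), K.card = k ∧ c K = i)
    (hcard : ((univ.filter (fun L : Finset (Fin n) => L.card = l)).image (sch k c)).card = r)
    (L D : Finset (Fin n)) (β : Fin n → Fin n) (hL : L.card = l) (hD : D ⊆ L) (hc : k < D.card)
    (hβ : Set.InjOn β D) (hβL : ∀ a ∈ D, β a ∉ L) :
    ∃ J ⊆ D, J.Nonempty ∧ ((L \ J) ∪ J.image β).card = l ∧
      sch k c ((L \ J) ∪ J.image β) = sch k c L := by
  obtain ⟨v, hv⟩ := indicator hkl hn c hsurj hcard L
  have h1 := cube k (fun K => v (c K)) L D β hD hc hβ hβL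
  have hcd : ∀ J ⊆ D, ((L \ J) ∪ J.image β).card = l := by
    intro J hJ
    rw [card_union_of_disjoint, card_sdiff_of_subset (hJ.trans hD),
      card_image_of_injOn (hβ.mono hJ)]
    · have := card_le_card (hJ.trans hD); omega
    · rw [Finset.disjoint_left]
      intro x hx hx'
      obtain ⟨y, hy, rfl⟩ := mem_image.mp hx'
      exact hβL y (hJ hy) (mem_sdiff.mp hx).1
  by_contra hcon
  push Not at hcon
  rw [Finset.sum_eq_single ∅] at h1
  · rw [hv _ (hcd ∅ (empty_subset _))] at h1
    simp at h1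
  · intro J hJ hne
    have hJ' := mem_powerset.mp hJ
    rw [hv _ (hcd J hJ'), if_neg (hcon J hJ' (nonempty_iff_ne_empty.mpr hne) (hcd J hJ'))]
    simp
  · simp

end Pool.Agent.H31.Schemes
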