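import Mathlib
import Pool.Agent.H31.Schemes

set_option autoImplicit false
open Classical Finset

namespace Pool.Agent.H31.Schemes
open HyperRamsey

def Ind {ι γ : Type} (m : ι → Finset ℕ → γ) (N M : ℕ) : Prop :=
  ∀ φ ψ : ℕ → ℕ, StrictMono φ → StrictMono ψ → (∀ i < N, φ i < M) → (∀ i < N, ψ i < M) →
    ∀ (A A' : ι) (B B' : Finset ℕ), B ⊆ range N → B' ⊆ range N →
      m A (B.image φ) = m A' (B'.image φ) → m A (B.image ψ) = m A' (B'.image ψ)

theorem hom_of_norel {ι γ : Type} (m : ι → Finset ℕ → γ) (N M W j : ℕ) (hI : Ind m N M)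
    (hN : j + 1 ≤ N) (hM : W + N + 1 ≤ M) (A : ι)
    (h : ∀ i < j, m A ((range (j + 1)).erase (i + 1)) = m A ((range (j + 1)).erase i)) :
    ∀ B ⊆ range W, ∀ B' ⊆ range W, B.card = j → B'.card = j → m A B = m A B' := by
  have h0 : ∀ i ≤ j, m A ((range (j + 1)).erase i) = m A ((range (j + 1)).erase 0) := by
    intro i hi
    induction i with
    | zero => rfl
    | succ i ih => rw [h i (by omega), ih (by omega)]
  refine const_of_swap (range W) j (m A) ?_
  intro K hK hc a ha b hb haK hbK hab
  have hbi : b ∉ insert a K := by simp [hbK, hab.symm]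
  have hQc : (insert b (insert a K)).card = j + 1 := by
    rw [card_insert_of_notMem hbi, card_insert_of_notMem haK]; omega
  obtain ⟨θ, hθ, him, hb2⟩ := ext_enum (insert b (insert a K)) W
    (insert_subset hb (insert_subset ha hK))
  rw [hQc] at him
  have ha' : a ∈ (range (j + 1)).image θ := by rw [him]; simp
  have hb' : b ∈ (range (j + 1)).image θ := by rw [him]; simp
  obtain ⟨p, hp, hpa⟩ := mem_image.mp ha'
  obtain ⟨q, hq, hqb⟩ := mem_image.mp hb'
  rw [mem_range] at hp hq
  have e1 : ((range (j + 1)).erase q).image θ = insert a K := by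
    rw [Finset.image_erase hθ.injective, him, hqb, erase_insert hbi]
  have e2 : ((range (j + 1)).erase p).image θ = insert b K := by
    rw [Finset.image_erase hθ.injective, him, hpa, insert_comm, erase_insert]
    simp [haK, hab]
  rw [← e1, ← e2]
  refine hI id θ strictMono_id hθ (fun i hi => by simp; omega) (fun i hi => by
    have := hb2 i; omega) A A _ _ ((erase_subset _ _).trans (range_subset_range.mpr hN))
    ((erase_subset _ _).trans (range_subset_range.mpr hN)) ?_
  simp only [image_id]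
  rw [h0 q (by omega), h0 p (by omega)]

theorem key_rel {ι γ : Type} (m : ι → Finset ℕ → γ) (N M W j i0 : ℕ) (hI : Ind m N M)
    (hN : W + j + 2 ≤ N) (hM : 2 * (W + N + 1) + 2 ≤ M) (A A' : ι) (hi : i0 < j)
    (hrel : m A ((range (j + 1)).erase (i0 + 1)) ≠ m A ((range (j + 1)).erase i0))
    (s : ℕ → ℕ) (hs : StrictMono s) (hb : ∀ y, s y ≤ W + y + 1) (B0 : Finset ℕ)
    (hB0 : B0 ⊆ range W) (hx : s i0 ∉ B0) : m A ((range j).image s) ≠ m A' B0 := by
  intro heq
  let φ : ℕ → ℕ := fun x => 2 * x
  let ψ : ℕ → ℕ := fun x => if x = s i0 then 2 * x + 1 else 2 * x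
  have hφ : StrictMono φ := fun x y h => by simp only [φ]; omega
  have hψ : StrictMono ψ := fun x y h => by simp only [ψ]; split_ifs <;> omega
  have hB : (range j).image s ⊆ range N := by
    intro x hx
    obtain ⟨y, hy, rfl⟩ := mem_image.mp hx
    have := hb y
    rw [mem_range] at hy ⊢; omega
  have hB0' : B0 ⊆ range N := hB0.trans (range_subset_range.mpr (by omega))
  have h1 := hI id φ strictMono_id hφ (fun i hi => by simp; omega)
    (fun i hi => by simp only [φ]; omega) A A' _ _ hB hB0' (by simpa using heq)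
  have h2 := hI id ψ strictMono_id hψ (fun i hi => by simp; omega)
    (fun i hi => by simp only [ψ]; split_ifs <;> omega) A A' _ _ hB hB0' (by simpa using heq)
  have h3 : B0.image ψ = B0.image φ := by
    refine Finset.image_congr fun x hx' => ?_
    have : x ≠ s i0 := fun e => hx (e ▸ hx')
    simp [ψ, φ, this]
  let θ : ℕ → ℕ := fun y => if y ≤ i0 then 2 * s y else if y = i0 + 1 then 2 * s i0 + 1
    else 2 * s (y - 1)
  have hθ : StrictMono θ := by
    refine strictMono_nat_of_lt_succ fun y => ?_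
    simp only [θ]
    have h4 := hs (Nat.lt_succ_self y)
    by_cases c1 : y + 1 ≤ i0
    · rw [if_pos (by omega), if_pos c1]; simp only [Nat.succ_eq_add_one] at h4; omega
    · by_cases c2 : y = i0
      · subst c2; simp
      · by_cases c3 : y = i0 + 1
        · subst c3
          have h5 := hs (Nat.lt_succ_self i0)
          simp only [Nat.succ_eq_add_one] at h5
          rw [if_neg (by omega), if_pos rfl, if_neg (by omega), if_neg (by omega)]
          simp only [Nat.add_sub_cancel]; omega
        · have h5 : s (y - 1) < s y := hs (by omega)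
          rw [if_neg (by omega), if_neg c3, if_neg c1, if_neg (by omega)]
          simp only [Nat.add_sub_cancel]; omega
  have e1 : ((range (j + 1)).erase (i0 + 1)).image θ = ((range j).image s).image φ := by
    ext z
    simp only [mem_image, mem_erase, mem_range, θ, φ]
    constructor
    · rintro ⟨y, ⟨h5, h6⟩, rfl⟩
      by_cases c1 : y ≤ i0
      · exact ⟨s y, ⟨y, by omega, rfl⟩, by rw [if_pos c1]⟩
      · exact ⟨s (y - 1), ⟨y - 1, by omega, rfl⟩, by rw [if_neg c1, if_neg h5]⟩
    · rintro ⟨_, ⟨y, hy, rfl⟩, rfl⟩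
      by_cases c1 : y ≤ i0
      · exact ⟨y, ⟨by omega, by omega⟩, by rw [if_pos c1]⟩
      · exact ⟨y + 1, ⟨by omega, by omega⟩, by
          rw [if_neg (by omega), if_neg (by omega)]; simp⟩
  have e2 : ((range (j + 1)).erase i0).image θ = ((range j).image s).image ψ := by
    ext z
    simp only [mem_image, mem_erase, mem_range, θ, ψ]
    constructor
    · rintro ⟨y, ⟨h5, h6⟩, rfl⟩
      by_cases c1 : y ≤ i0
      · exact ⟨s y, ⟨y, by omega, rfl⟩, by rw [if_pos c1, if_neg (fun e => h5 (hs.injective e))]⟩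
      · by_cases c2 : y = i0 + 1
        · exact ⟨s i0, ⟨i0, by omega, rfl⟩, by rw [if_pos rfl, if_neg c1, if_pos c2]⟩
        · refine ⟨s (y - 1), ⟨y - 1, by omega, rfl⟩, ?_⟩
          rw [if_neg c1, if_neg c2, if_neg]
          intro e; have := hs.injective e; omega
    · rintro ⟨_, ⟨y, hy, rfl⟩, rfl⟩
      by_cases c0 : y = i0
      · subst c0
        exact ⟨y + 1, ⟨by omega, by omega⟩, by simp⟩
      · have : s y ≠ s i0 := fun e => c0 (hs.injective e)
        by_cases c1 : y ≤ i0
        · exact ⟨y, ⟨by omega, by omega⟩, by rw [if_pos c1, if_neg this]⟩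
        · exact ⟨y + 1, ⟨by omega, by omega⟩, by
            rw [if_neg (by omega), if_neg (by omega), if_neg this]; simp⟩
  apply hrel
  have h6 := hI θ id hθ strictMono_id (fun i hi => by
      have := hb i; have := hb i0; have := hb (i - 1)
      simp only [θ]; split_ifs <;> omega) (fun i hi => by simp; omega) A A _ _
    ((erase_subset (i0 + 1) (range (j + 1))).trans (range_subset_range.mpr (by omega)))
    ((erase_subset i0 (range (j + 1))).trans (range_subset_range.mpr (by omega)))
    (by rw [e1, e2, h1, h2, h3])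
  simpa using h6

theorem find_mid (U : Finset ℕ) (W i0 j G m : ℕ) (hU : U ⊆ range W) (hc : U.card = m)
    (hm : j + 1 ≤ m) (hi : i0 < j) (hG : i0 + 1 ≤ G) (hup : ∀ x ∈ U, x < G + (m - i0 - 1))
    (hmid : ∃ x ∈ U, i0 + 1 ≤ x ∧ x < G) :
    ∃ s : ℕ → ℕ, StrictMono s ∧ (∀ y, s y ≤ W + y + 1) ∧ (range j).image s ⊆ U ∧
      i0 + 1 ≤ s i0 ∧ s i0 < G := by
  obtain ⟨θ, hθ, him, hb⟩ := ext_enum U W hU
  rw [hc] at him
  have hmem : ∀ y < m, θ y ∈ U := fun y hy => by
    rw [← him]; exact mem_image_of_mem _ (mem_range.mpr hy)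
  have hgrow : ∀ a d, θ a + d ≤ θ (a + d) := by
    intro a d
    induction d with
    | zero => simp
    | succ d ih => have := hθ (Nat.lt_succ_self (a + d)); simp only [Nat.succ_eq_add_one] at this
                   rw [← add_assoc, ← add_assoc]; omega
  have h1 : θ i0 < G := by
    have h2 := hgrow i0 (m - i0 - 1)
    have h3 := hup _ (hmem (i0 + (m - i0 - 1)) (by omega))
    omega
  by_cases h2 : i0 + 1 ≤ θ i0
  · refine ⟨θ, hθ, fun y => by have := hb y; omega, ?_, h2, h1⟩
    intro x hx
    obtain ⟨y, hy, rfl⟩ := mem_image.mp hx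
    exact hmem y (by rw [mem_range] at hy; omega)
  · obtain ⟨x, hxU, hx1, hx2⟩ := hmid
    rw [← him] at hxU
    obtain ⟨p, _, rfl⟩ := mem_image.mp hxU
    have h3 : i0 < p := hθ.lt_iff_lt.mp (by omega)
    have h4 : θ (i0 + 1) ≤ θ p := hθ.monotone h3
    have h5 := hgrow 0 (i0 + 1)
    refine ⟨fun y => θ (y + 1), fun a b hab => hθ (by omega), fun y => by
      have := hb (y + 1); omega, ?_, by simp only [zero_add] at h5 ⊢; omega,
      by show θ (i0 + 1) < G; omega⟩
    intro x hx
    obtain ⟨y, hy, rfl⟩ := mem_image.mp hx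
    exact hmem _ (by rw [mem_range] at hy; omega)

section model
variable {n k : ℕ} (f : Fin k → Fin n) (t : ℕ → Fin n) (W : ℕ)

theorem card_model (hf : Function.Injective f) (ht : Set.InjOn t (Set.Iio W))
    (hd : ∀ a, ∀ y < W, f a ≠ t y) (A : Finset (Fin k)) (B : Finset ℕ) (hB : B ⊆ range W) :
    (A.image f ∪ B.image t).card = A.card + B.card := by
  rw [card_union_of_disjoint, card_image_of_injective _ hf, card_image_of_injOn]
  · exact ht.mono (fun x hx => by simpa using hB hx)
  · rw [Finset.disjoint_left]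
    intro x hx hx'
    obtain ⟨a, _, rfl⟩ := mem_image.mp hx
    obtain ⟨y, hy, he⟩ := mem_image.mp hx'
    exact hd a y (by simpa using hB hy) he.symm

theorem decomp (A : Finset (Fin k)) (U : Finset ℕ) (K : Finset (Fin n))
    (hK : K ⊆ A.image f ∪ U.image t) :
    ∃ A' ⊆ A, ∃ B ⊆ U, K = A'.image f ∪ B.image t := by
  refine ⟨A.filter (fun a => f a ∈ K), filter_subset _ _, U.filter (fun y => t y ∈ K),
    filter_subset _ _, ?_⟩
  ext x
  simp only [mem_union, mem_image, mem_filter]
  constructor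
  · intro hx
    have := hK hx
    simp only [mem_union, mem_image] at this
    rcases this with ⟨a, ha, rfl⟩ | ⟨y, hy, rfl⟩
    · exact Or.inl ⟨a, ⟨ha, hx⟩, rfl⟩
    · exact Or.inr ⟨y, ⟨hy, hx⟩, rfl⟩
  · rintro (⟨a, ⟨_, h⟩, rfl⟩ | ⟨y, ⟨_, h⟩, rfl⟩) <;> exact h

end model

theorem sch_ne {n r k : ℕ} (c : Finset (Fin n) → Fin r) (L : Finset (Fin n)) (i : Fin r) :
    sch k c L i ≠ 0 ↔ ∃ K ⊆ L, K.card = k ∧ c K = i := by
  unfold sch
  rw [Finset.card_ne_zero]
  constructor
  · rintro ⟨K, hK⟩
    rw [mem_filter, mem_powersetCard] at hK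
    exact ⟨K, hK.1.1, hK.1.2, hK.2⟩
  · rintro ⟨K, h1, h2, h3⟩
    exact ⟨K, mem_filter.mpr ⟨mem_powersetCard.mpr ⟨h1, h2⟩, h3⟩⟩

theorem all_hom {n r k l : ℕ} (hkl : k < l) (c : Finset (Fin n) → Fin r)
    (hcube : ∀ (L D : Finset (Fin n)) (β : Fin n → Fin n), L.card = l → D ⊆ L → k < D.card →
      Set.InjOn β D → (∀ a ∈ D, β a ∉ L) →
      ∃ J ⊆ D, J.Nonempty ∧ ((L \ J) ∪ J.image β).card = l ∧
        sch k c ((L \ J) ∪ J.image β) = sch k c L)
    (f : Fin k → Fin n) (t : ℕ → Fin n) (W N M : ℕ) (hW : l + k + 1 ≤ W) (hN : W + k + 2 ≤ N)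
    (hM : 2 * (W + N + 1) + 2 ≤ M)
    (hf : Function.Injective f) (ht : Set.InjOn t (Set.Iio W))
    (hd : ∀ a, ∀ y < W, f a ≠ t y)
    (hI : Ind (fun (A : Finset (Fin k)) (B : Finset ℕ) => c (A.image f ∪ B.image t)) N M)
    (A : Finset (Fin k)) :
    ∀ B ⊆ range W, ∀ B' ⊆ range W, B.card = k - A.card → B'.card = k - A.card →
      c (A.image f ∪ B.image t) = c (A.image f ∪ B'.image t) := by
  induction A using Finset.strongInduction with
  | H A ih =>
  have hAk : A.card ≤ k := by simpa using card_le_univ A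
  set j := k - A.card with hj
  by_contra hcon
  obtain ⟨i0, hi0, hrel⟩ : ∃ i0 < j, c (A.image f ∪ ((range (j + 1)).erase (i0 + 1)).image t) ≠
      c (A.image f ∪ ((range (j + 1)).erase i0).image t) := by
    by_contra h2
    push Not at h2
    exact hcon (hom_of_norel _ N M W j hI (by omega) (by omega) A h2)
  have KR := fun A' => key_rel _ N M W j i0 hI (by omega) hM A A' hi0 hrel
  set m := l - A.card with hm
  set G := i0 + 1 + (k + 1) with hG
  set T := range (i0 + 1) ∪ Finset.Ico G (G + (m - i0 - 1)) with hT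
  have hTmem : ∀ x, x ∈ T ↔ x < i0 + 1 ∨ (G ≤ x ∧ x < G + (m - i0 - 1)) := by
    intro x; simp [hT]
  have hTW : T ⊆ range W := by
    intro x hx; rw [hTmem] at hx; rw [mem_range]; omega
  have hTc : T.card = m := by
    rw [hT, card_union_of_disjoint, card_range, Nat.card_Ico]
    · omega
    · rw [Finset.disjoint_left]; intro x hx hx'
      simp only [mem_range, mem_Ico] at hx hx'; omega
  obtain ⟨D2, hD2, hD2c⟩ := Finset.exists_subset_card_eq (show j + 1 ≤ T.card by omega)
  set L := A.image f ∪ T.image t with hL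
  set D := A.image f ∪ D2.image t with hD
  have hLc : L.card = l := by rw [hL, card_model f t W hf ht hd A T hTW]; omega
  have hDc : D.card = k + 1 := by
    rw [hD, card_model f t W hf ht hd A D2 (hD2.trans hTW)]; omega
  let β : Fin n → Fin n := fun x => if h : x ∈ D then t (i0 + 1 + (D.equivFin ⟨x, h⟩).val) else x
  have hβv : ∀ x ∈ D, ∃ y, i0 + 1 ≤ y ∧ y < G ∧ β x = t y := by
    intro x hx
    refine ⟨i0 + 1 + (D.equivFin ⟨x, hx⟩).val, by omega, ?_, by simp only [β, dif_pos hx]⟩
    have := (D.equivFin ⟨x, hx⟩).2; omega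
  have hnotL : ∀ y, i0 + 1 ≤ y → y < G → t y ∉ L := by
    intro y h1 h2 h3
    rw [hL, mem_union] at h3
    rcases h3 with h3 | h3
    · obtain ⟨a, _, he⟩ := mem_image.mp h3
      exact hd a y (by omega) he
    · obtain ⟨z, hz, he⟩ := mem_image.mp h3
      have := ht (by simpa using hTW hz) (show y ∈ Set.Iio W by simp; omega) he
      rw [hTmem] at hz; omega
  obtain ⟨J, hJD, hJne, hJc, hsch⟩ := hcube L D β hLc
    (union_subset_union (Subset.refl _) (image_subset_image hD2)) (by omega) (by
      intro x hx y hy he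
      have hx' : x ∈ D := hx
      have hy' : y ∈ D := hy
      simp only [β, dif_pos hx', dif_pos hy'] at he
      have h1 := (D.equivFin ⟨x, hx'⟩).2
      have h2 := (D.equivFin ⟨y, hy'⟩).2
      have h3 := ht (show _ ∈ Set.Iio W by simp; omega) (show _ ∈ Set.Iio W by simp; omega) he
      have h4 : D.equivFin ⟨x, hx'⟩ = D.equivFin ⟨y, hy'⟩ := Fin.ext (by omega)
      exact congrArg Subtype.val (D.equivFin.injective h4)) (by
      intro x hx
      obtain ⟨y, h1, h2, h3⟩ := hβv x hx
      rw [h3]; exact hnotL y h1 h2)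
  set LJ := (L \ J) ∪ J.image β with hLJ
  have hLJmem : ∀ x ∈ LJ, (∃ a ∈ A, x = f a ∧ x ∉ J) ∨ ∃ y, y < G + (m - i0 - 1) ∧ x = t y := by
    intro x hx
    rw [hLJ, mem_union] at hx
    rcases hx with hx | hx
    · rw [mem_sdiff, hL, mem_union] at hx
      rcases hx.1 with h1 | h1
      · obtain ⟨a, ha, rfl⟩ := mem_image.mp h1
        exact Or.inl ⟨a, ha, rfl, hx.2⟩
      · obtain ⟨y, hy, rfl⟩ := mem_image.mp h1
        rw [hTmem] at hy
        exact Or.inr ⟨y, by omega, rfl⟩
    · obtain ⟨z, hz, rfl⟩ := mem_image.mp hx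
      obtain ⟨y, h1, h2, h3⟩ := hβv z (hJD hz)
      exact Or.inr ⟨y, by omega, h3⟩
  by_cases hcase : ∃ a0 ∈ A, f a0 ∈ J
  · obtain ⟨a0, ha0, hfa0⟩ := hcase
    obtain ⟨s, hs, him, hb⟩ := ext_enum T W hTW
    have hsub : (range j).image s ⊆ T := by
      rw [← him]; exact image_subset_image (range_subset_range.mpr (by omega))
    have h1 : sch k c L (c (A.image f ∪ ((range j).image s).image t)) ≠ 0 := by
      rw [sch_ne]
      refine ⟨_, union_subset_union (Subset.refl _) (image_subset_image hsub), ?_, rfl⟩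
      rw [card_model f t W hf ht hd A _ (hsub.trans hTW), card_image_of_injective _ hs.injective,
        card_range]; omega
    rw [← hsch, sch_ne] at h1
    obtain ⟨K, hK, hKc, hcol⟩ := h1
    obtain ⟨A', hA', B, hB, rfl⟩ := decomp f t (A.erase a0) (range W) K (by
      intro x hx
      rcases hLJmem x (hK hx) with ⟨a, ha, rfl, h2⟩ | ⟨y, hy, rfl⟩
      · exact mem_union_left _ (mem_image_of_mem _ (mem_erase.mpr ⟨fun e => h2 (e ▸ hfa0), ha⟩))
      · exact mem_union_right _ (mem_image_of_mem _ (mem_range.mpr (by omega))))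
    rw [card_model f t W hf ht hd A' B hB] at hKc
    obtain ⟨B0, hB0, hB0c⟩ := Finset.exists_subset_card_eq
      (show k - A'.card ≤ ((range W).erase (s i0)).card by
        have := Finset.pred_card_le_card_erase (s := range W) (a := s i0)
        rw [card_range] at this; omega)
    have h3 := ih A' (Finset.ssubset_of_subset_of_ssubset hA' (erase_ssubset ha0)) B hB B0
      (hB0.trans (erase_subset _ _)) (by omega) hB0c
    exact KR A' s hs (fun y => by have := hb y; omega) B0 (hB0.trans (erase_subset _ _))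
      (fun e => by simpa using hB0 e) (by rw [← hcol, h3])
  · push Not at hcase
    set U := (range W).filter (fun y => t y ∈ LJ) with hU
    have hUW : U ⊆ range W := filter_subset _ _
    have hLJeq : LJ = A.image f ∪ U.image t := by
      ext x
      constructor
      · intro hx
        rcases hLJmem x hx with ⟨a, ha, rfl, _⟩ | ⟨y, hy, rfl⟩
        · exact mem_union_left _ (mem_image_of_mem _ ha)
        · exact mem_union_right _ (mem_image_of_mem _
            (mem_filter.mpr ⟨mem_range.mpr (by omega), hx⟩))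
      · intro hx
        rcases mem_union.mp hx with h1 | h1
        · obtain ⟨a, ha, rfl⟩ := mem_image.mp h1
          exact mem_union_left _ (mem_sdiff.mpr
            ⟨mem_union_left _ (mem_image_of_mem _ ha), hcase a ha⟩)
        · obtain ⟨y, hy, rfl⟩ := mem_image.mp h1
          exact (mem_filter.mp hy).2
    have hUc : U.card = m := by
      rw [hLJeq, card_model f t W hf ht hd A U hUW] at hJc; omega
    obtain ⟨s, hs, hb, hsub, h1, h2⟩ := find_mid U W i0 j G m hUW hUc (by omega) hi0 (by omega)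
      (by
        intro x hx
        rw [hU, mem_filter, mem_range] at hx
        rcases hLJmem _ hx.2 with ⟨a, _, he, _⟩ | ⟨y, hy, he⟩
        · exact absurd he.symm (hd a x hx.1)
        · rw [ht (show x ∈ Set.Iio W from hx.1) (show y ∈ Set.Iio W by simp; omega) he]; exact hy)
      (by
        obtain ⟨z, hz⟩ := hJne
        obtain ⟨y, h1, h2, h3⟩ := hβv z (hJD hz)
        refine ⟨y, mem_filter.mpr ⟨mem_range.mpr (by omega), ?_⟩, h1, h2⟩
        rw [← h3]; exact mem_union_right _ (mem_image_of_mem _ hz))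
    have h3 : sch k c LJ (c (A.image f ∪ ((range j).image s).image t)) ≠ 0 := by
      rw [sch_ne]
      refine ⟨_, ?_, ?_, rfl⟩
      · rw [hLJeq]; exact union_subset_union (Subset.refl _) (image_subset_image hsub)
      · rw [card_model f t W hf ht hd A _ (hsub.trans hUW), card_image_of_injective _ hs.injective,
          card_range]; omega
    rw [hsch, sch_ne] at h3
    obtain ⟨K, hK, _, hcol⟩ := h3
    obtain ⟨A', _, B, hB, rfl⟩ := decomp f t A T K hK
    exact KR A' s hs hb B (hB.trans hTW) (fun e => by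
      have := hB e; rw [hTmem] at this; omega) hcol.symm

theorem one_new (k l : ℕ) (hkl : k < l) : ∃ g : ℕ, ∀ n r : ℕ, g ≤ n →
    ∀ c : Finset (Fin n) → Fin r, (∀ i : Fin r, ∃ K : Finset (Fin n), K.card = k ∧ c K = i) →
    ((univ.filter (fun L : Finset (Fin n) => L.card = l)).image (sch k c)).card = r →
    ∀ R : Finset (Fin r), R ≠ univ → ∃ γ ∉ R, ∃ L : Finset (Fin n), L.card = l ∧
      sch k c L γ ≠ 0 ∧ ∀ i, i ∉ insert γ R → sch k c L i = 0 := by
  set W := l + k + 1 with hW
  set N := W + k + 2 with hN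
  set M := 2 * (W + N + 1) + 2 with hM
  obtain ⟨R0, hR0⟩ := indisc
    (Finset (Fin k) → Finset (Fin k) → Finset (Fin N) → Finset (Fin N) → Prop) N M
  refine ⟨R0 + k + l, fun n r hn c hsurj hcard R hR => ?_⟩
  obtain ⟨γ0, hγ0⟩ : ∃ γ0, γ0 ∉ R := by
    by_contra h; push Not at h; exact hR (eq_univ_of_forall h)
  obtain ⟨F, hF, hcF⟩ := hsurj γ0
  have : Nonempty (Fin n) := ⟨⟨0, by omega⟩⟩
  let f : Fin k → Fin n := F.orderEmbOfFin hF
  have hf : Function.Injective f := (F.orderEmbOfFin hF).injective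
  have hfF : univ.image f = F := by
    apply Finset.coe_injective
    simp [f]
  obtain ⟨t, ht, htS, hind⟩ := hR0 (Fin n) (univ \ F)
    (fun e A A' B B' => c (A.image f ∪ B.image e) = c (A'.image f ∪ B'.image e))
    (by rw [card_sdiff_of_subset (subset_univ _)]; simp; omega)
  have hd : ∀ a, ∀ y < W, f a ≠ t y := by
    intro a y hy he
    have := htS y (by omega)
    rw [← he, mem_sdiff] at this
    exact this.2 (Finset.orderEmbOfFin_mem _ _ _)
  have htW : Set.InjOn t (Set.Iio W) := ht.injOn.mono (fun x hx => by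
    simp only [Set.mem_Iio] at hx ⊢; omega)
  have hI : Ind (fun (A : Finset (Fin k)) (B : Finset ℕ) => c (A.image f ∪ B.image t)) N M := by
    intro φ ψ h1 h2 h3 h4 A A' B B' hB hB' he
    have lift : ∀ (B : Finset ℕ), B ⊆ range N → ∀ φ : ℕ → ℕ,
        (univ.filter (fun i : Fin N => i.val ∈ B)).image (fun i : Fin N => t (φ i)) =
          (B.image φ).image t := by
      intro B hB φ
      ext x
      simp only [mem_image, mem_filter, mem_univ, true_and]
      constructor
      · rintro ⟨i, hi, rfl⟩; exact ⟨_, ⟨_, hi, rfl⟩, rfl⟩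
      · rintro ⟨_, ⟨i, hi, rfl⟩, rfl⟩
        exact ⟨⟨i, mem_range.mp (hB hi)⟩, hi, rfl⟩
    have h5 := congrFun (congrFun (congrFun (congrFun (hind φ ψ h1 h2 h3 h4) A) A')
      (univ.filter (fun i : Fin N => i.val ∈ B))) (univ.filter (fun i : Fin N => i.val ∈ B'))
    simp only [lift B hB, lift B' hB'] at h5
    exact h5 ▸ he
  have hom := all_hom hkl c (cube_prop hkl.le (by omega) c hsurj hcard) f t W N M le_rfl le_rfl
    le_rfl hf htW hd hI
  let κ : Finset (Fin k) → Fin r := fun A => c (A.image f ∪ (range (k - A.card)).image t)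
  obtain ⟨A, hA, hmin⟩ := Finset.exists_min_image (univ.filter (fun A => κ A ∉ R)) Finset.card
    ⟨univ, by simp [κ, hfF, hcF, hγ0]⟩
  have hA' : κ A ∉ R := (mem_filter.mp hA).2
  have hAk : A.card ≤ k := by simpa using card_le_univ A
  have hsub : range (l - A.card) ⊆ range W := range_subset_range.mpr (by omega)
  refine ⟨κ A, hA', A.image f ∪ (range (l - A.card)).image t, ?_, ?_, ?_⟩
  · rw [card_model f t W hf htW hd _ _ hsub, card_range]; omega
  · rw [sch_ne]
    refine ⟨_, union_subset_union (Subset.refl _) (image_subset_image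
      (range_subset_range.mpr (show k - A.card ≤ l - A.card by omega))), ?_, rfl⟩
    rw [card_model f t W hf htW hd _ _ (range_subset_range.mpr (by omega)), card_range]; omega
  · intro i hi
    by_contra hne
    obtain ⟨K, hK, hKc, rfl⟩ := (sch_ne c _ i).mp hne
    obtain ⟨A', hA'A, B, hB, rfl⟩ := decomp f t _ _ K hK
    rw [card_model f t W hf htW hd _ _ (hB.trans hsub)] at hKc
    have h1 : c (A'.image f ∪ B.image t) = κ A' :=
      hom A' B (hB.trans hsub) _ (range_subset_range.mpr (by omega)) (by omega) (card_range _)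
    rw [h1, mem_insert, not_or] at hi
    have h2 := hmin A' (mem_filter.mpr ⟨mem_univ _, hi.2⟩)
    exact hi.1 (by rw [Finset.eq_of_subset_of_card_le hA'A h2])

theorem triang {X : Type} {r : ℕ} (P : X → Prop) (σ : X → Fin r → ℕ)
    (h : ∀ R : Finset (Fin r), R ≠ univ → ∃ γ ∉ R, ∃ L : X, P L ∧
      σ L γ ≠ 0 ∧ ∀ i, i ∉ insert γ R → σ L i = 0) :
    ∃ e : Fin r ≃ Fin r, ∃ s : Fin r → X, (∀ j, P (s j)) ∧
      Function.Injective (fun j => σ (s j)) ∧ (∀ i j : Fin r, j < i → σ (s j) (e i) = 0) ∧
      ∀ j, σ (s j) (e j) ≠ 0 := by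
  choose γ hγ Lf hP h1 h2 using h
  obtain ⟨step, hs1, hs2⟩ : ∃ step : Finset (Fin r) → Finset (Fin r),
      (∀ R (h : R ≠ univ), step R = insert (γ R h) R) ∧ step univ = univ := by
    refine ⟨fun R => if h : R ≠ univ then insert (γ R h) R else R, fun R h => ?_, ?_⟩
    · simp only [dif_pos h]
    · simp
  let Rs : ℕ → Finset (Fin r) := fun j => step^[j] ∅
  have hstep : ∀ j, Rs (j + 1) = step (Rs j) := fun j => Function.iterate_succ_apply' _ _ _
  have hsucc : ∀ j (h : Rs j ≠ univ), Rs (j + 1) = insert (γ (Rs j) h) (Rs j) :=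
    fun j h => by rw [hstep, hs1 _ h]
  have hstay : ∀ j, Rs j = univ → Rs (j + 1) = Rs j := fun j h => by rw [hstep, h, hs2]
  have hcard : ∀ j, (Rs j).card ≤ j := by
    intro j
    induction j with
    | zero => simp [Rs]
    | succ j ih =>
      by_cases h : Rs j = univ
      · rw [hstay j h]; omega
      · rw [hsucc j h]; exact (card_insert_le _ _).trans (by omega)
  have hne : ∀ j : Fin r, Rs j ≠ univ := by
    intro j h
    have := hcard j
    rw [h, card_univ, Fintype.card_fin] at this
    exact absurd j.2 (by omega)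
  have hmono : Monotone Rs := by
    refine monotone_nat_of_le_succ fun j => ?_
    by_cases h : Rs j = univ
    · rw [hstay j h]
    · rw [hsucc j h]; exact subset_insert _ _
  let e : Fin r → Fin r := fun j => γ (Rs j) (hne j)
  have hlt : ∀ i j : Fin r, j < i → e i ∉ insert (e j) (Rs j) := by
    intro i j hij hm
    have h3 : Rs (j + 1) ⊆ Rs i := hmono (by exact_mod_cast hij)
    rw [hsucc j (hne j)] at h3
    exact hγ _ (hne i) (h3 hm)
  have hinj : Function.Injective e := by
    intro i j hij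
    rcases lt_trichotomy i j with h | h | h
    · exact absurd (by rw [hij]; exact mem_insert_self _ _) (hlt j i h)
    · exact h
    · exact absurd (by rw [hij]; exact mem_insert_self _ _) (hlt i j h)
  have z : ∀ i j : Fin r, j < i → σ (Lf (Rs j) (hne j)) (e i) = 0 :=
    fun i j hij => h2 _ _ _ (hlt i j hij)
  refine ⟨Equiv.ofBijective e (Finite.injective_iff_bijective.mp hinj),
    fun j => Lf (Rs j) (hne j), fun j => hP _ _, ?_, z, fun j => h1 _ _⟩
  intro i j hij
  rcases lt_trichotomy i j with h | h | h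
  · exact absurd ((congrFun hij (e j)).symm.trans (z j i h)) (h1 _ (hne j))
  · exact h
  · exact absurd ((congrFun hij (e i)).trans (z i j h)) (h1 _ (hne i))

end Pool.Agent.H31.Schemes
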