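import Mathlib
import Pool.Agent.H31.Count

set_option autoImplicit false
open Classical Finset

namespace Pool.Agent.H31.Shift

/-- the family of `k`-sets chosen by the rule `r` under the labelling `x` -/
noncomputable def fam {n k : ℕ} {Λ : Type} (r : (Fin k → Λ) → Prop) (x : Fin n → Λ) :
    Finset (Finset (Fin n)) :=
  univ.filter (fun S => ∃ h : Fin k → Fin n, StrictMono h ∧ univ.image h = S ∧ r (x ∘ h))

theorem mem_fam {n k : ℕ} {Λ : Type} (r : (Fin k → Λ) → Prop) (x : Fin n → Λ)
    (h : Fin k → Fin n) (hh : StrictMono h) : univ.image h ∈ fam r x ↔ r (x ∘ h) := by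
  simp only [fam, mem_filter, mem_univ, true_and]
  constructor
  · rintro ⟨h', h1, h2, h3⟩
    have : h' = h := by
      rw [← h1.range_inj hh]
      have := congrArg (fun s : Finset (Fin n) => (s : Set (Fin n))) h2
      simpa using this
    rwa [this] at h3
  · intro hr; exact ⟨h, hh, rfl, hr⟩

noncomputable def law {n k : ℕ} {Λ X : Type} [Fintype X] (r : (Fin k → Λ) → Prop)
    (lab : X → Fin n → Λ) (ω : Finset (Finset (Fin n))) : ℝ :=
  ((univ.filter (fun x => fam r (lab x) = ω)).card : ℝ) / Fintype.card X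

theorem law_sum {n k : ℕ} {Λ X : Type} [Fintype X] (r : (Fin k → Λ) → Prop)
    (lab : X → Fin n → Λ) (T : Finset (Finset (Finset (Fin n)))) :
    ∑ ω ∈ T, law r lab ω = ((univ.filter (fun x => fam r (lab x) ∈ T)).card : ℝ) / Fintype.card X := by
  unfold law
  rw [← Finset.sum_div]
  congr 1
  rw [Finset.card_eq_sum_card_fiberwise (f := fun x => fam r (lab x)) (t := T)]
  · push_cast
    refine Finset.sum_congr rfl fun ω hω => ?_
    congr 2
    ext x
    simp only [mem_filter, mem_univ, true_and, iff_and_self]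
    rintro rfl; exact hω
  · intro x hx; simpa using hx

theorem law_total {n k : ℕ} {Λ X : Type} [Fintype X] [Nonempty X] (r : (Fin k → Λ) → Prop)
    (lab : X → Fin n → Λ) : ∑ ω, law r lab ω = 1 := by
  rw [law_sum]
  have : (0 : ℝ) < Fintype.card X := by exact_mod_cast Fintype.card_pos
  simp [this.ne']

theorem law_cut {n k : ℕ} {Λ X : Type} [Fintype X] (r : (Fin k → Λ) → Prop)
    (lab : X → Fin n → Λ) (g : Fin (k + 1) → Fin n) (hg : StrictMono g) :
    ∑ ω ∈ univ.filter (fun ω : Finset (Finset (Fin n)) =>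
        univ.image (fun i : Fin k => g (Fin.castSucc i)) ∈ ω ∧
        univ.image (fun i : Fin k => g (Fin.succ i)) ∉ ω), law r lab ω =
      ((univ.filter (fun x => r (fun i => (lab x ∘ g) (Fin.castSucc i)) ∧
        ¬ r (fun i => (lab x ∘ g) (Fin.succ i)))).card : ℝ) / Fintype.card X := by
  rw [law_sum]
  congr 3
  ext x
  simp only [mem_filter, mem_univ, true_and]
  rw [mem_fam r _ (fun i => g (Fin.castSucc i)) (hg.comp Fin.strictMono_castSucc),
    mem_fam r _ (fun i => g (Fin.succ i)) (hg.comp Fin.strictMono_succ)]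
  rfl

/-- independent uniform letters -/
theorem letters {n k D : ℕ} (hD : 0 < D) (r : (Fin k → Fin D) → Prop) (c : ℕ)
    (hc : (univ.filter (fun y : Fin (k + 1) → Fin D => r (fun i => y (Fin.castSucc i)) ∧
        ¬ r (fun i => y (Fin.succ i)))).card = c) :
    ∃ p : Finset (Finset (Fin n)) → ℝ, (∀ ω, 0 ≤ p ω) ∧ (∑ ω, p ω) = 1 ∧
      ∀ g : Fin (k + 1) → Fin n, StrictMono g →
        ∑ ω ∈ univ.filter (fun ω : Finset (Finset (Fin n)) =>
          univ.image (fun i : Fin k => g (Fin.castSucc i)) ∈ ω ∧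
          univ.image (fun i : Fin k => g (Fin.succ i)) ∉ ω), p ω = (c : ℝ) / D ^ (k + 1) := by
  have : Nonempty (Fin D) := ⟨⟨0, hD⟩⟩
  refine ⟨law r (fun x : Fin n → Fin D => x), fun ω => by unfold law; positivity,
    law_total _ _, fun g hg => ?_⟩
  rw [law_cut r _ g hg]
  have h := Count.card_restrict (Λ := Fin D) g hg.injective
    (fun y : Fin (k + 1) → Fin D => r (fun i => y (Fin.castSucc i)) ∧
        ¬ r (fun i => y (Fin.succ i)))
  simp only [Fintype.card_fin] at h
  have hD' : (0 : ℝ) < D := by exact_mod_cast hD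
  rw [div_eq_div_iff (by simp; omega) (by positivity)]
  simp only [Fintype.card_fun, Fintype.card_fin]
  rw [← hc]
  have h2 := congrArg (fun t : ℕ => (t : ℝ)) h
  push_cast at h2 ⊢
  convert h2 <;> rfl

def tab4 : ℕ := 6939755036460138510

def rule4 (a b c : Fin 4) : Bool := tab4.testBit (16 * a.val + 4 * b.val + c.val)

theorem cnt4 : (univ.filter (fun q : Fin 4 × Fin 4 × Fin 4 × Fin 4 =>
    rule4 q.1 q.2.1 q.2.2.1 = true ∧ ¬ rule4 q.2.1 q.2.2.1 q.2.2.2 = true)).card = 97 := by
  decide +kernel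

theorem tuple4 {D : ℕ} (R : Fin D → Fin D → Fin D → Bool) :
    (univ.filter (fun y : Fin (3 + 1) → Fin D =>
      (fun z : Fin 3 → Fin D => R (z 0) (z 1) (z 2) = true) (fun i => y (Fin.castSucc i)) ∧
      ¬ (fun z : Fin 3 → Fin D => R (z 0) (z 1) (z 2) = true) (fun i => y (Fin.succ i)))).card =
    (univ.filter (fun q : Fin D × Fin D × Fin D × Fin D =>
      R q.1 q.2.1 q.2.2.1 = true ∧ ¬ R q.2.1 q.2.2.1 q.2.2.2 = true)).card := by
  refine Finset.card_nbij' (fun y => (y 0, y 1, y 2, y 3)) (fun q => ![q.1, q.2.1, q.2.2.1, q.2.2.2])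
    ?_ ?_ ?_ ?_
  · intro y hy
    simp only [coe_filter, mem_univ, true_and, Set.mem_ofPred_eq] at hy ⊢
    exact hy
  · intro q hq
    simp only [coe_filter, mem_univ, true_and, Set.mem_ofPred_eq] at hq ⊢
    exact hq
  · intro y _
    funext i; fin_cases i <;> rfl
  · intro q _; rfl

end Pool.Agent.H31.Shift
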