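import Mathlib
import Pool.Agent.H31.Spec

set_option autoImplicit false
set_option linter.unusedSectionVars false

namespace Pool.Agent.H31.Spec
open Matrix Polynomial Finset

variable {n : Type} [Fintype n] [DecidableEq n]

theorem tr_aeval {A : Matrix n n ℝ} (hA : A.IsHermitian) (p : ℝ[X]) :
    (aeval A p).trace = (A.charpoly.roots.map fun x => p.eval x).sum := by
  rw [sum_roots hA]
  induction p using Polynomial.induction_on' with
  | add p q hp hq => simp [hp, hq, sum_add_distrib]
  | monomial k c =>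
    simp [aeval_monomial, ← mul_sum, tr_pow, Algebra.algebraMap_eq_smul_one]

theorem charpoly_sim {A B P : Matrix n n ℝ} (hP : IsUnit P) (h : A * P = P * B) :
    A.charpoly = B.charpoly := by
  obtain ⟨u, rfl⟩ := hP
  have : A = u * (B * (u⁻¹ : (Matrix n n ℝ)ˣ)) := by
    rw [← mul_assoc, ← h, mul_assoc, Units.mul_inv, mul_one]
  rw [this, charpoly_mul_comm, mul_assoc, Units.inv_mul, mul_one]

theorem unit_of_int {P Q : Matrix n n ℤ} {w : n → ℤ} (hw : ∀ i, w i ≠ 0)
    (h : Q * P = diagonal w) : IsUnit ((Int.castRingHom ℝ).mapMatrix P) := by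
  rw [isUnit_iff_isUnit_det, ← RingHom.map_det, isUnit_iff_ne_zero]
  have := congrArg det h
  rw [det_mul, det_diagonal] at this
  have h2 : P.det ≠ 0 := fun e => prod_ne_zero_iff.mpr (fun i _ => hw i) (by rw [← this, e, mul_zero])
  simpa using h2

theorem roots_diag (d : n → ℝ) : (diagonal d).charpoly.roots = univ.val.map d := by
  rw [charpoly_diagonal, Polynomial.roots_prod]
  · simp
  · simp [Finset.prod_ne_zero_iff, Polynomial.X_sub_C_ne_zero]

theorem roots_of_eig {A P Q : Matrix n n ℤ} {w d : n → ℤ} (hw : ∀ i, w i ≠ 0)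
    (h : Q * P = diagonal w) (h2 : A * P = P * diagonal d) :
    ((Int.castRingHom ℝ).mapMatrix A).charpoly.roots = univ.val.map fun i => (d i : ℝ) := by
  rw [charpoly_sim (B := diagonal fun i => (d i : ℝ)) (unit_of_int hw h) (by
    rw [← map_mul, h2, map_mul]; congr 1; ext i j; simp [diagonal_apply]), roots_diag]

theorem spec_eq (A : Matrix n n ℝ) : spectrum ℝ A = {x | x ∈ A.charpoly.roots} := by
  ext x
  simp [mem_spectrum_iff_isRoot_charpoly, A.charpoly_monic.ne_zero]

end Pool.Agent.H31.Spec
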