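import Mathlib
import Pool.Agent.H31.Spec2

set_option autoImplicit false
set_option linter.unusedSectionVars false

namespace Pool.Agent.H31.Spec
open Matrix Polynomial Finset

variable {n : Type} [Fintype n] [DecidableEq n]

theorem erase_root {A : Matrix n n ℝ} (hA : A.IsHermitian) (f : ℝ[X]) (d : ℝ)
    (h1 : aeval A ((X - C d) * f) = 0) (h2 : (aeval A f).trace = f.eval d) (h3 : 0 < f.eval d) :
    ∀ x ∈ A.charpoly.roots.erase d, f.eval x = 0 := by
  have a : ∀ x ∈ A.charpoly.roots, x = d ∨ f.eval x = 0 := fun x hx => by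
    simpa [sub_eq_zero] using ann _ h1 (x := x) (by rw [spec_eq]; exact hx)
  by_cases hd : d ∈ A.charpoly.roots
  · rw [tr_aeval hA, ← Multiset.cons_erase hd, Multiset.map_cons, Multiset.sum_cons,
      add_eq_left] at h2
    intro x hx
    refine Multiset.all_zero_of_le_zero_le_of_sum_eq_zero (fun y hy => ?_) h2 _
      (Multiset.mem_map_of_mem _ hx)
    obtain ⟨z, hz, rfl⟩ := Multiset.mem_map.mp hy
    rcases a z (Multiset.mem_of_mem_erase hz) with rfl | e
    exacts [h3.le, e.ge]
  · intro x hx
    have := Multiset.mem_of_mem_erase hx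
    exact (a x this).resolve_left fun e => hd (e ▸ this)

theorem aeval_cast (B : Matrix n n ℤ) (p : ℤ[X]) :
    aeval ((Int.castRingHom ℝ).mapMatrix B) (p.map (Int.castRingHom ℝ)) =
      (Int.castRingHom ℝ).mapMatrix (aeval B p) := by
  induction p using Polynomial.induction_on' with
  | add p q hp hq => rw [Polynomial.map_add, map_add, map_add, map_add, hp, hq]
  | monomial k c =>
    rw [Polynomial.map_monomial, aeval_monomial, aeval_monomial, map_mul, map_pow]
    congr 1
    simp

end Pool.Agent.H31.Spec
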