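import Mathlib
import Pool.Agent.H31.Spec3

set_option autoImplicit false
set_option linter.unusedSectionVars false

namespace Pool.Agent.H31.Spec
open Matrix Finset SimpleGraph

variable {n : Type} [Fintype n] [DecidableEq n]

theorem sq_le (G : SimpleGraph n) [DecidableRel G.Adj] (R : ℕ)
    (h : ∀ v, ∑ u ∈ G.neighborFinset v, G.degree u ≤ R) {t : ℝ}
    (ht : t ∈ spectrum ℝ (G.adjMatrix ℝ)) : t ^ 2 ≤ R := by
  obtain ⟨x, x0, hx⟩ := eigvec ht
  obtain ⟨w, -⟩ := Function.ne_iff.mp x0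
  obtain ⟨v, -, hv⟩ := exists_max_image univ (fun i => |x i|) ⟨w, mem_univ _⟩
  have p : 0 < |x v| := by
    by_contra c
    exact x0 (funext fun i => abs_nonpos_iff.mp ((hv i (mem_univ _)).trans (not_lt.mp c)))
  have e : ∀ i, t * x i = ∑ j ∈ G.neighborFinset i, x j := fun i => by
    simpa using (congrFun hx i).symm
  have r2 : (∑ u ∈ G.neighborFinset v, G.degree u : ℝ) ≤ R := by exact_mod_cast h v
  refine le_of_mul_le_mul_right (le_trans ?_ (mul_le_mul_of_nonneg_right r2 p.le)) p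
  rw [← abs_sq, ← abs_mul, sq, mul_assoc, e, mul_sum, sum_mul]
  refine (abs_sum_le_sum_abs _ _).trans (sum_le_sum fun u _ => ?_)
  rw [e]
  exact (abs_sum_le_sum_abs _ _).trans ((sum_le_card_nsmul _ _ _ fun w _ =>
    hv w (mem_univ _)).trans (by simp))

theorem wlap (W : Matrix n n ℝ) (hW : W.IsSymm) (x : n → ℝ) :
    x ⬝ᵥ (diagonal (fun i => ∑ j, W i j) - W) *ᵥ x = (∑ i, ∑ j, W i j * (x i - x j) ^ 2) / 2 := by
  have a : ∑ i, ∑ j, W i j * x j ^ 2 = ∑ i, ∑ j, W i j * x i ^ 2 := by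
    rw [sum_comm]; simp only [hW.apply]
  simp only [sub_sq, mul_add, mul_sub, sum_add_distrib, sum_sub_distrib, a, sub_mulVec, dotProduct,
    Pi.sub_apply, mulVec_diagonal]
  simp only [mulVec, dotProduct, mul_sum, sum_mul]
  have b : ∑ i, ∑ j, x i * (W i j * x i) = ∑ i, ∑ j, W i j * x i ^ 2 := by
    congr! 2; ring
  have c : ∑ i, ∑ j, W i j * (2 * x i * x j) = 2 * ∑ i, ∑ j, x i * (W i j * x j) := by
    simp only [mul_sum]; congr! 2; ring
  rw [b, c]; ring

end Pool.Agent.H31.Spec
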