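import Mathlib
import Pool.Agent.H31.Spec

set_option autoImplicit false

namespace Pool.Agent.H31.Spec
open Matrix Polynomial Finset

variable {n : Type} [Fintype n] [DecidableEq n]

/-- Entrywise spectral decomposition. -/
theorem decomp {A : Matrix n n ℝ} (hA : A.IsHermitian) : ∃ U : Matrix n n ℝ,
    (∀ x y, A x y = ∑ i, hA.eigenvalues i * U x i * U y i) ∧
    (∀ x y, ∑ i, U x i * U y i = if x = y then 1 else 0) ∧
    ∀ i j, ∑ x, U x i * U x j = if i = j then 1 else 0 := by
  refine ⟨hA.eigenvectorUnitary.1, fun x y => ?_, fun x y => ?_, fun x y => ?_⟩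
  · conv_lhs => rw [hA.spectral_theorem, Unitary.conjStarAlgAut_apply]
    simp only [mul_apply, star_apply, diagonal_apply, mul_ite, mul_zero, sum_ite_eq', mem_univ,
      if_true, star_trivial, Function.comp_apply, RCLike.ofReal_real_eq_id, id]
    exact sum_congr rfl fun _ _ => by ring
  · simpa [mul_apply, one_apply] using congrFun₂ (hA.eigenvectorUnitary.2.2) x y
  · simpa [mul_apply, one_apply] using congrFun₂ (hA.eigenvectorUnitary.2.1) x y

theorem tr_sq_le {N : Matrix n n ℝ} (hN : N.IsHermitian) :
    N.trace ^ 2 ≤ N.rank * ∑ x, ∑ y, N x y ^ 2 := by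
  have h1 := tr_pow hN 1
  have h2 := tr_pow hN 2
  have : (N ^ 2).trace = ∑ x, ∑ y, N x y ^ 2 := by
    simp only [trace, Matrix.diag, sq, mul_apply]
    exact sum_congr rfl fun x _ => sum_congr rfl fun y _ => by
      rw [show N y x = N x y by simpa using hN.apply x y]
  simp only [pow_one] at h1
  rw [← this, ← h1, ← h2, hN.rank_eq_card_non_zero_eigs, Fintype.card_subtype,
    ← sum_filter_ne_zero]
  exact sq_sum_le_card_mul_sum_sq.trans (mul_le_mul_of_nonneg_left
    (sum_le_sum_of_subset_of_nonneg (filter_subset _ _) fun _ _ _ => sq_nonneg _) (by positivity))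

theorem mult_eq {A : Matrix n n ℝ} (hA : A.IsHermitian) (t : ℝ) :
    A.charpoly.rootMultiplicity t = (univ.filter fun i => hA.eigenvalues i = t).card := by
  rw [← count_roots, hA.roots_charpoly_eq_eigenvalues, Multiset.count_map]
  simp [Finset.card, eq_comm]

end Pool.Agent.H31.Spec
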