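import Mathlib

set_option autoImplicit false
open Matrix Finset

namespace Pool.Agent.H31.Spread

variable {n : ℕ} (A : Fin n → Fin n → Prop) [DecidableRel A]

def outdeg (i : Fin n) : ℕ := (univ.filter fun j => A i j).card
def indeg (i : Fin n) : ℕ := (univ.filter fun j => A j i).card

/-- The Laplacian D - A with D the diagonal matrix of out-degrees. -/
def lap : Matrix (Fin n) (Fin n) ℝ :=
  diagonal (fun i => (outdeg A i : ℝ)) - of fun i j => if A i j then 1 else 0

def vals : Set ℝ := {t | ∃ x : Fin n → ℝ, ∑ i, x i = 0 ∧ x ⬝ᵥ x = 1 ∧ t = x ⬝ᵥ lap A *ᵥ x}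

/-- The Laplacian spread β - α. -/
noncomputable def spread : ℝ := sSup (vals A) - sInf (vals A)

theorem bdd : ∀ t ∈ vals A, |t| ≤ ∑ i, ∑ j, |lap A i j| := by
  rintro _ ⟨x, -, h, rfl⟩
  have a : ∀ i, |x i| ≤ 1 := fun i => abs_le_one_iff_mul_self_le_one.mpr
    (h ▸ single_le_sum (f := fun i => x i * x i) (fun _ _ => mul_self_nonneg _) (mem_univ i))
  refine (abs_sum_le_sum_abs _ _).trans (sum_le_sum fun i _ => ?_)
  rw [abs_mul]
  refine (mul_le_of_le_one_left (abs_nonneg _) (a i)).trans
    ((abs_sum_le_sum_abs (fun j => lap A i j * x j) univ).trans (sum_le_sum fun j _ => ?_))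
  rw [abs_mul]
  exact mul_le_of_le_one_right (abs_nonneg _) (a j)

theorem hom (x : Fin n → ℝ) (hx : ∑ i, x i = 0) :
    sInf (vals A) * (x ⬝ᵥ x) ≤ x ⬝ᵥ lap A *ᵥ x ∧ x ⬝ᵥ lap A *ᵥ x ≤ sSup (vals A) * (x ⬝ᵥ x) := by
  by_cases h : x = 0
  · simp [h]
  have p : 0 < x ⬝ᵥ x := lt_of_le_of_ne (sum_nonneg fun _ _ => mul_self_nonneg _)
    fun e => h (dotProduct_self_eq_zero.mp e.symm)
  have q := Real.mul_self_sqrt p.le
  have r := Real.sqrt_pos.mpr p
  have m : x ⬝ᵥ lap A *ᵥ x / (x ⬝ᵥ x) ∈ vals A := ⟨(√(x ⬝ᵥ x))⁻¹ • x, by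
    simp [← mul_sum, hx], by
    simp only [smul_dotProduct, dotProduct_smul, smul_eq_mul]; field_simp; linarith, by
    simp only [smul_dotProduct, dotProduct_smul, smul_eq_mul, mulVec_smul]; field_simp
    rw [sq, q]⟩
  exact ⟨(le_div_iff₀ p).mp (csInf_le ⟨_, fun t ht => (abs_le.mp (bdd A t ht)).1⟩ m),
    (div_le_iff₀ p).mp (le_csSup ⟨_, fun t ht => (abs_le.mp (bdd A t ht)).2⟩ m)⟩

def W (i j : Fin n) : ℕ := (if A i j then 1 else 0) + if A j i then 1 else 0

theorem main (hn : 2 ≤ n) (h0 : ∀ i, ¬ A i i) (hb : ∀ i, indeg A i = outdeg A i)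
    (hs : spread A ≤ 1) : spread A = 0 ∨ (spread A = 1 ∧ 4 ≤ n ∧ Even n ∧
      ((∀ i, outdeg A i = (n - 2) / 2) ∨ ∀ i, outdeg A i = n / 2)) := by
  set N := lap A + (lap A)ᵀ with hN
  have n0 : (2 : ℝ) ≤ n := by exact_mod_cast hn
  have N1 : ∀ i j, i ≠ j → N i j = -W A i j := fun i j h => by
    simp [N, lap, W, h, h.symm]; ring
  have N2 : ∀ i, N i i = 2 * outdeg A i := fun i => by simp [N, lap, h0]; ring
  have W1 : ∀ i j, W A i j = W A j i := fun i j => add_comm _ _
  have W2 : ∀ i j, W A i j ≤ 2 := fun i j => by unfold W; split_ifs <;> omega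
  have W3 : ∀ i, ∑ j ∈ univ.erase i, W A i j = 2 * outdeg A i := fun i => by
    rw [sum_erase _ (by simp [W, h0]), two_mul]
    nth_rw 2 [← hb]
    simp [W, sum_add_distrib, outdeg, indeg]
  have N3 : ∀ c : ℝ, N *ᵥ (fun _ => c) = 0 := fun c => funext fun i => by
    have := congrArg (Nat.cast (R := ℝ)) (W3 i)
    push_cast at this
    simp only [mulVec, dotProduct, ← sum_mul]
    rw [← add_sum_erase _ _ (mem_univ i), sum_congr rfl fun j hj => N1 i j (ne_of_mem_erase hj).symm,
      sum_neg_distrib, this, N2]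
    simp
  have N4 : ∀ x y, x ⬝ᵥ N *ᵥ y = y ⬝ᵥ N *ᵥ x := fun x y => by
    rw [dotProduct_mulVec, ← mulVec_transpose, dotProduct_comm]; simp [N, add_comm]
  have H : ∀ x, ∑ i, x i = 0 → 2 * sInf (vals A) * (x ⬝ᵥ x) ≤ x ⬝ᵥ N *ᵥ x ∧
      x ⬝ᵥ N *ᵥ x ≤ 2 * sSup (vals A) * (x ⬝ᵥ x) := fun x hx => by
    have := hom A x hx
    rw [hN, add_mulVec, dotProduct_add, mulVec_transpose, dotProduct_comm x (x ᵥ* _),
      ← dotProduct_mulVec]
    constructor <;> linarith
  have pol : ∀ x y, ∑ i, x i = 0 → ∑ i, y i = 0 → x ⬝ᵥ y = 0 →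
      2 * (y ⬝ᵥ N *ᵥ x) ≤ spread A * (x ⬝ᵥ x + y ⬝ᵥ y) := fun x y hx hy h => by
    have a := (H (x + y) (by simp [sum_add_distrib, hx, hy])).2
    have b := (H (x - y) (by simp [hx, hy])).1
    simp only [mulVec_add, mulVec_sub, add_dotProduct, dotProduct_add, sub_dotProduct,
      dotProduct_sub, N4 x y, dotProduct_comm y x, h] at a b
    unfold spread
    linarith
  let P : Fin n → Fin n → ℝ := fun i => (Pi.single i 1 : Fin n → ℝ) - fun _ => (1 / n : ℝ)
  have P1 : ∀ i, ∑ j, P i j = 0 := fun i => by simp [P]; field_simp; simp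
  have P2 : ∀ i, P i ⬝ᵥ P i = 1 - 1 / n := fun i => by
    simp [P, dotProduct, mul_sub, sub_mul, Pi.single_apply]; field_simp; simp
  have P3 : ∀ i, N *ᵥ P i = N *ᵥ Pi.single i 1 := fun i => by simp only [P, mulVec_sub, N3, sub_zero]
  have K : ∀ i (y : Fin n → ℝ), ∑ j, y j = 0 → y i = 0 →
      2 * (y ⬝ᵥ N *ᵥ Pi.single i 1) < 1 + y ⬝ᵥ y := fun i y h1 h2 => by
    have a := pol (P i) y (P1 i) h1 (by simp [P, h2, dotProduct, sub_mul, Pi.single_apply, ← mul_sum, h1])
    have b : 0 ≤ y ⬝ᵥ y := sum_nonneg fun _ _ => mul_self_nonneg _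
    have c : (0 : ℝ) < 1 / n := by positivity
    have d : (1 : ℝ) / n ≤ 1 := by rw [div_le_one (by linarith)]; linarith
    rw [P2, P3] at a
    nlinarith
  have F1 : ∀ j, sInf (vals A) * (n - 1) ≤ outdeg A j * n ∧
      outdeg A j * n ≤ sSup (vals A) * (n - 1) := fun j => by
    have := H (P j) (P1 j)
    rw [P3, N4, P3, P2] at this
    simp [N2] at this
    constructor
    · have := mul_le_mul_of_nonneg_right this.1 (by linarith : (0 : ℝ) ≤ n / 2)
      refine le_trans (le_of_eq ?_) (this.trans (le_of_eq ?_)) <;> field_simp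
    · have := mul_le_mul_of_nonneg_right this.2 (by linarith : (0 : ℝ) ≤ n / 2)
      refine le_trans (le_of_eq ?_) (this.trans (le_of_eq ?_)) <;> field_simp
  have F2 : ∀ i k, i ≠ k → 2 * sInf (vals A) ≤ outdeg A i + outdeg A k + W A i k ∧
      (outdeg A i + outdeg A k + W A i k : ℝ) ≤ 2 * sSup (vals A) := fun i k h => by
    have := H (Pi.single i 1 - Pi.single k 1) (by simp)
    simp [mulVec_sub, N1, N2, h, h.symm, W1 k i] at this
    constructor <;> linarith [this.1, this.2]
  have Ka : ∀ i j k, j ≠ i → k ≠ i → ¬ (W A i j = 0 ∧ W A i k = 2) := fun i j k a b ⟨c, d⟩ => by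
    have e : j ≠ k := by rintro rfl; omega
    have := K i (Pi.single j (1 / 2) - Pi.single k (1 / 2)) (by simp) (by simp [a.symm, b.symm])
    simp [N1, a, b, e, e.symm, W1 _ i, c, d] at this
    linarith
  have Kb : ∀ i j j' k k', j ≠ i → j' ≠ i → k ≠ i → k' ≠ i → j ≠ j' → k ≠ k' → ¬ (W A i j = W A i j' ∧
      W A i k = W A i j + 1 ∧ W A i k' = W A i j + 1) := by
    intro i j j' k k' a a' b b' c d ⟨e, f, g⟩
    have e1 : j ≠ k := by rintro rfl; omega
    have e2 : j ≠ k' := by rintro rfl; omega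
    have e3 : j' ≠ k := by rintro rfl; omega
    have e4 : j' ≠ k' := by rintro rfl; omega
    have := K i (Pi.single j (1 / 2) + Pi.single j' (1 / 2) - Pi.single k (1 / 2) -
      Pi.single k' (1 / 2)) (by simp [sum_add_distrib]) (by simp [a.symm, b.symm, a'.symm, b'.symm])
    simp [N1, a, b, a', b', c, d, e1, e2, e3, e4, c.symm, d.symm, e1.symm, e2.symm, e3.symm, e4.symm,
      W1 _ i, ← e, f, g] at this
    linarith
  have par : ∀ i, Even ((univ.erase i).filter fun j => W A i j = 1).card := fun i => by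
    have := (even_sum_iff_even_card_odd (s := univ.erase i) (W A i)).mp (by simp [W3])
    rwa [filter_congr (q := fun j => W A i j = 1) fun j _ => by
      have := W2 i j; rw [Nat.odd_iff]; omega] at this
  have mix : ∀ i j k, j ≠ i → k ≠ i → W A i j = 1 → W A i k ≠ 1 →
      (∀ l, l ≠ i → l ≠ k → W A i l = 1) ∧ 2 * outdeg A i + 2 = n + W A i k ∧ 4 ≤ n ∧ Even n := by
    intro i j k a b c d
    obtain ⟨j', e⟩ : ∃ j', j' ∈ (univ.erase i).filter (fun j => W A i j = 1) ∧ j' ≠ j := by
      by_contra e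
      push Not at e
      have := par i
      rw [eq_singleton_iff_unique_mem.mpr ⟨by simp [a, c], e⟩] at this
      simp at this
    simp only [mem_filter, mem_erase, mem_univ, and_true] at e
    have f : ∀ l, l ≠ i → l ≠ k → W A i l = 1 := fun l g h => by
      have := W2 i l
      have := W2 i k
      have := Ka i l k g b
      have := Ka i k l b g
      have := Kb i l k j j' g b a e.1.1 h e.2.symm
      have := Kb i j j' l k a e.1.1 g b e.2.symm h
      omega
    have g : (univ.erase i).filter (fun j => W A i j = 1) = (univ.erase i).erase k := by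
      ext l
      simp only [mem_filter, mem_erase, mem_univ, and_true]
      exact ⟨fun h => ⟨by rintro rfl; exact d h.2, h.1⟩, fun h => ⟨h.2, f l h.2 h.1⟩⟩
    have c1 : ((univ.erase i).erase k).card = n - 2 := by simp [card_erase_of_mem, b]; omega
    have c2 := par i
    have c3 : 1 < ((univ.erase i).filter (fun j => W A i j = 1)).card :=
      one_lt_card.mpr ⟨j, by simp [a, c], j', by simp [e.1], e.2.symm⟩
    rw [g, c1] at c2 c3
    have c4 := W3 i
    rw [← add_sum_erase _ _ (show k ∈ _ by simp [b]), sum_congr rfl fun l hl => f l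
      (ne_of_mem_erase (mem_of_mem_erase hl)) (ne_of_mem_erase hl), sum_const, c1, smul_eq_mul] at c4
    rw [Nat.even_iff] at *
    exact ⟨f, by omega, by omega, by omega⟩
  by_cases c : ∃ i j k, j ≠ i ∧ k ≠ i ∧ W A i j = 1 ∧ W A i k ≠ 1
  · obtain ⟨i, j, k, a1, a2, a3, a4⟩ := c
    obtain ⟨b1, b2, b3, b4⟩ := mix i j k a1 a2 a3 a4
    have n4 : (4 : ℝ) ≤ n := by exact_mod_cast b3
    have ez : ∀ u, ∃ v, v ≠ u ∧ W A u v ≠ 1 := fun u => by
      by_contra e
      push Not at e
      have := par u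
      rw [filter_true_of_mem fun l hl => e l (ne_of_mem_erase hl), card_erase_of_mem (mem_univ _),
        card_fin, Nat.even_iff] at this
      rw [Nat.even_iff] at b4
      omega
    have eh : ∀ u, ∃ v, v ≠ u ∧ W A u v = 1 := fun u => by
      by_contra e
      push Not at e
      have u1 : u ≠ i := fun h => e j (h ▸ a1) (h ▸ a3)
      obtain rfl : u = k := by
        by_contra h; exact e i u1.symm (W1 _ _ ▸ b1 u u1 h)
      have u2 : u ≠ j := fun h => a4 (h ▸ a3)
      have d := (mix j i u a1.symm u2 (W1 _ _ ▸ a3) (W1 _ _ ▸ e j u2.symm)).2.1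
      have u3 : ∀ l, l ≠ u → W A u l = W A i u := fun l hl => by
        have := W2 u l
        have := W2 u i
        have := e l hl
        have := Ka u l i hl u1.symm
        have := Ka u i l u1.symm hl
        have := W1 u i
        omega
      have c4 := W3 u
      rw [sum_congr rfl fun l hl => u3 l (ne_of_mem_erase hl), sum_const,
        card_erase_of_mem (mem_univ _), card_fin, smul_eq_mul] at c4
      rw [W1 j, u3 j u2.symm] at d
      have f1 := F1 u
      have f2 := F2 i j a1.symm
      have d' := congrArg (Nat.cast (R := ℝ)) d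
      have b' := congrArg (Nat.cast (R := ℝ)) b2
      have c' := congrArg (Nat.cast (R := ℝ)) c4
      rw [Nat.cast_mul, Nat.cast_sub (by omega)] at c'
      unfold spread at hs
      rcases (show W A i u = 0 ∨ W A i u = 2 by have := W2 i u; omega) with h | h <;>
        simp only [h, a3] at * <;> push_cast at * <;> nlinarith [f1.1, f1.2]
    choose μ m1 m2 using ez
    have all := fun u => (eh u).elim fun v hv => mix u v (μ u) hv.1 (m1 u) hv.2 (m2 u)
    have mm : ∀ u, μ (μ u) = u := fun u => by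
      by_contra h
      exact m2 u (W1 _ _ ▸ (all (μ u)).1 u (m1 u).symm (Ne.symm h))
    have bb : ∀ u v, W A u (μ u) = W A v (μ v) := by
      have t : ∀ u v, W A u (μ u) ≤ W A v (μ v) + 1 := fun u v => by
        have g := fun u => congrArg (Nat.cast (R := ℝ)) (all u).2.1
        have g1 := g u
        have g2 := g (μ u)
        have g3 := g v
        have g4 := g (μ v)
        rw [mm, W1] at g2 g4
        push_cast at g1 g2 g3 g4
        unfold spread at hs
        exact_mod_cast (show (W A u (μ u) : ℝ) ≤ W A v (μ v) + 1 by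
          linarith [(F2 u _ (m1 u).symm).2, (F2 v _ (m1 v).symm).1])
      intro u v
      have := t u v; have := t v u; have := W2 u (μ u); have := W2 v (μ v)
      have := m2 u; have := m2 v
      omega
    refine Or.inr ⟨le_antisymm hs ?_, b3, b4, ?_⟩
    · have j1 : μ i ≠ j := fun h => m2 i (h ▸ a3)
      have j2 : μ j ≠ i := fun h => j1 (h ▸ mm j)
      have j3 : μ i ≠ μ j := fun h => a1 (by rw [← mm j, ← h, mm])
      have w1 : W A (μ i) j = 1 := (all _).1 j j1.symm (by rw [mm]; exact a1)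
      have w2 : W A (μ j) i = 1 := (all _).1 i j2.symm (by rw [mm]; exact a1.symm)
      have := fun t : ℝ => pol (Pi.single i 1 - Pi.single j 1)
        (Pi.single (μ i) t - Pi.single (μ j) t) (by simp) (by simp)
        (by simp [(m1 i).symm, (m1 j).symm, j1.symm, j2.symm])
      simp [mulVec_sub, N1, m1, j1, j2, j3, j3.symm, a1, a1.symm, w1, w2, W1 (μ i) i,
        W1 (μ j) j, bb j i] at this
      have t1 := this 1
      have t2 := this (-1)
      rcases (show W A i (μ i) = 0 ∨ W A i (μ i) = 2 by have := W2 i (μ i); have := m2 i; omega)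
        with h | h <;> simp only [h] at t1 t2 <;> push_cast at t1 t2 <;> linarith
    · rcases (show W A i (μ i) = 0 ∨ W A i (μ i) = 2 by have := W2 i (μ i); have := m2 i; omega)
        with h | h
      · exact Or.inl fun u => by have := (all u).2.1; have := bb u i; omega
      · exact Or.inr fun u => by have := (all u).2.1; have := bb u i; omega
  · push Not at c
    have r : ∀ i j k, j ≠ i → k ≠ i → W A i j = W A i k := fun i j k a b => by
      have := imp_iff_not_or.mp (c i j k a b); have := imp_iff_not_or.mp (c i k j b a); have := Ka i j k a b; have := Ka i k j b a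
      have := W2 i j; have := W2 i k
      omega
    let o : Fin n := ⟨0, by omega⟩
    let z : Fin n := ⟨1, by omega⟩
    have oz : z ≠ o := by simp [o, z]
    have r2 : ∀ i j, j ≠ i → W A i j = W A o z := fun i j a => by
      by_cases h : i = o
      · rw [h]; exact r o j z (h ▸ a) oz
      · rw [r i j o a (Ne.symm h), W1, r o i z h oz]
    have r3 : N = (W A o z * n : ℝ) • 1 - of fun _ _ => (W A o z : ℝ) := by
      ext i j
      by_cases h : i = j
      · have := W3 i
        rw [sum_congr rfl fun l hl => r2 i l (ne_of_mem_erase hl), sum_const,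
          card_erase_of_mem (mem_univ _), card_fin, smul_eq_mul] at this
        have := congrArg (Nat.cast (R := ℝ)) this
        rw [Nat.cast_mul, Nat.cast_sub (by omega)] at this
        simp [← h, N2] at this ⊢
        linarith
      · simp [N1, h, r2 i j (Ne.symm h)]
    have r4 : ∀ t ∈ vals A, t = W A o z * n / 2 := by
      rintro _ ⟨x, h1, h2, rfl⟩
      have : x ⬝ᵥ N *ᵥ x = W A o z * n := by
        rw [r3, sub_mulVec, smul_mulVec, one_mulVec, dotProduct_sub, dotProduct_smul, h2]
        simp [mulVec, dotProduct, ← mul_sum, h1]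
      rw [hN, add_mulVec, dotProduct_add, mulVec_transpose, dotProduct_comm x (x ᵥ* _),
        ← dotProduct_mulVec] at this
      linarith
    left
    rcases (show (vals A).Subsingleton from fun a ha b hb => by
      rw [r4 a ha, r4 b hb]).eq_empty_or_singleton with h | ⟨t, h⟩ <;> simp [spread, h]

end Pool.Agent.H31.Spread
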