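import Mathlib

namespace Pool.Agent.H31.SubX

open Subgroup

variable {p : ℕ} [hp : Fact p.Prime]

theorem meet_center {G : Type*} [Group G] [Finite G] (hG : IsPGroup p G) (M : Subgroup G)
    [M.Normal] (hM : M ≠ ⊥) : ∃ z ∈ M, z ∈ center G ∧ orderOf z = p := by
  have hG' : IsPGroup p (ConjAct G) := hG.of_equiv ConjAct.toConjAct
  have hnt : Nontrivial M := (Subgroup.nontrivial_iff_ne_bot M).mpr hM
  have dvd : p ∣ Nat.card M := by
    obtain ⟨n, hn0, hn⟩ := (hG.to_subgroup M).nontrivial_iff_card.mp hnt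
    exact hn.symm ▸ dvd_pow_self _ (ne_of_gt hn0)
  have h1 : (1 : M) ∈ MulAction.fixedPoints (ConjAct G) M := by
    intro g; simp
  obtain ⟨b, hb, hb1⟩ := hG'.exists_fixed_point_of_prime_dvd_card_of_fixed_point M dvd h1
  have hbc : (b : G) ∈ center G := by
    rw [mem_center_iff]
    intro g
    have : g * b * g⁻¹ = b := congrArg Subtype.val (hb (ConjAct.toConjAct g))
    calc g * b = (g * b * g⁻¹) * g := by group
      _ = b * g := by rw [this]
  have hne : (M ⊓ center G) ≠ ⊥ := by
    intro h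
    have : (b : G) ∈ M ⊓ center G := ⟨b.2, hbc⟩
    rw [h, mem_bot] at this
    exact hb1 (Subtype.ext this.symm)
  have hnt2 : Nontrivial (M ⊓ center G : Subgroup G) := (Subgroup.nontrivial_iff_ne_bot _).mpr hne
  have dvd2 : p ∣ Nat.card (M ⊓ center G : Subgroup G) := by
    obtain ⟨n, hn0, hn⟩ := (hG.to_subgroup _).nontrivial_iff_card.mp hnt2
    exact hn.symm ▸ dvd_pow_self _ (ne_of_gt hn0)
  obtain ⟨z, hz⟩ := exists_prime_orderOf_dvd_card' p dvd2
  exact ⟨z, z.2.1, z.2.2, by rw [← hz]; exact Subgroup.orderOf_coe z⟩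

theorem ext_step {G : Type*} [Group G] [Finite G] (hG : IsPGroup p G) (N M : Subgroup G)
    [N.Normal] [M.Normal] (h : N < M) :
    ∃ L : Subgroup G, L.Normal ∧ N < L ∧ L ≤ M ∧ Nat.card L = p * Nat.card N ∧
      ∃ x ∈ L, ∀ g ∈ L, ∃ k : ℤ, ∃ n ∈ N, g = x ^ k * n := by
  have hQ : IsPGroup p (G ⧸ N) := hG.to_quotient N
  have hMn : (M.map (QuotientGroup.mk' N)).Normal :=
    Subgroup.Normal.map inferInstance _ (QuotientGroup.mk'_surjective N)
  have hne : M.map (QuotientGroup.mk' N) ≠ ⊥ := by
    intro hb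
    rw [Subgroup.map_eq_bot_iff, QuotientGroup.ker_mk'] at hb
    exact absurd hb (not_le_of_gt h)
  obtain ⟨z, hzM, hzc, hzo⟩ := meet_center hQ _ hne
  obtain ⟨x, hxM, rfl⟩ := hzM
  set z := QuotientGroup.mk' N x with hz
  have hzn : (zpowers z).Normal := by
    constructor
    intro a ha g
    have hac : a ∈ center (G ⧸ N) := (zpowers_le.mpr hzc) ha
    rw [mem_center_iff] at hac
    rw [hac g]; simpa using ha
  have hNL : N ≤ (zpowers z).comap (QuotientGroup.mk' N) := by
    intro n hn
    rw [mem_comap]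
    have : QuotientGroup.mk' N n = 1 := (QuotientGroup.eq_one_iff n).mpr hn
    rw [this]; exact one_mem _
  have hxL : x ∈ (zpowers z).comap (QuotientGroup.mk' N) := by
    rw [mem_comap]; exact mem_zpowers _
  have hdec : ∀ g ∈ (zpowers z).comap (QuotientGroup.mk' N), ∃ k : ℤ, ∃ n ∈ N, g = x ^ k * n := by
    intro g hg
    rw [mem_comap, mem_zpowers_iff] at hg
    obtain ⟨k, hk⟩ := hg
    refine ⟨k, (x ^ k)⁻¹ * g, ?_, by group⟩
    rw [← QuotientGroup.eq]
    have : ((x ^ k : G) : G ⧸ N) = z ^ k := by rw [hz]; simp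
    rw [this, hk]; rfl
  refine ⟨(zpowers z).comap (QuotientGroup.mk' N), hzn.comap _, ?_, ?_, ?_, x, hxL, hdec⟩
  · refine lt_of_le_of_ne hNL ?_
    intro he
    have : x ∈ N := he ▸ hxL
    have h1 : z = 1 := (QuotientGroup.eq_one_iff x).mpr this
    rw [h1, orderOf_one] at hzo
    exact hp.out.one_lt.ne hzo
  · intro g hg
    obtain ⟨k, n, hn, rfl⟩ := hdec g hg
    exact M.mul_mem (M.zpow_mem hxM k) (h.le hn)
  · have h1 := ((zpowers z).comap (QuotientGroup.mk' N)).card_mul_index
    rw [Subgroup.index_comap_of_surjective _ (QuotientGroup.mk'_surjective N)] at h1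
    have h2 := (zpowers z).card_mul_index
    rw [Nat.card_zpowers, hzo] at h2
    have h3 := N.card_mul_index
    have h4 : N.index = Nat.card (G ⧸ N) := rfl
    have h5 : (zpowers z).index ≠ 0 := Subgroup.index_ne_zero_of_finite
    apply Nat.eq_of_mul_eq_mul_right (Nat.pos_of_ne_zero h5)
    rw [h1, ← h3, h4, ← h2]; ring

theorem card_lt {G : Type*} [Group G] [Finite G] {A B : Subgroup G} (h : A < B) :
    Nat.card A < Nat.card B := by
  have h1 : Nat.card A ≤ Nat.card B := Subgroup.card_le_of_le h.le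
  refine lt_of_le_of_ne h1 ?_
  intro he
  exact h.ne (Subgroup.eq_of_le_of_card_ge h.le he.ge)

/-- A self-centralizing normal subgroup of order `p ^ 2` forces order at most `p ^ 3`. -/
theorem small {G : Type*} [Group G] [Finite G] (hG : IsPGroup p G) (N : Subgroup G)
    [N.Normal] (hN : Nat.card N = p ^ 2) (hC : centralizer (N : Set G) ≤ N) (hne : N ≠ ⊤) :
    Nat.card G ≤ p ^ 3 := by
  have h1 := hp.out.one_lt
  have hy : ∃ y ∈ N, y ∉ center G := by
    by_contra hcon
    push Not at hcon
    apply hne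
    rw [eq_top_iff]
    intro g _
    apply hC
    rw [mem_centralizer_iff]
    intro n hn
    exact (mem_center_iff.mp (hcon n hn) g).symm
  obtain ⟨y, hyN, hyc⟩ := hy
  have hNb : N ≠ ⊥ := by
    intro h
    rw [h, mem_bot] at hyN
    exact hyc (hyN ▸ one_mem _)
  obtain ⟨z, hzN, hzc, hzo⟩ := meet_center hG N hNb
  have hcy : centralizer ({y} : Set G) ≤ N := by
    intro g hg
    apply hC
    have hgy : y * g = g * y := (mem_centralizer_iff.mp hg) y rfl
    have hlt : zpowers z < N ⊓ centralizer ({g} : Set G) := by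
      refine lt_of_le_of_ne ?_ ?_
      · rw [zpowers_le]
        refine ⟨hzN, ?_⟩
        show z ∈ centralizer ({g} : Set G)
        rw [mem_centralizer_iff]
        rintro h rfl
        exact mem_center_iff.mp hzc h
      · intro he
        have : y ∈ N ⊓ centralizer ({g} : Set G) := by
          refine ⟨hyN, ?_⟩
          show y ∈ centralizer ({g} : Set G)
          rw [mem_centralizer_iff]
          rintro h rfl
          exact hgy.symm
        rw [← he] at this
        exact hyc ((zpowers_le.mpr hzc) this)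
    have hc1 := card_lt hlt
    rw [Nat.card_zpowers, hzo] at hc1
    obtain ⟨k, hk⟩ := (hG.to_subgroup (N ⊓ centralizer ({g} : Set G))).exists_card_eq
    have hk2 : 2 ≤ k := by
      rw [hk] at hc1
      by_contra hh
      have : k ≤ 1 := by omega
      have := Nat.pow_le_pow_right h1.le this
      rw [pow_one] at this; omega
    have heq : N ⊓ centralizer ({g} : Set G) = N := by
      apply Subgroup.eq_of_le_of_card_ge inf_le_left
      rw [hk, hN]
      exact Nat.pow_le_pow_right h1.le hk2
    rw [mem_centralizer_iff]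
    intro n hn
    have : n ∈ N ⊓ centralizer ({g} : Set G) := by rw [heq]; exact hn
    exact ((mem_centralizer_iff.mp this.2) g rfl).symm
  have hc2 : Nat.card (centralizer ({y} : Set G)) ≤ p ^ 2 := hN ▸ Subgroup.card_le_of_le hcy
  have hG' : IsPGroup p (ConjAct G) := hG.of_equiv ConjAct.toConjAct
  obtain ⟨k, hk⟩ := hG'.card_orbit y
  have horb : Nat.card (MulAction.orbit (ConjAct G) y) < p ^ 2 := by
    rw [← hN]
    have hsub : MulAction.orbit (ConjAct G) y ⊂ (N : Set G) := by
      constructor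
      · rintro _ ⟨g, rfl⟩
        exact Subgroup.Normal.conj_mem inferInstance y hyN _
      · intro hs
        obtain ⟨g, hg⟩ := hs N.one_mem
        have : g • y = 1 := hg
        rw [smul_eq_iff_eq_inv_smul, smul_one] at this
        exact hyc (this ▸ one_mem _)
    exact Set.ncard_lt_ncard hsub (Set.toFinite _)
  have hk1 : k ≤ 1 := by
    rw [hk] at horb
    have := (Nat.pow_lt_pow_iff_right h1).mp horb
    omega
  have hle : Nat.card (MulAction.orbit (ConjAct G) y) ≤ p := by
    rw [hk]
    simpa using Nat.pow_le_pow_right h1.le hk1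
  have e1 := (MulAction.stabilizer (ConjAct G) y).card_mul_index
  rw [MulAction.index_stabilizer, ← Subgroup.nat_card_centralizer_nat_card_stabilizer] at e1
  have e2 : Nat.card (ConjAct G) = Nat.card G := rfl
  rw [← e2, ← e1, pow_succ]
  exact Nat.mul_le_mul hc2 hle

/-- The class: order at most `p ^ 2`, or order `p ^ 3` and either commutative or containing two
non-commuting elements `x, y` with `x ^ p = y ^ p = 1`. -/
def XX (p : ℕ) (K : Type) [Group K] : Prop :=
  Nat.card K ≤ p ^ 2 ∨ (Nat.card K = p ^ 3 ∧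
    ((∀ x y : K, x * y = y * x) ∨ ∃ x y : K, x ^ p = 1 ∧ y ^ p = 1 ∧ x * y ≠ y * x))

omit hp in
theorem XX_iso {K L : Type} [Group K] [Group L] (e : K ≃* L) (h : XX p K) : XX p L := by
  have hc : Nat.card K = Nat.card L := Nat.card_congr e.toEquiv
  rcases h with h | ⟨h, h2 | ⟨x, y, hx, hy, hxy⟩⟩
  · left; omega
  · right
    refine ⟨by omega, Or.inl fun x y => ?_⟩
    obtain ⟨a, rfl⟩ := e.surjective x
    obtain ⟨b, rfl⟩ := e.surjective y
    rw [← map_mul, h2, map_mul]
  · right
    refine ⟨by omega, Or.inr ⟨e x, e y, by rw [← map_pow, hx, map_one],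
      by rw [← map_pow, hy, map_one], ?_⟩⟩
    rw [← map_mul, ← map_mul]
    exact fun h => hxy (e.injective h)

theorem XX_sub {K : Type} [Group K] [Finite K] (H : Subgroup K) (h : XX p K) : XX p H := by
  by_cases hH : H = ⊤
  · subst hH
    exact XX_iso Subgroup.topEquiv.symm h
  have hlt : Nat.card H < Nat.card K := by
    have := card_lt (lt_top_iff_ne_top.mpr hH)
    rwa [Subgroup.card_top] at this
  left
  rcases h with h | ⟨h, _⟩
  · omega
  · have hd := H.card_subgroup_dvd_card
    rw [h, Nat.dvd_prime_pow hp.out] at hd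
    obtain ⟨k, _, hk⟩ := hd
    rw [hk, h] at hlt
    have := (Nat.pow_lt_pow_iff_right hp.out.one_lt).mp hlt
    rw [hk]
    exact Nat.pow_le_pow_right hp.out.one_lt.le (by omega)

theorem cond1 {G : Type} [Group G] [Finite G] (hG : IsPGroup p G) (N : Subgroup G)
    [N.Normal] (hmax : ∀ K : Subgroup G, K.Normal → XX p K → ¬ N < K)
    (K : Subgroup G) (hK : XX p K) : ¬ N < K := by
  intro hNK
  have h1 := hp.out.one_lt
  have hlt := card_lt hNK
  have h23 : p ^ 2 < p ^ 3 := Nat.pow_lt_pow_right h1 (by norm_num)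
  have hK3 : Nat.card K ≤ p ^ 3 := by
    rcases hK with h | ⟨h, _⟩ <;> omega
  obtain ⟨j, hj⟩ := (hG.to_subgroup N).exists_card_eq
  have hj3 : j < 3 := by
    have : p ^ j < p ^ 3 := by omega
    exact (Nat.pow_lt_pow_iff_right h1).mp this
  have hNtop : N < ⊤ := lt_of_lt_of_le hNK le_top
  by_cases hj2 : j ≤ 1
  · obtain ⟨L, hLn, hNL, _, hc, _⟩ := ext_step hG N ⊤ hNtop
    refine hmax L hLn (Or.inl ?_) hNL
    rw [hc, hj, ← pow_succ']
    exact Nat.pow_le_pow_right h1.le (by omega)
  have hj' : j = 2 := by omega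
  subst hj'
  have hcomm : ∀ a ∈ N, ∀ b ∈ N, a * b = b * a := by
    intro a ha b hb
    have := (IsPGroup.isMulCommutative_of_card_eq_prime_sq hj).is_comm.comm ⟨a, ha⟩ ⟨b, hb⟩
    exact congrArg Subtype.val this
  have hNC : N ≤ centralizer (N : Set G) := by
    intro a ha
    rw [mem_centralizer_iff]
    intro b hb
    exact hcomm b hb a ha
  by_cases hC : centralizer (N : Set G) ≤ N
  · have hs := small hG N hj hC hNtop.ne
    have hKc : Nat.card K = p ^ 3 := by
      rcases hK with h | ⟨h, _⟩ <;> omega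
    have hKt : K = ⊤ := by
      apply Subgroup.eq_of_le_of_card_ge le_top
      rw [Subgroup.card_top]; omega
    subst hKt
    exact hmax ⊤ inferInstance hK hNK
  · have hlt2 : N < centralizer (N : Set G) := lt_of_le_of_ne hNC (fun h => hC h.ge)
    obtain ⟨L, hLn, hNL, hLC, hc, x, hxL, hdec⟩ := ext_step hG N _ hlt2
    refine hmax L hLn (Or.inr ⟨by rw [hc, hj, ← pow_succ'], Or.inl ?_⟩) hNL
    rintro ⟨a, ha⟩ ⟨b, hb⟩
    apply Subtype.ext
    show a * b = b * a
    obtain ⟨k, n, hn, rfl⟩ := hdec a ha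
    obtain ⟨l, m, hm, rfl⟩ := hdec b hb
    have hxn : ∀ n ∈ N, Commute x n := fun n hn =>
      ((mem_centralizer_iff.mp (hLC hxL)) n hn).symm
    have c1 : Commute (x ^ k) (x ^ l) := Commute.zpow_zpow_self x k l
    have c2 : Commute (x ^ k) m := (hxn m hm).zpow_left k
    have c3 : Commute n (x ^ l) := ((hxn n hn).zpow_left l).symm
    have c4 : Commute n m := hcomm n hn m hm
    exact (Commute.mul_left (c1.mul_right c2) (c3.mul_right c4))

end Pool.Agent.H31.SubX
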