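import Pool.Agent.H31.SubX

namespace Pool.Agent.H31.SubX

open Subgroup

variable (p : ℕ) [hp : Fact p.Prime]

instance : NeZero (p ^ 2) := ⟨pow_ne_zero _ hp.out.ne_zero⟩

def io : ZMod p →+ ZMod (p ^ 2) :=
  ZMod.lift p ⟨zmultiplesHom _ ((p : ℕ) : ZMod (p ^ 2)), by
    simp only [zmultiplesHom_apply, natCast_zsmul, nsmul_eq_mul]
    rw [← Nat.cast_mul, ← sq, ZMod.natCast_self]⟩

def pr : ZMod (p ^ 2) →+* ZMod p := ZMod.castHom (dvd_pow_self p two_ne_zero) (ZMod p)

variable {p}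

theorem io_int (k : ℤ) : io p (k : ZMod p) = (k : ZMod (p ^ 2)) * p := by
  unfold io
  rw [ZMod.lift_coe]
  simp [zsmul_eq_mul]

theorem pr_io (t : ZMod p) : pr p (io p t) = 0 := by
  obtain ⟨k, rfl⟩ := ZMod.intCast_surjective t
  rw [io_int, map_mul, map_natCast, ZMod.natCast_self, mul_zero]

theorem io_pr (c : ZMod (p ^ 2)) : io p (pr p c) = p • c := by
  obtain ⟨k, rfl⟩ := ZMod.intCast_surjective c
  rw [map_intCast, io_int, nsmul_eq_mul, mul_comm]

theorem io_inj (t : ZMod p) (h : io p t = 0) : t = 0 := by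
  obtain ⟨k, rfl⟩ := ZMod.intCast_surjective t
  rw [io_int] at h
  have h2 : ((k * p : ℤ) : ZMod (p ^ 2)) = 0 := by push_cast; exact h
  rw [ZMod.intCast_zmod_eq_zero_iff_dvd] at h2 ⊢
  push_cast at h2
  rw [sq] at h2
  exact Int.dvd_of_mul_dvd_mul_right (by exact_mod_cast hp.out.ne_zero) h2

theorem pr_surj : Function.Surjective (pr p) := ZMod.ringHom_surjective _

variable (p)

@[ext] structure Gp where
  a : ZMod p
  b : ZMod p
  c : ZMod (p ^ 2)

variable {p}

instance : Mul (Gp p) := ⟨fun g h => ⟨g.a + h.a, g.b + h.b, g.c + h.c + io p (g.a * h.b)⟩⟩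
instance : One (Gp p) := ⟨⟨0, 0, 0⟩⟩
instance : Inv (Gp p) := ⟨fun g => ⟨-g.a, -g.b, -g.c + io p (g.a * g.b)⟩⟩

@[simp] theorem mul_a (g h : Gp p) : (g * h).a = g.a + h.a := rfl
@[simp] theorem mul_b (g h : Gp p) : (g * h).b = g.b + h.b := rfl
@[simp] theorem mul_c (g h : Gp p) : (g * h).c = g.c + h.c + io p (g.a * h.b) := rfl
@[simp] theorem one_a : (1 : Gp p).a = 0 := rfl
@[simp] theorem one_b : (1 : Gp p).b = 0 := rfl
@[simp] theorem one_c : (1 : Gp p).c = 0 := rfl
@[simp] theorem inv_a (g : Gp p) : (g⁻¹).a = -g.a := rfl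
@[simp] theorem inv_b (g : Gp p) : (g⁻¹).b = -g.b := rfl
@[simp] theorem inv_c (g : Gp p) : (g⁻¹).c = -g.c + io p (g.a * g.b) := rfl

instance : Group (Gp p) := Group.ofLeftAxioms
  (fun x y z => by
    ext
    · simp [add_assoc]
    · simp [add_assoc]
    · simp only [mul_c, mul_a, mul_b, add_mul, mul_add, map_add]; abel)
  (fun x => by ext <;> simp)
  (fun x => by ext <;> simp)

def eqv : Gp p ≃ ZMod p × ZMod p × ZMod (p ^ 2) where
  toFun g := (g.a, g.b, g.c)
  invFun t := ⟨t.1, t.2.1, t.2.2⟩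
  left_inv _ := rfl
  right_inv _ := rfl

instance : Finite (Gp p) := Finite.of_equiv _ eqv.symm

omit hp in
theorem card_Gp : Nat.card (Gp p) = p ^ 4 := by
  rw [Nat.card_congr eqv]
  simp only [Nat.card_prod, Nat.card_zmod]; ring

theorem pow_eq (g : Gp p) (n : ℕ) :
    g ^ n = ⟨n • g.a, n • g.b, n • g.c + io p ((n.choose 2 : ℕ) * (g.a * g.b))⟩ := by
  induction n with
  | zero => ext <;> simp
  | succ n ih =>
    rw [pow_succ, ih]
    ext
    · simp [add_mul]
    · simp [add_mul]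
    · simp only [mul_c, Nat.choose_succ_succ' n 1, Nat.choose_one_right, Nat.cast_add, add_mul,
        map_add, succ_nsmul, nsmul_eq_mul (n := n) (a := g.a), mul_assoc]
      abel

def fA : Gp p →* Multiplicative (ZMod p) where
  toFun g := Multiplicative.ofAdd (g.a - g.b)
  map_one' := by simp
  map_mul' g h := by rw [← ofAdd_add]; congr 1; simp; ring

def fB : Gp p →* Multiplicative (ZMod p) where
  toFun g := Multiplicative.ofAdd (pr p g.c)
  map_one' := by simp
  map_mul' g h := by rw [← ofAdd_add]; congr 1; simp [pr_io]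

def sA : Subgroup (Gp p) := fA.ker
def sB : Subgroup (Gp p) := fB.ker
def sH : Subgroup (Gp p) := (fA.prod fB).ker

theorem mem_A (g : Gp p) : g ∈ (sA : Subgroup (Gp p)) ↔ g.a = g.b := by
  simp [sA, fA, MonoidHom.mem_ker, div_eq_one]

theorem mem_B (g : Gp p) : g ∈ (sB : Subgroup (Gp p)) ↔ pr p g.c = 0 := by
  simp [sB, fB, MonoidHom.mem_ker]

theorem mem_H (g : Gp p) : g ∈ (sH : Subgroup (Gp p)) ↔ g.a = g.b ∧ pr p g.c = 0 := by
  simp [sH, fA, fB, MonoidHom.mem_ker, div_eq_one, Prod.ext_iff]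

theorem index_A : (sA : Subgroup (Gp p)).index = p := by
  have : (fA (p := p)).range = ⊤ := by
    rw [MonoidHom.range_eq_top]
    intro t
    exact ⟨⟨t.toAdd, 0, 0⟩, by simp [fA]⟩
  rw [sA, index_ker, this, card_top]; simp

theorem index_B : (sB : Subgroup (Gp p)).index = p := by
  have : (fB (p := p)).range = ⊤ := by
    rw [MonoidHom.range_eq_top]
    intro t
    obtain ⟨c, hc⟩ := pr_surj (p := p) t.toAdd
    exact ⟨⟨0, 0, c⟩, by simp [fB, hc]⟩
  rw [sB, index_ker, this, card_top]; simp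

theorem index_H : (sH : Subgroup (Gp p)).index = p ^ 2 := by
  have : ((fA (p := p)).prod fB).range = ⊤ := by
    rw [MonoidHom.range_eq_top]
    rintro ⟨s, t⟩
    obtain ⟨c, hc⟩ := pr_surj (p := p) t.toAdd
    exact ⟨⟨s.toAdd, 0, c⟩, by simp [fA, fB, hc]⟩
  rw [sH, index_ker, this, card_top]; simp [sq]

theorem H_le_A : (sH : Subgroup (Gp p)) ≤ sA := fun g hg => (mem_A g).mpr ((mem_H g).mp hg).1
theorem H_le_B : (sH : Subgroup (Gp p)) ≤ sB := fun g hg => (mem_B g).mpr ((mem_H g).mp hg).2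

theorem rel_of_index {K : Subgroup (Gp p)} (h : sH ≤ K) :
    (sH : Subgroup (Gp p)).relIndex K = p ↔ K.index = p := by
  have h1 := relIndex_mul_index h
  rw [index_H, sq] at h1
  have hpos := hp.out.pos
  constructor
  · intro h2; rw [h2] at h1; exact Nat.eq_of_mul_eq_mul_left hpos h1
  · intro h2; rw [h2] at h1; exact Nat.eq_of_mul_eq_mul_right hpos h1

theorem card_of_index {K : Subgroup (Gp p)} (h : K.index = p) : Nat.card K = p ^ 3 := by
  have h1 := K.card_mul_index
  rw [h, card_Gp, pow_succ] at h1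
  exact Nat.eq_of_mul_eq_mul_right hp.out.pos h1

theorem card_H : Nat.card (sH : Subgroup (Gp p)) = p ^ 2 := by
  have h1 := (sH : Subgroup (Gp p)).card_mul_index
  rw [index_H, card_Gp, show p ^ 4 = p ^ 2 * p ^ 2 by ring] at h1
  exact Nat.eq_of_mul_eq_mul_right (pow_pos hp.out.pos 2) h1

theorem comm_iff (g h : Gp p) : g * h = h * g ↔ g.a * h.b = h.a * g.b := by
  constructor
  · intro e
    have := congrArg Gp.c e
    simp only [mul_c] at this
    rw [add_comm h.c g.c, add_right_inj, ← sub_eq_zero, ← map_sub] at this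
    exact sub_eq_zero.mp (io_inj _ this)
  · intro e
    ext
    · simp [add_comm]
    · simp [add_comm]
    · simp only [mul_c, e, add_comm h.c g.c]

theorem lt_of_index {K : Subgroup (Gp p)} (h : sH ≤ K) (h2 : K.index = p) :
    (sH : Subgroup (Gp p)) < K := by
  refine lt_of_le_of_ne h ?_
  intro he
  have := index_H (p := p)
  rw [he, h2] at this
  have h1 := hp.out.one_lt
  nlinarith

theorem XA : XX p (sA : Subgroup (Gp p)) := by
  refine Or.inr ⟨card_of_index index_A, Or.inl ?_⟩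
  rintro ⟨x, hx⟩ ⟨y, hy⟩
  apply Subtype.ext
  show x * y = y * x
  rw [comm_iff, (mem_A x).mp hx, (mem_A y).mp hy, mul_comm]

theorem XB : XX p (sB : Subgroup (Gp p)) := by
  refine Or.inr ⟨card_of_index index_B, Or.inr ⟨⟨⟨1, 0, 0⟩, by simp [mem_B]⟩,
    ⟨⟨0, 1, 0⟩, by simp [mem_B]⟩, ?_, ?_, ?_⟩⟩
  · apply Subtype.ext
    simp only [SubmonoidClass.coe_pow, pow_eq]
    ext <;> simp
  · apply Subtype.ext
    simp only [SubmonoidClass.coe_pow, pow_eq]
    ext <;> simp
  · intro h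
    have h2 : (⟨1, 0, 0⟩ : Gp p) * ⟨0, 1, 0⟩ = ⟨0, 1, 0⟩ * ⟨1, 0, 0⟩ := congrArg Subtype.val h
    rw [comm_iff] at h2
    simp at h2

theorem A_ne_B : (sA : Subgroup (Gp p)) ≠ sB := by
  intro h
  have : (⟨1, 0, 0⟩ : Gp p) ∈ (sB : Subgroup (Gp p)) := by simp [mem_B]
  rw [← h, mem_A] at this
  simp at this

theorem two_aux : ∀ a b : ZMod 2, a ≠ b → a * b = 0 := by decide

theorem pow_B (x : Gp p) (hx : x ^ p = 1) (hab : x.a ≠ x.b) : pr p x.c = 0 := by
  have h1 := congrArg Gp.c hx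
  rw [pow_eq] at h1
  simp only [one_c] at h1
  rw [← io_pr, ← map_add] at h1
  have h2 := io_inj _ h1
  have h3 : ((p.choose 2 : ℕ) : ZMod p) * (x.a * x.b) = 0 := by
    by_cases h : p = 2
    · subst h
      rw [two_aux _ _ hab, mul_zero]
    · have h2p := hp.out.two_le
      have : p ∣ p.choose 2 := hp.out.dvd_choose_self two_ne_zero (by omega)
      rw [(ZMod.natCast_eq_zero_iff _ _).mpr this, zero_mul]
  rwa [h3, add_zero] at h2

theorem eq_of_between {G : Type*} [Group G] {H L K : Subgroup G} (h1 : H < L) (h2 : L ≤ K)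
    (h3 : H.relIndex K = p) : L = K := by
  have h4 := relIndex_mul_relIndex H L K h1.le h2
  rw [h3] at h4
  have h5 : H.relIndex L ≠ 1 := fun h => (not_le_of_gt h1) (relIndex_eq_one.mp h)
  have h6 : L.relIndex K = 1 := by
    rcases (Nat.dvd_prime hp.out).mp (Dvd.intro _ h4) with h | h
    · exact absurd h h5
    · rw [h] at h4
      exact Nat.eq_of_mul_eq_mul_left hp.out.pos (by rw [h4, mul_one])
  exact le_antisymm h2 (relIndex_eq_one.mp h6)

theorem classify (K : Subgroup (Gp p)) :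
    (sH < K ∧ XX p K ∧ (sH : Subgroup (Gp p)).relIndex K = p) ↔ (K = sA ∨ K = sB) := by
  constructor
  · rintro ⟨h1, h2, h3⟩
    have hc := card_of_index ((rel_of_index h1.le).mp h3)
    by_cases hA : K ≤ sA
    · exact Or.inl (eq_of_between h1 hA ((rel_of_index H_le_A).mpr index_A))
    right
    have h23 : p ^ 2 < p ^ 3 := Nat.pow_lt_pow_right hp.out.one_lt (by norm_num)
    have hx : ∃ x ∈ K, x ^ p = 1 ∧ x.a ≠ x.b := by
      rcases h2 with h2 | ⟨_, h2 | ⟨x, y, hx, hy, hxy⟩⟩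
      · omega
      · exfalso
        apply hA
        intro g hg
        have hu : (⟨1, 1, 0⟩ : Gp p) ∈ K := h1.le (by simp [mem_H])
        have h4 : g * ⟨1, 1, 0⟩ = ⟨1, 1, 0⟩ * g := congrArg Subtype.val (h2 ⟨g, hg⟩ ⟨_, hu⟩)
        rw [comm_iff] at h4
        rw [mem_A]; simpa using h4
      · by_contra hcon
        push Not at hcon
        apply hxy
        apply Subtype.ext
        show (x : Gp p) * y = y * x
        rw [comm_iff, hcon x x.2 (congrArg Subtype.val hx), hcon y y.2 (congrArg Subtype.val hy),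
          mul_comm]
    obtain ⟨x, hxK, hxp, hab⟩ := hx
    have hxB : x ∈ (sB : Subgroup (Gp p)) := (mem_B x).mpr (pow_B x hxp hab)
    have hlt : (sH : Subgroup (Gp p)) < K ⊓ sB := by
      refine lt_of_le_of_ne (le_inf h1.le H_le_B) ?_
      intro he
      have : x ∈ (sH : Subgroup (Gp p)) := by rw [he]; exact ⟨hxK, hxB⟩
      exact hab ((mem_H x).mp this).1
    have h5 := eq_of_between hlt inf_le_left h3
    have h6 := eq_of_between hlt inf_le_right ((rel_of_index H_le_B).mpr index_B)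
    rw [← h5, h6]
  · rintro (rfl | rfl)
    · exact ⟨lt_of_index H_le_A index_A, XA, (rel_of_index H_le_A).mpr index_A⟩
    · exact ⟨lt_of_index H_le_B index_B, XB, (rel_of_index H_le_B).mpr index_B⟩

theorem count : Nat.card {K : Subgroup (Gp p) //
    sH < K ∧ XX p K ∧ (sH : Subgroup (Gp p)).relIndex K = p} = 2 := by
  have : {K : Subgroup (Gp p) | sH < K ∧ XX p K ∧ (sH : Subgroup (Gp p)).relIndex K = p}
      = {sA, sB} := by
    ext K; simpa using classify K
  have h2 : ({sA, sB} : Set (Subgroup (Gp p))).ncard = 2 := Set.ncard_pair A_ne_B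
  rw [← this] at h2
  exact h2

end Pool.Agent.H31.SubX
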