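import Pool.Agent.H31.Count

open Finset

namespace Pool.Agent.H31.Sup

variable {V : Type}

def Cl (G : SimpleGraph V) {ι : Type} (y : ι → V) : Prop := ∀ i j, i ≠ j → G.Adj (y i) (y j)

noncomputable def cl (a : ℕ) (G : SimpleGraph V) : ℕ := {y : Fin a → V | Cl G y}.ncard

noncomputable def dd (G : SimpleGraph V) : ℕ := {p : V × V | G.Adj p.1 p.2}.ncard

open Classical in
noncomputable def ind (p : Prop) : ℝ := if p then 1 else 0

theorem ind_nonneg (p : Prop) : 0 ≤ ind p := by unfold ind; split_ifs <;> norm_num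
theorem ind_le (p : Prop) : ind p ≤ 1 := by unfold ind; split_ifs <;> norm_num
theorem ind_pos {p : Prop} (h : p) : ind p = 1 := by simp [ind, h]
theorem ind_neg {p : Prop} (h : ¬ p) : ind p = 0 := by simp [ind, h]

theorem nc_sum {X : Type} [Fintype X] (P : X → Prop) :
    (({x | P x}.ncard : ℕ) : ℝ) = ∑ x, ind (P x) := by
  classical
  rw [Set.ncard_eq_toFinset_card']
  simp [ind, sum_boole]

theorem restrict {α β Λ : Type} [Fintype α] [Fintype β] [Fintype Λ] [Fintype (β → Λ)] (γ : α → β)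
    (hγ : Function.Injective γ) (P : (α → Λ) → Prop) :
    (∑ x : β → Λ, ind (P (x ∘ γ))) * (Fintype.card Λ : ℝ) ^ Fintype.card α =
      ({y | P y}.ncard : ℕ) * (Fintype.card Λ : ℝ) ^ Fintype.card β := by
  rw [← nc_sum (fun x : β → Λ => P (x ∘ γ))]
  have := Pool.Agent.H31.Count.card_restrict γ hγ P
  rw [← Set.ncard_coe_finset, ← Set.ncard_coe_finset, coe_filter, coe_filter] at this
  simp only [mem_univ, true_and] at this
  exact_mod_cast this

theorem Cl.inj {G : SimpleGraph V} {ι : Type} {y : ι → V} (h : Cl G y) : Function.Injective y := by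
  intro i j e
  by_contra hn
  exact (h i j hn).ne e

theorem cl_eq [Finite V] (a : ℕ) (G : SimpleGraph V) :
    cl a G = a.factorial * (G.cliqueSet a).ncard := by
  classical
  have := Fintype.ofFinite V
  rw [cl, Set.ncard_eq_toFinset_card', ← SimpleGraph.coe_cliqueFinset, Set.ncard_coe_finset,
    card_eq_sum_card_fiberwise (f := fun y => univ.image y) (t := G.cliqueFinset a), mul_comm,
    ← smul_eq_mul, ← sum_const]
  · refine sum_congr rfl fun T hT => ?_
    rw [SimpleGraph.mem_cliqueFinset_iff] at hT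
    have e : Fintype.card (Fin a ↪ T) = a.factorial := by
      simp [hT.card_eq, Nat.descFactorial_self]
    rw [← e, ← card_univ]
    symm
    refine card_bij (fun f _ => fun i => (f i).1) ?_ ?_ ?_
    · intro f _
      have inj : Function.Injective fun i => (f i).1 := Subtype.val_injective.comp f.injective
      simp only [mem_filter, Set.mem_toFinset, Set.mem_ofPred_eq]
      refine ⟨fun i j hij => hT.isClique (f i).2 (f j).2 (inj.ne hij), ?_⟩
      refine eq_of_subset_of_card_le (fun v hv => ?_) ?_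
      · obtain ⟨i, -, rfl⟩ := mem_image.1 hv; exact (f i).2
      · rw [card_image_of_injective _ inj, hT.card_eq]; simp
    · intro f _ g _ h
      ext i; exact congrFun h i
    · intro y hy
      simp only [mem_filter, Set.mem_toFinset, Set.mem_ofPred_eq] at hy
      refine ⟨⟨fun i => ⟨y i, hy.2 ▸ mem_image_of_mem _ (mem_univ i)⟩, fun i j h => ?_⟩, mem_univ _, rfl⟩
      exact hy.1.inj (congrArg Subtype.val h)
  · intro y hy
    simp only [Set.coe_toFinset, Set.mem_ofPred_eq] at hy
    simp only [SimpleGraph.coe_cliqueFinset, SimpleGraph.mem_cliqueSet_iff]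
    refine ⟨?_, by rw [card_image_of_injective _ hy.inj]; simp⟩
    intro u hu v hv huv
    simp only [coe_image, coe_univ, Set.image_univ, Set.mem_range] at hu hv
    obtain ⟨i, rfl⟩ := hu
    obtain ⟨j, rfl⟩ := hv
    exact hy i j fun e => huv (by rw [e])

theorem dd_eq [Finite V] (G : SimpleGraph V) : dd G = 2 * G.edgeSet.ncard := by
  classical
  have := Fintype.ofFinite V
  rw [← SimpleGraph.coe_edgeFinset, Set.ncard_coe_finset, SimpleGraph.two_mul_card_edgeFinset, dd,
    ← Set.ncard_coe_finset]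
  congr 1
  ext p; simp

theorem free_iff [Finite V] (a : ℕ) (G : SimpleGraph V) :
    G.CliqueFree a ↔ ∀ y : Fin a → V, ¬ Cl G y := by
  rw [← SimpleGraph.cliqueSet_eq_empty_iff, ← Set.ncard_eq_zero]
  have : (G.cliqueSet a).ncard = 0 ↔ cl a G = 0 := by
    rw [cl_eq]; simp [Nat.factorial_ne_zero]
  rw [this, cl, Set.ncard_eq_zero, Set.eq_empty_iff_forall_notMem]; rfl

theorem cl_equiv {W : Type} (e : W ≃ V) (a : ℕ) (G : SimpleGraph V) : cl a (G.comap e) = cl a G :=
  Set.ncard_congr (fun y _ => e ∘ y) (fun _ h => h)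
    (fun _ _ _ _ h => e.injective.comp_left h)
    (fun y hy => ⟨e.symm ∘ y, fun i j h => by simpa using hy i j h, by ext i; simp⟩)

theorem dd_equiv {W : Type} (e : W ≃ V) (G : SimpleGraph V) : dd (G.comap e) = dd G :=
  Set.ncard_congr (fun p _ => (e p.1, e p.2)) (fun _ h => h)
    (fun p q _ _ h => by
      simp only [Prod.mk.injEq, EmbeddingLike.apply_eq_iff_eq] at h; exact Prod.ext h.1 h.2)
    (fun p hp => ⟨(e.symm p.1, e.symm p.2), by simpa using hp, by simp⟩)

theorem cl_blow (a t : ℕ) (G : SimpleGraph V) :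
    cl a (G.comap (Prod.fst : V × Fin t → V)) = cl a G * t ^ a := by
  have : t ^ a = (Set.univ : Set (Fin a → Fin t)).ncard := by simp [Set.ncard_univ]
  rw [this, cl, cl, ← Set.ncard_prod]
  refine Set.ncard_congr (fun y _ => (fun i => (y i).1, fun i => (y i).2)) (fun y h => ⟨h, trivial⟩)
    (fun y z _ _ h => ?_) (fun p hp => ⟨fun i => (p.1 i, p.2 i), hp.1, rfl⟩)
  simp only [Prod.mk.injEq] at h
  ext i
  · exact congrFun h.1 i
  · exact congrArg Fin.val (congrFun h.2 i)

theorem dd_blow (t : ℕ) (G : SimpleGraph V) :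
    dd (G.comap (Prod.fst : V × Fin t → V)) = dd G * t ^ 2 := by
  have : t ^ 2 = (Set.univ : Set (Fin t × Fin t)).ncard := by simp [Set.ncard_univ, sq]
  rw [this, dd, dd, ← Set.ncard_prod]
  refine Set.ncard_congr (fun y _ => ((y.1.1, y.2.1), (y.1.2, y.2.2))) (fun y h => ⟨h, trivial⟩)
    (fun y z _ _ h => ?_) (fun p hp => ⟨((p.1.1, p.2.1), (p.1.2, p.2.2)), hp.1, rfl⟩)
  simp only [Prod.mk.injEq] at h
  exact Prod.ext (Prod.ext h.1.1 h.2.1) (Prod.ext h.1.2 h.2.2)

/-- `G` together with `k` disjoint new edges -/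
def pad (G : SimpleGraph V) (k : ℕ) : SimpleGraph (V ⊕ Fin k × Bool) where
  Adj
    | .inl a, .inl b => G.Adj a b
    | .inr a, .inr b => a.1 = b.1 ∧ a.2 ≠ b.2
    | _, _ => False
  symm := ⟨by
    rintro (a | a) (b | b) h
    · exact h.symm
    · exact h
    · exact h
    · exact ⟨h.1.symm, h.2.symm⟩⟩
  loopless := ⟨by
    rintro (a | a) h
    · exact G.irrefl h
    · exact h.2 rfl⟩

theorem dd_pad [Finite V] (G : SimpleGraph V) (k : ℕ) : dd (pad G k) = dd G + 2 * k := by
  have e : {p : (V ⊕ Fin k × Bool) × (V ⊕ Fin k × Bool) | (pad G k).Adj p.1 p.2} =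
      (fun p : V × V => (Sum.inl p.1, Sum.inl p.2)) '' {p | G.Adj p.1 p.2} ∪
      (fun p : Fin k × Bool => (Sum.inr p, Sum.inr (p.1, !p.2))) '' Set.univ := by
    ext ⟨a | a, b | b⟩
    · simp [pad]
    · simp [pad]
    · simp [pad]
    · obtain ⟨a, c⟩ := a
      obtain ⟨b, d⟩ := b
      cases c <;> cases d <;> simp [pad]
  rw [dd, e, Set.ncard_union_eq, Set.ncard_image_of_injective, Set.ncard_image_of_injective]
  · simp [dd, Set.ncard_univ, mul_comm]
  · intro p q h; simp only [Prod.mk.injEq, Sum.inr.injEq] at h; exact h.1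
  · intro p q h; simp only [Prod.mk.injEq, Sum.inl.injEq] at h; exact Prod.ext h.1 h.2
  · rw [Set.disjoint_left]; rintro _ ⟨p, -, rfl⟩ ⟨q, -, h⟩; simp at h

theorem cl_pad [Finite V] (G : SimpleGraph V) (k a : ℕ) : cl a G ≤ cl a (pad G k) :=
  Set.ncard_le_ncard_of_injOn (fun y => Sum.inl ∘ y) (fun _ h => h)
    (fun _ _ _ _ h => Sum.inl_injective.comp_left h) (Set.toFinite _)

theorem free_pad (G : SimpleGraph V) (k a : ℕ) (h : ∀ y : Fin (a + 3) → V, ¬ Cl G y)
    (y : Fin (a + 3) → V ⊕ Fin k × Bool) : ¬ Cl (pad G k) y := by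
  intro hy
  by_cases h1 : ∀ i, ∃ v, y i = .inl v
  · choose z hz using h1
    exact h z fun i j hij => by have := hy i j hij; rwa [hz, hz] at this
  · push Not at h1
    obtain ⟨i, hi⟩ := h1
    have all : ∀ j, ∃ p, y j = .inr p := by
      intro j
      by_cases hj : i = j
      · subst hj
        rcases hy' : y i with v | p
        · exact absurd hy' (hi v)
        · exact ⟨p, rfl⟩
      · have := hy i j hj
        rcases hy1 : y i with v | p
        · exact absurd hy1 (hi v)
        · rcases hy2 : y j with w | q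
          · rw [hy1, hy2] at this; exact this.elim
          · exact ⟨q, rfl⟩
    choose z hz using all
    have a1 := hy ⟨0, by omega⟩ ⟨1, by omega⟩ (by simp)
    have a2 := hy ⟨0, by omega⟩ ⟨2, by omega⟩ (by simp)
    have a3 := hy ⟨1, by omega⟩ ⟨2, by omega⟩ (by simp)
    rw [hz, hz] at a1 a2 a3
    have b1 := a1.2; have b2 := a2.2; have b3 := a3.2
    revert b1 b2 b3
    cases (z ⟨0, by omega⟩).2 <;> cases (z ⟨1, by omega⟩).2 <;> cases (z ⟨2, by omega⟩).2 <;> simp

theorem transfer [Finite V] (G : SimpleGraph V) (a s m : ℕ) (h : ∀ y : Fin (a + 3) → V, ¬ Cl G y)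
    (hm : dd G ≤ 2 * m) : ∃ (n : ℕ) (H : SimpleGraph (Fin n)), H.edgeSet.ncard = m ∧
      H.CliqueFree (a + 3) ∧ cl s G ≤ cl s H := by
  have he := dd_eq G
  let e := (Finite.equivFin (V ⊕ Fin (m - G.edgeSet.ncard) × Bool)).symm
  refine ⟨_, (pad G (m - G.edgeSet.ncard)).comap e, ?_, ?_, ?_⟩
  · have := dd_eq ((pad G (m - G.edgeSet.ncard)).comap e)
    rw [dd_equiv, dd_pad] at this
    omega
  · rw [free_iff]
    exact fun y hy => free_pad G _ a h (e ∘ y) hy
  · rw [cl_equiv]; exact cl_pad G _ s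

end Pool.Agent.H31.Sup
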