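import Pool.Agent.H31.Sup1

open Finset

namespace Pool.Agent.H31.Sup

variable {V : Type}

theorem cl_le [Fintype V] (a : ℕ) (G : SimpleGraph V) : cl a G ≤ Fintype.card V ^ a := by
  have := Set.ncard_le_ncard (Set.subset_univ {y : Fin a → V | Cl G y})
  simpa [cl, Set.ncard_univ] using this

theorem dd_le [Fintype V] (G : SimpleGraph V) : dd G ≤ Fintype.card V ^ 2 := by
  have := Set.ncard_le_ncard (Set.subset_univ {p : V × V | G.Adj p.1 p.2})
  simpa [dd, Set.ncard_univ, sq] using this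

theorem good {q s b m T : ℕ} {W : ℝ} (hs : 2 ≤ s) (hT : 1 ≤ T) (hm : T ^ 2 * q ^ 2 ≤ 2 * m)
    (hW : ∀ (U : Type) [Finite U] (H : SimpleGraph U), (∀ y : Fin b → U, ¬ Cl H y) → dd H ≤ 2 * m →
      (cl s H : ℝ) ≤ W) (F : SimpleGraph (Fin q)) (hF : ∀ y : Fin b → Fin q, ¬ Cl F y) :
    (cl s F : ℝ) ^ 2 * (2 * m) ^ s ≤ ((1 + 1 / T) ^ s * W) ^ 2 * (dd F : ℝ) ^ s := by
  by_cases hD : dd F = 0
  · have : cl s F = 0 := by
      rw [cl, Set.ncard_eq_zero, Set.eq_empty_iff_forall_notMem]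
      intro y hy
      rw [dd, Set.ncard_eq_zero, Set.eq_empty_iff_forall_notMem] at hD
      exact hD (y ⟨0, by omega⟩, y ⟨1, by omega⟩) (hy _ _ (by simp))
    rw [this]; simp only [Nat.cast_zero, ne_eq, OfNat.ofNat_ne_zero, not_false_eq_true, zero_pow,
      zero_mul]; positivity
  have hD0 : 0 < dd F := Nat.pos_of_ne_zero hD
  have hDq : dd F ≤ q ^ 2 := by simpa using dd_le F
  set t := Nat.sqrt (2 * m / dd F) with ht
  have t1 : dd F * t ^ 2 ≤ 2 * m :=
    (Nat.mul_le_mul_left _ (Nat.sqrt_le' _)).trans (Nat.mul_div_le _ _)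
  have t2 : 2 * m ≤ (t + 1) ^ 2 * dd F := by
    have := Nat.lt_succ_sqrt' (2 * m / dd F)
    exact ((Nat.div_lt_iff_lt_mul hD0).1 this).le
  have t3 : T ≤ t := by
    rw [ht, Nat.le_sqrt', Nat.le_div_iff_mul_le hD0]
    exact (Nat.mul_le_mul_left _ hDq).trans hm
  have h1 := hW (Fin q × Fin t) (F.comap Prod.fst) (fun y hy => hF (Prod.fst ∘ y) hy)
    (by rw [dd_blow]; exact t1)
  rw [cl_blow] at h1
  push_cast at h1
  have hT' : (0 : ℝ) < T := by exact_mod_cast hT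
  have t3' : (T : ℝ) ≤ t := by exact_mod_cast t3
  have t4 : (t + 1 : ℝ) ≤ (1 + 1 / T) * t := by
    have : 1 ≤ (t : ℝ) / T := (one_le_div hT').2 t3'
    calc (t + 1 : ℝ) ≤ t + t / T := by linarith
      _ = _ := by ring
  have t5 : (cl s F : ℝ) * (t + 1) ^ s ≤ (1 + 1 / T) ^ s * W := by
    calc (cl s F : ℝ) * (t + 1) ^ s ≤ cl s F * ((1 + 1 / T) * t) ^ s := by gcongr
      _ = (1 + 1 / T) ^ s * (cl s F * t ^ s) := by rw [mul_pow]; ring
      _ ≤ _ := by gcongr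
  have t2' : (2 * m : ℝ) ≤ (t + 1) ^ 2 * dd F := by exact_mod_cast t2
  calc (cl s F : ℝ) ^ 2 * (2 * m) ^ s ≤ (cl s F : ℝ) ^ 2 * ((t + 1) ^ 2 * dd F) ^ s := by gcongr
    _ = (cl s F * (t + 1) ^ s) ^ 2 * (dd F : ℝ) ^ s := by
      rw [mul_pow, mul_pow, ← pow_mul, ← pow_mul, mul_comm s 2]; ring
    _ ≤ _ := by gcongr

theorem dd_pow [Finite V] (G : SimpleGraph V) (s : ℕ) :
    {y : Fin s × Bool → V | ∀ t, G.Adj (y (t, false)) (y (t, true))}.ncard = dd G ^ s := by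
  let E : {y : Fin s × Bool → V | ∀ t, G.Adj (y (t, false)) (y (t, true))} ≃
      (Fin s → {p : V × V | G.Adj p.1 p.2}) :=
    { toFun := fun y t => ⟨(y.1 (t, false), y.1 (t, true)), y.2 t⟩
      invFun := fun z => ⟨fun p => if p.2 then (z p.1).1.2 else (z p.1).1.1, fun t => (z t).2⟩
      left_inv := by rintro y; ext ⟨t, _ | _⟩ <;> simp
      right_inv := by intro z; ext t <;> simp }
  rw [← Nat.card_coe_set_eq, Nat.card_congr E, Nat.card_fun, Nat.card_coe_set_eq]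
  simp [dd]

theorem inj_count (ι : Type) [Fintype ι] (q : ℕ) [Fintype (ι → Fin q)] :
    ∑ g : ι → Fin q, ind (Function.Injective g) = (q.descFactorial (Fintype.card ι) : ℝ) := by
  classical
  rw [← nc_sum, ← Nat.card_coe_set_eq]
  have : Nat.card {g : ι → Fin q | Function.Injective g} = Nat.card (ι ↪ Fin q) :=
    Nat.card_congr (Equiv.subtypeInjectiveEquivEmbedding _ _)
  rw [this]; simp

theorem avg_ge {ι : Type} [Fintype ι] [Fintype V] (q : ℕ) [Fintype (ι → Fin q)]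
    (P : (ι → V) → Prop) :
    (q.descFactorial (Fintype.card ι) : ℝ) * ({y | P y}.ncard : ℕ) * (Fintype.card V : ℝ) ^ q ≤
      (∑ x : Fin q → V, ∑ g : ι → Fin q, ind (P (x ∘ g))) * (Fintype.card V : ℝ) ^ Fintype.card ι := by
  rw [sum_comm, sum_mul, ← inj_count, sum_mul, sum_mul]
  refine sum_le_sum fun g _ => ?_
  by_cases hg : Function.Injective g
  · rw [restrict g hg, ind_pos hg]; simp
  · rw [ind_neg hg, zero_mul, zero_mul]
    exact mul_nonneg (sum_nonneg fun _ _ => ind_nonneg _) (by positivity)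

theorem avg_le {ι : Type} [Fintype ι] [Fintype V] (q : ℕ) [Fintype (ι → Fin q)]
    (P : (ι → V) → Prop) (c : ℝ) (hc : ∀ g : ι → Fin q, ¬ Function.Injective g →
      ∀ x : Fin q → V, ind (P (x ∘ g)) ≤ c) :
    (∑ x : Fin q → V, ∑ g : ι → Fin q, ind (P (x ∘ g))) * (Fintype.card V : ℝ) ^ Fintype.card ι ≤
      (q : ℝ) ^ Fintype.card ι * ({y | P y}.ncard : ℕ) * (Fintype.card V : ℝ) ^ q +
      ((q : ℝ) ^ Fintype.card ι - q.descFactorial (Fintype.card ι)) * c *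
        (Fintype.card V : ℝ) ^ q * (Fintype.card V : ℝ) ^ Fintype.card ι := by
  have e : (q : ℝ) ^ Fintype.card ι = ∑ g : ι → Fin q, (1 : ℝ) := by
    rw [sum_const, card_univ, ← Nat.card_eq_fintype_card (α := ι → Fin q), Nat.card_fun]; simp
  rw [sum_comm, sum_mul, ← inj_count, e, ← sum_sub_distrib, sum_mul, sum_mul, sum_mul, sum_mul,
    sum_mul, ← sum_add_distrib]
  refine sum_le_sum fun g _ => ?_
  by_cases hg : Function.Injective g
  · rw [restrict g hg, ind_pos hg]; simp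
  · rw [ind_neg hg]
    have : ∑ x : Fin q → V, ind (P (x ∘ g)) ≤ c * (Fintype.card V : ℝ) ^ q := by
      refine (sum_le_sum fun x _ => hc g hg x).trans ?_
      simp [mul_comm]
    have h2 : (0 : ℝ) ≤ 1 * ({y | P y}.ncard : ℕ) * (Fintype.card V : ℝ) ^ q := by positivity
    have h3 := mul_le_mul_of_nonneg_right this
      (show (0 : ℝ) ≤ (Fintype.card V : ℝ) ^ Fintype.card ι by positivity)
    linarith

theorem sample [Fintype V] (G : SimpleGraph V) {q s b m T : ℕ} {W κ ν μ : ℝ} (hs : 2 ≤ s)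
    (hT : 1 ≤ T) (hm : T ^ 2 * q ^ 2 ≤ 2 * m) (hq : 0 < q) (hN : 0 < Fintype.card V) (hW0 : 0 ≤ W)
    (hW : ∀ (U : Type) [Finite U] (H : SimpleGraph U), (∀ y : Fin b → U, ¬ Cl H y) → dd H ≤ 2 * m →
      (cl s H : ℝ) ≤ W) (hD : dd G ≤ 2 * m) (hκ : κ * q ^ s ≤ q.descFactorial s)
    (hν : (q : ℝ) ^ (s * 2) - q.descFactorial (s * 2) ≤ ν * q ^ (s * 2)) (hμ0 : 0 ≤ μ)
    (hμ : ν * (Fintype.card V : ℝ) ^ (s * 2) ≤ μ * (2 * m) ^ s) :
    κ * cl s G * (Fintype.card V : ℝ) ^ b ≤ (1 + 1 / T) ^ s * W * (1 + μ) * (Fintype.card V : ℝ) ^ b +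
      q ^ b * cl b G * (Fintype.card V : ℝ) ^ s := by
  set N : ℝ := (Fintype.card V : ℝ) with hNd
  have N0 : 0 < N := by rw [hNd]; exact_mod_cast hN
  have q0 : (0 : ℝ) < q := by exact_mod_cast hq
  have m0 : (0 : ℝ) < 2 * m := by
    have : 0 < T ^ 2 * q ^ 2 := by positivity
    exact_mod_cast this.trans_le hm
  set β : ℝ := (1 + 1 / T) ^ s * W with hβ
  have β0 : 0 ≤ β := by positivity
  let bad : (Fin q → V) → Prop := fun x => ∃ g : Fin b → Fin q, Cl G (x ∘ g)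
  let c : (Fin q → V) → ℝ := fun x => cl s (G.comap x)
  have hc : ∀ x, c x = ∑ g : Fin s → Fin q, ind (Cl G (x ∘ g)) := fun x => nc_sum _
  have S1 := avg_ge (V := V) (ι := Fin s) q (Cl G)
  simp only [← hc, Fintype.card_fin, ← hNd] at S1
  have S2 := avg_le (V := V) (ι := Fin b) q (Cl G) 0 fun g hg x =>
    (ind_neg fun h => hg (Function.Injective.of_comp h.inj)).le
  simp only [Fintype.card_fin, ← hNd, mul_zero, zero_mul, add_zero] at S2
  have S2' : ∑ x, ind (bad x) ≤ ∑ x : Fin q → V, ∑ g : Fin b → Fin q, ind (Cl G (x ∘ g)) := by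
    refine sum_le_sum fun x _ => ?_
    by_cases h : bad x
    · obtain ⟨g, hg⟩ := id h
      rw [ind_pos h, ← ind_pos hg]
      exact single_le_sum (f := fun g : Fin b → Fin q => ind (Cl G (x ∘ g)))
        (fun _ _ => ind_nonneg _) (mem_univ g)
    · rw [ind_neg h]; exact sum_nonneg fun _ _ => ind_nonneg _
  have S3 := avg_le (V := V) (ι := Fin s × Bool) q
    (fun y => ∀ t, G.Adj (y (t, false)) (y (t, true))) 1 fun g hg x => ind_le _
  have hd : ∀ x : Fin q → V, ∑ g : Fin s × Bool → Fin q,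
      ind (∀ t, G.Adj ((x ∘ g) (t, false)) ((x ∘ g) (t, true))) = (dd (G.comap x) : ℝ) ^ s := by
    intro x
    rw [← Nat.cast_pow, ← dd_pow]; exact (nc_sum _).symm
  simp only [hd, dd_pow, Fintype.card_prod, Fintype.card_fin, Fintype.card_bool, ← hNd, mul_one] at S3
  have hD' : (dd G : ℝ) ≤ 2 * m := by exact_mod_cast hD
  have S3' : (∑ x : Fin q → V, (dd (G.comap x) : ℝ) ^ s) * N ^ (s * 2) ≤
      N ^ q * (q ^ s * (1 + μ)) ^ 2 * (2 * m) ^ s := by
    refine S3.trans ?_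
    have a1 : ((dd G ^ s : ℕ) : ℝ) ≤ (2 * m) ^ s := by push_cast; gcongr
    have a2 : ((q : ℝ) ^ (s * 2) - q.descFactorial (s * 2)) * N ^ q * N ^ (s * 2) ≤
        q ^ (s * 2) * (μ * (2 * m) ^ s) * N ^ q := by
      calc _ ≤ ν * q ^ (s * 2) * N ^ q * N ^ (s * 2) := by gcongr
        _ = q ^ (s * 2) * (ν * N ^ (s * 2)) * N ^ q := by ring
        _ ≤ _ := by gcongr
    have a3 : (q : ℝ) ^ (s * 2) * ((dd G ^ s : ℕ) : ℝ) * N ^ q ≤ q ^ (s * 2) * (2 * m) ^ s * N ^ q := by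
      gcongr
    have a4 : 1 + μ ≤ (1 + μ) ^ 2 := by nlinarith
    calc _ ≤ q ^ (s * 2) * (2 * m) ^ s * N ^ q + q ^ (s * 2) * (μ * (2 * m) ^ s) * N ^ q := by
          linarith
      _ = N ^ q * (q ^ (s * 2) * (1 + μ)) * (2 * m) ^ s := by ring
      _ ≤ N ^ q * (q ^ (s * 2) * (1 + μ) ^ 2) * (2 * m) ^ s := by gcongr
      _ = _ := by ring
  set Sg := ∑ x, c x * ind (¬ bad x) with hSg
  have S4 : ∑ x, c x ≤ Sg + q ^ s * ∑ x, ind (bad x) := by
    rw [hSg, mul_sum, ← sum_add_distrib]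
    refine sum_le_sum fun x _ => ?_
    by_cases h : bad x
    · rw [ind_pos h, ind_neg (not_not.2 h)]
      have : c x ≤ (q : ℝ) ^ s := by
        have := cl_le s (G.comap x)
        simp only [Fintype.card_fin] at this
        simp only [c]; exact_mod_cast this
      linarith
    · rw [ind_neg h, ind_pos h]; simp
  have S5 : Sg ^ 2 * (2 * m) ^ s ≤ N ^ q * (β ^ 2 * ∑ x : Fin q → V, (dd (G.comap x) : ℝ) ^ s) := by
    have h1 := sq_sum_le_card_mul_sum_sq (s := univ) (f := fun x => c x * ind (¬ bad x))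
    have e : ((univ : Finset (Fin q → V)).card : ℝ) = N ^ q := by simp [hNd]
    rw [e, ← hSg] at h1
    have h2 : (∑ x, (c x * ind (¬ bad x)) ^ 2) * (2 * m) ^ s ≤
        β ^ 2 * ∑ x : Fin q → V, (dd (G.comap x) : ℝ) ^ s := by
      rw [sum_mul, mul_sum]
      refine sum_le_sum fun x _ => ?_
      by_cases h : bad x
      · rw [ind_neg (not_not.2 h)]
        simp only [mul_zero, ne_eq, OfNat.ofNat_ne_zero, not_false_eq_true, zero_pow, zero_mul]
        positivity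
      · rw [ind_pos h, mul_one]
        exact good hs hT hm hW _ fun y hy => h ⟨y, hy⟩
    calc Sg ^ 2 * (2 * m) ^ s ≤ N ^ q * (∑ x, (c x * ind (¬ bad x)) ^ 2) * (2 * m) ^ s := by gcongr
      _ = N ^ q * ((∑ x, (c x * ind (¬ bad x)) ^ 2) * (2 * m) ^ s) := by ring
      _ ≤ _ := by gcongr
  have S6 : Sg * N ^ s ≤ N ^ q * β * (q ^ s * (1 + μ)) := by
    refine abs_le_of_sq_le_sq' ?_ (by positivity) |>.2
    refine le_of_mul_le_mul_right ?_ (show (0 : ℝ) < (2 * m) ^ s by positivity)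
    calc (Sg * N ^ s) ^ 2 * (2 * m) ^ s = (Sg ^ 2 * (2 * m) ^ s) * N ^ (s * 2) := by
          rw [mul_pow, ← pow_mul]; ring
      _ ≤ N ^ q * (β ^ 2 * ∑ x : Fin q → V, (dd (G.comap x) : ℝ) ^ s) * N ^ (s * 2) := by gcongr
      _ = N ^ q * β ^ 2 * ((∑ x : Fin q → V, (dd (G.comap x) : ℝ) ^ s) * N ^ (s * 2)) := by ring
      _ ≤ N ^ q * β ^ 2 * (N ^ q * (q ^ s * (1 + μ)) ^ 2 * (2 * m) ^ s) := by gcongr
      _ = _ := by ring
  have S7 : (∑ x, ind (bad x)) * N ^ b ≤ q ^ b * cl b G * N ^ q :=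
    (mul_le_mul_of_nonneg_right S2' (by positivity)).trans S2
  refine le_of_mul_le_mul_right ?_ (show (0 : ℝ) < q ^ s * N ^ q by positivity)
  calc κ * cl s G * N ^ b * (q ^ s * N ^ q) = (κ * q ^ s) * cl s G * N ^ q * N ^ b := by ring
    _ ≤ (q.descFactorial s : ℝ) * cl s G * N ^ q * N ^ b := by gcongr
    _ ≤ (∑ x, c x) * N ^ s * N ^ b := mul_le_mul_of_nonneg_right S1 (by positivity)
    _ ≤ (Sg + q ^ s * ∑ x, ind (bad x)) * N ^ s * N ^ b := by gcongr
    _ = Sg * N ^ s * N ^ b + q ^ s * N ^ s * ((∑ x, ind (bad x)) * N ^ b) := by ring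
    _ ≤ N ^ q * β * (q ^ s * (1 + μ)) * N ^ b + q ^ s * N ^ s * (q ^ b * cl b G * N ^ q) := by gcongr
    _ = _ := by ring

noncomputable def dg (G : SimpleGraph V) (v : V) : ℕ := {w | G.Adj v w}.ncard

theorem sum_dg [Fintype V] (G : SimpleGraph V) : ∑ v, (dg G v : ℝ) = dd G := by
  rw [dd, nc_sum, Fintype.sum_prod_type]
  exact sum_congr rfl fun v _ => nc_sum _

theorem card_high [Fintype V] (G : SimpleGraph V) (τ : ℝ) [Fintype {v // τ < dg G v}] :
    (Fintype.card {v // τ < dg G v} : ℝ) * τ ≤ dd G := by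
  rw [← sum_dg, ← Nat.card_eq_fintype_card,
    show Nat.card {v // τ < dg G v} = {v | τ < dg G v}.ncard from Nat.card_coe_set_eq _, nc_sum, sum_mul]
  refine sum_le_sum fun v _ => ?_
  by_cases h : τ < dg G v
  · rw [ind_pos h]; linarith
  · rw [ind_neg h]; simp

theorem through [Fintype V] (G : SimpleGraph V) (s : ℕ) (i : Fin (s + 1)) (v : V) :
    {y : Fin (s + 1) → V | Cl G y ∧ y i = v}.ncard ≤ dg G v ^ s := by
  have e : dg G v ^ s = Nat.card (Fin s → {w | G.Adj v w}) := by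
    rw [Nat.card_fun, Nat.card_coe_set_eq]; simp [dg]
  rw [e, ← Nat.card_coe_set_eq]
  refine Nat.card_le_card_of_injective
    (fun y j => ⟨y.1 (i.succAbove j), by
      have := y.2.1 _ _ (Fin.succAbove_ne i j).symm
      rwa [y.2.2] at this⟩) ?_
  intro y z h
  ext j
  refine Fin.succAboveCases i ?_ (fun k => ?_) j
  · rw [y.2.2, z.2.2]
  · exact congrArg Subtype.val (congrFun h k)

theorem low [Fintype V] (G : SimpleGraph V) (s : ℕ) (τ : ℝ) (hτ : 0 ≤ τ) :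
    (cl (s + 2) G : ℝ) ≤ cl (s + 2) (G.comap (Subtype.val : {v // τ < dg G v} → V)) +
      (s + 2) * (τ ^ s * dd G) := by
  classical
  have e1 : cl (s + 2) (G.comap (Subtype.val : {v // τ < dg G v} → V)) =
      {y : Fin (s + 2) → V | Cl G y ∧ ∀ i, τ < dg G (y i)}.ncard :=
    Set.ncard_congr (fun y _ => Subtype.val ∘ y) (fun y h => ⟨h, fun i => (y i).2⟩)
      (fun _ _ _ _ h => Subtype.val_injective.comp_left h)
      (fun y hy => ⟨fun i => ⟨y i, hy.2 i⟩, hy.1, rfl⟩)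
  have e2 : ∀ (i : Fin (s + 2)) (v : V), ∑ y : Fin (s + 2) → V, ind (Cl G y ∧ y i = v ∧ ¬ τ < dg G v) ≤
      τ ^ s * dg G v := by
    intro i v
    by_cases h : τ < dg G v
    · rw [sum_eq_zero fun y _ => ind_neg fun h' => h'.2.2 h]; positivity
    · have : ((dg G v : ℕ) : ℝ) ^ (s + 1) ≤ τ ^ s * dg G v := by
        rw [pow_succ]; gcongr; exact not_lt.1 h
      refine le_trans ?_ this
      rw [← nc_sum]
      simp only [h, not_false_eq_true, and_true]
      exact_mod_cast through G (s + 1) i v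
  rw [e1, cl, nc_sum, nc_sum, ← sum_dg, mul_sum]
  calc _ ≤ ∑ y : Fin (s + 2) → V, (ind (Cl G y ∧ ∀ i, τ < dg G (y i)) +
        ∑ i, ∑ v, ind (Cl G y ∧ y i = v ∧ ¬ τ < dg G v)) := by
        refine sum_le_sum fun y _ => ?_
        have n1 : ∀ i, 0 ≤ ∑ v, ind (Cl G y ∧ y i = v ∧ ¬ τ < dg G v) :=
          fun i => sum_nonneg fun _ _ => ind_nonneg _
        by_cases h : Cl G y
        · by_cases h2 : ∀ i, τ < dg G (y i)
          · rw [ind_pos h, ind_pos ⟨h, h2⟩]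
            have := sum_nonneg fun i (_ : i ∈ univ) => n1 i
            linarith
          · push Not at h2
            obtain ⟨i, hi⟩ := h2
            have a := single_le_sum (f := fun i => ∑ v, ind (Cl G y ∧ y i = v ∧ ¬ τ < dg G v))
              (fun i _ => n1 i) (mem_univ i)
            have b := single_le_sum (f := fun v => ind (Cl G y ∧ y i = v ∧ ¬ τ < dg G v))
              (fun _ _ => ind_nonneg _) (mem_univ (y i))
            have c := ind_pos (show Cl G y ∧ y i = y i ∧ ¬ τ < dg G (y i) from ⟨h, rfl, not_lt.2 hi⟩)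
            have d := ind_nonneg (Cl G y ∧ ∀ i, τ < dg G (y i))
            rw [ind_pos h]
            have b' := c.symm.le.trans b
            linarith
        · rw [ind_neg h]
          exact add_nonneg (ind_nonneg _) (sum_nonneg fun i _ => n1 i)
    _ ≤ _ := by
        rw [sum_add_distrib, sum_comm]
        gcongr
        calc _ ≤ ∑ _i : Fin (s + 2), ∑ v, τ ^ s * (dg G v : ℝ) := by
              refine sum_le_sum fun i _ => ?_
              rw [sum_comm]
              exact sum_le_sum fun v _ => e2 i v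
          _ = _ := by simp

theorem desc_ge (k : ℕ) (γ : ℝ) (hγ : 0 < γ) :
    ∃ q0 : ℕ, ∀ q ≥ q0, (1 - γ) * (q : ℝ) ^ k ≤ q.descFactorial k := by
  obtain ⟨q0, h0⟩ := exists_nat_ge ((k : ℝ) * k / γ)
  refine ⟨q0 + k + 1, fun q hq => ?_⟩
  have q0' : (0 : ℝ) < q := by exact_mod_cast (show 0 < q by omega)
  have hk : (k : ℝ) ≤ q := by exact_mod_cast (show k ≤ q by omega)
  have h1 : (((q + 1 - k) ^ k : ℕ) : ℝ) ≤ q.descFactorial k := by
    exact_mod_cast Nat.pow_sub_le_descFactorial q k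
  rw [Nat.cast_pow, Nat.cast_sub (by omega)] at h1
  push_cast at h1
  have h2 : 1 + (k : ℝ) * (-(k / q)) ≤ (1 + (-(k / q))) ^ k :=
    one_add_mul_le_pow (by have := (div_le_one q0').2 hk; linarith) k
  have h3 : (k : ℝ) * (k / q) ≤ γ := by
    have : (q0 : ℝ) ≤ q := by exact_mod_cast (show q0 ≤ q by omega)
    rw [← mul_div_assoc, div_le_iff₀ q0']
    rw [div_le_iff₀ hγ] at h0
    nlinarith
  calc (1 - γ) * (q : ℝ) ^ k ≤ (1 + (-(k / q))) ^ k * (q : ℝ) ^ k := by gcongr; linarith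
    _ = ((q : ℝ) - k) ^ k := by rw [← mul_pow]; congr 1; field_simp; ring
    _ ≤ (q + 1 - k) ^ k := by gcongr <;> linarith
    _ ≤ _ := h1

theorem ex_T (s : ℕ) (γ : ℝ) (hγ : 0 < γ) : ∃ T : ℕ, 1 ≤ T ∧ (1 + 1 / (T : ℝ)) ^ s ≤ 1 + γ := by
  have h : Filter.Tendsto (fun T : ℕ => (1 + 1 / (T : ℝ)) ^ s) Filter.atTop (nhds ((1 + 0) ^ s)) :=
    (tendsto_const_nhds.add tendsto_one_div_atTop_nhds_zero_nat).pow s
  simp only [add_zero, one_pow] at h
  obtain ⟨T, h1, h2⟩ := ((Filter.eventually_ge_atTop 1).and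
    (h.eventually (ge_mem_nhds (show (1 : ℝ) < 1 + γ by linarith)))).exists
  exact ⟨T, h1, h2⟩

end Pool.Agent.H31.Sup
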