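import Mathlib
import Pool.Agent.H31.SatDefs

set_option autoImplicit false
open SimpleGraph Finset Pool.Agent.H31.SatDefs

namespace Pool.Agent.H31.Theta

variable {V : Type} {G : SimpleGraph V}

def PS (G : SimpleGraph V) (k : ℕ) (g : ℕ → V) : Prop :=
  (∀ i, g (i + k) = g i) ∧ (∀ i d, 0 < d → d < k → g i ≠ g (i + d)) ∧ ∀ i, G.Adj (g i) (g (i + 1))

theorem of_seq {k : ℕ} (hk : 3 ≤ k) (f : ℕ → V) (h1 : ∀ i j, i < j → j < k → f i ≠ f j)
    (h2 : ∀ i, i + 1 < k → G.Adj (f i) (f (i + 1))) (h3 : G.Adj (f (k - 1)) (f 0)) :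
    cycleGraph k ⊑ G := by
  refine ⟨⟨⟨fun i => f i, ?_⟩, ?_⟩⟩
  · have key : ∀ a b : Fin k, (a - b).val = 1 → G.Adj (f a) (f b) := by
      intro a b h
      have ha := a.2
      have hb := b.2
      rcases le_or_gt b a with l | l
      · rw [Fin.sub_val_of_le l] at h
        have : a.val = b + 1 := by omega
        rw [this]; exact (h2 _ (by omega)).symm
      · rw [Fin.coe_sub_iff_lt.mpr l] at h
        have l' : a.val < b.val := l
        have e1 : a.val = 0 := by omega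
        have e2 : b.val = k - 1 := by omega
        rw [e1, e2]; exact h3.symm
    intro a b h
    rcases cycleGraph_adj'.mp h with h | h
    exacts [key _ _ h, (key _ _ h).symm]
  · intro a b h
    rcases lt_trichotomy a b with l | l | l
    · exact absurd h (h1 _ _ l b.2)
    · exact l
    · exact absurd h.symm (h1 _ _ l a.2)

theorem ps_of_seq {k : ℕ} (hk : 3 ≤ k) (f : ℕ → V) (h1 : ∀ i j, i < j → j < k → f i ≠ f j)
    (h2 : ∀ i, i + 1 < k → G.Adj (f i) (f (i + 1))) (h3 : G.Adj (f (k - 1)) (f 0)) :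
    PS G k fun i => f (i % k) := by
  refine ⟨fun i => by simp, fun i d d0 dk => ?_, fun i => ?_⟩
  · have a := Nat.mod_lt i (show 0 < k by omega)
    show f (i % k) ≠ f ((i + d) % k)
    rw [← Nat.mod_add_mod]
    rcases lt_or_ge (i % k + d) k with l | l
    · rw [Nat.mod_eq_of_lt l]; exact h1 _ _ (by omega) l
    · rw [Nat.mod_eq_sub_mod l, Nat.mod_eq_of_lt (show i % k + d - k < k by omega)]
      exact (h1 _ _ (by omega) a).symm
  · have a := Nat.mod_lt i (show 0 < k by omega)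
    show G.Adj (f (i % k)) (f ((i + 1) % k))
    rw [← Nat.mod_add_mod]
    rcases lt_or_ge (i % k + 1) k with l | l
    · rw [Nat.mod_eq_of_lt l]; exact h2 _ l
    · have e : i % k = k - 1 := by omega
      rw [e, show k - 1 + 1 = k by omega, Nat.mod_self]; exact h3

theorem ps_of {k : ℕ} (hk : 3 ≤ k) (h : cycleGraph k ⊑ G) : ∃ g, PS G k g := by
  obtain ⟨f⟩ := h
  refine ⟨_, ps_of_seq hk (fun i => if h : i < k then f ⟨i, h⟩ else f ⟨0, by omega⟩) ?_ ?_ ?_⟩
  · intro i j ij jk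
    simp only [dif_pos jk, dif_pos (ij.trans jk)]
    intro e
    have := congrArg Fin.val (f.injective e)
    simp only at this; omega
  · intro i h
    simp only [dif_pos h, dif_pos (show i < k by omega)]
    refine f.toHom.map_adj (cycleGraph_adj'.mpr (Or.inr ?_))
    rw [Fin.sub_val_of_le (by simp [Fin.le_def])]; simp
  · simp only [dif_pos (show k - 1 < k by omega), dif_pos (show 0 < k by omega)]
    refine f.toHom.map_adj (cycleGraph_adj'.mpr (Or.inr ?_))
    rw [Fin.coe_sub_iff_lt.mpr (by simp [Fin.lt_def]; omega)]; simp only; omega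

theorem chord {k : ℕ} {g : ℕ → V} (h : PS G k g) (s d : ℕ) (d2 : 2 ≤ d) (dk : d < k) :
    cycleGraph (d + 1) ⊑ G ⊔ edge (g s) (g (s + d)) := by
  refine of_seq (by omega) (fun i => g (s + i)) (fun i j ij jd => ?_) (fun i _ => Or.inl (h.2.2 _)) ?_
  · have := h.2.1 (s + i) (j - i) (by omega) (by omega)
    rwa [show s + i + (j - i) = s + j by omega] at this
  · right
    rw [edge_adj]
    exact ⟨Or.inr ⟨rfl, rfl⟩, (h.2.1 s d (by omega) dk).symm⟩

/-! ### lower bound -/

theorem path_of {k : ℕ} (hk : 3 ≤ k) {x y : V} (h : cycleGraph k ⊑ G ⊔ edge x y)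
    (hn : ¬ cycleGraph k ⊑ G) : ∃ f : ℕ → V, (∀ i j, i < j → j < k → f i ≠ f j) ∧
      (∀ i, i + 1 < k → G.Adj (f i) (f (i + 1))) ∧
      (f 0 = x ∧ f (k - 1) = y ∨ f 0 = y ∧ f (k - 1) = x) := by
  obtain ⟨g, h1, h2, h3⟩ := ps_of hk h
  have inj : ∀ s i j, i < j → j < k → g (s + i) ≠ g (s + j) := fun s i j ij jk => by
    have := h2 (s + i) (j - i) (by omega) (by omega)
    rwa [show s + i + (j - i) = s + j by omega] at this
  by_cases ha : ∀ i, G.Adj (g i) (g (i + 1))
  · refine absurd (of_seq hk g (fun i j a b => by simpa using inj 0 i j a b) (fun i _ => ha i) ?_) hn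
    have := ha (k - 1)
    rwa [show k - 1 + 1 = 0 + k by omega, h1] at this
  push Not at ha
  obtain ⟨s, hs⟩ := ha
  have e1 := ((edge_adj ..).mp ((h3 s).resolve_left hs)).1
  have e2 : g (s + 1 + (k - 1)) = g s := by rw [show s + 1 + (k - 1) = s + k by omega, h1]
  refine ⟨fun i => g (s + 1 + i), inj _, fun i hi => ?_, ?_⟩
  · refine (h3 (s + 1 + i)).resolve_right fun he => ?_
    have e3 := ((edge_adj ..).mp he).1
    have n1 := inj (s + 1) i (k - 1) (by omega) (by omega)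
    have n2 := inj (s + 1) 0 (i + 1) (by omega) (by omega)
    rw [e2] at n1
    rcases Nat.eq_zero_or_pos i with rfl | ip
    · have n3 := inj (s + 1) 1 (k - 1) (by omega) (by omega)
      rw [e2] at n3
      simp only [add_zero] at *
      rcases e1 with ⟨a, b⟩ | ⟨a, b⟩ <;> rcases e3 with ⟨c, d⟩ | ⟨c, d⟩ <;> simp_all
    · have n3 := inj (s + 1) 0 i ip (by omega)
      simp only [add_zero] at *
      rcases e1 with ⟨a, b⟩ | ⟨a, b⟩ <;> rcases e3 with ⟨c, d⟩ | ⟨c, d⟩ <;> simp_all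
  · simp only [add_zero, e2]; tauto

theorem no4 (h : ¬ HasCyc G (Set.Ici 4)) {a b c d : V} (ab : G.Adj a b) (bc : G.Adj b c)
    (cd : G.Adj c d) (da : G.Adj d a) (ac : a ≠ c) (bd : b ≠ d) : False := by
  refine h ⟨4, show 4 ≤ 4 from le_rfl, of_seq (by norm_num) (fun i => [a, b, c, d].getD i a) ?_ ?_ da⟩
  · intro i j ij j4
    have := ab.ne; have := bc.ne; have := cd.ne; have := da.ne.symm
    interval_cases j <;> interval_cases i <;> simpa
  · intro i h
    have : i < 3 := by omega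
    interval_cases i <;> simpa

theorem matching (h : Saturated G (Set.Ici 4)) {x y z : V} (xz : G.Adj x z) (yz : G.Adj y z)
    (hx : ∀ w, G.Adj w x → ¬ G.Adj w z) (hy : ∀ w, G.Adj w y → ¬ G.Adj w z) : x = y := by
  classical
  by_contra xy
  obtain ⟨k, hk, hc⟩ := h.2 x y xy fun a => hy x a xz
  have hk : 4 ≤ k := hk
  obtain ⟨f, f1, f2, f3⟩ := path_of (by omega) hc fun a => h.1 ⟨k, hk, a⟩
  wlog e : f 0 = x ∧ f (k - 1) = y generalizing x y
  · exact this yz xz hy hx (Ne.symm xy) (by rwa [edge_comm]) f3.symm (f3.resolve_left e)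
  obtain ⟨e0, e1⟩ := e
  by_cases hz : ∃ t < k, f t = z
  · obtain ⟨t, tk, ft⟩ := hz
    have t0 : t ≠ 0 := by rintro rfl; exact xz.ne (e0.symm.trans ft)
    have t1 : t ≠ k - 1 := by rintro rfl; exact yz.ne (e1.symm.trans ft)
    rcases (show t = 1 ∨ t = 2 ∨ 3 ≤ t by omega) with rfl | rfl | t3
    · rcases (show k = 4 ∨ 5 ≤ k by omega) with rfl | k5
      · exact hy (f 2) (e1 ▸ f2 2 (by omega)) (ft ▸ (f2 1 (by omega)).symm)
      · refine h.1 ⟨k - 1, show 4 ≤ k - 1 by omega, of_seq (by omega) (fun i => f (i + 1))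
          (fun i j a b => f1 _ _ (by omega) (by omega)) (fun i a => f2 _ (by omega)) ?_⟩
        rw [show k - 1 - 1 + 1 = k - 1 by omega, e1, zero_add, ft]; exact yz
    · exact hx (f 1) (e0 ▸ (f2 0 (by omega)).symm) (ft ▸ f2 1 (by omega))
    · refine h.1 ⟨t + 1, show 4 ≤ t + 1 by omega, of_seq (by omega) f
        (fun i j a b => f1 _ _ a (by omega)) (fun i a => f2 _ (by omega)) ?_⟩
      rw [Nat.add_sub_cancel, ft, e0]; exact xz.symm
  · push Not at hz
    refine h.1 ⟨k + 1, show 4 ≤ k + 1 by omega, of_seq (by omega)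
      (fun i => if i < k then f i else z) (fun i j a b => ?_) (fun i a => ?_) ?_⟩
    · rw [if_pos (show i < k by omega)]
      split_ifs with c
      exacts [f1 _ _ a c, hz _ (by omega)]
    · rw [if_pos (show i < k by omega)]
      split_ifs with c
      · exact f2 _ c
      · rw [show i = k - 1 by omega, e1]; exact yz
    · rw [if_neg (by omega), if_pos (by omega), e0]; exact xz.symm

theorem conn [Nonempty V] {I : Set ℕ} (hI : ∀ k ∈ I, 3 ≤ k) (h : Saturated G I) : G.Connected := by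
  refine ⟨fun x y => ?_⟩
  by_cases xy : x = y
  · rw [xy]
  by_cases a : G.Adj x y
  · exact a.reachable
  obtain ⟨k, hk, hc⟩ := h.2 x y xy a
  obtain ⟨f, -, f2, f3⟩ := path_of (hI k hk) hc fun a => h.1 ⟨k, hk, a⟩
  have : ∀ i, i < k → G.Reachable (f 0) (f i) := by
    intro i
    induction i with
    | zero => intro _; rfl
    | succ i ih => intro a; exact (ih (by omega)).trans (f2 i a).reachable
  have := this (k - 1) (by have := hI k hk; omega)
  rcases f3 with ⟨a, b⟩ | ⟨a, b⟩ <;> rw [a, b] at this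
  exacts [this, this.symm]

theorem lower {n : ℕ} (hn : 0 < n) {G : SimpleGraph (Fin n)} (h : Saturated G (Set.Ici 4)) :
    5 * n ≤ 4 * G.edgeSet.ncard + 6 := by
  classical
  haveI : Nonempty (Fin n) := ⟨⟨0, hn⟩⟩
  let T : Finset (Fin n × Fin n × Fin n) := univ.filter fun t =>
    t.1 < t.2.1 ∧ t.2.1 < t.2.2 ∧ G.Adj t.1 t.2.1 ∧ G.Adj t.1 t.2.2 ∧ G.Adj t.2.1 t.2.2
  let D : Finset (Sym2 (Fin n)) := T.image fun t => s(t.2.1, t.2.2)
  have hD : #D = #T := by
    refine card_image_of_injOn ?_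
    rintro ⟨a, b, c⟩ h1 ⟨a', b', c'⟩ h2 e
    simp only [T, coe_filter, mem_univ, true_and, Set.mem_setOf_eq] at h1 h2
    obtain ⟨l1, l2, p1, p2, p3⟩ := h1
    obtain ⟨l3, l4, q1, q2, q3⟩ := h2
    rcases Sym2.eq_iff.mp e with ⟨rfl, rfl⟩ | ⟨rfl, rfl⟩
    · by_contra ne
      exact no4 h.1 p1 q1.symm q2 p2.symm (fun e => ne (by rw [e])) l2.ne
    · exact absurd l2 l4.not_gt
  have sD : D ⊆ G.edgeFinset := by
    intro e he
    obtain ⟨t, ht, rfl⟩ := mem_image.mp he
    exact mem_edgeFinset.mpr (mem_filter.mp ht).2.2.2.2.2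
  have keep : ∀ a b c, a < b → a < c → b ≠ c → G.Adj a b → G.Adj a c → G.Adj b c →
      (G.deleteEdges D).Adj a b := by
    intro a b c l1 l2 bc p1 p2 p3
    refine deleteEdges_adj.mpr ⟨p1, fun hm => ?_⟩
    obtain ⟨⟨a', b', c'⟩, ht, e⟩ := mem_image.mp (mem_coe.mp hm)
    obtain ⟨-, l3, l4, q1, q2, q3⟩ := mem_filter.mp ht
    simp only at l3 l4 q1 q2 q3 e
    rcases Sym2.eq_iff.mp e with ⟨rfl, rfl⟩ | ⟨rfl, rfl⟩
    · exact no4 h.1 q1 p2 p3.symm q2.symm (l3.trans l2).ne l1.ne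
    · exact absurd l1 l4.not_gt
  have hc : (G.deleteEdges D).Connected := by
    refine ⟨fun x y => ?_⟩
    obtain ⟨w⟩ := (conn (fun k (hk : 4 ≤ k) => by omega) h).preconnected x y
    induction w with
    | nil => rfl
    | @cons u v _ a _ ih =>
      refine Reachable.trans ?_ ih
      by_cases hm : s(u, v) ∈ D
      · obtain ⟨⟨a', b', c'⟩, ht, e⟩ := mem_image.mp hm
        obtain ⟨-, l3, l4, q1, q2, q3⟩ := mem_filter.mp ht
        simp only at l3 l4 q1 q2 q3 e
        have r := (keep a' b' c' l3 (l3.trans l4) l4.ne q1 q2 q3).reachable.symm.trans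
          (keep a' c' b' (l3.trans l4) l3 l4.ne' q2 q1 q3.symm).reachable
        rcases Sym2.eq_iff.mp e with ⟨rfl, rfl⟩ | ⟨rfl, rfl⟩
        exacts [r, r.symm]
      · exact (deleteEdges_adj.mpr ⟨a, hm⟩).reachable
  have k1 := hc.card_vert_le_card_edgeSet_add_one
  rw [edgeSet_deleteEdges, ← coe_edgeFinset, ← coe_sdiff, Nat.card_coe_set_eq, Set.ncard_coe_finset,
    Nat.card_eq_fintype_card, Fintype.card_fin] at k1
  have k2 := card_sdiff_add_card_eq_card sD
  let B : SimpleGraph (Fin n) := ⟨fun x z => G.Adj x z ∧ ∀ w, G.Adj w x → ¬ G.Adj w z,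
    ⟨fun x z a => ⟨a.1.symm, fun w b c => a.2 w c b⟩⟩, ⟨fun x a => a.1.ne rfl⟩⟩
  have k3 : 2 * #B.edgeFinset ≤ n := by
    rw [← B.sum_degrees_eq_twice_card_edges]
    refine (sum_le_card_nsmul _ _ 1 fun z _ => ?_).trans (by simp)
    rw [← card_neighborFinset_eq_degree, card_le_one]
    intro x hx y hy
    rw [mem_neighborFinset] at hx hy
    exact matching h hx.symm.1 hy.symm.1 hx.symm.2 hy.symm.2
  have k4 : G.edgeFinset ⊆ B.edgeFinset ∪ (D ∪ (T.image (fun t => s(t.1, t.2.1)) ∪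
      T.image fun t => s(t.1, t.2.2))) := by
    intro e he
    have key : ∀ x z, x < z → G.Adj x z → s(x, z) ∈ B.edgeFinset ∪ (D ∪ (T.image
        (fun t => s(t.1, t.2.1)) ∪ T.image fun t => s(t.1, t.2.2))) := by
      intro x z l a
      by_cases hb : ∀ w, G.Adj w x → ¬ G.Adj w z
      · exact mem_union_left _ (mem_edgeFinset.mpr ⟨a, hb⟩)
      push Not at hb
      obtain ⟨w, b, c⟩ := hb
      refine mem_union_right _ ?_
      rcases lt_or_gt_of_ne b.ne with l1 | l1
      · exact mem_union_left _ (mem_image.mpr ⟨(w, x, z), mem_filter.mpr ⟨mem_univ _, l1, l, b, c, a⟩, rfl⟩)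
      refine mem_union_right _ ?_
      rcases lt_or_gt_of_ne c.ne with l2 | l2
      · exact mem_union_right _ (mem_image.mpr ⟨(x, w, z),
          mem_filter.mpr ⟨mem_univ _, l1, l2, b.symm, a, c⟩, rfl⟩)
      · exact mem_union_left _ (mem_image.mpr ⟨(x, z, w),
          mem_filter.mpr ⟨mem_univ _, l, l2, a, b.symm, c.symm⟩, rfl⟩)
    induction e using Sym2.ind with
    | h x z =>
      have a : G.Adj x z := mem_edgeFinset.mp he
      rcases lt_or_gt_of_ne a.ne with l | l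
      · exact key x z l a
      · rw [Sym2.eq_swap]; exact key z x l a.symm
  have k5 := (card_le_card k4).trans ((card_union_le _ _).trans (Nat.add_le_add_left
    ((card_union_le _ _).trans (Nat.add_le_add_left ((card_union_le _ _).trans
      (add_le_add card_image_le card_image_le)) _)) _))
  rw [← coe_edgeFinset, Set.ncard_coe_finset]
  omega

theorem exists_sat (n : ℕ) {I : Set ℕ} (hI : ∀ k ∈ I, 3 ≤ k) :
    ∃ G : SimpleGraph (Fin n), Saturated G I := by
  have h0 : ¬ HasCyc (⊥ : SimpleGraph (Fin n)) I := by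
    rintro ⟨k, hk, h⟩
    obtain ⟨g, -, -, h⟩ := ps_of (hI k hk) h
    exact h 0
  obtain ⟨G, hG⟩ := Set.Finite.exists_maximal (Set.toFinite {G : SimpleGraph (Fin n) | ¬ HasCyc G I})
    ⟨⊥, h0⟩
  refine ⟨G, hG.1, fun x y xy a => ?_⟩
  by_contra hn
  exact a (hG.2 hn le_sup_left (Or.inr ((edge_adj ..).mpr ⟨Or.inl ⟨rfl, rfl⟩, xy⟩)))

theorem sat_lower {n : ℕ} (hn : 0 < n) : 5 * n ≤ 4 * sat n (Set.Ici 4) + 6 := by
  obtain ⟨G, hG⟩ := exists_sat n (I := Set.Ici 4) fun k (hk : 4 ≤ k) => by omega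
  obtain ⟨H, h1, h2⟩ := Nat.sInf_mem (s := {e | ∃ G : SimpleGraph (Fin n),
    Saturated G (Set.Ici 4) ∧ G.edgeSet.ncard = e}) ⟨_, G, hG, rfl⟩
  rw [sat, ← h2]
  exact lower hn h1

end Pool.Agent.H31.Theta
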