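import Mathlib
import Pool.Agent.H31.Theta

set_option autoImplicit false
open SimpleGraph Finset Pool.Agent.H31.SatDefs Pool.Agent.H31.Theta

namespace Pool.Agent.H31.Theta2

abbrev W (m l : ℕ) := (Fin m × Fin l) ⊕ Bool

variable {m l : ℕ}

def pos (l : ℕ) (a : Fin m) (j : ℕ) : W m l :=
  if h : 0 < j ∧ j ≤ l then .inl (a, ⟨j - 1, by omega⟩) else .inr (decide (0 < j))

theorem pos_eq {a b : Fin m} {i j : ℕ} (hi : i ≤ l + 1) (hj : j ≤ l + 1) :
    pos l a i = pos l b j ↔ i = j ∧ (a = b ∨ i = 0 ∨ i = l + 1) := by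
  unfold pos
  split_ifs with h1 h2 h2
  · simp only [Sum.inl.injEq, Prod.mk.injEq, Fin.mk.injEq]
    constructor
    · rintro ⟨x, y⟩; exact ⟨by omega, Or.inl x⟩
    · rintro ⟨x, y | y | y⟩
      · exact ⟨y, by omega⟩
      all_goals omega
  · simp only [reduceCtorEq, false_iff]; omega
  · simp only [reduceCtorEq, false_iff]; omega
  · simp only [Sum.inr.injEq, decide_eq_decide]
    constructor
    · intro h; exact ⟨by omega, Or.inr (by omega)⟩
    · rintro ⟨x, -⟩; rw [x]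

theorem pos_surj (a0 : Fin m) (x : W m l) : ∃ a j, j ≤ l + 1 ∧ x = pos l a j := by
  rcases x with ⟨a, j⟩ | b
  · exact ⟨a, j + 1, by omega, by simp [pos, Nat.succ_le_of_lt j.2]⟩
  · cases b
    · exact ⟨a0, 0, by omega, by simp [pos]⟩
    · exact ⟨a0, l + 1, by omega, by simp [pos]⟩

def ht : W m l → ℕ
  | .inl p => p.2 + 1
  | .inr b => if b then l + 1 else 0

theorem ht_pos (a : Fin m) {j : ℕ} (h : j ≤ l + 1) : ht (pos l a j) = j := by
  unfold pos
  split_ifs with h1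
  · simp only [ht]; omega
  · simp only [ht, decide_eq_true_eq]; split_ifs <;> omega

def E (m l : ℕ) : Finset (Sym2 (W m l)) :=
  (univ ×ˢ range (l + 1)).image fun p : Fin m × ℕ => s(pos l p.1 p.2, pos l p.1 (p.2 + 1))

def Th (m l : ℕ) : SimpleGraph (W m l) := fromEdgeSet (E m l)

theorem adj_pos (a : Fin m) {j : ℕ} (h : j ≤ l) : (Th m l).Adj (pos l a j) (pos l a (j + 1)) := by
  refine (fromEdgeSet_adj _).mpr ⟨mem_coe.mpr (mem_image.mpr ⟨(a, j), by simp; omega, rfl⟩), ?_⟩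
  rw [Ne, pos_eq (by omega) (by omega)]; omega

theorem adj_cases {x y : W m l} (h : (Th m l).Adj x y) : ∃ a j, j ≤ l ∧
    (x = pos l a j ∧ y = pos l a (j + 1) ∨ y = pos l a j ∧ x = pos l a (j + 1)) := by
  obtain ⟨⟨a, j⟩, hm, e⟩ := mem_image.mp (mem_coe.mp ((fromEdgeSet_adj _).mp h).1)
  refine ⟨a, j, by simp at hm; omega, ?_⟩
  rcases Sym2.eq_iff.mp e with ⟨p, q⟩ | ⟨p, q⟩
  exacts [Or.inl ⟨p.symm, q.symm⟩, Or.inr ⟨p.symm, q.symm⟩]

theorem lip {x y : W m l} (h : (Th m l).Adj x y) : ht x ≤ ht y + 1 := by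
  obtain ⟨a, j, hj, ⟨rfl, rfl⟩ | ⟨rfl, rfl⟩⟩ := adj_cases h <;>
    rw [ht_pos _ (by omega), ht_pos _ (by omega)] <;> omega

theorem peak {x y z : W m l} (h1 : (Th m l).Adj x y) (h2 : (Th m l).Adj x z) (n : y ≠ z) :
    (ht y ≤ ht x → ht z ≤ ht x → ht x = l + 1) ∧ (ht x ≤ ht y → ht x ≤ ht z → ht x = 0) := by
  obtain ⟨a, j, hj, ⟨rfl, rfl⟩ | ⟨rfl, rfl⟩⟩ := adj_cases h1 <;>
  obtain ⟨b, i, hi, ⟨e, rfl⟩ | ⟨rfl, e⟩⟩ := adj_cases h2 <;>
  rw [Ne, pos_eq (by omega) (by omega)] at n <;> rw [pos_eq (by omega) (by omega)] at e <;>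
  rw [ht_pos _ (by omega), ht_pos _ (by omega), ht_pos _ (by omega)] <;>
  by_cases ab : a = b <;> simp only [ab, true_or, false_or, and_true] at n e <;> omega

theorem long {k : ℕ} (hk : 3 ≤ k) (h : cycleGraph k ⊑ Th m l) : 2 * (l + 1) ≤ k := by
  obtain ⟨g, h1, h2, h3⟩ := ps_of hk h
  have per : ∀ i, ∃ j < k, g i = g j := by
    intro i
    induction i using Nat.strong_induction_on with
    | _ i ih =>
      rcases lt_or_ge i k with c | c
      · exact ⟨i, c, rfl⟩
      · obtain ⟨j, a, b⟩ := ih (i - k) (by omega)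
        exact ⟨j, a, by rw [← b, ← h1 (i - k), Nat.sub_add_cancel c]⟩
  have ne : (range k).Nonempty := ⟨0, mem_range.mpr (by omega)⟩
  obtain ⟨s, hs, ms⟩ := exists_max_image (range k) (fun i => ht (g i)) ne
  obtain ⟨t, ht', mt⟩ := exists_min_image (range k) (fun i => ht (g i)) ne
  rw [mem_range] at hs ht'
  have Ms : ∀ i, ht (g i) ≤ ht (g s) := fun i => by
    obtain ⟨j, a, b⟩ := per i; rw [b]; exact ms j (mem_range.mpr a)
  have Mt : ∀ i, ht (g t) ≤ ht (g i) := fun i => by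
    obtain ⟨j, a, b⟩ := per i; rw [b]; exact mt j (mem_range.mpr a)
  have nb : ∀ s, (Th m l).Adj (g s) (g (s + (k - 1))) := fun s => by
    have := h3 (s + (k - 1))
    rw [show s + (k - 1) + 1 = s + k by omega, h1] at this
    exact this.symm
  have nn : ∀ s, g (s + 1) ≠ g (s + (k - 1)) := fun s => by
    have := h2 (s + 1) (k - 2) (by omega) (by omega)
    rwa [show s + 1 + (k - 2) = s + (k - 1) by omega] at this
  have e1 := (peak (h3 s) (nb s) (nn s)).1 (Ms _) (Ms _)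
  have e2 := (peak (h3 t) (nb t) (nn t)).2 (Mt _) (Mt _)
  have L : ∀ i d, ht (g i) ≤ ht (g (i + d)) + d ∧ ht (g (i + d)) ≤ ht (g i) + d := by
    intro i d
    induction d with
    | zero => simp
    | succ d ih =>
      have a := lip (h3 (i + d))
      have b := lip (h3 (i + d)).symm
      rw [show i + (d + 1) = i + d + 1 from rfl]; omega
  rcases le_total s t with c | c
  · have a := L s (t - s)
    have b := L t (s + k - t)
    rw [show s + (t - s) = t by omega] at a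
    rw [show t + (s + k - t) = s + k by omega, h1] at b
    omega
  · have a := L t (s - t)
    have b := L s (t + k - s)
    rw [show t + (s - t) = s by omega] at a
    rw [show s + (t + k - s) = t + k by omega, h1] at b
    omega

def cyc (l : ℕ) (a b : Fin m) (t : ℕ) : W m l :=
  if t ≤ l + 1 then pos l a t else pos l b (2 * (l + 1) - t)

theorem cyc_ps (hl : 1 ≤ l) {a b : Fin m} (ab : a ≠ b) :
    PS (Th m l) (2 * (l + 1)) fun i => cyc l a b (i % (2 * (l + 1))) := by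
  refine ps_of_seq (by omega) _ (fun i j ij jk => ?_) (fun i h => ?_) ?_
  · unfold cyc
    split_ifs <;> rw [Ne, pos_eq (by omega) (by omega)] <;> (try simp only [ab, ab.symm, false_or]) <;> omega
  · unfold cyc
    split_ifs with c1 c2 c2
    · exact adj_pos a (by omega)
    · have := (adj_pos b (le_refl l)).symm
      rwa [show 2 * (l + 1) - (i + 1) = l by omega, show i = l + 1 by omega,
        (pos_eq (a := a) (b := b) le_rfl le_rfl).mpr ⟨rfl, Or.inr (Or.inr rfl)⟩]
    · omega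
    · have := (adj_pos (l := l) b (j := 2 * (l + 1) - (i + 1)) (by omega)).symm
      rwa [show 2 * (l + 1) - (i + 1) + 1 = 2 * (l + 1) - i by omega] at this
  · unfold cyc
    rw [if_neg (by omega), if_pos (by omega), show 2 * (l + 1) - (2 * (l + 1) - 1) = 0 + 1 by omega,
      (pos_eq (a := a) (b := b) (by omega) (by omega)).mpr ⟨rfl, Or.inr (Or.inl rfl)⟩]
    exact (adj_pos b (by omega)).symm

theorem on_cyc (hm : 2 ≤ m) (x y : W m l) : ∃ a b : Fin m, a ≠ b ∧ ∃ s < 2 * (l + 1),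
    ∃ t < 2 * (l + 1), x = cyc l a b s ∧ y = cyc l a b t := by
  obtain ⟨a, i, hi, rfl⟩ := pos_surj ⟨0, by omega⟩ x
  obtain ⟨b, j, hj, rfl⟩ := pos_surj ⟨0, by omega⟩ y
  by_cases ab : a = b
  · haveI : Nontrivial (Fin m) := Fin.nontrivial_iff_two_le.mpr hm
    obtain ⟨c, hc⟩ := exists_ne a
    exact ⟨a, c, hc.symm, i, by omega, j, by omega, by rw [cyc, if_pos hi], by rw [cyc, if_pos hj, ab]⟩
  · refine ⟨a, b, ab, i, by omega, ?_⟩
    by_cases c : j = 0 ∨ j = l + 1
    · refine ⟨j, by omega, by rw [cyc, if_pos hi], ?_⟩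
      rw [cyc, if_pos hj, pos_eq hj hj]; exact ⟨rfl, Or.inr c⟩
    · refine ⟨2 * (l + 1) - j, by omega, by rw [cyc, if_pos hi], ?_⟩
      rw [cyc, if_neg (by omega), show 2 * (l + 1) - (2 * (l + 1) - j) = j by omega]

theorem th_sat (hm : 2 ≤ m) (hl : 2 ≤ l) : Saturated (Th m l) (Set.Icc 4 (2 * l + 1)) := by
  refine ⟨fun ⟨k, hk, h⟩ => ?_, fun x y xy n => ?_⟩
  · have := long (by have := hk.1; omega) h
    have := hk.2
    omega
  obtain ⟨a, b, ab, s, hs, t, ht, rfl, rfl⟩ := on_cyc hm x y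
  have P := cyc_ps (l := l) (by omega) ab
  wlog st : s < t generalizing s t
  · rw [edge_comm]
    refine this t ht s hs xy.symm (fun a => n a.symm) (lt_of_le_of_ne (not_lt.mp st) ?_)
    rintro rfl; exact xy rfl
  have ms := Nat.mod_eq_of_lt hs
  have mt := Nat.mod_eq_of_lt ht
  have n1 : t ≠ s + 1 := by
    rintro rfl
    have := P.2.2 s
    simp only [ms, mt] at this
    exact n this
  have w : (t + (s + 2 * (l + 1) - t)) % (2 * (l + 1)) = s := by
    rw [show t + (s + 2 * (l + 1) - t) = s + 2 * (l + 1) by omega, Nat.add_mod_right, ms]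
  have n2 : s + 2 * (l + 1) - t ≠ 1 := by
    intro e
    have := P.2.2 t
    rw [e] at w
    simp only [w, mt] at this
    exact n this.symm
  by_cases c : t = s + 2
  · have := chord P t (s + 2 * (l + 1) - t) (by omega) (by omega)
    simp only [w, mt] at this
    rw [edge_comm]
    exact ⟨_, ⟨by omega, by omega⟩, this⟩
  · have := chord P s (t - s) (by omega) (by omega)
    simp only [show s + (t - s) = t by omega, ms, mt] at this
    exact ⟨_, ⟨by omega, by omega⟩, this⟩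

theorem transfer {V : Type} {n : ℕ} (e : V ≃ Fin n) {G : SimpleGraph V} {I : Set ℕ}
    (h : Saturated G I) : sat n I ≤ G.edgeSet.ncard := by
  have i : G.comap e.symm ≃g G := Iso.comap e.symm G
  refine Nat.sInf_le ⟨G.comap e.symm, ⟨fun ⟨k, hk, c⟩ => h.1 ⟨k, hk, c.trans i.isContained⟩,
    fun x y xy a => ?_⟩, ?_⟩
  · obtain ⟨k, hk, c⟩ := h.2 (e.symm x) (e.symm y) (e.symm.injective.ne xy) a
    refine ⟨k, hk, c.trans ⟨⟨⟨e, ?_⟩, e.injective⟩⟩⟩
    rintro u v (p | p)
    · left; simpa using p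
    · right
      rw [edge_adj] at p ⊢
      refine ⟨?_, e.injective.ne p.2⟩
      rcases p.1 with ⟨rfl, rfl⟩ | ⟨rfl, rfl⟩ <;> simp
  · exact Set.ncard_congr' i.mapEdgeSet

theorem sat_upper (hm : 2 ≤ m) (hl : 2 ≤ l) :
    sat (m * l + 2) (Set.Icc 4 (2 * l + 1)) ≤ m * (l + 1) := by
  refine (transfer (Fintype.equivFinOfCardEq (by simp)) (th_sat hm hl)).trans ?_
  have : (Th m l).edgeSet ⊆ E m l := by rw [Th, edgeSet_fromEdgeSet]; exact Set.diff_subset
  refine (Set.ncard_le_ncard this (Finset.finite_toSet _)).trans ?_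
  rw [Set.ncard_coe_finset]
  exact card_image_le.trans (by simp)

end Pool.Agent.H31.Theta2
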