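import Mathlib

set_option autoImplicit false
open Finset

namespace Pool.Agent.H31.WC

/-- The order of a largest connected component of the graph on Fin n with edge set C. -/
noncomputable def largest {n : ℕ} (C : Finset (Sym2 (Fin n))) : ℕ :=
  univ.sup fun v => {w | (SimpleGraph.fromEdgeSet (C : Set (Sym2 (Fin n)))).Reachable v w}.ncard

/-- Force q m F C: with F the edges not yet offered and C the edges of Client, Waiter can force a
final Client component of order at least m. -/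
inductive Force {n : ℕ} (q m : ℕ) : Finset (Sym2 (Fin n)) → Finset (Sym2 (Fin n)) → Prop
  | done (F C : Finset (Sym2 (Fin n))) : F.card < q + 1 → m ≤ largest C → Force q m F C
  | step (F C O : Finset (Sym2 (Fin n))) : O ⊆ F → O.card = q + 1 →
      (∀ e ∈ O, Force q m (F \ O) (insert e C)) → Force q m F C

/-- The value of the game on all edges of K_n. -/
noncomputable def comp (n q : ℕ) : ℕ :=
  sSup {m | Force q m (univ.filter fun e : Sym2 (Fin n) => ¬ e.IsDiag) ∅}

variable {n : ℕ}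

theorem Force.le {q m : ℕ} {F C : Finset (Sym2 (Fin n))} (h : Force q m F C) : m ≤ n := by
  induction h with
  | done F C _ h =>
    refine h.trans (Finset.sup_le fun v _ => ?_)
    simpa using Set.ncard_le_ncard (Set.subset_univ
      {w | (SimpleGraph.fromEdgeSet (C : Set (Sym2 (Fin n)))).Reachable v w})
  | step F C O _ h _ ih =>
    obtain ⟨e, he⟩ := card_pos.mp (show 0 < O.card by omega)
    exact ih e he

theorem finish (q m : ℕ) (ρ : Fin n) (T : Finset (Fin n)) (hm : m ≤ T.card)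
    (F : Finset (Sym2 (Fin n))) : ∀ C : Finset (Sym2 (Fin n)),
    (∀ w ∈ T, (SimpleGraph.fromEdgeSet (C : Set (Sym2 (Fin n)))).Reachable ρ w) →
    Force q m F C := by
  induction F using Finset.strongInduction with
  | H F ih =>
  intro C h
  by_cases hF : F.card < q + 1
  · refine .done F C hF (hm.trans (le_trans ?_ (le_sup (f := fun v => {w |
      (SimpleGraph.fromEdgeSet (C : Set (Sym2 (Fin n)))).Reachable v w}.ncard) (mem_univ ρ))))
    rw [← Set.ncard_coe_finset]
    exact Set.ncard_le_ncard h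
  · obtain ⟨O, h1, h2⟩ := exists_subset_card_eq (not_lt.mp hF)
    refine .step F C O h1 h2 fun e _ => ih _ (sdiff_ssubset h1 (card_pos.mp (by omega))) _
      fun w hw => (h w hw).mono (SimpleGraph.fromEdgeSet_mono (by simp))

theorem grow (k q : ℕ) (hq : q + 1 + k = n) (hn : 9 * k + 1 ≤ n) (ρ : Fin n)
    (bad : Fin n → Finset (Fin n)) (hbad : ∀ u, (bad u).card ≤ 2) (d : ℕ) :
    ∀ (F C : Finset (Sym2 (Fin n))) (T H S : Finset (Fin n)) (x : Fin n),
    T.card + d = 2 * k + 1 → x ∈ T →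
    (∀ w ∈ T, (SimpleGraph.fromEdgeSet (C : Set (Sym2 (Fin n)))).Reachable ρ w) →
    Disjoint H T → (∀ u, Disjoint (bad u) H) → (∀ v ∈ H, ∀ u ∈ T, s(u, v) ∈ F) →
    (∀ u v, (u = x ∨ u ∉ T) → v ∉ T → u ≠ v → v ∉ bad u → s(u, v) ∈ F) →
    (∀ v ∈ S, v ∉ T ∧ v ∉ H ∧ ∃ u ∈ T, u ≠ x ∧ s(u, v) ∈ F) →
    k ≤ T.card + H.card + 2 → H.card + 3 ≤ k → S.card + k ≤ n →
    2 * k * T.card + 2 * n + 4 ≤
      2 * (S.card + H.card * T.card) + T.card ^ 2 + 7 * T.card + 2 * k →
    Force q (2 * k + 1) F C := by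
  induction d with
  | zero => exact fun F C T H S x h1 _ h3 _ _ _ _ _ _ _ _ _ => finish q _ ρ T (by omega) F C h3
  | succ d ih =>
  intro F C T H S x h1 h2 h3 h4 h5 h6 h7 h8 i1 i2 i3 i4
  have hN : (T ∪ H)ᶜ.card + T.card + H.card = n := by
    rw [card_compl, card_union_of_disjoint h4.symm, Fintype.card_fin]; omega
  obtain ⟨G, hG, hGc⟩ := exists_subset_card_eq (s := (T ∪ H)ᶜ \ bad x)
    (n := n - T.card - H.card - 2) (by
      have := le_card_sdiff (bad x) (T ∪ H)ᶜ
      have := hbad x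
      omega)
  obtain ⟨Z, m, hZ, z1, z2, z3, z4, z5⟩ : ∃ (Z : Finset (Fin n)) (m : ℕ), Z ⊆ H ∧ Z.card ≤ 1 ∧
      m + 1 + T.card + H.card + 2 = S.card + k + T.card * Z.card ∧ m + 1 ≤ G.card ∧
      m + k ≤ n ∧ Z.card ≤ H.card := by
    by_cases c1 : T.card + H.card + 3 ≤ S.card + k
    · exact ⟨∅, S.card + k - (T.card + H.card + 3), empty_subset _, by simp, by simp; omega,
        by omega, by omega, by simp⟩
    · rcases H.eq_empty_or_nonempty with rfl | ⟨z, hz⟩
      · exfalso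
        have : T.card ^ 2 ≤ 2 * k * T.card := by rw [sq]; exact Nat.mul_le_mul_right _ (by omega)
        simp only [card_empty, zero_mul] at *
        omega
      · exact ⟨{z}, S.card + k - (H.card + 3), by simpa using hz, by simp, by simp; omega,
          by omega, by omega, by simpa using ⟨z, hz⟩⟩
  obtain ⟨M, hM, hMc⟩ := exists_subset_card_eq z3
  choose! sp hsp using fun v hv => (h8 v hv).2.2
  have hG' : ∀ v ∈ G, v ∉ T ∧ v ∉ H ∧ v ∉ bad x := fun v hv => by
    have := hG hv; simp only [mem_sdiff, mem_compl, mem_union, not_or] at this; tauto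
  let P : Finset (Fin n × Fin n) :=
    ((G \ M).image (fun v => (x, v)) ∪ S.image (fun v => (sp v, v))) ∪ T ×ˢ Z
  have hP : ∀ u v, (u, v) ∈ P ↔ (u = x ∧ v ∈ G ∧ v ∉ M) ∨ (u = sp v ∧ v ∈ S) ∨
      (u ∈ T ∧ v ∈ Z) := by
    intro u v
    simp only [P, mem_union, mem_image, mem_sdiff, Prod.mk.injEq, mem_product, or_assoc]
    refine or_congr ⟨?_, ?_⟩ (or_congr ⟨?_, ?_⟩ Iff.rfl)
    · rintro ⟨a, ha, rfl, rfl⟩; exact ⟨rfl, ha⟩
    · rintro ⟨rfl, ha⟩; exact ⟨v, ha, rfl, rfl⟩
    · rintro ⟨a, ha, rfl, rfl⟩; exact ⟨rfl, ha⟩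
    · rintro ⟨rfl, ha⟩; exact ⟨v, ha, rfl, rfl⟩
  have hP2 : ∀ u v, (u, v) ∈ P → u ∈ T ∧ v ∉ T ∧ (v ∈ H → v ∈ Z) ∧ s(u, v) ∈ F := by
    intro u v h
    rcases (hP u v).mp h with ⟨rfl, a, _⟩ | ⟨rfl, a⟩ | ⟨a, b⟩
    · obtain ⟨c1, c2, c3⟩ := hG' v a
      exact ⟨h2, c1, fun e => absurd e c2, h7 _ _ (Or.inl rfl) c1 (fun e => c1 (e ▸ h2)) c3⟩
    · exact ⟨(hsp v a).1, (h8 v a).1, fun e => absurd e (h8 v a).2.1, (hsp v a).2.2⟩
    · exact ⟨a, disjoint_left.mp h4 (hZ b), fun _ => b, h6 v (hZ b) u a⟩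
  have hPc : P.card = q + 1 := by
    rw [card_union_of_disjoint, card_union_of_disjoint, card_image_of_injective _
      (fun a b e => by simpa using e), card_image_of_injective _
      (fun a b e => congrArg Prod.snd e), card_product, card_sdiff_of_subset hM]
    · omega
    · rw [disjoint_left]
      intro p a b
      obtain ⟨v, _, rfl⟩ := mem_image.mp a
      obtain ⟨w, hw, e⟩ := mem_image.mp b
      exact (hsp w hw).2.1 (congrArg Prod.fst e)
    · rw [disjoint_left]
      intro p a b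
      have := hZ (mem_product.mp b).2
      rcases mem_union.mp a with a | a
      · obtain ⟨v, hv, rfl⟩ := mem_image.mp a
        exact (hG' v (mem_sdiff.mp hv).1).2.1 this
      · obtain ⟨v, hv, rfl⟩ := mem_image.mp a
        exact (h8 v hv).2.1 this
  have hO : ∀ u v, v ∉ T → s(u, v) ∈ P.image (fun p => s(p.1, p.2)) → (u, v) ∈ P := by
    intro u v hv h
    obtain ⟨⟨a, b⟩, hp, e⟩ := mem_image.mp h
    rcases Sym2.eq_iff.mp e with ⟨rfl, rfl⟩ | ⟨rfl, rfl⟩
    · exact hp
    · exact absurd (hP2 _ _ hp).1 hv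
  refine .step F C (P.image fun p => s(p.1, p.2)) ?_ ?_ ?_
  · intro e he
    obtain ⟨⟨a, b⟩, hp, rfl⟩ := mem_image.mp he
    exact (hP2 a b hp).2.2.2
  · rw [card_image_of_injOn, hPc]
    rintro ⟨a, b⟩ h ⟨c, e⟩ h' h''
    rcases Sym2.eq_iff.mp h'' with ⟨rfl, rfl⟩ | ⟨rfl, rfl⟩
    · rfl
    · exact absurd (hP2 _ _ h).1 (hP2 _ _ h').2.1
  intro e he
  obtain ⟨⟨a, y⟩, hp, rfl⟩ := mem_image.mp he
  obtain ⟨p1, p2, p3, _⟩ := hP2 a y hp
  obtain ⟨S', hS', hS'c⟩ := exists_subset_card_eq (s := M.erase y) (n := m) (by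
    have := pred_card_le_card_erase (s := M) (a := y); omega)
  have hc := card_insert_of_notMem p2
  have hH := card_sdiff_add_card_eq_card hZ
  refine ih _ _ (insert y T) (H \ Z) S' y (by omega) (mem_insert_self _ _) ?_ ?_
    (fun u => (h5 u).mono_right sdiff_subset) ?_ ?_ ?_ (by omega) (by omega) (by omega) ?_
  · have mono : SimpleGraph.fromEdgeSet (C : Set (Sym2 (Fin n))) ≤
        SimpleGraph.fromEdgeSet ((insert s(a, y) C : Finset _) : Set (Sym2 (Fin n))) :=
      SimpleGraph.fromEdgeSet_mono (by simp)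
    intro w hw
    rcases mem_insert.mp hw with rfl | hw
    · refine ((h3 a p1).mono mono).trans (SimpleGraph.Adj.reachable ?_)
      simp only [SimpleGraph.fromEdgeSet_adj, coe_insert, Set.mem_insert_iff, true_or, true_and]
      exact fun e => p2 (e ▸ p1)
    · exact (h3 w hw).mono mono
  · rw [disjoint_insert_right]
    exact ⟨fun e => (mem_sdiff.mp e).2 (p3 (mem_sdiff.mp e).1), h4.mono_left sdiff_subset⟩
  · intro v hv u hu
    obtain ⟨v1, v2⟩ := mem_sdiff.mp hv
    have v3 := disjoint_left.mp h4 v1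
    refine mem_sdiff.mpr ⟨?_, fun e => v2 ((hP2 _ _ (hO _ _ v3 e)).2.2.1 v1)⟩
    rcases mem_insert.mp hu with rfl | hu
    · exact h7 _ _ (Or.inr p2) v3 (fun e => v2 (e ▸ p3 (e ▸ v1)))
        (fun e => disjoint_left.mp (h5 _) e v1)
    · exact h6 v v1 u hu
  · intro u v hu hv huv hb
    have u1 : u ∉ T := hu.elim (fun e => e ▸ p2) fun e e' => e (mem_insert_of_mem e')
    have v1 : v ∉ T := fun e => hv (mem_insert_of_mem e)
    exact mem_sdiff.mpr ⟨h7 u v (Or.inr u1) v1 huv hb, fun e => u1 (hP2 _ _ (hO _ _ v1 e)).1⟩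
  · intro v hv
    obtain ⟨v1, v2⟩ := mem_erase.mp (hS' hv)
    obtain ⟨c1, c2, c3⟩ := hG' v (hM v2)
    refine ⟨by simp [v1, c1], fun e => c2 (mem_sdiff.mp e).1, x, mem_insert_of_mem h2,
      fun e => p2 (e ▸ h2), mem_sdiff.mpr ⟨h7 _ _ (Or.inl rfl) c1 (fun e => c1 (e ▸ h2)) c3,
      fun e => ?_⟩⟩
    rcases (hP _ _).mp (hO _ _ c1 e) with h | h | h
    · exact h.2.2 v2
    · exact (hsp v h.2).2.1 h.1.symm
    · exact c2 (hZ h.2)
  · rw [hc, hS'c]
    rw [← hH] at i4 z2
    nlinarith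

theorem main (k q : ℕ) (hq : q + 1 + k = n) (hn : 9 * k + 1 ≤ n) (hk : 3 ≤ k) :
    2 * k + 1 ≤ comp n q := by
  refine le_csSup ⟨n, fun m hm => Force.le hm⟩ ?_
  let O : Finset (Sym2 (Fin n)) := univ.image fun i : Fin (q + 1) =>
    s((⟨i, by omega⟩ : Fin n), ⟨i + 1, by omega⟩)
  have hO : ∀ u v : Fin n, s(u, v) ∈ O → (v.val = u + 1 ∨ u.val = v + 1) ∧ v.val ≤ q + 1 := by
    intro u v h
    obtain ⟨i, _, e⟩ := mem_image.mp h
    have := i.2
    rcases Sym2.eq_iff.mp e with ⟨rfl, rfl⟩ | ⟨rfl, rfl⟩ <;> simp <;> omega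
  have hb : ∀ u : Fin n, (univ.filter fun v => s(u, v) ∈ O).card ≤ 2 := by
    intro u
    refine le_trans (card_le_card_of_injOn (t := {u.val + 1, u.val - 1}) Fin.val (fun v hv => ?_)
      Fin.val_injective.injOn) card_le_two
    have := (hO u v (by simpa using hv)).1
    simp only [coe_insert, coe_singleton, Set.mem_insert_iff, Set.mem_singleton_iff]
    omega
  obtain ⟨H, hH, hHc⟩ := exists_subset_card_eq (s := Ioi (⟨q + 1, by omega⟩ : Fin n))
    (n := k - 3) (by simp; omega)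
  have hH' : ∀ v ∈ H, q + 1 < v.val := fun v hv => Fin.lt_def.mp (mem_Ioi.mp (hH hv))
  refine Force.step _ _ O ?_ ?_ ?_
  · intro e he
    obtain ⟨i, _, rfl⟩ := mem_image.mp he
    simp [Fin.ext_iff]
  · rw [card_image_of_injective]
    · simp
    · intro i j e
      simp only [Sym2.eq_iff, Fin.mk.injEq] at e
      exact Fin.ext (by omega)
  intro e he
  induction e using Sym2.ind with
  | _ a b =>
  have h1 := hO a b he
  have h2 := hO b a (by rwa [Sym2.eq_swap])
  have hab : a ≠ b := fun e => by rw [e] at h1; omega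
  have free : ∀ u v, u ≠ v → s(u, v) ∉ O →
      s(u, v) ∈ (univ.filter fun e : Sym2 (Fin n) => ¬ e.IsDiag) \ O := fun u v c1 c2 => by
    simp [c1, c2]
  have hd : Disjoint H {a, b} := by
    rw [disjoint_left]; intro v hv h
    have := hH' v hv
    simp only [mem_insert, mem_singleton] at h
    rcases h with rfl | rfl <;> omega
  obtain ⟨S, hS, hSc⟩ := exists_subset_card_eq (s := ({a, b} ∪ H)ᶜ \
      (univ.filter fun v => s(a, v) ∈ O)) (n := n - k - 1) (by
    have := le_card_sdiff (univ.filter fun v => s(a, v) ∈ O) ({a, b} ∪ H)ᶜ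
    have := hb a
    rw [card_compl, card_union_of_disjoint hd.symm, card_pair hab, Fintype.card_fin] at *
    omega)
  refine grow k q hq hn a _ hb (2 * k - 1) _ _ {a, b} H S b (by rw [card_pair hab]; omega)
    (by simp) ?_ hd ?_ ?_ ?_ ?_ (by rw [card_pair hab]; omega) (by omega) (by omega)
    (by rw [card_pair hab]; omega)
  · intro w hw
    rcases mem_insert.mp hw with rfl | hw
    · rfl
    · rw [mem_singleton.mp hw]
      exact SimpleGraph.Adj.reachable (by simp [hab])
  · intro u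
    rw [disjoint_left]; intro v hv h
    have := hH' v h
    have := (hO u v (mem_filter.mp hv).2).2
    omega
  · intro v hv u hu
    refine free u v (fun e => disjoint_left.mp hd hv (e ▸ hu)) fun e => ?_
    have := hH' v hv
    have := (hO u v e).2
    omega
  · intro u v _ _ c1 c2
    exact free u v c1 (by simpa using c2)
  · intro v hv
    have := hS hv
    simp only [mem_sdiff, mem_compl, mem_union, not_or, mem_filter, mem_univ, true_and] at this
    exact ⟨this.1.1, this.1.2, a, by simp, hab, free a v (fun e => this.1.1 (by simp [e])) this.2⟩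

end Pool.Agent.H31.WC
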