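import Mathlib

open Finset

namespace Pool.Agent.H31.YL

def sw (i : ℕ) (T : Finset ℕ) : Finset ℕ := T.map (Equiv.swap i (i + 1)).toEmbedding

theorem mem_sw {i j : ℕ} {T : Finset ℕ} : j ∈ sw i T ↔ Equiv.swap i (i + 1) j ∈ T := by
  simp [sw, mem_map_equiv]

theorem sw_sw (i : ℕ) (T : Finset ℕ) : sw i (sw i T) = T := by
  ext j; simp [mem_sw]

def Om (N k : ℕ) : Finset (Finset ℕ) := powersetCard k (range N)

theorem sw_mem {N k i : ℕ} {T : Finset ℕ} (hi : i + 1 < N) (h : T ∈ Om N k) : sw i T ∈ Om N k := by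
  obtain ⟨h1, h2⟩ := mem_powersetCard.1 h
  refine mem_powersetCard.2 ⟨fun j hj => ?_, by rw [sw, card_map, h2]⟩
  have := mem_range.1 (h1 (mem_sw.1 hj))
  rw [Equiv.swap_apply_def] at this
  rw [mem_range]; split_ifs at this <;> omega

def op (p q i : ℕ) (v : Finset ℕ → ℝ) (T : Finset ℕ) : ℝ := if p ∈ T ∧ q ∉ T then v (sw i T) else 0

noncomputable def aw (N i : ℕ) : ℝ := √((i + 1) * (N - (i + 1)))

noncomputable def EE (N : ℕ) (v : Finset ℕ → ℝ) (T : Finset ℕ) : ℝ :=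
  ∑ i ∈ range (N - 1), aw N i * op (i + 1) i i v T

noncomputable def FF (N : ℕ) (v : Finset ℕ → ℝ) (T : Finset ℕ) : ℝ :=
  ∑ i ∈ range (N - 1), aw N i * op i (i + 1) i v T

theorem adj (N k : ℕ) (u v : Finset ℕ → ℝ) :
    ∑ T ∈ Om N k, EE N v T * u T = ∑ T ∈ Om N k, v T * FF N u T := by
  simp only [EE, FF, sum_mul, mul_sum]
  rw [sum_comm, sum_comm (s := Om N k)]
  refine sum_congr rfl fun i hi => ?_
  have hi : i + 1 < N := by have := mem_range.1 hi; omega
  refine sum_nbij' (sw i) (sw i) (fun T h => sw_mem hi h) (fun T h => sw_mem hi h)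
    (fun T _ => sw_sw i T) (fun T _ => sw_sw i T) fun T _ => ?_
  simp only [op, mem_sw, Equiv.swap_apply_left, Equiv.swap_apply_right, sw_sw]
  split_ifs <;> ring

theorem comm (i j : ℕ) (h : i ≠ j) (v : Finset ℕ → ℝ) (T : Finset ℕ) :
    op (i + 1) i i (op j (j + 1) j v) T = op j (j + 1) j (op (i + 1) i i v) T := by
  simp only [op, mem_sw]
  by_cases h1 : j = i + 1
  · subst h1
    simp only [Equiv.swap_apply_left, Equiv.swap_apply_right]
    split_ifs <;> first | rfl | tauto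
  by_cases h2 : i = j + 1
  · subst h2
    simp only [Equiv.swap_apply_left, Equiv.swap_apply_right]
    split_ifs <;> first | rfl | tauto
  rw [Equiv.swap_apply_of_ne_of_ne (a := i) (x := j) (by omega) (by omega),
    Equiv.swap_apply_of_ne_of_ne (a := i) (x := j + 1) (by omega) (by omega),
    Equiv.swap_apply_of_ne_of_ne (a := j) (x := i) (by omega) (by omega),
    Equiv.swap_apply_of_ne_of_ne (a := j) (x := i + 1) (by omega) (by omega)]
  have : sw j (sw i T) = sw i (sw j T) := by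
    ext x
    simp only [mem_sw, Equiv.swap_apply_def]
    split_ifs <;> first | rfl | omega
  rw [this]
  split_ifs <;> rfl

theorem op_sum (p q i : ℕ) (s : Finset ℕ) (a : ℕ → ℝ) (w : ℕ → Finset ℕ → ℝ) (T : Finset ℕ) :
    op p q i (fun T => ∑ j ∈ s, a j * w j T) T = ∑ j ∈ s, a j * op p q i (w j) T := by
  unfold op; split_ifs <;> simp

theorem brk (N k : ℕ) (v : Finset ℕ → ℝ) (T : Finset ℕ) (hT : T ∈ Om N k) :
    EE N (FF N v) T - FF N (EE N v) T = (2 * (∑ i ∈ T, i : ℕ) - k * (N - 1) : ℝ) * v T := by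
  obtain ⟨h1, h2⟩ := mem_powersetCard.1 hT
  have e1 : EE N (FF N v) T = ∑ i ∈ range (N - 1), ∑ j ∈ range (N - 1),
      aw N i * aw N j * op (i + 1) i i (op j (j + 1) j v) T := by
    refine sum_congr rfl fun i _ => ?_
    unfold FF; rw [op_sum, mul_sum]; exact sum_congr rfl fun j _ => by ring
  have e2 : FF N (EE N v) T = ∑ i ∈ range (N - 1), ∑ j ∈ range (N - 1),
      aw N i * aw N j * op j (j + 1) j (op (i + 1) i i v) T := by
    rw [sum_comm]
    refine sum_congr rfl fun i _ => ?_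
    unfold EE; rw [op_sum, mul_sum]; exact sum_congr rfl fun j _ => by ring
  rw [e1, e2, ← sum_sub_distrib]
  let b : ℕ → ℝ := fun i => i * (N - i)
  let χ : ℕ → ℝ := fun i => if i ∈ T then 1 else 0
  have e3 : ∀ i ∈ range (N - 1), ∑ j ∈ range (N - 1),
      aw N i * aw N j * op (i + 1) i i (op j (j + 1) j v) T - ∑ j ∈ range (N - 1),
      aw N i * aw N j * op j (j + 1) j (op (i + 1) i i v) T = (b (i + 1) * χ (i + 1) - b (i + 1) * χ i) * v T := by
    intro i hi
    rw [← sum_sub_distrib, sum_eq_single i (fun j _ h => by rw [comm i j h.symm, sub_self])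
      (fun h => absurd hi h)]
    have : aw N i * aw N i = b (i + 1) := by
      have : ((i + 1 : ℕ) : ℝ) ≤ N := by exact_mod_cast (by have := mem_range.1 hi; omega)
      push_cast at this
      unfold aw; rw [Real.mul_self_sqrt (mul_nonneg (by positivity) (by linarith))]; simp [b]
    rw [this]
    simp only [op, mem_sw, Equiv.swap_apply_left, Equiv.swap_apply_right, sw_sw, χ]
    by_cases a : i ∈ T <;> by_cases c : i + 1 ∈ T <;> simp [a, c]
  rw [sum_congr rfl e3, ← sum_mul]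
  congr 1
  rcases Nat.eq_zero_or_pos N with rfl | hN
  · have : T = ∅ := by simpa using h1
    subst this; simp at h2; simp [← h2]
  obtain ⟨M, rfl⟩ : ∃ M, N = M + 1 := ⟨N - 1, by omega⟩
  have s1 : ∑ i ∈ range M, b (i + 1) * χ (i + 1) = ∑ i ∈ range (M + 1), b i * χ i := by
    rw [sum_range_succ']; simp [b]
  have s2 : ∑ i ∈ range M, b (i + 1) * χ i = ∑ i ∈ range (M + 1), b (i + 1) * χ i := by
    rw [sum_range_succ]; simp [b]
  rw [Nat.add_sub_cancel, sum_sub_distrib, s1, s2, ← sum_sub_distrib]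
  simp only [← sub_mul]
  simp only [χ, mul_ite, mul_one, mul_zero]
  rw [← sum_filter, filter_mem_eq_inter, inter_eq_right.2 h1, ← h2]
  push_cast
  rw [mul_sum, ← nsmul_eq_mul, ← sum_const, ← sum_sub_distrib]
  exact sum_congr rfl fun i _ => by simp only [b]; push_cast; ring

theorem norm_id (N k τ : ℕ) (v : Finset ℕ → ℝ) (hv : ∀ T, ∑ i ∈ T, i ≠ τ → v T = 0) :
    ∑ T ∈ Om N k, FF N v T * FF N v T - ∑ T ∈ Om N k, EE N v T * EE N v T =
      (2 * τ - k * (N - 1) : ℝ) * ∑ T ∈ Om N k, v T * v T := by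
  rw [← adj N k v (FF N v), adj N k (EE N v) v, ← sum_sub_distrib, mul_sum]
  refine sum_congr rfl fun T hT => ?_
  have := brk N k v T hT
  by_cases h : ∑ i ∈ T, i = τ
  · rw [h] at this
    linear_combination v T * this
  · rw [hv T h]; ring

theorem hall (N k τ : ℕ) (p q : ℕ → ℕ) (hpq : ∀ i T, (p i ∈ sw i T ↔ q i ∈ T) ∧ (q i ∈ sw i T ↔ p i ∈ T))
    (h : ∀ v : Finset ℕ → ℝ, (∀ T, ∑ i ∈ T, i ≠ τ → v T = 0) →
      (∀ T ∈ Om N k, ∑ i ∈ range (N - 1), aw N i * op (p i) (q i) i v T = 0) → ∀ T ∈ Om N k, v T = 0) :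
    ∃ f : Finset ℕ → Finset ℕ, Set.InjOn f {S | S ∈ Om N k ∧ ∑ i ∈ S, i = τ} ∧
      ∀ S ∈ Om N k, ∑ i ∈ S, i = τ → ∃ i, i + 1 < N ∧ q i ∈ S ∧ p i ∉ S ∧ f S = sw i S := by
  classical
  let L := {S ∈ Om N k | ∑ i ∈ S, i = τ}
  let nb : L → Finset (Finset ℕ) := fun S =>
    ({i ∈ range (N - 1) | q i ∈ S.1 ∧ p i ∉ S.1} : Finset ℕ).image fun i => sw i S.1
  have H : ∀ X : Finset L, X.card ≤ (X.biUnion nb).card := by
    intro X
    let ex : (X → ℝ) → Finset ℕ → ℝ := fun x T => ∑ a : X, if a.1.1 = T then x a else 0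
    have exv : ∀ x (a : X), ex x a.1.1 = x a := fun x a => by
      simp only [ex]
      rw [sum_eq_single a (fun b _ hb => if_neg fun e => hb (Subtype.ext (Subtype.ext e))) (by simp)]
      simp
    have ex0 : ∀ x T, (∀ a : X, a.1.1 ≠ T) → ex x T = 0 := fun x T hT =>
      sum_eq_zero fun a _ => if_neg (hT a)
    let Φ : (X → ℝ) →ₗ[ℝ] (X.biUnion nb → ℝ) :=
      { toFun := fun x T => ∑ i ∈ range (N - 1), aw N i * op (p i) (q i) i (ex x) T.1
        map_add' := fun x y => by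
          funext T
          simp only [Pi.add_apply, ← sum_add_distrib]
          refine sum_congr rfl fun i _ => ?_
          simp only [op, ex]
          split_ifs
          · rw [← mul_add, ← sum_add_distrib]; congr 1
            exact sum_congr rfl fun a _ => by split_ifs <;> simp
          · simp
        map_smul' := fun c x => by
          funext T
          simp only [Pi.smul_apply, smul_eq_mul, RingHom.id_apply, mul_sum]
          refine sum_congr rfl fun i _ => ?_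
          simp only [op, ex]
          split_ifs
          · rw [mul_left_comm, mul_sum (a := c)]; congr 1
            exact sum_congr rfl fun a _ => by split_ifs <;> simp
          · simp }
    have inj : Function.Injective Φ := by
      rw [injective_iff_map_eq_zero]
      intro x hx
      have := h (ex x) (fun T hT => ex0 x T fun a e => hT (e ▸ (mem_filter.1 a.1.2).2)) fun T _ => by
        by_cases hT : T ∈ X.biUnion nb
        · exact congrFun hx ⟨T, hT⟩
        · refine sum_eq_zero fun i hi => ?_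
          unfold op
          split_ifs with c
          · rw [ex0 x _ fun a e => hT (mem_biUnion.2 ⟨a.1, a.2, mem_image.2 ⟨i, mem_filter.2 ⟨hi, ?_⟩,
              by rw [e, sw_sw]⟩⟩), mul_zero]
            rw [e, (hpq i T).1, (hpq i T).2]; exact c
          · simp
      funext a
      rw [← exv x a]; exact this _ (mem_filter.1 a.1.2).1
    simpa using LinearMap.finrank_le_finrank_of_injective inj
  obtain ⟨f, f1, f2⟩ := (all_card_le_biUnion_card_iff_exists_injective nb).1 H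
  refine ⟨fun S => if h : S ∈ L then f ⟨S, h⟩ else S, fun S hS T hT e => ?_, fun S h1 h2 => ?_⟩
  · have hS : S ∈ L := mem_filter.2 hS
    have hT : T ∈ L := mem_filter.2 hT
    simp only [hS, hT, dif_pos] at e
    exact congrArg Subtype.val (f1 e)
  · have hS : S ∈ L := mem_filter.2 ⟨h1, h2⟩
    obtain ⟨i, hi, e⟩ := mem_image.1 (f2 ⟨S, hS⟩)
    obtain ⟨a, b, c⟩ := mem_filter.1 hi
    exact ⟨i, by have := mem_range.1 a; omega, b, c, by simp only [hS, dif_pos]; exact e.symm⟩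

/-- Gale order by counting. -/
def G (S T : Finset ℕ) : Prop := ∀ m, (S.filter (m ≤ ·)).card ≤ (T.filter (m ≤ ·)).card

theorem G_refl (S : Finset ℕ) : G S S := fun _ => le_rfl

theorem G_trans {S T U : Finset ℕ} (h : G S T) (h' : G T U) : G S U := fun m => (h m).trans (h' m)

theorem sw_up {i : ℕ} {S : Finset ℕ} (h1 : i ∈ S) (h2 : i + 1 ∉ S) :
    G S (sw i S) ∧ ∑ j ∈ sw i S, j = ∑ j ∈ S, j + 1 := by
  have e : sw i S = insert (i + 1) (S.erase i) := by
    ext x
    simp only [mem_sw, Equiv.swap_apply_def, mem_insert, mem_erase]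
    split_ifs with a b
    · subst a; simp [h2]
    · subst b; simp [h1]
    · simp [a, b]
  constructor
  · intro m
    refine card_le_card_of_injOn (Equiv.swap i (i + 1)) (fun x hx => ?_) (Equiv.injective _).injOn
    simp only [coe_filter, Set.mem_ofPred_eq, mem_sw, Equiv.swap_apply_self] at hx ⊢
    refine ⟨hx.1, ?_⟩
    rw [Equiv.swap_apply_def]
    split_ifs with a b
    · omega
    · exact absurd (b ▸ hx.1) h2
    · exact hx.2
  · rw [e, sum_insert (by simp [h2]), ← add_sum_erase S (fun j => j) h1]; ring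

theorem iter {α : Type} (Ω : Set α) (ρ : α → ℕ) (R : α → α → Prop) (hr : ∀ a, R a a)
    (ht : ∀ a b c, R a b → R b c → R a c) (st : α → α)
    (h1 : ∀ a ∈ Ω, 0 < ρ a → st a ∈ Ω ∧ ρ (st a) + 1 = ρ a ∧ R a (st a))
    (h2 : ∀ a ∈ Ω, ∀ b ∈ Ω, 0 < ρ a → ρ a = ρ b → st a = st b → a = b) :
    ∃ c : α → α, (∀ a ∈ Ω, c a ∈ Ω ∧ ρ (c a) = 0 ∧ R a (c a)) ∧
      (∀ a ∈ Ω, ∀ b ∈ Ω, c a = c b → (ρ a = ρ b → a = b) ∧ (ρ b ≤ ρ a → R a b)) := by
  have A : ∀ d, ∀ a ∈ Ω, d ≤ ρ a → st^[d] a ∈ Ω ∧ ρ (st^[d] a) + d = ρ a ∧ R a (st^[d] a) := by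
    intro d
    induction d with
    | zero => exact fun a ha _ => ⟨ha, rfl, hr a⟩
    | succ d ih =>
      intro a ha hd
      obtain ⟨i1, i2, i3⟩ := ih a ha (by omega)
      obtain ⟨j1, j2, j3⟩ := h1 _ i1 (by omega)
      rw [Function.iterate_succ_apply']
      exact ⟨j1, by omega, ht _ _ _ i3 j3⟩
  have B : ∀ d, ∀ a ∈ Ω, ∀ b ∈ Ω, ρ a = d → ρ b = d → st^[d] a = st^[d] b → a = b := by
    intro d
    induction d with
    | zero => exact fun a _ b _ _ _ h => h
    | succ d ih =>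
      intro a ha b hb e1 e2 h
      obtain ⟨i1, i2, -⟩ := h1 a ha (by omega)
      obtain ⟨j1, j2, -⟩ := h1 b hb (by omega)
      exact h2 a ha b hb (by omega) (by omega) (ih _ i1 _ j1 (by omega) (by omega) h)
  refine ⟨fun a => st^[ρ a] a, fun a ha => ?_, fun a ha b hb h => ⟨fun e => ?_, fun e => ?_⟩⟩
  · obtain ⟨i1, i2, i3⟩ := A _ a ha le_rfl
    exact ⟨i1, by simpa using i2, i3⟩
  · exact B (ρ a) a ha b hb rfl e.symm (by simpa [e] using h)
  · obtain ⟨i1, i2, i3⟩ := A (ρ a - ρ b) a ha (by omega)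
    have := B (ρ b) _ i1 b hb (by omega) rfl (by
      rw [← Function.iterate_add_apply, show ρ b + (ρ a - ρ b) = ρ a by omega]; exact h)
    rwa [this] at i3

theorem chain (N k : ℕ) : ∃ (τ : ℕ) (c : Finset ℕ → Finset ℕ),
    (∀ S ∈ Om N k, c S ∈ Om N k ∧ ∑ i ∈ c S, i = τ) ∧
    ∀ S ∈ Om N k, ∀ T ∈ Om N k, c S = c T →
      (∑ i ∈ S, i = ∑ i ∈ T, i → S = T) ∧ (∑ i ∈ S, i ≤ ∑ i ∈ T, i → G S T) := by
  have z : ∀ (v : Finset ℕ → ℝ), ∑ T ∈ Om N k, v T * v T ≤ 0 → ∀ T ∈ Om N k, v T = 0 := fun v h T hT =>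
    mul_self_eq_zero.1 ((sum_eq_zero_iff_of_nonneg fun _ _ => mul_self_nonneg _).1
      (le_antisymm h (sum_nonneg fun _ _ => mul_self_nonneg _)) T hT)
  have nn : ∀ (v : Finset ℕ → ℝ), 0 ≤ ∑ T ∈ Om N k, v T * v T := fun v =>
    sum_nonneg fun _ _ => mul_self_nonneg _
  rcases Nat.eq_zero_or_pos N with rfl | hN
  · refine ⟨0, id, fun S hS => ⟨hS, ?_⟩, fun S _ T _ h => ⟨fun _ => h, fun _ => ?_⟩⟩
    · have : S = ∅ := by simpa using (mem_powersetCard.1 hS).1
      simp [this]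
    · exact (show S = T from h) ▸ G_refl S
  set K := k * (N - 1) with hK
  have Kr : (K : ℝ) = k * (N - 1) := by rw [hK]; push_cast [Nat.cast_sub hN]; ring
  have U : ∀ τ, ∃ f : Finset ℕ → Finset ℕ, 2 * τ < K → Set.InjOn f {S | S ∈ Om N k ∧ ∑ i ∈ S, i = τ} ∧
      ∀ S ∈ Om N k, ∑ i ∈ S, i = τ → ∃ i, i + 1 < N ∧ i ∈ S ∧ i + 1 ∉ S ∧ f S = sw i S := by
    intro τ
    by_cases h : 2 * τ < K
    · obtain ⟨f, hf⟩ := hall N k τ (· + 1) id (fun i T => by simp [mem_sw]) fun v hv h0 => by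
        have := norm_id N k τ v hv
        rw [sum_eq_zero (f := fun T => EE N v T * EE N v T) fun T hT => by
          rw [show EE N v T = 0 from h0 T hT, mul_zero], ← Kr] at this
        have h' : (2 * τ : ℝ) < K := by exact_mod_cast h
        have := nn (FF N v)
        exact z v (by nlinarith)
      exact ⟨f, fun _ => hf⟩
    · exact ⟨id, fun h' => absurd h' h⟩
  have D : ∀ τ, ∃ f : Finset ℕ → Finset ℕ, K < 2 * τ → Set.InjOn f {S | S ∈ Om N k ∧ ∑ i ∈ S, i = τ} ∧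
      ∀ S ∈ Om N k, ∑ i ∈ S, i = τ → ∃ i, i + 1 < N ∧ i + 1 ∈ S ∧ i ∉ S ∧ f S = sw i S := by
    intro τ
    by_cases h : K < 2 * τ
    · obtain ⟨f, hf⟩ := hall N k τ id (· + 1) (fun i T => by simp [mem_sw]) fun v hv h0 => by
        have := norm_id N k τ v hv
        rw [sum_eq_zero (f := fun T => FF N v T * FF N v T) fun T hT => by
          rw [show FF N v T = 0 from h0 T hT, mul_zero], ← Kr] at this
        have h' : (K : ℝ) < 2 * τ := by exact_mod_cast h
        have := nn (EE N v)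
        exact z v (by nlinarith)
      exact ⟨f, fun _ => hf⟩
    · exact ⟨id, fun h' => absurd h' h⟩
  choose u hu using U
  choose d hd using D
  set τ := (K + 1) / 2 with hτ
  obtain ⟨cl, l1, l2⟩ := iter {S | S ∈ Om N k ∧ ∑ i ∈ S, i ≤ τ} (fun S => τ - ∑ i ∈ S, i) G G_refl
    (fun _ _ _ => G_trans) (fun S => u (∑ i ∈ S, i) S)
    (fun S hS h => by
      obtain ⟨i, a1, a2, a3, a4⟩ := (hu (∑ i ∈ S, i) (by omega)).2 S hS.1 rfl
      obtain ⟨b1, b2⟩ := sw_up a2 a3
      simp only [a4, Set.mem_ofPred_eq]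
      exact ⟨⟨sw_mem a1 hS.1, by omega⟩, by omega, b1⟩)
    (fun S hS T hT h e e' => by
      have e0 : ∑ i ∈ T, i = ∑ i ∈ S, i := by have := hT.2; omega
      simp only [e0] at e'
      exact (hu (∑ i ∈ S, i) (by omega)).1 ⟨hS.1, rfl⟩ ⟨hT.1, e0⟩ e')
  obtain ⟨cu, u1, u2⟩ := iter {S | S ∈ Om N k ∧ τ ≤ ∑ i ∈ S, i} (fun S => ∑ i ∈ S, i - τ)
    (fun S T => G T S) G_refl (fun _ _ _ h h' => G_trans h' h) (fun S => d (∑ i ∈ S, i) S)
    (fun S hS h => by
      obtain ⟨i, a1, a2, a3, a4⟩ := (hd (∑ i ∈ S, i) (by omega)).2 S hS.1 rfl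
      obtain ⟨b1, b2⟩ := sw_up (i := i) (S := sw i S) (by simpa [mem_sw] using a2) (by simpa [mem_sw] using a3)
      rw [sw_sw] at b1 b2
      simp only [a4, Set.mem_ofPred_eq]
      exact ⟨⟨sw_mem a1 hS.1, by omega⟩, by omega, b1⟩)
    (fun S hS T hT h e e' => by
      have e0 : ∑ i ∈ T, i = ∑ i ∈ S, i := by have := hT.2; omega
      simp only [e0] at e'
      exact (hd (∑ i ∈ S, i) (by omega)).1 ⟨hS.1, rfl⟩ ⟨hT.1, e0⟩ e')
  refine ⟨τ, fun S => if ∑ i ∈ S, i ≤ τ then cl S else cu S, fun S hS => ?_, fun S hS T hT h => ?_⟩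
  · dsimp only
    split_ifs with h
    · obtain ⟨a, b, -⟩ := l1 S ⟨hS, h⟩
      exact ⟨a.1, by have := a.2; omega⟩
    · obtain ⟨a, b, -⟩ := u1 S ⟨hS, by omega⟩
      exact ⟨a.1, by have := a.2; omega⟩
  · by_cases a : ∑ i ∈ S, i ≤ τ <;> by_cases b : ∑ i ∈ T, i ≤ τ <;> simp only [a, b, if_true, if_false] at h
    · obtain ⟨x, y⟩ := l2 S ⟨hS, a⟩ T ⟨hT, b⟩ h
      exact ⟨fun e => x (by omega), fun e => y (by omega)⟩
    · exact ⟨fun e => by omega, fun _ => G_trans (l1 S ⟨hS, a⟩).2.2 (h ▸ (u1 T ⟨hT, by omega⟩).2.2)⟩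
    · exact ⟨fun e => by omega, fun e => by omega⟩
    · obtain ⟨x, y⟩ := u2 T ⟨hT, by omega⟩ S ⟨hS, by omega⟩ h.symm
      exact ⟨fun e => (x (by omega)).symm, fun e => y (by omega)⟩

end Pool.Agent.H31.YL
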