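import Pool.Agent.H31.YL1

open Finset

namespace Pool.Agent.H31.YL

def join (n : ℕ) (z : Finset ℕ × Finset ℕ) : Finset ℕ := z.1 ∪ z.2.map (addRightEmbedding n)

theorem join_disj {n : ℕ} {x y : Finset ℕ} (hx : x ⊆ range n) : Disjoint x (y.map (addRightEmbedding n)) := by
  rw [disjoint_left]
  intro a ha hb
  obtain ⟨b, -, rfl⟩ := mem_map.1 hb
  have := mem_range.1 (hx ha)
  simp at this

theorem join_card {n : ℕ} {x y : Finset ℕ} (hx : x ⊆ range n) : (join n (x, y)).card = x.card + y.card := by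
  rw [join, card_union_of_disjoint (join_disj hx), card_map]

theorem join_sum {n : ℕ} {x y : Finset ℕ} (hx : x ⊆ range n) :
    ∑ i ∈ join n (x, y), i = ∑ i ∈ x, i + ∑ i ∈ y, i + n * y.card := by
  rw [join, sum_union (join_disj hx), sum_map]
  simp [sum_add_distrib, add_assoc, mul_comm]

theorem join_surj {n L : ℕ} {S : Finset ℕ} (hS : S ⊆ range (n + L)) :
    ∃ x ⊆ range n, ∃ y ⊆ range L, join n (x, y) = S := by
  refine ⟨S.filter (· < n), fun a ha => mem_range.2 (mem_filter.1 ha).2,
    (range L).filter (· + n ∈ S), filter_subset _ _, ?_⟩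
  ext a
  simp only [join, mem_union, mem_filter, mem_map, mem_range, addRightEmbedding_apply]
  constructor
  · rintro (h | ⟨b, hb, rfl⟩)
    · exact h.1
    · exact hb.2
  · intro h
    have := mem_range.1 (hS h)
    by_cases c : a < n
    · exact Or.inl ⟨h, c⟩
    · exact Or.inr ⟨a - n, ⟨by omega, by rwa [Nat.sub_add_cancel (by omega)]⟩, by omega⟩

theorem join_G {n : ℕ} {x y x' y' : Finset ℕ} (hx : x ⊆ range n) (hx' : x' ⊆ range n) (h1 : G x x')
    (h2 : G y y') : G (join n (x, y)) (join n (x', y')) := by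
  have : ∀ x y : Finset ℕ, x ⊆ range n → ∀ m, ((join n (x, y)).filter (m ≤ ·)).card =
      (x.filter (m ≤ ·)).card + (y.filter (m - n ≤ ·)).card := by
    intro x y hx m
    rw [join, filter_union, card_union_of_disjoint (disjoint_filter_filter (join_disj hx)), filter_map,
      card_map]
    congr 2
    exact filter_congr fun a _ => by simp
  intro m
  rw [this _ _ hx, this _ _ hx']
  exact add_le_add (h1 m) (h2 _)

def lev (N k τ : ℕ) : Finset (Finset ℕ) := {S ∈ Om N k | ∑ i ∈ S, i = τ}

theorem lev_split (n L k τ : ℕ) : (lev (n + L) k τ).card ≤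
    ({z ∈ (range n).powerset ×ˢ (range L).powerset | z.1.card + z.2.card = k ∧
      ∑ i ∈ z.1, i + ∑ i ∈ z.2, i + n * z.2.card = τ} : Finset _).card := by
  refine le_trans (card_le_card fun S hS => ?_) (card_image_le (f := join n))
  obtain ⟨h1, h2⟩ := mem_filter.1 hS
  obtain ⟨h3, h4⟩ := mem_powersetCard.1 h1
  obtain ⟨x, hx, y, hy, rfl⟩ := join_surj h3
  rw [join_card hx] at h4
  rw [join_sum hx] at h2
  exact mem_image_of_mem _ (mem_filter.2 ⟨by simp [hx, hy], h4, h2⟩)

theorem cb_up (n : ℕ) : n.centralBinom ^ 2 * (3 * n + 1) ≤ 16 ^ n := by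
  induction n with
  | zero => simp
  | succ n ih =>
    have e := Nat.succ_mul_centralBinom_succ n
    refine Nat.le_of_mul_le_mul_left (c := (n + 1) ^ 2 * (3 * n + 1)) ?_ (by positivity)
    calc (n + 1) ^ 2 * (3 * n + 1) * ((n + 1).centralBinom ^ 2 * (3 * (n + 1) + 1))
        = ((n + 1) * (n + 1).centralBinom) ^ 2 * (3 * n + 1) * (3 * n + 4) := by ring
      _ = (n.centralBinom ^ 2 * (3 * n + 1)) * (4 * (2 * n + 1) ^ 2 * (3 * n + 4)) := by rw [e]; ring
      _ ≤ 16 ^ n * (16 * ((n + 1) ^ 2 * (3 * n + 1))) := Nat.mul_le_mul ih (by nlinarith)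
      _ = _ := by ring

theorem cb_low (n : ℕ) : 16 ^ (n + 1) ≤ (n + 1).centralBinom ^ 2 * (4 * (n + 1)) := by
  induction n with
  | zero => decide
  | succ n ih =>
    have e := Nat.succ_mul_centralBinom_succ (n + 1)
    refine Nat.le_of_mul_le_mul_left (c := (n + 2) * (n + 1)) ?_ (by positivity)
    calc (n + 2) * (n + 1) * 16 ^ (n + 1 + 1) = 16 ^ (n + 1) * (16 * ((n + 2) * (n + 1))) := by ring
      _ ≤ ((n + 1).centralBinom ^ 2 * (4 * (n + 1))) * (4 * (2 * (n + 1) + 1) ^ 2) :=
          Nat.mul_le_mul ih (by nlinarith)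
      _ = ((n + 1 + 1) * (n + 1 + 1).centralBinom) ^ 2 * (4 * (n + 1)) := by rw [e]; ring
      _ = (n + 1) * ((n + 2) * ((n + 1 + 1).centralBinom ^ 2 * (4 * (n + 1 + 1)))) := by ring
      _ = _ := by ring

theorem ch_sq (m j : ℕ) : m.choose j ^ 2 * m ≤ 4 ^ m := by
  refine le_trans (Nat.mul_le_mul_right _ (Nat.pow_le_pow_left (Nat.choose_le_middle j m) 2)) ?_
  rcases Nat.even_or_odd' m with ⟨a, rfl | rfl⟩
  · rw [Nat.mul_div_cancel_left _ two_pos, ← Nat.centralBinom_eq_two_mul_choose, pow_mul]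
    exact le_trans (Nat.mul_le_mul_left _ (by omega)) (cb_up a)
  · rw [show (2 * a + 1) / 2 = a by omega]
    have e : (a + 1).centralBinom = 2 * (2 * a + 1).choose a := by
      rw [Nat.centralBinom_eq_two_mul_choose, show 2 * (a + 1) = (2 * a + 1) + 1 by ring,
        Nat.choose_succ_succ, Nat.choose_symm_half]; ring
    have := cb_up (a + 1)
    rw [e, show 16 ^ (a + 1) = 4 * 4 ^ (2 * a + 1) by rw [pow_succ, pow_succ, pow_mul]; ring] at this
    nlinarith [Nat.zero_le ((2 * a + 1).choose a ^ 2)]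

theorem ext3 {A B A' B' : Finset ℕ} (h1 : A ∩ B = A' ∩ B') (h2 : A ∪ B = A' ∪ B') (h3 : B \ A = B' \ A') :
    A = A' ∧ B = B' := by
  rw [Finset.ext_iff] at *
  rw [Finset.ext_iff]
  simp only [mem_sdiff, mem_union, mem_inter] at *
  exact ⟨fun x => by have := h1 x; have := h2 x; have := h3 x; tauto,
    fun x => by have := h1 x; have := h2 x; have := h3 x; tauto⟩

theorem i12 {I U J : Finset ℕ} (h1 : I ⊆ U) (h2 : J ⊆ U \ I) :
    U \ J ∩ (I ∪ J) = I ∧ U \ J ∪ (I ∪ J) = U := by
  constructor <;>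
  · ext x; have := @h1 x; have := @h2 x
    simp only [mem_sdiff, mem_union, mem_inter] at *; tauto

theorem j3 {I U J J' : Finset ℕ} (h1 : J ⊆ U \ I) (h2 : J' ⊆ U \ I) (h : I ∪ J = I ∪ J') : J = J' := by
  ext x; have := @h1 x; have := @h2 x; have := Finset.ext_iff.1 h x
  simp only [mem_sdiff, mem_union] at *; tauto

theorem s4 (A B : Finset ℕ) : B \ A ⊆ (A ∪ B) \ (A ∩ B) := fun x => by
  simp only [mem_sdiff, mem_union, mem_inter]; tauto

theorem block (p k τ : ℕ) (hp : p.Prime) (hk : ¬ p ∣ k) : (lev (p + p) k τ).card * p ^ 2 ≤ 4 ^ p := by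
  classical
  have := Fact.mk hp
  have p0 := hp.pos
  set PP := (range p).powerset ×ˢ (range p).powerset with hPP
  let B0 : Finset (Finset ℕ × Finset ℕ) := {z ∈ PP | z.1.card + z.2.card = k ∧ z.2.card = k / 2}
  let res : Finset ℕ × Finset ℕ → ZMod p := fun z => ((∑ i ∈ z.1, i + ∑ i ∈ z.2, i : ℕ) : ZMod p)
  let B1 : Finset (Finset ℕ × Finset ℕ) := {z ∈ B0 | res z = τ}
  have c0 : B0.card * p ≤ 4 ^ p := by
    have : B0.card ≤ p.choose (k - k / 2) * p.choose (k / 2) := by
      rw [← card_range p, ← card_powersetCard, ← card_powersetCard, ← card_product]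
      refine card_le_card fun z hz => ?_
      simp only [B0, hPP, mem_filter, mem_product, mem_powerset, mem_powersetCard] at hz ⊢
      exact ⟨⟨hz.1.1, by omega⟩, hz.1.2, hz.2.2⟩
    have a := ch_sq p (k - k / 2)
    have b := ch_sq p (k / 2)
    nlinarith [sq_nonneg ((p.choose (k - k / 2) : ℤ) - p.choose (k / 2)), Nat.mul_le_mul_right p this]
  have c1 : B1.card * p ≤ B0.card := by
    let rot : ℕ → Finset ℕ → Finset ℕ := fun t A => A.image fun a => (a + t) % p
    have inj : ∀ t, Set.InjOn (fun a => (a + t) % p) (range p : Set ℕ) := fun t a ha b hb e => by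
      have := Nat.ModEq.add_right_cancel' t e
      rwa [Nat.ModEq, Nat.mod_eq_of_lt (by simpa using ha), Nat.mod_eq_of_lt (by simpa using hb)] at this
    have rc : ∀ t A, A ⊆ range p → rot t A ⊆ range p ∧ (rot t A).card = A.card ∧
        ((∑ i ∈ rot t A, i : ℕ) : ZMod p) = (∑ i ∈ A, i : ℕ) + A.card * t := fun t A hA => by
      refine ⟨fun x hx => ?_, card_image_of_injOn ((inj t).mono hA), ?_⟩
      · obtain ⟨a, -, rfl⟩ := mem_image.1 hx; exact mem_range.2 (Nat.mod_lt _ p0)
      · rw [sum_image ((inj t).mono hA)]; simp [sum_add_distrib]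
    rw [← card_range p, ← card_product]
    refine card_le_card_of_injOn (fun w => (rot w.2 w.1.1, rot w.2 w.1.2)) (fun w hw => ?_)
      fun w hw w' hw' e => ?_
    · simp only [B1, B0, hPP, coe_product, Set.mem_prod, mem_coe, mem_filter, mem_product, mem_powerset] at hw ⊢
      obtain ⟨a1, a2, -⟩ := rc w.2 _ hw.1.1.1.1
      obtain ⟨b1, b2, -⟩ := rc w.2 _ hw.1.1.1.2
      exact ⟨⟨a1, b1⟩, by omega, by omega⟩
    · simp only [B1, B0, hPP, res, coe_product, Set.mem_prod, mem_coe, mem_filter, mem_product,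
        mem_powerset, Prod.mk.injEq, mem_range] at hw hw' e
      have a := (rc w.2 _ hw.1.1.1.1).2.2
      have b := (rc w.2 _ hw.1.1.1.2).2.2
      have a' := (rc w'.2 _ hw'.1.1.1.1).2.2
      have b' := (rc w'.2 _ hw'.1.1.1.2).2.2
      have k1 : ((w.1.1.card : ZMod p) + w.1.2.card) = k := by rw [← hw.1.1.2.1]; push_cast; rfl
      have k2 : ((w'.1.1.card : ZMod p) + w'.1.2.card) = k := by rw [← hw'.1.1.2.1]; push_cast; rfl
      have r1 := hw.1.2
      have r2 := hw'.1.2
      rw [Nat.cast_add] at r1 r2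
      rw [e.1] at a; rw [e.2] at b
      have : (k : ZMod p) * w.2 = k * w'.2 := by
        linear_combination a' + b' - a - b - r1 + r2 - (w.2 : ZMod p) * k1 + (w'.2 : ZMod p) * k2
      have := mul_left_cancel₀ ((ZMod.natCast_eq_zero_iff _ _).not.2 hk) this
      rw [ZMod.natCast_eq_natCast_iff', Nat.mod_eq_of_lt hw.2, Nat.mod_eq_of_lt hw'.2] at this
      have ii := (inj w.2).image_eq_image_iff (s₁ := w.1.1) (s₂ := w'.1.1) hw.1.1.1.1 hw'.1.1.1.1
      have i2 := (inj w.2).image_eq_image_iff (s₁ := w.1.2) (s₂ := w'.1.2) hw.1.1.1.2 hw'.1.1.1.2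
      rw [← this] at e
      refine Prod.ext (Prod.ext (coe_injective (ii.1 ?_)) (coe_injective (i2.1 ?_))) this
      · rw [← coe_image, ← coe_image]; exact congrArg _ e.1
      · rw [← coe_image, ← coe_image]; exact congrArg _ e.2
  have c2 : (lev (p + p) k τ).card ≤ B1.card := by
    refine (lev_split p p k τ).trans ?_
    rw [← hPP]
    let fb : Finset ℕ × Finset ℕ → Finset ℕ × Finset ℕ := fun z => (z.1 ∩ z.2, z.1 ∪ z.2)
    rw [card_eq_sum_card_fiberwise (f := fb) (t := PP), card_eq_sum_card_fiberwise (f := fb) (t := PP)]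
    · refine sum_le_sum fun w _ => ?_
      set F := ({z ∈ ({z ∈ PP | z.1.card + z.2.card = k ∧
        ∑ i ∈ z.1, i + ∑ i ∈ z.2, i + p * z.2.card = τ} : Finset _) | fb z = w} : Finset _) with hF
      rcases F.eq_empty_or_nonempty with h | ⟨z0, hz0⟩
      · simp [h]
      have mF : ∀ z ∈ F, z.1 ⊆ range p ∧ z.2 ⊆ range p ∧ w.1.card + w.2.card = k ∧
          ∑ i ∈ w.1, i + ∑ i ∈ w.2, i + p * z.2.card = τ ∧ z.1 ∩ z.2 = w.1 ∧ z.1 ∪ z.2 = w.2 := by
        intro z hz
        simp only [hF, hPP, fb, mem_filter, mem_product, mem_powerset, Prod.ext_iff] at hz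
        obtain ⟨⟨⟨a1, a2⟩, a3, a4⟩, a5, a6⟩ := hz
        have := card_union_add_card_inter z.1 z.2
        have := sum_union_inter (s₁ := z.1) (s₂ := z.2) (f := fun i => i)
        rw [← a5, ← a6]
        exact ⟨a1, a2, by omega, by omega, rfl, rfl⟩
      obtain ⟨a1, a2, a3, a4, a5, a6⟩ := mF z0 hz0
      have wU : w.2 ⊆ range p := a6 ▸ union_subset a1 a2
      have wI : w.1 ⊆ w.2 := a5 ▸ a6 ▸ inter_subset_union
      have cD := card_sdiff_add_card_eq_card wI
      calc F.card ≤ (powersetCard (z0.2.card - w.1.card) (w.2 \ w.1)).card := by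
            refine card_le_card_of_injOn (fun z => z.2 \ z.1) (fun z hz => ?_) fun z hz z' hz' e => ?_
            · obtain ⟨-, -, -, b4, b5, b6⟩ := mF z hz
              refine mem_coe.2 (mem_powersetCard.2 ⟨?_, ?_⟩)
              · rw [← b5, ← b6]; exact s4 _ _
              · have := card_sdiff_add_card_inter z.2 z.1
                rw [inter_comm, b5] at this
                have : z.2.card = z0.2.card := Nat.eq_of_mul_eq_mul_left p0 (by omega)
                simp only; omega
            · obtain ⟨-, -, -, -, b5, b6⟩ := mF z hz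
              obtain ⟨-, -, -, -, c5, c6⟩ := mF z' hz'
              exact Prod.ext_iff.2 (ext3 (b5.trans c5.symm) (b6.trans c6.symm) e)
        _ ≤ (powersetCard ((w.2 \ w.1).card / 2) (w.2 \ w.1)).card := by
            rw [card_powersetCard, card_powersetCard]; exact Nat.choose_le_middle _ _
        _ ≤ _ := by
            refine card_le_card_of_injOn (fun J => (w.2 \ J, w.1 ∪ J)) (fun J hJ => ?_) fun J hJ J' hJ' e => ?_
            · obtain ⟨j1, j2⟩ := mem_powersetCard.1 hJ
              obtain ⟨i1, i2⟩ := i12 wI j1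
              have s1 := card_union_add_card_inter (w.2 \ J) (w.1 ∪ J)
              have s2 := sum_union_inter (s₁ := w.2 \ J) (s₂ := w.1 ∪ J) (f := fun i => i)
              rw [i1, i2] at s1 s2
              have s3 : (w.1 ∪ J).card = w.1.card + J.card :=
                card_union_of_disjoint (disjoint_of_subset_right j1 disjoint_sdiff)
              simp only [B1, B0, hPP, fb, res, coe_filter, mem_filter, mem_product, mem_powerset,
                Set.mem_ofPred_eq, i1, i2, and_true]
              refine ⟨⟨⟨sdiff_subset.trans wU, union_subset (wI.trans wU)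
                (j1.trans (sdiff_subset.trans wU))⟩, by omega, by omega⟩, ?_⟩
              rw [← s2, ← a4]; push_cast; simp [add_comm]
            · exact j3 (mem_powersetCard.1 hJ).1 (mem_powersetCard.1 hJ').1 (congrArg Prod.snd e)
    all_goals
      intro z hz
      have : z ∈ PP := by
        first
        | exact (mem_filter.1 hz).1
        | exact (mem_filter.1 (mem_filter.1 hz).1).1
      simp only [hPP, fb, mem_product, mem_powerset, mem_coe] at this ⊢
      exact ⟨inter_subset_left.trans this.1, union_subset this.1 this.2⟩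
  calc _ ≤ B1.card * p * p := by rw [mul_assoc, ← sq]; exact Nat.mul_le_mul_right _ c2
    _ ≤ _ := (Nat.mul_le_mul_right _ c1).trans c0

theorem recur (n p : ℕ) (hp : p.Prime) (μ : ℝ) (h : ∀ k τ, ((lev n k τ).card : ℝ) ≤ μ * 2 ^ n) (k τ : ℕ) :
    ((lev (n + (p + p)) k τ).card : ℝ) ≤ (1 / p ^ 2 + 3 / √(2 * p) * μ) * 2 ^ (n + (p + p)) := by
  have p0 : (0 : ℝ) < p := by exact_mod_cast hp.pos
  have μ0 : 0 ≤ μ * 2 ^ n := le_trans (by positivity) (h 0 0)
  refine le_trans (Nat.cast_le.2 (lev_split n (p + p) k τ)) ?_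
  set Z := ({z ∈ (range n).powerset ×ˢ (range (p + p)).powerset | z.1.card + z.2.card = k ∧
      ∑ i ∈ z.1, i + ∑ i ∈ z.2, i + n * z.2.card = τ} : Finset _) with hZ
  rw [← card_filter_add_card_filter_not (s := Z) (fun z => p ∣ z.2.card), Nat.cast_add, add_comm, add_mul]
  have e4 : (2 : ℝ) ^ (n + (p + p)) = 2 ^ n * 4 ^ p := by
    rw [pow_add, ← two_mul, pow_mul]; norm_num
  refine add_le_add ?_ ?_
  · rw [card_eq_sum_card_fiberwise (f := Prod.fst) (t := (range n).powerset)
      (fun z hz => (mem_product.1 (mem_filter.1 (mem_filter.1 hz).1).1).1), Nat.cast_sum]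
    refine (sum_le_card_nsmul _ _ (4 ^ p / p ^ 2 : ℝ) fun x _ => ?_).trans (le_of_eq ?_)
    · by_cases c : p ∣ k - x.card
      · rw [filter_false_of_mem]
        · simp; positivity
        · intro z hz e
          simp only [mem_filter] at hz
          refine hz.2 ?_
          rwa [show z.2.card = k - x.card by rw [← e]; omega]
      · have := block p (k - x.card) (τ - ∑ i ∈ x, i - n * (k - x.card)) hp c
        rw [le_div_iff₀ (by positivity)]
        refine le_trans ?_ (show ((lev (p + p) (k - x.card) _).card * p ^ 2 : ℝ) ≤ _ by exact_mod_cast this)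
        refine mul_le_mul_of_nonneg_right (Nat.cast_le.2 ?_) (by positivity)
        refine card_le_card_of_injOn Prod.snd (fun z hz => ?_) fun z hz z' hz' e =>
          Prod.ext ((mem_filter.1 hz).2.trans (mem_filter.1 hz').2.symm) e
        simp only [lev, Om, coe_filter, mem_filter, mem_product, mem_powerset, mem_powersetCard,
          Set.mem_ofPred_eq] at hz ⊢
        obtain ⟨⟨⟨⟨-, a⟩, b, c⟩, -⟩, rfl⟩ := hz
        have : z.2.card = k - z.1.card := by omega
        rw [← this]
        exact ⟨⟨a, rfl⟩, by omega⟩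
    · rw [card_powerset, card_range, e4]; simp; ring
  · let Y : Finset (Finset ℕ) := {y ∈ (range (p + p)).powerset | p ∣ y.card}
    have cY : (Y.card : ℝ) ≤ 3 / √(2 * p) * 4 ^ p := by
      have c1 : Y.card ≤ 3 * (p + p).choose p := by
        have : Y ⊆ powersetCard 0 (range (p + p)) ∪ powersetCard p (range (p + p)) ∪
            powersetCard (p + p) (range (p + p)) := by
          intro y hy
          simp only [Y, mem_filter, mem_powerset, mem_union, mem_powersetCard] at hy ⊢
          obtain ⟨a, c, hc⟩ := hy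
          have := card_le_card a
          rw [card_range] at this
          have : c ≤ 2 := by by_contra h; have := hp.pos; nlinarith
          rcases (by omega : c = 0 ∨ c = 1 ∨ c = 2) with rfl | rfl | rfl
          · exact Or.inl (Or.inl ⟨a, by omega⟩)
          · exact Or.inl (Or.inr ⟨a, by omega⟩)
          · exact Or.inr ⟨a, by omega⟩
        refine (card_le_card this).trans ((card_union_le _ _).trans ?_)
        have := card_union_le (powersetCard 0 (range (p + p))) (powersetCard p (range (p + p)))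
        have : 0 < (p + p).choose p := Nat.choose_pos (by omega)
        simp only [card_powersetCard, card_range, Nat.choose_zero_right, Nat.choose_self] at *
        omega
      have c2 : ((p + p).choose p : ℝ) * √(2 * p) ≤ 4 ^ p := by
        have := ch_sq (p + p) p
        have h2 : (((p + p).choose p : ℝ)) ^ 2 * (2 * p) ≤ (4 ^ p) ^ 2 := by
          rw [← pow_mul, mul_two, two_mul]; exact_mod_cast this
        refine le_of_sq_le_sq ?_ (by positivity)
        rwa [mul_pow, Real.sq_sqrt (by positivity)]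
      have : 0 < √(2 * p) := Real.sqrt_pos.2 (by positivity)
      rw [div_mul_eq_mul_div, le_div_iff₀ this]
      have c1 : (Y.card : ℝ) ≤ 3 * (p + p).choose p := by exact_mod_cast c1
      nlinarith
    rw [card_eq_sum_card_fiberwise (f := Prod.snd) (t := Y) (fun z hz => mem_filter.2
      ⟨(mem_product.1 (mem_filter.1 (mem_filter.1 hz).1).1).2, (mem_filter.1 hz).2⟩), Nat.cast_sum]
    refine (sum_le_card_nsmul _ _ (μ * 2 ^ n) fun y _ => ?_).trans ?_
    · refine le_trans (Nat.cast_le.2 ?_) (h (k - y.card) (τ - ∑ i ∈ y, i - n * y.card))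
      refine card_le_card_of_injOn Prod.fst (fun z hz => ?_) fun z hz z' hz' e =>
        Prod.ext e ((mem_filter.1 hz).2.trans (mem_filter.1 hz').2.symm)
      simp only [lev, Om, coe_filter, mem_filter, mem_product, mem_powerset, mem_powersetCard,
        Set.mem_ofPred_eq] at hz ⊢
      obtain ⟨⟨⟨⟨a, -⟩, b, c⟩, -⟩, rfl⟩ := hz
      exact ⟨⟨a, by omega⟩, by omega⟩
    · rw [nsmul_eq_mul, e4]
      exact (mul_le_mul_of_nonneg_right cY μ0).trans (le_of_eq (by ring))

theorem lev_triv (n k τ : ℕ) : ((lev n k τ).card : ℝ) ≤ 1 * 2 ^ n := by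
  have : (lev n k τ).card ≤ (range n).powerset.card :=
    card_le_card fun S hS => mem_powerset.2 (mem_powersetCard.1 (mem_filter.1 hS).1).1
  rw [card_powerset, card_range] at this
  rw [one_mul]; exact_mod_cast this

theorem anti (N k τ : ℕ) (hN : 1 ≤ N) : ((lev N k τ).card : ℝ) ≤ 8000 / N ^ 2 * 2 ^ N := by
  have N0 : (0 : ℝ) < N := by exact_mod_cast hN
  by_cases h : N < 16
  · refine (lev_triv N k τ).trans (mul_le_mul_of_nonneg_right ?_ (by positivity))
    have : (N : ℝ) < 16 := by exact_mod_cast h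
    rw [le_div_iff₀ (by positivity)]; nlinarith
  obtain ⟨p, hp, p1, p2⟩ := Nat.exists_prime_lt_and_le_two_mul (N / 16) (by omega)
  obtain ⟨n, rfl⟩ : ∃ n, N = n + (p + p) + (p + p) + (p + p) + (p + p) := ⟨N - 8 * p, by omega⟩
  refine (recur _ p hp _ (recur _ p hp _ (recur _ p hp _ (recur _ p hp _ (lev_triv n)))) k τ).trans
    (mul_le_mul_of_nonneg_right ?_ (by positivity))
  generalize n + (p + p) + (p + p) + (p + p) + (p + p) = N at *
  have p2 : (2 : ℝ) ≤ p := by exact_mod_cast hp.two_le
  have hs : √(2 * p) * √(2 * p) = 2 * p := Real.mul_self_sqrt (by positivity)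
  have s2 : 2 ≤ √(2 * p) := Real.le_sqrt_of_sq_le (by linarith)
  set β := 3 / √(2 * p) with hβ
  have b0 : 0 ≤ β := by positivity
  have b1 : β ≤ 3 / 2 := div_le_div_of_nonneg_left (by norm_num) (by norm_num) s2
  have b2 : β * β = 9 / (2 * p) := by rw [hβ, div_mul_div_comm, hs]; norm_num
  have b4 : β * β * (β * β) = 81 / 4 * (1 / p ^ 2) := by rw [b2]; field_simp; norm_num
  have q0 : (0 : ℝ) < 1 / p ^ 2 := by positivity
  have Np : (N : ℝ) ≤ 16 * p := by exact_mod_cast (by omega : N ≤ 16 * p)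
  have : (1 / p ^ 2 : ℝ) ≤ 256 / N ^ 2 := by
    rw [div_le_div_iff₀ (by positivity) (by positivity)]; nlinarith
  have bb : β * β ≤ 9 / 4 := by nlinarith
  have b3 : β * β * β ≤ 27 / 8 := by nlinarith
  calc _ = (1 + β + β * β + β * β * β) * (1 / p ^ 2) + β * β * (β * β) := by ring
    _ ≤ 9 * (1 / p ^ 2) + 81 / 4 * (1 / p ^ 2) :=
      add_le_add (mul_le_mul_of_nonneg_right (by linarith) q0.le) b4.le
    _ ≤ 30 * (256 / N ^ 2) := by linarith
    _ ≤ _ := by rw [← mul_div_assoc]; exact div_le_div_of_nonneg_right (by norm_num) (by positivity)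

end Pool.Agent.H31.YL
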