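import Pool.Agent.H31.YL2

open Finset

namespace Pool.Agent.H31.YL

theorem prod_inj {α : Type} [DecidableEq α] (P : Set α) (R : α → α → Prop) (r : α → ℕ) (c : α → α)
    (hc : ∀ a ∈ P, ∀ b ∈ P, c a = c b → (r a = r b → a = b) ∧ (r a ≤ r b → R a b))
    (A B : Finset (α × α)) (hA : ∀ z ∈ A, z.1 ∈ P ∧ z.2 ∈ P) (hB : ∀ z ∈ B, z.1 ∈ P ∧ z.2 ∈ P)
    (aA : ∀ z ∈ A, ∀ w ∈ A, R z.1 w.1 → R z.2 w.2 → z = w)
    (aB : ∀ z ∈ B, ∀ w ∈ B, R z.1 w.1 → R z.2 w.2 → z = w)
    (h1 : (A.image fun z => (z.1, c z.2)) = B.image fun z => (z.1, c z.2))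
    (h2 : (A.image fun z => (c z.1, z.2)) = B.image fun z => (c z.1, z.2)) : A = B := by
  have H : ∀ (A B : Finset (α × α)), (∀ z ∈ A, z.1 ∈ P ∧ z.2 ∈ P) → (∀ z ∈ B, z.1 ∈ P ∧ z.2 ∈ P) →
      (∀ z ∈ A, ∀ w ∈ A, R z.1 w.1 → R z.2 w.2 → z = w) →
      (∀ z ∈ B, ∀ w ∈ B, R z.1 w.1 → R z.2 w.2 → z = w) →
      ((A.image fun z => (c z.1, z.2)) = B.image fun z => (c z.1, z.2)) →
      ∀ x y y', (x, y) ∈ A → (x, y') ∈ B → c y' = c y → r y' < r y →
      (∀ z, r z.1 < r x → (z ∈ A ↔ z ∈ B)) → False := by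
    intro A B hA hB aA aB h2 x y y' a b e l m
    obtain ⟨⟨x', y''⟩, hz, e'⟩ := mem_image.1 (h2.le (mem_image_of_mem _ a))
    simp only [Prod.mk.injEq] at e'
    obtain ⟨e1, rfl⟩ := e'
    have px := (hA _ a).1
    have py := (hA _ a).2
    have px' := (hB _ hz).1
    have py' := (hB _ b).2
    by_cases k : r x ≤ r x'
    · have := aB _ b _ hz ((hc x px x' px' e1.symm).2 k) ((hc y' py' y'' py e).2 l.le)
      simp only [Prod.mk.injEq] at this
      rw [this.2] at l; omega
    · have := aA _ ((m (x', y'') (by simpa using k)).2 hz) _ a ((hc x' px' x px e1).2 (by omega))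
        ((hc y'' py y'' py rfl).2 le_rfl)
      simp only [Prod.mk.injEq] at this
      rw [this.1] at k; omega
  have K : ∀ n, ∀ z : α × α, r z.1 = n → (z ∈ A ↔ z ∈ B) := by
    intro n
    induction n using Nat.strong_induction_on with
    | _ n ih =>
    rintro ⟨x, y⟩ hz
    have m : ∀ z : α × α, r z.1 < r x → (z ∈ A ↔ z ∈ B) := fun z h => ih _ (hz ▸ h) z rfl
    constructor
    · intro a
      obtain ⟨⟨x', y'⟩, b, e'⟩ := mem_image.1 (h1.le (mem_image_of_mem _ a))
      simp only [Prod.mk.injEq] at e'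
      obtain ⟨rfl, e⟩ := e'
      rcases lt_trichotomy (r y') (r y) with l | l | l
      · exact (H A B hA hB aA aB h2 _ _ _ a b e l m).elim
      · rwa [← (hc y' (hB _ b).2 y (hA _ a).2 e).1 l]
      · exact (H B A hB hA aB aA h2.symm _ _ _ b a e.symm l fun z h => (m z h).symm).elim
    · intro a
      obtain ⟨⟨x', y'⟩, b, e'⟩ := mem_image.1 (h1.ge (mem_image_of_mem _ a))
      simp only [Prod.mk.injEq] at e'
      obtain ⟨rfl, e⟩ := e'
      rcases lt_trichotomy (r y') (r y) with l | l | l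
      · exact (H B A hB hA aB aA h2.symm _ _ _ a b e l fun z h => (m z h).symm).elim
      · rwa [← (hc y' (hA _ b).2 y (hB _ a).2 e).1 l]
      · exact (H A B hA hB aA aB h2 _ _ _ b a e.symm l m).elim
  exact ext fun z => K _ z rfl

abbrev L (n : ℕ) := {l : Fin n → Fin (n + 1) // Antitone l}

def av {n : ℕ} (l : L n) (i : Fin n) : ℕ := l.1 i + (n - 1 - i)

theorem av_anti {n : ℕ} (l : L n) : StrictAnti (av l) := fun i j h => by
  have h1 : (l.1 j : ℕ) ≤ l.1 i := l.2 h.le
  have h2 : (i : ℕ) < j := h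
  have := j.2
  unfold av; omega

def ph {n : ℕ} (l : L n) : Finset ℕ := univ.image (av l)

theorem ph_mem {n : ℕ} (l : L n) : ph l ∈ Om (n + n) n := by
  refine mem_powersetCard.2 ⟨fun x hx => ?_, by
    rw [ph, card_image_of_injective _ (av_anti l).injective]; simp⟩
  obtain ⟨i, -, rfl⟩ := mem_image.1 hx
  have := (l.1 i).2
  have := i.2
  rw [mem_range]; unfold av; omega

theorem ph_le {n : ℕ} {l m : L n} (h : G (ph l) (ph m)) : l ≤ m := by
  intro i
  by_contra hc
  have hc : av m i < av l i := by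
    have : (m.1 i : ℕ) < l.1 i := not_le.1 hc
    unfold av; omega
  have h1 : (Iic i).image (av l) ⊆ (ph l).filter (av l i ≤ ·) := fun x hx => by
    obtain ⟨j, hj, rfl⟩ := mem_image.1 hx
    exact mem_filter.2 ⟨mem_image_of_mem _ (mem_univ _), (av_anti l).antitone (mem_Iic.1 hj)⟩
  have h2 : (ph m).filter (av l i ≤ ·) ⊆ (Iio i).image (av m) := fun x hx => by
    obtain ⟨a, b⟩ := mem_filter.1 hx
    obtain ⟨j, -, rfl⟩ := mem_image.1 a
    exact mem_image_of_mem _ (mem_Iio.2 ((av_anti m).lt_iff_gt.1 (hc.trans_le b)))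
  have := (card_le_card h1).trans ((h _).trans ((card_le_card h2).trans card_image_le))
  rw [card_image_of_injective _ (av_anti l).injective] at this
  simp at this

theorem ph_inj {n : ℕ} {l m : L n} (h : ph l = ph m) : l = m :=
  le_antisymm (ph_le (h ▸ G_refl _)) (ph_le (h ▸ G_refl _))

theorem ph_sum {n : ℕ} {l m : L n} (h : l ≤ m) (e : ∑ i ∈ ph l, i = ∑ i ∈ ph m, i) : l = m := by
  rw [ph, ph, sum_image (av_anti l).injective.injOn, sum_image (av_anti m).injective.injOn] at e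
  have := (sum_eq_sum_iff_of_le (fun i _ => by
    have : (l.1 i : ℕ) ≤ m.1 i := h i
    unfold av; omega)).1 e
  refine Subtype.ext (funext fun i => Fin.ext ?_)
  have := this i (mem_univ _)
  unfold av at this; omega

theorem ph_surj {n : ℕ} {S : Finset ℕ} (hS : S ∈ Om (n + n) n) : ∃ l : L n, ph l = S := by
  obtain ⟨h1, h2⟩ := mem_powersetCard.1 hS
  let e := S.orderEmbOfFin h2
  have st : ∀ d (j : Fin n) (h : j + d < n), e j + d ≤ e ⟨j + d, h⟩ := by
    intro d
    induction d with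
    | zero => exact fun j _ => le_rfl
    | succ d ih =>
      intro j h
      have := ih j (by omega)
      have : e ⟨j + d, by omega⟩ < e ⟨j + (d + 1), h⟩ := e.strictMono (by simp [Fin.lt_def])
      omega
  have st' : ∀ i j : Fin n, i ≤ j → e i + (j - i) ≤ e j := fun i j h => by
    have h : (i : ℕ) ≤ j := h
    have := st (j - i) i (by omega)
    rwa [show (⟨i + (j - i), by omega⟩ : Fin n) = j from Fin.ext (by simp; omega)] at this
  have lo : ∀ j : Fin n, (j : ℕ) ≤ e j := fun j => by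
    have := st' ⟨0, j.pos⟩ j (by simp [Fin.le_def]); simp at this; omega
  have hi : ∀ j : Fin n, e j - j < n + 1 := fun j => by
    have := st' j ⟨n - 1, by have := j.pos; omega⟩ (by have := j.2; simp [Fin.le_def]; omega)
    have h3 := mem_range.1 (h1 (S.orderEmbOfFin_mem h2 ⟨n - 1, by have := j.pos; omega⟩))
    have := j.2
    simp only [e] at *
    omega
  refine ⟨⟨fun i => ⟨e i.rev - i.rev, hi _⟩, fun i j h => ?_⟩, ?_⟩
  · have := st' j.rev i.rev (Fin.rev_le_rev.2 h)
    have := lo j.rev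
    have : (j.rev : ℕ) ≤ i.rev := Fin.rev_le_rev.2 h
    simp only [Fin.mk_le_mk]; omega
  · have : ∀ i : Fin n, e i.rev - i.rev + (n - 1 - i) = e i.rev := fun i => by
      have := lo i.rev
      rw [Fin.val_rev] at *; omega
    ext x
    simp only [ph, av, this, mem_image, mem_univ, true_and]
    constructor
    · rintro ⟨i, rfl⟩; exact S.orderEmbOfFin_mem h2 _
    · intro hx
      obtain ⟨i, hi⟩ : x ∈ Set.range e := by rw [range_orderEmbOfFin]; exact hx
      exact ⟨i.rev, by rw [Fin.rev_rev, hi]⟩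

noncomputable def AC (n : ℕ) : ℕ := Nat.card {A : Set (L n) // IsAntichain (· ≤ ·) A}

theorem upper (n : ℕ) (hn : 1 ≤ n) : Real.logb 2 (AC n) ≤ 16000 / n ^ 2 * 4 ^ n := by
  classical
  choose τ c c1 c2 using chain n
  let P := (range n).powerset
  let C : Finset ℕ → Finset ℕ := fun x => c x.card x
  have mem : ∀ x ∈ P, x ∈ Om n x.card := fun x hx => mem_powersetCard.2 ⟨mem_powerset.1 hx, rfl⟩
  have hC : ∀ a ∈ (P : Set (Finset ℕ)), ∀ b ∈ (P : Set (Finset ℕ)), C a = C b →
      (∑ i ∈ a, i = ∑ i ∈ b, i → a = b) ∧ (∑ i ∈ a, i ≤ ∑ i ∈ b, i → G a b) := by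
    intro a ha b hb e
    have e' : b.card = a.card := by
      rw [← (mem_powersetCard.1 (c1 _ a (mem a ha)).1).2, ← (mem_powersetCard.1 (c1 _ b (mem b hb)).1).2]
      exact congrArg card e.symm
    exact c2 _ a (mem a ha) b (e' ▸ mem b hb) (by simpa only [C, e'] using e)
  let W : Finset (Finset ℕ × Finset ℕ) := P.biUnion fun x => (lev n (n - x.card) (τ (n - x.card))).image (x, ·)
  have cW : (W.card : ℝ) ≤ 8000 / n ^ 2 * 4 ^ n := by
    refine (Nat.cast_le.2 card_biUnion_le).trans ?_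
    rw [Nat.cast_sum]
    refine (sum_le_card_nsmul _ _ (8000 / n ^ 2 * 2 ^ n : ℝ) fun x _ =>
      (Nat.cast_le.2 card_image_le).trans (anti n _ _ hn)).trans (le_of_eq ?_)
    rw [card_powerset, card_range, show (4 : ℝ) = 2 * 2 by norm_num, mul_pow]; simp; ring
  let Z : Set (L n) → Finset (Finset ℕ × Finset ℕ) := fun A => {z ∈ P ×ˢ P | ∃ l ∈ A, join n z = ph l}
  have Zc : ∀ A, ∀ z ∈ Z A, z.1 ∈ P ∧ z.2 ∈ P ∧ z.1.card + z.2.card = n := fun A z hz => by
    obtain ⟨h, l, -, e⟩ := mem_filter.1 hz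
    obtain ⟨a, b⟩ := mem_product.1 h
    refine ⟨a, b, ?_⟩
    rw [← join_card (mem_powerset.1 a), e, (mem_powersetCard.1 (ph_mem l)).2]
  have Za : ∀ A, IsAntichain (· ≤ ·) A → ∀ z ∈ Z A, ∀ w ∈ Z A, G z.1 w.1 → G z.2 w.2 → z = w := by
    intro A hA z hz w hw g1 g2
    obtain ⟨h, l, hl, e⟩ := mem_filter.1 hz
    obtain ⟨h', m, hm, e'⟩ := mem_filter.1 hw
    have a := mem_powerset.1 (mem_product.1 h).1
    have b := mem_powerset.1 (mem_product.1 h').1
    have := hA.eq hl hm (ph_le (e ▸ e' ▸ join_G a b g1 g2))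
    subst this
    have j := Finset.ext_iff.1 (e.trans e'.symm)
    simp only [join, mem_union, mem_map, addRightEmbedding_apply] at j
    refine Prod.ext (ext fun x => ?_) (ext fun x => ?_)
    · have := j x
      have h1 := fun h => mem_range.1 (@a x h)
      have h2 := fun h => mem_range.1 (@b x h)
      constructor
      · exact fun h => (this.1 (Or.inl h)).resolve_right fun ⟨_, _, e⟩ => by have := h1 h; omega
      · exact fun h => (this.2 (Or.inl h)).resolve_right fun ⟨_, _, e⟩ => by have := h2 h; omega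
    · have := j (x + n)
      have h1 : x + n ∉ z.1 := fun h => by simpa using a h
      have h2 : x + n ∉ w.1 := fun h => by simpa using b h
      simpa [h1, h2] using this
  have lab : ∀ x ∈ P, ∀ y ∈ P, x.card + y.card = n → (x, C y) ∈ W := fun x hx y hy e =>
    mem_biUnion.2 ⟨x, hx, mem_image_of_mem _ (by
      rw [show n - x.card = y.card by omega]; exact mem_filter.2 (c1 _ y (mem y hy)))⟩
  let f : {A : Set (L n) // IsAntichain (· ≤ ·) A} → ↥(W.powerset ×ˢ W.powerset) := fun A =>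
    ⟨((Z A).image fun z => (z.1, C z.2), (Z A).image fun z => (z.2, C z.1)), by
      simp only [mem_product, mem_powerset, image_subset_iff]
      exact ⟨fun z hz => lab _ (Zc _ z hz).1 _ (Zc _ z hz).2.1 (Zc _ z hz).2.2,
        fun z hz => lab _ (Zc _ z hz).2.1 _ (Zc _ z hz).1 (by have := (Zc _ z hz).2.2; omega)⟩⟩
  have inj : Function.Injective f := by
    intro A B e
    have e := Prod.ext_iff.1 (congrArg Subtype.val e)
    have := prod_inj (P : Set (Finset ℕ)) G (fun S => ∑ i ∈ S, i) C hC (Z A) (Z B)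
      (fun z hz => ⟨(Zc _ z hz).1, (Zc _ z hz).2.1⟩) (fun z hz => ⟨(Zc _ z hz).1, (Zc _ z hz).2.1⟩)
      (Za _ A.2) (Za _ B.2) e.1 (by
        have := congrArg (image Prod.swap) e.2
        simp only [f, image_image] at this
        exact this)
    have key : ∀ (A : Set (L n)) l, l ∈ A ↔ ∃ z ∈ Z A, join n z = ph l := fun A l => by
      constructor
      · intro h
        obtain ⟨x, hx, y, hy, e⟩ := join_surj (mem_powersetCard.1 (ph_mem l)).1
        exact ⟨(x, y), mem_filter.2 ⟨mem_product.2 ⟨mem_powerset.2 hx, mem_powerset.2 hy⟩, l, h, e⟩, e⟩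
      · rintro ⟨z, hz, e⟩
        obtain ⟨-, m, hm, e'⟩ := mem_filter.1 hz
        exact ph_inj (e'.symm.trans e) ▸ hm
    exact Subtype.ext (Set.ext fun l => by rw [key, key, this])
  have := Nat.card_le_card_of_injective f inj
  rw [Nat.card_eq_fintype_card (α := ↥(W.powerset ×ˢ W.powerset)), Fintype.card_coe, card_product,
    card_powerset, ← pow_add] at this
  have pos : 0 < AC n := by
    have : Nonempty {A : Set (L n) // IsAntichain (· ≤ ·) A} := ⟨⟨∅, IsAntichain.empty⟩⟩
    exact Nat.card_pos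
  rw [Real.logb_le_iff_le_rpow (by norm_num) (by exact_mod_cast pos)]
  calc (AC n : ℝ) ≤ (2 : ℝ) ^ ((W.card + W.card : ℕ) : ℝ) := by
        rw [Real.rpow_natCast]; exact_mod_cast this
    _ ≤ _ := Real.rpow_le_rpow_of_exponent_le (by norm_num) (by
        push_cast; rw [show (16000 : ℝ) / n ^ 2 * 4 ^ n = 2 * (8000 / n ^ 2 * 4 ^ n) by ring]; linarith)

theorem lev_le (n τ : ℕ) : ((lev (n + n) n τ).card : ℝ) ≤ Real.logb 2 (AC n) := by
  classical
  let f : ↥(lev (n + n) n τ).powerset → {A : Set (L n) // IsAntichain (· ≤ ·) A} := fun X =>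
    ⟨{l | ph l ∈ X.1}, fun l hl m hm h e => h (ph_sum e (by
      rw [(mem_filter.1 (mem_powerset.1 X.2 hl)).2, (mem_filter.1 (mem_powerset.1 X.2 hm)).2]))⟩
  have inj : Function.Injective f := by
    intro X Y e
    have e := Set.ext_iff.1 (congrArg Subtype.val e)
    refine Subtype.ext (ext fun S => ⟨fun h => ?_, fun h => ?_⟩)
    · obtain ⟨l, rfl⟩ := ph_surj (mem_filter.1 (mem_powerset.1 X.2 h)).1
      exact (e l).1 h
    · obtain ⟨l, rfl⟩ := ph_surj (mem_filter.1 (mem_powerset.1 Y.2 h)).1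
      exact (e l).2 h
  have := Nat.card_le_card_of_injective f inj
  rw [Nat.card_eq_fintype_card, Fintype.card_coe, card_powerset] at this
  have pos : 0 < AC n := lt_of_lt_of_le (by positivity) this
  rw [Real.le_logb_iff_rpow_le (by norm_num) (by exact_mod_cast pos), Real.rpow_natCast]
  exact_mod_cast this

theorem var (n : ℕ) (hn : 2 ≤ n) :
    ∑ S ∈ Om (n + n) n, (∑ i ∈ S, (2 * i + 1 - 2 * n : ℤ)) ^ 2 ≤ 8 * n ^ 3 * (n + n).choose n := by
  let c : ℕ → ℤ := fun i => 2 * i + 1 - 2 * n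
  have c0 : ∑ i ∈ range (n + n), c i = 0 := by
    have : ∀ m, ∑ i ∈ range m, c i = m * m - 2 * n * m := fun m => by
      induction m with
      | zero => simp
      | succ m ih => rw [sum_range_succ, ih]; simp only [c]; push_cast; ring
    rw [this]; push_cast; ring
  let N : ℕ → ℕ → ℤ := fun i j => ({S ∈ Om (n + n) n | {i, j} ⊆ S} : Finset _).card
  have e1 : ∑ S ∈ Om (n + n) n, (∑ i ∈ S, c i) ^ 2 =
      ∑ i ∈ range (n + n), ∑ j ∈ range (n + n), c i * c j * N i j := by
    have : ∀ S ∈ Om (n + n) n, (∑ i ∈ S, c i) ^ 2 = ∑ i ∈ range (n + n), ∑ j ∈ range (n + n),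
        if {i, j} ⊆ S then c i * c j else 0 := fun S hS => by
      have : ∑ i ∈ S, c i = ∑ i ∈ range (n + n), if i ∈ S then c i else 0 := by
        rw [← sum_filter, filter_mem_eq_inter, inter_eq_right.2 (mem_powersetCard.1 hS).1]
      rw [this, sq, sum_mul_sum]
      refine sum_congr rfl fun i _ => sum_congr rfl fun j _ => ?_
      by_cases a : i ∈ S <;> by_cases b : j ∈ S <;> simp [a, b, insert_subset_iff]
    rw [sum_congr rfl this, sum_comm]
    refine sum_congr rfl fun i _ => ?_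
    rw [sum_comm]
    refine sum_congr rfl fun j _ => ?_
    rw [← sum_filter, sum_const, nsmul_eq_mul, mul_comm]
  set p2 : ℤ := (((n + n - 2).choose (n - 2) : ℕ) : ℤ) with hp2
  have e2 : ∀ i ∈ range (n + n), ∑ j ∈ range (n + n), c i * c j * N i j ≤
      ∑ j ∈ range (n + n), c i * c j * p2 + 4 * n ^ 2 * (n + n).choose n := by
    intro i hi
    rw [← sub_le_iff_le_add', ← sum_sub_distrib, sum_eq_single i (fun j hj h => ?_) (fun h => absurd hi h)]
    · have a : N i i ≤ (n + n).choose n := by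
        simp only [N]
        exact_mod_cast (card_filter_le _ _).trans (by rw [Om, card_powersetCard, card_range])
      have b : c i * c i ≤ 4 * n ^ 2 := by
        have : (i : ℤ) < n + n := by exact_mod_cast mem_range.1 hi
        have : (0 : ℤ) ≤ i := by positivity
        simp only [c]; nlinarith
      have := mul_le_mul b a (by positivity) (by positivity)
      have : 0 ≤ c i * c i * p2 := mul_nonneg (mul_self_nonneg _) (by positivity)
      linarith
    · simp only [N, Om]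
      rw [card_filter_powersetCard_subset _ _ _ (by simp [insert_subset_iff, hi, hj, -mem_range])
        (by rw [card_pair h.symm]; exact hn), card_pair h.symm, card_range, sub_self]
  rw [e1]
  refine (sum_le_sum e2).trans (le_of_eq ?_)
  simp only [← sum_mul, ← mul_sum, c0]
  simp; ring

theorem lower (n : ℕ) (hn : 2 ≤ n) : ((n + n).choose n : ℝ) / (34 * (n * √n)) ≤ Real.logb 2 (AC n) := by
  classical
  set a := Real.logb 2 (AC n)
  let X : Finset ℕ → ℤ := fun S => ∑ i ∈ S, (2 * i + 1 - 2 * n : ℤ)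
  set D : ℕ := 4 * n * (n.sqrt + 1) with hD
  have n0 : (2 : ℝ) ≤ n := by exact_mod_cast hn
  have D2 : 16 * n ^ 3 ≤ D ^ 2 := by
    have := (Nat.lt_succ_sqrt' n).le
    rw [hD, mul_pow, mul_pow]; simp only [Nat.succ_eq_add_one] at this; nlinarith [Nat.zero_le (n ^ 2)]
  have s1 : (1 : ℝ) ≤ √n := Real.one_le_sqrt.2 (by linarith)
  have D3 : (2 * D + 1 : ℝ) ≤ 17 * (n * √n) := by
    have : (n.sqrt : ℝ) ≤ √n := Real.nat_sqrt_le_real_sqrt
    rw [hD]; push_cast; nlinarith
  have tot := card_filter_add_card_filter_not (s := Om (n + n) n) (fun S => X S ∈ Icc (-D : ℤ) D)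
  have b1 : (({S ∈ Om (n + n) n | X S ∈ Icc (-D : ℤ) D} : Finset _).card : ℝ) ≤ (2 * D + 1) * a := by
    rw [card_eq_sum_card_fiberwise (f := X) (s := {S ∈ Om (n + n) n | X S ∈ Icc (-D : ℤ) D})
      (t := Icc (-D : ℤ) D) (fun S hS => mem_coe.2 (mem_filter.1 hS).2),
      Nat.cast_sum]
    refine (sum_le_card_nsmul _ _ a fun x _ => ?_).trans (le_of_eq ?_)
    · refine le_trans (Nat.cast_le.2 (card_le_card fun S hS => ?_))
        (lev_le n ((x + 2 * n * n - n) / 2).toNat)
      obtain ⟨h1, h2⟩ := mem_filter.1 hS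
      have h3 := (mem_filter.1 h1).1
      refine mem_filter.2 ⟨h3, ?_⟩
      have : X S = 2 * (∑ i ∈ S, i : ℕ) + n - 2 * n * n := by
        simp only [X, sum_sub_distrib, sum_add_distrib, ← mul_sum, sum_const, (mem_powersetCard.1 h3).2]
        push_cast; simp; ring
      rw [← h2, this]
      generalize 2 * (n : ℤ) * n = q
      omega
    · rw [Int.card_Icc, nsmul_eq_mul, show (D + 1 - -D : ℤ) = (2 * D + 1 : ℕ) by push_cast; ring,
        Int.toNat_natCast]
      push_cast; rfl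
  have b2 : 2 * ({S ∈ Om (n + n) n | ¬ X S ∈ Icc (-D : ℤ) D} : Finset _).card ≤ (n + n).choose n := by
    have h1 := card_nsmul_le_sum ({S ∈ Om (n + n) n | ¬ X S ∈ Icc (-D : ℤ) D} : Finset _)
      (fun S => X S ^ 2) ((D : ℤ) ^ 2) fun S hS => by
        have := (mem_filter.1 hS).2
        rw [mem_Icc, ← abs_le, not_le] at this
        rw [← sq_abs (X S)]; exact pow_le_pow_left₀ (by positivity) this.le 2
    have h2 := h1.trans ((sum_le_sum_of_subset_of_nonneg (filter_subset _ _)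
      fun _ _ _ => sq_nonneg _).trans (var n hn))
    rw [nsmul_eq_mul] at h2
    have D2 : (16 * n ^ 3 : ℤ) ≤ D ^ 2 := by exact_mod_cast D2
    have n3 : (0 : ℤ) < n ^ 3 := by positivity
    generalize ({S ∈ Om (n + n) n | ¬ X S ∈ Icc (-D : ℤ) D} : Finset _).card = b at *
    have := mul_le_mul_of_nonneg_left D2 (show (0 : ℤ) ≤ b by positivity)
    zify
    nlinarith
  rw [Om, card_powersetCard, card_range, ← Om] at tot
  have a0 : 0 ≤ a := le_trans (by positivity) (lev_le n 0)
  have t : (((n + n).choose n : ℕ) : ℝ) ≤ 2 * ((2 * D + 1) * a) := by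
    have : (n + n).choose n ≤ 2 * ({S ∈ Om (n + n) n | X S ∈ Icc (-D : ℤ) D} : Finset _).card := by omega
    have : (((n + n).choose n : ℕ) : ℝ) ≤ 2 * ({S ∈ Om (n + n) n | X S ∈ Icc (-D : ℤ) D} : Finset _).card := by
      exact_mod_cast this
    linarith
  rw [div_le_iff₀ (by positivity)]
  nlinarith

theorem upper' (n : ℕ) (hn : 1 ≤ n) : Real.logb 2 (AC n) ≤ 32000 * (((n + n).choose n : ℝ) / (n * √n)) := by
  refine (upper n hn).trans ?_
  have n0 : (0 : ℝ) < n := by exact_mod_cast hn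
  have s0 : 0 < √(n : ℝ) := Real.sqrt_pos.2 n0
  have h : (4 : ℝ) ^ n ≤ (n + n).choose n * (2 * √n) := by
    refine le_of_sq_le_sq ?_ (by positivity)
    obtain ⟨m, rfl⟩ : ∃ m, n = m + 1 := ⟨n - 1, by omega⟩
    have := cb_low m
    rw [Nat.centralBinom_eq_two_mul_choose, two_mul] at this
    rw [mul_pow, mul_pow, Real.sq_sqrt n0.le, ← pow_mul, mul_comm (m + 1) 2, pow_mul]
    norm_num
    exact_mod_cast this
  have hs : √(n : ℝ) * √n = n := Real.mul_self_sqrt n0.le
  calc _ ≤ 16000 / (n : ℝ) ^ 2 * ((n + n).choose n * (2 * √n)) :=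
        mul_le_mul_of_nonneg_left h (by positivity)
    _ = _ := by field_simp; rw [sq √(n : ℝ), hs]; ring

end Pool.Agent.H31.YL
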